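import Pool.Agent.P.MP_4c4e6e_co.EngSem

/-! Soundness of sine and cosine on affine forms. -/

namespace Pool.Agent.P.MP_4c4e6e_co.Eng

variable {e1 e2 e3 u : ℝ} {x : AF} {k : AF → Bool}

theorem tg_div (a : ℕ) {b : ℕ} (hb : 0 < b) :
    (a : ℝ) / b - 1 ≤ (Nat.div a b : ℕ) ∧ ((Nat.div a b : ℕ) : ℝ) ≤ (a : ℝ) / b := by
  have hb' : (0 : ℝ) < b := by exact_mod_cast hb
  refine ⟨?_, Nat.cast_div_le⟩
  have h1 : a < b * (a / b + 1) := Nat.lt_mul_div_succ a hb
  have h2 : (a : ℝ) < b * (((a / b : ℕ) : ℝ) + 1) := by exact_mod_cast h1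
  have h3 : (a : ℝ) / b < ((a / b : ℕ) : ℝ) + 1 := by
    rw [div_lt_iff₀ hb']
    linarith
  show (a : ℝ) / b - 1 ≤ ((a / b : ℕ) : ℝ)
  linarith

theorem tg_sub {a b : ℕ} (h : b ≤ a) : ((Nat.sub a b : ℕ) : ℝ) = a - b := Nat.cast_sub h

theorem tg_sub0 {a b : ℕ} (h : a ≤ b) : ((Nat.sub a b : ℕ) : ℝ) = 0 := by
  have : Nat.sub a b = 0 := Nat.sub_eq_zero_of_le h
  rw [this, Nat.cast_zero]

theorem tg_diff (a b : ℕ) : ((Nat.sub a b : ℕ) : ℝ) - (Nat.sub b a : ℕ) = a - b := by
  rcases le_total a b with h | h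
  · rw [tg_sub h, tg_sub0 h]; ring
  · rw [tg_sub h, tg_sub0 h]; ring

theorem tg_abs (a b : ℕ) : ((Nat.add (Nat.sub a b) (Nat.sub b a) : ℕ) : ℝ) = |(a : ℝ) - b| := by
  show ((Nat.sub a b + Nat.sub b a : ℕ) : ℝ) = _
  rw [Nat.cast_add]
  rcases le_total a b with h | h
  · have h' : (a : ℝ) ≤ b := by exact_mod_cast h
    rw [tg_sub h, tg_sub0 h, abs_of_nonpos (by linarith)]; ring
  · have h' : (b : ℝ) ≤ a := by exact_mod_cast h
    rw [tg_sub h, tg_sub0 h, abs_of_nonneg (by linarith)]; ring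

theorem tg_rd (ap an bp bn dp dn r : ℕ) : ((rd ap an bp bn dp dn r : ℕ) : ℝ) =
    |(ap : ℝ) - an| + |(bp : ℝ) - bn| + |(dp : ℝ) - dn| + r := by
  rw [← tg_abs, ← tg_abs, ← tg_abs]
  show ((Nat.add (Nat.sub ap an) (Nat.sub an ap) + Nat.add (Nat.sub bp bn) (Nat.sub bn bp) +
    (Nat.add (Nat.sub dp dn) (Nat.sub dn dp) + r) : ℕ) : ℝ) = _
  push_cast
  ring

theorem tg_taylor (x : ℝ) (h0 : 0 ≤ x) (h2 : x ≤ 2) :
    |Real.sin x - (x - x ^ 3 / 6 + x ^ 5 / 120 - x ^ 7 / 5040 + x ^ 9 / 362880 -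
      x ^ 11 / 39916800 + x ^ 13 / 6227020800)| ≤ 55200 / 1099511627776 ∧
    |Real.cos x - (1 - x ^ 2 / 2 + x ^ 4 / 24 - x ^ 6 / 720 + x ^ 8 / 40320 - x ^ 10 / 3628800 +
      x ^ 12 / 479001600 - x ^ 14 / 87178291200)| ≤ 55200 / 1099511627776 := by
  have hn : ‖(x : ℂ) * Complex.I‖ = x := by
    rw [norm_mul, Complex.norm_I, mul_one, Complex.norm_real, Real.norm_eq_abs, abs_of_nonneg h0]
  have h := Complex.exp_bound' (x := (x : ℂ) * Complex.I) (n := 15) (by
    rw [hn]; norm_num; linarith)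
  rw [hn] at h
  have hb : x ^ 15 / ((15 : ℕ).factorial : ℝ) * 2 ≤ 55200 / 1099511627776 := by
    have : x ^ 15 ≤ 2 ^ 15 := pow_le_pow_left₀ h0 h2 15
    norm_num [Nat.factorial] at this ⊢
    linarith
  have I2 : Complex.I ^ 2 = -1 := Complex.I_sq
  have I3 : Complex.I ^ 3 = -Complex.I := by rw [pow_succ, I2]; ring
  have I4 : Complex.I ^ 4 = 1 := Complex.I_pow_four
  have hp : ∀ n : ℕ, Complex.I ^ (n + 4) = Complex.I ^ n := fun n => by rw [pow_add, I4, mul_one]
  have hs : ∑ m ∈ Finset.range 15, ((x : ℂ) * Complex.I) ^ m / (m.factorial : ℂ) =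
      ((1 - x ^ 2 / 2 + x ^ 4 / 24 - x ^ 6 / 720 + x ^ 8 / 40320 - x ^ 10 / 3628800 +
      x ^ 12 / 479001600 - x ^ 14 / 87178291200 : ℝ) : ℂ) +
      ((x - x ^ 3 / 6 + x ^ 5 / 120 - x ^ 7 / 5040 + x ^ 9 / 362880 -
      x ^ 11 / 39916800 + x ^ 13 / 6227020800 : ℝ) : ℂ) * Complex.I := by
    have I5 : Complex.I ^ 5 = Complex.I := (hp 1).trans (pow_one _)
    have I6 : Complex.I ^ 6 = -1 := (hp 2).trans I2
    have I7 : Complex.I ^ 7 = -Complex.I := (hp 3).trans I3
    have I8 : Complex.I ^ 8 = 1 := (hp 4).trans I4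
    have I9 : Complex.I ^ 9 = Complex.I := (hp 5).trans I5
    have I10 : Complex.I ^ 10 = -1 := (hp 6).trans I6
    have I11 : Complex.I ^ 11 = -Complex.I := (hp 7).trans I7
    have I12 : Complex.I ^ 12 = 1 := (hp 8).trans I8
    have I13 : Complex.I ^ 13 = Complex.I := (hp 9).trans I9
    have I14 : Complex.I ^ 14 = -1 := (hp 10).trans I10
    simp only [Finset.sum_range_succ, Finset.sum_range_zero, mul_pow, I2, I3, I4, I5, I6, I7, I8,
      I9, I10, I11, I12, I13, I14, Nat.factorial]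
    push_cast
    ring
  rw [hs, Complex.exp_mul_I] at h
  have hre := (Complex.abs_re_le_norm _).trans h
  have him := (Complex.abs_im_le_norm _).trans h
  simp only [Complex.sub_re, Complex.add_re, Complex.mul_re, Complex.I_re, Complex.I_im,
    Complex.ofReal_re, Complex.ofReal_im, Complex.cos_ofReal_re, Complex.sin_ofReal_re,
    Complex.cos_ofReal_im, Complex.sin_ofReal_im, Complex.sub_im, Complex.add_im, Complex.mul_im,
    mul_zero, mul_one, zero_add, add_zero, sub_zero] at hre him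
  exact ⟨him.trans hb, hre.trans hb⟩

theorem tg_sinP (m : ℕ) (hm : m ≤ 2199023255552) :
    |Real.sin ((m : ℝ) / 1099511627776) * 1099511627776 -
      (sinP m (Nat.mul m m) (Nat.mul (Nat.mul m m) (Nat.mul m m)) : ℕ)| ≤ 55202 := by
  have hm' : (m : ℝ) ≤ 2199023255552 := by exact_mod_cast hm
  have h0 : (0 : ℝ) ≤ (m : ℝ) / 1099511627776 := by positivity
  have h2 : (m : ℝ) / 1099511627776 ≤ 2 := by rw [div_le_iff₀ (by norm_num)]; linarith
  have ht := (tg_taylor _ h0 h2).1
  have hs : 0 ≤ Real.sin ((m : ℝ) / 1099511627776) :=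
    Real.sin_nonneg_of_nonneg_of_le_pi h0 (h2.trans Real.two_le_pi)
  unfold sinP
  generalize hA : Nat.add (Nat.mul (Nat.add (Nat.mul (Nat.add (Nat.mul (Nat.mul m m) (Nat.mul m m)) 25079368096598294076375231729411416617295802437468160) (Nat.mul (Nat.mul m m) (Nat.mul m m))) 110840297510082118650029283173077411202625206641407848473648691586453374455052874519303544941378891939840) (Nat.mul (Nat.mul m m) (Nat.mul m m))) 19439193155187530197451618687144426283755680205216142787799908258051950025362847967614044606143308225045242424493166366027710769872822281798603296787660800 = A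
  generalize hB : Nat.mul (Nat.add (Nat.mul (Nat.add (Nat.mul 188592427859882151254163456 (Nat.mul (Nat.mul m m) (Nat.mul m m))) 2182974885474989406886755728117890684675172904267764735138406893821057585643520) (Nat.mul (Nat.mul m m) (Nat.mul m m))) 2679953950274107332581012254530255434016344004971344277040930448482204797961568011542608318583127750536377153110045945733369036800) (Nat.mul m m) = B
  have hT : ((m : ℝ) / 1099511627776 - ((m : ℝ) / 1099511627776) ^ 3 / 6 +
      ((m : ℝ) / 1099511627776) ^ 5 / 120 - ((m : ℝ) / 1099511627776) ^ 7 / 5040 +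
      ((m : ℝ) / 1099511627776) ^ 9 / 362880 - ((m : ℝ) / 1099511627776) ^ 11 / 39916800 +
      ((m : ℝ) / 1099511627776) ^ 13 / 6227020800) * 1099511627776 = (m : ℝ) * ((A : ℝ) - B) /
      19439193155187530197451618687144426283755680205216142787799908258051950025362847967614044606143308225045242424493166366027710769872822281798603296787660800 := by
    rw [← hA, ← hB]
    simp only [Nat.add_eq, Nat.mul_eq]
    push_cast
    ring
  have hd := tg_div (Nat.mul m (Nat.sub A B)) (b := 19439193155187530197451618687144426283755680205216142787799908258051950025362847967614044606143308225045242424493166366027710769872822281798603296787660800) (by norm_num)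
  have hc : ((Nat.mul m (Nat.sub A B) : ℕ) : ℝ) = m * ((Nat.sub A B : ℕ) : ℝ) := Nat.cast_mul _ _
  rw [hc] at hd
  generalize Nat.div (Nat.mul m (Nat.sub A B)) 19439193155187530197451618687144426283755680205216142787799908258051950025362847967614044606143308225045242424493166366027710769872822281798603296787660800 = F at hd ⊢
  rw [abs_le] at ht ⊢
  push_cast at hd
  rcases le_total A B with h | h
  · rw [tg_sub0 h] at hd
    have h' : (A : ℝ) - B ≤ 0 := by
      have : (A : ℝ) ≤ B := by exact_mod_cast h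
      linarith
    have hneg : (m : ℝ) * ((A : ℝ) - B) / 19439193155187530197451618687144426283755680205216142787799908258051950025362847967614044606143308225045242424493166366027710769872822281798603296787660800 ≤ 0 :=
      div_nonpos_of_nonpos_of_nonneg (mul_nonpos_of_nonneg_of_nonpos (Nat.cast_nonneg m) h')
        (by norm_num)
    have hF : (0 : ℝ) ≤ F := Nat.cast_nonneg F
    rw [mul_zero, zero_div] at hd
    constructor <;> linarith [ht.1, ht.2, hd.1, hd.2]
  · rw [tg_sub h] at hd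
    constructor <;> linarith [ht.1, ht.2, hd.1, hd.2]

theorem tg_cosP (m : ℕ) (hm : m ≤ 2199023255552) :
    |Real.cos ((m : ℝ) / 1099511627776) * 1099511627776 -
      (((cosA (Nat.mul (Nat.mul m m) (Nat.mul m m)) : ℕ) : ℝ) -
        (cosB (Nat.mul m m) (Nat.mul (Nat.mul m m) (Nat.mul m m)) : ℕ))| ≤ 55202 := by
  have hm' : (m : ℝ) ≤ 2199023255552 := by exact_mod_cast hm
  have h0 : (0 : ℝ) ≤ (m : ℝ) / 1099511627776 := by positivity
  have h2 : (m : ℝ) / 1099511627776 ≤ 2 := by rw [div_le_iff₀ (by norm_num)]; linarith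
  have ht := (tg_taylor _ h0 h2).2
  unfold cosA cosB
  generalize hA : Nat.add (Nat.mul (Nat.add (Nat.mul (Nat.add (Nat.mul 220024499169862509796524032 (Nat.mul (Nat.mul m m) (Nat.mul m m))) 3820206049581231462051822524206308698181552582468588286492212064186850774876160) (Nat.mul (Nat.mul m m) (Nat.mul m m))) 9379838825959375664033542890855894019057204017399704969643256569687716792865488040399129115040947126877320035885160810066791628800) (Nat.mul (Nat.mul m m) (Nat.mul m m))) 329007595248950440038556018002089289156256393160923828932433655994087654754778841220910083127640307770963238074022739429103834840061827806221055317061053592894354896519032943411200 = A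
  generalize hB : Nat.mul (Nat.add (Nat.mul (Nat.add (Nat.mul (Nat.add (Nat.mul (Nat.mul m m) (Nat.mul m m)) 35111115335237611706925324421175983264214123412455424) (Nat.mul (Nat.mul m m) (Nat.mul m m))) 258627360856858276850068327403847292806125482163284979771846947035057873728456707211708271529884081192960) (Nat.mul (Nat.mul m m) (Nat.mul m m))) 136074352086312711382161330810010983986289761436512999514599357806363650177539935773298312243003157575316696971452164562193975389109755972590223077513625600) (Nat.mul m m) = B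
  have hT : (1 - ((m : ℝ) / 1099511627776) ^ 2 / 2 +
      ((m : ℝ) / 1099511627776) ^ 4 / 24 - ((m : ℝ) / 1099511627776) ^ 6 / 720 +
      ((m : ℝ) / 1099511627776) ^ 8 / 40320 - ((m : ℝ) / 1099511627776) ^ 10 / 3628800 +
      ((m : ℝ) / 1099511627776) ^ 12 / 479001600 -
      ((m : ℝ) / 1099511627776) ^ 14 / 87178291200) * 1099511627776 = (A : ℝ) /
      299230664721972461883120575295915195198409849727726240355362875556318299236207932354691441221475822904688573611586197720593040539881101545889628429959933412550849331200 - (B : ℝ) /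
      299230664721972461883120575295915195198409849727726240355362875556318299236207932354691441221475822904688573611586197720593040539881101545889628429959933412550849331200 := by
    rw [← hA, ← hB]
    simp only [Nat.add_eq, Nat.mul_eq]
    push_cast
    ring
  have hd := tg_div A (b := 299230664721972461883120575295915195198409849727726240355362875556318299236207932354691441221475822904688573611586197720593040539881101545889628429959933412550849331200) (by norm_num)
  have hd' := tg_div B (b := 299230664721972461883120575295915195198409849727726240355362875556318299236207932354691441221475822904688573611586197720593040539881101545889628429959933412550849331200) (by norm_num)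
  generalize Nat.div A 299230664721972461883120575295915195198409849727726240355362875556318299236207932354691441221475822904688573611586197720593040539881101545889628429959933412550849331200 = F at hd ⊢
  generalize Nat.div B 299230664721972461883120575295915195198409849727726240355362875556318299236207932354691441221475822904688573611586197720593040539881101545889628429959933412550849331200 = F' at hd' ⊢
  rw [abs_le] at ht ⊢
  push_cast at hd hd'
  constructor <;> linarith [ht.1, ht.2, hd.1, hd.2, hd'.1, hd'.2]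

/-- the real inequality behind `trig` -/
theorem tg_real {S s0 o0 t L sp sn o p r : ℝ} (hS : 0 < S) (hsp : 0 ≤ sp) (hsn : 0 ≤ sn)
    (ho : 0 ≤ o) (ht : |t * S - L| ≤ r) (htp : |t| * S ≤ p) (hp : p ≤ S)
    (hs : |s0 * S - (sp - sn)| ≤ 55202) (hoo : |o0 * S - o| ≤ 55202) (ho1 : |o0| ≤ 1) :
    |(s0 * Real.cos t + o0 * Real.sin t) * S -
      ((sp - sn) * (1 - p * p / (4 * S ^ 2)) + o / S * L)| ≤
      110404 + o * r / S + p * p * (3 * (sp + sn) + 2 * p) / (12 * S ^ 2) := by
  have hta : |t| ≤ p / S := by rw [le_div_iff₀ hS]; exact htp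
  have hp0 : 0 ≤ p := le_trans (by positivity) htp
  have ht1 : |t| ≤ 1 := hta.trans ((div_le_one hS).2 hp)
  have ht2 : t ^ 2 ≤ p * p / S ^ 2 := by
    have := pow_le_pow_left₀ (abs_nonneg t) hta 2
    rw [sq_abs] at this
    calc t ^ 2 ≤ (p / S) ^ 2 := this
      _ = p * p / S ^ 2 := by ring
  have hc : |Real.cos t - 1 + p * p / (4 * S ^ 2)| ≤ p * p / (4 * S ^ 2) := by
    have h1 := Real.one_sub_sq_div_two_le_cos (x := t)
    have h2 := Real.cos_le_one t
    have h3 : p * p / (4 * S ^ 2) = p * p / S ^ 2 / 4 := by ring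
    rw [h3, abs_le]
    constructor <;> linarith
  have hsin : |Real.sin t - t| ≤ (p / S) ^ 3 / 6 := by
    rw [abs_sub_comm]
    refine (Real.abs_sub_sin_le t).trans ?_
    have := pow_le_pow_left₀ (abs_nonneg t) hta 3
    linarith
  have e : (s0 * Real.cos t + o0 * Real.sin t) * S -
      ((sp - sn) * (1 - p * p / (4 * S ^ 2)) + o / S * L) =
      (s0 * S - (sp - sn)) * Real.cos t + (sp - sn) * (Real.cos t - 1 + p * p / (4 * S ^ 2)) +
      S * (o0 * (Real.sin t - t)) + (o0 * S - o) * t + o / S * (t * S - L) := by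
    field_simp
    ring
  have b1 : |(s0 * S - (sp - sn)) * Real.cos t| ≤ 55202 := by
    rw [abs_mul]
    exact (mul_le_mul hs (Real.abs_cos_le_one t) (abs_nonneg _) (by norm_num)).trans (by norm_num)
  have b2 : |(sp - sn) * (Real.cos t - 1 + p * p / (4 * S ^ 2))| ≤
      (sp + sn) * (p * p / (4 * S ^ 2)) := by
    rw [abs_mul]
    exact mul_le_mul (abs_le.2 ⟨by linarith, by linarith⟩) hc (abs_nonneg _) (by linarith)
  have b3 : |S * (o0 * (Real.sin t - t))| ≤ S * ((p / S) ^ 3 / 6) := by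
    rw [abs_mul, abs_of_pos hS, abs_mul]
    refine mul_le_mul_of_nonneg_left ?_ hS.le
    exact (mul_le_mul ho1 hsin (abs_nonneg _) zero_le_one).trans (by rw [one_mul])
  have b4 : |(o0 * S - o) * t| ≤ 55202 := by
    rw [abs_mul]
    exact (mul_le_mul hoo ht1 (abs_nonneg _) (by norm_num)).trans (by norm_num)
  have b5 : |o / S * (t * S - L)| ≤ o / S * r := by
    rw [abs_mul, abs_of_nonneg (by positivity : 0 ≤ o / S)]
    exact mul_le_mul_of_nonneg_left ht (by positivity)
  have e2 : 110404 + o * r / S + p * p * (3 * (sp + sn) + 2 * p) / (12 * S ^ 2) =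
      55202 + (sp + sn) * (p * p / (4 * S ^ 2)) + S * ((p / S) ^ 3 / 6) + 55202 + o / S * r := by
    field_simp
    ring
  rw [e, e2]
  rw [abs_le] at b1 b2 b3 b4 b5 ⊢
  constructor <;> linarith [b1.1, b1.2, b2.1, b2.2, b3.1, b3.2, b4.1, b4.2, b5.1, b5.2]

theorem tg_lane {e : ℝ} (he : |e| ≤ 1) (o a b : ℕ) :
    |(((Nat.div (Nat.mul o a) 1099511627776 : ℕ) : ℝ) -
      (Nat.div (Nat.mul o b) 1099511627776 : ℕ)) * e -
      (o : ℝ) / 1099511627776 * (((a : ℝ) - b) * e)| ≤ 1 := by
  have h1 := tg_div (Nat.mul o a) (b := 1099511627776) (by norm_num)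
  have h2 := tg_div (Nat.mul o b) (b := 1099511627776) (by norm_num)
  generalize Nat.div (Nat.mul o a) 1099511627776 = F at h1 ⊢
  generalize Nat.div (Nat.mul o b) 1099511627776 = F' at h2 ⊢
  simp only [Nat.mul_eq] at h1 h2
  push_cast at h1 h2
  have e : ((F : ℝ) - F') * e - (o : ℝ) / 1099511627776 * (((a : ℝ) - b) * e) =
      ((F : ℝ) - F' - ((o : ℝ) * a / 1099511627776 - (o : ℝ) * b / 1099511627776)) * e := by ring
  rw [e, abs_mul]
  refine (mul_le_mul (abs_le.2 ⟨?_, ?_⟩) he (abs_nonneg _) zero_le_one).trans (by rw [one_mul]) <;>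
    linarith [h1.1, h1.2, h2.1, h2.2]

theorem tg_trig (h1 : |e1| ≤ 1) (h2 : |e2| ≤ 1) (h3 : |e3| ≤ 1) {s0 o0 t : ℝ}
    {sp sn o p ap an bp bn dp dn r : ℕ}
    (ht : |t * 1099511627776 -
      (((ap : ℝ) - an) * e1 + ((bp : ℝ) - bn) * e2 + ((dp : ℝ) - dn) * e3)| ≤ r)
    (htp : |t| * 1099511627776 ≤ p) (hp : p ≤ 1099511627776)
    (hs : |s0 * 1099511627776 - ((sp : ℝ) - sn)| ≤ 55202)
    (hoo : |o0 * 1099511627776 - o| ≤ 55202) (ho1 : |o0| ≤ 1)
    (h : trig sp sn o p (Nat.mul p p) ap an bp bn dp dn r k = true) :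
    ∃ z, Rep e1 e2 e3 z (s0 * Real.cos t + o0 * Real.sin t) ∧ k z = true := by
  refine ⟨_, ?_, h⟩
  have hr := tg_real (by norm_num) (Nat.cast_nonneg sp) (Nat.cast_nonneg sn) (Nat.cast_nonneg o)
    ht htp (by exact_mod_cast hp) hs hoo ho1
  have l1 := tg_lane h1 o ap an
  have l2 := tg_lane h2 o bp bn
  have l3 := tg_lane h3 o dp dn
  have d1 := tg_div (Nat.mul sn (Nat.mul p p)) (b := 4835703278458516698824704) (by norm_num)
  have d2 := tg_div (Nat.mul sp (Nat.mul p p)) (b := 4835703278458516698824704) (by norm_num)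
  have d3 := tg_div (Nat.mul o r) (b := 1099511627776) (by norm_num)
  have d4 := tg_div (Nat.mul (Nat.mul p p) (Nat.add (Nat.mul 3 (Nat.add sp sn)) (Nat.mul 2 p)))
    (b := 14507109835375550096474112) (by norm_num)
  unfold Rep
  dsimp only
  generalize Nat.div (Nat.mul sn (Nat.mul p p)) 4835703278458516698824704 = F1 at d1 ⊢
  generalize Nat.div (Nat.mul sp (Nat.mul p p)) 4835703278458516698824704 = F2 at d2 ⊢
  generalize Nat.div (Nat.mul o r) 1099511627776 = F3 at d3 ⊢
  generalize Nat.div (Nat.mul (Nat.mul p p) (Nat.add (Nat.mul 3 (Nat.add sp sn)) (Nat.mul 2 p)))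
    14507109835375550096474112 = F4 at d4 ⊢
  generalize ((Nat.div (Nat.mul o ap) 1099511627776 : ℕ) : ℝ) -
    (Nat.div (Nat.mul o an) 1099511627776 : ℕ) = G1 at l1 ⊢
  generalize ((Nat.div (Nat.mul o bp) 1099511627776 : ℕ) : ℝ) -
    (Nat.div (Nat.mul o bn) 1099511627776 : ℕ) = G2 at l2 ⊢
  generalize ((Nat.div (Nat.mul o dp) 1099511627776 : ℕ) : ℝ) -
    (Nat.div (Nat.mul o dn) 1099511627776 : ℕ) = G3 at l3 ⊢
  simp only [Nat.add_eq, Nat.mul_eq] at d1 d2 d3 d4 ⊢
  push_cast at d1 d2 d3 d4 ⊢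
  generalize s0 * Real.cos t + o0 * Real.sin t = V at hr ⊢
  rw [abs_le] at hr l1 l2 l3 ⊢
  constructor <;>
    linarith [hr.1, hr.2, l1.1, l1.2, l2.1, l2.2, l3.1, l3.2, d1.1, d1.2, d2.1, d2.2, d3.1, d4.1]

theorem tg_pre {cp cn p : ℕ} {K : ℕ → ℕ → ℕ → Bool} (h : pre cp cn p K = true) :
    ∃ m : ℕ, (m : ℝ) = |(cp : ℝ) - cn| ∧ m ≤ 2199023255552 ∧ p ≤ 1099511627776 ∧
      K m (Nat.mul m m) (Nat.mul (Nat.mul m m) (Nat.mul m m)) = true := by
  unfold pre at h
  rw [fN_eq] at h
  refine ⟨_, tg_abs cp cn, ?_⟩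
  generalize Nat.add (Nat.sub cp cn) (Nat.sub cn cp) = m at h ⊢
  cases ha : Nat.ble m 2199023255552
  · rw [ha] at h; exact absurd h Bool.false_ne_true
  · cases hb : Nat.ble p 1099511627776
    · rw [ha, hb] at h; exact absurd h Bool.false_ne_true
    · rw [ha, hb] at h
      exact ⟨Nat.le_of_ble_eq_true ha, Nat.le_of_ble_eq_true hb, h⟩

theorem tg_off (h1 : |e1| ≤ 1) (h2 : |e2| ≤ 1) (h3 : |e3| ≤ 1) {cp cn ap an bp bn dp dn r : ℕ}
    (hx : Rep e1 e2 e3 ⟨cp, cn, ap, an, bp, bn, dp, dn, r⟩ u) :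
    |(u - ((cp : ℝ) - cn) / 1099511627776) * 1099511627776 -
      (((ap : ℝ) - an) * e1 + ((bp : ℝ) - bn) * e2 + ((dp : ℝ) - dn) * e3)| ≤ r ∧
    |-(u - ((cp : ℝ) - cn) / 1099511627776) * 1099511627776 -
      (((an : ℝ) - ap) * e1 + ((bn : ℝ) - bp) * e2 + ((dn : ℝ) - dp) * e3)| ≤ r ∧
    |u - ((cp : ℝ) - cn) / 1099511627776| * 1099511627776 ≤ (rd ap an bp bn dp dn r : ℕ) := by
  unfold Rep at hx
  dsimp only at hx
  have a1 : |((ap : ℝ) - an) * e1| ≤ |(ap : ℝ) - an| := by
    rw [abs_mul]; exact mul_le_of_le_one_right (abs_nonneg _) h1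
  have a2 : |((bp : ℝ) - bn) * e2| ≤ |(bp : ℝ) - bn| := by
    rw [abs_mul]; exact mul_le_of_le_one_right (abs_nonneg _) h2
  have a3 : |((dp : ℝ) - dn) * e3| ≤ |(dp : ℝ) - dn| := by
    rw [abs_mul]; exact mul_le_of_le_one_right (abs_nonneg _) h3
  have e : |u - ((cp : ℝ) - cn) / 1099511627776| * 1099511627776 =
      |(u - ((cp : ℝ) - cn) / 1099511627776) * 1099511627776| := by
    rw [abs_mul, abs_of_pos (by norm_num : (0 : ℝ) < 1099511627776)]
  rw [e, tg_rd]
  rw [abs_le] at hx a1 a2 a3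
  refine ⟨abs_le.2 ⟨?_, ?_⟩, abs_le.2 ⟨?_, ?_⟩, abs_le.2 ⟨?_, ?_⟩⟩ <;>
    linarith [hx.1, hx.2, a1.1, a1.2, a2.1, a2.2, a3.1, a3.2]

theorem tg_sin1 (h1 : |e1| ≤ 1) (h2 : |e2| ≤ 1) (h3 : |e3| ≤ 1) {s0 o0 t : ℝ}
    {sp sn a b p ap an bp bn dp dn r : ℕ}
    (ht : |t * 1099511627776 -
      (((ap : ℝ) - an) * e1 + ((bp : ℝ) - bn) * e2 + ((dp : ℝ) - dn) * e3)| ≤ r)
    (ht' : |-t * 1099511627776 -
      (((an : ℝ) - ap) * e1 + ((bn : ℝ) - bp) * e2 + ((dn : ℝ) - dp) * e3)| ≤ r)
    (htp : |t| * 1099511627776 ≤ p) (hp : p ≤ 1099511627776)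
    (hs : |s0 * 1099511627776 - ((sp : ℝ) - sn)| ≤ 55202)
    (hoo : |o0 * 1099511627776 - ((a : ℝ) - b)| ≤ 55202) (ho1 : |o0| ≤ 1)
    (h : sin1 sp sn a b p ap an bp bn dp dn r k = true) :
    ∃ z, Rep e1 e2 e3 z (s0 * Real.cos t + o0 * Real.sin t) ∧ k z = true := by
  unfold sin1 at h
  cases hb : Nat.ble b a
  · rw [hb] at h
    have hab : a ≤ b := by
      by_contra hc
      rw [Nat.ble_eq_true_of_le (by omega)] at hb
      exact Bool.noConfusion hb
    have := tg_trig (s0 := s0) (o0 := -o0) (t := -t) h1 h2 h3 ht' (by rwa [abs_neg]) hp hs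
      (by rw [tg_sub hab, ← abs_neg]; convert hoo using 2; ring) (by rwa [abs_neg]) h
    rwa [Real.cos_neg, Real.sin_neg, neg_mul_neg] at this
  · rw [hb] at h
    exact tg_trig h1 h2 h3 ht htp hp hs (by rwa [tg_sub (Nat.le_of_ble_eq_true hb)]) ho1 h

theorem sinK_ok (h1 : |e1| ≤ 1) (h2 : |e2| ≤ 1) (h3 : |e3| ≤ 1)
    (hx : Rep e1 e2 e3 x u) (h : sinK x k = true) :
    ∃ z, Rep e1 e2 e3 z (Real.sin u) ∧ k z = true := by
  obtain ⟨cp, cn, ap, an, bp, bn, dp, dn, r⟩ := x
  obtain ⟨ht, ht', htp⟩ := tg_off h1 h2 h3 hx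
  unfold sinK at h
  dsimp only at h
  obtain ⟨m, hm, hm2, hp, h⟩ := tg_pre h
  have hs := tg_sinP m hm2
  have hc := tg_cosP m hm2
  have hu : Real.sin u = Real.sin (((cp : ℝ) - cn) / 1099511627776) *
      Real.cos (u - ((cp : ℝ) - cn) / 1099511627776) + Real.cos (((cp : ℝ) - cn) / 1099511627776) *
      Real.sin (u - ((cp : ℝ) - cn) / 1099511627776) := by
    rw [← Real.sin_add]; congr 1; ring
  rw [hu]
  cases hb : Nat.ble cn cp
  · rw [hb] at h
    have hab : cp ≤ cn := by
      by_contra hc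
      rw [Nat.ble_eq_true_of_le (by omega)] at hb
      exact Bool.noConfusion hb
    have hab' : (cp : ℝ) - cn ≤ 0 := by
      have : (cp : ℝ) ≤ cn := by exact_mod_cast hab
      linarith
    rw [hm, abs_of_nonpos hab', neg_div] at hs hc
    rw [Real.sin_neg] at hs
    rw [Real.cos_neg] at hc
    refine tg_sin1 h1 h2 h3 ht ht' htp hp ?_ hc (Real.abs_cos_le_one _) h
    rw [← abs_neg]
    convert hs using 2
    push_cast
    ring
  · rw [hb] at h
    have hab' : 0 ≤ (cp : ℝ) - cn := by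
      have : (cn : ℝ) ≤ cp := by exact_mod_cast Nat.le_of_ble_eq_true hb
      linarith
    rw [hm, abs_of_nonneg hab'] at hs hc
    refine tg_sin1 h1 h2 h3 ht ht' htp hp ?_ hc (Real.abs_cos_le_one _) h
    rwa [Nat.cast_zero, sub_zero]

theorem cosK_ok (h1 : |e1| ≤ 1) (h2 : |e2| ≤ 1) (h3 : |e3| ≤ 1)
    (hx : Rep e1 e2 e3 x u) (h : cosK x k = true) :
    ∃ z, Rep e1 e2 e3 z (Real.cos u) ∧ k z = true := by
  obtain ⟨cp, cn, ap, an, bp, bn, dp, dn, r⟩ := x
  obtain ⟨ht, ht', htp⟩ := tg_off h1 h2 h3 hx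
  unfold cosK at h
  dsimp only at h
  obtain ⟨m, hm, hm2, hp, h⟩ := tg_pre h
  have hs := tg_sinP m hm2
  have hc := tg_cosP m hm2
  have hu : Real.cos u = Real.cos (((cp : ℝ) - cn) / 1099511627776) *
      Real.cos (u - ((cp : ℝ) - cn) / 1099511627776) + -Real.sin (((cp : ℝ) - cn) / 1099511627776) *
      Real.sin (u - ((cp : ℝ) - cn) / 1099511627776) := by
    rw [neg_mul, ← sub_eq_add_neg, ← Real.cos_add]; congr 1; ring
  rw [hu]
  cases hb : Nat.ble cn cp
  · rw [hb] at h
    have hab : cp ≤ cn := by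
      by_contra hc
      rw [Nat.ble_eq_true_of_le (by omega)] at hb
      exact Bool.noConfusion hb
    have hab' : (cp : ℝ) - cn ≤ 0 := by
      have : (cp : ℝ) ≤ cn := by exact_mod_cast hab
      linarith
    rw [hm, abs_of_nonpos hab', neg_div] at hs hc
    rw [Real.sin_neg] at hs
    rw [Real.cos_neg] at hc
    exact tg_trig h1 h2 h3 ht htp hp (by rwa [tg_diff]) hs
      (by rw [abs_neg]; exact Real.abs_sin_le_one _) h
  · rw [hb] at h
    have hab' : 0 ≤ (cp : ℝ) - cn := by
      have : (cn : ℝ) ≤ cp := by exact_mod_cast Nat.le_of_ble_eq_true hb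
      linarith
    rw [hm, abs_of_nonneg hab'] at hs hc
    have := tg_trig (s0 := Real.cos (((cp : ℝ) - cn) / 1099511627776))
      (o0 := Real.sin (((cp : ℝ) - cn) / 1099511627776)) h1 h2 h3 ht' (by rwa [abs_neg]) hp
      (by rwa [tg_diff]) hs (Real.abs_sin_le_one _) h
    rwa [Real.cos_neg, Real.sin_neg, mul_neg, ← neg_mul] at this

end Pool.Agent.P.MP_4c4e6e_co.Eng
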