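import Pool.Agent.P.MP_4c4e6e_co.EngAlg
import Pool.Agent.P.MP_4c4e6e_co.EngTrig

/-! Soundness of the checker. -/

namespace Pool.Agent.P.MP_4c4e6e_co.Eng

variable {e1 e2 e3 : ℝ}

theorem getK_ok {l : List AF} {r : List ℝ} (H : List.Forall₂ (Rep e1 e2 e3) l r) :
    ∀ (n : ℕ) (k : AF → Bool), getK l n k = true →
      ∃ z, Rep e1 e2 e3 z (r.getD n 0) ∧ k z = true := by
  induction H with
  | nil => intro n k h; exact absurd h (by simp [getK])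
  | @cons a b l r hab _ ih =>
    intro n k h
    cases n with
    | zero => exact ⟨a, hab, h⟩
    | succ m => exact ih m k h

theorem evK_ok (h1 : |e1| ≤ 1) (h2 : |e2| ≤ 1) (h3 : |e3| ≤ 1) {l : List AF} {r : List ℝ}
    (H : List.Forall₂ (Rep e1 e2 e3) l r) (e : E) :
    ∀ k : AF → Bool, evK l e k = true → ∃ z, Rep e1 e2 e3 z (e.val r) ∧ k z = true := by
  induction e with
  | v i => intro k h; exact getK_ok H i k h
  | c n m => intro k h; exact ⟨_, const_ok n m, h⟩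
  | add x y ihx ihy =>
    intro k h
    obtain ⟨a, ha, h⟩ := ihx _ h
    obtain ⟨b, hb, h⟩ := ihy _ h
    exact addK_ok ha hb h
  | sub x y ihx ihy =>
    intro k h
    obtain ⟨a, ha, h⟩ := ihx _ h
    obtain ⟨b, hb, h⟩ := ihy _ h
    exact subK_ok ha hb h
  | mul x y ihx ihy =>
    intro k h
    obtain ⟨a, ha, h⟩ := ihx _ h
    obtain ⟨b, hb, h⟩ := ihy _ h
    exact mulK_ok h1 h2 h3 ha hb h
  | neg x ih =>
    intro k h
    obtain ⟨a, ha, h⟩ := ih _ h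
    exact negK_ok ha h
  | sm n m x ih =>
    intro k h
    obtain ⟨a, ha, h⟩ := ih _ h
    exact smK_ok h1 h2 h3 ha h
  | sq x ih =>
    intro k h
    obtain ⟨a, ha, h⟩ := ih _ h
    exact sqK_ok h1 h2 h3 ha h
  | inv x ih =>
    intro k h
    obtain ⟨a, ha, h⟩ := ih _ h
    exact invK_ok h1 h2 h3 ha h
  | sqrt x ih =>
    intro k h
    obtain ⟨a, ha, h⟩ := ih _ h
    exact sqrtK_ok h1 h2 h3 ha h
  | sin x ih =>
    intro k h
    obtain ⟨a, ha, h⟩ := ih _ h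
    exact sinK_ok h1 h2 h3 ha h
  | cos x ih =>
    intro k h
    obtain ⟨a, ha, h⟩ := ih _ h
    exact cosK_ok h1 h2 h3 ha h

theorem orB {a b : Bool} (h : (Bool.rec b true a : Bool) = true) : a = true ∨ b = true := by
  cases a
  · exact Or.inr h
  · exact Or.inl rfl

theorem andB {a b : Bool} (h : (Bool.rec false b a : Bool) = true) : a = true ∧ b = true := by
  cases a
  · exact absurd h (by simp)
  · exact ⟨rfl, h⟩

theorem run_ok (h1 : |e1| ≤ 1) (h2 : |e2| ≤ 1) (h3 : |e3| ≤ 1) (p : Pg) :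
    ∀ {l : List AF} {r : List ℝ}, List.Forall₂ (Rep e1 e2 e3) l r → run p l = true →
      p.holds r := by
  induction p with
  | tru => intro l r _ _; trivial
  | fls => intro l r _ h; exact absurd h (by simp [run])
  | lt e p ih =>
    intro l r H h v hv
    obtain ⟨a, ha, h⟩ := evK_ok h1 h2 h3 H e _ h
    exact ih (List.Forall₂.cons (hv ▸ ha) H) h
  | rng lo hi m p ih =>
    intro l r H h v hv1 hv2
    exact ih (List.Forall₂.cons (rng_ok hv1 hv2) H) h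
  | ite e p q ihp ihq =>
    intro l r H h
    rcases orB h with h | h
    · obtain ⟨a, ha, h⟩ := evK_ok h1 h2 h3 H e _ h
      obtain ⟨hp, h⟩ := andB h
      exact Or.inl ⟨posB_ok h1 h2 h3 ha hp, ihp H h⟩
    · exact Or.inr (ihq H h)
  | or p q ihp ihq =>
    intro l r H h
    rcases orB h with h | h
    · exact Or.inl (ihp H h)
    · exact Or.inr (ihq H h)

theorem noise {l g : ℕ} {x : ℝ} (h1 : (l : ℝ) ≤ x * 2 ^ 40) (h2 : x * 2 ^ 40 ≤ l + 2 * g) :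
    ∃ e : ℝ, |e| ≤ 1 ∧ x * 2 ^ 40 = l + g + g * e := by
  rcases Nat.eq_zero_or_pos g with hg | hg
  · subst hg
    refine ⟨0, by simp, ?_⟩
    simp only [Nat.cast_zero] at h2 ⊢
    linarith
  · have hg' : (0 : ℝ) < g := by exact_mod_cast hg
    refine ⟨(x * 2 ^ 40 - l - g) / g, ?_, ?_⟩
    · rw [abs_le]
      constructor
      · rw [le_div_iff₀ hg']; linarith
      · rw [div_le_iff₀ hg']; linarith
    · field_simp
      ring

theorem cov_leaf {p : Pg} {l1 g1 l2 g2 l3 g3 : ℕ}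
    (h : run p [⟨Nat.add l3 g3, 0, 0, 0, 0, 0, g3, 0, 0⟩, ⟨Nat.add l2 g2, 0, 0, 0, g2, 0, 0, 0, 0⟩,
      ⟨Nat.add l1 g1, 0, g1, 0, 0, 0, 0, 0, 0⟩] = true) : Cov p l1 g1 l2 g2 l3 g3 := by
  intro x1 x2 x3 a1 b1 a2 b2 a3 b3
  obtain ⟨e1, h1, k1⟩ := noise a1 b1
  obtain ⟨e2, h2, k2⟩ := noise a2 b2
  obtain ⟨e3, h3, k3⟩ := noise a3 b3
  refine run_ok h1 h2 h3 p ?_ h
  refine List.Forall₂.cons ?_ (List.Forall₂.cons ?_ (List.Forall₂.cons ?_ List.Forall₂.nil))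
  · simp [Rep, k3]
  · simp [Rep, k2]
  · simp [Rep, k1]

theorem cov1 {p : Pg} {l1 g1 l2 g2 l3 g3 g m : ℕ} (h1 : Cov p l1 g l2 g2 l3 g3)
    (h2 : Cov p m g l2 g2 l3 g3) (hm : m ≤ l1 + 2 * g) (hg : l1 + 2 * g1 ≤ m + 2 * g) :
    Cov p l1 g1 l2 g2 l3 g3 := by
  intro x1 x2 x3 a1 b1 a2 b2 a3 b3
  have hm' : (m : ℝ) ≤ l1 + 2 * g := by exact_mod_cast hm
  have hg' : (l1 : ℝ) + 2 * g1 ≤ m + 2 * g := by exact_mod_cast hg
  rcases le_total (x1 * 2 ^ 40) (m : ℝ) with h | h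
  · exact h1 x1 x2 x3 a1 (by linarith) a2 b2 a3 b3
  · exact h2 x1 x2 x3 h (by linarith) a2 b2 a3 b3

theorem cov2 {p : Pg} {l1 g1 l2 g2 l3 g3 g m : ℕ} (h1 : Cov p l1 g1 l2 g l3 g3)
    (h2 : Cov p l1 g1 m g l3 g3) (hm : m ≤ l2 + 2 * g) (hg : l2 + 2 * g2 ≤ m + 2 * g) :
    Cov p l1 g1 l2 g2 l3 g3 := by
  intro x1 x2 x3 a1 b1 a2 b2 a3 b3
  have hm' : (m : ℝ) ≤ l2 + 2 * g := by exact_mod_cast hm
  have hg' : (l2 : ℝ) + 2 * g2 ≤ m + 2 * g := by exact_mod_cast hg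
  rcases le_total (x2 * 2 ^ 40) (m : ℝ) with h | h
  · exact h1 x1 x2 x3 a1 b1 a2 (by linarith) a3 b3
  · exact h2 x1 x2 x3 a1 b1 h (by linarith) a3 b3

theorem cov3 {p : Pg} {l1 g1 l2 g2 l3 g3 g m : ℕ} (h1 : Cov p l1 g1 l2 g2 l3 g)
    (h2 : Cov p l1 g1 l2 g2 m g) (hm : m ≤ l3 + 2 * g) (hg : l3 + 2 * g3 ≤ m + 2 * g) :
    Cov p l1 g1 l2 g2 l3 g3 := by
  intro x1 x2 x3 a1 b1 a2 b2 a3 b3
  have hm' : (m : ℝ) ≤ l3 + 2 * g := by exact_mod_cast hm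
  have hg' : (l3 : ℝ) + 2 * g3 ≤ m + 2 * g := by exact_mod_cast hg
  rcases le_total (x3 * 2 ^ 40) (m : ℝ) with h | h
  · exact h1 x1 x2 x3 a1 b1 a2 b2 a3 (by linarith)
  · exact h2 x1 x2 x3 a1 b1 a2 b2 h (by linarith)

theorem bb_aux (p : Pg) (fuel : ℕ) : ∀ (w l1 g1 l2 g2 l3 g3 : ℕ) (k : ℕ → Bool),
    bb p fuel w l1 g1 l2 g2 l3 g3 k = true → Cov p l1 g1 l2 g2 l3 g3 ∧ ∃ w', k w' = true := by
  induction fuel with
  | zero => intro w l1 g1 l2 g2 l3 g3 k h; exact absurd h (by simp [bb])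
  | succ f ih =>
    intro w l1 g1 l2 g2 l3 g3 k h
    have hs : bb p (f + 1) w l1 g1 l2 g2 l3 g3 k =
      fN (Nat.div w 4) fun w' =>
      Nat.rec
        (Bool.rec false (k w')
          (run p [⟨Nat.add l3 g3, 0, 0, 0, 0, 0, g3, 0, 0⟩, ⟨Nat.add l2 g2, 0, 0, 0, g2, 0, 0, 0, 0⟩,
            ⟨Nat.add l1 g1, 0, g1, 0, 0, 0, 0, 0, 0⟩]))
        (fun j _ => Nat.rec
          (fN (Nat.div (Nat.succ g1) 2) fun g => fN (Nat.add l1 g1) fun hi =>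
            bb p f w' l1 g l2 g2 l3 g3 fun w'' => bb p f w'' hi g l2 g2 l3 g3 k)
          (fun j _ => Nat.rec
            (fN (Nat.div (Nat.succ g2) 2) fun g => fN (Nat.add l2 g2) fun hi =>
              bb p f w' l1 g1 l2 g l3 g3 fun w'' => bb p f w'' l1 g1 hi g l3 g3 k)
            (fun _ _ =>
              fN (Nat.div (Nat.succ g3) 2) fun g => fN (Nat.add l3 g3) fun hi =>
              bb p f w' l1 g1 l2 g2 l3 g fun w'' => bb p f w'' l1 g1 l2 g2 hi g k) j) j)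
        (Nat.mod w 4) := rfl
    rw [hs, fN_eq] at h
    generalize Nat.mod w 4 = j at h
    have hd : ∀ g : ℕ, Nat.div (Nat.succ g) 2 = (g + 1) / 2 := fun _ => rfl
    have ha : ∀ a b : ℕ, Nat.add a b = a + b := fun _ _ => rfl
    rcases j with _ | _ | _ | j
    · obtain ⟨h1, h2⟩ := andB h
      exact ⟨cov_leaf h1, _, h2⟩
    · have h' := h
      simp only [Nat.rec_zero, fN_eq] at h'
      obtain ⟨c1, w1, h'⟩ := ih _ _ _ _ _ _ _ _ h'
      obtain ⟨c2, w2, h'⟩ := ih _ _ _ _ _ _ _ _ h'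
      exact ⟨cov1 c1 c2 (by rw [hd, ha]; omega) (by rw [hd, ha]; omega), _, h'⟩
    · have h' := h
      simp only [Nat.rec_zero, fN_eq] at h'
      obtain ⟨c1, w1, h'⟩ := ih _ _ _ _ _ _ _ _ h'
      obtain ⟨c2, w2, h'⟩ := ih _ _ _ _ _ _ _ _ h'
      exact ⟨cov2 c1 c2 (by rw [hd, ha]; omega) (by rw [hd, ha]; omega), _, h'⟩
    · have h' := h
      simp only [fN_eq] at h'
      obtain ⟨c1, w1, h'⟩ := ih _ _ _ _ _ _ _ _ h'
      obtain ⟨c2, w2, h'⟩ := ih _ _ _ _ _ _ _ _ h'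
      exact ⟨cov3 c1 c2 (by rw [hd, ha]; omega) (by rw [hd, ha]; omega), _, h'⟩

theorem bb_ok {p : Pg} {fuel w l1 g1 l2 g2 l3 g3 : ℕ}
    (h : bb p fuel w l1 g1 l2 g2 l3 g3 (fun _ => true) = true) : Cov p l1 g1 l2 g2 l3 g3 :=
  (bb_aux p fuel w l1 g1 l2 g2 l3 g3 _ h).1

end Pool.Agent.P.MP_4c4e6e_co.Eng
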