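import Pool.Agent.P.MP_4c4e6e_co.AreaA

/-! Area bound from the regular hexagon. -/

namespace Pool.Agent.P.MP_4c4e6e_co

open Real Finset

namespace AreaY

/-- the increments of `S` on `[0, π]` dominate those of `2 cos (x - u)` -/
def Dom (S : ℝ → ℝ) (u : ℝ) : Prop :=
  ∀ p q, 0 ≤ p → p ≤ q → q ≤ π → 2 * |cos (q - u) - cos (p - u)| ≤ S q - S p

theorem Dom.add_pi {S : ℝ → ℝ} {u : ℝ} (h : Dom S u) : Dom S (u + π) := fun p q h0 h1 h2 => by
  rw [← sub_sub, ← sub_sub, cos_sub_pi, cos_sub_pi, abs_sub_comm, neg_sub_neg]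
  exact h p q h0 h1 h2

theorem two_cos {a b : ℝ} (h : a + b ≤ π / 3) (h' : 0 ≤ a + b) :
    cos (π / 3 + a) + cos (π / 3 + b) ≤ 2 * sin (π / 6 - (a + b) / 2) := by
  have h1 : 0 ≤ sin (π / 6 - (a + b) / 2) :=
    sin_nonneg_of_nonneg_of_le_pi (by linarith) (by linarith [pi_pos])
  rw [cos_add_cos, show (π / 3 + a + (π / 3 + b)) / 2 = π / 2 - (π / 6 - (a + b) / 2) by ring,
    cos_pi_div_two_sub]
  nlinarith [cos_le_one ((π / 3 + a - (π / 3 + b)) / 2)]

theorem shift {a d : ℝ} (ha : 0 ≤ a) (hd : 0 ≤ d) (h : a + d ≤ π / 3) :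
    cos (π / 3 + 0) - cos (π / 3 + d) ≤ cos (π / 3 + a) - cos (π / 3 + (a + d)) := by
  have h1 : 0 ≤ sin (d / 2) := sin_nonneg_of_nonneg_of_le_pi (by linarith) (by linarith [pi_pos])
  have h2 : cos (π / 6 - d / 2) ≤ cos |π / 6 - d / 2 - a| :=
    cos_le_cos_of_nonneg_of_le_pi (abs_nonneg _) (by linarith [pi_pos])
      (abs_le.2 ⟨by linarith, by linarith⟩)
  rw [cos_abs] at h2
  rw [cos_sub_cos, cos_sub_cos,
    show (π / 3 + 0 + (π / 3 + d)) / 2 = π / 2 - (π / 6 - d / 2) by ring,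
    show (π / 3 + a + (π / 3 + (a + d))) / 2 = π / 2 - (π / 6 - d / 2 - a) by ring,
    show (π / 3 + 0 - (π / 3 + d)) / 2 = -(d / 2) by ring,
    show (π / 3 + a - (π / 3 + (a + d))) / 2 = -(d / 2) by ring,
    sin_pi_div_two_sub, sin_pi_div_two_sub, sin_neg]
  nlinarith

theorem short_at {S : ℝ → ℝ} {z p q : ℝ} (h1 : Dom S (z + π / 3)) (h2 : Dom S (z + 2 * (π / 3)))
    (hp : 0 ≤ p) (hpq : p ≤ q) (hq : q ≤ π) (hd : q - p ≤ π / 3) (hz : z - π / 3 ≤ p)
    (hz' : p ≤ z) : 2 - 4 * sin (π / 6 - (q - p) / 2) ≤ S q - S p := by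
  have c1 : ∀ x, cos (x - (z + π / 3)) = cos (π / 3 + (z - x)) := fun x => by
    rw [← cos_neg]; congr 1; ring
  have c2 : ∀ x, cos (x - (z + 2 * (π / 3))) = -cos (π / 3 + (x - z)) := fun x => by
    rw [← cos_sub_pi]; congr 1; ring
  rcases le_total q z with h | h
  · have a1 := h1 p q hp hpq hq
    have a2 := shift (a := z - q) (d := q - p) (by linarith) (by linarith) (by linarith)
    have a3 := two_cos (a := 0) (b := q - p) (by linarith) (by linarith)
    rw [c1, c1] at a1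
    rw [show z - q + (q - p) = z - p by ring] at a2
    rw [add_zero, cos_pi_div_three] at a2 a3
    rw [zero_add] at a3
    linarith [le_abs_self (cos (π / 3 + (z - q)) - cos (π / 3 + (z - p)))]
  · have a1 := h1 p z hp hz' (h.trans hq)
    have a2 := h2 z q (hp.trans hz') h hq
    have a3 := two_cos (a := z - p) (b := q - z) (by linarith) (by linarith)
    rw [c1, c1, sub_self, add_zero, cos_pi_div_three] at a1
    rw [c2, c2, sub_self, add_zero, cos_pi_div_three] at a2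
    rw [show z - p + (q - z) = q - p by ring] at a3
    linarith [le_abs_self (1 / 2 - cos (π / 3 + (z - p))),
      le_abs_self (-cos (π / 3 + (q - z)) - -(1 / 2))]

theorem short {S : ℝ → ℝ} {a p q : ℝ} (ha : 0 ≤ a) (ha' : a ≤ π / 3) (h0 : Dom S a)
    (h1 : Dom S (a + π / 3)) (h2 : Dom S (a + 2 * (π / 3)))
    (hp : 0 ≤ p) (hpq : p ≤ q) (hq : q ≤ π) (hd : q - p ≤ π / 3) :
    2 - 4 * sin (π / 6 - (q - p) / 2) ≤ S q - S p := by
  have h3 := h0.add_pi
  have h4 := h1.add_pi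
  have h5 := h2.add_pi
  rcases le_total p a with g1 | g1
  · exact short_at h1 h2 hp hpq hq hd (by linarith) g1
  rcases le_total p (a + π / 3) with g2 | g2
  · exact short_at (z := a + π / 3) (by convert h2 using 1; ring) (by convert h3 using 1; ring)
      hp hpq hq hd (by linarith) g2
  rcases le_total p (a + 2 * (π / 3)) with g3 | g3
  · exact short_at (z := a + 2 * (π / 3)) (by convert h3 using 1; ring)
      (by convert h4 using 1; ring) hp hpq hq hd (by linarith) g3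
  · exact short_at (z := a + π) (by convert h4 using 1; ring)
      (by convert h5 using 1; ring) hp hpq hq hd (by linarith) (by linarith)

theorem tangent {e : ℝ} (h0 : 0 ≤ e) (h1 : e ≤ π / 3) :
    √3 * e ≤ 2 - 4 * sin (π / 6 - e / 2) := by
  obtain ⟨x, rfl⟩ : ∃ x, e = 2 * x := ⟨e / 2, by ring⟩
  have hx : 0 ≤ x := by linarith
  have hx1 : x ≤ 1 := by linarith [pi_lt_four]
  have s3 : √3 ≤ 2 := by rw [sqrt_le_left (by norm_num)]; norm_num
  have s0 : 0 ≤ √3 := sqrt_nonneg _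
  have a1 := sin_ge_sub_cube hx
  have a2 := (abs_le.1 (cos_bound (x := x) (by rwa [abs_of_nonneg hx]))).2
  rw [abs_of_nonneg hx] at a2
  rw [show 2 * x / 2 = x by ring, sin_sub, sin_pi_div_six, cos_pi_div_six]
  have b1 : √3 * (x - sin x) ≤ 2 * (x ^ 3 / 6) :=
    (mul_le_mul_of_nonneg_left (by linarith) s0).trans
      (mul_le_mul_of_nonneg_right s3 (by positivity))
  have b2 : x ^ 3 ≤ x ^ 2 := pow_le_pow_of_le_one hx hx1 (by norm_num)
  have b3 : x ^ 4 ≤ x ^ 2 := pow_le_pow_of_le_one hx hx1 (by norm_num)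
  nlinarith [sq_nonneg x]

theorem long {S : ℝ → ℝ} {a p q : ℝ} (ha : 0 ≤ a) (ha' : a ≤ π / 3) (h0 : Dom S a)
    (h1 : Dom S (a + π / 3)) (h2 : Dom S (a + 2 * (π / 3)))
    (hp : 0 ≤ p) (hpq : p ≤ q) (hq : q ≤ π) :
    mh (q - p) ≤ (S q - S p) / (2 * √3) - (q - p) / 2 := by
  have s0 : 0 < √3 := by positivity
  have s2 : √3 * √3 = 3 := mul_self_sqrt (by norm_num)
  have key : 2 - 4 * sin (π / 6 - min (q - p) (π / 3) / 2) + √3 * (q - p - min (q - p) (π / 3)) ≤
      S q - S p := by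
    rcases le_total (q - p) (π / 3) with h | h
    · rw [min_eq_left h]
      linarith [short ha ha' h0 h1 h2 hp hpq hq h]
    · obtain ⟨m, hm⟩ : ∃ m, m = (p + π / 3 + q) / 2 := ⟨_, rfl⟩
      have pp := pi_pos
      have a1 := short (p := p) (q := p + π / 3) ha ha' h0 h1 h2 hp (by linarith) (by linarith)
        (by linarith)
      have a2 := short (p := p + π / 3) (q := m) ha ha' h0 h1 h2 (by linarith) (by linarith)
        (by linarith) (by linarith)
      have a3 := short (p := m) (q := q) ha ha' h0 h1 h2 (by linarith) (by linarith) hq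
        (by linarith)
      have a4 := tangent (e := m - (p + π / 3)) (by linarith) (by linarith)
      have a5 := tangent (e := q - m) (by linarith) (by linarith)
      rw [add_sub_cancel_left] at a1
      rw [min_eq_right h]
      linarith
  rw [mh, ← sub_nonneg]
  have e : (S q - S p) / (2 * √3) - (q - p) / 2 -
      ((1 - 2 * sin (π / 6 - min (q - p) (π / 3) / 2)) / √3 - min (q - p) (π / 3) / 2) =
      (S q - S p - (2 - 4 * sin (π / 6 - min (q - p) (π / 3) / 2) +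
        √3 * (q - p - min (q - p) (π / 3)))) / (2 * √3) := by
    field_simp
    ring
  rw [e]
  exact div_nonneg (by linarith) (by positivity)

theorem Lam_total {t : ℝ} (h0 : 0 ≤ t) (h1 : t ≤ π) : Lam t π - Lam t 0 = 2 := by
  rw [Lam, Lam, if_pos h0, zero_sub, cos_neg, cos_pi_sub]
  split_ifs with h
  · rw [le_antisymm h1 h, cos_pi]
    norm_num
  · ring

theorem abs_le_Lam' {t p q : ℝ} (ht0 : 0 ≤ t) (ht : t ≤ π) (hp : 0 ≤ p) (hpq : p ≤ q)
    (hq : q ≤ π) : |cos (q - t) - cos (p - t)| ≤ Lam t q - Lam t p := by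
  convert abs_le_Lam ht0 ht hp hpq hq using 2
  simp only [dot, Complex.sub_re, Complex.sub_im, U_re, U_im, cos_sub]
  ring

theorem dom_hex {a : ℝ} (ha : 0 ≤ a) (ha' : a ≤ π / 3) {S : ℝ → ℝ}
    (hS : S = fun x => Lam a x + Lam (a + π / 3) x + Lam (a + 2 * (π / 3)) x) :
    Dom S a ∧ Dom S (a + π / 3) ∧ Dom S (a + 2 * (π / 3)) := by
  have pp := pi_pos
  have c : ∀ x, cos (x - (a + π / 3)) = cos (x - a) + cos (x - (a + 2 * (π / 3))) := fun x => by
    rw [cos_add_cos, show (x - a + (x - (a + 2 * (π / 3)))) / 2 = x - (a + π / 3) by ring,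
      show (x - a - (x - (a + 2 * (π / 3)))) / 2 = π / 3 by ring, cos_pi_div_three]
    ring
  refine ⟨?_, ?_, ?_⟩ <;> intro p q hp hpq hq <;>
  · have b0 := abs_le.1 (abs_le_Lam' ha (by linarith) hp hpq hq)
    have b1 := abs_le.1 (abs_le_Lam' (t := a + π / 3) (by linarith) (by linarith) hp hpq hq)
    have b2 := abs_le.1 (abs_le_Lam' (t := a + 2 * (π / 3)) (by linarith) (by linarith) hp hpq hq)
    have cp := c p
    have cq := c q
    rw [hS, ← le_div_iff₀' two_pos, abs_le]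
    constructor <;> linarith [b0.1, b0.2, b1.1, b1.2, b2.1, b2.2]

theorem Phi_reg (a q0 q1 q2 : ℝ) :
    Phi a (a + π / 3) (a + 2 * (π / 3)) (1 / 2) (1 / 2) (1 / 2) q0 q1 q2 =
      (q0 + q1 + q2) / (2 * √3) := by
  have s0 : √3 ≠ 0 := by positivity
  rw [Phi, show a + 2 * (π / 3) - (a + π / 3) = π / 3 by ring,
    show a + 2 * (π / 3) - a = π - π / 3 by ring, add_sub_cancel_left, sin_pi_sub,
    sin_pi_div_three]
  field_simp
  ring

end AreaY

open AreaY

theorem area_one (D : Dia) (N : ℕ) (θ : ℕ → ℝ) (hθ : D.IsPart N θ) (lam t : ℕ → ℝ)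
    (hl : ∀ k ≤ N, D.IsLens (θ k) (θ (k + 1)) (lam k) (t k)) :
    π / 2 - √3 / 2 - ∑ k ∈ range (N + 1),
      loss (θ (k + 1) - θ k) (lam k) (t k) (mh (θ (k + 1) - θ k)) ≤ D.Sh N θ := by
  have pp := pi_pos
  have s0 : 0 < √3 := by positivity
  have e1 : ∀ a : ℝ, sin (a + 2 * (π / 3) - (a + π / 3)) = √3 / 2 := fun a => by
    rw [show a + 2 * (π / 3) - (a + π / 3) = π / 3 by ring, sin_pi_div_three]
  have e2 : ∀ a : ℝ, sin (a + 2 * (π / 3) - a) = √3 / 2 := fun a => by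
    rw [show a + 2 * (π / 3) - a = π - π / 3 by ring, sin_pi_sub, sin_pi_div_three]
  have e3 : ∀ a : ℝ, sin (a + π / 3 - a) = √3 / 2 := fun a => by
    rw [add_sub_cancel_left, sin_pi_div_three]
  obtain ⟨s, hs, key⟩ := area_gen D N θ hθ lam t hl 1 (lam N) zero_le_one (hl N le_rfl).1
    (hl N le_rfl).2.1 (mul_one _) (fun s => s * (π / 3)) (fun s => s * (π / 3) + π / 3)
    (fun s => s * (π / 3) + 2 * (π / 3)) (by fun_prop) (by fun_prop) (by fun_prop)
    (fun s _ => by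
      simp only [e1, e2, e3]
      exact ⟨by positivity, by positivity, by positivity⟩)
    (fun s hs => ⟨by have := hs.1; positivity, by linarith, by linarith,
      by nlinarith [hs.2]⟩)
    (by ring) (by ring) (by ring)
  obtain ⟨z0, zπ, zlt, -⟩ := hθ
  obtain ⟨a, ha⟩ : ∃ a, a = s * (π / 3) := ⟨_, rfl⟩
  have a0 : 0 ≤ a := by have := hs.1; rw [ha]; positivity
  have a1 : a ≤ π / 3 := by rw [ha]; nlinarith [hs.2]
  simp only [← ha, e1, e2, e3] at key
  obtain ⟨S, hS⟩ : ∃ S : ℝ → ℝ,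
    S = fun x => Lam a x + Lam (a + π / 3) x + Lam (a + 2 * (π / 3)) x := ⟨_, rfl⟩
  obtain ⟨d0, d1, d2⟩ := dom_hex a0 a1 hS
  have l0 := Lam_total a0 (by linarith)
  have l1 := Lam_total (t := a + π / 3) (by linarith) (by linarith)
  have l2 := Lam_total (t := a + 2 * (π / 3)) (by linarith) (by linarith)
  obtain ⟨J, hJ⟩ : ∃ J : ℕ → ℝ, J = fun k => (S (θ (k + 1)) - S (θ k)) / (2 * √3) := ⟨_, rfl⟩
  have key := key 1 1 1 (by linarith) (by linarith) (by linarith) (by linarith) (by linarith)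
    (by linarith) J fun k _ => by
      rw [Phi_reg, hJ, hS]
      ring
  have mono : ∀ i j, i ≤ j → j ≤ N + 1 → θ i ≤ θ j := fun i j =>
    AreaX.mono_of_step fun m hm => (zlt m (by omega)).le
  have sJ : ∑ k ∈ range (N + 1), J k = √3 := by
    rw [hJ, ← sum_div, sum_range_sub fun k => S (θ k), zπ, z0, hS, div_eq_iff (by positivity)]
    nlinarith [mul_self_sqrt (show (0 : ℝ) ≤ 3 by norm_num)]
  have sd : ∑ k ∈ range (N + 1), (θ (k + 1) - θ k) = π := by rw [sum_range_sub, zπ, z0, sub_zero]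
  have fin : π / 2 - √3 / 2 - ∑ k ∈ range (N + 1),
      loss (θ (k + 1) - θ k) (lam k) (t k) (mh (θ (k + 1) - θ k)) ≤
      ∑ k ∈ range (N + 1), ((1 + lam k ^ 2) * sin (θ (k + 1) - θ k) / 4 +
        lam k ^ 2 * (sin ((θ (k + 1) - θ k) / 2) * (cos (t k) - cos ((θ (k + 1) - θ k) / 2))) -
        lam k ^ 2 / 2 * J k) := by
    rw [← sJ]
    nth_rewrite 1 [← sd]
    rw [sum_div, sum_div, ← sum_sub_distrib, ← sum_sub_distrib]
    refine sum_le_sum fun k hk => ?_
    have hk' : k ≤ N := Nat.lt_succ_iff.1 (mem_range.1 hk)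
    have b1 : mh (θ (k + 1) - θ k) ≤ J k - (θ (k + 1) - θ k) / 2 := by
      rw [hJ]
      exact long a0 a1 d0 d1 d2 (z0 ▸ mono 0 k (by omega) (by omega)) (zlt k hk').le
        (zπ ▸ mono (k + 1) (N + 1) (by omega) le_rfl)
    have b2 : 0 ≤ 1 - lam k ^ 2 := by nlinarith [(hl k hk').1, (hl k hk').2.1]
    rw [loss]
    linarith [mul_le_mul_of_nonneg_left b1 b2]
  rw [sum_range_succ (n := N) (f := fun k => _ - lam k ^ 2 / 2 * J k), zπ] at fin
  simp only [sub_self, zero_div, zero_mul, add_zero, mul_one] at key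
  linarith

end Pool.Agent.P.MP_4c4e6e_co
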