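import Pool.Agent.P.MP_4c4e6e_co.AreaA

/-! Area bound from the hexagon adapted to a long gap. -/

namespace Pool.Agent.P.MP_4c4e6e_co

open Real Finset

namespace Area2Aux

open HexAux

theorem Lam_le {t x : ℝ} (h : x ≤ t) : Lam t x = cos (x - t) := if_pos h

theorem Lam_ge {t x : ℝ} (h : t ≤ x) : Lam t x = 2 - cos (x - t) := by
  unfold Lam
  split_ifs with h1
  · have : x = t := le_antisymm h1 h
    rw [this, sub_self, cos_zero]; norm_num
  · rfl

theorem Lam_eq {t p q : ℝ} (ht0 : 0 ≤ t) (ht : t ≤ π) (hp : 0 ≤ p) (hpq : p ≤ q) (hq : q ≤ π)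
    (h : q ≤ t ∨ t ≤ p) : Lam t q - Lam t p = |dot (U q - U p) (U t)| := by
  refine le_antisymm ?_ (abs_le_Lam ht0 ht hp hpq hq)
  rw [dot_sub, dot_U_U, dot_U_U]
  rcases h with h | h
  · rw [Lam_le h, Lam_le (hpq.trans h)]
    exact le_abs_self _
  · rw [Lam_ge h, Lam_ge (h.trans hpq)]
    have := neg_abs_le (cos (q - t) - cos (p - t))
    linarith

theorem cos_up {u δ x : ℝ} (hu : 0 ≤ u) (hδ : 0 ≤ δ) (h1 : u + δ ≤ x) (h2 : x ≤ π) :
    cos x ≤ cos u * cos δ := by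
  have h3 : cos x ≤ cos (u + δ) := cos_le_cos_of_nonneg_of_le_pi (by linarith) h2 h1
  have h4 : 0 ≤ sin u := sin_nonneg_of_nonneg_of_le_pi hu (by linarith)
  have h5 : 0 ≤ sin δ := sin_nonneg_of_nonneg_of_le_pi hδ (by linarith)
  rw [cos_add] at h3
  nlinarith [mul_nonneg h4 h5]

theorem cos_low {M δ x : ℝ} (hx : 0 ≤ x) (hδ : 0 ≤ δ) (hc : 0 ≤ cos δ) (h1 : x + δ ≤ M)
    (h2 : M ≤ π) : cos M * cos δ ≤ cos x := by
  have h3 : cos M ≤ cos (x + δ) := cos_le_cos_of_nonneg_of_le_pi (by linarith) h2 h1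
  have h4 : 0 ≤ sin (x + δ) := sin_nonneg_of_nonneg_of_le_pi (by linarith) (by linarith)
  have h5 : 0 ≤ sin δ := sin_nonneg_of_nonneg_of_le_pi hδ (by linarith)
  have h6 : cos x = cos (x + δ) * cos δ + sin (x + δ) * sin δ := by
    rw [← cos_sub]; congr 1; ring
  nlinarith [mul_nonneg h4 h5, mul_le_mul_of_nonneg_right h3 hc]

/-- the position of the three normals -/
structure Pos (T w t0 t1 t2 : ℝ) : Prop where
  hw : T = 2 * w
  w0 : 0 < w
  w1 : w ≤ π / 3
  a0 : 0 ≤ t0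
  a1 : t0 ≤ w
  b : t1 = t0 + w
  c0 : T ≤ t2
  c1 : t2 ≤ π
  y0 : w ≤ t0 + π - t2
  y1 : w ≤ t2 - t1

/-- sufficient conditions for membership in the translated hexagon -/
structure Mem (T t0 t1 t2 : ℝ) (v : ℂ) : Prop where
  l0 : (cos t0 + cos (T - t0)) / 2 - 1 / 2 ≤ dot v (U t0)
  u0 : dot v (U t0) ≤ 1 / 2
  l1 : (cos t1 + cos (T - t1)) / 2 - 1 / 2 ≤ dot v (U t1)
  u1 : dot v (U t1) ≤ 1 / 2
  l2 : cos t2 / 2 ≤ dot v (U t2)
  u2 : dot v (U t2) ≤ cos (t2 - T) / 2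

/-- the intersection point of two tangents of the circle of radius one half -/
noncomputable def vD (p q : ℝ) : ℂ := (1 / (2 * cos ((q - p) / 2))) • U ((p + q) / 2)

theorem dot_vD (p q t : ℝ) :
    dot (vD p q) (U t) = cos ((p + q) / 2 - t) / (2 * cos ((q - p) / 2)) := by
  rw [vD, dot_smul, dot_U_U]; ring

theorem cross_vD (p q t : ℝ) :
    cross (vD p q) (U t) = sin (t - (p + q) / 2) / (2 * cos ((q - p) / 2)) := by
  rw [vD, cross_smul, cross_U_U]; ring

theorem cross_sub_right (z u v : ℂ) : cross z (u - v) = cross z u - cross z v := by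
  simp [cross]; ring

theorem vD_bounds {T p q t : ℝ} (hT : T ≤ π) (hp : 0 ≤ p) (hpq : p ≤ q) (hq : q ≤ T)
    (hc : 0 < cos ((q - p) / 2)) (ht0 : 0 ≤ t) (ht1 : t ≤ T) (h : q ≤ t ∨ t ≤ p) :
    (cos t + cos (T - t)) / 2 - 1 / 2 ≤ dot (vD p q) (U t) ∧ dot (vD p q) (U t) ≤ 1 / 2 := by
  rw [dot_vD]
  have hδ : 0 ≤ (q - p) / 2 := by linarith
  rcases h with h | h
  · have e : cos ((p + q) / 2 - t) = cos (t - (p + q) / 2) := by rw [← cos_neg]; congr 1; ring
    rw [e]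
    have h1 := cos_up (u := 0) (x := t - (p + q) / 2) le_rfl hδ (by linarith) (by linarith)
    have h2 := cos_low (M := t) (x := t - (p + q) / 2) (by linarith) hδ hc.le (by linarith)
      (by linarith)
    rw [cos_zero] at h1
    constructor
    · rw [le_div_iff₀ (by positivity)]
      nlinarith [cos_le_one (T - t)]
    · rw [div_le_iff₀ (by positivity)]
      linarith
  · have h1 := cos_up (u := 0) (x := (p + q) / 2 - t) le_rfl hδ (by linarith) (by linarith)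
    have h2 := cos_low (M := T - t) (x := (p + q) / 2 - t) (by linarith) hδ hc.le (by linarith)
      (by linarith)
    rw [cos_zero] at h1
    constructor
    · rw [le_div_iff₀ (by positivity)]
      nlinarith [cos_le_one t]
    · rw [div_le_iff₀ (by positivity)]
      linarith

theorem cos_half_pos {w d : ℝ} (hw : w ≤ π / 3) (h0 : 0 ≤ d) (h1 : d ≤ w) : 0 < cos (d / 2) :=
  cos_pos_of_mem_Ioo ⟨by linarith [pi_pos], by linarith [pi_pos]⟩

variable {T w t0 t1 t2 : ℝ}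

theorem memD (P : Pos T w t0 t1 t2) {p q : ℝ} (hp : 0 ≤ p) (hpq : p ≤ q) (hq : q ≤ T)
    (hd : q - p ≤ w) (h0 : q ≤ t0 ∨ t0 ≤ p) (h1 : q ≤ t1 ∨ t1 ≤ p) : Mem T t0 t1 t2 (vD p q) := by
  obtain ⟨hw, w0, w1, a0, a1, b, c0, c1, y0, y1⟩ := P
  have hpi := pi_pos
  have hc : 0 < cos ((q - p) / 2) := cos_half_pos w1 (by linarith) hd
  have hδ : 0 ≤ (q - p) / 2 := by linarith
  have b0 := vD_bounds (T := T) (t := t0) (by linarith) hp hpq hq hc a0 (by linarith) h0
  have b1 := vD_bounds (T := T) (t := t1) (by linarith) hp hpq hq hc (by linarith) (by linarith) h1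
  have e : cos ((p + q) / 2 - t2) = cos (t2 - (p + q) / 2) := by rw [← cos_neg]; congr 1; ring
  refine ⟨b0.1, b0.2, b1.1, b1.2, ?_, ?_⟩
  · rw [dot_vD, e, le_div_iff₀ (by positivity)]
    have h2 := cos_low (M := t2) (x := t2 - (p + q) / 2) (by linarith) hδ hc.le (by linarith) c1
    linarith
  · rw [dot_vD, e, div_le_iff₀ (by positivity)]
    have h2 := cos_up (u := t2 - T) (x := t2 - (p + q) / 2) (by linarith) hδ (by linarith)
      (by linarith)
    linarith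

/-- a point of the tangent of direction `a` -/
noncomputable def vA (a μ : ℝ) : ℂ := ⟨cos a / 2 + μ * sin a, sin a / 2 - μ * cos a⟩

theorem dot_vA (a μ t : ℝ) : dot (vA a μ) (U t) = cos (t - a) / 2 - μ * sin (t - a) := by
  simp only [vA, dot, U_re, U_im, cos_sub, sin_sub]; ring

theorem cross_vA (a μ t : ℝ) : cross (vA a μ) (U t) = sin (t - a) / 2 + μ * cos (t - a) := by
  simp only [vA, cross, U_re, U_im, cos_sub, sin_sub]; ring

/-- the displacement along the tangent -/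
noncomputable def mu (w x : ℝ) : ℝ := (sin x - (1 - cos x) * (cos w / sin w)) / 2

theorem mu_sin {w : ℝ} (hs : 0 < sin w) (x : ℝ) : mu w x * sin w = (cos (w - x) - cos w) / 2 := by
  rw [mu, cos_sub]; field_simp; ring

theorem mu_nonneg {w x : ℝ} (hs : 0 < sin w) (hw : w ≤ π) (h0 : 0 ≤ x) (h1 : x ≤ w) :
    0 ≤ mu w x := by
  have h2 : cos w ≤ cos (w - x) := cos_le_cos_of_nonneg_of_le_pi (by linarith) hw (by linarith)
  have h3 := mu_sin hs x
  by_contra h
  have := mul_neg_of_neg_of_pos (not_le.1 h) hs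
  linarith

theorem mu_cot {w y : ℝ} (hs : 0 < sin w) (h0 : w ≤ y) (h1 : y - w ≤ π) (x : ℝ) :
    cos y / 2 + mu w x * sin y ≤ cos (y - x) / 2 := by
  have h2 : 0 ≤ sin (y - w) := sin_nonneg_of_nonneg_of_le_pi (by linarith) h1
  have h3 : cos (y - x) / 2 - (cos y / 2 + mu w x * sin y)
      = (1 - cos x) * sin (y - w) / (2 * sin w) := by
    rw [mu, cos_sub, sin_sub]; field_simp; ring
  have h4 : 0 ≤ (1 - cos x) * sin (y - w) / (2 * sin w) :=
    div_nonneg (mul_nonneg (by linarith [cos_le_one x]) h2) (by positivity)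
  linarith

theorem mu_mid {w x τ : ℝ} (hs : 0 < sin w) (hw0 : 0 ≤ w) (hw : w ≤ π / 3) (h0 : 0 ≤ x)
    (h1 : x ≤ w) :
    (cos (w + τ) + cos (w - τ)) / 2 - 1 / 2 ≤ cos w / 2 - mu w x * sin w ∧
      cos w / 2 - mu w x * sin w ≤ 1 / 2 := by
  have hpi := pi_pos
  have hc : 0 ≤ cos w := cos_nonneg_of_mem_Icc ⟨by linarith, by linarith⟩
  have h2 := mu_nonneg hs (by linarith) h0 h1
  constructor
  · rw [mu_sin hs, cos_add, cos_sub w τ]
    nlinarith [cos_le_one (w - x), mul_nonneg hc (sub_nonneg.2 (cos_le_one τ))]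
  · nlinarith [cos_le_one w, mul_nonneg h2 hs.le]

theorem half_bound (a b : ℝ) : (cos a + cos b) / 2 - 1 / 2 ≤ 1 / 2 := by
  linarith [cos_le_one a, cos_le_one b]

theorem memA0 (P : Pos T w t0 t1 t2) {x : ℝ} (h0 : 0 ≤ x) (h1 : x ≤ t0) :
    Mem T t0 t1 t2 (vA t0 (mu w x)) := by
  obtain ⟨hw, w0, w1, a0, a1, b, c0, c1, y0, y1⟩ := P
  have hpi := pi_pos
  have hs : 0 < sin w := sin_pos_of_pos_of_lt_pi w0 (by linarith)
  have hm := mu_nonneg (x := x) hs (by linarith) h0 (by linarith)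
  have e0 : dot (vA t0 (mu w x)) (U t0) = 1 / 2 := by rw [dot_vA]; simp
  have e1 : dot (vA t0 (mu w x)) (U t1) = cos w / 2 - mu w x * sin w := by
    rw [dot_vA, show t1 - t0 = w by linarith]
  have m := mu_mid (τ := t0) hs w0.le w1 h0 (by linarith)
  refine ⟨by rw [e0]; exact half_bound _ _, e0.le, ?_, by rw [e1]; exact m.2, ?_, ?_⟩
  · rw [e1, show T - t1 = w - t0 by linarith, show cos t1 = cos (w + t0) by rw [b, add_comm]]
    exact m.1
  · have h2 := mu_cot (y := t0 + π - t2) hs y0 (by linarith) x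
    have h3 : cos (t0 + π - t2 - x) ≤ cos (π - t2) :=
      cos_le_cos_of_nonneg_of_le_pi (by linarith) (by linarith) (by linarith)
    rw [show t0 + π - t2 = π - (t2 - t0) by ring, cos_pi_sub, sin_pi_sub] at h2
    rw [show t0 + π - t2 = π - (t2 - t0) by ring, cos_pi_sub t2] at h3
    rw [dot_vA]
    linarith
  · have h2 : cos (t2 - t0) ≤ cos (t2 - T) :=
      cos_le_cos_of_nonneg_of_le_pi (by linarith) (by linarith) (by linarith)
    have h3 : 0 ≤ sin (t2 - t0) := sin_nonneg_of_nonneg_of_le_pi (by linarith) (by linarith)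
    rw [dot_vA]
    nlinarith [mul_nonneg hm h3]

theorem memA1 (P : Pos T w t0 t1 t2) {x : ℝ} (h0 : 0 ≤ x) (h1 : x ≤ T - t1) :
    Mem T t0 t1 t2 (vA t1 (-mu w x)) := by
  obtain ⟨hw, w0, w1, a0, a1, b, c0, c1, y0, y1⟩ := P
  have hpi := pi_pos
  have hs : 0 < sin w := sin_pos_of_pos_of_lt_pi w0 (by linarith)
  have hm := mu_nonneg (x := x) hs (by linarith) h0 (by linarith)
  have e1 : dot (vA t1 (-mu w x)) (U t1) = 1 / 2 := by rw [dot_vA]; simp
  have e0 : dot (vA t1 (-mu w x)) (U t0) = cos w / 2 - mu w x * sin w := by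
    rw [dot_vA, show t0 - t1 = -w by linarith, cos_neg, sin_neg]; ring
  have m := mu_mid (τ := w - t0) hs w0.le w1 h0 (by linarith)
  refine ⟨?_, by rw [e0]; exact m.2, by rw [e1]; exact half_bound _ _, e1.le, ?_, ?_⟩
  · rw [e0, show T - t0 = w + (w - t0) by linarith,
      show cos t0 = cos (w - (w - t0)) by congr 1; ring]
    linarith [m.1]
  · have h2 : cos t2 ≤ cos (t2 - t1) :=
      cos_le_cos_of_nonneg_of_le_pi (by linarith) c1 (by linarith)
    have h3 : 0 ≤ sin (t2 - t1) := sin_nonneg_of_nonneg_of_le_pi (by linarith) (by linarith)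
    rw [dot_vA]
    nlinarith [mul_nonneg hm h3]
  · have h2 := mu_cot (y := t2 - t1) hs y1 (by linarith) x
    have h3 : cos (t2 - t1 - x) ≤ cos (t2 - T) :=
      cos_le_cos_of_nonneg_of_le_pi (by linarith) (by linarith) (by linarith)
    rw [dot_vA]
    linarith

theorem valD {p q : ℝ} : cross (vD p q) (U q - U p) - (q - p) / 2 = pD (q - p) := by
  rw [cross_sub_right, cross_vD, cross_vD, show q - (p + q) / 2 = (q - p) / 2 by ring,
    show p - (p + q) / 2 = -((q - p) / 2) by ring, sin_neg, pD]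
  ring

theorem valA0 (w a x : ℝ) : cross (vA a (mu w x)) (U a - U (a - x)) - (a - (a - x)) / 2
    = pA w x := by
  rw [cross_sub_right, cross_vA, cross_vA, show a - x - a = -x by ring, sub_self, sin_neg, cos_neg,
    sin_zero, cos_zero, pA, mu]
  ring

theorem valA1 (w a x : ℝ) : cross (vA a (-mu w x)) (U (a + x) - U a) - (a + x - a) / 2
    = pA w x := by
  rw [cross_sub_right, cross_vA, cross_vA, show a + x - a = x by ring, sub_self,
    sin_zero, cos_zero, pA, mu]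
  ring

theorem valB0 {w : ℝ} (hc : 0 < cos (w / 2)) (a y : ℝ) :
    cross (vD a (a + w)) (U (a + y) - U a) - (a + y - a) / 2 = pB w y := by
  rw [cross_sub_right, cross_vD, cross_vD, show a + y - (a + (a + w)) / 2 = y - w / 2 by ring,
    show a - (a + (a + w)) / 2 = -(w / 2) by ring, show (a + w - a) / 2 = w / 2 by ring, sin_neg,
    sin_sub, pB]
  field_simp
  ring

theorem valB1 {w : ℝ} (hc : 0 < cos (w / 2)) (a y : ℝ) :
    cross (vD a (a + w)) (U (a + w) - U (a + w - y)) - (a + w - (a + w - y)) / 2 = pB w y := by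
  rw [cross_sub_right, cross_vD, cross_vD, show a + w - y - (a + (a + w)) / 2 = w / 2 - y by ring,
    show a + w - (a + (a + w)) / 2 = w / 2 by ring, show (a + w - a) / 2 = w / 2 by ring,
    sin_sub, pB]
  field_simp
  ring

theorem pD_nonneg {w d : ℝ} (hw : w ≤ π / 3) (h0 : 0 ≤ d) (h1 : d ≤ w) : 0 ≤ pD d := by
  have := le_tan (x := d / 2) (by linarith) (by linarith [pi_pos])
  rw [tan_eq_sin_div_cos] at this
  unfold pD
  linarith

/-- the saving of a cell is bounded below by its position -/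
theorem nb_of (P : Pos T w t0 t1 t2) (H : ℝ → ℝ)
    (hH : ∀ v, Mem T t0 t1 t2 v → ∀ p q, 0 ≤ p → p ≤ q → q ≤ T →
      cross v (U q - U p) - (q - p) / 2 ≤ H q - H p)
    {p q : ℝ} (hp : 0 ≤ p) (hpq : p ≤ q) (hq : q ≤ T) : NB w (q - p) (H q - H p) := by
  have P' := P
  obtain ⟨hw, w0, w1, a0, a1, b, c0, c1, y0, y1⟩ := P'
  have hD : ∀ p q, 0 ≤ p → p ≤ q → q ≤ T → q - p ≤ w → (q ≤ t0 ∨ t0 ≤ p) → (q ≤ t1 ∨ t1 ≤ p) →
      pD (q - p) ≤ H q - H p := fun p q hp hpq hq hd h0 h1 => by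
    rw [← valD]
    exact hH _ (memD P hp hpq hq hd h0 h1) p q hp hpq hq
  have hc : 0 < cos (w / 2) := cos_half_pos w1 w0.le le_rfl
  have mB : Mem T t0 t1 t2 (vD t0 (t0 + w)) :=
    memD P a0 (by linarith) (by linarith) (by linarith) (Or.inr le_rfl) (Or.inl b.ge)
  rcases le_total q t0 with h1 | h1
  · exact Or.inl ⟨by linarith, hD p q hp hpq hq (by linarith) (Or.inl h1) (Or.inl (by linarith))⟩
  rcases le_total t1 p with h2 | h2
  · exact Or.inl ⟨by linarith, hD p q hp hpq hq (by linarith) (Or.inr (by linarith)) (Or.inr h2)⟩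
  rcases le_total t0 p with h3 | h3 <;> rcases le_total q t1 with h4 | h4
  · exact Or.inl ⟨by linarith, hD p q hp hpq hq (by linarith) (Or.inr h3) (Or.inl h4)⟩
  · refine Or.inr (Or.inl ⟨q - t1, t1 - p, by linarith, by linarith, by linarith, by linarith,
      by ring, ?_⟩)
    have k1 := hH _ (memA1 P (x := q - t1) (by linarith) (by linarith)) t1 (t1 + (q - t1))
      (by linarith) (by linarith) (by linarith)
    have k2 := hH _ mB (t0 + w - (t1 - p)) (t0 + w) (by linarith) (by linarith) (by linarith)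
    rw [valA1, show t1 + (q - t1) = q by ring] at k1
    rw [valB1 hc, show t0 + w - (t1 - p) = p by linarith, ← b] at k2
    linarith
  · refine Or.inr (Or.inl ⟨t0 - p, q - t0, by linarith, by linarith, by linarith, by linarith,
      by ring, ?_⟩)
    have k1 := hH _ (memA0 P (x := t0 - p) (by linarith) (by linarith)) (t0 - (t0 - p)) t0
      (by linarith) (by linarith) (by linarith)
    have k2 := hH _ mB t0 (t0 + (q - t0)) (by linarith) (by linarith) (by linarith)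
    rw [valA0, show t0 - (t0 - p) = p by ring] at k1
    rw [valB0 hc, show t0 + (q - t0) = q by ring] at k2
    linarith
  · refine Or.inr (Or.inr ⟨by linarith, ?_⟩)
    have k1 := hD p t0 hp h3 (by linarith) (by linarith) (Or.inl le_rfl) (Or.inl (by linarith))
    have k2 := hD t0 t1 a0 (by linarith) (by linarith) (by linarith) (Or.inr le_rfl)
      (Or.inl le_rfl)
    have k3 := hD t1 q (by linarith) h4 hq (by linarith) (Or.inr (by linarith)) (Or.inr le_rfl)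
    have k4 := pD_nonneg (d := t0 - p) w1 (by linarith) (by linarith)
    have k5 := pD_nonneg (d := q - t1) w1 (by linarith) (by linarith)
    rw [show t1 - t0 = w by linarith] at k2
    linarith

theorem Pos.sins (P : Pos T w t0 t1 t2) :
    0 < sin (t2 - t1) ∧ 0 < sin (t2 - t0) ∧ 0 < sin (t1 - t0) := by
  obtain ⟨hw, w0, w1, a0, a1, b, c0, c1, y0, y1⟩ := P
  have hpi := pi_pos
  exact ⟨sin_pos_of_pos_of_lt_pi (by linarith) (by linarith),
    sin_pos_of_pos_of_lt_pi (by linarith) (by linarith),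
    sin_pos_of_pos_of_lt_pi (by linarith) (by linarith)⟩

/-- the triangle inequalities -/
def Tr (t0 t1 t2 p0 p1 p2 : ℝ) : Prop :=
  sin (t2 - t1) * p0 ≤ sin (t2 - t0) * p1 + sin (t1 - t0) * p2 ∧
    sin (t2 - t0) * p1 ≤ sin (t2 - t1) * p0 + sin (t1 - t0) * p2 ∧
    sin (t1 - t0) * p2 ≤ sin (t2 - t1) * p0 + sin (t2 - t0) * p1

theorem tr_piece (P : Pos T w t0 t1 t2) {p q : ℝ} (hp : 0 ≤ p) (hpq : p ≤ q) (hq : q ≤ π)
    (h0 : q ≤ t0 ∨ t0 ≤ p) (h1 : q ≤ t1 ∨ t1 ≤ p) (h2 : q ≤ t2 ∨ t2 ≤ p) :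
    Tr t0 t1 t2 (Lam t0 q - Lam t0 p) (Lam t1 q - Lam t1 p) (Lam t2 q - Lam t2 p) := by
  obtain ⟨ha, hb, hc⟩ := P.sins
  obtain ⟨hw, w0, w1, a0, a1, b, c0, c1, y0, y1⟩ := P
  rw [Lam_eq a0 (by linarith) hp hpq hq h0, Lam_eq (by linarith) (by linarith) hp hpq hq h1,
    Lam_eq (by linarith) c1 hp hpq hq h2]
  exact tri ha hb hc _

theorem tr_W (P : Pos T w t0 t1 t2) {r : ℝ} (hr : 0 ≤ r) :
    Tr t0 t1 t2 ((Lam t0 T - Lam t0 0) / 2 + r * (Lam t0 π - Lam t0 T) / 2)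
      ((Lam t1 T - Lam t1 0) / 2 + r * (Lam t1 π - Lam t1 T) / 2)
      ((Lam t2 T - Lam t2 0) / 2 + r * (Lam t2 π - Lam t2 T) / 2) := by
  have P' := P
  obtain ⟨hw, w0, w1, a0, a1, b, c0, c1, y0, y1⟩ := P'
  have k1 := tr_piece P (p := 0) (q := t0) le_rfl a0 (by linarith) (Or.inl le_rfl)
    (Or.inl (by linarith)) (Or.inl (by linarith))
  have k2 := tr_piece P (p := t0) (q := t1) a0 (by linarith) (by linarith) (Or.inr le_rfl)
    (Or.inl le_rfl) (Or.inl (by linarith))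
  have k3 := tr_piece P (p := t1) (q := T) (by linarith) (by linarith) (by linarith)
    (Or.inr (by linarith)) (Or.inr le_rfl) (Or.inl c0)
  have k4 := tr_piece P (p := T) (q := t2) (by linarith) c0 c1
    (Or.inr (by linarith)) (Or.inr (by linarith)) (Or.inl le_rfl)
  have k5 := tr_piece P (p := t2) (q := π) (by linarith) c1 le_rfl
    (Or.inr (by linarith)) (Or.inr (by linarith)) (Or.inr le_rfl)
  unfold Tr at *
  refine ⟨?_, ?_, ?_⟩
  · nlinarith [k1.1, k2.1, k3.1, mul_le_mul_of_nonneg_left (add_le_add k4.1 k5.1) hr]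
  · nlinarith [k1.2.1, k2.2.1, k3.2.1, mul_le_mul_of_nonneg_left (add_le_add k4.2.1 k5.2.1) hr]
  · nlinarith [k1.2.2, k2.2.2, k3.2.2, mul_le_mul_of_nonneg_left (add_le_add k4.2.2 k5.2.2) hr]

theorem W_in {T t : ℝ} (r : ℝ) (h0 : 0 ≤ t) (h1 : t ≤ T) (h2 : T ≤ π) :
    (Lam t T - Lam t 0) / 2 + r * (Lam t π - Lam t T) / 2
      = 1 - (1 - r) * (cos t + cos (T - t)) / 2 := by
  rw [Lam_ge h1, Lam_le h0, Lam_ge (h1.trans h2), cos_pi_sub, zero_sub, cos_neg]
  ring

theorem W_out {T t : ℝ} (r : ℝ) (h0 : 0 ≤ T) (h1 : T ≤ t) (h2 : t ≤ π) :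
    (Lam t T - Lam t 0) / 2 + r * (Lam t π - Lam t T) / 2
      = r + (1 - r) * (cos (t - T) - cos t) / 2 := by
  rw [Lam_le h1, Lam_le (h0.trans h1), Lam_ge h2, cos_pi_sub, zero_sub, cos_neg,
    show cos (T - t) = cos (t - T) by rw [← cos_neg]; congr 1; ring]
  ring

theorem cos_sum_nonneg {T t : ℝ} (h0 : 0 ≤ t) (h1 : t ≤ T) (h2 : T ≤ π) :
    0 ≤ cos t + cos (T - t) := by
  have h3 : cos (π - t) ≤ cos (T - t) :=
    cos_le_cos_of_nonneg_of_le_pi (by linarith) (by linarith) (by linarith)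
  rw [cos_pi_sub] at h3
  linarith

theorem key (P : Pos T w t0 t1 t2) {r W0 W1 W2 : ℝ} (hr0 : 0 ≤ r)
    (e0 : W0 = 1 - (1 - r) * (cos t0 + cos (T - t0)) / 2)
    (e1 : W1 = 1 - (1 - r) * (cos t1 + cos (T - t1)) / 2)
    (e2 : W2 = r + (1 - r) * (cos (t2 - T) - cos t2) / 2) (htr : Tr t0 t1 t2 W0 W1 W2)
    {v : ℂ} (hv : Mem T t0 t1 t2 v) {p q : ℝ} (hp : 0 ≤ p) (hpq : p ≤ q) (hq : q ≤ π) :
    cross v (U q - U p) ≤ Phi t0 t1 t2 (W0 / 2) (W1 / 2) (W2 / 2)
      (Lam t0 q - Lam t0 p) (Lam t1 q - Lam t1 p) (Lam t2 q - Lam t2 p)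
      + (1 - r) / 4 * cross (U 0 + U T) (U q - U p) := by
  obtain ⟨ha, hb, hc⟩ := P.sins
  obtain ⟨hw, w0, w1, a0, a1, b, c0, c1, y0, y1⟩ := P
  have hd : ∀ t, dot (v - ((1 - r) / 4) • (U 0 + U T)) (U t)
      = dot v (U t) - (1 - r) / 4 * (cos t + cos (T - t)) := fun t => by
    rw [dot_sub, dot_smul, dot_add, dot_U_U, dot_U_U, zero_sub, cos_neg]
  have s0 := cos_sum_nonneg (T := T) a0 (by linarith) (by linarith)
  have s1 := cos_sum_nonneg (T := T) (t := t1) (by linarith) (by linarith) (by linarith)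
  have h0 : |dot (v - ((1 - r) / 4) • (U 0 + U T)) (U t0)| ≤ W0 / 2 := by
    rw [hd, e0, abs_le]
    constructor <;> nlinarith [hv.l0, hv.u0, mul_nonneg hr0 s0]
  have h1 : |dot (v - ((1 - r) / 4) • (U 0 + U T)) (U t1)| ≤ W1 / 2 := by
    rw [hd, e1, abs_le]
    constructor <;> nlinarith [hv.l1, hv.u1, mul_nonneg hr0 s1]
  have h2 : |dot (v - ((1 - r) / 4) • (U 0 + U T)) (U t2)| ≤ W2 / 2 := by
    rw [hd, e2, abs_le, show cos (T - t2) = cos (t2 - T) by rw [← cos_neg]; congr 1; ring]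
    constructor
    · nlinarith [hv.l2, mul_nonneg hr0 (show 0 ≤ 1 + cos t2 by linarith [neg_one_le_cos t2])]
    · nlinarith [hv.u2, mul_nonneg hr0 (sub_nonneg.2 (cos_le_one (t2 - T)))]
  have k1 := hex_cross ha hb hc h0 h1 h2 (U q - U p)
  have k2 := Phi_mono ha hb hc (p0 := W0 / 2) (p1 := W1 / 2) (p2 := W2 / 2)
    (by linarith [htr.1]) (by linarith [htr.2.1]) (by linarith [htr.2.2])
    (abs_le_Lam a0 (by linarith) hp hpq hq)
    (abs_le_Lam (t := t1) (by linarith) (by linarith) hp hpq hq)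
    (abs_le_Lam (t := t2) (by linarith) c1 hp hpq hq)
  rw [cross_sub, cross_smul] at k1
  linarith

theorem part_mono {N : ℕ} {θ : ℕ → ℝ} (h : ∀ k ≤ N, θ k < θ (k + 1)) {i j : ℕ} (hij : i ≤ j)
    (hj : j ≤ N + 1) : θ i ≤ θ j := by
  induction j, hij using Nat.le_induction with
  | base => exact le_rfl
  | succ j hij ih => exact (ih (by omega)).trans (h j (by omega)).le

theorem pos_path {T s : ℝ} (hT0 : 0 < T) (hT1 : T ≤ 2 * π / 3) (hs : s ∈ Set.Icc (0 : ℝ) 1) :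
    Pos T (T / 2) (s * T / 2) (T / 2 + s * T / 2) (T + s * (π - T)) := by
  obtain ⟨s0, s1⟩ := hs
  have hpi := pi_pos
  have k1 : 0 ≤ s * T := mul_nonneg s0 hT0.le
  have k2 : 0 ≤ (1 - s) * T := mul_nonneg (by linarith) hT0.le
  have k3 : 0 ≤ s * (π - T) := mul_nonneg s0 (by linarith)
  have k4 : 0 ≤ (1 - s) * (π - T) := mul_nonneg (by linarith) (by linarith)
  have k5 : 0 ≤ s * (π - 3 * T / 2) := mul_nonneg s0 (by linarith)
  have k6 : 0 ≤ (1 - s) * (π - 3 * T / 2) := mul_nonneg (by linarith) (by linarith)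
  refine ⟨by ring, by linarith, by linarith, by linarith, by nlinarith, by ring, by linarith,
    by nlinarith, by nlinarith, by nlinarith⟩

end Area2Aux

open Area2Aux HexAux

theorem area_two (D : Dia) (N : ℕ) (θ : ℕ → ℝ) (hθ : D.IsPart N θ) (lam t : ℕ → ℝ)
    (hl : ∀ k ≤ N, D.IsLens (θ k) (θ (k + 1)) (lam k) (t k)) (T : ℝ) (hT : θ N = T)
    (hT0 : 0 < T) (hT1 : T ≤ 2 * π / 3) :
    ∃ s ∈ Set.Icc (0 : ℝ) 1, ∃ nu : ℕ → ℝ, (∀ k < N, NB (T / 2) (θ (k + 1) - θ k) (nu k)) ∧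
      T / 2 + lam N * sin T / 2 +
        lam N ^ 2 * (cos (T / 2) * (cos (t N) - sin (T / 2))) - AH T (lam N) s -
        ∑ k ∈ range N, loss (θ (k + 1) - θ k) (lam k) (t k) (nu k) ≤ D.Sh N θ := by
  have hpi := pi_pos
  have hr0 : 0 ≤ lam N := (hl N le_rfl).1
  obtain ⟨s, hs, hmain⟩ := area_gen D N θ hθ lam t hl (lam N) 1 hr0 zero_le_one le_rfl (one_mul _)
    (fun s => s * T / 2) (fun s => T / 2 + s * T / 2) (fun s => T + s * (π - T))
    (by fun_prop) (by fun_prop) (by fun_prop) (fun s hs => (pos_path hT0 hT1 hs).sins)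
    (fun s hs => by
      obtain ⟨hw, w0, w1, a0, a1, b, c0, c1, y0, y1⟩ := pos_path hT0 hT1 hs
      exact ⟨a0, by linarith, by linarith, c1⟩)
    (by ring) (by ring) (by ring)
  have P := pos_path hT0 hT1 hs
  have hAH : AH T (lam N) s = Phi (s * T / 2) (T / 2 + s * T / 2) (T + s * (π - T))
      ((1 - (1 - lam N) * (cos (s * T / 2) + cos (T - s * T / 2)) / 2) / 2)
      ((1 - (1 - lam N) * (cos (T / 2 + s * T / 2) + cos (T - (T / 2 + s * T / 2))) / 2) / 2)
      ((lam N + (1 - lam N) * (cos (T + s * (π - T) - T) - cos (T + s * (π - T))) / 2) / 2)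
      (1 - (1 - lam N) * (cos (s * T / 2) + cos (T - s * T / 2)) / 2)
      (1 - (1 - lam N) * (cos (T / 2 + s * T / 2) + cos (T - (T / 2 + s * T / 2))) / 2)
      (lam N + (1 - lam N) * (cos (T + s * (π - T) - T) - cos (T + s * (π - T))) / 2) := by
    simp only [AH, Phi]
    ring
  rw [hT] at hmain
  generalize s * T / 2 = t0 at P hAH hmain
  generalize T / 2 + t0 = t1 at P hAH hmain
  generalize T + s * (π - T) = t2 at P hAH hmain
  generalize hr : lam N = r at *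
  have P' := P
  obtain ⟨hw, w0, w1, a0, a1, b, c0, c1, y0, y1⟩ := P'
  have e0 := W_in (T := T) (t := t0) r a0 (by linarith) (by linarith)
  have e1 := W_in (T := T) (t := t1) r (by linarith) (by linarith) (by linarith)
  have e2 := W_out (T := T) (t := t2) r hT0.le c0 c1
  have htr := tr_W P hr0
  rw [← e0, ← e1, ← e2] at hAH
  set W0 := (Lam t0 T - Lam t0 0) / 2 + r * (Lam t0 π - Lam t0 T) / 2 with hW0
  set W1 := (Lam t1 T - Lam t1 0) / 2 + r * (Lam t1 π - Lam t1 T) / 2 with hW1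
  set W2 := (Lam t2 T - Lam t2 0) / 2 + r * (Lam t2 π - Lam t2 T) / 2 with hW2
  let G : ℝ → ℝ := fun x =>
    Phi t0 t1 t2 (W0 / 2) (W1 / 2) (W2 / 2) (Lam t0 x) (Lam t1 x) (Lam t2 x)
  have hG : ∀ p q, Phi t0 t1 t2 (W0 / 2) (W1 / 2) (W2 / 2)
      (Lam t0 q - Lam t0 p) (Lam t1 q - Lam t1 p) (Lam t2 q - Lam t2 p) = G q - G p := by
    intro p q
    simp only [G, Phi]
    ring
  have hAG : AH T r s = (G T - G 0) / 2 + r * (G π - G T) / 2 := by
    rw [hAH]
    have : ∀ a b c : ℝ, Phi t0 t1 t2 a b c W0 W1 W2 =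
        (Phi t0 t1 t2 a b c (Lam t0 T) (Lam t1 T) (Lam t2 T)
          - Phi t0 t1 t2 a b c (Lam t0 0) (Lam t1 0) (Lam t2 0)) / 2
        + r * (Phi t0 t1 t2 a b c (Lam t0 π) (Lam t1 π) (Lam t2 π)
          - Phi t0 t1 t2 a b c (Lam t0 T) (Lam t1 T) (Lam t2 T)) / 2 := by
      intro a b c
      rw [hW0, hW1, hW2]
      simp only [Phi]
      ring
    exact this _ _ _
  let H : ℝ → ℝ := fun x => G x - x / 2 + (1 - r) / 4 * cross (U 0 + U T) (U x)
  have hH : ∀ v, Mem T t0 t1 t2 v → ∀ p q, 0 ≤ p → p ≤ q → q ≤ T →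
      cross v (U q - U p) - (q - p) / 2 ≤ H q - H p := by
    intro v hv p q hp hpq hq
    have := key P hr0 e0 e1 e2 htr hv hp hpq (by linarith)
    rw [hG, cross_sub_right (U 0 + U T)] at this
    simp only [H]
    linarith
  obtain ⟨z0, zN, hlt, -⟩ := hθ
  refine ⟨s, hs, fun k => H (θ (k + 1)) - H (θ k), fun k hk => ?_, ?_⟩
  · refine nb_of P H hH ?_ (hlt k hk.le).le ?_
    · rw [← z0]; exact part_mono hlt (Nat.zero_le k) (by omega)
    · rw [← hT]; exact part_mono hlt (by omega) (by omega)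
  have hm := hmain W0 W1 W2 rfl rfl rfl htr.1 htr.2.1 htr.2.2
    (fun k => G (θ (k + 1)) - G (θ k)) (fun k _ => (hG _ _).symm)
  refine le_trans (le_of_eq ?_) hm
  have hcell : ∀ k ∈ range N, (1 + lam k ^ 2) * sin (θ (k + 1) - θ k) / 4 +
      lam k ^ 2 * (sin ((θ (k + 1) - θ k) / 2) * (cos (t k) - cos ((θ (k + 1) - θ k) / 2))) -
      lam k ^ 2 / 2 * (G (θ (k + 1)) - G (θ k)
        + (1 - r) / 4 * cross (U 0 + U T) (U (θ (k + 1)) - U (θ k)))
      = ((θ (k + 1) / 4 - H (θ (k + 1)) / 2) - (θ k / 4 - H (θ k) / 2))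
        - loss (θ (k + 1) - θ k) (lam k) (t k) (H (θ (k + 1)) - H (θ k)) := by
    intro k _
    rw [cross_sub_right]
    simp only [loss, H]
    ring
  rw [Finset.sum_congr rfl hcell, Finset.sum_sub_distrib,
    Finset.sum_range_sub (fun k => θ k / 4 - H (θ k) / 2), hT, z0, zN, hAG, sin_pi_sub,
    show (π - T) / 2 = π / 2 - T / 2 by ring, sin_pi_div_two_sub, cos_pi_div_two_sub]
  simp only [H, cross_add, cross_U_U, sub_self, sin_zero, sub_zero, zero_sub, sin_neg]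
  ring

end Pool.Agent.P.MP_4c4e6e_co
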