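import Pool.Agent.P.MP_4c4e6e_co.Basic

/-! The real functions that occur in the area estimates. -/

namespace Pool.Agent.P.MP_4c4e6e_co

open Real

/-- loss of a cell of length `d` with lens coordinates `lam, t` and saving `nu` -/
noncomputable def loss (d lam t nu : ℝ) : ℝ :=
  (1 + lam ^ 2) * (d - sin d) / 4 - lam ^ 2 * (sin (d / 2) * (cos t - cos (d / 2))) -
    (1 - lam ^ 2) * nu / 2

/-- saving for the regular hexagon -/
noncomputable def mh (d : ℝ) : ℝ :=
  (1 - 2 * sin (π / 6 - min d (π / 3) / 2)) / √3 - min d (π / 3) / 2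

/-- saving of a cell between two tangents -/
noncomputable def pD (d : ℝ) : ℝ := sin (d / 2) / cos (d / 2) - d / 2

/-- saving of the outer piece next to a normal -/
noncomputable def pA (w d : ℝ) : ℝ :=
  (sin d - d) / 2 + (1 - cos d) * (sin d - (1 - cos d) * (cos w / sin w)) / 2

/-- saving of the inner piece next to a normal -/
noncomputable def pB (w d : ℝ) : ℝ :=
  (sin d - d) / 2 + (1 - cos d) * (sin (w / 2) / cos (w / 2)) / 2

/-- lower bounds for the saving of a cell of length `d` -/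
def NB (w d nu : ℝ) : Prop :=
  (d ≤ w ∧ pD d ≤ nu) ∨
  (∃ x y, 0 ≤ x ∧ x ≤ w ∧ 0 ≤ y ∧ y ≤ w ∧ x + y = d ∧ pA w x + pB w y ≤ nu) ∨
  (w ≤ d ∧ pD w ≤ nu)

/-- area of the symmetric hexagon of the adapted path -/
noncomputable def AH (T lam s : ℝ) : ℝ :=
  let t0 := s * T / 2
  let t1 := T / 2 + s * T / 2
  let t2 := T + s * (π - T)
  let q0 := sin (t2 - t1) * (1 - (1 - lam) * (cos t0 + cos (T - t0)) / 2)
  let q1 := sin (t2 - t0) * (1 - (1 - lam) * (cos t1 + cos (T - t1)) / 2)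
  let q2 := sin (t1 - t0) * (lam + (1 - lam) * (cos (t2 - T) - cos t2) / 2)
  ((q0 + q1 + q2) ^ 2 - 2 * (q0 ^ 2 + q1 ^ 2 + q2 ^ 2)) /
    (4 * sin (t2 - t1) * sin (t2 - t0) * sin (t1 - t0))

end Pool.Agent.P.MP_4c4e6e_co
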