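import Pool.Agent.P.MP_4c4e6e_co.Basic

/-! The discrete hexagon inequality. -/

namespace Pool.Agent.P.MP_4c4e6e_co

open Real Finset

/-- the symmetric bilinear form `pᵀ G⁻¹ q`, `G = (|sin (t_i - t_j)|)` -/
noncomputable def Phi (t0 t1 t2 p0 p1 p2 q0 q1 q2 : ℝ) : ℝ :=
  ((sin (t2 - t1) * p0 + sin (t2 - t0) * p1 + sin (t1 - t0) * p2) *
      (sin (t2 - t1) * q0 + sin (t2 - t0) * q1 + sin (t1 - t0) * q2) -
    2 * (sin (t2 - t1) ^ 2 * p0 * q0 + sin (t2 - t0) ^ 2 * p1 * q1 + sin (t1 - t0) ^ 2 * p2 * q2)) /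
    (2 * sin (t2 - t1) * sin (t2 - t0) * sin (t1 - t0))

namespace HexAux

theorem dot_add (z w u : ℂ) : dot (z + w) u = dot z u + dot w u := by
  simp [dot]; ring

theorem dot_sub (z w u : ℂ) : dot (z - w) u = dot z u - dot w u := by
  simp [dot]; ring

theorem dot_neg (z u : ℂ) : dot (-z) u = -dot z u := by
  simp [dot]; ring

theorem abs_dot_neg (z u : ℂ) : |dot (-z) u| = |dot z u| := by
  rw [dot_neg, abs_neg]

theorem dot_neg_right (z u : ℂ) : dot z (-u) = -dot z u := by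
  simp [dot]; ring

theorem dot_smul (r : ℝ) (z u : ℂ) : dot (r • z) u = r * dot z u := by
  simp [dot]; ring

theorem dot_sum (s : Finset ℕ) (f : ℕ → ℂ) (u : ℂ) :
    dot (∑ i ∈ s, f i) u = ∑ i ∈ s, dot (f i) u := by
  simp [dot, Complex.re_sum, Complex.im_sum, Finset.sum_mul, Finset.sum_add_distrib]

theorem cross_add (z w u : ℂ) : cross (z + w) u = cross z u + cross w u := by
  simp [cross]; ring

theorem cross_sub (z w u : ℂ) : cross (z - w) u = cross z u - cross w u := by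
  simp [cross]; ring

theorem cross_neg (z u : ℂ) : cross (-z) u = -cross z u := by
  simp [cross]; ring

theorem cross_smul (r : ℝ) (z u : ℂ) : cross (r • z) u = r * cross z u := by
  simp [cross]; ring

theorem cross_smul_right (r : ℝ) (z u : ℂ) : cross z (r • u) = r * cross z u := by
  simp [cross]; ring

theorem cross_comm (z u : ℂ) : cross z u = -cross u z := by
  simp [cross]; ring

theorem cross_self (z : ℂ) : cross z z = 0 := by
  simp [cross]; ring

theorem cross_sum (s : Finset ℕ) (f : ℕ → ℂ) (u : ℂ) :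
    cross (∑ i ∈ s, f i) u = ∑ i ∈ s, cross (f i) u := by
  simp [cross, Complex.re_sum, Complex.im_sum, Finset.sum_mul, Finset.sum_sub_distrib]

theorem cross_sum_right (s : Finset ℕ) (f : ℕ → ℂ) (u : ℂ) :
    cross u (∑ i ∈ s, f i) = ∑ i ∈ s, cross u (f i) := by
  simp [cross, Complex.re_sum, Complex.im_sum, Finset.mul_sum, Finset.sum_sub_distrib]

/-- the linear relation between the three coordinates of a vector -/
theorem rel (t0 t1 t2 : ℝ) (z : ℂ) :
    sin (t2 - t1) * dot z (U t0) - sin (t2 - t0) * dot z (U t1) + sin (t1 - t0) * dot z (U t2)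
      = 0 := by
  simp only [dot, U_re, U_im, sin_sub]; ring

theorem cross_eq (t0 t1 : ℝ) (z e : ℂ) :
    sin (t1 - t0) * cross z e = dot z (U t0) * dot e (U t1) - dot z (U t1) * dot e (U t0) := by
  simp only [dot, cross, U_re, U_im, sin_sub]; ring

theorem det_le {x0 x1 y0 y1 k0 k1 : ℝ} (h0 : |x0| ≤ k0) (h1 : |x1| ≤ k1) :
    |x0 * y1 - x1 * y0| ≤ k0 * |y1| + k1 * |y0| := by
  calc |x0 * y1 - x1 * y0| ≤ |x0 * y1| + |x1 * y0| := abs_sub _ _
    _ = |x0| * |y1| + |x1| * |y0| := by rw [abs_mul, abs_mul]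
    _ ≤ k0 * |y1| + k1 * |y0| := by gcongr

theorem alg {x0 x1 x2 y0 y1 y2 k0 k1 k2 : ℝ} (hx : x0 + x1 + x2 = 0) (hy : y0 + y1 + y2 = 0)
    (h0 : |x0| ≤ k0) (h1 : |x1| ≤ k1) (h2 : |x2| ≤ k2) :
    2 * |x0 * y1 - x1 * y0| ≤ (k0 + k1 + k2) * (|y0| + |y1| + |y2|) -
      2 * (k0 * |y0| + k1 * |y1| + k2 * |y2|) := by
  have e1 : x0 * y1 - x1 * y0 = x1 * y2 - x2 * y1 := by
    have a : x2 = -x0 - x1 := by linarith
    have b : y2 = -y0 - y1 := by linarith
    rw [a, b]; ring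
  have e2 : x0 * y1 - x1 * y0 = x2 * y0 - x0 * y2 := by
    have a : x2 = -x0 - x1 := by linarith
    have b : y2 = -y0 - y1 := by linarith
    rw [a, b]; ring
  have hcase : |y2| = |y0| + |y1| ∨ |y0| = |y1| + |y2| ∨ |y1| = |y2| + |y0| := by
    rcases abs_cases y0 with ⟨a, a'⟩ | ⟨a, a'⟩ <;> rcases abs_cases y1 with ⟨b, b'⟩ | ⟨b, b'⟩ <;>
      rcases abs_cases y2 with ⟨c, c'⟩ | ⟨c, c'⟩ <;>
      first
        | (left; linarith)
        | (right; left; linarith)
        | (right; right; linarith)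
  rcases hcase with h | h | h
  · have := det_le (y0 := y0) (y1 := y1) h0 h1
    rw [h]; nlinarith
  · have := det_le (y0 := y1) (y1 := y2) h1 h2
    rw [e1, h]; nlinarith
  · have := det_le (y0 := y2) (y1 := y0) h2 h0
    rw [e2, h]; nlinarith

theorem Phi_symm (t0 t1 t2 p0 p1 p2 q0 q1 q2 : ℝ) :
    Phi t0 t1 t2 p0 p1 p2 q0 q1 q2 = Phi t0 t1 t2 q0 q1 q2 p0 p1 p2 := by
  unfold Phi; ring

theorem Phi_sum (t0 t1 t2 : ℝ) (s : Finset ℕ) (m p0 p1 p2 : ℕ → ℝ) (q0 q1 q2 : ℝ) :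
    Phi t0 t1 t2 ((∑ i ∈ s, m i * p0 i) / 2) ((∑ i ∈ s, m i * p1 i) / 2)
      ((∑ i ∈ s, m i * p2 i) / 2) q0 q1 q2 =
      (∑ i ∈ s, m i * Phi t0 t1 t2 (p0 i) (p1 i) (p2 i) q0 q1 q2) / 2 := by
  classical
  induction s using Finset.induction_on with
  | empty => simp [Phi]
  | insert a s ha ih =>
    simp only [Finset.sum_insert ha]
    rw [add_div (m a * Phi t0 t1 t2 (p0 a) (p1 a) (p2 a) q0 q1 q2), ← ih]
    unfold Phi; ring

end HexAux

open HexAux

/-- support function of the hexagon `|dot z (U t_i)| ≤ k_i` -/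
theorem hex_cross {t0 t1 t2 : ℝ} (ha : 0 < sin (t2 - t1)) (hb : 0 < sin (t2 - t0))
    (hc : 0 < sin (t1 - t0)) {z : ℂ} {k0 k1 k2 : ℝ} (h0 : |dot z (U t0)| ≤ k0)
    (h1 : |dot z (U t1)| ≤ k1) (h2 : |dot z (U t2)| ≤ k2) (e : ℂ) :
    cross z e ≤ Phi t0 t1 t2 k0 k1 k2 |dot e (U t0)| |dot e (U t1)| |dot e (U t2)| := by
  have rz := rel t0 t1 t2 z
  have re := rel t0 t1 t2 e
  have ce := cross_eq t0 t1 z e
  unfold Phi
  set a := sin (t2 - t1)
  set b := sin (t2 - t0)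
  set c := sin (t1 - t0)
  set z0 := dot z (U t0)
  set z1 := dot z (U t1)
  set z2 := dot z (U t2)
  set e0 := dot e (U t0)
  set e1 := dot e (U t1)
  set e2 := dot e (U t2)
  have key := alg (x0 := a * z0) (x1 := -(b * z1)) (x2 := c * z2) (y0 := a * e0) (y1 := -(b * e1))
    (y2 := c * e2) (k0 := a * k0) (k1 := b * k1) (k2 := c * k2) (by linarith) (by linarith)
    (by rw [abs_mul, abs_of_pos ha]; gcongr) (by rw [abs_neg, abs_mul, abs_of_pos hb]; gcongr)
    (by rw [abs_mul, abs_of_pos hc]; gcongr)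
  rw [abs_neg, abs_mul a e0, abs_mul b e1, abs_mul c e2, abs_of_pos ha, abs_of_pos hb,
    abs_of_pos hc] at key
  rw [le_div_iff₀ (by positivity)]
  have h3 : -(a * z0 * -(b * e1) - -(b * z1) * (a * e0)) ≤
      |a * z0 * -(b * e1) - -(b * z1) * (a * e0)| := neg_le_abs _
  have h4 : cross z e * (2 * a * b * c) = 2 * -(a * z0 * -(b * e1) - -(b * z1) * (a * e0)) := by
    have : cross z e * (2 * a * b * c) = 2 * a * b * (c * cross z e) := by ring
    rw [this, ce]; ring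
  rw [h4]
  nlinarith

/-- monotone in one argument when the other satisfies the triangle inequalities -/
theorem Phi_mono {t0 t1 t2 : ℝ} (ha : 0 < sin (t2 - t1)) (hb : 0 < sin (t2 - t0))
    (hc : 0 < sin (t1 - t0)) {p0 p1 p2 q0 q1 q2 r0 r1 r2 : ℝ}
    (h0 : sin (t2 - t1) * p0 ≤ sin (t2 - t0) * p1 + sin (t1 - t0) * p2)
    (h1 : sin (t2 - t0) * p1 ≤ sin (t2 - t1) * p0 + sin (t1 - t0) * p2)
    (h2 : sin (t1 - t0) * p2 ≤ sin (t2 - t1) * p0 + sin (t2 - t0) * p1)
    (g0 : q0 ≤ r0) (g1 : q1 ≤ r1) (g2 : q2 ≤ r2) :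
    Phi t0 t1 t2 p0 p1 p2 q0 q1 q2 ≤ Phi t0 t1 t2 p0 p1 p2 r0 r1 r2 := by
  unfold Phi
  set a := sin (t2 - t1)
  set b := sin (t2 - t0)
  set c := sin (t1 - t0)
  apply div_le_div_of_nonneg_right _ (by positivity)
  have k0 : 0 ≤ (a * (r0 - q0)) * (b * p1 + c * p2 - a * p0) :=
    mul_nonneg (mul_nonneg ha.le (by linarith)) (by linarith)
  have k1 : 0 ≤ (b * (r1 - q1)) * (a * p0 + c * p2 - b * p1) :=
    mul_nonneg (mul_nonneg hb.le (by linarith)) (by linarith)
  have k2 : 0 ≤ (c * (r2 - q2)) * (a * p0 + b * p1 - c * p2) :=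
    mul_nonneg (mul_nonneg hc.le (by linarith)) (by linarith)
  nlinarith

namespace HexAux

/-- the triangle inequalities for the coordinates of a vector -/
theorem tri {t0 t1 t2 : ℝ} (ha : 0 < sin (t2 - t1)) (hb : 0 < sin (t2 - t0))
    (hc : 0 < sin (t1 - t0)) (z : ℂ) :
    sin (t2 - t1) * |dot z (U t0)| ≤
        sin (t2 - t0) * |dot z (U t1)| + sin (t1 - t0) * |dot z (U t2)| ∧
      sin (t2 - t0) * |dot z (U t1)| ≤
        sin (t2 - t1) * |dot z (U t0)| + sin (t1 - t0) * |dot z (U t2)| ∧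
      sin (t1 - t0) * |dot z (U t2)| ≤
        sin (t2 - t1) * |dot z (U t0)| + sin (t2 - t0) * |dot z (U t1)| := by
  have r := rel t0 t1 t2 z
  have a0 : sin (t2 - t1) * |dot z (U t0)| = |sin (t2 - t1) * dot z (U t0)| := by
    rw [abs_mul, abs_of_pos ha]
  have a1 : sin (t2 - t0) * |dot z (U t1)| = |sin (t2 - t0) * dot z (U t1)| := by
    rw [abs_mul, abs_of_pos hb]
  have a2 : sin (t1 - t0) * |dot z (U t2)| = |sin (t1 - t0) * dot z (U t2)| := by
    rw [abs_mul, abs_of_pos hc]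
  rw [a0, a1, a2]
  generalize sin (t2 - t1) * dot z (U t0) = x at *
  generalize sin (t2 - t0) * dot z (U t1) = y at *
  generalize sin (t1 - t0) * dot z (U t2) = u at *
  have := le_abs_self x; have := neg_abs_le x; have := le_abs_self y; have := neg_abs_le y
  have := le_abs_self u; have := neg_abs_le u
  refine ⟨abs_le.2 ⟨?_, ?_⟩, abs_le.2 ⟨?_, ?_⟩, abs_le.2 ⟨?_, ?_⟩⟩ <;> linarith

/-- a centre for three strips containing finitely many points -/
theorem exists_center {ι : Type} (S : Finset ι) (hS : S.Nonempty) (Z : ι → ℂ)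
    (t0 t1 t2 : ℝ → ℝ) (c0 : Continuous t0) (c1 : Continuous t1) (c2 : Continuous t2)
    (hpos : ∀ s ∈ Set.Icc (0 : ℝ) 1, 0 < sin (t1 s - t0 s))
    (e0 : t0 1 = t1 0) (e1 : t1 1 = t2 0) (e2 : t2 1 = t0 0 + π) :
    ∃ s ∈ Set.Icc (0 : ℝ) 1, ∃ y : ℂ, ∀ t, (t = t0 s ∨ t = t1 s ∨ t = t2 s) → ∀ om : ℝ,
      (∀ j ∈ S, ∀ k ∈ S, dot (Z j - Z k) (U t) ≤ om) → ∀ i ∈ S, |dot (Z i - y) (U t)| ≤ om / 2 := by
  set H : ℝ → ℝ := fun t => S.sup' hS (fun i => dot (Z i) (U t)) with hH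
  have hHc : Continuous H := by
    apply Continuous.finset_sup'_apply hS
    intro i _
    simp only [dot, U_re, U_im]
    fun_prop
  set mid : ℝ → ℝ := fun t => (H t - H (t + π)) / 2 with hmid
  have hmc : Continuous mid := by
    simp only [hmid]
    fun_prop
  have hper : ∀ t, mid (t + π) = -mid t := by
    intro t
    have : H (t + π + π) = H t := by
      simp only [hH, U_add_pi, neg_neg]
    simp only [hmid, this]; ring
  have hstrip : ∀ t om : ℝ, (∀ j ∈ S, ∀ k ∈ S, dot (Z j - Z k) (U t) ≤ om) →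
      ∀ i ∈ S, |dot (Z i) (U t) - mid t| ≤ om / 2 := by
    intro t om hom i hi
    obtain ⟨j, hj, hj'⟩ := S.exists_mem_eq_sup' hS (fun i => dot (Z i) (U t))
    obtain ⟨k, hk, hk'⟩ := S.exists_mem_eq_sup' hS (fun i => dot (Z i) (U (t + π)))
    have h1 : dot (Z i) (U t) ≤ H t := S.le_sup' (fun i => dot (Z i) (U t)) hi
    have h2 : dot (Z i) (U (t + π)) ≤ H (t + π) :=
      S.le_sup' (fun i => dot (Z i) (U (t + π))) hi
    have h3 : H t = dot (Z j) (U t) := hj'
    have h4 : H (t + π) = dot (Z k) (U (t + π)) := hk'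
    have h5 := hom j hj k hk
    rw [U_add_pi, dot_neg_right] at h2 h4
    rw [dot_sub] at h5
    simp only [hmid]
    rw [abs_le]; constructor <;> linarith
  set F : ℝ → ℝ := fun s => sin (t2 s - t1 s) * mid (t0 s) - sin (t2 s - t0 s) * mid (t1 s) +
    sin (t1 s - t0 s) * mid (t2 s) with hF
  have hFc : Continuous F := by
    simp only [hF]
    fun_prop
  have hF1 : F 1 = -F 0 := by
    simp only [hF, e0, e1, e2, hper]
    have a1 : sin (t0 0 + π - t2 0) = sin (t2 0 - t0 0) := by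
      rw [show t0 0 + π - t2 0 = π - (t2 0 - t0 0) by ring, sin_pi_sub]
    have a2 : sin (t0 0 + π - t1 0) = sin (t1 0 - t0 0) := by
      rw [show t0 0 + π - t1 0 = π - (t1 0 - t0 0) by ring, sin_pi_sub]
    rw [a1, a2]; ring
  have hex : ∃ s ∈ Set.Icc (0 : ℝ) 1, F s = 0 := by
    rcases le_total (F 0) 0 with h | h
    · exact intermediate_value_Icc zero_le_one hFc.continuousOn ⟨h, by linarith⟩
    · exact intermediate_value_Icc' zero_le_one hFc.continuousOn ⟨by linarith, h⟩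
  obtain ⟨s, hs, hs0⟩ := hex
  have hc := hpos s hs
  set y : ℂ := ⟨(mid (t0 s) * sin (t1 s) - mid (t1 s) * sin (t0 s)) / sin (t1 s - t0 s),
    (mid (t1 s) * cos (t0 s) - mid (t0 s) * cos (t1 s)) / sin (t1 s - t0 s)⟩ with hy
  have y0 : dot y (U (t0 s)) = mid (t0 s) := by
    simp only [dot, hy, U_re, U_im]
    field_simp
    rw [sin_sub]; ring
  have y1 : dot y (U (t1 s)) = mid (t1 s) := by
    simp only [dot, hy, U_re, U_im]
    field_simp
    rw [sin_sub]; ring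
  have y2 : dot y (U (t2 s)) = mid (t2 s) := by
    have r := rel (t0 s) (t1 s) (t2 s) y
    rw [y0, y1] at r
    simp only [hF] at hs0
    apply mul_left_cancel₀ hc.ne'
    linarith
  refine ⟨s, hs, y, ?_⟩
  intro t ht om hom i hi
  have : dot y (U t) = mid t := by
    rcases ht with rfl | rfl | rfl <;> assumption
  rw [dot_sub, this]
  exact hstrip t om hom i hi

/-- sign of `i` relative to `m` -/
noncomputable def sg (i m : ℕ) : ℝ := if i < m then 1 else -1

theorem dot_coef_le (n : ℕ) (c : ℕ → ℂ) (σ μ : ℕ → ℝ) (h : ∀ i < n, |σ i| ≤ μ i) (u : ℂ) :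
    dot (∑ i ∈ range n, σ i • c i) u ≤ ∑ i ∈ range n, μ i * |dot (c i) u| := by
  rw [dot_sum]
  apply Finset.sum_le_sum
  intro i hi
  rw [dot_smul]
  calc σ i * dot (c i) u ≤ |σ i * dot (c i) u| := le_abs_self _
    _ = |σ i| * |dot (c i) u| := abs_mul _ _
    _ ≤ μ i * |dot (c i) u| := by
      have := h i (Finset.mem_range.1 hi)
      gcongr

/-- vertices of the polygon -/
noncomputable def vert (n : ℕ) (c : ℕ → ℂ) (ρ μ : ℕ → ℝ) (p : ℕ × Bool) : ℂ :=
  ∑ i ∈ range n, (sg i p.1 * (ρ i + (if p.2 then 1 else -1) * μ i) / 2) • c i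

theorem vert_sub (n : ℕ) (c : ℕ → ℂ) (ρ μ : ℕ → ℝ) (hρ : ∀ i < n, |ρ i| ≤ μ i)
    (hsum : ∑ i ∈ range n, ρ i • c i = 0) (p q : ℕ × Bool) (u : ℂ) :
    dot (vert n c ρ μ p - vert n c ρ μ q) u ≤ ∑ i ∈ range n, μ i * |dot (c i) u| := by
  obtain ⟨m, e⟩ := p
  obtain ⟨m', e'⟩ := q
  obtain ⟨r, hr⟩ : ∃ r : ℝ, ∀ i < n,
      |sg i m * (ρ i + (if e then 1 else -1) * μ i) / 2 -
        sg i m' * (ρ i + (if e' then 1 else -1) * μ i) / 2 + r * ρ i| ≤ μ i := by
    refine ⟨if e = e' then (if m ≤ m' then 1 else -1) else 0, ?_⟩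
    intro i hi
    have h := abs_le.1 (hρ i hi)
    have h1 := h.1
    have h2 := h.2
    unfold sg
    cases e <;> cases e' <;> simp only [Bool.false_eq_true, Bool.true_eq_false, if_true, if_false] <;>
      split_ifs <;> (rw [abs_le]; constructor <;> linarith)
  have : vert n c ρ μ (m, e) - vert n c ρ μ (m', e') = ∑ i ∈ range n,
      (sg i m * (ρ i + (if e then 1 else -1) * μ i) / 2 -
        sg i m' * (ρ i + (if e' then 1 else -1) * μ i) / 2 + r * ρ i) • c i := by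
    simp only [add_smul, sub_smul, Finset.sum_add_distrib, Finset.sum_sub_distrib, mul_smul r,
      ← Finset.smul_sum, hsum, smul_zero, add_zero, vert]
  rw [this]
  exact dot_coef_le n c _ μ hr u

theorem sum_sg (n m : ℕ) (hm : m ≤ n) (f : ℕ → ℝ) :
    ∑ i ∈ range n, sg i m * f i = 2 * ∑ i ∈ range m, f i - ∑ i ∈ range n, f i := by
  induction n, hm using Nat.le_induction with
  | base =>
    rw [two_mul, add_sub_cancel_right]
    apply Finset.sum_congr rfl
    intro i hi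
    simp [sg, Finset.mem_range.1 hi]
  | succ n hn ih =>
    rw [Finset.sum_range_succ, Finset.sum_range_succ, ih]
    have : sg n m = -1 := by simp [sg, hn]
    rw [this]; ring

theorem cross_vert (n : ℕ) (c : ℕ → ℂ) (hc : ∀ i j, i < j → j < n → 0 ≤ cross (c i) (c j))
    (ρ μ : ℕ → ℝ) (hsum : ∑ i ∈ range n, ρ i • c i = 0) (m : ℕ) (hm : m < n) (e : Bool) :
    cross (vert n c ρ μ (m, e)) (c m) = ∑ i ∈ range m, ρ i * cross (c i) (c m) +
      (if e then 1 else -1) * ((∑ i ∈ range n, μ i * |cross (c i) (c m)|) / 2) := by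
  have h0 : ∑ i ∈ range n, ρ i * cross (c i) (c m) = 0 := by
    have := congrArg (fun z => cross z (c m)) hsum
    simp only [cross_sum, cross_smul] at this
    rw [this]; simp [cross]
  have h1 := sum_sg n m hm.le (fun i => ρ i * cross (c i) (c m))
  rw [h0] at h1
  have h2 : ∀ i ∈ range n, sg i m * cross (c i) (c m) = |cross (c i) (c m)| := by
    intro i hi
    have hi := Finset.mem_range.1 hi
    unfold sg
    rcases lt_trichotomy i m with h | h | h
    · rw [if_pos h, abs_of_nonneg (hc i m h hm), one_mul]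
    · subst h; simp [cross_self]
    · rw [if_neg (by omega), cross_comm (c i) (c m), abs_neg, abs_of_nonneg (hc m i h hi)]; ring
  unfold vert
  rw [cross_sum]
  simp only [cross_smul]
  have h3 : ∀ i ∈ range n, sg i m * (ρ i + (if e then 1 else -1) * μ i) / 2 * cross (c i) (c m) =
      sg i m * (ρ i * cross (c i) (c m)) / 2 +
        (if e then 1 else -1) * (μ i * |cross (c i) (c m)| / 2) := by
    intro i hi
    rw [← h2 i hi]; ring
  rw [Finset.sum_congr rfl h3, Finset.sum_add_distrib, ← Finset.sum_div, h1, ← Finset.mul_sum,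
    ← Finset.sum_div]
  ring

theorem sym_bound (n : ℕ) (w R : ℕ → ℝ) (B : ℕ → ℕ → ℝ) (hR : ∀ i < n, 0 ≤ R i)
    (hB : ∀ i j, 0 ≤ B i j) (hs : ∀ i j, B i j = B j i) :
    ∑ j ∈ range n, w j * R j * ∑ i ∈ range n, w i * R i * B i j ≤
      ∑ j ∈ range n, w j ^ 2 * R j * ∑ i ∈ range n, R i * B i j := by
  simp only [Finset.mul_sum]
  have h1 : ∑ j ∈ range n, ∑ i ∈ range n, w j ^ 2 * R j * (R i * B i j) =
      ∑ j ∈ range n, ∑ i ∈ range n, w i ^ 2 * R i * (R j * B i j) := by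
    rw [Finset.sum_comm]
    apply Finset.sum_congr rfl; intro j _
    apply Finset.sum_congr rfl; intro i _
    rw [hs i j]
  have h2 : ∑ j ∈ range n, ∑ i ∈ range n, w j * R j * (w i * R i * B i j) ≤
      ∑ j ∈ range n, ∑ i ∈ range n,
        (w j ^ 2 * R j * (R i * B i j) + w i ^ 2 * R i * (R j * B i j)) / 2 := by
    apply Finset.sum_le_sum; intro j hj
    apply Finset.sum_le_sum; intro i hi
    have a := mul_nonneg (mul_nonneg (hR j (Finset.mem_range.1 hj)) (hR i (Finset.mem_range.1 hi)))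
      (hB i j)
    nlinarith [mul_nonneg (sq_nonneg (w i - w j)) a]
  simp only [← Finset.sum_div, Finset.sum_add_distrib] at h2
  linarith

end HexAux

theorem hex_main (n : ℕ) (c : ℕ → ℂ) (hc : ∀ i j, i < j → j < n → 0 ≤ cross (c i) (c j))
    (ρ w R : ℕ → ℝ) (hw : ∀ i < n, 0 ≤ w i ∧ w i ≤ 1) (hR : ∀ i < n, 0 ≤ R i)
    (hρ : ∀ i < n, |ρ i| ≤ w i * R i) (hsum : ∑ i ∈ range n, ρ i • c i = 0)
    (t0 t1 t2 : ℝ → ℝ) (c0 : Continuous t0) (c1 : Continuous t1) (c2 : Continuous t2)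
    (hpos : ∀ s ∈ Set.Icc (0 : ℝ) 1,
      0 < sin (t2 s - t1 s) ∧ 0 < sin (t2 s - t0 s) ∧ 0 < sin (t1 s - t0 s))
    (e0 : t0 1 = t1 0) (e1 : t1 1 = t2 0) (e2 : t2 1 = t0 0 + π) :
    ∃ s ∈ Set.Icc (0 : ℝ) 1, ∀ W0 W1 W2 : ℝ,
      ∑ i ∈ range n, R i * |dot (c i) (U (t0 s))| ≤ W0 →
      ∑ i ∈ range n, R i * |dot (c i) (U (t1 s))| ≤ W1 →
      ∑ i ∈ range n, R i * |dot (c i) (U (t2 s))| ≤ W2 →
      -(∑ j ∈ range n, ∑ i ∈ range j, ρ i * ρ j * cross (c i) (c j)) ≤
        ∑ j ∈ range n, w j ^ 2 * R j *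
          (Phi (t0 s) (t1 s) (t2 s) (W0 / 2) (W1 / 2) (W2 / 2)
            |dot (c j) (U (t0 s))| |dot (c j) (U (t1 s))| |dot (c j) (U (t2 s))| -
           (∑ i ∈ range n, R i * |cross (c i) (c j)|) / 2) := by
  rcases Nat.eq_zero_or_pos n with rfl | hn
  · exact ⟨0, ⟨le_rfl, zero_le_one⟩, fun _ _ _ _ _ _ => by simp⟩
  set μ : ℕ → ℝ := fun i => w i * R i with hμ
  have hS : ((range n) ×ˢ (Finset.univ : Finset Bool)).Nonempty :=
    ⟨(0, true), by simp [hn]⟩
  obtain ⟨s, hs, y, hy⟩ := exists_center _ hS (vert n c ρ μ) t0 t1 t2 c0 c1 c2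
    (fun s hs => (hpos s hs).2.2) e0 e1 e2
  refine ⟨s, hs, ?_⟩
  intro W0 W1 W2 hW0 hW1 hW2
  obtain ⟨ha, hb, hc'⟩ := hpos s hs
  generalize t0 s = a0 at *
  generalize t1 s = a1 at *
  generalize t2 s = a2 at *
  have hv : ∀ t, (t = a0 ∨ t = a1 ∨ t = a2) → ∀ m < n, ∀ e : Bool,
      |dot (vert n c ρ μ (m, e) - y) (U t)| ≤ (∑ i ∈ range n, μ i * |dot (c i) (U t)|) / 2 := by
    intro t ht m hm e
    exact hy t ht _ (fun j _ k _ => vert_sub n c ρ μ hρ hsum j k _) (m, e) (by simp [hm])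
  set B : ℕ → ℕ → ℝ := fun i j =>
    (Phi a0 a1 a2 |dot (c i) (U a0)| |dot (c i) (U a1)| |dot (c i) (U a2)|
      |dot (c j) (U a0)| |dot (c j) (U a1)| |dot (c j) (U a2)| - |cross (c i) (c j)|) / 2 with hB
  have hB0 : ∀ i j, 0 ≤ B i j := by
    intro i j
    have h1 := hex_cross ha hb hc' (z := c i) le_rfl le_rfl le_rfl (c j)
    have h2 := hex_cross ha hb hc' (z := -c i) (k0 := |dot (c i) (U a0)|)
      (k1 := |dot (c i) (U a1)|) (k2 := |dot (c i) (U a2)|) (by rw [dot_neg, abs_neg])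
      (by rw [dot_neg, abs_neg]) (by rw [dot_neg, abs_neg]) (c j)
    rw [cross_neg] at h2
    have h3 := abs_le.2 ⟨neg_le.1 h2, h1⟩
    simp only [hB]; linarith
  have hBs : ∀ i j, B i j = B j i := by
    intro i j
    simp only [hB]
    rw [Phi_symm, cross_comm (c i) (c j), abs_neg]
  have hBsum : ∀ (m : ℕ → ℝ) (j : ℕ), ∑ i ∈ range n, m i * B i j =
      Phi a0 a1 a2 ((∑ i ∈ range n, m i * |dot (c i) (U a0)|) / 2)
        ((∑ i ∈ range n, m i * |dot (c i) (U a1)|) / 2)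
        ((∑ i ∈ range n, m i * |dot (c i) (U a2)|) / 2)
        |dot (c j) (U a0)| |dot (c j) (U a1)| |dot (c j) (U a2)| -
        (∑ i ∈ range n, m i * |cross (c i) (c j)|) / 2 := by
    intro m j
    rw [Phi_sum, ← sub_div, ← Finset.sum_sub_distrib, Finset.sum_div]
    apply Finset.sum_congr rfl
    intro i _
    simp only [hB]; ring
  have hterm : ∀ m < n, |∑ i ∈ range m, ρ i * cross (c i) (c m) - cross y (c m)| ≤
      ∑ i ∈ range n, μ i * B i m := by
    intro m hm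
    rw [hBsum]
    have h1 := hex_cross ha hb hc' (hv a0 (Or.inl rfl) m hm true)
      (hv a1 (Or.inr (Or.inl rfl)) m hm true) (hv a2 (Or.inr (Or.inr rfl)) m hm true) (c m)
    have h2 := hex_cross ha hb hc' (z := -(vert n c ρ μ (m, false) - y))
      ((abs_dot_neg _ _).trans_le (hv a0 (Or.inl rfl) m hm false))
      ((abs_dot_neg _ _).trans_le (hv a1 (Or.inr (Or.inl rfl)) m hm false))
      ((abs_dot_neg _ _).trans_le (hv a2 (Or.inr (Or.inr rfl)) m hm false)) (c m)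
    rw [cross_sub, cross_vert n c hc ρ μ hsum m hm] at h1
    rw [cross_neg, cross_sub, cross_vert n c hc ρ μ hsum m hm] at h2
    simp only [Bool.false_eq_true, if_true, if_false] at h1 h2
    rw [abs_le]; constructor <;> linarith
  have hy0 : ∑ j ∈ range n, ρ j * cross y (c j) = 0 := by
    have := congrArg (fun z => cross y z) hsum
    simp only [cross_sum_right, cross_smul_right] at this
    rw [this]; simp [cross]
  have hL : -(∑ j ∈ range n, ∑ i ∈ range j, ρ i * ρ j * cross (c i) (c j)) =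
      ∑ j ∈ range n, -(ρ j * (∑ i ∈ range j, ρ i * cross (c i) (c j) - cross y (c j))) := by
    rw [Finset.sum_neg_distrib]
    simp only [mul_sub, Finset.sum_sub_distrib, hy0, sub_zero, Finset.mul_sum]
    congr 1
    apply Finset.sum_congr rfl; intro j _
    apply Finset.sum_congr rfl; intro i _
    ring
  rw [hL]
  calc ∑ j ∈ range n, -(ρ j * (∑ i ∈ range j, ρ i * cross (c i) (c j) - cross y (c j)))
      ≤ ∑ j ∈ range n, w j * R j * ∑ i ∈ range n, w i * R i * B i j := by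
        apply Finset.sum_le_sum
        intro j hj
        have hj := Finset.mem_range.1 hj
        refine (neg_le_abs _).trans ?_
        rw [abs_mul]
        exact mul_le_mul (hρ j hj) (hterm j hj) (abs_nonneg _) ((abs_nonneg _).trans (hρ j hj))
    _ ≤ ∑ j ∈ range n, w j ^ 2 * R j * ∑ i ∈ range n, R i * B i j :=
        sym_bound n w R B hR hB0 hBs
    _ ≤ _ := by
        apply Finset.sum_le_sum
        intro j hj
        have hj := Finset.mem_range.1 hj
        apply mul_le_mul_of_nonneg_left _ (mul_nonneg (sq_nonneg _) (hR j hj))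
        rw [hBsum]
        obtain ⟨k0, k1, k2⟩ := tri ha hb hc' (c j)
        have := Phi_mono ha hb hc' k0 k1 k2
          (q0 := (∑ i ∈ range n, R i * |dot (c i) (U a0)|) / 2)
          (q1 := (∑ i ∈ range n, R i * |dot (c i) (U a1)|) / 2)
          (q2 := (∑ i ∈ range n, R i * |dot (c i) (U a2)|) / 2)
          (r0 := W0 / 2) (r1 := W1 / 2) (r2 := W2 / 2) (by linarith) (by linarith) (by linarith)
        rw [Phi_symm a0 a1 a2 (W0 / 2),
          Phi_symm a0 a1 a2 ((∑ i ∈ range n, R i * |dot (c i) (U a0)|) / 2)]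
        linarith

end Pool.Agent.P.MP_4c4e6e_co
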