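import Pool.Agent.P.MP_4c4e6e_co.Geo
import Pool.Agent.P.MP_4c4e6e_co.Hex
import Pool.Agent.P.MP_4c4e6e_co.Fun

/-! Area of the polygon in terms of a hexagon with general envelope. -/

namespace Pool.Agent.P.MP_4c4e6e_co

open Real Finset

/-- primitive of `|sin (x - t)|` on `[0, π]` -/
noncomputable def Lam (t x : ℝ) : ℝ := if x ≤ t then cos (x - t) else 2 - cos (x - t)

theorem abs_le_Lam {t p q : ℝ} (ht0 : 0 ≤ t) (ht : t ≤ π) (hp : 0 ≤ p) (hpq : p ≤ q) (hq : q ≤ π) :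
    |dot (U q - U p) (U t)| ≤ Lam t q - Lam t p := by
  have h : dot (U q - U p) (U t) = cos (q - t) - cos (p - t) := by
    simp only [dot, Complex.sub_re, Complex.sub_im, U_re, U_im, cos_sub]
    ring
  have h1 := cos_le_one (q - t)
  have h2 := cos_le_one (p - t)
  rw [h, Lam, Lam, abs_le]
  split_ifs with h3 h4 h4
  · have := cos_le_cos_of_nonneg_of_le_pi (x := t - q) (y := t - p) (by linarith) (by linarith)
      (by linarith)
    rw [← cos_neg (t - q), ← cos_neg (t - p), neg_sub, neg_sub] at this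
    constructor <;> linarith
  · exact absurd (hpq.trans h3) h4
  · constructor <;> linarith
  · have := cos_le_cos_of_nonneg_of_le_pi (x := p - t) (y := q - t) (by linarith) (by linarith)
      (by linarith)
    constructor <;> linarith

namespace AreaX

theorem cross_add_left (a b c : ℂ) : cross (a + b) c = cross a c + cross b c := by
  simp only [cross, Complex.add_re, Complex.add_im]; ring

theorem cross_add_right (a b c : ℂ) : cross a (b + c) = cross a b + cross a c := by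
  simp only [cross, Complex.add_re, Complex.add_im]; ring

theorem cross_sub_left (a b c : ℂ) : cross (a - b) c = cross a c - cross b c := by
  simp only [cross, Complex.sub_re, Complex.sub_im]; ring

theorem cross_sub_right (a b c : ℂ) : cross a (b - c) = cross a b - cross a c := by
  simp only [cross, Complex.sub_re, Complex.sub_im]; ring

theorem cross_smul_left (x : ℝ) (a b : ℂ) : cross (x • a) b = x * cross a b := by
  simp only [cross, Complex.smul_re, Complex.smul_im, smul_eq_mul]; ring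

theorem cross_smul_right (x : ℝ) (a b : ℂ) : cross a (x • b) = x * cross a b := by
  simp only [cross, Complex.smul_re, Complex.smul_im, smul_eq_mul]; ring

theorem cross_same (a : ℂ) : cross a a = 0 := by simp only [cross]; ring

theorem cross_swap (a b : ℂ) : cross a b = -cross b a := by simp only [cross]; ring

theorem cross_sum_left (s : Finset ℕ) (x : ℕ → ℝ) (c : ℕ → ℂ) (b : ℂ) :
    cross (∑ i ∈ s, x i • c i) b = ∑ i ∈ s, x i * cross (c i) b := by
  induction s using Finset.induction_on with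
  | empty => simp [cross]
  | insert i s hi ih => rw [sum_insert hi, sum_insert hi, cross_add_left, ih, cross_smul_left]

theorem cross_chords {a b c d : ℝ} (h0 : 0 ≤ a) (h1 : a ≤ b) (h2 : b ≤ c) (h3 : c ≤ d)
    (h4 : d ≤ π) : 0 ≤ cross (U b - U a) (U d - U c) := by
  obtain ⟨u, v, m, e1, e2, e3⟩ : ∃ u v m : ℝ, u = (b - a) / 2 ∧ v = (d - c) / 2 ∧
    m = (c + d) / 2 - (a + b) / 2 := ⟨_, _, _, rfl, rfl, rfl⟩
  have h : cross (U b - U a) (U d - U c) = 4 * sin u * sin v * sin m := by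
    simp only [cross_sub_left, cross_sub_right, cross_U_U]
    rw [show d - b = m + v - u by linarith, show c - b = m - v - u by linarith,
      show d - a = m + v + u by linarith, show c - a = m - v + u by linarith]
    simp only [sin_add, sin_sub, cos_add, cos_sub]
    ring
  have hu := sin_nonneg_of_nonneg_of_le_pi (x := u) (by linarith) (by linarith)
  have hv := sin_nonneg_of_nonneg_of_le_pi (x := v) (by linarith) (by linarith)
  have hm := sin_nonneg_of_nonneg_of_le_pi (x := m) (by linarith) (by linarith)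
  rw [h]
  positivity

theorem sum_two (f : ℕ → ℝ) (n : ℕ) :
    ∑ m ∈ range (2 * n), f m = ∑ k ∈ range n, (f (2 * k) + f (2 * k + 1)) := by
  induction n with
  | zero => simp
  | succ n ih => rw [mul_add, mul_one, sum_range_succ, sum_range_succ, ih, sum_range_succ, add_assoc]

theorem half_sum_abs {n : ℕ} {c : ℕ → ℂ} (hc : ∀ i j, i < j → j < n → 0 ≤ cross (c i) (c j))
    (R : ℕ → ℝ) {j : ℕ} (hj : j < n) :
    (∑ i ∈ range n, R i * |cross (c i) (c j)|) / 2 =
      cross (∑ i ∈ range j, R i • c i) (c j) - cross (∑ i ∈ range n, R i • c i) (c j) / 2 := by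
  have h1 : ∑ i ∈ range j, R i * |cross (c i) (c j)| = ∑ i ∈ range j, R i * cross (c i) (c j) :=
    sum_congr rfl fun i hi => by rw [abs_of_nonneg (hc i j (mem_range.1 hi) hj)]
  have h2 : ∑ i ∈ Ico j n, R i * |cross (c i) (c j)| = -∑ i ∈ Ico j n, R i * cross (c i) (c j) := by
    rw [← sum_neg_distrib]
    refine sum_congr rfl fun i hi => ?_
    obtain ⟨h3, h4⟩ := mem_Ico.1 hi
    rcases h3.eq_or_lt with rfl | h3
    · simp [cross_same]
    · rw [cross_swap, abs_neg, abs_of_nonneg (hc j i h3 h4)]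
      ring
  rw [cross_sum_left, cross_sum_left, ← sum_range_add_sum_Ico _ hj.le,
    ← sum_range_add_sum_Ico _ hj.le, h1, h2]
  ring

/-- interleaving of two sequences -/
def mix {α : Type} (a b : ℕ → α) (m : ℕ) : α := if m % 2 = 0 then a (m / 2) else b (m / 2)

theorem mix_even {α : Type} (a b : ℕ → α) (k : ℕ) : mix a b (2 * k) = a k := by
  rw [mix, if_pos (by omega), show 2 * k / 2 = k by omega]

theorem mix_odd {α : Type} (a b : ℕ → α) (k : ℕ) : mix a b (2 * k + 1) = b k := by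
  rw [mix, if_neg (by omega), show (2 * k + 1) / 2 = k by omega]

theorem mix_even' {α : Type} (a b : ℕ → α) (k : ℕ) : mix a b (2 * k + 1 + 1) = a (k + 1) :=
  mix_even a b (k + 1)

theorem forall_two {P : ℕ → Prop} {n : ℕ} (h : ∀ k < n, P (2 * k) ∧ P (2 * k + 1)) :
    ∀ m < 2 * n, P m := fun m hm => by
  obtain ⟨k, rfl | rfl⟩ := Nat.even_or_odd' m
  exacts [(h k (by omega)).1, (h k (by omega)).2]

theorem mono_of_step {f : ℕ → ℝ} {n : ℕ} (h : ∀ m < n, f m ≤ f (m + 1)) {i j : ℕ} (hij : i ≤ j)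
    (hj : j ≤ n) : f i ≤ f j := by
  induction j, hij using Nat.le_induction with
  | base => exact le_rfl
  | succ j _ ih => exact (ih (by omega)).trans (h j (by omega))

theorem sin_split (p q t : ℝ) :
    sin ((p + q) / 2 + t - p) + sin (q - ((p + q) / 2 + t)) = 2 * sin ((q - p) / 2) * cos t := by
  rw [show (p + q) / 2 + t - p = (q - p) / 2 + t by ring,
    show q - ((p + q) / 2 + t) = (q - p) / 2 - t by ring, sin_add, sin_sub]
  ring

theorem sin_half (d : ℝ) : sin d = 2 * sin (d / 2) * cos (d / 2) := by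
  rw [← sin_two_mul, mul_div_cancel₀ _ two_ne_zero]

end AreaX

open AreaX

/-- `Phi` is additive in its second argument -/
theorem Phi_add_snd (t0 t1 t2 p0 p1 p2 q0 q1 q2 r0 r1 r2 : ℝ) :
    Phi t0 t1 t2 p0 p1 p2 q0 q1 q2 + Phi t0 t1 t2 p0 p1 p2 r0 r1 r2 =
      Phi t0 t1 t2 p0 p1 p2 (q0 + r0) (q1 + r1) (q2 + r2) := by
  simp only [Phi]
  ring

/-- lower bound for the hexagon functional of an arc by a point of the hexagon -/
theorem cross_le_arc {t0 t1 t2 : ℝ} (ha : 0 < sin (t2 - t1)) (hb : 0 < sin (t2 - t0))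
    (hc : 0 < sin (t1 - t0)) (g0 : 0 ≤ t0) (g1 : t0 ≤ t1) (g2 : t1 ≤ t2) (g3 : t2 ≤ π)
    {k0 k1 k2 : ℝ}
    (h0 : sin (t2 - t1) * k0 ≤ sin (t2 - t0) * k1 + sin (t1 - t0) * k2)
    (h1 : sin (t2 - t0) * k1 ≤ sin (t2 - t1) * k0 + sin (t1 - t0) * k2)
    (h2 : sin (t1 - t0) * k2 ≤ sin (t2 - t1) * k0 + sin (t2 - t0) * k1)
    {v : ℂ} (v0 : |dot v (U t0)| ≤ k0) (v1 : |dot v (U t1)| ≤ k1) (v2 : |dot v (U t2)| ≤ k2)
    {p q : ℝ} (hp : 0 ≤ p) (hpq : p ≤ q) (hq : q ≤ π) :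
    cross v (U q - U p) ≤ Phi t0 t1 t2 k0 k1 k2 (Lam t0 q - Lam t0 p) (Lam t1 q - Lam t1 p)
      (Lam t2 q - Lam t2 p) :=
  (hex_cross ha hb hc v0 v1 v2 _).trans (Phi_mono ha hb hc h0 h1 h2
    (abs_le_Lam g0 (by linarith) hp hpq hq) (abs_le_Lam (by linarith) (by linarith) hp hpq hq)
    (abs_le_Lam (by linarith) g3 hp hpq hq))

/-- `r = 1`, `wt = lam N`: no envelope; `r = lam N`, `wt = 1`: envelope on the last cell.
`T = θ N`, `g = (1 - r) / 2 • (U 0 + U T)`. -/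
theorem area_gen (D : Dia) (N : ℕ) (θ : ℕ → ℝ) (hθ : D.IsPart N θ) (lam t : ℕ → ℝ)
    (hl : ∀ k ≤ N, D.IsLens (θ k) (θ (k + 1)) (lam k) (t k)) (r wt : ℝ) (hr0 : 0 ≤ r)
    (hw0 : 0 ≤ wt) (hw1 : wt ≤ 1) (hrw : wt * r = lam N)
    (t0 t1 t2 : ℝ → ℝ) (c0 : Continuous t0) (c1 : Continuous t1) (c2 : Continuous t2)
    (hpos : ∀ s ∈ Set.Icc (0 : ℝ) 1,
      0 < sin (t2 s - t1 s) ∧ 0 < sin (t2 s - t0 s) ∧ 0 < sin (t1 s - t0 s))
    (hin : ∀ s ∈ Set.Icc (0 : ℝ) 1, 0 ≤ t0 s ∧ t0 s ≤ t1 s ∧ t1 s ≤ t2 s ∧ t2 s ≤ π)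
    (e0 : t0 1 = t1 0) (e1 : t1 1 = t2 0) (e2 : t2 1 = t0 0 + π) :
    ∃ s ∈ Set.Icc (0 : ℝ) 1, ∀ W0 W1 W2 : ℝ,
      W0 = (Lam (t0 s) (θ N) - Lam (t0 s) 0) / 2 + r * (Lam (t0 s) π - Lam (t0 s) (θ N)) / 2 →
      W1 = (Lam (t1 s) (θ N) - Lam (t1 s) 0) / 2 + r * (Lam (t1 s) π - Lam (t1 s) (θ N)) / 2 →
      W2 = (Lam (t2 s) (θ N) - Lam (t2 s) 0) / 2 + r * (Lam (t2 s) π - Lam (t2 s) (θ N)) / 2 →
      sin (t2 s - t1 s) * W0 ≤ sin (t2 s - t0 s) * W1 + sin (t1 s - t0 s) * W2 →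
      sin (t2 s - t0 s) * W1 ≤ sin (t2 s - t1 s) * W0 + sin (t1 s - t0 s) * W2 →
      sin (t1 s - t0 s) * W2 ≤ sin (t2 s - t1 s) * W0 + sin (t2 s - t0 s) * W1 →
      ∀ J : ℕ → ℝ, (∀ k ≤ N, J k = Phi (t0 s) (t1 s) (t2 s) (W0 / 2) (W1 / 2) (W2 / 2)
        (Lam (t0 s) (θ (k + 1)) - Lam (t0 s) (θ k)) (Lam (t1 s) (θ (k + 1)) - Lam (t1 s) (θ k))
        (Lam (t2 s) (θ (k + 1)) - Lam (t2 s) (θ k))) →
      ∑ k ∈ range N, ((1 + lam k ^ 2) * sin (θ (k + 1) - θ k) / 4 +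
          lam k ^ 2 * (sin ((θ (k + 1) - θ k) / 2) * (cos (t k) - cos ((θ (k + 1) - θ k) / 2))) -
          lam k ^ 2 / 2 * (J k + (1 - r) / 4 * cross (U 0 + U (θ N)) (U (θ (k + 1)) - U (θ k)))) +
        ((1 + wt ^ 2 * r) * sin (π - θ N) / 4 +
          lam N ^ 2 * (sin ((π - θ N) / 2) * (cos (t N) - cos ((π - θ N) / 2))) -
          wt ^ 2 * r / 2 * J N) ≤ D.Sh N θ := by
  obtain ⟨z0, zπ, zlt, zmem⟩ := hθ
  choose! e he hM using fun k (hk : k ≤ N) => (hl k hk).2.2.2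
  obtain ⟨φ, hφ⟩ : ∃ φ, φ = mix θ fun k => (θ k + θ (k + 1)) / 2 + t k := ⟨_, rfl⟩
  obtain ⟨c, hc⟩ : ∃ c : ℕ → ℂ, c = fun m => U (φ (m + 1)) - U (φ m) := ⟨_, rfl⟩
  obtain ⟨ρ, hρ⟩ : ∃ ρ, ρ = mix (fun k => e k * lam k / 2) fun k => -(e k * lam k / 2) := ⟨_, rfl⟩
  obtain ⟨w, hw⟩ : ∃ w : ℕ → ℝ, w = fun m => if m < 2 * N then lam (m / 2) else wt := ⟨_, rfl⟩
  obtain ⟨R, hR⟩ : ∃ R : ℕ → ℝ, R = fun m => if m < 2 * N then 1 / 2 else r / 2 := ⟨_, rfl⟩
  have φ0 : ∀ k, φ (2 * k) = θ k := fun k => by rw [hφ, mix_even]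
  have φ1 : ∀ k, φ (2 * k + 1) = (θ k + θ (k + 1)) / 2 + t k := fun k => by rw [hφ, mix_odd]
  have φ2 : ∀ k, φ (2 * k + 1 + 1) = θ (k + 1) := fun k => by rw [hφ, mix_even']
  have ρ0 : ∀ k, ρ (2 * k) = e k * lam k / 2 := fun k => by rw [hρ, mix_even]
  have ρ1 : ∀ k, ρ (2 * k + 1) = -(e k * lam k / 2) := fun k => by rw [hρ, mix_odd]
  have step : ∀ m < 2 * (N + 1), φ m ≤ φ (m + 1) := forall_two fun k hk => by
    have := abs_le.1 (hl k (by omega)).2.2.1
    rw [φ0, φ1, φ2]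
    constructor <;> linarith [this.1, this.2]
  have lo : ∀ m ≤ 2 * (N + 1), 0 ≤ φ m := fun m hm => by
    have := mono_of_step step (Nat.zero_le m) hm
    rwa [← mul_zero 2, φ0, z0] at this
  have hi : ∀ m ≤ 2 * (N + 1), φ m ≤ π := fun m hm => by
    have := mono_of_step step hm le_rfl
    rwa [φ0, zπ] at this
  have hcc : ∀ i j, i < j → j < 2 * (N + 1) → 0 ≤ cross (c i) (c j) := fun i j hij hj => by
    rw [hc]
    exact cross_chords (lo i (by omega)) (step i (by omega)) (mono_of_step step hij hj.le)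
      (step j hj) (hi _ hj)
  have w0 : ∀ k < N, w (2 * k) = lam k ∧ w (2 * k + 1) = lam k ∧ R (2 * k) = 1 / 2 ∧
      R (2 * k + 1) = 1 / 2 := fun k hk => by
    simp only [hw, hR, if_pos (show 2 * k < 2 * N by omega),
      if_pos (show 2 * k + 1 < 2 * N by omega), show 2 * k / 2 = k by omega,
      show (2 * k + 1) / 2 = k by omega, and_self]
  have w1 : w (2 * N) = wt ∧ w (2 * N + 1) = wt ∧ R (2 * N) = r / 2 ∧ R (2 * N + 1) = r / 2 := by
    simp only [hw, hR, lt_irrefl, if_false, if_neg (show ¬ 2 * N + 1 < 2 * N by omega), and_self]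
  have e2' : ∀ k ≤ N, e k ^ 2 = 1 := fun k hk => by rcases he k hk with h | h <;> simp [h]
  have hρw : ∀ m < 2 * (N + 1), |ρ m| ≤ w m * R m := forall_two fun k hk => by
    have h1 : |e k * lam k / 2| = lam k / 2 := by
      rw [abs_div, abs_mul, abs_of_nonneg (hl k (by omega)).1, abs_two]
      rcases he k (by omega) with h | h <;> simp [h]
    rw [ρ0, ρ1, abs_neg, h1]
    rcases (Nat.lt_succ_iff.1 hk).eq_or_lt with rfl | h
    · obtain ⟨a1, a2, a3, a4⟩ := w1
      rw [a1, a2, a3, a4, ← hrw]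
      constructor <;> linarith
    · obtain ⟨a1, a2, a3, a4⟩ := w0 k h
      rw [a1, a2, a3, a4]
      constructor <;> linarith
  have hΔ : ∀ k ≤ N, D.M (θ (k + 1)) =
      D.M (θ k) + ρ (2 * k) • c (2 * k) + ρ (2 * k + 1) • c (2 * k + 1) := fun k hk => by
    rw [← sub_add_cancel (D.M (θ (k + 1))) (D.M (θ k)), hM k hk, ρ0, ρ1, hc]
    simp only [φ0, φ1, φ2]
    module
  have hP : ∀ k ≤ N + 1, ∑ i ∈ range (2 * k), ρ i • c i = D.M (θ k) - D.M 0 := by
    intro k hk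
    induction k with
    | zero => simp [z0]
    | succ k ih =>
      rw [mul_add, mul_one, sum_range_succ, sum_range_succ, ih (by omega), hΔ k (by omega)]
      abel
  have hMπ : D.M π = D.M 0 := by
    have h1 := D.anti 0 (z0 ▸ zmem 0 (by omega))
    have h2 := U_add_pi 0
    rw [zero_add] at h1 h2
    rw [Dia.M, Dia.M, h1, h2]
    module
  obtain ⟨s, hs, key⟩ := hex_main (2 * (N + 1)) c hcc ρ w R
    (fun i _ => by
      rw [hw]
      dsimp only
      split_ifs with h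
      exacts [⟨(hl _ (by omega)).1, (hl _ (by omega)).2.1⟩, ⟨hw0, hw1⟩])
    (fun i _ => by
      rw [hR]
      dsimp only
      split_ifs <;> positivity)
    hρw (by rw [hP _ le_rfl, zπ, hMπ, sub_self]) t0 t1 t2 c0 c1 c2 hpos e0 e1 e2
  refine ⟨s, hs, fun W0 W1 W2 hW0 hW1 hW2 tr0 tr1 tr2 J hJ => ?_⟩
  obtain ⟨i0, i1, i2, i3⟩ := hin s hs
  obtain ⟨pa, pb, pc⟩ := hpos s hs
  have hL : ∀ u, 0 ≤ u → u ≤ π → ∀ k ≤ N, |dot (c (2 * k)) (U u)| + |dot (c (2 * k + 1)) (U u)| ≤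
      Lam u (θ (k + 1)) - Lam u (θ k) := fun u u0 u1 k hk => by
    have h1 := abs_le_Lam u0 u1 (lo (2 * k) (by omega)) (step _ (by omega)) (hi _ (by omega))
    have h2 := abs_le_Lam u0 u1 (lo (2 * k + 1) (by omega)) (step _ (by omega)) (hi _ (by omega))
    rw [← φ0 k, ← φ2 k, hc]
    linarith
  have hW : ∀ u, 0 ≤ u → u ≤ π → ∑ i ∈ range (2 * (N + 1)), R i * |dot (c i) (U u)| ≤
      (Lam u (θ N) - Lam u 0) / 2 + r * (Lam u π - Lam u (θ N)) / 2 := fun u u0 u1 => by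
    rw [sum_two, sum_range_succ, ← z0, ← sum_range_sub fun k => Lam u (θ k), sum_div, ← zπ]
    refine add_le_add (sum_le_sum fun k hk => ?_) ?_
    · obtain ⟨-, -, a3, a4⟩ := w0 k (mem_range.1 hk)
      rw [a3, a4]
      linarith [hL u u0 u1 k (mem_range.1 hk).le]
    · rw [w1.2.2.1, w1.2.2.2]
      linarith [mul_le_mul_of_nonneg_left (hL u u0 u1 N le_rfl) hr0]
  have key := key W0 W1 W2 (hW0 ▸ hW _ i0 (by linarith)) (hW1 ▸ hW _ (by linarith) (by linarith))
    (hW2 ▸ hW _ (by linarith) i3)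
  obtain ⟨F, hF⟩ : ∃ F : ℕ → ℝ, F = fun j => Phi (t0 s) (t1 s) (t2 s) (W0 / 2) (W1 / 2) (W2 / 2)
    |dot (c j) (U (t0 s))| |dot (c j) (U (t1 s))| |dot (c j) (U (t2 s))| := ⟨_, rfl⟩
  have hFJ : ∀ k ≤ N, F (2 * k) + F (2 * k + 1) ≤ J k := fun k hk => by
    rw [hF, hJ k hk]
    dsimp only
    rw [Phi_add_snd]
    exact Phi_mono pa pb pc (by linarith) (by linarith) (by linarith) (hL _ i0 (by linarith) k hk)
      (hL _ (by linarith) (by linarith) k hk) (hL _ (by linarith) i3 k hk)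
  have hQ : ∀ m ≤ 2 * N, ∑ i ∈ range m, R i • c i = (1 / 2 : ℝ) • (U (φ m) - U 0) := by
    intro m hm
    induction m with
    | zero =>
      have := φ0 0
      rw [mul_zero, z0] at this
      simp [this]
    | succ m ih =>
      rw [sum_range_succ, ih (by omega), hR, hc]
      dsimp only
      rw [if_pos (by omega)]
      module
  have hUπ : U π = -U 0 := by simpa using U_add_pi 0
  have hQn : ∑ i ∈ range (2 * (N + 1)), R i • c i =
      (1 / 2 : ℝ) • (U (θ N) - U 0) - (r / 2) • (U 0 + U (θ N)) := by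
    rw [mul_add, mul_one, sum_range_succ, sum_range_succ, hQ _ le_rfl, w1.2.2.1, w1.2.2.2, hc]
    simp only [φ0, φ1, φ2, zπ, hUπ]
    module
  have hX : ∀ m ≤ 2 * N, (∑ i ∈ range (2 * (N + 1)), R i * |cross (c i) (c m)|) / 2 =
      sin (φ (m + 1) - φ m) / 2 - (1 - r) / 4 * cross (U 0 + U (θ N)) (c m) := fun m hm => by
    have h1 : cross (U (φ m)) (c m) = sin (φ (m + 1) - φ m) := by
      rw [hc, cross_sub_right, cross_same, sub_zero, cross_U_U]
    rw [half_sum_abs hcc R (by omega), hQ m hm, hQn, ← h1]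
    simp only [cross_smul_left, cross_sub_left, cross_add_left]
    ring
  have hτ : ∀ k, cross (c (2 * k)) (c (2 * k + 1)) =
      2 * (sin ((θ (k + 1) - θ k) / 2) * (cos (t k) - cos ((θ (k + 1) - θ k) / 2))) := fun k => by
    have h1 := sin_split (θ k) (θ (k + 1)) (t k)
    have h2 := sin_half (θ (k + 1) - θ k)
    rw [hc]
    simp only [φ0, φ1, φ2, cross_sub_left, cross_sub_right, cross_U_U, sub_self, sin_zero]
    linarith
  have hcs : ∀ k, c (2 * k) + c (2 * k + 1) = U (θ (k + 1)) - U (θ k) := fun k => by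
    rw [hc]
    simp only [φ0, φ2]
    abel
  have hSh : D.Sh N θ = ∑ j ∈ range (2 * (N + 1)), ∑ i ∈ range j, ρ i * ρ j * cross (c i) (c j) +
      ∑ k ∈ range (N + 1), (sin (θ (k + 1) - θ k) / 4 +
        lam k ^ 2 / 4 * cross (c (2 * k)) (c (2 * k + 1))) := by
    have h1 : ∀ j, ∑ i ∈ range j, ρ i * ρ j * cross (c i) (c j) =
        ρ j * cross (∑ i ∈ range j, ρ i • c i) (c j) := fun j => by
      rw [cross_sum_left, mul_sum]
      exact sum_congr rfl fun i _ => by ring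
    have h2 : ∑ k ∈ range (N + 1),
        (cross (D.M 0) (D.M (θ (k + 1))) - cross (D.M 0) (D.M (θ k))) = 0 := by
      rw [sum_range_sub fun k => cross (D.M 0) (D.M (θ k)), zπ, z0, hMπ, sub_self]
    simp only [h1]
    rw [sum_two, ← sum_add_distrib, ← add_zero (∑ k ∈ range (N + 1), _), ← h2, ← sum_add_distrib,
      Dia.Sh]
    refine sum_congr rfl fun k hk => ?_
    have hk' : k ≤ N := Nat.lt_succ_iff.1 (mem_range.1 hk)
    have g1 : ∀ a, D.γ a = D.M a + (1 / 2 : ℝ) • U a := fun a => by rw [Dia.M, sub_add_cancel]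
    have g2 : ∀ a ∈ D.Θ, D.γ (a + π) = D.M a - (1 / 2 : ℝ) • U a := fun a ha => by
      rw [D.anti a ha, Dia.M]
      module
    rw [g2 _ (zmem k (by omega)), g2 _ (zmem (k + 1) (by omega)), g1 (θ k), g1 (θ (k + 1)),
      sum_range_succ, hP k (by omega), ← cross_U_U, hΔ k hk']
    simp only [cross_add_left, cross_add_right, cross_sub_left, cross_sub_right, cross_smul_left,
      cross_smul_right, cross_same, ρ0, ρ1]
    linear_combination (lam k ^ 2 / 4 * cross (c (2 * k)) (c (2 * k + 1))) * e2' k hk'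
  have key' : ∑ j ∈ range (2 * (N + 1)), w j ^ 2 * R j *
      (F j - (∑ i ∈ range (2 * (N + 1)), R i * |cross (c i) (c j)|) / 2) ≤
      ∑ k ∈ range N, lam k ^ 2 / 2 * (J k - sin ((θ (k + 1) - θ k) / 2) * cos (t k) +
        (1 - r) / 4 * cross (U 0 + U (θ N)) (U (θ (k + 1)) - U (θ k))) +
      wt ^ 2 * r / 2 * (J N - sin (π - θ N) / 2 - r / 2 * cross (c (2 * N)) (c (2 * N + 1))) := by
    rw [sum_two, sum_range_succ]
    refine add_le_add (sum_le_sum fun k hk => ?_) ?_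
    · have hk' := mem_range.1 hk
      obtain ⟨a1, a2, a3, a4⟩ := w0 k hk'
      have h1 := sin_split (θ k) (θ (k + 1)) (t k)
      have h2 := mul_le_mul_of_nonneg_left (hFJ k hk'.le) (sq_nonneg (lam k))
      rw [hX _ (by omega), hX _ (by omega), a1, a2, a3, a4, φ0, φ1, φ2, ← hcs, cross_add_right]
      linear_combination h2 / 2 - lam k ^ 2 / 4 * h1
    · obtain ⟨a1, a2, a3, a4⟩ := w1
      have h2 := mul_le_mul_of_nonneg_left (hFJ N le_rfl) (mul_nonneg (sq_nonneg wt) hr0)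
      have h3 : cross (U (θ N)) (c (2 * N)) + cross (U (θ N)) (c (2 * N + 1)) = sin (π - θ N) := by
        rw [← cross_add_right, hcs, cross_sub_right, cross_same, cross_U_U, zπ, sub_zero]
      have h4 : cross (U 0) (c (2 * N)) + cross (U 0) (c (2 * N + 1)) = -sin (π - θ N) := by
        rw [← cross_add_right, hcs, cross_sub_right, cross_U_U, cross_U_U, zπ, sin_pi_sub]
        simp
      rw [half_sum_abs hcc R (by omega), half_sum_abs hcc R (by omega), sum_range_succ _ (2 * N),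
        hQ _ le_rfl, hQn, a1, a2, a3, a4, φ0]
      simp only [cross_smul_left, cross_sub_left, cross_add_left]
      linear_combination h2 / 2 - wt ^ 2 * r * (1 + r) / 8 * h3 + wt ^ 2 * r * (1 - r) / 8 * h4
  have fin : ∑ k ∈ range N, ((1 + lam k ^ 2) * sin (θ (k + 1) - θ k) / 4 +
      lam k ^ 2 * (sin ((θ (k + 1) - θ k) / 2) * (cos (t k) - cos ((θ (k + 1) - θ k) / 2))) -
      lam k ^ 2 / 2 * (J k + (1 - r) / 4 * cross (U 0 + U (θ N)) (U (θ (k + 1)) - U (θ k)))) =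
      ∑ k ∈ range N, (sin (θ (k + 1) - θ k) / 4 +
        lam k ^ 2 / 4 * cross (c (2 * k)) (c (2 * k + 1))) -
      ∑ k ∈ range N, lam k ^ 2 / 2 * (J k - sin ((θ (k + 1) - θ k) / 2) * cos (t k) +
        (1 - r) / 4 * cross (U 0 + U (θ N)) (U (θ (k + 1)) - U (θ k))) := by
    rw [← sum_sub_distrib]
    refine sum_congr rfl fun k _ => ?_
    rw [hτ]
    linear_combination lam k ^ 2 / 4 * sin_half (θ (k + 1) - θ k)
  rw [hF] at key'
  have hτN := hτ N
  rw [hSh, sum_range_succ _ N, fin, zπ, ← hrw] at *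
  rw [hτN] at key' ⊢
  linarith

end Pool.Agent.P.MP_4c4e6e_co
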