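import Pool.Agent.P.MP_4c4e6e_co.Defs

/-! Plane vector algebra used throughout. -/

namespace Pool.Agent.P.MP_4c4e6e_co

open Real

/-- unit vector of direction `t` -/
noncomputable def U (t : ℝ) : ℂ := ⟨cos t, sin t⟩

/-- determinant of two plane vectors -/
def cross (z w : ℂ) : ℝ := z.re * w.im - z.im * w.re

/-- scalar product of two plane vectors -/
def dot (z w : ℂ) : ℝ := z.re * w.re + z.im * w.im

@[simp] theorem U_re (t : ℝ) : (U t).re = cos t := rfl
@[simp] theorem U_im (t : ℝ) : (U t).im = sin t := rfl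

theorem normSq_eq (z : ℂ) : ‖z‖ ^ 2 = z.re ^ 2 + z.im ^ 2 := by
  rw [Complex.sq_norm, Complex.normSq_apply]; ring

theorem norm_U (t : ℝ) : ‖U t‖ = 1 := by
  have h : ‖U t‖ ^ 2 = 1 := by rw [normSq_eq]; simp
  nlinarith [norm_nonneg (U t)]

theorem dot_U_U (s t : ℝ) : dot (U s) (U t) = cos (s - t) := by
  simp [dot, cos_sub]

theorem cross_U_U (s t : ℝ) : cross (U s) (U t) = sin (t - s) := by
  simp [cross, sin_sub]; ring

theorem U_add_pi (t : ℝ) : U (t + π) = -U t := by
  apply Complex.ext <;> simp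

end Pool.Agent.P.MP_4c4e6e_co
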