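import Pool.Agent.P.MP_4c4e6e_co.NumTwo

/-! The numerical inequality of the first case. -/

namespace Pool.Agent.P.MP_4c4e6e_co

open Real

theorem small_sin0 {x : ℝ} (h0 : 0 ≤ x) (h1 : x ≤ 1 / 10) : ∃ s : ℝ, 16600 / 100000 ≤ s ∧
    s ≤ 16667 / 100000 ∧ sin x = x * (1 - x ^ 2 * s) := by
  obtain ⟨θ, a, b, e⟩ := sin_theta h0
  have h2 : x ^ 2 ≤ 1 / 100 := by nlinarith
  have h3 : 0 ≤ x ^ 2 := sq_nonneg x
  have h4 : x ^ 2 * θ ≤ 1 / 120 := by nlinarith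
  have h5 : 0 ≤ x ^ 2 * θ := mul_nonneg h3 a
  refine ⟨_, ?_, ?_, e⟩ <;> nlinarith

theorem small_cos0 {x : ℝ} (h0 : 0 ≤ x) (h1 : x ≤ 1 / 10) : ∃ c : ℝ, 499 / 1000 ≤ c ∧
    c ≤ 500 / 1000 ∧ cos x = 1 - x ^ 2 * c := by
  obtain ⟨θ, a, b, e⟩ := cos_theta h0
  have h2 : x ^ 2 ≤ 1 / 100 := by nlinarith
  have h3 : 0 ≤ x ^ 2 := sq_nonneg x
  have h4 : x ^ 2 * θ ≤ 1 / 24 := by nlinarith
  have h5 : 0 ≤ x ^ 2 * θ := mul_nonneg h3 a
  refine ⟨_, ?_, ?_, e⟩ <;> nlinarith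

theorem small_sin (r a : ℝ) (h0 : -(1 / 10) ≤ r * a) (h1 : r * a ≤ 1 / 10) :
    ∃ s sn : ℝ, 16600 / 100000 ≤ s ∧ s ≤ 16667 / 100000 ∧ sn = a * (1 - r ^ 2 * a ^ 2 * s) ∧
      sin (r * a) = r * sn := by
  rcases le_total 0 (r * a) with h | h
  · obtain ⟨s, a1, a2, e⟩ := small_sin0 h h1
    exact ⟨s, _, a1, a2, rfl, by rw [e]; ring⟩
  · obtain ⟨s, a1, a2, e⟩ := small_sin0 (neg_nonneg.2 h) (by linarith)
    refine ⟨s, _, a1, a2, rfl, ?_⟩
    rw [sin_neg] at e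
    linarith

theorem small_cos (r a : ℝ) (h0 : -(1 / 10) ≤ r * a) (h1 : r * a ≤ 1 / 10) :
    ∃ c cs : ℝ, 499 / 1000 ≤ c ∧ c ≤ 500 / 1000 ∧ cs = r * a ^ 2 * c ∧
      cos (r * a) = 1 - r * cs := by
  rcases le_total 0 (r * a) with h | h
  · obtain ⟨s, a1, a2, e⟩ := small_cos0 h h1
    exact ⟨s, _, a1, a2, rfl, by rw [e]; ring⟩
  · obtain ⟨s, a1, a2, e⟩ := small_cos0 (neg_nonneg.2 h) (by linarith)
    refine ⟨s, _, a1, a2, rfl, ?_⟩
    rw [cos_neg] at e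
    linarith

theorem apex_pos (r u v w h t lam : ℝ) (h0 : 0 < r) (h1 : r ≤ 3 / 100) (hu0 : 0 ≤ u) (hu1 : u ≤ 1)
    (hv0 : 0 ≤ v) (hv1 : v ≤ 1) (hw0 : -1 ≤ w) (hw1 : w ≤ 1)
    (hf : u = 1 ∨ v = 1 ∨ w = 1 ∨ w = -1) (hh : h = 1 / 6 * π - r * w) (ht : t = h - r * v)
    (hl : lam = 1 - r * u)
    (hA : 2 * lam * cos (h - t) - lam ≤ (1 + lam) * cos (2 * h)) :
    1 - sin h - lam * sin t < 7 / 25 ∧
    101 / 1200 * ((1 - sin h - lam * sin t) * (5 / 4 + 3 / 2 * (1 - sin h - lam * sin t)) *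
      (π - 2 * h)) ≤ (1 - lam ^ 2) * (π / 6 - √3 / 4 - (2 * h - sin (2 * h)) / 4 + 49 / 2000) +
      lam ^ 2 * (π / 6 - √3 / 4 - h + sin h * cos t) := by
  obtain ⟨a, c, H⟩ := Eng.apex_tail r u v w h0.le h1 hu0 hu1 hv0 hv1 hw0 hw1 hf
  have H := Eng.tail_real r a c u v w H π pi_lo pi_hi _ r3_lo r3_hi _ rfl lam hl _ rfl
  have bw0 : -(3 / 100) ≤ r * w := by nlinarith
  have bw1 : r * w ≤ 3 / 100 := by nlinarith
  have bv0 : 0 ≤ r * v := mul_nonneg h0.le hv0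
  have bv1 : r * v ≤ 3 / 100 := by nlinarith
  obtain ⟨s2, sn2, a1, a2, a3, es2⟩ := small_sin r (2 * w) (by linarith) (by linarith)
  obtain ⟨c2, cs2, b1, b2, b3, ec2⟩ := small_cos r (2 * w) (by linarith) (by linarith)
  obtain ⟨ct, cst, c1', c2', c3, ect⟩ := small_cos r v (by linarith) (by linarith)
  have e2h : cos (2 * h) = 1 / 2 * (1 - r * cs2) + √3 / 2 * (r * sn2) := by
    rw [show 2 * h = π / 3 - r * (2 * w) by rw [hh]; ring, cos_sub, cos_pi_div_three,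
      sin_pi_div_three, ec2, es2]
  have eht : h - t = r * v := by rw [ht]; ring
  rcases H s2 a1 a2 sn2 a3 c2 b1 b2 cs2 b3 ct c1' c2' cst c3 with H | H
  · exfalso
    rw [e2h, eht, ect] at hA
    have := mul_pos h0 H
    have e : r * -(1 / 2 * u + (1 + lam) * (1 / 2 * √3 * sn2 - 1 / 2 * cs2) + 2 * (lam * cst)) =
        2 * lam * (1 - r * cst) - lam -
          (1 + lam) * (1 / 2 * (1 - r * cs2) + √3 / 2 * (r * sn2)) := by
      have : r * u = 1 - lam := by rw [hl]; ring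
      linear_combination (-1 / 2) * this
    linarith
  obtain ⟨cy, csy, d1, d2, d3, ecy⟩ := small_cos r (2 * w + v) (by linarith) (by linarith)
  obtain ⟨sy, sny, f1, f2, f3, esy⟩ := small_sin r (2 * w + v) (by linarith) (by linarith)
  obtain ⟨st, snt, g1, g2, g3, est⟩ := small_sin r v (by linarith) (by linarith)
  obtain ⟨ce, cse, i1, i2, i3, ece⟩ := small_cos r w (by linarith) (by linarith)
  obtain ⟨se, sne, j1, j2, j3, ese⟩ := small_sin r w (by linarith) (by linarith)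
  obtain ⟨cx, csx, k1, k2, k3, ecx⟩ := small_cos r (w + v) (by linarith) (by linarith)
  obtain ⟨sx, snx, l1, l2, l3, esx⟩ := small_sin r (w + v) (by linarith) (by linarith)
  obtain ⟨D1, hD⟩ : ∃ D1, D1 = 1 / 4 * √3 * csy + 1 / 4 * sny - 1 / 2 * snt - w := ⟨_, rfl⟩
  obtain ⟨K, hK⟩ : ∃ K, K = 1 / 2 * (cse + csx) + 1 / 2 * √3 * (sne + snx) +
    u * sin (h - r * v) := ⟨_, rfl⟩
  obtain ⟨H1, H2⟩ := H _ rfl _ rfl h hh cy d1 d2 csy d3 sy f1 f2 sny f3 st g1 g2 snt g3 D1 hD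
    ce i1 i2 cse i3 se j1 j2 sne j3 cx k1 k2 csx k3 sx l1 l2 snx l3 K hK _ rfl
  have esh : sin h = 1 / 2 * (1 - r * cse) - √3 / 2 * (r * sne) := by
    rw [show h = π / 6 - r * w by rw [hh]; ring, sin_sub, cos_pi_div_six, sin_pi_div_six, ece, ese]
  have est' : sin t = 1 / 2 * (1 - r * csx) - √3 / 2 * (r * snx) := by
    rw [show t = π / 6 - r * (w + v) by rw [ht, hh]; ring, sin_sub, cos_pi_div_six,
      sin_pi_div_six, ecx, esx]
  have eK : 1 - sin h - lam * sin t = r * K := by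
    rw [hK, ← ht, hl]
    linear_combination (-1) * esh - est'
  have esc : sin h * cos t = (√3 / 2 * (1 - r * csy) - 1 / 2 * (r * sny) + r * snt) / 2 := by
    have e1 : sin (h + t) = √3 / 2 * (1 - r * csy) - 1 / 2 * (r * sny) := by
      rw [show h + t = π / 3 - r * (2 * w + v) by rw [ht, hh]; ring, sin_sub, cos_pi_div_three,
        sin_pi_div_three, ecy, esy]
    have e2 : sin (h - t) = r * snt := by rw [eht, est]
    rw [sin_add] at e1
    rw [sin_sub] at e2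
    linarith
  have eD : π / 6 - √3 / 4 - h + sin h * cos t = -(r * D1) := by
    rw [esc, hD, hh]; ring
  have eu : 1 - lam ^ 2 = r * (u * (1 + lam)) := by
    have : r * u = 1 - lam := by rw [hl]; ring
    linear_combination (-(1 + lam)) * this
  rw [eK, eD, eu]
  refine ⟨by linarith, ?_⟩
  have := mul_pos h0 H2
  linarith

theorem apex_all (h t lam : ℝ) (he0 : 0 < 3 / 100 - (1 / 6 * π - h))
    (he1 : 0 < 3 / 100 + (1 / 6 * π - h)) (ht0 : t ≤ h) (ht1 : 0 < 3 / 100 - (h - t))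
    (hl0 : 0 < lam - 97 / 100) (hl1 : lam ≤ 1)
    (hA : 2 * lam * cos (h - t) - lam ≤ (1 + lam) * cos (2 * h)) :
    1 - sin h - lam * sin t < 7 / 25 ∧
    101 / 1200 * ((1 - sin h - lam * sin t) * (5 / 4 + 3 / 2 * (1 - sin h - lam * sin t)) *
      (π - 2 * h)) ≤ (1 - lam ^ 2) * (π / 6 - √3 / 4 - (2 * h - sin (2 * h)) / 4 + 49 / 2000) +
      lam ^ 2 * (π / 6 - √3 / 4 - h + sin h * cos t) := by
  obtain ⟨e, he⟩ : ∃ e, e = 1 / 6 * π - h := ⟨_, rfl⟩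
  rw [← he] at he0 he1
  obtain ⟨r, hr⟩ : ∃ r, r = max (max (1 - lam) (h - t)) (max e (-e)) := ⟨_, rfl⟩
  have m1 : 1 - lam ≤ r := hr ▸ le_max_of_le_left (le_max_left _ _)
  have m2 : h - t ≤ r := hr ▸ le_max_of_le_left (le_max_right _ _)
  have m3 : e ≤ r := hr ▸ le_max_of_le_right (le_max_left _ _)
  have m4 : -e ≤ r := hr ▸ le_max_of_le_right (le_max_right _ _)
  have m5 : r = 1 - lam ∨ r = h - t ∨ r = e ∨ r = -e := by
    rw [hr]
    rcases max_choice (max (1 - lam) (h - t)) (max e (-e)) with q | q <;> rw [q]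
    · rcases max_choice (1 - lam) (h - t) with q | q <;> simp [q]
    · rcases max_choice e (-e) with q | q <;> simp [q]
  have r0 : 0 ≤ r := by linarith
  have r1 : r ≤ 3 / 100 := by rcases m5 with q | q | q | q <;> linarith
  rcases r0.eq_or_lt with q | q
  · have e1 : lam = 1 := by linarith
    have e2 : t = h := by linarith
    have e3 : h = π / 6 := by linarith
    rw [e1, e2, e3, sin_pi_div_six, cos_pi_div_six]
    constructor
    · norm_num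
    · apply le_of_eq; ring
  · have hq := q.ne'
    refine apex_pos r ((1 - lam) / r) ((h - t) / r) (e / r) h t lam q r1
      (div_nonneg (by linarith) r0) ((div_le_one q).2 m1) (div_nonneg (by linarith) r0)
      ((div_le_one q).2 m2) ?_ ((div_le_one q).2 m3) ?_ ?_ ?_ ?_ hA
    · rw [le_div_iff₀ q]; linarith
    · rcases m5 with z | z | z | z
      · left; rw [← z]; exact div_self hq
      · right; left; rw [← z]; exact div_self hq
      · right; right; left; rw [← z]; exact div_self hq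
      · right; right; right
        rw [div_eq_iff hq]; linarith
    · rw [mul_div_cancel₀ _ hq, he]; ring
    · rw [mul_div_cancel₀ _ hq]; ring
    · rw [mul_div_cancel₀ _ hq]; ring

theorem mh_lo {h : ℝ} (h1 : h ≤ π / 6) :
    mh (2 * h) = 1 / 3 * √3 * (1 - cos h) + sin h - h := by
  have h3 : √3 * √3 = 3 := Real.mul_self_sqrt (by norm_num)
  have h4 : (√3 : ℝ) ≠ 0 := by positivity
  rw [mh, min_eq_left (by linarith), show 2 * h / 2 = h by ring, sin_sub, sin_pi_div_six,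
    cos_pi_div_six]
  field_simp
  linear_combination (cos h - 1) * h3

theorem mh_hi {h : ℝ} (h1 : π / 6 ≤ h) : mh (2 * h) = 1 / 3 * √3 - 1 / 6 * π := by
  have h3 : √3 * √3 = 3 := Real.mul_self_sqrt (by norm_num)
  have h4 : (√3 : ℝ) ≠ 0 := by positivity
  rw [mh, min_eq_right (by linarith), show π / 6 - π / 3 / 2 = 0 by ring, sin_zero]
  field_simp
  linear_combination (-12) * h3

theorem cap_pick3 {L : ℝ} (h0 : 0 < L - 18 / 25) (h1 : L ≤ 1) :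
    0 ≤ (1 - L) * (11 / 4 - 3 / 2 * L) ∧ √((1 - L) * (11 / 4 - 3 / 2 * L)) ≤ L ∧
      (1 - L) * min (31 / 20) (5 / 4 + 3 / 2 * (1 - L)) ≤
        √((1 - L) * (11 / 4 - 3 / 2 * L)) ^ 2 := by
  have hS : 0 ≤ (1 - L) * (11 / 4 - 3 / 2 * L) := mul_nonneg (by linarith) (by linarith)
  refine ⟨hS, Real.sqrt_le_iff.2 ⟨by linarith, by nlinarith⟩, ?_⟩
  rw [Real.sq_sqrt hS]
  nlinarith [mul_le_mul_of_nonneg_left
    (min_le_right (31 / 20 : ℝ) (5 / 4 + 3 / 2 * (1 - L))) (sub_nonneg.2 h1)]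

theorem apex_cube {S T k k' : ℝ} (hS0 : 0 ≤ S) (hS1 : S ≤ 1) (hT0 : 0 ≤ T) (hT1 : T ≤ 3)
    (hk0 : 0 ≤ k) (hk : k ≤ k') (hS : S ^ 2 = k * (5 / 4 + 3 / 2 * k)) :
    (101 / 100 + 11 / 20 * S ^ 2) * (S ^ 2 * (T - 12 * S / 7)) / 12 ≤
      101 / 1200 * (k' * (5 / 4 + 3 / 2 * k') * T) := by
  have h1 : S ^ 2 ≤ k' * (5 / 4 + 3 / 2 * k') := by rw [hS]; nlinarith
  have h2 : S ^ 2 * T ≤ k' * (5 / 4 + 3 / 2 * k') * T := mul_le_mul_of_nonneg_right h1 hT0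
  have h3 : S * T ≤ 3 := by nlinarith
  have h4 : (101 / 100 + 11 / 20 * S ^ 2) * (T - 12 * S / 7) ≤ 101 / 100 * T := by
    have := mul_le_mul_of_nonneg_left h3 hS0
    have h5 : 0 ≤ S ^ 3 := by positivity
    nlinarith
  have h6 := mul_le_mul_of_nonneg_left h4 (sq_nonneg S)
  nlinarith

theorem num_one (h lam t al be L : ℝ) (h0 : 3 / 25 ≤ h) (h1 : h ≤ 113 / 200) (hl0 : 0 ≤ lam)
    (hl1 : lam ≤ 1) (ht0 : 0 ≤ t) (ht1 : t ≤ h) (hal : al = lam * (cos t - cos h))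
    (hbe : be = lam * sin t)
    (hA : 2 * sin h * be + 2 * cos h * al ≤ cos h ^ 2 - sin h ^ 2)
    (hL : L = √(al ^ 2 + (sin h + be) ^ 2)) (hL1 : L ≤ 1) :
    ∃ S cf, 0 ≤ S ∧ S ≤ L ∧
      (S = L ∨ (69 / 100 ≤ L ∧ (1 - L) * min (31 / 20) (5 / 4 + 3 / 2 * (1 - L)) ≤ S ^ 2)) ∧
      (146 / 125 ≤ cf ∨ 101 / 100 + 11 / 20 * S ^ 2 ≤ cf) ∧
      loss (2 * h) lam t (mh (2 * h)) + cf * (S ^ 2 * (π - 2 * h - 12 * S / 7)) / 12 ≤
        π / 6 - √3 / 4 := by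
  have hp := pi_lo
  have hp' := pi_hi
  have hr := r3_lo
  obtain ⟨m, hm⟩ : ∃ m, m = mh (2 * h) := ⟨_, rfl⟩
  rw [← hm]
  obtain ⟨G, hG⟩ : ∃ G, G = 12 * (1 / 6 * π - 1 / 4 * √3 -
    1 / 2 * ((1 + lam ^ 2) * (h - sin h * cos h)) + lam * sin h * al +
    1 / 2 * ((1 - lam ^ 2) * m)) := ⟨_, rfl⟩
  have eG : loss (2 * h) lam t m = π / 6 - √3 / 4 - G / 12 := by
    rw [loss, hG, hal, sin_two_mul, show 2 * h / 2 = h by ring]; ring
  rw [eG]
  have hL0 : 0 ≤ L := hL ▸ sqrt_nonneg _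
  have hL2 : L ^ 2 = al ^ 2 + (sin h + be) ^ 2 := by rw [hL, Real.sq_sqrt (by positivity)]
  have main : (0 < 3 / 100 - (1 / 6 * π - h) ∧ 0 < 3 / 100 + (1 / 6 * π - h) ∧
      0 < 3 / 100 - (h - t) ∧ 0 < lam - 97 / 100) ∨
      (0 < G - 146 / 125 * ((al ^ 2 + (sin h + be) ^ 2) * (π - 2 * h - 12 / 7 * L))) ∨
      (0 < L - 7 / 10 ∧ ∀ S2 : ℝ, S2 = 31 / 20 * (1 - L) →
        (0 < G - 146 / 125 * (S2 * (π - 2 * h - 12 / 7 * √S2))) ∨
        ∀ S3 : ℝ, S3 = (1 - L) * (11 / 4 - 3 / 2 * L) → 0 < L - 18 / 25 ∧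
          0 < G - (101 / 100 + 11 / 20 * S3) * S3 * (π - 2 * h - 12 / 7 * √S3)) := by
    rcases le_total h (π / 6) with hh | hh
    · rcases Eng.oneP_real h lam (h - t) h0 (by linarith) hl0 hl1 (by linarith) (by linarith)
        π pi_lo pi_hi _ r3_lo r3_hi _ rfl with H | H | H
      · exact Or.inl H
      · linarith
      rcases H _ rfl _ rfl _ rfl t (by ring) al hal be hbe with H | H
      · linarith
      exact Or.inr (H m (hm.trans (mh_lo hh)) _ rfl G hG _ rfl L hL)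
    · rcases Eng.oneM_real h lam (h - t) (by linarith) h1 hl0 hl1 (by linarith) (by linarith)
        π pi_lo pi_hi _ r3_lo r3_hi _ rfl with H | H | H
      · exact Or.inl H
      · linarith
      rcases H _ rfl _ rfl _ rfl t (by ring) al hal be hbe with H | H
      · linarith
      exact Or.inr (H m (hm.trans (mh_hi hh)) _ rfl G hG _ rfl L hL)
  rcases main with ⟨a1, a2, a3, a4⟩ | H | ⟨H0, H⟩
  · have hA' : 2 * lam * cos (h - t) - lam ≤ (1 + lam) * cos (2 * h) := by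
      have e : 2 * sin h * be + 2 * cos h * al = 2 * (lam * (cos (h - t) - cos h ^ 2)) := by
        rw [hal, hbe, cos_sub]; ring
      have e2 := sin_sq_add_cos_sq h
      rw [cos_two_mul]
      linarith
    obtain ⟨b1, b2⟩ := apex_all h t lam a1 a2 ht1 a3 a4 hl1 hA'
    have hm1 : 49 / 1000 ≤ m := by
      rcases le_total h (π / 6) with hh | hh
      · have := Eng.mlow_real h (by linarith) (by linarith) _ r3_lo r3_hi
        rw [hm, mh_lo hh]; linarith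
      · rw [hm, mh_hi hh]; linarith
    have hLk : sin h + be ≤ L := by
      rw [hL]
      exact Real.le_sqrt_of_sq_le (by linarith [sq_nonneg al])
    rw [← hbe] at b1 b2
    obtain ⟨hS, k1, k2⟩ := cap_pick3 (L := L) (by linarith) hL1
    have k3 := apex_cube (T := π - 2 * h) (k := 1 - L) (k' := 1 - sin h - be) (sqrt_nonneg _)
      (k1.trans hL1) (by linarith) (by linarith) (by linarith) (by linarith)
      (by rw [Real.sq_sqrt hS]; ring)
    refine ⟨_, _, sqrt_nonneg _, k1, Or.inr ⟨by linarith, k2⟩, Or.inr le_rfl, ?_⟩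
    have k4 : 0 ≤ (1 - lam ^ 2) * (m - 49 / 1000) :=
      mul_nonneg (by nlinarith) (by linarith)
    have k5 : G / 12 = (1 - lam ^ 2) * (π / 6 - √3 / 4 - (2 * h - sin (2 * h)) / 4 + 49 / 2000) +
        lam ^ 2 * (π / 6 - √3 / 4 - h + sin h * cos t) + (1 - lam ^ 2) * (m - 49 / 1000) / 2 := by
      rw [hG, hal, sin_two_mul]; ring
    linarith
  · refine ⟨L, 146 / 125, hL0, le_rfl, Or.inl rfl, Or.inl le_rfl, ?_⟩
    rw [hL2]
    linarith
  · rcases H _ rfl with H | H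
    · obtain ⟨hS, k1, k2⟩ := cap_pick H0 hL1
      refine ⟨_, 146 / 125, sqrt_nonneg _, k1, Or.inr ⟨by linarith, k2⟩, Or.inl le_rfl, ?_⟩
      rw [Real.sq_sqrt hS]
      linarith
    · obtain ⟨H1, H2⟩ := H _ rfl
      obtain ⟨hS, k1, k2⟩ := cap_pick3 H1 hL1
      refine ⟨_, _, sqrt_nonneg _, k1, Or.inr ⟨by linarith, k2⟩, Or.inr le_rfl, ?_⟩
      rw [Real.sq_sqrt hS]
      linarith

end Pool.Agent.P.MP_4c4e6e_co
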