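import Pool.Agent.P.MP_4c4e6e_co.CapA
import Pool.Agent.P.MP_4c4e6e_co.Num

/-! When the chord `L` is long all other gaps have short chords. -/

namespace Pool.Agent.P.MP_4c4e6e_co

open Real Finset

namespace Cfg

variable (C : Cfg)

theorem pq_le (hL : 69 / 100 ≤ C.L) {θ : ℝ} (hθ : θ ∈ C.I) :
    C.dX 0 θ * C.dY θ C.T ≤ (1 - C.L) * (231 / 200 - 17 / 100 * (1 - C.L)) := by
  exact C.pq hL hθ

theorem view (hL : 69 / 100 ≤ C.L) {p q : ℝ} (hp : p ∈ C.I) (hq : q ∈ C.I) (hpq : p ≤ q)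
    (hs : 1 - C.L ^ 2 ≤ 2 * C.dX p q ^ 2) :
    C.dX 0 p ^ 2 + C.dX p q ^ 2 * (1 - (1 - C.L ^ 2 + C.dX 0 p ^ 2) / 2 / C.L) +
      2 * C.dX p q * √(C.dX 0 p ^ 2 - ((1 - C.L ^ 2 + C.dX 0 p ^ 2) / 2) ^ 2) *
        √(1 - C.dX p q ^ 2 / (4 * C.L ^ 2)) ≤ C.dX 0 q ^ 2 := by
  exact C.view' hL hp hq hpq hs

theorem capX (hL : 69 / 100 ≤ C.L) {p q : ℝ} (hp : p ∈ C.I) (hq : q ∈ C.I) (hg : C.IsGap p q) :
    C.dX p q ^ 2 ≤ (1 - C.L) * min (31 / 20) (5 / 4 + 3 / 2 * (1 - C.L)) := by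
  by_contra hs
  replace hs := not_le.1 hs
  have z0 := C.zero_mem_I
  have L1 := C.cap_L_le_one
  have hpq := hg.2.2.1
  have c1 : (1 - C.L) * (5 / 4) ≤ (1 - C.L) * min (31 / 20) (5 / 4 + 3 / 2 * (1 - C.L)) :=
    mul_le_mul_of_nonneg_left (le_min (by norm_num) (by linarith)) (by linarith)
  have z1 := CapAux.zz_ge hL L1
  have z2 := CapAux.zz_le C.L
  have s0 := C.dX_nonneg p q
  have R0 := C.dX_nonneg 0 p
  have s1 : C.dX p q ≤ C.dX 0 q := C.dX_mono z0 hp hq hq hp.2.1 hpq.le le_rfl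
  have R1 : C.dX 0 p ≤ 1 := C.dist_le _ C.zero_mem _ hp.1
  have R2 : C.dX 0 q ≤ 1 := C.dist_le _ C.zero_mem _ hq.1
  have key : ∀ a, 0 < a → a < C.L → a ≤ C.dX 0 p ∨ C.dX 0 q * a ≤ zz C.L ∨
      (C.dX p q ≤ a ∧ (C.dX 0 q - a) * a ≤ zz C.L) := by
    intro a a0 a1
    obtain ⟨α, hα, ψ, hψ, h1, h2, h3⟩ := C.lemE a0 a1
    have h4 : C.dX 0 α * a ≤ zz C.L :=
      (mul_le_mul_of_nonneg_left h3 (C.dX_nonneg _ _)).trans (C.pq hL hα)
    rcases le_or_gt ψ p with h5 | h5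
    · exact .inl (h2 ▸ C.dX_mono z0 hα hψ hp hα.2.1 h1.le h5)
    rcases le_or_gt q α with h6 | h6
    · exact .inr (.inl ((mul_le_mul_of_nonneg_right
        (C.dX_mono z0 z0 hq hα le_rfl hq.2.1 h6) a0.le).trans h4))
    have h7 : α ≤ p := not_lt.1 fun h => hg.2.2.2 α hα.1 ⟨h, h6⟩
    have h8 : q ≤ ψ := not_lt.1 fun h => hg.2.2.2 ψ hψ.1 ⟨h5, h⟩
    refine .inr (.inr ⟨h2 ▸ C.dX_mono hα hp hq hψ h7 hpq.le h8, le_trans ?_ h4⟩)
    have := C.dX_mono z0 z0 hq hψ le_rfl hq.2.1 h8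
    exact mul_le_mul_of_nonneg_right (by linarith [C.dX_tri 0 α ψ]) a0.le
  have hv := C.view hL hp hq hpq.le (by nlinarith)
  have hn := num_cap (1 - C.L) (C.dX 0 p) (C.dX p q) C.L ((1 - C.L ^ 2 + C.dX 0 p ^ 2) / 2)
    (zz C.L) (by linarith) (by linarith)
    (lt_of_le_of_ne s0 fun h => by rw [← h] at hs; linarith) (s1.trans R2) (by ring)
  generalize C.dX p q = s at *
  generalize C.dX 0 p = R at *
  generalize C.dX 0 q = R' at *
  have zs : zz C.L < s ^ 2 := by linarith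
  have zL : zz C.L < C.L ^ 2 := by nlinarith
  have s0' : 0 < s := lt_of_le_of_ne s0 fun h => by rw [← h] at zs; linarith
  have m0 : 0 < min s C.L := lt_min s0' (by linarith)
  have hm : min s C.L ≤ R := by
    by_contra h
    have zm : zz C.L / min s C.L < min s C.L := by
      rw [div_lt_iff₀ m0, ← sq]
      rcases min_choice s C.L with e | e <;> rwa [e]
    obtain ⟨a, a1, a2⟩ := exists_between (max_lt (not_le.1 h) zm)
    rw [max_lt_iff, div_lt_iff₀ m0] at a1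
    have a0 : 0 < a := R0.trans_lt a1.1
    rcases key a a0 (a2.trans_le (min_le_right _ _)) with k | k | k
    · linarith [a1.1]
    · linarith [a1.2, mul_le_mul_of_nonneg_right ((min_le_left s C.L).trans s1) a0.le]
    · linarith [k.1, min_le_left s C.L]
  have R0' : 0 < R := m0.trans_le hm
  have hR : R' ≤ R + zz C.L / R := by
    rcases le_or_gt C.L R with h | h
    · have : zz C.L ≤ zz C.L / R := le_div_self (by linarith) R0' R1
      linarith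
    have sR : s ≤ R := by
      rcases min_choice s C.L with e | e <;> rw [e] at hm <;> linarith
    rw [← sub_le_iff_le_add', le_div_iff₀ R0']
    have lim : Filter.Tendsto (fun a => (R' - a) * a) (nhdsWithin R (Set.Ioi R))
        (nhds ((R' - R) * R)) :=
      (Continuous.tendsto (f := fun a => (R' - a) * a) (by fun_prop) R).mono_left
        nhdsWithin_le_nhds
    refine le_of_tendsto lim ?_
    filter_upwards [Ioo_mem_nhdsGT h] with a ha
    rcases key a (R0'.trans ha.1) ha.2 with k | k | k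
    · linarith [ha.1]
    · nlinarith [mul_le_mul s1 (sR.trans ha.1.le) s0 (s0.trans s1)]
    · exact k.2
  have R3 : 0 ≤ R' := s0.trans s1
  exact absurd ((hn hm R1 rfl rfl hs).trans_le hv)
    (not_lt.2 (le_min (pow_le_one₀ R3 R2) (pow_le_pow_left₀ R3 hR 2)))

theorem capY (hL : 69 / 100 ≤ C.L) {p q : ℝ} (hp : p ∈ C.I) (hq : q ∈ C.I) (hg : C.IsGap p q) :
    C.dY p q ^ 2 ≤ (1 - C.L) * min (31 / 20) (5 / 4 + 3 / 2 * (1 - C.L)) := by
  obtain ⟨C', -, hΘ, hI, hd, hL', -⟩ := C.mirror_dist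
  have mp : C.T - p ∈ C'.I := (hI _).2 (by rwa [sub_sub_cancel])
  have mq : C.T - q ∈ C'.I := (hI _).2 (by rwa [sub_sub_cancel])
  have := C'.capX (hL' ▸ hL) mq mp ⟨mq.1, mp.1, by linarith [hg.2.2.1], fun t ht h =>
    hg.2.2.2 _ ((hΘ t).1 ht) ⟨by linarith [h.2], by linarith [h.1]⟩⟩
  rwa [(hd _ hq.1 _ hp.1).1, hL', comb_dY_comm] at this

end Cfg

end Pool.Agent.P.MP_4c4e6e_co
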