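import Pool.Agent.P.MP_4c4e6e_co.KillA

/-! Chords over gaps are short when the chord `L` is long: the geometric part. -/

namespace Pool.Agent.P.MP_4c4e6e_co

open Real Finset KillAux

/-- bound for the product of the two outer chords -/
noncomputable def zz (L : ℝ) : ℝ := (1 - L) * (231 / 200 - 17 / 100 * (1 - L))

namespace CapAux

theorem zz_ge {L : ℝ} (h0 : 69 / 100 ≤ L) (h1 : L ≤ 1) : 1 - L ≤ zz L := by
  unfold zz; nlinarith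

theorem zz_le (L : ℝ) : zz L ≤ 231 / 200 * (1 - L) := by
  unfold zz; nlinarith [sq_nonneg (1 - L)]

theorem zz_poly {L : ℝ} (h0 : 69 / 100 ≤ L) (h1 : L ≤ 1) :
    (1 - L ^ 2) ^ 2 ≤ zz L ^ 2 * (2 + L ^ 2 - zz L ^ 2) := by
  obtain ⟨k, rfl⟩ : ∃ k, L = 1 - k := ⟨1 - L, by ring⟩
  have k0 : 0 ≤ k := by linarith
  have k1 : k ≤ 31 / 100 := by linarith
  have h : (2 - k) ^ 2 ≤ (231 / 200 - 17 / 100 * k) ^ 2 *
      (2 + (1 - k) ^ 2 - (k * (231 / 200 - 17 / 100 * k)) ^ 2) := by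
    have a1 := mul_nonneg k0 (sq_nonneg (k - 12 / 25))
    have a2 := mul_nonneg (pow_nonneg k0 3) (sub_nonneg.2 k1)
    have a3 := mul_nonneg (pow_nonneg k0 4) (sub_nonneg.2 k1)
    have a4 := mul_nonneg (pow_nonneg k0 5) (sub_nonneg.2 k1)
    nlinarith [pow_nonneg k0 2, pow_nonneg k0 3, pow_nonneg k0 4, pow_nonneg k0 5]
  have := mul_le_mul_of_nonneg_left h (sq_nonneg k)
  simp only [zz, sub_sub_cancel]
  nlinarith

theorem pq_deg {p q v1 v2 w1 w2 L : ℝ} (p0 : 0 ≤ p) (q0 : 0 ≤ q) (p1 : p ≤ 1)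
    (q1 : q ≤ 1) (hp : p ^ 2 = v1 ^ 2 + v2 ^ 2) (hv2 : 0 ≤ v2)
    (hw2 : 0 ≤ w2) (hv1 : p ^ 2 / 2 ≤ v1) (hw1 : q ^ 2 / 2 ≤ w1) (t1 : w2 * v1 ≤ (1 - w1) * v2)
    (t2 : v2 * w1 ≤ (1 - v1) * w2) (n1 : L ^ 2 ≤ (1 - v1) ^ 2 + v2 ^ 2)
    (h1 : L ≤ 1) (hd : v2 * w2 = 0) : p * q ≤ 1 - L := by
  rcases p0.eq_or_lt with rfl | p0
  · linarith
  rcases q0.eq_or_lt with rfl | q0
  · linarith
  have v0 : 0 < v1 := lt_of_lt_of_le (by positivity) hv1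
  have w0 : 0 < w1 := lt_of_lt_of_le (by positivity) hw1
  have e : v2 = 0 ∧ w2 = 0 := by
    rcases mul_eq_zero.1 hd with h | h
    · refine ⟨h, le_antisymm ?_ hw2⟩
      rw [h, mul_zero] at t1
      exact nonpos_of_mul_nonpos_left t1 v0
    · refine ⟨le_antisymm ?_ hv2, h⟩
      rw [h, mul_zero] at t2
      exact nonpos_of_mul_nonpos_left t2 w0
  obtain ⟨rfl, rfl⟩ := e
  have e1 : p = v1 := (pow_left_inj₀ p0.le v0.le two_ne_zero).1 (by linarith)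
  subst e1
  have f1 : L ≤ 1 - p := le_of_sq_le_sq (by linarith) (by linarith)
  linarith [mul_le_of_le_one_right p0.le q1]

theorem pq_phi {p q v1 v2 w1 w2 L a b : ℝ} (hp : p ^ 2 = v1 ^ 2 + v2 ^ 2)
    (hq : q ^ 2 = w1 ^ 2 + w2 ^ 2) (hv2 : 0 ≤ v2) (hw2 : 0 ≤ w2) (hv1 : p ^ 2 / 2 ≤ v1)
    (hw1 : q ^ 2 / 2 ≤ w1) (hL : L ^ 2 = (1 - v1 - w1) ^ 2 + (w2 - v2) ^ 2)
    (t1 : w2 * v1 ≤ (1 - w1) * v2) (t2 : v2 * w1 ≤ (1 - v1) * w2) (hpos : 0 < v2 * w2)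
    (ha : a ^ 2 = 1 - p ^ 2 / 4) (hb : b ^ 2 = 1 - q ^ 2 / 4) :
    2 * (p * q) * (a * b - p * q / 4) ≤ 1 - L ^ 2 := by
  obtain ⟨m, hm⟩ : ∃ m, m = v1 - p ^ 2 / 2 := ⟨_, rfl⟩
  obtain ⟨n, hn⟩ : ∃ n, n = w1 - q ^ 2 / 2 := ⟨_, rfl⟩
  obtain ⟨m', hm'⟩ : ∃ m', m' = p * a - v2 := ⟨_, rfl⟩
  obtain ⟨n', hn'⟩ : ∃ n', n' = q * b - w2 := ⟨_, rfl⟩
  have m0 : 0 ≤ m := by linarith
  have n0 : 0 ≤ n := by linarith
  have em : m * v1 - m' * v2 = (m ^ 2 + m' ^ 2) / 2 := by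
    rw [hm, hm']; linear_combination (-1 / 2 : ℝ) * hp - p ^ 2 / 2 * ha
  have en : n * w1 - n' * w2 = (n ^ 2 + n' ^ 2) / 2 := by
    rw [hn, hn']; linear_combination (-1 / 2 : ℝ) * hq - q ^ 2 / 2 * hb
  have k1 : w2 * (m' ^ 2 / 2) ≤ v2 * (m * (1 - w1) - m' * w2) := by
    linear_combination mul_le_mul_of_nonneg_left t1 m0 + mul_nonneg hw2 (sq_nonneg m) / 2 -
      w2 * em
  have k2 : v2 * (n' ^ 2 / 2) ≤ w2 * (n * (1 - v1) - n' * v2) := by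
    linear_combination mul_le_mul_of_nonneg_left t2 n0 + mul_nonneg hv2 (sq_nonneg n) / 2 -
      v2 * en
  have k3 : 0 ≤ (m * (1 - w1) - m' * w2) + (n * (1 - v1) - n' * v2) - m' * n' := by
    refine nonneg_of_mul_nonneg_right ?_ hpos
    linear_combination mul_le_mul_of_nonneg_left k1 hw2 + mul_le_mul_of_nonneg_left k2 hv2 +
      sq_nonneg (w2 * m' - v2 * n') / 2
  have : 1 - L ^ 2 - 2 * (p * q) * (a * b - p * q / 4) = 2 * ((m * (1 - w1) - m' * w2) +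
      (n * (1 - v1) - n' * v2) - m' * n') + 2 * (m * n) := by
    rw [hL, hm, hn, hm', hn']; linear_combination hp + hq
  linarith [mul_nonneg m0 n0]

theorem pq_fin {p q L a b : ℝ} (h0 : 69 / 100 ≤ L) (h1 : L ≤ 1) (p0 : 0 ≤ p) (q0 : 0 ≤ q)
    (p1 : p ≤ 1) (q1 : q ≤ 1) (a0 : 0 ≤ a) (b0 : 0 ≤ b) (ha : a ^ 2 = 1 - p ^ 2 / 4)
    (hb : b ^ 2 = 1 - q ^ 2 / 4) (k4 : 2 * (p * q) * (a * b - p * q / 4) ≤ 1 - L ^ 2) :
    p * q ≤ zz L := by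
  have pp : p ^ 2 ≤ 1 := pow_le_one₀ p0 p1
  have qq : q ^ 2 ≤ 1 := pow_le_one₀ q0 q1
  have u0 : 0 ≤ p * q := mul_nonneg p0 q0
  have u1 : p * q ≤ 1 := mul_le_one₀ p1 q0 q1
  have a1 : 1 / 2 ≤ a := le_of_sq_le_sq (by linarith) a0
  have b1 : 1 / 2 ≤ b := le_of_sq_le_sq (by linarith) b0
  have k5 : 0 ≤ a * b - p * q / 4 := by
    linarith [mul_le_mul a1 b1 (by norm_num) a0]
  have k6 : 2 + L ^ 2 - (p * q) ^ 2 ≤ 4 * (a * b - p * q / 4) ^ 2 := by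
    linear_combination k4 + mul_nonneg (sub_nonneg.2 pp) (sub_nonneg.2 qq) - 4 * b ^ 2 * ha -
      (4 - p ^ 2) * hb
  have k7 : (p * q) ^ 2 * (2 + L ^ 2 - (p * q) ^ 2) ≤ (1 - L ^ 2) ^ 2 := by
    linear_combination pow_le_pow_left₀ (by positivity) k4 2 +
      mul_le_mul_of_nonneg_left k6 (sq_nonneg (p * q))
  by_contra hc
  replace hc := not_le.1 hc
  have z0 : 0 ≤ zz L := by linarith [zz_ge h0 h1]
  have z3 := zz_poly h0 h1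
  have z4 : zz L ^ 2 < (p * q) ^ 2 := pow_lt_pow_left₀ hc z0 two_ne_zero
  have z5 : (p * q) ^ 2 ≤ 1 := pow_le_one₀ u0 u1
  have : 0 < ((p * q) ^ 2 - zz L ^ 2) * (2 + L ^ 2 - (p * q) ^ 2 - zz L ^ 2) :=
    mul_pos (by linarith) (by linarith [sq_nonneg L])
  linarith

theorem pq_alg {p q v1 v2 w1 w2 L : ℝ} (h0 : 69 / 100 ≤ L) (p0 : 0 ≤ p) (q0 : 0 ≤ q) (p1 : p ≤ 1)
    (q1 : q ≤ 1) (hp : p ^ 2 = v1 ^ 2 + v2 ^ 2) (hq : q ^ 2 = w1 ^ 2 + w2 ^ 2) (hv2 : 0 ≤ v2)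
    (hw2 : 0 ≤ w2) (hv1 : p ^ 2 / 2 ≤ v1) (hw1 : q ^ 2 / 2 ≤ w1)
    (hL : L ^ 2 = (1 - v1 - w1) ^ 2 + (w2 - v2) ^ 2) (t1 : w2 * v1 ≤ (1 - w1) * v2)
    (t2 : v2 * w1 ≤ (1 - v1) * w2) (n1 : L ^ 2 ≤ (1 - v1) ^ 2 + v2 ^ 2)
    (h1 : L ≤ 1) : p * q ≤ zz L := by
  by_cases hd : v2 * w2 = 0
  · exact (pq_deg p0 q0 p1 q1 hp hv2 hw2 hv1 hw1 t1 t2 n1 h1 hd).trans (zz_ge h0 h1)
  have ha := sq_sqrt (x := 1 - p ^ 2 / 4) (by linarith [pow_le_one₀ (n := 2) p0 p1])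
  have hb := sq_sqrt (x := 1 - q ^ 2 / 4) (by linarith [pow_le_one₀ (n := 2) q0 q1])
  exact pq_fin h0 h1 p0 q0 p1 q1 (sqrt_nonneg _) (sqrt_nonneg _) ha hb
    (pq_phi hp hq hv2 hw2 hv1 hw1 hL t1 t2 (lt_of_le_of_ne (mul_nonneg hv2 hw2) (Ne.symm hd)) ha hb)

theorem dot_U_sub (t : ℝ) (a : ℂ) : dot (U t - a) (U t) = 1 - dot a (U t) := by
  simp only [dot, Complex.sub_re, Complex.sub_im, U_re, U_im]
  linear_combination sin_sq_add_cos_sq t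

theorem cross_U_sub (t : ℝ) (a : ℂ) : cross (U t) (U t - a) = -cross (U t) a := by
  simp only [cross, Complex.sub_re, Complex.sub_im]; ring

theorem dot_add (a b c : ℂ) : dot (a + b) c = dot a c + dot b c := by
  simp only [dot, Complex.add_re, Complex.add_im]; ring

theorem cross_add (a b c : ℂ) : cross c (a + b) = cross c a + cross c b := by
  simp only [cross, Complex.add_re, Complex.add_im]; ring

theorem dot_neg (a c : ℂ) : dot (-a) c = -dot a c := by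
  simp only [dot, Complex.neg_re, Complex.neg_im]; ring

theorem dot_neg' (a c : ℂ) : dot a (-c) = -dot a c := by
  simp only [dot, Complex.neg_re, Complex.neg_im]; ring

theorem cross_frame (t : ℝ) (a b : ℂ) :
    cross a b = dot a (U t) * cross (U t) b - cross (U t) a * dot b (U t) := by
  simp only [dot, cross, U_re, U_im]
  linear_combination -(a.re * b.im - a.im * b.re) * sin_sq_add_cos_sq t

theorem view_alg {R s L W u1 u2 w1 w2 : ℝ} (hs : 0 ≤ s) (hL : 0 < L) (hu : u1 ^ 2 + u2 ^ 2 = R ^ 2)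
    (hw : w1 ^ 2 + w2 ^ 2 = s ^ 2) (u0 : 0 ≤ u1) (uW : u1 ≤ W) (u2' : 0 ≤ u2) (w2' : 0 ≤ w2)
    (h1 : |w1| ≤ s ^ 2 / (2 * L)) :
    -(s ^ 2 * (W / L)) + 2 * s * √(R ^ 2 - W ^ 2) * √(1 - s ^ 2 / (4 * L ^ 2)) ≤
      2 * (u1 * w1 + u2 * w2) := by
  have a1 : √(R ^ 2 - W ^ 2) ≤ u2 := sqrt_le_iff.2 ⟨u2', by nlinarith⟩
  have a2 : s * √(1 - s ^ 2 / (4 * L ^ 2)) ≤ w2 := by
    rw [← sqrt_sq hs, ← sqrt_mul (sq_nonneg s), sqrt_sq hs]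
    refine sqrt_le_iff.2 ⟨w2', ?_⟩
    have := pow_le_pow_left₀ (abs_nonneg _) h1 2
    rw [sq_abs] at this
    have e : s ^ 2 * (1 - s ^ 2 / (4 * L ^ 2)) = s ^ 2 - (s ^ 2 / (2 * L)) ^ 2 := by
      field_simp; ring
    linarith
  have a3 := mul_le_mul a1 a2 (by positivity) u2'
  have a4 : -(W * (s ^ 2 / (2 * L))) ≤ u1 * w1 := by
    have := mul_le_mul uW h1 (abs_nonneg _) (u0.trans uW)
    nlinarith [mul_le_mul_of_nonneg_left (neg_abs_le w1) u0]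
  have e : s ^ 2 * (W / L) = 2 * (W * (s ^ 2 / (2 * L))) := by field_simp
  linarith

end CapAux

open CapAux

namespace Cfg

variable (C : Cfg)

theorem cap_L_le_one : C.L ≤ 1 := C.dist_le _ C.zero_mem _ (C.add_pi _ C.T_mem)

theorem pq (hL : 69 / 100 ≤ C.L) {t : ℝ} (ht : t ∈ C.I) : C.dX 0 t * C.dY t C.T ≤ zz C.L := by
  have hT := C.T_lt
  have t0 := ht.2.1
  have tT := ht.2.2
  have f1 := C.side₂ C.zero_mem ht.1 t0 (by linarith)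
  have f2 := C.side₁ (C.add_pi _ ht.1) (C.add_pi _ C.T_mem) (by linarith) (by linarith)
  have f3 := C.ext_le ht.1 C.zero_mem
  have f4 := C.ext_le (C.add_pi _ ht.1) (C.add_pi _ C.T_mem)
  have f5 := C.triple (C.sub_pi _ C.T_mem) C.zero_mem ht.1 (by linarith) t0 (by linarith)
  have f6 := C.triple (C.sub_pi _ ht.1) (C.sub_pi _ C.T_mem) C.zero_mem (by linarith) (by linarith)
    (by linarith)
  have f7 : C.L ≤ C.dC 0 t := C.dC_mono_L C.zero_mem_I C.zero_mem_I ht C.T_mem_I le_rfl t0 tT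
  have f9 : C.dX 0 t ≤ 1 := C.dist_le _ C.zero_mem _ ht.1
  have f10 : C.dY t C.T ≤ 1 := C.dist_le _ (C.add_pi _ ht.1) _ (C.add_pi _ C.T_mem)
  have L0 : 0 ≤ C.L := by linarith
  replace f7 := pow_le_pow_left₀ L0 f7 2
  rw [C.per' C.T_mem] at f5 f6
  rw [C.per' ht.1] at f6
  rw [GeoAux.cross_U_add_pi] at f2
  rw [U_add_pi, dot_neg'] at f4
  have eL : C.L ^ 2 = ‖C.γ 0 - C.γ (C.T + π)‖ ^ 2 := rfl
  rw [comb_dX_comm, comb_dY_comm] at *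
  simp only [Dia.dC, Dia.dX, Dia.dY] at f7 f9 f10 ⊢
  have hU := C.anti _ ht.1
  obtain ⟨V, hV⟩ : ∃ V, V = C.γ t - C.γ 0 := ⟨_, rfl⟩
  obtain ⟨W, hW⟩ : ∃ W, W = C.γ (C.T + π) - C.γ (t + π) := ⟨_, rfl⟩
  have e1 : C.γ 0 - C.γ (C.T + π) = U t - (V + W) := by linear_combination hV + hW - hU
  have e2 : C.γ 0 - C.γ (t + π) = U t - V := by linear_combination hV - hU
  have e4 : C.γ 0 - C.γ t = -V := by linear_combination hV
  rw [e1] at f5 f6 eL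
  rw [e2] at f7
  rw [e4, dot_neg, norm_neg] at f3
  rw [← hV] at f1 f5 f9 ⊢
  rw [← hW] at f2 f4 f6 f10 ⊢
  rw [GeoAux.sq_frame _ t, dot_U_sub, cross_U_sub] at eL f7
  rw [cross_frame t, dot_U_sub, cross_U_sub] at f5 f6
  rw [dot_add, cross_add] at eL f5 f6
  refine pq_alg (v1 := dot V (U t)) (v2 := cross (U t) V) (w1 := dot W (U t))
    (w2 := -cross (U t) W) hL (norm_nonneg _) (norm_nonneg _) f9 f10 (GeoAux.sq_frame _ t)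
    (by rw [neg_sq]; exact GeoAux.sq_frame _ t) f1 f2 (by linarith) (by linarith)
    (by linarith) (by linarith) (by linarith) (by linarith) C.cap_L_le_one

theorem view' (hL : 69 / 100 ≤ C.L) {p q : ℝ} (hp : p ∈ C.I) (hq : q ∈ C.I) (hpq : p ≤ q)
    (hs : 1 - C.L ^ 2 ≤ 2 * C.dX p q ^ 2) :
    C.dX 0 p ^ 2 + C.dX p q ^ 2 * (1 - (1 - C.L ^ 2 + C.dX 0 p ^ 2) / 2 / C.L) +
      2 * C.dX p q * √(C.dX 0 p ^ 2 - ((1 - C.L ^ 2 + C.dX 0 p ^ 2) / 2) ^ 2) *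
        √(1 - C.dX p q ^ 2 / (4 * C.L ^ 2)) ≤ C.dX 0 q ^ 2 := by
  have hT := C.T_lt
  have zT := C.T_mem_I
  have p0 := hp.2.1
  have qT := hq.2.2
  have f1 := C.triple (C.sub_pi _ C.T_mem) C.zero_mem hp.1 (by linarith) p0 (by linarith)
  have f2 := C.triple (C.sub_pi _ C.T_mem) hp.1 hq.1 (by linarith) hpq (by linarith)
  have f3 : C.L ≤ C.dC p C.T := C.dC_mono_L C.zero_mem_I hp zT zT p0 hp.2.2 le_rfl
  have f4 : C.dC p C.T ≤ C.dC q C.T := C.dC_mono_L hp hq zT zT hpq qT le_rfl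
  have f5 : C.dC q C.T ≤ 1 := C.dist_le _ hq.1 _ (C.add_pi _ C.T_mem)
  have f6 : C.dX 0 p ≤ 1 := C.dist_le _ C.zero_mem _ hp.1
  have L1 := C.cap_L_le_one
  rw [C.per' C.T_mem] at f1 f2
  have eL : C.L ^ 2 = ‖C.γ 0 - C.γ (C.T + π)‖ ^ 2 := rfl
  rw [C.comb_dX_comm 0 p, C.comb_dX_comm p q, C.comb_dX_comm 0 q] at *
  simp only [Dia.dC, Dia.dX] at f3 f4 f5 f6 hs ⊢
  obtain ⟨e, he⟩ : ∃ e, e = C.γ p - C.γ (C.T + π) := ⟨_, rfl⟩
  obtain ⟨u, hu⟩ : ∃ u, u = C.γ p - C.γ 0 := ⟨_, rfl⟩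
  obtain ⟨w, hw⟩ : ∃ w, w = C.γ q - C.γ p := ⟨_, rfl⟩
  have e1 : C.γ 0 - C.γ (C.T + π) = e + -u := by linear_combination hu - he
  have e2 : C.γ q - C.γ (C.T + π) = e + w := by linear_combination -he - hw
  have e3 : C.γ q - C.γ 0 = u + w := by linear_combination -hu - hw
  rw [e1] at f1 eL
  rw [e2] at f4 f5
  rw [e3]
  rw [← he] at f2 f3 f4
  rw [← hu] at f1 f6 ⊢
  rw [← hw] at f2 hs ⊢
  generalize C.L = L at *
  have L0 : 0 < L := by linarith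
  have r0 : 0 < ‖e‖ := by linarith
  have r1 : ‖e‖ ≤ 1 := f4.trans f5
  have g4 := pow_le_pow_left₀ r0.le f4 2
  have g5 := pow_le_one₀ (n := 2) (norm_nonneg _) f5
  have g3 := pow_le_pow_left₀ L0.le f3 2
  have g6 := pow_le_one₀ (n := 2) (norm_nonneg _) f6
  rw [GeoAux.sq_add, dot_neg', norm_neg] at eL
  rw [GeoAux.sq_add] at g4 g5 ⊢
  have c1 : 0 ≤ cross e u := f1.trans_eq (by
    simp only [cross, Complex.add_re, Complex.add_im, Complex.neg_re, Complex.neg_im]; ring)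
  have fr : ∀ a b : ℂ, dot e a / ‖e‖ * (dot e b / ‖e‖) + cross e a / ‖e‖ * (cross e b / ‖e‖) =
      dot a b := by
    intro a b
    field_simp
    rw [normSq_eq]
    simp only [dot, cross]; ring
  have ns : ∀ a : ℂ, dot a a = ‖a‖ ^ 2 := fun a => by rw [normSq_eq, dot]; ring
  have key := view_alg (R := ‖u‖) (s := ‖w‖) (L := L) (W := (1 - L ^ 2 + ‖u‖ ^ 2) / 2)
    (u1 := dot e u / ‖e‖) (u2 := cross e u / ‖e‖) (w1 := dot e w / ‖e‖) (w2 := cross e w / ‖e‖)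
    (norm_nonneg _) L0 (by linarith [ns u, fr u u])
    (by linarith [ns w, fr w w])
    (div_nonneg (by linarith [sq_nonneg ‖u‖]) r0.le) ?_ (div_nonneg c1 r0.le)
    (div_nonneg f2 r0.le) ?_
  · rw [fr] at key
    linarith
  · rw [div_le_iff₀ r0]
    have : ‖u‖ ^ 2 - L ^ 2 ≤ ‖e‖ := by nlinarith
    nlinarith [mul_nonneg (sub_nonneg.2 r1) (sub_nonneg.2 this)]
  · rw [abs_div, abs_of_pos r0]
    exact (div_le_div₀ (by positivity) (abs_le.2 ⟨by linarith, by linarith⟩ :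
      |dot e w| ≤ ‖w‖ ^ 2 / 2) L0 f3).trans_eq (by field_simp)

end Cfg

end Pool.Agent.P.MP_4c4e6e_co
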