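import Pool.Agent.P.MP_4c4e6e_co.Prog

/-! Kernel computations, part 1. -/

namespace Pool.Agent.P.MP_4c4e6e_co.Eng

theorem oneP_c1 : Cov poneP 353822841819 110940723243 0 549755813888 0 310612034847 :=
  bb_ok (fuel := 20)
    (w := 19018709121153263019302279866454575180297565058132599543794848823628508871562412045556951639907460331997926481980738248143487029203442988671291384274892265973194526033048823106521648059298117474163952843690378875034489116274968597290308463670333016512955689164915494175927492423036590277337247570027940157040862628140834402995840655056661752442226822706354377079421548644478)
    (by decide +kernel)

theorem twoB_c1 : Cov ptwoB 621224069693 50027779064 0 274877906944 410667592975 205333796488 :=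
  bb_ok (fuel := 22)
    (w := 1771992399077097662799272102452573572353791455934629134767438339560880650139448999647740653779255119334135736604395582918807221215572004513461185774661567897190821978240118291221364286325096797521928862963832457039122660687362849326580291477860422)
    (by decide +kernel)

theorem ah_c10 : Cov pah 771307406885 25013889532 274877906944 137438953472 0 274877906944 :=
  bb_ok (fuel := 12)
    (w := 2190265229392374068295377870601329286039494222922001095374809514938441651116359245108794653465840097991407746475384338280803527592335264441231526548591742281885757271257092171737323268623277562873)
    (by decide +kernel)

theorem cap_c4 : Cov pcap 549755813888 274877906944 797145930138 398572965069 659706976667 109951162778 :=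
  bb_ok (fuel := 20)
    (w := 168191766899962202591149713118029892507515065180720081000160030599712956500733972527285298491537426394123985103378251686410583822227214762766542301583253700329776297247933821982381273571410813143529)
    (by decide +kernel)

theorem ah_c20 : Cov pah 771307406885 25013889532 0 137438953472 549755813888 137438953472 :=
  bb_ok (fuel := 12)
    (w := 188737510734976235666966556951004310608319541498133585448651481140383298937399159504157626669642546724768972620744307598577313383579)
    (by decide +kernel)

theorem twoB_c6 : Cov ptwoB 671251848757 25013889532 549755813888 137438953472 616001389463 102666898244 :=
  bb_ok (fuel := 15)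
    (w := 83076755607157901505096591054435947)
    (by decide +kernel)

theorem kill_c0 : Cov pkill 821335185948 21165598836 0 32985348834 0 32985348834 :=
  bb_ok (fuel := 11)
    (w := 2548087411692482791)
    (by decide +kernel)

theorem cellW_c0 : Cov pcellW 905667727799 100165509291 879609302220 384829069722 0 0 :=
  bb_ok (fuel := 10)
    (w := 11451274022112677980627536485)
    (by decide +kernel)

theorem cell1_c0 : Cov pcell1 0 310612034847 0 0 0 0 :=
  bb_ok (fuel := 5)
    (w := 69893)
    (by decide +kernel)

end Pool.Agent.P.MP_4c4e6e_co.Eng
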