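import Pool.Agent.P.MP_4c4e6e_co.Prog

/-! Kernel computations, part 2. -/

namespace Pool.Agent.P.MP_4c4e6e_co.Eng

theorem ah_c4 : Cov pah 621224069693 25013889532 549755813888 274877906944 274877906944 137438953472 :=
  bb_ok (fuel := 10)
    (w := 5357489456758164209324046363990676291614814684256450005161557339309993000899592591527485127249491172974510458094864355956878383232947134742344680528178305673624956533698826394151388042049216959555505276386267285621674725814043420295439499544410872284539658075233530784566512258436753244528000497278027637999096672084800142665721768976256518810863903642222767450072565941830442402012224423)
    (by decide +kernel)

theorem bigAB_c3 : Cov pbigAB 1005833237090 50082754646 276499686595 138249843298 0 552999373190 :=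
  bb_ok (fuel := 12)
    (w := 63314943553509292511353574327261424940401296153614538147473463211463802486911085846025476022186096235348814568850165039857021625694801634370973696385553153978017613297991859271773812102455684093479025879605157542231250376772561872003233672942077798375694088162870633273192529242432331)
    (by decide +kernel)

theorem ah_c7 : Cov pah 721279627821 25013889532 0 274877906944 0 274877906944 :=
  bb_ok (fuel := 10)
    (w := 86189907527954869519941290092393082485398621940282169355610078383205530705366205807274247758658477292507986878487720863075488922904191598108057921352907684641756497786071378295322080742463904923523815)
    (by decide +kernel)

theorem ah_c22 : Cov pah 771307406885 25013889532 274877906944 137438953472 549755813888 274877906944 :=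
  bb_ok (fuel := 12)
    (w := 3942192911299814770336193228378908098744535288568355683011191628201810384721839347848790644130216695662007248852335093236893663434345349932340639713144154476270307411714832546714295058954451164153)
    (by decide +kernel)

theorem ah_c9 : Cov pah 771307406885 25013889532 0 137438953472 274877906944 137438953472 :=
  bb_ok (fuel := 12)
    (w := 182340993053288314400727864198957160045828825470428008237356785314417665328415738298423166525669279613217103175977345941535287460251)
    (by decide +kernel)

theorem cap_c0 : Cov pcap 0 274877906944 0 797145930138 0 439804651111 :=
  bb_ok (fuel := 17)
    (w := 83522262662546529160915529158127974560492425782086284129692684527220125096906590464210369727714)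
    (by decide +kernel)

theorem apV_c0 : Cov papV 0 16492674417 0 549755813888 0 1099511627776 :=
  bb_ok (fuel := 7)
    (w := 4833696614378130771163)
    (by decide +kernel)

end Pool.Agent.P.MP_4c4e6e_co.Eng
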