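import Pool.Agent.P.MP_4c4e6e_co.Prog

/-! Kernel computations, part 3. -/

namespace Pool.Agent.P.MP_4c4e6e_co.Eng

theorem ah_c13 : Cov pah 621224069693 25013889532 549755813888 274877906944 549755813888 137438953472 :=
  bb_ok (fuel := 10)
    (w := 1667058411964481816580272149748810353312574465087980081085467642198260014481091798002416120132362157158094833392237079785592558659361273529653127962785677252503118067296136477031103010006848499227217430156136426040889083152917126140677204112601563681391802696995947823176506944716426574605387234238667989805642212818775806630479538022980868658662930369261673508887722759473205647892306855)
    (by decide +kernel)

theorem bigAB_c4 : Cov pbigAB 905667727799 100165509291 552999373190 138249843298 0 276499686595 :=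
  bb_ok (fuel := 11)
    (w := 302649673527294307629598320524739922759137635872552903065181218140827635725182483407318515667050275893205836394325318672822633672262698372859869781598502584790487880143143077968455950428398277324273874134373844346226411806586729324355027215892634415541432440441746198049009440203264615)
    (by decide +kernel)

theorem bigAB_c1 : Cov pbigAB 955750482445 25041377323 0 276499686595 0 552999373190 :=
  bb_ok (fuel := 12)
    (w := 94163452739157187744542747522043514184206461966173102638270563973936342733732881938719155379563182604301459644728464340621056868856741561915087042359290196482387328094602137620661891997569684998459800580954191125642162894)
    (by decide +kernel)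

theorem twoB_c3 : Cov ptwoB 621224069693 100055558128 549755813888 137438953472 410667592975 102666898244 :=
  bb_ok (fuel := 19)
    (w := 800679809406553351372613933688377164013714877010369508162674340910232758822193934189921823226371224642017899258272802593308451979353331883266159013)
    (by decide +kernel)

theorem ah_c14 : Cov pah 621224069693 25013889532 0 274877906944 824633720832 137438953472 :=
  bb_ok (fuel := 9)
    (w := 48567426065367263817481823396866886669124497783762122045540488363208969904900377633870649545117417755659506949950358805566145589426061853161)
    (by decide +kernel)

theorem ah_c3 : Cov pah 621224069693 25013889532 0 274877906944 274877906944 137438953472 :=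
  bb_ok (fuel := 9)
    (w := 8144166491532404644976934409241716693219203745084565505085648980177303988313580771492206)
    (by decide +kernel)

theorem bigW_c0 : Cov pbigW 905667727799 100165509291 879609302220 384829069722 0 0 :=
  bb_ok (fuel := 8)
    (w := 1362998556255612886739384272027653274)
    (by decide +kernel)

end Pool.Agent.P.MP_4c4e6e_co.Eng
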