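import Pool.Agent.P.MP_4c4e6e_co.Prog

/-! Kernel computations, part 4. -/

namespace Pool.Agent.P.MP_4c4e6e_co.Eng

theorem twoB_c4 : Cov ptwoB 621224069693 12506944766 549755813888 137438953472 616001389463 102666898244 :=
  bb_ok (fuel := 25)
    (w := 28938394294954971990160532539632988092005445722542346345279122813054999143918378093259249369768123071393586472978385671174102523214565634030616532743113381900491286478719707838033037569681535660226483003503663532163753747446897966169175064124827706053201854926704363058209646173814566892562741396241072445612726805549964025594191891800037196521)
    (by decide +kernel)

theorem twoB_c0 : Cov ptwoB 621224069693 100055558128 0 549755813888 0 205333796488 :=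
  bb_ok (fuel := 13)
    (w := 1260300609668158626582563437722191399242843222377326665117343743651780259300592864581772628429739123495808334241484984165899082986825516816457883262919910278138698542489876196655403047136583960001306402551184747389094089372204261147263891471124000956570)
    (by decide +kernel)

theorem bigAB_c6 : Cov pbigAB 905667727799 100165509291 552999373190 276499686595 552999373190 276499686595 :=
  bb_ok (fuel := 12)
    (w := 21523991797790495345819411725439311451869966943505938875805341433953256215773754479118301602949227263315775985831384268202795981773689488435451284220341555538558827482366997402121566414303250842562241670122892320434105)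
    (by decide +kernel)

theorem ah_c16 : Cov pah 646237959225 12506944766 549755813888 274877906944 824633720832 137438953472 :=
  bb_ok (fuel := 9)
    (w := 253135707984679972995904366997340726292275951906660390703108462218264880250617994332225604054101544884228446830511201754020457192113024095784246713658403894555727594514815467)
    (by decide +kernel)

theorem ah_c23 : Cov pah 721279627821 50027779064 549755813888 274877906944 549755813888 274877906944 :=
  bb_ok (fuel := 11)
    (w := 182316507399839197816260363684811631003682063945684425470667817127699507004727278461607065322256408237291931575182067916975982558181)
    (by decide +kernel)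

theorem ah_c12 : Cov pah 621224069693 25013889532 0 274877906944 549755813888 137438953472 :=
  bb_ok (fuel := 9)
    (w := 8113315741961601739366047743769165167642101638332011594546264295376099550551621994844270)
    (by decide +kernel)

theorem cap_c1 : Cov pcap 549755813888 274877906944 0 398572965069 0 439804651111 :=
  bb_ok (fuel := 9)
    (w := 897806307200291)
    (by decide +kernel)

theorem apP_c0 : Cov papP 0 16492674417 0 549755813888 0 549755813888 :=
  bb_ok (fuel := 2)
    (w := 1)
    (by decide +kernel)

theorem twoB_c7 : Cov ptwoB 721279627821 50027779064 549755813888 137438953472 616001389463 102666898244 :=
  bb_ok (fuel := 1)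
    (w := 0)
    (by decide +kernel)

theorem cellF_c0 : Cov pcellF 439804651110 190765267420 0 0 0 0 :=
  bb_ok (fuel := 3)
    (w := 261)
    (by decide +kernel)

theorem mlow_c0 : Cov pmlow 542608988307 16547649999 0 0 0 0 :=
  bb_ok (fuel := 1)
    (w := 0)
    (by decide +kernel)

end Pool.Agent.P.MP_4c4e6e_co.Eng
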