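import Pool.Agent.P.MP_4c4e6e_co.Prog

/-! Kernel computations, part 5. -/

namespace Pool.Agent.P.MP_4c4e6e_co.Eng

theorem oneM_c0 : Cov poneM 575594337140 22814866277 0 549755813888 0 310612034847 :=
  bb_ok (fuel := 21)
    (w := 25949146245409252392332889439781045278715489703493214467336597302103829436318729998300400350681621757985536517047739501764237076667782602025287470008814941374347804720422239218166129000503243059046764426344248163511406078514651811283199625615507496221932307876149819895902145648373115878928715372830189626385494621350923349177)
    (by decide +kernel)

theorem ah_c18 : Cov pah 671251848757 25013889532 0 549755813888 824633720832 137438953472 :=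
  bb_ok (fuel := 10)
    (w := 373214832751287163736707280215356071931381714401418149996191510509148196671044398867518214275347254572208920177128226914601167830975954026594987589195675682205067720069076198875622338575729698500252830437129060126559566331898871491561601860362593555056275726313242865010116705138811951518544503556661910190444262)
    (by decide +kernel)

theorem ah_c19 : Cov pah 721279627821 25013889532 0 274877906944 549755813888 274877906944 :=
  bb_ok (fuel := 10)
    (w := 81441554730145390172263634855275356630014670624814603371916059331602371207854093152294483987604912809161047865343791999572906366844557594672163069360931243188371337991197945546726647753069496679663023)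
    (by decide +kernel)

theorem cellAB_c0 : Cov pcellAB 472789999943 588238720861 0 552999373190 0 0 :=
  bb_ok (fuel := 11)
    (w := 41216002324239596525137327568743794842426562966404697638824346529994023704700342965392513678484888548313274951724012712597920736567450553004263117323529064347305321507258134939141789578185113)
    (by decide +kernel)

theorem apU_c0 : Cov papU 0 16492674417 0 549755813888 0 1099511627776 :=
  bb_ok (fuel := 14)
    (w := 21400454563086077347048200156039799794131425354655887487594099193219512497495967583847)
    (by decide +kernel)

theorem twoA_c0 : Cov ptwoA 621224069693 100055558128 0 549755813888 0 410667592975 :=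
  bb_ok (fuel := 16)
    (w := 5738044261702720398757339806519539713887711865478380611989026916509954791474273172603712583323)
    (by decide +kernel)

theorem kill0_c0 : Cov pkill0 821335185948 452888839482 0 0 0 0 :=
  bb_ok (fuel := 13)
    (w := 18325197141)
    (by decide +kernel)

theorem apM_c0 : Cov papM 0 16492674417 0 549755813888 0 549755813888 :=
  bb_ok (fuel := 1)
    (w := 0)
    (by decide +kernel)

theorem cellD_c0 : Cov pcellD 0 277076930200 0 0 0 0 :=
  bb_ok (fuel := 1)
    (w := 0)
    (by decide +kernel)

theorem wf_c0 : Cov pwf 905667727799 100165509291 0 0 0 0 :=
  bb_ok (fuel := 2)
    (w := 1)
    (by decide +kernel)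

end Pool.Agent.P.MP_4c4e6e_co.Eng
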