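import Pool.Agent.P.MP_4c4e6e_co.Prog

/-! Kernel computations, part 6. -/

namespace Pool.Agent.P.MP_4c4e6e_co.Eng

theorem ah_c8 : Cov pah 771307406885 25013889532 0 137438953472 0 137438953472 :=
  bb_ok (fuel := 15)
    (w := 1791364443592828443338682348889453889203485778868755693022665304096911943623417169293003871765856951744918138499416570532784792718334493177442782043219730934836929887782841653456061641971186745448161352674319202227014532570675121719742562633497748832685242144770345995281102409095142866198180852807349639221387925882210029)
    (by decide +kernel)

theorem ah_c15 : Cov pah 621224069693 12506944766 549755813888 274877906944 824633720832 137438953472 :=
  bb_ok (fuel := 10)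
    (w := 1571446903071479511335600751376976855415177283100715570699171538799075937920745619783852317219863469052232588360511174517888431458534600312970571902056112931383104837352610651348972162318860744393137360253597746304865222719598046950234033331035888144516151473387867852072804465650274133476128806380012758360657695423339)
    (by decide +kernel)

theorem ah_c17 : Cov pah 671251848757 25013889532 0 549755813888 549755813888 137438953472 :=
  bb_ok (fuel := 10)
    (w := 12693145294336119510458192816417868384504140136337666548402245710769893789376952043072705706765769754875186676679380483418340440268552773535363666611864453193436758161043183505048176969144538123653363804195514304230787283544214406586)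
    (by decide +kernel)

theorem ah_c2 : Cov pah 646237959225 12506944766 549755813888 274877906944 0 137438953472 :=
  bb_ok (fuel := 9)
    (w := 92996334736011491083874810241604814565097145629442511803496923201272186397459531679741739003801575237043557654708750343394591234416382440244020118077074505623767880451242859)
    (by decide +kernel)

theorem ah_c0 : Cov pah 621224069693 25013889532 0 274877906944 0 137438953472 :=
  bb_ok (fuel := 9)
    (w := 48568828814258256378552508137267165900030533827623203077735494827833918981557804900205339395124950102475774540550433121876819464119900979689)
    (by decide +kernel)

theorem bigAB_c2 : Cov pbigAB 1005833237090 50082754646 0 138249843298 0 552999373190 :=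
  bb_ok (fuel := 12)
    (w := 975308557525701892438083087968093497219379184770717646011374043156649865612574080843451476800865212332028139871839396557)
    (by decide +kernel)

end Pool.Agent.P.MP_4c4e6e_co.Eng
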