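import Pool.Agent.P.MP_4c4e6e_co.Prog

/-! Kernel computations, part 7. -/

namespace Pool.Agent.P.MP_4c4e6e_co.Eng

theorem ah_c21 : Cov pah 771307406885 25013889532 0 137438953472 824633720832 137438953472 :=
  bb_ok (fuel := 15)
    (w := 3237091859868232515134136442392387804097514690629015337213540330892750194649820851525933430994281901446660703027320668122202768126419636133008949477038083772552342443719370983482191326804315323834471384693388162988564071897195705360810312079303812285710766357090308840489259820341410331735509240538785344370754553481270189)
    (by decide +kernel)

theorem ah_c5 : Cov pah 671251848757 25013889532 0 549755813888 0 137438953472 :=
  bb_ok (fuel := 10)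
    (w := 376260048031740952442895995352414798094521960006235738429691563873498084543189146610727118513796748044925716739616638862213306944057883748804800119894551162232410477819741581785894950319922968953969594121708371496795310450689934963798460295603537123355128489292667741344115169004538678439543359473686674069801702)
    (by decide +kernel)

theorem twoB_c2 : Cov ptwoB 721279627821 50027779064 0 274877906944 410667592975 205333796488 :=
  bb_ok (fuel := 16)
    (w := 8139790402165280554645239465498747376706439980647280631005506968506866016158157173230739709437282892899132009153952886965392220582636992042674581923733943631481293649368104733560613872286170619954176961042557623064881800986301656129539354)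
    (by decide +kernel)

theorem cap_c3 : Cov pcap 549755813888 274877906944 797145930138 398572965069 439804651111 109951162778 :=
  bb_ok (fuel := 13)
    (w := 850361968902743513928242244514818162599963676925559695147442909958395937666430384805888031875475562982361417410208024472619423963486700846478928243490647985393968575461966683242025344431438504691821)
    (by decide +kernel)

theorem twoB_c5 : Cov ptwoB 646237959225 12506944766 549755813888 137438953472 616001389463 102666898244 :=
  bb_ok (fuel := 15)
    (w := 165264255807673341735943218089149547201064196544100813425876078305133262490020540893655425159803890983502866051562944334822)
    (by decide +kernel)

theorem oneP_c0 : Cov poneP 131941395333 110940723243 0 549755813888 0 310612034847 :=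
  bb_ok (fuel := 11)
    (w := 5116912058968441985915066611089378733123959350247521122615625690)
    (by decide +kernel)

theorem twoB_c8 : Cov ptwoB 621224069693 100055558128 824633720832 137438953472 410667592975 205333796488 :=
  bb_ok (fuel := 14)
    (w := 2218401774207586700131194600281)
    (by decide +kernel)

end Pool.Agent.P.MP_4c4e6e_co.Eng
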