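import Pool.Agent.P.MP_4c4e6e_co.Prog

/-! Kernel computations, part 8. -/

namespace Pool.Agent.P.MP_4c4e6e_co.Eng

theorem bigAB_c5 : Cov pbigAB 905667727799 100165509291 829499059785 138249843298 0 276499686595 :=
  bb_ok (fuel := 12)
    (w := 382675448024029820457139062743952811063070422737614308780142214061215087523073576572696372318126831237409862112760958426305071125361571121617359376301143891710751064038505406808952384902630152656565049202672617032300551898644492360906491963544793017576999546409218024994533806205502220561211110118706156489863995683979164135)
    (by decide +kernel)

theorem ah_c1 : Cov pah 621224069693 12506944766 549755813888 274877906944 0 137438953472 :=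
  bb_ok (fuel := 10)
    (w := 434755914166031421908778240142817499359419535302246194073598082114724129710871965888926243714653203038098843230443504172394959972783822852959202194149891557962074443203161051652148047456622501484989489680959422621231913249073381274067607783590292604324142099396283712794472815965431077024040997524266086139006197734299)
    (by decide +kernel)

theorem ah_c6 : Cov pah 671251848757 25013889532 0 549755813888 274877906944 137438953472 :=
  bb_ok (fuel := 10)
    (w := 18975930593439249122715243128681086727524770247222700568179117904747666421966578368563311317903471142926208331996168747889282954864834180479415884628336778305237308096593229839968729438913401802095099030504288480591551062311975323066)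
    (by decide +kernel)

theorem bigAB_c0 : Cov pbigAB 905667727799 25041377323 0 276499686595 0 552999373190 :=
  bb_ok (fuel := 11)
    (w := 243762865142602487758772454694127123211371648572053510194197430892772579369999050917935423984359936205131459288369605625767802371466924024828953393288795484907922752136230843239764507566987)
    (by decide +kernel)

theorem ah_c11 : Cov pah 721279627821 50027779064 549755813888 274877906944 0 274877906944 :=
  bb_ok (fuel := 11)
    (w := 543183668017265321506412970602130175850539886075611628064134349872106336119331945549754887396177875899751344988821174118007114415077)
    (by decide +kernel)

theorem cap_c2 : Cov pcap 549755813888 274877906944 797145930138 398572965069 0 219902325556 :=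
  bb_ok (fuel := 13)
    (w := 501455757410969978112336634567679940749662683774353996960129470263352551236816836233762551303243394868892423887049)
    (by decide +kernel)

theorem cellS_c0 : Cov pcellS 0 236394999972 0 549755813888 0 0 :=
  bb_ok (fuel := 7)
    (w := 19609097603599450394)
    (by decide +kernel)

end Pool.Agent.P.MP_4c4e6e_co.Eng
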