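import Mathlib

/-! Fine partitions by points of a closed set. -/

namespace Pool.Agent.P.MP_4c4e6e_co

theorem chain_extend (Θ : Set ℝ) (ε : ℝ) {b b' : ℝ} (hb' : b' ∈ Θ) (hbb : b ≤ b')
    (hs : b' - b ≤ ε ∨ ∀ t ∈ Θ, ¬ (b < t ∧ t < b'))
    (h : ∃ (N : ℕ) (θ : ℕ → ℝ), θ 0 = 0 ∧ θ N = b ∧ (∀ k < N, θ k < θ (k + 1)) ∧
      (∀ k ≤ N, θ k ∈ Θ) ∧
      ∀ k < N, θ (k + 1) - θ k ≤ ε ∨ ∀ t ∈ Θ, ¬ (θ k < t ∧ t < θ (k + 1))) :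
    ∃ (N : ℕ) (θ : ℕ → ℝ), θ 0 = 0 ∧ θ N = b' ∧ (∀ k < N, θ k < θ (k + 1)) ∧ (∀ k ≤ N, θ k ∈ Θ) ∧
      ∀ k < N, θ (k + 1) - θ k ≤ ε ∨ ∀ t ∈ Θ, ¬ (θ k < t ∧ t < θ (k + 1)) := by
  rcases hbb.eq_or_lt with rfl | hlt
  · exact h
  obtain ⟨N, θ, h0, hN, h1, h2, h3⟩ := h
  refine ⟨N + 1, fun k => if k ≤ N then θ k else b', ?_, ?_, ?_, ?_, ?_⟩
  · simp [h0]
  · simp
  · intro k hk
    rcases (Nat.lt_succ_iff.mp hk).eq_or_lt with rfl | hk'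
    · simpa [hN] using hlt
    · simpa [hk'.le, Nat.succ_le_of_lt hk'] using h1 k hk'
  · intro k _
    by_cases hk' : k ≤ N
    · simpa [hk'] using h2 k hk'
    · simpa [hk'] using hb'
  · intro k hk
    rcases (Nat.lt_succ_iff.mp hk).eq_or_lt with rfl | hk'
    · simp only [le_refl, if_true, Nat.add_one_le_iff, lt_irrefl, if_false, hN]
      exact hs
    · simp only [hk'.le, Nat.succ_le_of_lt hk', if_true]
      exact h3 k hk'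

theorem exists_chain (Θ : Set ℝ) (hc : IsClosed Θ) (h0 : (0 : ℝ) ∈ Θ) {b : ℝ} (hb : b ∈ Θ)
    (hb0 : 0 ≤ b) {ε : ℝ} (hε : 0 < ε) :
    ∃ (N : ℕ) (θ : ℕ → ℝ), θ 0 = 0 ∧ θ N = b ∧ (∀ k < N, θ k < θ (k + 1)) ∧ (∀ k ≤ N, θ k ∈ Θ) ∧
      ∀ k < N, θ (k + 1) - θ k ≤ ε ∨ ∀ t ∈ Θ, ¬ (θ k < t ∧ t < θ (k + 1)) := by
  obtain ⟨n, hn⟩ := exists_nat_ge (b / ε)
  have hn' : b ≤ n * ε := by rwa [div_le_iff₀ hε] at hn
  clear hn
  induction n generalizing b with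
  | zero =>
    have : b = 0 := le_antisymm (by simpa using hn') hb0
    subst this
    exact ⟨0, fun _ => 0, rfl, rfl, by simp, by simpa using h0, by simp⟩
  | succ n ih =>
    by_cases hle : b ≤ n * ε
    · exact ih hb hb0 hle
    have hlt : (n : ℝ) * ε < b := lt_of_not_ge hle
    have hn0 : 0 ≤ (n : ℝ) * ε := by positivity
    have c1 : IsCompact (Θ ∩ Set.Icc 0 (n * ε)) := isCompact_Icc.inter_left hc
    have c2 : IsCompact (Θ ∩ Set.Icc (n * ε) b) := isCompact_Icc.inter_left hc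
    obtain ⟨a, ha, ha'⟩ := c1.exists_isGreatest ⟨0, h0, le_rfl, hn0⟩
    obtain ⟨a', hA, hA'⟩ := c2.exists_isLeast ⟨b, hb, hlt.le, le_rfl⟩
    have h1 := ih ha.1 ha.2.1 ha.2.2
    have h2 := chain_extend Θ ε hA.1 (ha.2.2.trans hA.2.1) (Or.inr (by
      rintro t ht ⟨h3, h4⟩
      rcases le_total t (n * ε) with h5 | h5
      · exact absurd (ha' ⟨ht, ha.2.1.trans h3.le, h5⟩) (not_le.mpr h3)
      · exact absurd (hA' ⟨ht, h5, h4.le.trans hA.2.2⟩) (not_le.mpr h4))) h1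
    refine chain_extend Θ ε hb hA.2.2 (Or.inl ?_) h2
    have := hA.2.1
    push_cast at hn'
    linarith

end Pool.Agent.P.MP_4c4e6e_co
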