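import Pool.Agent.P.MP_4c4e6e_co.Sym
import Pool.Agent.P.MP_4c4e6e_co.Part

/-! Consequences of the rulers `1, a, 1, a, …`. -/

namespace Pool.Agent.P.MP_4c4e6e_co

open Real Finset

namespace Cfg

variable (C : Cfg)

theorem comb_dX_comm (a b : ℝ) : C.dX a b = C.dX b a := norm_sub_rev _ _

theorem comb_dY_comm (a b : ℝ) : C.dY a b = C.dY b a := norm_sub_rev _ _

theorem comb_len {p q : ℝ} (hp : p ∈ C.I) (hq : q ∈ C.I) (h : p ≤ q) :
    C.dX p q + C.dY p q ≤ q - p :=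
  C.len_le hp.1 hq.1 h (by linarith [hp.2.1, hq.2.2, C.T_lt])

theorem comb_cross {a x y : ℝ} (h1 : a < C.L) (hx : x ∈ C.I) (hy : y ∈ C.I) (h : C.dC x y = a) :
    y + (1 - a) ≤ x := by
  have hyx : y ≤ x := by
    by_contra hc
    have := C.dC_mono_L C.zero_mem_I hx hy C.T_mem_I hx.2.1 (not_le.1 hc).le hy.2.2
    exact absurd h1 (not_lt.2 (h ▸ this))
  have h2 := C.dC_self hx
  have h3 := C.comb_len hy hx hyx
  have h4 : C.dC x x ≤ C.dC x y + C.dY y x := norm_sub_le_norm_sub_add_norm_sub _ _ _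
  have h5 : 0 ≤ C.dX y x := norm_nonneg _
  linarith

open Classical in
/-- the potential of a state of the walk -/
noncomputable def combPot (a : ℝ) (c : Bool) (t : ℝ) : ℝ :=
  if c then (if a ≤ C.dY t C.T then 3 else 1) * (C.T + 1) + (C.T - t)
  else (if a ≤ C.dY t C.T then 0 else 2) * (C.T + 1) + t

theorem comb_pot_bd (a : ℝ) (c : Bool) {t : ℝ} (ht : t ∈ C.I) :
    0 ≤ C.combPot a c t ∧ C.combPot a c t ≤ 4 * (C.T + 1) := by
  have h1 := ht.2.1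
  have h2 := ht.2.2
  unfold combPot
  split_ifs <;> constructor <;> linarith

theorem comb_step {a : ℝ} (h0 : 0 < a) (h1 : a < C.L)
    (hn : ∀ α ∈ C.I, ∀ ψ ∈ C.I, α < ψ → C.dX α ψ = a → C.dY α C.T < a) {u v : ℝ} (hu : u ∈ C.I)
    (hv : v ∈ C.I) (c c' : Bool) (h : ‖C.pt c u - C.pt (!c') v‖ = a) :
    C.combPot a c u + (1 - a) ≤ C.combPot a c' v := by
  have hini : ∀ x ∈ C.I, ∀ y ∈ C.I, x ≤ y → C.dY y C.T ≤ C.dY x C.T := fun x hx y hy hxy =>
    C.dY_mono hx hy C.T_mem_I C.T_mem_I hxy hy.2.2 le_rfl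
  have hu1 := hu.2.1
  have hu2 := hu.2.2
  have hv1 := hv.2.1
  have hv2 := hv.2.2
  have ha1 : a < 1 := h1.trans_le (C.dist_le _ C.zero_mem _ (C.add_pi _ C.T_mem))
  cases c <;> cases c'
  · have h2 := C.comb_cross h1 hv hu ((norm_sub_rev _ _).trans h)
    have h3 := hini u hu v hv (by linarith)
    simp only [combPot, Bool.false_eq_true, if_false]
    split_ifs <;> linarith
  · have h2 : C.dY u v = a := h
    have h3 : a ≤ C.dY u C.T ∨ a ≤ C.dY v C.T := by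
      rcases le_total u v with h4 | h4
      · exact .inl (h2 ▸ C.dY_mono hu hu hv C.T_mem_I le_rfl h4 hv2)
      · exact .inr ((C.comb_dY_comm u v ▸ h2) ▸ C.dY_mono hv hv hu C.T_mem_I le_rfl h4 hu2)
    simp only [combPot, Bool.false_eq_true, if_false, if_true]
    split_ifs with h5 h6 h6
    · linarith
    · linarith
    · linarith
    · exact absurd h3 (not_or.2 ⟨h5, h6⟩)
  · have h2 : C.dX u v = a := h
    have h3 : C.dY u C.T < a ∧ C.dY v C.T < a := by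
      rcases lt_trichotomy u v with h4 | h4 | h4
      · have := hn u hu v hv h4 h2
        exact ⟨this, (hini u hu v hv h4.le).trans_lt this⟩
      · subst h4
        simp [Dia.dX] at h2
        linarith
      · have := hn v hv u hu h4 (C.comb_dX_comm u v ▸ h2)
        exact ⟨(hini v hv u hu h4.le).trans_lt this, this⟩
    simp only [combPot, Bool.false_eq_true, if_false, if_true, if_neg (not_le.2 h3.1),
      if_neg (not_le.2 h3.2)]
    linarith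
  · have h2 := C.comb_cross h1 hu hv h
    have h3 := hini v hv u hu (by linarith)
    simp only [combPot, if_true]
    split_ifs <;> linarith

theorem lemE {a : ℝ} (h0 : 0 < a) (h1 : a < C.L) :
    ∃ α ∈ C.I, ∃ ψ ∈ C.I, α < ψ ∧ C.dX α ψ = a ∧ a ≤ C.dY α C.T := by
  by_contra hn
  push Not at hn
  have ha1 : a < 1 := h1.trans_le (C.dist_le _ C.zero_mem _ (C.add_pi _ C.T_mem))
  obtain ⟨n, hn'⟩ := exists_nat_gt (4 * (C.T + 1) / (1 - a))
  rw [div_lt_iff₀ (by linarith)] at hn'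
  obtain ⟨θ, c, hθ, hc⟩ := C.cwalk n (fun _ => a) fun _ _ => ⟨h0, ha1.le⟩
  have key : ∀ i ≤ n, i * (1 - a) ≤ C.combPot a (c i) (θ i) := by
    intro i
    induction i with
    | zero => intro hi; simpa using (C.comb_pot_bd a _ (hθ 0 hi)).1
    | succ i ih =>
      intro hi
      have h2 := C.comb_step h0 h1 hn (hθ i (by omega)) (hθ _ hi) _ _ (hc i hi)
      have h3 := ih (by omega)
      push_cast
      linarith
  linarith [key n le_rfl, (C.comb_pot_bd a (c n) (hθ n le_rfl)).2]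

theorem lemE' {a : ℝ} (h0 : 0 < a) (h1 : a < C.L) :
    ∃ α ∈ C.I, ∃ ψ ∈ C.I, α < ψ ∧ C.dY α ψ = a ∧ a ≤ C.dX 0 ψ := by
  obtain ⟨C', hT, -, hI, hd, hL, -⟩ := C.mirror_dist
  obtain ⟨α, hα, ψ, hψ, h2, h3, h4⟩ := C'.lemE h0 (hL ▸ h1)
  have hα' := (hI α).1 hα
  have hψ' := (hI ψ).1 hψ
  have h5 := (hd _ hα'.1 _ hψ'.1).1
  have h6 := (hd _ hα'.1 _ C.zero_mem).2.1
  rw [sub_sub_cancel, sub_sub_cancel] at h5
  rw [sub_sub_cancel, sub_zero] at h6
  refine ⟨_, hψ', _, hα', by linarith, ?_, ?_⟩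
  · rw [C.comb_dY_comm, ← h5, h3]
  · rw [C.comb_dX_comm, ← h6, ← hT]; exact h4

theorem lemA : C.L ≤ C.d1 ∧ C.L ≤ C.d2 := by
  constructor
  · by_contra h
    have h0 : 0 ≤ C.d1 := norm_nonneg _
    obtain ⟨α, hα, ψ, hψ, h2, h3, -⟩ := C.lemE (a := (C.d1 + C.L) / 2) (by linarith) (by linarith)
    have : C.dX α ψ ≤ C.d1 := C.dX_mono C.zero_mem_I hα hψ C.T_mem_I hα.2.1 h2.le hψ.2.2
    linarith
  · by_contra h
    have h0 : 0 ≤ C.d2 := norm_nonneg _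
    obtain ⟨α, hα, ψ, hψ, h2, h3, -⟩ := C.lemE' (a := (C.d2 + C.L) / 2) (by linarith) (by linarith)
    have : C.dY α ψ ≤ C.d2 := C.dY_mono C.zero_mem_I hα hψ C.T_mem_I hα.2.1 h2.le hψ.2.2
    linarith

/-- a fine partition of `[0, T]`: every cell is short or a gap -/
def Fine (ε : ℝ) (N : ℕ) (θ : ℕ → ℝ) : Prop :=
  C.IsPart N θ ∧ θ N = C.T ∧ ∀ k < N, θ (k + 1) - θ k ≤ ε ∨ C.IsGap (θ k) (θ (k + 1))

theorem exists_fine {ε : ℝ} (hε : 0 < ε) : ∃ N θ, C.Fine ε N θ := by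
  obtain ⟨N, θ, h0, hN, h1, h2, h3⟩ := exists_chain C.Θ C.closed C.zero_mem C.T_mem C.T_nonneg hε
  refine ⟨N, fun k => if k ≤ N then θ k else π, ⟨by simp [h0], by simp, fun k hk => ?_,
    fun k _ => ?_⟩, by simp [hN], fun k hk => ?_⟩
  · rcases hk.lt_or_eq with h | rfl
    · simpa [hk, Nat.succ_le_of_lt h] using h1 k h
    · simpa [hN] using C.T_lt
  · by_cases h : k ≤ N
    · simpa [h] using h2 k h
    · simpa [h] using C.add_pi _ C.zero_mem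
  · simp only [hk.le, Nat.succ_le_of_lt hk, if_true]
    exact (h3 k hk).imp id fun h => ⟨h2 k hk.le, h2 _ hk, h1 k hk, h⟩

theorem Fine.comb_mono {C : Cfg} {ε : ℝ} {N : ℕ} {θ : ℕ → ℝ} (h : C.Fine ε N θ) {i j : ℕ}
    (hij : i ≤ j) (hj : j ≤ N) : θ i ≤ θ j := by
  induction j, hij using Nat.le_induction with
  | base => exact le_rfl
  | succ j _ ih => exact (ih (by omega)).trans (h.1.2.2.1 j (by omega)).le

theorem Fine.comb_mem {C : Cfg} {ε : ℝ} {N : ℕ} {θ : ℕ → ℝ} (h : C.Fine ε N θ) {i : ℕ}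
    (hi : i ≤ N) : θ i ∈ C.I :=
  ⟨h.1.2.2.2 i (by omega), h.1.1 ▸ h.comb_mono (Nat.zero_le i) hi,
    h.2.1 ▸ h.comb_mono hi le_rfl⟩

theorem comb_tri (f : ℕ → ℂ) {i j : ℕ} (hij : i ≤ j) :
    ‖f i - f j‖ ≤ ∑ k ∈ Ico i j, ‖f k - f (k + 1)‖ := by
  simpa only [dist_eq_norm] using dist_le_Ico_sum_dist f hij

theorem comb_stretch {ε : ℝ} {N : ℕ} {θ : ℕ → ℝ} (h : C.Fine ε N θ) (hε : 0 < ε) (hL : ε < C.L)
    (g : ℝ → ℂ)
    (hmono : ∀ a ∈ C.I, ∀ b ∈ C.I, ∀ c ∈ C.I, ∀ d ∈ C.I, a ≤ b → b ≤ c → c ≤ d →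
      ‖g b - g c‖ ≤ ‖g a - g d‖)
    (hshort : ∀ p ∈ C.I, ∀ q ∈ C.I, p ≤ q → ‖g p - g q‖ ≤ q - p)
    (hE : ∀ a, 0 < a → a < C.L → ∃ α ∈ C.I, ∃ ψ ∈ C.I, α < ψ ∧ ‖g α - g ψ‖ = a)
    (x : ℕ → ℝ) (hx : ∀ k, x k = ‖g (θ k) - g (θ (k + 1))‖) :
    ∀ k ∈ (range N).filter (fun k => ε < x k),
      ∑ i ∈ (range N).filter (fun k => ε < x k) with x k ≤ x i, x i + min (x k) C.L ≤
        ∑ i ∈ range N, x i := by
  classical
  intro k hk
  have hk' := (mem_filter.1 hk).2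
  have hx0 : ∀ i, 0 ≤ x i := fun i => hx i ▸ norm_nonneg _
  have key : ∀ a, ε < a → a < min (x k) C.L → a ≤ ∑ i ∈ range N with ¬ x k ≤ x i, x i := by
    intro a ha1 ha2
    obtain ⟨α, hα, ψ, hψ, hlt, ha⟩ := hE a (hε.trans ha1) (ha2.trans_le (min_le_right _ _))
    have hex : ∃ j, j ≤ N ∧ ψ ≤ θ j := ⟨N, le_rfl, h.2.1 ▸ hψ.2.2⟩
    set i₁ := Nat.find hex
    have h1 : i₁ ≤ N ∧ ψ ≤ θ i₁ := Nat.find_spec hex
    set i₀ := Nat.findGreatest (fun j => θ j ≤ α) N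
    have h0N : i₀ ≤ N := Nat.findGreatest_le N
    have h0 : θ i₀ ≤ α := Nat.findGreatest_spec (P := fun j => θ j ≤ α) (Nat.zero_le N)
      (h.1.1 ▸ hα.2.1)
    have h01 : i₀ ≤ i₁ := by
      by_contra hc
      have := h.comb_mono (not_le.1 hc).le h0N
      linarith [h1.2]
    have h2 := hmono _ (h.comb_mem h0N) _ hα _ hψ _ (h.comb_mem h1.1) h0 hlt.le h1.2
    have h3 := comb_tri (fun j => g (θ j)) h01
    simp only [← hx] at h3
    refine (ha ▸ h2.trans h3).trans (sum_le_sum_of_subset_of_nonneg (fun i hi => ?_)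
      fun i _ _ => hx0 i)
    obtain ⟨hi0, hi1⟩ := mem_Ico.1 hi
    have hiN : i < N := by omega
    have h4 : θ i < ψ := not_le.1 fun hc => Nat.find_min hex hi1 ⟨hiN.le, hc⟩
    have h5 : α < θ (i + 1) := not_le.1
      (Nat.findGreatest_is_greatest (P := fun j => θ j ≤ α) (Nat.lt_succ_of_le hi0) hiN)
    have hm := h.comb_mem hiN.le
    have hm' := h.comb_mem (Nat.succ_le_of_lt hiN)
    have hle := (h.1.2.2.1 i hiN.le).le
    refine mem_filter.2 ⟨mem_range.2 hiN, not_le.2 ?_⟩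
    rcases h.2.2 i hiN with h6 | h6
    · have := hshort _ hm _ hm' hle
      rw [← hx] at this
      linarith
    · have h7 : α ≤ θ i := not_lt.1 fun hc => h6.2.2.2 α hα.1 ⟨hc, h5⟩
      have h8 : θ (i + 1) ≤ ψ := not_lt.1 fun hc => h6.2.2.2 ψ hψ.1 ⟨h4, hc⟩
      have := hmono _ hα _ hm _ hm' _ hψ h7 hle h8
      rw [← hx, ha] at this
      linarith [min_le_left (x k) C.L]
  have h1 : min (x k) C.L ≤ ∑ i ∈ range N with ¬ x k ≤ x i, x i := by
    by_contra hc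
    obtain ⟨a, ha1, ha2⟩ := exists_between (max_lt (lt_min hk' hL) (not_le.1 hc))
    exact absurd (key a ((le_max_left _ _).trans_lt ha1) ha2)
      (not_le.2 ((le_max_right _ _).trans_lt ha1))
  have h2 : ∑ i ∈ (range N).filter (fun k => ε < x k) with x k ≤ x i, x i ≤
      ∑ i ∈ range N with x k ≤ x i, x i :=
    sum_le_sum_of_subset_of_nonneg (filter_subset_filter _ (filter_subset _ _)) fun i _ _ => hx0 i
  rw [← sum_filter_add_sum_filter_not (range N) (fun i => x k ≤ x i)]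
  linarith

theorem stretchX {ε : ℝ} {N : ℕ} {θ : ℕ → ℝ} (h : C.Fine ε N θ) (hε : 0 < ε) (hL : ε < C.L)
    (x : ℕ → ℝ) (hx : ∀ k, x k = C.dX (θ k) (θ (k + 1))) :
    ∀ k ∈ (range N).filter (fun k => ε < x k),
      ∑ i ∈ (range N).filter (fun k => ε < x k) with x k ≤ x i, x i + min (x k) C.L ≤
        ∑ i ∈ range N, x i := by
  refine C.comb_stretch h hε hL C.γ (fun a ha b hb c hc d hd => C.dX_mono ha hb hc hd)
    (fun p hp q hq hpq => ?_) (fun a h0 h1 => ?_) x hx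
  · have h1 := C.comb_len hp hq hpq
    have h2 : 0 ≤ C.dY p q := norm_nonneg _
    exact (le_add_of_nonneg_right h2).trans h1
  · obtain ⟨α, hα, ψ, hψ, h2, h3, -⟩ := C.lemE h0 h1
    exact ⟨α, hα, ψ, hψ, h2, h3⟩

theorem stretchY {ε : ℝ} {N : ℕ} {θ : ℕ → ℝ} (h : C.Fine ε N θ) (hε : 0 < ε) (hL : ε < C.L)
    (y : ℕ → ℝ) (hy : ∀ k, y k = C.dY (θ k) (θ (k + 1))) :
    ∀ k ∈ (range N).filter (fun k => ε < y k),
      ∑ i ∈ (range N).filter (fun k => ε < y k) with y k ≤ y i, y i + min (y k) C.L ≤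
        ∑ i ∈ range N, y i := by
  refine C.comb_stretch h hε hL (fun t => C.γ (t + π))
    (fun a ha b hb c hc d hd => C.dY_mono ha hb hc hd)
    (fun p hp q hq hpq => ?_) (fun a h0 h1 => ?_) y hy
  · have h1 := C.comb_len hp hq hpq
    have h2 : 0 ≤ C.dX p q := norm_nonneg _
    exact (le_add_of_nonneg_left h2).trans h1
  · obtain ⟨α, hα, ψ, hψ, h2, h3, -⟩ := C.lemE' h0 h1
    exact ⟨α, hα, ψ, hψ, h2, h3⟩

theorem len_bounds {ε : ℝ} {N : ℕ} {θ : ℕ → ℝ} (h : C.Fine ε N θ) :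
    C.d1 ≤ ∑ i ∈ range N, C.dX (θ i) (θ (i + 1)) ∧ C.d2 ≤ ∑ i ∈ range N, C.dY (θ i) (θ (i + 1)) ∧
    ∑ i ∈ range N, C.dX (θ i) (θ (i + 1)) + ∑ i ∈ range N, C.dY (θ i) (θ (i + 1)) ≤ C.T := by
  refine ⟨?_, ?_, ?_⟩
  · have := comb_tri (fun j => C.γ (θ j)) (Nat.zero_le N)
    simp only [h.1.1, h.2.1, ← range_eq_Ico] at this
    exact this
  · have := comb_tri (fun j => C.γ (θ j + π)) (Nat.zero_le N)
    simp only [h.1.1, h.2.1, ← range_eq_Ico] at this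
    exact this
  · rw [← sum_add_distrib, ← h.2.1, ← sub_zero (θ N), ← h.1.1, ← sum_range_sub]
    refine sum_le_sum fun i hi => ?_
    have hi' := mem_range.1 hi
    exact C.comb_len (h.comb_mem hi'.le) (h.comb_mem hi') (h.1.2.2.1 i hi'.le).le

end Cfg

end Pool.Agent.P.MP_4c4e6e_co
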