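import Pool.Agent.P.MP_4c4e6e_co.Chk1
import Pool.Agent.P.MP_4c4e6e_co.Chk2
import Pool.Agent.P.MP_4c4e6e_co.Chk3
import Pool.Agent.P.MP_4c4e6e_co.Chk4
import Pool.Agent.P.MP_4c4e6e_co.Chk5
import Pool.Agent.P.MP_4c4e6e_co.Chk6
import Pool.Agent.P.MP_4c4e6e_co.Chk7
import Pool.Agent.P.MP_4c4e6e_co.Chk8

/-! The checked statements. -/

namespace Pool.Agent.P.MP_4c4e6e_co.Eng

theorem cap_cov : Cov pcap 0 549755813888 0 797145930138 0 439804651111 :=
  cov1 (g1 := 549755813888) cap_c0 (cov2 (g2 := 797145930138) cap_c1 (cov3 (g3 := 439804651111) cap_c2 (cov3 (g3 := 219902325556) cap_c3 cap_c4 (by norm_num) (by norm_num)) (by norm_num) (by norm_num)) (by norm_num) (by norm_num)) (by norm_num) (by norm_num)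

theorem kill0_cov : Cov pkill0 821335185948 452888839482 0 0 0 0 :=
  kill0_c0

theorem kill_cov : Cov pkill 821335185948 21165598836 0 32985348834 0 32985348834 :=
  kill_c0

theorem ah_cov : Cov pah 621224069693 100055558128 0 549755813888 0 549755813888 :=
  cov3 (g3 := 549755813888) (cov1 (g1 := 100055558128) (cov1 (g1 := 50027779064) (cov3 (g3 := 274877906944) (cov2 (g2 := 549755813888) ah_c0 (cov1 (g1 := 25013889532) ah_c1 ah_c2 (by norm_num) (by norm_num)) (by norm_num) (by norm_num)) (cov2 (g2 := 549755813888) ah_c3 ah_c4 (by norm_num) (by norm_num)) (by norm_num) (by norm_num)) (cov3 (g3 := 274877906944) ah_c5 ah_c6 (by norm_num) (by norm_num)) (by norm_num) (by norm_num)) (cov2 (g2 := 549755813888) (cov1 (g1 := 50027779064) ah_c7 (cov2 (g2 := 274877906944) (cov3 (g3 := 274877906944) ah_c8 ah_c9 (by norm_num) (by norm_num)) ah_c10 (by norm_num) (by norm_num)) (by norm_num) (by norm_num)) ah_c11 (by norm_num) (by norm_num)) (by norm_num) (by norm_num)) (cov1 (g1 := 100055558128) (cov1 (g1 :=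 50027779064) (cov3 (g3 := 274877906944) (cov2 (g2 := 549755813888) ah_c12 ah_c13 (by norm_num) (by norm_num)) (cov2 (g2 := 549755813888) ah_c14 (cov1 (g1 := 25013889532) ah_c15 ah_c16 (by norm_num) (by norm_num)) (by norm_num) (by norm_num)) (by norm_num) (by norm_num)) (cov3 (g3 := 274877906944) ah_c17 ah_c18 (by norm_num) (by norm_num)) (by norm_num) (by norm_num)) (cov2 (g2 := 549755813888) (cov1 (g1 := 50027779064) ah_c19 (cov2 (g2 := 274877906944) (cov3 (g3 := 274877906944) ah_c20 ah_c21 (by norm_num) (by norm_num)) ah_c22 (by norm_num) (by norm_num)) (by norm_num) (by norm_num)) ah_c23 (by norm_num) (by norm_num)) (by norm_num) (by norm_num)) (by norm_num) (by norm_num)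

theorem twoA_cov : Cov ptwoA 621224069693 100055558128 0 549755813888 0 410667592975 :=
  twoA_c0

theorem twoB_cov : Cov ptwoB 621224069693 100055558128 0 549755813888 0 410667592975 :=
  cov3 (g3 := 410667592975) twoB_c0 (cov2 (g2 := 549755813888) (cov1 (g1 := 100055558128) twoB_c1 twoB_c2 (by norm_num) (by norm_num)) (cov2 (g2 := 274877906944) (cov3 (g3 := 205333796488) twoB_c3 (cov1 (g1 := 100055558128) (cov1 (g1 := 50027779064) (cov1 (g1 := 25013889532) twoB_c4 twoB_c5 (by norm_num) (by norm_num)) twoB_c6 (by norm_num) (by norm_num)) twoB_c7 (by norm_num) (by norm_num)) (by norm_num) (by norm_num)) twoB_c8 (by norm_num) (by norm_num)) (by norm_num) (by norm_num)) (by norm_num) (by norm_num)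

theorem oneP_cov : Cov poneP 131941395333 221881446486 0 549755813888 0 310612034847 :=
  cov1 (g1 := 221881446486) oneP_c0 oneP_c1 (by norm_num) (by norm_num)

theorem oneM_cov : Cov poneM 575594337140 22814866277 0 549755813888 0 310612034847 :=
  oneM_c0

theorem mlow_cov : Cov pmlow 542608988307 16547649999 0 0 0 0 :=
  mlow_c0

theorem apU_cov : Cov papU 0 16492674417 0 549755813888 0 1099511627776 :=
  apU_c0

theorem apV_cov : Cov papV 0 16492674417 0 549755813888 0 1099511627776 :=
  apV_c0

theorem apP_cov : Cov papP 0 16492674417 0 549755813888 0 549755813888 :=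
  apP_c0

theorem apM_cov : Cov papM 0 16492674417 0 549755813888 0 549755813888 :=
  apM_c0

theorem cell1_cov : Cov pcell1 0 310612034847 0 0 0 0 :=
  cell1_c0

theorem cellD_cov : Cov pcellD 0 277076930200 0 0 0 0 :=
  cellD_c0

theorem cellS_cov : Cov pcellS 0 236394999972 0 549755813888 0 0 :=
  cellS_c0

theorem wf_cov : Cov pwf 905667727799 100165509291 0 0 0 0 :=
  wf_c0

theorem cellAB_cov : Cov pcellAB 472789999943 588238720861 0 552999373190 0 0 :=
  cellAB_c0

theorem bigAB_cov : Cov pbigAB 905667727799 100165509291 0 552999373190 0 552999373190 :=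
  cov2 (g2 := 552999373190) (cov1 (g1 := 100165509291) (cov1 (g1 := 50082754646) bigAB_c0 bigAB_c1 (by norm_num) (by norm_num)) (cov2 (g2 := 276499686595) bigAB_c2 bigAB_c3 (by norm_num) (by norm_num)) (by norm_num) (by norm_num)) (cov3 (g3 := 552999373190) (cov2 (g2 := 276499686595) bigAB_c4 bigAB_c5 (by norm_num) (by norm_num)) bigAB_c6 (by norm_num) (by norm_num)) (by norm_num) (by norm_num)

theorem cellW_cov : Cov pcellW 905667727799 100165509291 879609302220 384829069722 0 0 :=
  cellW_c0

theorem bigW_cov : Cov pbigW 905667727799 100165509291 879609302220 384829069722 0 0 :=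
  bigW_c0

theorem cellF_cov : Cov pcellF 439804651110 190765267420 0 0 0 0 :=
  cellF_c0

end Pool.Agent.P.MP_4c4e6e_co.Eng
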