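import Mathlib

/-! Sums of cubes of halving sequences. -/

namespace Pool.Agent.P.MP_4c4e6e_co

open Finset

theorem cubes_filter_insert {s : Finset ℕ} {a : ℕ} (ha : a ∉ s) (x : ℕ → ℝ) {c : ℝ}
    (hc : c ≤ x a) :
    ∑ i ∈ insert a s with c ≤ x i, x i = x a + ∑ i ∈ s with c ≤ x i, x i := by
  rw [Finset.filter_insert, if_pos hc, Finset.sum_insert]
  intro h
  exact ha (Finset.mem_filter.mp h).1

theorem cubes_filter_nonneg {s : Finset ℕ} (x : ℕ → ℝ) (hx : ∀ k ∈ s, 0 ≤ x k) (c : ℝ) :
    0 ≤ ∑ i ∈ s with c ≤ x i, x i :=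
  Finset.sum_nonneg fun i hi => hx i (Finset.mem_filter.mp hi).1

theorem cubes_half (J : Finset ℕ) (x : ℕ → ℝ) (hx : ∀ k ∈ J, 0 ≤ x k) (r : ℝ) (hr : 0 ≤ r)
    (h : ∀ k ∈ J, ∑ i ∈ J with x k ≤ x i, x i + x k ≤ r) : ∑ k ∈ J, x k ^ 3 ≤ r ^ 3 / 7 := by
  induction J using Finset.induction_on_max_value x generalizing r with
  | empty => simp only [Finset.sum_empty]; positivity
  | insert a s ha hmax ih =>
    have hxs : ∀ k ∈ s, 0 ≤ x k := fun k hk => hx k (Finset.mem_insert_of_mem hk)
    have hxa : 0 ≤ x a := hx a (Finset.mem_insert_self a s)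
    have h1 := h a (Finset.mem_insert_self a s)
    rw [cubes_filter_insert ha x le_rfl] at h1
    have h2 := cubes_filter_nonneg x hxs (x a)
    have h3 : 2 * x a ≤ r := by linarith
    have h4 := ih hxs (r - x a) (by linarith) (fun k hk => by
      have h5 := h k (Finset.mem_insert_of_mem hk)
      rw [cubes_filter_insert ha x (hmax k hk)] at h5
      linarith)
    rw [Finset.sum_insert ha]
    have h6 : 0 ≤ x a * ((r - 2 * x a) * (r + x a)) :=
      mul_nonneg hxa (mul_nonneg (by linarith) (by linarith))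
    nlinarith

theorem cubes_cap (J : Finset ℕ) (x : ℕ → ℝ) (hx : ∀ k ∈ J, 0 ≤ x k) (r S : ℝ) (hS : 0 ≤ S)
    (hr : S ≤ r) (hxS : ∀ k ∈ J, x k ≤ S)
    (h : ∀ k ∈ J, ∑ i ∈ J with x k ≤ x i, x i + x k ≤ r) :
    ∑ k ∈ J, x k ^ 3 ≤ S ^ 2 * (r - 6 * S / 7) := by
  induction J using Finset.induction_on_max_value x generalizing r with
  | empty =>
    simp only [Finset.sum_empty]
    exact mul_nonneg (sq_nonneg S) (by linarith)
  | insert a s ha hmax ih =>
    by_cases h2 : r ≤ 2 * S
    · have h3 := cubes_half (insert a s) x hx r (by linarith) h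
      have h4 : 0 ≤ (r - S) * ((2 * S - r) * (r + 3 * S)) :=
        mul_nonneg (by linarith) (mul_nonneg (by linarith) (by linarith))
      nlinarith
    · have hxs : ∀ k ∈ s, 0 ≤ x k := fun k hk => hx k (Finset.mem_insert_of_mem hk)
      have hxa : 0 ≤ x a := hx a (Finset.mem_insert_self a s)
      have haS : x a ≤ S := hxS a (Finset.mem_insert_self a s)
      have h4 := ih hxs (r - x a) (by linarith)
        (fun k hk => hxS k (Finset.mem_insert_of_mem hk)) (fun k hk => by
          have h5 := h k (Finset.mem_insert_of_mem hk)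
          rw [cubes_filter_insert ha x (hmax k hk)] at h5
          linarith)
      rw [Finset.sum_insert ha]
      have h6 : 0 ≤ x a * ((S - x a) * (S + x a)) :=
        mul_nonneg hxa (mul_nonneg (by linarith) (by linarith))
      nlinarith

theorem cubes_big (J : Finset ℕ) (x : ℕ → ℝ) (hx : ∀ k ∈ J, 0 ≤ x k) (r L : ℝ) (hL : 0 ≤ L)
    (hr : r ≤ 3 * L) (hb : ∃ k ∈ J, L < x k)
    (h : ∀ k ∈ J, ∑ i ∈ J with x k ≤ x i, x i + min (x k) L ≤ r) :
    2 * L < r ∧ ∑ k ∈ J, x k ^ 3 ≤ (r - L) ^ 3 + L ^ 3 / 7 := by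
  induction J using Finset.induction_on_max_value x with
  | empty => simp at hb
  | insert a s ha hmax _ =>
    have hxs : ∀ k ∈ s, 0 ≤ x k := fun k hk => hx k (Finset.mem_insert_of_mem hk)
    have hLa : L < x a := by
      obtain ⟨k, hk, hk'⟩ := hb
      rcases Finset.mem_insert.mp hk with rfl | hk
      · exact hk'
      · exact hk'.trans_le (hmax k hk)
    have h1 := h a (Finset.mem_insert_self a s)
    rw [cubes_filter_insert ha x le_rfl, min_eq_right hLa.le] at h1
    have h2 := cubes_filter_nonneg x hxs (x a)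
    have h3 : x a + L ≤ r := by linarith
    have hsm : ∀ k ∈ s, x k ≤ L := by
      intro k hk
      by_contra hc
      have hc' : L < x k := lt_of_not_ge hc
      have h5 := h k (Finset.mem_insert_of_mem hk)
      rw [cubes_filter_insert ha x (hmax k hk), min_eq_right hc'.le] at h5
      have h6 : x k ≤ ∑ i ∈ s with x k ≤ x i, x i :=
        Finset.single_le_sum (f := x) (fun i hi => hxs i (Finset.mem_filter.mp hi).1)
          (Finset.mem_filter.mpr ⟨hk, le_rfl⟩)
      linarith
    have h4 := cubes_half s x hxs (r - x a) (by linarith) (fun k hk => by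
      have h5 := h k (Finset.mem_insert_of_mem hk)
      rw [cubes_filter_insert ha x (hmax k hk), min_eq_left (hsm k hk)] at h5
      linarith)
    refine ⟨by linarith, ?_⟩
    rw [Finset.sum_insert ha]
    have hu : 0 ≤ x a := by linarith
    have hw : 0 ≤ r - x a := by linarith
    have hw2 : r - x a ≤ 2 * x a := by linarith
    have e1 : (r - x a) ^ 2 ≤ 4 * x a ^ 2 := by nlinarith
    have e2 : (r - x a) * L ≤ 2 * x a ^ 2 := by nlinarith
    have e3 : L ^ 2 ≤ x a ^ 2 := by nlinarith
    have e4 : 0 ≤ (r - L) ^ 2 + (r - L) * x a := by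
      have : 0 ≤ (r - L) * x a := mul_nonneg (by linarith) hu
      positivity
    have e5 : 0 ≤ (r - L - x a) * (((r - L) ^ 2 + (r - L) * x a + x a ^ 2) -
        ((r - x a) ^ 2 + (r - x a) * L + L ^ 2) / 7) :=
      mul_nonneg (by linarith) (by linarith)
    nlinarith

end Pool.Agent.P.MP_4c4e6e_co
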