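import Mathlib

/-! Carpenter's rulers and convex universal cases. The plane is identified with `ℂ`. -/

namespace Pool.Agent.P.MP_4c4e6e_co

open Set

/-- The link lengths `ℓ 0, …, ℓ (n-1)` of a unit ruler: all positive, the longest equal to `1`
(in particular there is at least one link). -/
def IsUnitRuler {n : ℕ} (ℓ : Fin n → ℝ) : Prop :=
  (∀ i, 0 < ℓ i) ∧ (∀ i, ℓ i ≤ 1) ∧ ∃ i, ℓ i = 1

/-- The ruler with link lengths `ℓ` can be folded inside `S`: there are hinge positions
`p 0, …, p n` with the prescribed consecutive distances such that every link lies in `S`. -/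
def FoldsInside {n : ℕ} (ℓ : Fin n → ℝ) (S : Set ℂ) : Prop :=
  ∃ p : Fin (n + 1) → ℂ, ∀ i : Fin n,
    dist (p i.castSucc) (p i.succ) = ℓ i ∧ segment ℝ (p i.castSucc) (p i.succ) ⊆ S

/-- Every unit ruler, with any number of links, can be folded inside `S`. -/
def Universal (S : Set ℂ) : Prop :=
  ∀ (n : ℕ) (ℓ : Fin n → ℝ), IsUnitRuler ℓ → FoldsInside ℓ S

/-- The boundary of `S` is a simple closed curve. -/
def IsCase (S : Set ℂ) : Prop :=
  ∃ γ : Circle → ℂ, Continuous γ ∧ Function.Injective γ ∧ range γ = frontier S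

end Pool.Agent.P.MP_4c4e6e_co
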