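import Pool.Agent.P.MP_4c4e6e_co.Basic

/-! The system of unit diameters of a universal case. -/

namespace Pool.Agent.P.MP_4c4e6e_co

open Real Finset

/-- `Θ` is the set of directions of unit chords, `γ t` the end point of the chord of direction `t`
(the other end point is `γ (t + π)`). -/
structure Dia where
  Θ : Set ℝ
  γ : ℝ → ℂ
  closed : IsClosed Θ
  add_pi : ∀ t ∈ Θ, t + π ∈ Θ
  sub_pi : ∀ t ∈ Θ, t - π ∈ Θ
  anti : ∀ t ∈ Θ, γ (t + π) = γ t - U t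
  dist_le : ∀ s ∈ Θ, ∀ t ∈ Θ, ‖γ s - γ t‖ ≤ 1
  walk : ∀ (n : ℕ) (a : ℕ → ℝ), (∀ i < n, 0 < a i ∧ a i ≤ 1) →
    ∃ t : ℕ → ℝ, (∀ i ≤ n, t i ∈ Θ) ∧ ∀ i < n, ‖γ (t i + π) - γ (t (i + 1))‖ = a i

/-- A system of diameters with the distinguished gap `(T, π)`. -/
structure Cfg extends Dia where
  T : ℝ
  T_nonneg : 0 ≤ T
  T_lt : T < π
  zero_mem : (0 : ℝ) ∈ Θ
  T_mem : T ∈ Θ
  gap : ∀ t ∈ Θ, ¬ (T < t ∧ t < π)

namespace Dia

variable (D : Dia)

/-- distance on the first arc -/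
noncomputable def dX (a b : ℝ) : ℝ := ‖D.γ a - D.γ b‖
/-- distance on the second arc -/
noncomputable def dY (a b : ℝ) : ℝ := ‖D.γ (a + π) - D.γ (b + π)‖
/-- distance between the arcs -/
noncomputable def dC (a b : ℝ) : ℝ := ‖D.γ a - D.γ (b + π)‖
/-- end point of colour `c` -/
noncomputable def pt (c : Bool) (a : ℝ) : ℂ := if c then D.γ a else D.γ (a + π)
/-- midpoint of the diameter -/
noncomputable def M (a : ℝ) : ℂ := D.γ a - (1 / 2 : ℝ) • U a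
/-- `(p, q)` is a gap -/
def IsGap (p q : ℝ) : Prop := p ∈ D.Θ ∧ q ∈ D.Θ ∧ p < q ∧ ∀ t ∈ D.Θ, ¬ (p < t ∧ t < q)
/-- lens coordinates of the displacement of the midpoint over the cell `[p, q]` -/
def IsLens (p q lam t : ℝ) : Prop :=
  0 ≤ lam ∧ lam ≤ 1 ∧ |t| ≤ (q - p) / 2 ∧ ∃ e : ℝ, (e = 1 ∨ e = -1) ∧
    D.M q - D.M p = (e * lam) • (U ((p + q) / 2 + t) - (1 / 2 : ℝ) • (U p + U q))
/-- a partition of `[0, π]` by directions of diameters -/
def IsPart (N : ℕ) (θ : ℕ → ℝ) : Prop :=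
  θ 0 = 0 ∧ θ (N + 1) = π ∧ (∀ k ≤ N, θ k < θ (k + 1)) ∧ ∀ k ≤ N + 1, θ k ∈ D.Θ
/-- area of the polygon of the partition -/
noncomputable def Sh (N : ℕ) (θ : ℕ → ℝ) : ℝ :=
  ∑ k ∈ range (N + 1), (cross (D.γ (θ k)) (D.γ (θ (k + 1))) +
    cross (D.γ (θ k + π)) (D.γ (θ (k + 1) + π))) / 2

end Dia

namespace Cfg

variable (C : Cfg)

/-- the directions in `[0, T]` -/
def I : Set ℝ := C.Θ ∩ Set.Icc 0 C.T
/-- the chord `AB` over the distinguished gap -/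
noncomputable def L : ℝ := C.dC 0 C.T
/-- the other chord over the distinguished gap -/
noncomputable def l : ℝ := C.dC C.T 0
/-- chord of the first arc -/
noncomputable def d1 : ℝ := C.dX 0 C.T
/-- chord of the second arc -/
noncomputable def d2 : ℝ := C.dY 0 C.T

end Cfg

end Pool.Agent.P.MP_4c4e6e_co
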