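import Pool.Agent.P.MP_4c4e6e_co.EngSem

/-! Soundness of the algebraic operations on affine forms. -/

namespace Pool.Agent.P.MP_4c4e6e_co.Eng

variable {e1 e2 e3 u v : ℝ} {x y : AF} {k : AF → Bool}

theorem alg_add (a b : ℕ) : ((Nat.add a b : ℕ) : ℝ) = a + b := Nat.cast_add a b

theorem alg_mul (a b : ℕ) : ((Nat.mul a b : ℕ) : ℝ) = a * b := Nat.cast_mul a b

theorem alg_sub {a b : ℕ} (h : b ≤ a) : ((Nat.sub a b : ℕ) : ℝ) = a - b := Nat.cast_sub h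

theorem alg_sub_ge (a b : ℕ) : (a : ℝ) - b ≤ ((Nat.sub a b : ℕ) : ℝ) := by
  rcases le_total b a with h | h
  · exact (alg_sub h).ge
  · have h1 : (a : ℝ) ≤ b := by exact_mod_cast h
    have h2 : (0 : ℝ) ≤ ((Nat.sub a b : ℕ) : ℝ) := Nat.cast_nonneg _
    linarith

theorem alg_abs (a b : ℕ) : |(a : ℝ) - b| ≤ ((Nat.sub a b : ℕ) : ℝ) + ((Nat.sub b a : ℕ) : ℝ) := by
  have h1 := alg_sub_ge a b
  have h2 := alg_sub_ge b a
  have h3 : (0 : ℝ) ≤ ((Nat.sub a b : ℕ) : ℝ) := Nat.cast_nonneg _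
  have h4 : (0 : ℝ) ≤ ((Nat.sub b a : ℕ) : ℝ) := Nat.cast_nonneg _
  rw [abs_le]
  constructor <;> linarith

theorem alg_fl (P m : ℕ) :
    (P : ℝ) / m - 1 ≤ ((Nat.div P m : ℕ) : ℝ) ∧ ((Nat.div P m : ℕ) : ℝ) ≤ (P : ℝ) / m := by
  refine ⟨?_, Nat.cast_div_le⟩
  rcases Nat.eq_zero_or_pos m with rfl | hm
  · have h : (0 : ℝ) ≤ ((Nat.div P 0 : ℕ) : ℝ) := Nat.cast_nonneg _
    simp only [Nat.cast_zero, div_zero]
    linarith
  · have h1 : P < m * (P / m + 1) := Nat.lt_mul_div_succ P hm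
    have h2 : (P : ℝ) < m * (((P / m : ℕ) : ℝ) + 1) := by exact_mod_cast h1
    have h3 : (0 : ℝ) < m := by exact_mod_cast hm
    have h4 : (P : ℝ) / m ≤ ((P / m : ℕ) : ℝ) + 1 := by
      rw [div_le_iff₀ h3]
      linarith
    show (P : ℝ) / m - 1 ≤ ((P / m : ℕ) : ℝ)
    linarith

theorem alg_lane {e : ℝ} (he : |e| ≤ 1) (P N m : ℕ) :
    |(((Nat.div P m : ℕ) : ℝ) - ((Nat.div N m : ℕ) : ℝ)) * e - ((P : ℝ) - N) * e / m| ≤ 1 := by
  have h1 := alg_fl P m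
  have h2 := alg_fl N m
  have e1 : (((Nat.div P m : ℕ) : ℝ) - ((Nat.div N m : ℕ) : ℝ)) * e - ((P : ℝ) - N) * e / m =
      (((Nat.div P m : ℕ) : ℝ) - ((Nat.div N m : ℕ) : ℝ) - ((P : ℝ) / m - (N : ℝ) / m)) * e := by
    ring
  rw [e1, abs_mul]
  refine mul_le_one₀ ?_ (abs_nonneg _) he
  rw [abs_le]
  constructor <;> linarith [h1.1, h1.2, h2.1, h2.2]

theorem alg_mk (h1 : |e1| ≤ 1) (h2 : |e2| ≤ 1) (h3 : |e3| ≤ 1) {cp cn P1 N1 P2 N2 P3 N3 m r : ℕ}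
    {w : ℝ} (h : |w * 2 ^ 40 - (((cp : ℝ) - cn) +
      (((P1 : ℝ) - N1) * e1 + ((P2 : ℝ) - N2) * e2 + ((P3 : ℝ) - N3) * e3) / m)| + 3 ≤ (r : ℝ)) :
    Rep e1 e2 e3 ⟨cp, cn, Nat.div P1 m, Nat.div N1 m, Nat.div P2 m, Nat.div N2 m, Nat.div P3 m,
      Nat.div N3 m, r⟩ w := by
  have a1 := abs_le.1 (alg_lane h1 P1 N1 m)
  have a2 := abs_le.1 (alg_lane h2 P2 N2 m)
  have a3 := abs_le.1 (alg_lane h3 P3 N3 m)
  have a4 := abs_le.1 (le_sub_iff_add_le.2 h)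
  rw [add_div, add_div] at a4
  unfold Rep
  rw [abs_le]
  constructor <;> linarith [a1.1, a1.2, a2.1, a2.2, a3.1, a3.2, a4.1, a4.2]

theorem alg_lin (h1 : |e1| ≤ 1) (h2 : |e2| ≤ 1) (h3 : |e3| ≤ 1)
    {n m cp cn ap an bp bn dp dn r : ℕ} {w : ℝ} (h : |w * 2 ^ 40 - (((cp : ℝ) - cn) +
      (n : ℝ) / m * (((ap : ℝ) - an) * e1 + ((bp : ℝ) - bn) * e2 + ((dp : ℝ) - dn) * e3))| + 3 ≤
      (r : ℝ))
    (hk : lin n m cp cn ap an bp bn dp dn r k = true) : ∃ z, Rep e1 e2 e3 z w ∧ k z = true := by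
  refine ⟨_, alg_mk h1 h2 h3 ?_, hk⟩
  simp only [alg_mul]
  refine le_trans (le_of_eq ?_) h
  congr 2
  ring

theorem alg_rd (h1 : |e1| ≤ 1) (h2 : |e2| ≤ 1) (h3 : |e3| ≤ 1) (ap an bp bn dp dn r : ℕ) :
    |((ap : ℝ) - an) * e1 + ((bp : ℝ) - bn) * e2 + ((dp : ℝ) - dn) * e3| + r ≤
      (rd ap an bp bn dp dn r : ℝ) := by
  have key : ∀ (a b : ℕ) (e : ℝ), |e| ≤ 1 →
      |((a : ℝ) - b) * e| ≤ ((Nat.sub a b : ℕ) : ℝ) + ((Nat.sub b a : ℕ) : ℝ) := by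
    intro a b e he
    rw [abs_mul]
    exact (mul_le_of_le_one_right (abs_nonneg _) he).trans (alg_abs a b)
  have a1 := key ap an e1 h1
  have a2 := key bp bn e2 h2
  have a3 := key dp dn e3 h3
  have a4 := abs_add_three (((ap : ℝ) - an) * e1) (((bp : ℝ) - bn) * e2) (((dp : ℝ) - dn) * e3)
  unfold rd
  simp only [alg_add]
  linarith

/-- the value is centre plus linear part plus a small rest -/
theorem alg_split (h1 : |e1| ≤ 1) (h2 : |e2| ≤ 1) (h3 : |e3| ≤ 1)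
    {cp cn ap an bp bn dp dn r : ℕ} (hx : Rep e1 e2 e3 ⟨cp, cn, ap, an, bp, bn, dp, dn, r⟩ u) :
    ∃ L ρ : ℝ, L = ((ap : ℝ) - an) * e1 + ((bp : ℝ) - bn) * e2 + ((dp : ℝ) - dn) * e3 ∧
      u * 2 ^ 40 = ((cp : ℝ) - cn) + L + ρ ∧ |ρ| ≤ r ∧ |L + ρ| ≤ (rd ap an bp bn dp dn r : ℝ) := by
  have hr : |u * 2 ^ 40 - (((cp : ℝ) - cn) + ((ap : ℝ) - an) * e1 + ((bp : ℝ) - bn) * e2 +
      ((dp : ℝ) - dn) * e3)| ≤ (r : ℝ) := hx
  refine ⟨_, _, rfl, by ring, hr, (abs_add_le _ _).trans ?_⟩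
  linarith [alg_rd h1 h2 h3 ap an bp bn dp dn r]

theorem addK_ok (hx : Rep e1 e2 e3 x u) (hy : Rep e1 e2 e3 y v) (h : addK x y k = true) :
    ∃ z, Rep e1 e2 e3 z (u + v) ∧ k z = true := by
  obtain ⟨cp, cn, ap, an, bp, bn, dp, dn, r⟩ := x
  obtain ⟨cp', cn', ap', an', bp', bn', dp', dn', r'⟩ := y
  refine ⟨_, ?_, h⟩
  unfold Rep at hx hy ⊢
  simp only [alg_add] at hx hy ⊢
  rw [abs_le] at hx hy ⊢
  constructor <;> linarith [hx.1, hx.2, hy.1, hy.2]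

theorem subK_ok (hx : Rep e1 e2 e3 x u) (hy : Rep e1 e2 e3 y v) (h : subK x y k = true) :
    ∃ z, Rep e1 e2 e3 z (u - v) ∧ k z = true := by
  obtain ⟨cp, cn, ap, an, bp, bn, dp, dn, r⟩ := x
  obtain ⟨cp', cn', ap', an', bp', bn', dp', dn', r'⟩ := y
  refine ⟨_, ?_, h⟩
  unfold Rep at hx hy ⊢
  simp only [alg_add] at hx hy ⊢
  rw [abs_le] at hx hy ⊢
  constructor <;> linarith [hx.1, hx.2, hy.1, hy.2]

theorem negK_ok (hx : Rep e1 e2 e3 x u) (h : negK x k = true) :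
    ∃ z, Rep e1 e2 e3 z (-u) ∧ k z = true := by
  obtain ⟨cp, cn, ap, an, bp, bn, dp, dn, r⟩ := x
  refine ⟨_, ?_, h⟩
  unfold Rep at hx ⊢
  simp only at hx ⊢
  rw [abs_le] at hx ⊢
  constructor <;> linarith [hx.1, hx.2]

theorem smK_ok (h1 : |e1| ≤ 1) (h2 : |e2| ≤ 1) (h3 : |e3| ≤ 1) {n m : ℕ}
    (hx : Rep e1 e2 e3 x u) (h : smK n m x k = true) :
    ∃ z, Rep e1 e2 e3 z ((n : ℝ) / (m : ℝ) * u) ∧ k z = true := by
  obtain ⟨cp, cn, ap, an, bp, bn, dp, dn, r⟩ := x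
  obtain ⟨L, ρ, hL, hu, hρ, -⟩ := alg_split h1 h2 h3 hx
  refine alg_lin h1 h2 h3 ?_ h
  rw [← hL, mul_assoc, hu]
  have a1 := alg_fl (Nat.mul n cp) m
  have a2 := alg_fl (Nat.mul n cn) m
  have a3 := alg_fl (Nat.mul n r) m
  rw [alg_mul, mul_div_right_comm] at a1 a2 a3
  have hq : (0 : ℝ) ≤ (n : ℝ) / m := by positivity
  have a4 := mul_le_mul_of_nonneg_left (abs_le.1 hρ).1 hq
  have a5 := mul_le_mul_of_nonneg_left (abs_le.1 hρ).2 hq
  rw [alg_add, ← le_sub_iff_add_le, abs_le]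
  push_cast
  constructor <;> linarith [a1.1, a1.2, a2.1, a2.2, a3.1]

theorem alg_mm (h1 : |e1| ≤ 1) (h2 : |e2| ≤ 1) (h3 : |e3| ≤ 1)
    {a b cp cn ap an bp bn dp dn r ap' an' bp' bn' dp' dn' r' p p' : ℕ} {w C ρ ρ' t t' : ℝ}
    (hC : |C / 1099511627776 - ((cp : ℝ) - cn)| ≤ 1) (hρ : |ρ| ≤ r) (hρ' : |ρ'| ≤ r')
    (ht : |t| ≤ p) (ht' : |t'| ≤ p')
    (hw : w * 2 ^ 40 * 2 ^ 40 = C +
      a * (((ap' : ℝ) - an') * e1 + ((bp' : ℝ) - bn') * e2 + ((dp' : ℝ) - dn') * e3) +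
      b * (((ap : ℝ) - an) * e1 + ((bp : ℝ) - bn) * e2 + ((dp : ℝ) - dn) * e3) +
      a * ρ' + b * ρ + t * t')
    (hk : mm a b cp cn ap an bp bn dp dn r ap' an' bp' bn' dp' dn' r' (Nat.mul p p') k = true) :
    ∃ z, Rep e1 e2 e3 z w ∧ k z = true := by
  refine ⟨_, alg_mk h1 h2 h3 ?_, hk⟩
  have a1 := (alg_fl (Nat.add (Nat.add (Nat.mul a r') (Nat.mul b r)) (Nat.mul p p'))
    1099511627776).1
  have ha : (0 : ℝ) ≤ a := Nat.cast_nonneg _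
  have hb : (0 : ℝ) ≤ b := Nat.cast_nonneg _
  have a2 := mul_le_mul_of_nonneg_left (abs_le.1 hρ').1 ha
  have a3 := mul_le_mul_of_nonneg_left (abs_le.1 hρ').2 ha
  have a4 := mul_le_mul_of_nonneg_left (abs_le.1 hρ).1 hb
  have a5 := mul_le_mul_of_nonneg_left (abs_le.1 hρ).2 hb
  have a6 : |t * t'| ≤ (p : ℝ) * p' := by
    rw [abs_mul]
    exact mul_le_mul ht ht' (abs_nonneg _) (Nat.cast_nonneg _)
  have a7 := abs_le.1 a6
  have a8 := abs_le.1 hC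
  generalize Nat.div (Nat.add (Nat.add (Nat.mul a r') (Nat.mul b r)) (Nat.mul p p'))
    1099511627776 = Q at a1 ⊢
  rw [alg_add Q 5, ← le_sub_iff_add_le, abs_le]
  simp only [alg_add, alg_mul] at a1 ⊢
  push_cast at a1 ⊢
  constructor <;> linarith [a7.1, a7.2, a8.1, a8.2]

theorem alg_ctr (a b : ℕ) :
    |(a : ℝ) * b / 1099511627776 - (((Nat.div (Nat.mul a b) 1099511627776 : ℕ) : ℝ) - (0 : ℕ))| ≤ 1 ∧
    |-((a : ℝ) * b) / 1099511627776 -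
      (((0 : ℕ) : ℝ) - ((Nat.div (Nat.mul a b) 1099511627776 : ℕ) : ℝ))| ≤ 1 := by
  have a1 := alg_fl (Nat.mul a b) 1099511627776
  rw [alg_mul] at a1
  generalize ((Nat.div (Nat.mul a b) 1099511627776 : ℕ) : ℝ) = Q at a1 ⊢
  push_cast at a1 ⊢
  rw [abs_le, abs_le]
  refine ⟨⟨?_, ?_⟩, ?_, ?_⟩ <;> linarith [a1.1, a1.2]

theorem alg_ble_false {a b : ℕ} (h : Nat.ble a b = false) : b < a := by
  by_contra hc
  rw [Nat.ble_eq_true_of_le (not_lt.1 hc)] at h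
  exact Bool.noConfusion h

theorem mulK_ok (h1 : |e1| ≤ 1) (h2 : |e2| ≤ 1) (h3 : |e3| ≤ 1)
    (hx : Rep e1 e2 e3 x u) (hy : Rep e1 e2 e3 y v) (h : mulK x y k = true) :
    ∃ z, Rep e1 e2 e3 z (u * v) ∧ k z = true := by
  obtain ⟨cp, cn, ap, an, bp, bn, dp, dn, r⟩ := x
  obtain ⟨cp', cn', ap', an', bp', bn', dp', dn', r'⟩ := y
  obtain ⟨L, ρ, hL, hu, hρ, ht⟩ := alg_split h1 h2 h3 hx
  obtain ⟨L', ρ', hL', hv, hρ', ht'⟩ := alg_split h1 h2 h3 hy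
  have e : u * v * 2 ^ 40 * 2 ^ 40 = (((cp : ℝ) - cn) + L + ρ) * (((cp' : ℝ) - cn') + L' + ρ') := by
    rw [← hu, ← hv]; ring
  have nρ : |-ρ| ≤ r := by rwa [abs_neg]
  have nρ' : |-ρ'| ≤ r' := by rwa [abs_neg]
  unfold mulK at h
  simp only at h
  cases hb : Nat.ble cn cp <;> cases hb' : Nat.ble cn' cp' <;> rw [hb, hb'] at h
  · refine alg_mm h1 h2 h3 (alg_ctr _ _).1 nρ nρ' ht ht' ?_ h
    rw [e, alg_sub (alg_ble_false hb).le, alg_sub (alg_ble_false hb').le, hL, hL']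
    ring
  · refine alg_mm h1 h2 h3 (alg_ctr _ _).2 hρ nρ' ht ht' ?_ h
    rw [e, alg_sub (alg_ble_false hb).le, alg_sub (Nat.le_of_ble_eq_true hb'), hL, hL']
    ring
  · refine alg_mm h1 h2 h3 (alg_ctr _ _).2 nρ hρ' ht ht' ?_ h
    rw [e, alg_sub (Nat.le_of_ble_eq_true hb), alg_sub (alg_ble_false hb').le, hL, hL']
    ring
  · refine alg_mm h1 h2 h3 (alg_ctr _ _).1 hρ hρ' ht ht' ?_ h
    rw [e, alg_sub (Nat.le_of_ble_eq_true hb), alg_sub (Nat.le_of_ble_eq_true hb'), hL, hL']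
    ring

theorem alg_sq1 (h1 : |e1| ≤ 1) (h2 : |e2| ≤ 1) (h3 : |e3| ≤ 1)
    {a p ap an bp bn dp dn r : ℕ} {w ρ t : ℝ} (hρ : |ρ| ≤ r) (ht : |t| ≤ p)
    (hw : w * 2 ^ 40 * 2 ^ 40 = (a : ℝ) * a +
      2 * a * (((ap : ℝ) - an) * e1 + ((bp : ℝ) - bn) * e2 + ((dp : ℝ) - dn) * e3) +
      2 * a * ρ + t * t)
    (hk : sq1 a (Nat.mul p p) ap an bp bn dp dn r k = true) :
    ∃ z, Rep e1 e2 e3 z w ∧ k z = true := by
  refine alg_lin h1 h2 h3 ?_ hk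
  have a1 := alg_fl (Nat.add (Nat.mul 2 (Nat.mul a a)) (Nat.mul p p)) 2199023255552
  have a2 := (alg_fl (Nat.add (Nat.mul 4 (Nat.mul a r)) (Nat.mul p p)) 2199023255552).1
  have ha : (0 : ℝ) ≤ a := Nat.cast_nonneg _
  have a4 := mul_le_mul_of_nonneg_left (abs_le.1 hρ).1 ha
  have a5 := mul_le_mul_of_nonneg_left (abs_le.1 hρ).2 ha
  have a6 : t * t ≤ (p : ℝ) * p := by
    rw [← abs_mul_abs_self t]
    exact mul_le_mul ht ht (abs_nonneg _) (Nat.cast_nonneg _)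
  have a7 := mul_self_nonneg t
  generalize Nat.div (Nat.add (Nat.mul 2 (Nat.mul a a)) (Nat.mul p p)) 2199023255552 = Q at a1 ⊢
  generalize Nat.div (Nat.add (Nat.mul 4 (Nat.mul a r)) (Nat.mul p p)) 2199023255552 = Q' at a2 ⊢
  rw [alg_add Q' 5, ← le_sub_iff_add_le, abs_le]
  simp only [alg_add, alg_mul] at a1 a2
  push_cast at a1 a2 ⊢
  constructor <;> linarith [a1.1, a1.2]

theorem sqK_ok (h1 : |e1| ≤ 1) (h2 : |e2| ≤ 1) (h3 : |e3| ≤ 1)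
    (hx : Rep e1 e2 e3 x u) (h : sqK x k = true) :
    ∃ z, Rep e1 e2 e3 z (u ^ 2) ∧ k z = true := by
  obtain ⟨cp, cn, ap, an, bp, bn, dp, dn, r⟩ := x
  obtain ⟨L, ρ, hL, hu, hρ, ht⟩ := alg_split h1 h2 h3 hx
  have e : u ^ 2 * 2 ^ 40 * 2 ^ 40 = (((cp : ℝ) - cn) + L + ρ) ^ 2 := by
    rw [← hu]; ring
  have nρ : |-ρ| ≤ r := by rwa [abs_neg]
  unfold sqK at h
  simp only at h
  cases hb : Nat.ble cn cp <;> rw [hb] at h
  · refine alg_sq1 h1 h2 h3 nρ ht ?_ h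
    rw [e, alg_sub (alg_ble_false hb).le, hL]
    ring
  · refine alg_sq1 h1 h2 h3 hρ ht ?_ h
    rw [e, alg_sub (Nat.le_of_ble_eq_true hb), hL]
    ring

theorem alg_inv_real {a c p y X : ℝ} (ha : 0 < a) (hcp : p < c) (hy0 : 0 ≤ y) (hy1 : c * y ≤ a)
    (hy2 : a ≤ c * y + c) (hX : |X - c| ≤ p) :
    0 ≤ a / X - (2 * y - X * (y * y / a)) ∧
      a / X - (2 * y - X * (y * y / a)) ≤ 2 * ((p * y + c) * (p * y + c) / (2 * a * (c - p))) := by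
  have hX' := abs_le.1 hX
  have hp : 0 ≤ p := (abs_nonneg _).trans hX
  have hX0 : 0 < X := by linarith [hX'.1]
  have hd : 0 < c - p := by linarith
  have e1 : a / X - (2 * y - X * (y * y / a)) = (a - X * y) ^ 2 / (a * X) := by
    field_simp
    ring
  have e2 : 2 * ((p * y + c) * (p * y + c) / (2 * a * (c - p))) = (p * y + c) ^ 2 / (a * (c - p)) := by
    field_simp
  rw [e1, e2]
  refine ⟨by positivity, div_le_div₀ (sq_nonneg _) ?_ (mul_pos ha hd) ?_⟩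
  · have b1 := mul_le_mul_of_nonneg_right hX'.1 hy0
    have b2 := mul_le_mul_of_nonneg_right hX'.2 hy0
    exact sq_le_sq' (by linarith) (by linarith)
  · exact mul_le_mul_of_nonneg_left (by linarith [hX'.1]) ha.le

theorem alg_inv1 (h1 : |e1| ≤ 1) (h2 : |e2| ≤ 1) (h3 : |e3| ≤ 1)
    {c p ap an bp bn dp dn r : ℕ} {L ρ : ℝ} (hcp : p < c)
    (hL : L = ((ap : ℝ) - an) * e1 + ((bp : ℝ) - bn) * e2 + ((dp : ℝ) - dn) * e3)
    (hu : u * 2 ^ 40 = c + L + ρ) (hρ : |ρ| ≤ r) (ht : |L + ρ| ≤ p)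
    (hk : inv1 c p (Nat.div 1208925819614629174706176 c) ap an bp bn dp dn r k = true) :
    ∃ z, Rep e1 e2 e3 z u⁻¹ ∧ k z = true := by
  have hy := alg_fl 1208925819614629174706176 c
  generalize Nat.div 1208925819614629174706176 c = y at hy hk
  refine alg_lin h1 h2 h3 ?_ hk
  have hcp' : (p : ℝ) < c := by exact_mod_cast hcp
  have hc : (0 : ℝ) < c := (Nat.cast_nonneg p).trans_lt hcp'
  have hy1 := hy.1
  have hy2 := hy.2
  rw [sub_le_iff_le_add, div_le_iff₀ hc] at hy1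
  rw [le_div_iff₀ hc] at hy2
  push_cast at hy1 hy2
  have key := alg_inv_real (a := 1208925819614629174706176) (c := c) (p := p) (y := y)
    (X := c + L + ρ) (by norm_num) hcp' (Nat.cast_nonneg _) (by linarith) (by linarith)
    (by rw [show (c : ℝ) + L + ρ - c = L + ρ by ring]; exact ht)
  have e1' : u⁻¹ * 2 ^ 40 = 1208925819614629174706176 / (c + L + ρ) := by
    rw [← hu, div_mul_eq_div_div_swap, div_eq_mul_inv (_ / _), mul_comm]
    norm_num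
  have e2' : ((an : ℝ) - ap) * e1 + ((bn : ℝ) - bp) * e2 + ((dn : ℝ) - dp) * e3 = -L := by
    rw [hL]; ring
  have a1 := alg_fl (Nat.mul (Nat.add (Nat.mul p y) c) (Nat.add (Nat.mul p y) c))
    (Nat.mul 2417851639229258349412352 (Nat.sub c p))
  have a2 := alg_fl (Nat.mul c (Nat.mul y y)) 1208925819614629174706176
  have a3 := (alg_fl (Nat.mul r (Nat.mul y y)) 1208925819614629174706176).1
  generalize Nat.div (Nat.mul (Nat.add (Nat.mul p y) c) (Nat.add (Nat.mul p y) c))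
    (Nat.mul 2417851639229258349412352 (Nat.sub c p)) = E at a1 ⊢
  generalize Nat.div (Nat.mul c (Nat.mul y y)) 1208925819614629174706176 = Q at a2 ⊢
  generalize Nat.div (Nat.mul r (Nat.mul y y)) 1208925819614629174706176 = Q' at a3 ⊢
  rw [e1', e2', ← le_sub_iff_add_le, abs_le]
  simp only [alg_add, alg_mul, alg_sub hcp.le] at a1 a2 a3 ⊢
  push_cast at a1 a2 a3 ⊢
  rw [show (2 : ℝ) * 1208925819614629174706176 = 2417851639229258349412352 by norm_num] at key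
  generalize ((p : ℝ) * y + c) * ((p : ℝ) * y + c) / (2417851639229258349412352 * ((c : ℝ) - p)) = E'
    at a1 key
  generalize 1208925819614629174706176 / ((c : ℝ) + L + ρ) = I at key ⊢
  have hq : (0 : ℝ) ≤ (y : ℝ) * y := by positivity
  have a4 := mul_le_mul_of_nonneg_left (abs_le.1 hρ).1 hq
  have a5 := mul_le_mul_of_nonneg_left (abs_le.1 hρ).2 hq
  constructor <;> linarith [a1.1, a1.2, a2.1, a2.2, key.1, key.2]

theorem invK_ok (h1 : |e1| ≤ 1) (h2 : |e2| ≤ 1) (h3 : |e3| ≤ 1)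
    (hx : Rep e1 e2 e3 x u) (h : invK x k = true) :
    ∃ z, Rep e1 e2 e3 z u⁻¹ ∧ k z = true := by
  obtain ⟨cp, cn, ap, an, bp, bn, dp, dn, r⟩ := x
  obtain ⟨L, ρ, hL, hu, hρ, ht⟩ := alg_split h1 h2 h3 hx
  unfold invK at h
  simp only at h
  cases hb : Nat.ble (Nat.sub cp cn) (rd ap an bp bn dp dn r) <;> rw [hb] at h
  · have hlt := alg_ble_false hb
    have hle : cn ≤ cp := by
      have h0 : 0 < cp - cn := lt_of_le_of_lt (Nat.zero_le _) hlt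
      omega
    exact alg_inv1 h1 h2 h3 hlt hL (by rw [alg_sub hle]; exact hu) hρ ht h
  · exact Bool.noConfusion h

theorem alg_sqrt_real {s q U w : ℝ} (hs : 0 ≤ s) (hq : 0 < q) (hw : 0 < w)
    (hw' : w = 2 * (q * q) - U) (hU : |s * s - q * q| ≤ U) :
    0 ≤ q / 2 + s * s / (2 * q) - s ∧
      q / 2 + s * s / (2 * q) - s ≤ 2 * (U * U * q / (4 * (w * w))) := by
  have e1 : q / 2 + s * s / (2 * q) - s = |s - q| ^ 2 / (2 * q) := by
    rw [sq_abs]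
    field_simp
    ring
  have e2 : 2 * (U * U * q / (4 * (w * w))) = (U * q / w) ^ 2 / (2 * q) := by
    field_simp
    ring
  rw [e1, e2]
  refine ⟨by positivity, div_le_div_of_nonneg_right ?_ (by positivity)⟩
  have b0 : s * s - q * q = (s - q) * (s + q) := by ring
  rw [b0, abs_mul, abs_of_nonneg (by linarith : 0 ≤ s + q)] at hU
  have hD := abs_nonneg (s - q)
  have hD1 : q - s ≤ |s - q| := by linarith [neg_abs_le (s - q)]
  refine pow_le_pow_left₀ hD ?_ 2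
  generalize |s - q| = D at hU hD hD1
  have b1 := mul_le_mul_of_nonneg_left hD1 hq.le
  have b2 : 0 ≤ D * s := mul_nonneg hD hs
  have b3 : w ≤ q * (s + q) := by linarith
  have b4 := mul_le_mul_of_nonneg_left b3 hD
  have b5 := mul_le_mul_of_nonneg_right hU hq.le
  rw [le_div_iff₀ hw]
  linarith

theorem alg_sqrt2 (h1 : |e1| ≤ 1) (h2 : |e2| ≤ 1) (h3 : |e3| ≤ 1)
    {c p n q U w ap an bp bn dp dn r : ℕ} {L ρ : ℝ} (hcp : p < c)
    (hL : L = ((ap : ℝ) - an) * e1 + ((bp : ℝ) - bn) * e2 + ((dp : ℝ) - dn) * e3)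
    (hu : u * 2 ^ 40 = c + L + ρ) (hρ : |ρ| ≤ r) (ht : |L + ρ| ≤ p)
    (hn : (n : ℝ) = c * 1099511627776)
    (hU : |(n : ℝ) - q * q| ≤ U - p * 1099511627776) (hw2 : w = 2 * (q * q) - U)
    (hk : sqrt2 n q U w ap an bp bn dp dn r k = true) :
    ∃ z, Rep e1 e2 e3 z √u ∧ k z = true := by
  have hw0 : 0 < w := by
    rcases Nat.eq_zero_or_pos w with rfl | h
    · exact Bool.noConfusion hk
    · exact h
  have hb : Nat.ble w 0 = false := by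
    obtain ⟨j, rfl⟩ : ∃ j, w = j + 1 := ⟨w - 1, by omega⟩
    rfl
  unfold sqrt2 at hk
  rw [hb] at hk
  have hle : U < 2 * (q * q) := by omega
  have hw1 : (w : ℝ) = 2 * (q * q) - U := by
    rw [hw2, Nat.cast_sub hle.le]
    push_cast
    rfl
  have hq0 : 0 < q := by
    rcases Nat.eq_zero_or_pos q with rfl | h
    · exact absurd hle (Nat.not_lt_zero _)
    · exact h
  refine alg_lin h1 h2 h3 ?_ hk
  have hq : (0 : ℝ) < q := by exact_mod_cast hq0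
  have hw : (0 : ℝ) < w := by exact_mod_cast hw0
  have hcp' : (p : ℝ) < c := by exact_mod_cast hcp
  have ht' := abs_le.1 ht
  have hu0 : 0 ≤ u := by
    have : (0 : ℝ) ≤ u * 2 ^ 40 := by linarith [ht'.1]
    exact nonneg_of_mul_nonneg_left this (by norm_num)
  have hs : √u * 2 ^ 40 * (√u * 2 ^ 40) = (c + L + ρ) * 1099511627776 := by
    have := Real.mul_self_sqrt hu0
    rw [← hu]
    linear_combination (2 ^ 40 * 2 ^ 40) * this
  have hs0 : 0 ≤ √u * 2 ^ 40 := by positivity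
  generalize √u * 2 ^ 40 = s at hs hs0 ⊢
  have hU0' := abs_le.1 hU
  have key := alg_sqrt_real hs0 hq hw hw1 (U := U)
    (by rw [hs, abs_le]; constructor <;> linarith [hU0'.1, hU0'.2, ht'.1, ht'.2])
  have a1 := alg_fl (Nat.mul (Nat.mul U U) q) (Nat.mul 4 (Nat.mul w w))
  have a2 := alg_fl q 2
  have a3 := alg_fl n (Nat.mul 2 q)
  have a4 := (alg_fl (Nat.mul 1099511627776 r) (Nat.mul 2 q)).1
  generalize Nat.div (Nat.mul (Nat.mul U U) q) (Nat.mul 4 (Nat.mul w w)) = E at a1 ⊢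
  generalize Nat.div q 2 = Q2 at a2 ⊢
  generalize Nat.div n (Nat.mul 2 q) = Q3 at a3 ⊢
  generalize Nat.div (Nat.mul 1099511627776 r) (Nat.mul 2 q) = Q4 at a4 ⊢
  rw [← hL, ← le_sub_iff_add_le, abs_le]
  simp only [alg_add, alg_mul] at a1 a3 a4 ⊢
  push_cast at a1 a2 a3 a4 ⊢
  rw [hs, mul_div_assoc] at key
  rw [hn, mul_div_assoc] at a3
  rw [mul_div_right_comm] at a4
  have hκ : (0 : ℝ) ≤ 1099511627776 / (2 * (q : ℝ)) := by positivity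
  generalize 1099511627776 / (2 * (q : ℝ)) = κ at key a3 a4 hκ ⊢
  generalize (U : ℝ) * U * q / (4 * ((w : ℝ) * w)) = E' at key a1
  have a5 := mul_le_mul_of_nonneg_left (abs_le.1 hρ).1 hκ
  have a6 := mul_le_mul_of_nonneg_left (abs_le.1 hρ).2 hκ
  constructor <;> linarith [a1.1, a1.2, a2.1, a2.2, a3.1, a3.2, key.1, key.2]

theorem sqrtK_ok (h1 : |e1| ≤ 1) (h2 : |e2| ≤ 1) (h3 : |e3| ≤ 1)
    (hx : Rep e1 e2 e3 x u) (h : sqrtK x k = true) :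
    ∃ z, Rep e1 e2 e3 z √u ∧ k z = true := by
  obtain ⟨cp, cn, ap, an, bp, bn, dp, dn, r⟩ := x
  obtain ⟨L, ρ, hL, hu, hρ, ht⟩ := alg_split h1 h2 h3 hx
  unfold sqrtK at h
  simp only at h
  cases hb : Nat.ble (Nat.sub cp cn) (rd ap an bp bn dp dn r) <;> rw [hb] at h
  · have hlt := alg_ble_false hb
    have hle : cn ≤ cp := by
      have h0 : 0 < cp - cn := lt_of_le_of_lt (Nat.zero_le _) hlt
      omega
    generalize rt (Nat.mul (Nat.sub cp cn) 1099511627776) = q at h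
    have hn : ((Nat.mul (Nat.sub cp cn) 1099511627776 : ℕ) : ℝ) =
        ((Nat.sub cp cn : ℕ) : ℝ) * 1099511627776 := by
      rw [alg_mul (Nat.sub cp cn) 1099511627776]; norm_num
    generalize Nat.mul (Nat.sub cp cn) 1099511627776 = n at hn h
    refine alg_sqrt2 h1 h2 h3 hlt hL (by rw [alg_sub hle]; exact hu) hρ ht hn ?_ rfl h
    have hU := alg_abs n (Nat.mul q q)
    simp only [alg_add, alg_mul] at hU ⊢
    push_cast
    linarith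
  · exact Bool.noConfusion h

theorem posB_ok (h1 : |e1| ≤ 1) (h2 : |e2| ≤ 1) (h3 : |e3| ≤ 1)
    (hx : Rep e1 e2 e3 x u) (h : posB x = true) : 0 < u := by
  obtain ⟨cp, cn, ap, an, bp, bn, dp, dn, r⟩ := x
  obtain ⟨L, ρ, -, hu, -, ht⟩ := alg_split h1 h2 h3 hx
  have h4 : cn + rd ap an bp bn dp dn r < cp := Nat.le_of_ble_eq_true h
  have h5 : (cn : ℝ) + (rd ap an bp bn dp dn r : ℝ) < cp := by exact_mod_cast h4
  have h6 : (0 : ℝ) < u * 2 ^ 40 := by linarith [(abs_le.1 ht).1]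
  exact (mul_pos_iff_of_pos_right (by norm_num)).1 h6

theorem const_ok (n m : ℕ) :
    Rep e1 e2 e3 ⟨Nat.div (Nat.mul n 1099511627776) m, 0, 0, 0, 0, 0, 0, 0, 1⟩
      ((n : ℝ) / (m : ℝ)) := by
  have a1 := alg_fl (Nat.mul n 1099511627776) m
  rw [alg_mul, mul_div_right_comm] at a1
  unfold Rep
  simp only
  generalize ((Nat.div (Nat.mul n 1099511627776) m : ℕ) : ℝ) = Q at a1 ⊢
  push_cast at a1 ⊢
  rw [abs_le]
  constructor <;> linarith [a1.1, a1.2]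

theorem rng_ok {lo hi m : ℕ} (h1 : (lo : ℝ) / (m : ℝ) ≤ u) (h2 : u ≤ (hi : ℝ) / (m : ℝ)) :
    Rep e1 e2 e3 ⟨Nat.div (Nat.mul (Nat.add lo hi) 549755813888) m, 0, 0, 0, 0, 0, 0, 0,
      Nat.add (Nat.div (Nat.mul (Nat.sub hi lo) 549755813888) m) 2⟩ u := by
  obtain ⟨S, hS, e⟩ : ∃ S : ℕ, (S : ℝ) = 549755813888 ∧ 549755813888 = S := ⟨_, by norm_num, rfl⟩
  rw [e]
  have a1 := alg_fl (Nat.mul (Nat.add lo hi) S) m
  have a2 := (alg_fl (Nat.mul (Nat.sub hi lo) S) m).1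
  rw [alg_mul (Nat.add lo hi) S, mul_div_right_comm, alg_add lo hi, add_div, hS] at a1
  rw [alg_mul (Nat.sub hi lo) S, mul_div_right_comm, hS] at a2
  have a3 : ((hi : ℝ) - lo) / m ≤ ((Nat.sub hi lo : ℕ) : ℝ) / m :=
    div_le_div_of_nonneg_right (alg_sub_ge hi lo) (Nat.cast_nonneg _)
  rw [sub_div] at a3
  generalize Nat.div (Nat.mul (Nat.add lo hi) S) m = Q at a1 ⊢
  generalize Nat.div (Nat.mul (Nat.sub hi lo) S) m = Q' at a2 ⊢
  unfold Rep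
  simp only [alg_add]
  generalize ((Nat.sub hi lo : ℕ) : ℝ) / m = Z at a2 a3
  push_cast
  rw [abs_le]
  constructor <;> linarith [a1.1, a1.2]

end Pool.Agent.P.MP_4c4e6e_co.Eng
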