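import Mathlib

/-! Affine arithmetic in fixed point (scale `2 ^ 40`) and a branch and bound checker.
A signed number is stored as a difference of two natural numbers. -/

namespace Pool.Agent.P.MP_4c4e6e_co.Eng

/-- affine form `(cp - cn) + (ap - an) e₁ + (bp - bn) e₂ + (dp - dn) e₃ ± r` -/
structure AF where
  cp : Nat
  cn : Nat
  ap : Nat
  an : Nat
  bp : Nat
  bn : Nat
  dp : Nat
  dn : Nat
  r : Nat

/-- evaluate a natural number before continuing -/
noncomputable def fN (n : Nat) (k : Nat → Bool) : Bool :=
  Nat.rec (k 0) (fun m _ => k (Nat.succ m)) n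

/-- radius -/
noncomputable def rd (ap an bp bn dp dn r : Nat) : Nat :=
  Nat.add (Nat.add (Nat.add (Nat.sub ap an) (Nat.sub an ap)) (Nat.add (Nat.sub bp bn) (Nat.sub bn bp)))
    (Nat.add (Nat.add (Nat.sub dp dn) (Nat.sub dn dp)) r)

noncomputable def addK (x y : AF) (k : AF → Bool) : Bool :=
  AF.rec (fun cp cn ap an bp bn dp dn r => AF.rec (fun cp' cn' ap' an' bp' bn' dp' dn' r' =>
    k ⟨Nat.add cp cp', Nat.add cn cn', Nat.add ap ap', Nat.add an an', Nat.add bp bp',
      Nat.add bn bn', Nat.add dp dp', Nat.add dn dn', Nat.add r r'⟩) y) x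

noncomputable def subK (x y : AF) (k : AF → Bool) : Bool :=
  AF.rec (fun cp cn ap an bp bn dp dn r => AF.rec (fun cp' cn' ap' an' bp' bn' dp' dn' r' =>
    k ⟨Nat.add cp cn', Nat.add cn cp', Nat.add ap an', Nat.add an ap', Nat.add bp bn',
      Nat.add bn bp', Nat.add dp dn', Nat.add dn dp', Nat.add r r'⟩) y) x

noncomputable def negK (x : AF) (k : AF → Bool) : Bool :=
  AF.rec (fun cp cn ap an bp bn dp dn r => k ⟨cn, cp, an, ap, bn, bp, dn, dp, r⟩) x

/-- linear part multiplied by `n / m`, with given centre and radius -/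
noncomputable def lin (n m cp cn ap an bp bn dp dn r : Nat) (k : AF → Bool) : Bool :=
  k ⟨cp, cn, Nat.div (Nat.mul n ap) m, Nat.div (Nat.mul n an) m, Nat.div (Nat.mul n bp) m,
    Nat.div (Nat.mul n bn) m, Nat.div (Nat.mul n dp) m, Nat.div (Nat.mul n dn) m, r⟩

/-- product with `n / m` -/
noncomputable def smK (n m : Nat) (x : AF) (k : AF → Bool) : Bool :=
  AF.rec (fun cp cn ap an bp bn dp dn r =>
    lin n m (Nat.div (Nat.mul n cp) m) (Nat.div (Nat.mul n cn) m)
      ap an bp bn dp dn (Nat.add (Nat.div (Nat.mul n r) m) 5) k) x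

/-- combination `u * (second linear part) + w * (first linear part)` -/
noncomputable def mm (u w cp cn ap an bp bn dp dn r ap' an' bp' bn' dp' dn' r' t : Nat)
    (k : AF → Bool) : Bool :=
  k ⟨cp, cn, Nat.div (Nat.add (Nat.mul u ap') (Nat.mul w ap)) 1099511627776,
    Nat.div (Nat.add (Nat.mul u an') (Nat.mul w an)) 1099511627776,
    Nat.div (Nat.add (Nat.mul u bp') (Nat.mul w bp)) 1099511627776,
    Nat.div (Nat.add (Nat.mul u bn') (Nat.mul w bn)) 1099511627776,
    Nat.div (Nat.add (Nat.mul u dp') (Nat.mul w dp)) 1099511627776,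
    Nat.div (Nat.add (Nat.mul u dn') (Nat.mul w dn)) 1099511627776,
    Nat.add (Nat.div (Nat.add (Nat.add (Nat.mul u r') (Nat.mul w r)) t) 1099511627776) 5⟩

noncomputable def mulK (x y : AF) (k : AF → Bool) : Bool :=
  AF.rec (fun cp cn ap an bp bn dp dn r => AF.rec (fun cp' cn' ap' an' bp' bn' dp' dn' r' =>
    Bool.rec
      (Bool.rec
        (mm (Nat.sub cn cp) (Nat.sub cn' cp')
          (Nat.div (Nat.mul (Nat.sub cn cp) (Nat.sub cn' cp')) 1099511627776) 0
          an ap bn bp dn dp r an' ap' bn' bp' dn' dp' r'
          (Nat.mul (rd ap an bp bn dp dn r) (rd ap' an' bp' bn' dp' dn' r')) k)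
        (mm (Nat.sub cn cp) (Nat.sub cp' cn')
          0 (Nat.div (Nat.mul (Nat.sub cn cp) (Nat.sub cp' cn')) 1099511627776)
          ap an bp bn dp dn r an' ap' bn' bp' dn' dp' r'
          (Nat.mul (rd ap an bp bn dp dn r) (rd ap' an' bp' bn' dp' dn' r')) k)
        (Nat.ble cn' cp'))
      (Bool.rec
        (mm (Nat.sub cp cn) (Nat.sub cn' cp')
          0 (Nat.div (Nat.mul (Nat.sub cp cn) (Nat.sub cn' cp')) 1099511627776)
          an ap bn bp dn dp r ap' an' bp' bn' dp' dn' r'
          (Nat.mul (rd ap an bp bn dp dn r) (rd ap' an' bp' bn' dp' dn' r')) k)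
        (mm (Nat.sub cp cn) (Nat.sub cp' cn')
          (Nat.div (Nat.mul (Nat.sub cp cn) (Nat.sub cp' cn')) 1099511627776) 0
          ap an bp bn dp dn r ap' an' bp' bn' dp' dn' r'
          (Nat.mul (rd ap an bp bn dp dn r) (rd ap' an' bp' bn' dp' dn' r')) k)
        (Nat.ble cn' cp'))
      (Nat.ble cn cp)) y) x

/-- square, centre of modulus `u`, squared radius `q` -/
noncomputable def sq1 (u q ap an bp bn dp dn r : Nat) (k : AF → Bool) : Bool :=
  lin u 549755813888 (Nat.div (Nat.add (Nat.mul 2 (Nat.mul u u)) q) 2199023255552) 0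
    ap an bp bn dp dn (Nat.add (Nat.div (Nat.add (Nat.mul 4 (Nat.mul u r)) q) 2199023255552) 5) k

noncomputable def sqK (x : AF) (k : AF → Bool) : Bool :=
  AF.rec (fun cp cn ap an bp bn dp dn r =>
    Bool.rec
      (sq1 (Nat.sub cn cp) (Nat.mul (rd ap an bp bn dp dn r) (rd ap an bp bn dp dn r))
        an ap bn bp dn dp r k)
      (sq1 (Nat.sub cp cn) (Nat.mul (rd ap an bp bn dp dn r) (rd ap an bp bn dp dn r))
        ap an bp bn dp dn r k)
      (Nat.ble cn cp)) x

noncomputable def inv2 (c y yy e ap an bp bn dp dn r : Nat) (k : AF → Bool) : Bool :=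
  lin yy 1208925819614629174706176 (Nat.add (Nat.mul 2 y) e) (Nat.div (Nat.mul c yy) 1208925819614629174706176)
    an ap bn bp dn dp (Nat.add (Nat.add (Nat.div (Nat.mul r yy) 1208925819614629174706176) e) 9) k

noncomputable def inv1 (c p y ap an bp bn dp dn r : Nat) (k : AF → Bool) : Bool :=
  inv2 c y (Nat.mul y y)
    (Nat.div (Nat.mul (Nat.add (Nat.mul p y) c) (Nat.add (Nat.mul p y) c))
      (Nat.mul 2417851639229258349412352 (Nat.sub c p))) ap an bp bn dp dn r k

noncomputable def invK (x : AF) (k : AF → Bool) : Bool :=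
  AF.rec (fun cp cn ap an bp bn dp dn r =>
    Bool.rec
      (inv1 (Nat.sub cp cn) (rd ap an bp bn dp dn r) (Nat.div 1208925819614629174706176 (Nat.sub cp cn))
        ap an bp bn dp dn r k)
      false (Nat.ble (Nat.sub cp cn) (rd ap an bp bn dp dn r))) x

/-- one Newton step -/
noncomputable def nw (n q : Nat) : Nat := Nat.div (Nat.add q (Nat.div n q)) 2

noncomputable def sqrt3 (n q t e ap an bp bn dp dn r : Nat) (k : AF → Bool) : Bool :=
  lin 1099511627776 t (Nat.add (Nat.div q 2) (Nat.div n t)) e ap an bp bn dp dn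
    (Nat.add (Nat.add (Nat.div (Nat.mul 1099511627776 r) t) e) 9) k

noncomputable def sqrt2 (n q u w ap an bp bn dp dn r : Nat) (k : AF → Bool) : Bool :=
  Bool.rec
    (sqrt3 n q (Nat.mul 2 q) (Nat.div (Nat.mul (Nat.mul u u) q) (Nat.mul 4 (Nat.mul w w)))
      ap an bp bn dp dn r k)
    false (Nat.ble w 0)

noncomputable def sqrt1 (n q qq u ap an bp bn dp dn r : Nat) (k : AF → Bool) : Bool :=
  sqrt2 n q u (Nat.sub (Nat.mul 2 qq) u) ap an bp bn dp dn r k

noncomputable def sqrt0 (n q p ap an bp bn dp dn r : Nat) (k : AF → Bool) : Bool :=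
  sqrt1 n q (Nat.mul q q)
    (Nat.add (Nat.mul p 1099511627776)
      (Nat.add (Nat.sub n (Nat.mul q q)) (Nat.sub (Nat.mul q q) n))) ap an bp bn dp dn r k

/-- approximate square root -/
noncomputable def rt (n : Nat) : Nat :=
  nw n (nw n (nw n (Nat.pow 2 (Nat.div (Nat.succ (Nat.log2 n)) 2))))

noncomputable def sqrtK (x : AF) (k : AF → Bool) : Bool :=
  AF.rec (fun cp cn ap an bp bn dp dn r =>
    Bool.rec
      (sqrt0 (Nat.mul (Nat.sub cp cn) 1099511627776) (rt (Nat.mul (Nat.sub cp cn) 1099511627776))
        (rd ap an bp bn dp dn r) ap an bp bn dp dn r k)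
      false (Nat.ble (Nat.sub cp cn) (rd ap an bp bn dp dn r))) x

/-- Taylor polynomial of `sin` of degree 13, scaled -/
noncomputable def sinP (m y z : Nat) : Nat :=
  Nat.div (Nat.mul m (Nat.sub
    (Nat.add (Nat.mul (Nat.add (Nat.mul (Nat.add z 25079368096598294076375231729411416617295802437468160) z) 110840297510082118650029283173077411202625206641407848473648691586453374455052874519303544941378891939840) z) 19439193155187530197451618687144426283755680205216142787799908258051950025362847967614044606143308225045242424493166366027710769872822281798603296787660800)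
    (Nat.mul (Nat.add (Nat.mul (Nat.add (Nat.mul 188592427859882151254163456 z) 2182974885474989406886755728117890684675172904267764735138406893821057585643520) z) 2679953950274107332581012254530255434016344004971344277040930448482204797961568011542608318583127750536377153110045945733369036800) y)))
    19439193155187530197451618687144426283755680205216142787799908258051950025362847967614044606143308225045242424493166366027710769872822281798603296787660800

/-- even index terms of the Taylor polynomial of `cos` of degree 14, scaled -/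
noncomputable def cosA (z : Nat) : Nat :=
  Nat.div
    (Nat.add (Nat.mul (Nat.add (Nat.mul (Nat.add (Nat.mul 220024499169862509796524032 z) 3820206049581231462051822524206308698181552582468588286492212064186850774876160) z) 9379838825959375664033542890855894019057204017399704969643256569687716792865488040399129115040947126877320035885160810066791628800) z) 329007595248950440038556018002089289156256393160923828932433655994087654754778841220910083127640307770963238074022739429103834840061827806221055317061053592894354896519032943411200)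
    299230664721972461883120575295915195198409849727726240355362875556318299236207932354691441221475822904688573611586197720593040539881101545889628429959933412550849331200

/-- odd index terms of the Taylor polynomial of `cos` of degree 14, scaled -/
noncomputable def cosB (y z : Nat) : Nat :=
  Nat.div
    (Nat.mul (Nat.add (Nat.mul (Nat.add (Nat.mul (Nat.add z 35111115335237611706925324421175983264214123412455424) z) 258627360856858276850068327403847292806125482163284979771846947035057873728456707211708271529884081192960) z) 136074352086312711382161330810010983986289761436512999514599357806363650177539935773298312243003157575316696971452164562193975389109755972590223077513625600) y)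
    299230664721972461883120575295915195198409849727726240355362875556318299236207932354691441221475822904688573611586197720593040539881101545889628429959933412550849331200

/-- `f (c + t) = s cos t + o sin t` with `s = sp - sn`; `p` is the radius and `q` its square -/
noncomputable def trig (sp sn o p q ap an bp bn dp dn r : Nat) (k : AF → Bool) : Bool :=
  lin o 1099511627776 (Nat.add sp (Nat.div (Nat.mul sn q) 4835703278458516698824704))
    (Nat.add sn (Nat.div (Nat.mul sp q) 4835703278458516698824704)) ap an bp bn dp dn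
    (Nat.add (Nat.add (Nat.div (Nat.mul o r) 1099511627776)
      (Nat.div (Nat.mul q (Nat.add (Nat.mul 3 (Nat.add sp sn)) (Nat.mul 2 p))) 14507109835375550096474112))
      200000) k

noncomputable def sin1 (sp sn u w p ap an bp bn dp dn r : Nat) (k : AF → Bool) : Bool :=
  Bool.rec
    (trig sp sn (Nat.sub w u) p (Nat.mul p p) an ap bn bp dn dp r k)
    (trig sp sn (Nat.sub u w) p (Nat.mul p p) ap an bp bn dp dn r k)
    (Nat.ble w u)

/-- modulus of the centre, its square and fourth power, and the radius -/
noncomputable def pre (cp cn p : Nat) (k : Nat → Nat → Nat → Bool) : Bool :=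
  fN (Nat.add (Nat.sub cp cn) (Nat.sub cn cp)) fun m =>
    Bool.rec false
      (Bool.rec false (k m (Nat.mul m m) (Nat.mul (Nat.mul m m) (Nat.mul m m)))
        (Nat.ble p 1099511627776))
      (Nat.ble m 2199023255552)

noncomputable def sinK (x : AF) (k : AF → Bool) : Bool :=
  AF.rec (fun cp cn ap an bp bn dp dn r =>
    pre cp cn (rd ap an bp bn dp dn r) fun m y z =>
      Bool.rec
        (sin1 0 (sinP m y z) (cosA z) (cosB y z) (rd ap an bp bn dp dn r) ap an bp bn dp dn r k)
        (sin1 (sinP m y z) 0 (cosA z) (cosB y z) (rd ap an bp bn dp dn r) ap an bp bn dp dn r k)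
        (Nat.ble cn cp)) x

noncomputable def cos1 (u w o p ap an bp bn dp dn r : Nat) (k : AF → Bool) : Bool :=
  trig (Nat.sub u w) (Nat.sub w u) o p (Nat.mul p p) ap an bp bn dp dn r k

noncomputable def cosK (x : AF) (k : AF → Bool) : Bool :=
  AF.rec (fun cp cn ap an bp bn dp dn r =>
    pre cp cn (rd ap an bp bn dp dn r) fun m y z =>
      Bool.rec
        (cos1 (cosA z) (cosB y z) (sinP m y z) (rd ap an bp bn dp dn r) ap an bp bn dp dn r k)
        (cos1 (cosA z) (cosB y z) (sinP m y z) (rd ap an bp bn dp dn r) an ap bn bp dn dp r k)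
        (Nat.ble cn cp)) x

/-- expressions -/
inductive E where
  | v (i : Nat)
  | c (n m : Nat)
  | add (x y : E)
  | sub (x y : E)
  | mul (x y : E)
  | neg (x : E)
  | sm (n m : Nat) (x : E)
  | sq (x : E)
  | inv (x : E)
  | sqrt (x : E)
  | sin (x : E)
  | cos (x : E)

/-- programs -/
inductive Pg where
  | tru
  | fls
  | lt (e : E) (p : Pg)
  | rng (lo hi m : Nat) (p : Pg)
  | ite (e : E) (p q : Pg)
  | or (p q : Pg)

noncomputable def getK (l : List AF) : Nat → (AF → Bool) → Bool :=
  List.rec (fun _ _ => false)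
    (fun x _ ih n k => Nat.rec (k x) (fun m _ => ih m k) n) l

noncomputable def evK (env : List AF) (e : E) : (AF → Bool) → Bool :=
  E.rec (motive := fun _ => (AF → Bool) → Bool)
    (fun i k => getK env i k)
    (fun n m k => k ⟨Nat.div (Nat.mul n 1099511627776) m, 0, 0, 0, 0, 0, 0, 0, 1⟩)
    (fun _ _ f g k => f fun x => g fun y => addK x y k)
    (fun _ _ f g k => f fun x => g fun y => subK x y k)
    (fun _ _ f g k => f fun x => g fun y => mulK x y k)
    (fun _ f k => f fun x => negK x k)
    (fun n m _ f k => f fun x => smK n m x k)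
    (fun _ f k => f fun x => sqK x k)
    (fun _ f k => f fun x => invK x k)
    (fun _ f k => f fun x => sqrtK x k)
    (fun _ f k => f fun x => sinK x k)
    (fun _ f k => f fun x => cosK x k) e

noncomputable def posB (x : AF) : Bool :=
  AF.rec (fun cp cn ap an bp bn dp dn r =>
    Nat.ble (Nat.succ (Nat.add cn (rd ap an bp bn dp dn r))) cp) x

noncomputable def run (p : Pg) : List AF → Bool :=
  Pg.rec (motive := fun _ => List AF → Bool)
    (fun _ => true) (fun _ => false)
    (fun e _ f env => evK env e fun x => f (x :: env))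
    (fun lo hi m _ f env =>
      f (⟨Nat.div (Nat.mul (Nat.add lo hi) 549755813888) m, 0, 0, 0, 0, 0, 0, 0,
        Nat.add (Nat.div (Nat.mul (Nat.sub hi lo) 549755813888) m) 2⟩ :: env))
    (fun e _ _ f g env => Bool.rec (g env) true (evK env e fun x => Bool.rec false (f env) (posB x)))
    (fun _ _ f g env => Bool.rec (g env) true (f env)) p

/-- Branch and bound along a certificate in base 4 on the box with lower corner `l` and
half widths `g`; the continuation gets the unused certificate. -/
noncomputable def bb (p : Pg) (fuel : Nat) :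
    Nat → Nat → Nat → Nat → Nat → Nat → Nat → (Nat → Bool) → Bool :=
  Nat.rec (fun _ _ _ _ _ _ _ _ => false)
    (fun _ ih w l1 g1 l2 g2 l3 g3 k =>
      fN (Nat.div w 4) fun w' =>
      Nat.rec
        (Bool.rec false (k w')
          (run p [⟨Nat.add l3 g3, 0, 0, 0, 0, 0, g3, 0, 0⟩, ⟨Nat.add l2 g2, 0, 0, 0, g2, 0, 0, 0, 0⟩,
            ⟨Nat.add l1 g1, 0, g1, 0, 0, 0, 0, 0, 0⟩]))
        (fun j _ => Nat.rec
          (fN (Nat.div (Nat.succ g1) 2) fun g => fN (Nat.add l1 g1) fun hi =>
            ih w' l1 g l2 g2 l3 g3 fun w'' => ih w'' hi g l2 g2 l3 g3 k)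
          (fun j _ => Nat.rec
            (fN (Nat.div (Nat.succ g2) 2) fun g => fN (Nat.add l2 g2) fun hi =>
              ih w' l1 g1 l2 g l3 g3 fun w'' => ih w'' l1 g1 hi g l3 g3 k)
            (fun _ _ =>
              fN (Nat.div (Nat.succ g3) 2) fun g => fN (Nat.add l3 g3) fun hi =>
              ih w' l1 g1 l2 g2 l3 g fun w'' => ih w'' l1 g1 l2 g2 hi g k) j) j)
        (Nat.mod w 4)) fuel

end Pool.Agent.P.MP_4c4e6e_co.Eng
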