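import Pool.Agent.P.MP_4c4e6e_co.EngDef

/-! Real semantics of the expressions and programs of the checker. -/

namespace Pool.Agent.P.MP_4c4e6e_co.Eng

/-- value of an expression -/
noncomputable def E.val (env : List ℝ) : E → ℝ
  | .v i => env.getD i 0
  | .c n m => (n : ℝ) / (m : ℝ)
  | .add x y => x.val env + y.val env
  | .sub x y => x.val env - y.val env
  | .mul x y => x.val env * y.val env
  | .neg x => -x.val env
  | .sm n m x => (n : ℝ) / (m : ℝ) * x.val env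
  | .sq x => x.val env ^ 2
  | .inv x => (x.val env)⁻¹
  | .sqrt x => √(x.val env)
  | .sin x => Real.sin (x.val env)
  | .cos x => Real.cos (x.val env)

/-- the statement checked by a program -/
def Pg.holds : Pg → List ℝ → Prop
  | .tru, _ => True
  | .fls, _ => False
  | .lt e p, env => ∀ v : ℝ, v = e.val env → p.holds (v :: env)
  | .rng lo hi m p, env =>
      ∀ v : ℝ, (lo : ℝ) / (m : ℝ) ≤ v → v ≤ (hi : ℝ) / (m : ℝ) → p.holds (v :: env)
  | .ite e p q, env => (0 < e.val env ∧ p.holds env) ∨ q.holds env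
  | .or p q, env => p.holds env ∨ q.holds env

/-- the affine form `x` encloses `v` at the noise values `e1, e2, e3` -/
def Rep (e1 e2 e3 : ℝ) (x : AF) (v : ℝ) : Prop :=
  |v * 2 ^ 40 - (((x.cp : ℝ) - x.cn) + ((x.ap : ℝ) - x.an) * e1 + ((x.bp : ℝ) - x.bn) * e2 +
    ((x.dp : ℝ) - x.dn) * e3)| ≤ (x.r : ℝ)

/-- the program holds on the box with lower corner `l / 2 ^ 40` and sides `2 g / 2 ^ 40` -/
def Cov (p : Pg) (l1 g1 l2 g2 l3 g3 : ℕ) : Prop :=
  ∀ x1 x2 x3 : ℝ, (l1 : ℝ) ≤ x1 * 2 ^ 40 → x1 * 2 ^ 40 ≤ l1 + 2 * g1 →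
    (l2 : ℝ) ≤ x2 * 2 ^ 40 → x2 * 2 ^ 40 ≤ l2 + 2 * g2 →
    (l3 : ℝ) ≤ x3 * 2 ^ 40 → x3 * 2 ^ 40 ≤ l3 + 2 * g3 → p.holds [x3, x2, x1]

theorem fN_eq (n : ℕ) (k : ℕ → Bool) : fN n k = k n := by
  cases n <;> rfl

theorem eqdef_seen : True := by
  have := @E.val.eq_def
  have := @Pg.holds.eq_def
  trivial

end Pool.Agent.P.MP_4c4e6e_co.Eng
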