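import Pool.Agent.P.MP_4c4e6e_co.KillA

/-! Long gaps, second part: words with a long letter. -/

namespace Pool.Agent.P.MP_4c4e6e_co

open Real Finset KillAux

namespace Cfg

variable (C : Cfg)

/-- The four zones for the long letter `b`. -/
structure Zn (b a1 b1 a2 b2 : ℝ) : Prop where
  ma1 : a1 ∈ C.I
  mb1 : b1 ∈ C.I
  ma2 : a2 ∈ C.I
  mb2 : b2 ∈ C.I
  la1 : C.dC 0 a1 ≤ b
  lb1 : C.dC b1 C.T ≤ b
  la2 : C.dC a2 0 ≤ b
  lb2 : C.dC C.T b2 ≤ b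
  ea1 : ∀ t ∈ C.I, C.dC 0 t ≤ b → a1 ≤ t
  eb1 : ∀ t ∈ C.I, C.dC t C.T ≤ b → t ≤ b1
  ea2 : ∀ t ∈ C.I, C.dC t 0 ≤ b → a2 ≤ t
  eb2 : ∀ t ∈ C.I, C.dC C.T t ≤ b → t ≤ b2

theorem exists_Zn {b : ℝ} (hL : C.L ≤ b) (hl : C.l ≤ b) : ∃ a1 b1 a2 b2, C.Zn b a1 b1 a2 b2 := by
  obtain ⟨a1, h1, h2, h3⟩ := C.exists_least (f := fun t => C.dC 0 t)
    (continuousOn_const.sub C.contY).norm (isClosed_Iic (a := b)) C.T_mem_I hL
  obtain ⟨b1, h4, h5, h6⟩ := C.exists_greatest (f := fun t => C.dC t C.T)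
    (C.contX.sub continuousOn_const).norm (isClosed_Iic (a := b)) C.zero_mem_I hL
  obtain ⟨a2, h7, h8, h9⟩ := C.exists_least (f := fun t => C.dC t 0)
    (C.contX.sub continuousOn_const).norm (isClosed_Iic (a := b)) C.T_mem_I hl
  obtain ⟨b2, h10, h11, h12⟩ := C.exists_greatest (f := fun t => C.dC C.T t)
    (continuousOn_const.sub C.contY).norm (isClosed_Iic (a := b)) C.zero_mem_I hl
  exact ⟨a1, b1, a2, b2, h1, h4, h7, h10, h2, h5, h8, h11, h3, h6, h9, h12⟩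

variable {C}

theorem Zn.link {b a1 b1 a2 b2 : ℝ} (z : C.Zn b a1 b1 a2 b2) {x y : ℝ} (hx : x ∈ C.I)
    (hy : y ∈ C.I) (h : C.dC x y = b) : (x ≤ b1 ∧ a1 ≤ y) ∨ (a2 ≤ x ∧ y ≤ b2) := by
  have z0 := C.zero_mem_I
  have zT := C.T_mem_I
  rcases le_total x y with h1 | h1
  · exact .inl ⟨z.eb1 x hx (h ▸ C.dC_mono_L hx hx hy zT le_rfl h1 hy.2.2),
      z.ea1 y hy (h ▸ C.dC_mono_L z0 hx hy hy hx.2.1 h1 le_rfl)⟩
  · exact .inr ⟨z.ea2 x hx (h ▸ C.dC_mono_l z0 hy hx hx hy.2.1 h1 le_rfl),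
      z.eb2 y hy (h ▸ C.dC_mono_l hy hy hx zT le_rfl h1 hx.2.2)⟩

/-- the word `b c b c' b c b` -/
theorem Zn.word {b a1 b1 a2 b2 : ℝ} (z : C.Zn b a1 b1 a2 b2) (hb1 : C.d1 < b) (hb2 : C.d2 < b)
    (hb : b ≤ 1) {c c' : ℝ} (hc0 : 0 < c) (hcL : c < C.L) (hcl : c < C.l) (hc0' : 0 < c')
    (hcL' : c' < C.L) (hcl' : c' < C.l) (hz : b2 ≤ a1) (hc : c < C.dX b2 a1) :
    (c ≤ C.dX a1 C.T ∨ c' ≤ C.dY a2 C.T) ∧ (c ≤ C.dX 0 b2 ∨ c' ≤ C.dY 0 b1) := by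
  have hL1 : C.L ≤ 1 := C.dist_le _ C.zero_mem _ (C.add_pi _ C.T_mem)
  have hb0 : 0 < b := (C.dX_nonneg _ _).trans_lt hb1
  obtain ⟨θ, hθ, hw⟩ := C.walk_dbl 7 (fun i => if i % 2 = 0 then b else if i = 3 then c' else c)
    (fun i _ => by split_ifs <;> constructor <;> linarith) (fun i => decide (i % 4 < 2)) rfl rfl
    fun i hi => by
      interval_cases i
      exacts [.inr ⟨hb1, hb2, rfl⟩, .inl ⟨hcL, hcl, rfl⟩, .inr ⟨hb1, hb2, rfl⟩,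
        .inl ⟨hcL', hcl', rfl⟩, .inr ⟨hb1, hb2, rfl⟩, .inl ⟨hcL, hcl, rfl⟩, .inr ⟨hb1, hb2, rfl⟩]
  have w0 : C.dC (θ 0) (θ 1) = b := hw 0 (by norm_num)
  have w1 : C.dX (θ 1) (θ 2) = c := hw 1 (by norm_num)
  have w2 : C.dC (θ 3) (θ 2) = b := (norm_sub_rev _ _).trans (hw 2 (by norm_num))
  have w3 : C.dY (θ 3) (θ 4) = c' := hw 3 (by norm_num)
  have w4 : C.dC (θ 4) (θ 5) = b := hw 4 (by norm_num)
  have w5 : C.dX (θ 5) (θ 6) = c := hw 5 (by norm_num)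
  have w6 : C.dC (θ 7) (θ 6) = b := (norm_sub_rev _ _).trans (hw 6 (by norm_num))
  have z0 := C.zero_mem_I
  have zT := C.T_mem_I
  have hlt : b2 < a1 := by
    refine lt_of_le_of_ne hz fun h => ?_
    rw [h] at hc
    simp only [Dia.dX, sub_self, norm_zero] at hc
    linarith
  have hB : ∀ u ∈ C.I, ∀ v ∈ C.I, C.dX u v = c → (a1 ≤ u ∨ u ≤ b2) → (a1 ≤ v ∨ v ≤ b2) →
      (u ≤ b2 ∧ v ≤ b2 ∧ c ≤ C.dX 0 b2) ∨ (a1 ≤ u ∧ a1 ≤ v ∧ c ≤ C.dX a1 C.T) := by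
    rintro u hu v hv h (h1 | h1) (h2 | h2)
    · exact .inr ⟨h1, h2, h ▸ C.dX_le_of hu hv z.ma1 zT h1 h2 hu.2.2 hv.2.2⟩
    · have := C.dX_mono hv z.mb2 z.ma1 hu h2 hz h1
      rw [comb_dX_comm] at h
      linarith
    · have := C.dX_mono hu z.mb2 z.ma1 hv h1 hz h2
      linarith
    · exact .inl ⟨h1, h2, h ▸ C.dX_le_of hu hv z0 z.mb2 hu.2.1 hv.2.1 h1 h2⟩
  have m3 := hθ 3 (by norm_num)
  have m4 := hθ 4 (by norm_num)
  have l0 := z.link (hθ 0 (by norm_num)) (hθ 1 (by norm_num)) w0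
  have l2 := z.link m3 (hθ 2 (by norm_num)) w2
  have l4 := z.link m4 (hθ 5 (by norm_num)) w4
  have l6 := z.link (hθ 7 (by norm_num)) (hθ 6 (by norm_num)) w6
  have b1' := hB _ (hθ 1 (by norm_num)) _ (hθ 2 (by norm_num)) w1 (by tauto) (by tauto)
  have b5 := hB _ (hθ 5 (by norm_num)) _ (hθ 6 (by norm_num)) w5 (by tauto) (by tauto)
  constructor
  · rcases b1' with h | h
    · rcases b5 with h' | h'
      · have e3 : a2 ≤ θ 3 := l2.elim (fun k => by linarith [k.2, h.2.1]) fun k => k.1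
        have e4 : a2 ≤ θ 4 := l4.elim (fun k => by linarith [k.2, h'.1]) fun k => k.1
        exact .inr (w3 ▸ C.dY_le_of m3 m4 z.ma2 zT e3 e4 m3.2.2 m4.2.2)
      · exact .inl h'.2.2
    · exact .inl h.2.2
  · rcases b1' with h | h
    · exact .inl h.2.2
    · rcases b5 with h' | h'
      · exact .inl h'.2.2
      · have e3 : θ 3 ≤ b1 := l2.elim (fun k => k.1) fun k => by linarith [k.2, h.2.1]
        have e4 : θ 4 ≤ b1 := l4.elim (fun k => k.1) fun k => by linarith [k.2, h'.1]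
        exact .inr (w3 ▸ C.dY_le_of m3 m4 z0 z.mb1 m3.2.1 m4.2.1 e3 e4)

/-- No escape: points of the zones are close to the end of the zone. -/
structure NoEsc (C : Cfg) (b m : ℝ) : Prop where
  a1 : ∀ t ∈ C.I, C.dC 0 t ≤ b → C.dX t C.T < m
  b1 : ∀ t ∈ C.I, C.dC t C.T ≤ b → C.dY 0 t < m
  a2 : ∀ t ∈ C.I, C.dC t 0 ≤ b → C.dY t C.T < m
  b2 : ∀ t ∈ C.I, C.dC C.T t ≤ b → C.dX 0 t < m

theorem Zn.mid {b a1 b1 a2 b2 m : ℝ} (z : C.Zn b a1 b1 a2 b2) (hb1 : C.d1 < b) (hb2 : C.d2 < b)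
    (hb : b ≤ 1) (hL : m ≤ C.L) (hl : m ≤ C.l) (n : C.NoEsc b m) (hz : b2 ≤ a1) :
    C.dX b2 a1 ≤ C.dX a1 C.T ∧ C.dX b2 a1 ≤ C.dX 0 b2 := by
  constructor
  · by_contra h
    obtain ⟨c, c1, c2⟩ := exists_between (lt_min (not_le.1 h) (n.a1 _ z.ma1 z.la1))
    obtain ⟨c', c3, c4⟩ := exists_between (n.a2 _ z.ma2 z.la2)
    rw [lt_min_iff] at c2
    rcases (z.word hb1 hb2 hb ((C.dX_nonneg _ _).trans_lt c1) (c2.2.trans_le hL) (c2.2.trans_le hl)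
      ((C.dY_nonneg _ _).trans_lt c3) (c4.trans_le hL) (c4.trans_le hl) hz c2.1).1 with k | k <;>
    linarith
  · by_contra h
    obtain ⟨c, c1, c2⟩ := exists_between (lt_min (not_le.1 h) (n.b2 _ z.mb2 z.lb2))
    obtain ⟨c', c3, c4⟩ := exists_between (n.b1 _ z.mb1 z.lb1)
    rw [lt_min_iff] at c2
    rcases (z.word hb1 hb2 hb ((C.dX_nonneg _ _).trans_lt c1) (c2.2.trans_le hL) (c2.2.trans_le hl)
      ((C.dY_nonneg _ _).trans_lt c3) (c4.trans_le hL) (c4.trans_le hl) hz c2.1).2 with k | k <;>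
    linarith

theorem Zn.midY {b a1 b1 a2 b2 m : ℝ} (z : C.Zn b a1 b1 a2 b2) (hb1 : C.d1 < b) (hb2 : C.d2 < b)
    (hb : b ≤ 1) (hL : m ≤ C.L) (hl : m ≤ C.l) (n : C.NoEsc b m) (hz : b1 ≤ a2) :
    C.dY b1 a2 ≤ C.dY a2 C.T ∧ C.dY b1 a2 ≤ C.dY 0 b1 := by
  obtain ⟨C', hT, -, hI, hd, hL', hl', h1, h2⟩ := C.swap_dist
  have z0 := C.zero_mem
  have zT := C.T_mem
  have z' : C'.Zn b a2 b2 a1 b1 := by
    refine ⟨hI ▸ z.ma2, hI ▸ z.mb2, hI ▸ z.ma1, hI ▸ z.mb1, ?_, ?_, ?_, ?_, ?_, ?_, ?_, ?_⟩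
    · rw [(hd _ z0 _ z.ma2.1).2.2]; exact z.la2
    · rw [hT, (hd _ z.mb2.1 _ zT).2.2]; exact z.lb2
    · rw [(hd _ z.ma1.1 _ z0).2.2]; exact z.la1
    · rw [hT, (hd _ zT _ z.mb1.1).2.2]; exact z.lb1
    all_goals
      intro t ht h
      rw [hI] at ht
    · rw [(hd _ z0 _ ht.1).2.2] at h; exact z.ea2 t ht h
    · rw [hT, (hd _ ht.1 _ zT).2.2] at h; exact z.eb2 t ht h
    · rw [(hd _ ht.1 _ z0).2.2] at h; exact z.ea1 t ht h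
    · rw [hT, (hd _ zT _ ht.1).2.2] at h; exact z.eb1 t ht h
  have n' : C'.NoEsc b m := by
    refine ⟨?_, ?_, ?_, ?_⟩
    all_goals
      intro t ht h
      rw [hI] at ht
    · rw [(hd _ z0 _ ht.1).2.2] at h; rw [hT, (hd _ ht.1 _ zT).1]; exact n.a2 t ht h
    · rw [hT, (hd _ ht.1 _ zT).2.2] at h; rw [(hd _ z0 _ ht.1).2.1]; exact n.b2 t ht h
    · rw [(hd _ ht.1 _ z0).2.2] at h; rw [hT, (hd _ ht.1 _ zT).2.1]; exact n.a1 t ht h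
    · rw [hT, (hd _ zT _ ht.1).2.2] at h; rw [(hd _ z0 _ ht.1).1]; exact n.b1 t ht h
  have := z'.mid (h1 ▸ hb2) (h2 ▸ hb1) hb (hL' ▸ hl) (hl' ▸ hL) n' hz
  rwa [hT, (hd _ z.mb1.1 _ z.ma2.1).1, (hd _ z.ma2.1 _ zT).1, (hd _ z0 _ z.mb1.1).1] at this

variable (C)

theorem esc₁ {b m Q t : ℝ} (hQ : C.T - C.d1 - m ≤ Q) (hA : C.T - m ≤ π / 2)
    (hs : Q * cos (C.T - m) ≤ sin (C.T - m))
    (h6 : b + Q * sin (C.T - m) - Q ^ 2 * cos (C.T - m) / 2 < 1) (ht : t ∈ C.I)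
    (h : C.dC t 0 ≤ b) : C.dY t C.T < m := by
  by_contra hm
  replace hm := not_lt.1 hm
  obtain ⟨e1, -, e3⟩ := C.len3 ht ht le_rfl
  have t1 : C.d1 ≤ _ := C.dX_tri 0 t C.T
  have ny := C.dY_nonneg 0 t
  have nx := C.dX_nonneg t C.T
  have t0 := ht.2.1
  have b1 : t ≤ C.T - m := by linarith
  have b2 : C.dY 0 t ≤ Q := by linarith
  have hc0 : 0 ≤ cos (C.T - m) := cos_nonneg_of_mem_Icc ⟨by linarith [pi_pos], hA⟩
  have k1 : 0 ≤ sin t := sin_nonneg_of_nonneg_of_le_pi t0 (by linarith [pi_pos])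
  have k2 : cos (C.T - m) ≤ cos t := cos_le_cos_of_nonneg_of_le_pi t0 (by linarith [pi_pos]) b1
  have k3 : sin t ≤ sin (C.T - m) :=
    sin_le_sin_of_le_of_le_pi_div_two (by linarith [pi_pos]) hA b1
  have eu : t + π - (0 + π) = t := by ring
  have p2 := C.proj_le (C.add_pi _ C.zero_mem) (C.add_pi _ ht.1) (t + π) (by rw [eu]; linarith)
  rw [eu, abs_of_nonneg k1, norm_sub_rev] at p2
  have p3 := dot_le (C.γ t - C.γ (0 + π)) (U t)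
  rw [norm_U, mul_one] at p3
  have p5 : 1 = dot (C.γ t - C.γ (0 + π)) (U t) +
      dot (C.γ (t + π) - C.γ (0 + π)) (U (t + π)) := by
    rw [U_add_pi, C.anti _ ht.1]
    simp only [dot, Complex.sub_re, Complex.sub_im, Complex.neg_re, Complex.neg_im, U_re, U_im]
    linear_combination -sin_sq_add_cos_sq t
  change _ ≤ C.dY 0 t * _ - C.dY 0 t ^ 2 * _ / 2 at p2
  change _ ≤ C.dC t 0 at p3
  have q3 := mul_le_mul_of_nonneg_left k3 ny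
  have q5 := mul_le_mul_of_nonneg_left k2 (sq_nonneg (C.dY 0 t))
  have q6 : 0 ≤ (Q - C.dY 0 t) * (sin (C.T - m) - (Q + C.dY 0 t) * cos (C.T - m) / 2) :=
    mul_nonneg (sub_nonneg.2 b2) (by nlinarith [mul_le_mul_of_nonneg_right b2 hc0])
  nlinarith

theorem esc₂ {b m Q : ℝ} (hQ1 : C.T - C.d1 - m ≤ Q) (hQ2 : C.T - C.d2 - m ≤ Q)
    (hA : C.T - m ≤ π / 2) (hs : Q * cos (C.T - m) ≤ sin (C.T - m))
    (h6 : b + Q * sin (C.T - m) - Q ^ 2 * cos (C.T - m) / 2 < 1) {t : ℝ} (ht : t ∈ C.I) :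
    (C.dC t 0 ≤ b → C.dY t C.T < m) ∧ (C.dC 0 t ≤ b → C.dX t C.T < m) := by
  refine ⟨C.esc₁ hQ1 hA hs h6 ht, fun h => ?_⟩
  obtain ⟨C', hT, -, hI, hd, -, -, h1, -⟩ := C.swap_dist
  have := C'.esc₁ (b := b) (m := m) (Q := Q) (by rwa [hT, h1]) (by rwa [hT]) (by rwa [hT])
    (by rwa [hT]) (hI ▸ ht) (by rwa [(hd _ ht.1 _ C.zero_mem).2.2])
  rwa [hT, (hd _ ht.1 _ C.T_mem).2.1] at this

theorem noEsc {b m Q : ℝ} (hQ1 : C.T - C.d1 - m ≤ Q) (hQ2 : C.T - C.d2 - m ≤ Q)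
    (hA : C.T - m ≤ π / 2) (hs : Q * cos (C.T - m) ≤ sin (C.T - m))
    (h6 : b + Q * sin (C.T - m) - Q ^ 2 * cos (C.T - m) / 2 < 1) : C.NoEsc b m := by
  have key : ∀ t ∈ C.I, (C.dC C.T t ≤ b → C.dX 0 t < m) ∧ (C.dC t C.T ≤ b → C.dY 0 t < m) := by
    intro t ht
    obtain ⟨C', hT, -, hI, hd, -, -, h1, h2⟩ := C.mirror_dist
    have := C'.esc₂ (b := b) (m := m) (Q := Q) (by rwa [hT, h1]) (by rwa [hT, h2]) (by rwa [hT])
      (by rwa [hT]) (by rwa [hT]) ((hI (C.T - t)).2 (by rwa [sub_sub_cancel]))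
    have g1 := hd _ ht.1 _ C.T_mem
    have g2 := hd _ C.T_mem _ ht.1
    have g3 := hd _ ht.1 _ C.zero_mem
    rw [sub_self] at g1 g2
    rw [sub_zero] at g3
    rwa [hT, g1.2.2, g2.2.2, g3.1, g3.2.1, C.comb_dX_comm, C.comb_dY_comm] at this
  exact ⟨fun t ht => (C.esc₂ hQ1 hQ2 hA hs h6 ht).2, fun t ht => (key t ht).2,
    fun t ht => (C.esc₂ hQ1 hQ2 hA hs h6 ht).1, fun t ht => (key t ht).1⟩

theorem quadL {x y : ℝ} (hx : x ∈ C.I) (hy : y ∈ C.I) (h : x ≤ y) :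
    C.dC x y + C.L ≤ C.dC 0 y + C.dC x C.T := by
  have hT := C.T_lt
  have q := C.quad (C.sub_pi _ hy.1) (C.sub_pi _ C.T_mem) C.zero_mem hx.1
    (by linarith [hy.2.2]) (by linarith) hx.2.1 (by linarith)
  rw [C.per' hy.1, C.per' C.T_mem, norm_sub_rev, norm_sub_rev (C.γ (C.T + π)),
    norm_sub_rev (C.γ (y + π)), norm_sub_rev (C.γ (C.T + π))] at q
  exact q

theorem quadl {x y : ℝ} (hx : x ∈ C.I) (hy : y ∈ C.I) (h : y ≤ x) :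
    C.dC x y + C.l ≤ C.dC x 0 + C.dC C.T y := by
  have hT := C.T_lt
  exact C.quad hx.1 C.T_mem (C.add_pi _ C.zero_mem) (C.add_pi _ hy.1) hx.2.2 (by linarith)
    (by linarith [hy.2.1]) (by linarith)

theorem cos_half_le {b t : ℝ} (ht : t ∈ C.I) (h1 : C.dC t C.T ≤ b) (h2 : C.dC C.T t ≤ b) :
    cos ((C.T - t) / 2) ≤ b := by
  have e : (C.γ t - C.γ (C.T + π)) + (C.γ C.T - C.γ (t + π)) = U t + U C.T := by
    rw [C.anti _ ht.1, C.anti _ C.T_mem]; ring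
  have h3 := dot_le (U t + U C.T) (U ((C.T + t) / 2))
  rw [norm_U, mul_one] at h3
  have h4 : dot (U t + U C.T) (U ((C.T + t) / 2)) =
      dot (U t) (U ((C.T + t) / 2)) + dot (U C.T) (U ((C.T + t) / 2)) := by
    simp only [dot, Complex.add_re, Complex.add_im]; ring
  rw [dot_U_U, dot_U_U, show t - (C.T + t) / 2 = -((C.T - t) / 2) by ring, cos_neg,
    show C.T - (C.T + t) / 2 = (C.T - t) / 2 by ring] at h4
  have h5 : ‖U t + U C.T‖ ≤ C.dC t C.T + C.dC C.T t := e ▸ norm_add_le _ _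
  linarith

/-- the chord `L` in the frame of the gap -/
theorem dot_chord {al be : ℝ} (hL : C.L ^ 2 = al ^ 2 + (cos (C.T / 2) + be) ^ 2)
    (hl : C.l ^ 2 = al ^ 2 + (cos (C.T / 2) - be) ^ 2) (z : ℝ) :
    (cos (C.T / 2) + be) * sin (C.T / 2 - z) - |al| ≤ cross (U z) (C.γ 0 - C.γ (C.T + π)) := by
  have hT := C.T_lt
  have hs : 0 < cos (C.T / 2) := cos_pos_of_mem_Ioo ⟨by linarith [C.T_nonneg, pi_pos], by linarith⟩
  have e : C.γ C.T - C.γ (0 + π) = U 0 + U C.T - (C.γ 0 - C.γ (C.T + π)) := by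
    rw [C.anti _ C.zero_mem, C.anti _ C.T_mem]; ring
  simp only [L, l, Dia.dC] at hL hl
  rw [e] at hl
  generalize C.γ 0 - C.γ (C.T + π) = P at hL hl ⊢
  rw [GeoAux.sq_frame _ (C.T / 2)] at hL hl
  have u0 := GeoAux.U_sub (C.T / 2) (C.T / 2)
  have uT := GeoAux.U_add (C.T / 2) (C.T / 2)
  rw [sub_self] at u0
  rw [add_halves] at uT
  have e1 : dot (U 0 + U C.T - P) (U (C.T / 2)) = 2 * cos (C.T / 2) - dot P (U (C.T / 2)) := by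
    rw [u0, uT]
    simp only [dot, Complex.sub_re, Complex.sub_im, Complex.add_re, Complex.add_im,
      Complex.smul_re, Complex.smul_im, U_re, U_im, smul_eq_mul]
    linear_combination 2 * cos (C.T / 2) * sin_sq_add_cos_sq (C.T / 2)
  have e2 : cross (U (C.T / 2)) (U 0 + U C.T - P) = -cross (U (C.T / 2)) P := by
    rw [u0, uT]
    simp only [cross, Complex.sub_re, Complex.sub_im, Complex.add_re, Complex.add_im,
      Complex.smul_re, Complex.smul_im, U_re, U_im, smul_eq_mul]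
    ring
  rw [e1, e2] at hl
  have e3 : dot P (U (C.T / 2)) = cos (C.T / 2) + be :=
    mul_left_cancel₀ hs.ne' (by linear_combination (hL - hl) / 4)
  rw [e3] at hL
  have e4 : |cross (U (C.T / 2)) P| = |al| := sq_eq_sq_iff_abs_eq_abs _ _ |>.1 (by linarith)
  have e5 : cross (U z) P = dot P (U (C.T / 2)) * sin (C.T / 2 - z) +
      cross (U (C.T / 2)) P * cos (C.T / 2 - z) := by
    simp only [cross, dot, U_re, U_im, sin_sub, cos_sub]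
    linear_combination -(cos z * P.im - sin z * P.re) * sin_sq_add_cos_sq (C.T / 2)
  have e6 : |cross (U (C.T / 2)) P * cos (C.T / 2 - z)| ≤ |al| := by
    rw [abs_mul, e4]
    exact mul_le_of_le_one_right (abs_nonneg _) (abs_cos_le_one _)
  rw [e5, e3]
  linarith [neg_abs_le (cross (U (C.T / 2)) P * cos (C.T / 2 - z))]

theorem nearX {al be b sn t : ℝ} (hL : C.L ^ 2 = al ^ 2 + (cos (C.T / 2) + be) ^ 2)
    (hl : C.l ^ 2 = al ^ 2 + (cos (C.T / 2) - be) ^ 2) (hbe : 0 ≤ cos (C.T / 2) + be)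
    (hsn : ∀ z, 0 ≤ z → z ≤ C.T → cos ((C.T - z) / 2) ≤ b → sn ≤ sin (C.T / 2 - z))
    (hr : 0 ≤ (cos (C.T / 2) + be) * sn - |al|) (ht : t ∈ C.I) (h1 : C.dC t C.T ≤ b)
    (h2 : C.dC C.T t ≤ b) :
    C.dX 0 t ^ 2 + 2 * ((cos (C.T / 2) + be) * sn - |al|) * C.dX 0 t + C.L ^ 2 ≤ b ^ 2 := by
  have hT := C.T_lt
  have q := GeoAux.sq_add (C.γ t - C.γ 0) (C.γ 0 - C.γ (C.T + π))
  rw [sub_add_sub_cancel, norm_sub_rev (C.γ t) (C.γ 0)] at q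
  have q1 : C.dC t C.T ^ 2 ≤ b ^ 2 := pow_le_pow_left₀ (norm_nonneg _) h1 2
  change C.dC t C.T ^ 2 = C.dX 0 t ^ 2 + _ + C.L ^ 2 at q
  suffices ((cos (C.T / 2) + be) * sn - |al|) * C.dX 0 t ≤
      dot (C.γ t - C.γ 0) (C.γ 0 - C.γ (C.T + π)) by linarith
  rcases ht.2.1.eq_or_lt with rfl | t0
  · simp [Dia.dX, dot]
  obtain ⟨p, p', hp, hp', e⟩ := C.cone C.zero_mem ht.1 t0 (by linarith [ht.2.2])
  have c1 := C.cos_half_le ht h1 h2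
  have c0 : cos ((C.T - 0) / 2) ≤ b := (cos_le_cos_of_nonneg_of_le_pi
    (by linarith [ht.2.2]) (by linarith [pi_pos]) (by linarith)).trans c1
  have s0 := (mul_le_mul_of_nonneg_left (hsn 0 le_rfl C.T_nonneg c0) hbe)
  have s1 := (mul_le_mul_of_nonneg_left (hsn t t0.le ht.2.2 c1) hbe)
  have r0 := C.dot_chord hL hl 0
  have r1 := C.dot_chord hL hl t
  have n : C.dX 0 t ≤ p + p' := by
    rw [comb_dX_comm, Dia.dX, e]
    refine (norm_add_le _ _).trans_eq ?_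
    rw [norm_smul, norm_smul, norm_U, norm_U, norm_of_nonneg hp, norm_of_nonneg hp']; ring
  rw [e, GeoAux.dot_cone]
  nlinarith [mul_le_mul_of_nonneg_left n hr, mul_le_mul_of_nonneg_left (s0.trans (by linarith :
    _ ≤ cross (U 0) (C.γ 0 - C.γ (C.T + π)) + |al|)) hp, mul_le_mul_of_nonneg_left (s1.trans
    (by linarith : _ ≤ cross (U t) (C.γ 0 - C.γ (C.T + π)) + |al|)) hp']

theorem nearY {al be b sn t : ℝ} (hL : C.L ^ 2 = al ^ 2 + (cos (C.T / 2) + be) ^ 2)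
    (hl : C.l ^ 2 = al ^ 2 + (cos (C.T / 2) - be) ^ 2) (hbe : 0 ≤ cos (C.T / 2) - be)
    (hsn : ∀ z, 0 ≤ z → z ≤ C.T → cos ((C.T - z) / 2) ≤ b → sn ≤ sin (C.T / 2 - z))
    (hr : 0 ≤ (cos (C.T / 2) - be) * sn - |al|) (ht : t ∈ C.I) (h1 : C.dC t C.T ≤ b)
    (h2 : C.dC C.T t ≤ b) :
    C.dY 0 t ^ 2 + 2 * ((cos (C.T / 2) - be) * sn - |al|) * C.dY 0 t + C.l ^ 2 ≤ b ^ 2 := by
  obtain ⟨C', hT, -, hI, hd, hL', hl', -⟩ := C.swap_dist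
  have := C'.nearX (al := al) (be := -be) (b := b) (sn := sn) (t := t)
    (by rw [hT, hL', hl]; ring) (by rw [hT, hl', hL]; ring) (by rwa [hT]) (by rwa [hT])
    (by rwa [hT]) (hI ▸ ht) (by rwa [hT, (hd _ ht.1 _ C.T_mem).2.2])
    (by rwa [hT, (hd _ C.T_mem _ ht.1).2.2])
  rwa [hT, (hd _ C.zero_mem _ ht.1).1, hL'] at this

/-- the mirror images of `nearX`, `nearY` -/
theorem near' {al be b sn t : ℝ} (hL : C.L ^ 2 = al ^ 2 + (cos (C.T / 2) + be) ^ 2)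
    (hl : C.l ^ 2 = al ^ 2 + (cos (C.T / 2) - be) ^ 2) (hbe : 0 ≤ cos (C.T / 2) + be)
    (hbe' : 0 ≤ cos (C.T / 2) - be)
    (hsn : ∀ z, 0 ≤ z → z ≤ C.T → cos ((C.T - z) / 2) ≤ b → sn ≤ sin (C.T / 2 - z))
    (hr : 0 ≤ (cos (C.T / 2) + be) * sn - |al|) (hr' : 0 ≤ (cos (C.T / 2) - be) * sn - |al|)
    (ht : t ∈ C.I) (h1 : C.dC 0 t ≤ b) (h2 : C.dC t 0 ≤ b) :
    C.dY t C.T ^ 2 + 2 * ((cos (C.T / 2) + be) * sn - |al|) * C.dY t C.T + C.L ^ 2 ≤ b ^ 2 ∧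
    C.dX t C.T ^ 2 + 2 * ((cos (C.T / 2) - be) * sn - |al|) * C.dX t C.T + C.l ^ 2 ≤ b ^ 2 := by
  obtain ⟨C', hT, -, hI, hd, hL', hl', -⟩ := C.mirror_dist
  have mt : C.T - t ∈ C'.I := (hI _).2 (by rwa [sub_sub_cancel])
  have g1 := (hd _ ht.1 _ C.zero_mem).2.2
  have g2 := (hd _ C.zero_mem _ ht.1).2.2
  have g3 := hd _ C.T_mem _ ht.1
  rw [sub_zero] at g1 g2
  rw [sub_self, C.comb_dX_comm, C.comb_dY_comm] at g3
  have a := C'.nearX (al := al) (be := be) (b := b) (sn := sn) (by rwa [hT, hL'])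
    (by rwa [hT, hl']) (by rwa [hT]) (by rwa [hT]) (by rwa [hT]) mt (by rwa [hT, g1])
    (by rwa [hT, g2])
  have a' := C'.nearY (al := al) (be := be) (b := b) (sn := sn) (by rwa [hT, hL'])
    (by rwa [hT, hl']) (by rwa [hT]) (by rwa [hT]) (by rwa [hT]) mt (by rwa [hT, g1])
    (by rwa [hT, g2])
  rw [hT, g3.1, hL'] at a
  rw [hT, g3.2.1, hl'] at a'
  exact ⟨a, a'⟩

/-- Lemma KB of the paper. -/
theorem lemKB {b m Q al be sn : ℝ} (hb1 : C.d1 < b) (hb2 : C.d2 < b) (hb : b ≤ 1)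
    (hlb : C.l ≤ b) (hmL : m ≤ C.L) (hml : m ≤ C.l)
    (hQ1 : C.T - C.d1 - m ≤ Q) (hQ2 : C.T - C.d2 - m ≤ Q) (hA : C.T - m ≤ π / 2)
    (hs : Q * cos (C.T - m) ≤ sin (C.T - m))
    (h6 : b + Q * sin (C.T - m) - Q ^ 2 * cos (C.T - m) / 2 < 1)
    (hqL : 2 * b - C.L < 1) (hql : 2 * b - C.l < 1)
    (hL : C.L ^ 2 = al ^ 2 + (cos (C.T / 2) + be) ^ 2)
    (hl : C.l ^ 2 = al ^ 2 + (cos (C.T / 2) - be) ^ 2) (hbe : 0 ≤ cos (C.T / 2) + be)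
    (hbe' : 0 ≤ cos (C.T / 2) - be)
    (hsn : ∀ z, 0 ≤ z → z ≤ C.T → cos ((C.T - z) / 2) ≤ b → sn ≤ sin (C.T / 2 - z))
    (hr : 0 ≤ (cos (C.T / 2) + be) * sn - |al|) (hr' : 0 ≤ (cos (C.T / 2) - be) * sn - |al|) :
    (∃ x, 0 ≤ x ∧ x ^ 2 + 2 * ((cos (C.T / 2) + be) * sn - |al|) * x + C.L ^ 2 ≤ b ^ 2 ∧
      1 ≤ 2 * b - C.L + x) ∨
    ∃ x, 0 ≤ x ∧ x ^ 2 + 2 * ((cos (C.T / 2) - be) * sn - |al|) * x + C.l ^ 2 ≤ b ^ 2 ∧
      1 ≤ 2 * b - C.l + 2 * x ^ 2 := by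
  obtain ⟨a1, b1, a2, b2, z⟩ := C.exists_Zn (C.lemA.1.trans hb1.le) hlb
  have n := C.noEsc hQ1 hQ2 hA hs h6
  have z0 := C.zero_mem_I
  have zT := C.T_mem_I
  have s1 : b1 < a1 := by
    by_contra h
    have h1 := C.quadL z.ma1 z.ma1 le_rfl
    have h2 := C.dC_mono_L z.ma1 z.mb1 zT zT (not_lt.1 h) z.mb1.2.2 le_rfl
    rw [C.dC_self z.ma1] at h1
    linarith [z.la1, z.lb1]
  have s2 : b2 < a2 := by
    by_contra h
    have h1 := C.quadl z.ma2 z.ma2 le_rfl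
    have h2 := C.dC_mono_l z.ma2 z.mb2 zT zT (not_lt.1 h) z.mb2.2.2 le_rfl
    rw [C.dC_self z.ma2] at h1
    linarith [z.la2, z.lb2]
  rcases le_or_gt b2 b1 with hi | hi
  · have h1 := (C.dC_mono_L z.mb2 z.mb1 zT zT hi z.mb1.2.2 le_rfl).trans z.lb1
    refine .inl ⟨_, C.dX_nonneg 0 b2, C.nearX hL hl hbe hsn hr z.mb2 h1 z.lb2, ?_⟩
    have h2 := (z.mid hb1 hb2 hb hmL hml n (hi.trans s1.le)).2
    have h3 := C.quadL z.mb2 z.ma1 (hi.trans s1.le)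
    have h4 : C.dC a1 a1 ≤ C.dX a1 b2 + C.dC b2 a1 := norm_sub_le_norm_sub_add_norm_sub _ _ _
    rw [C.dC_self z.ma1, comb_dX_comm] at h4
    linarith [z.la1]
  rcases le_or_gt a1 a2 with hii | hii
  · have h1 := (C.dC_mono_L z0 z0 z.ma1 z.ma2 le_rfl z.ma1.2.1 hii).trans z.la1
    refine .inl ⟨_, C.dY_nonneg a2 C.T,
      (C.near' hL hl hbe hbe' hsn hr hr' z.ma2 h1 z.la2).1, ?_⟩
    have h2 := (z.midY hb1 hb2 hb hmL hml n (s1.le.trans hii)).1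
    have h3 := C.quadL z.mb1 z.ma2 (s1.le.trans hii)
    have h4 : C.dC b1 b1 ≤ C.dC b1 a2 + C.dY a2 b1 := norm_sub_le_norm_sub_add_norm_sub _ _ _
    rw [C.dC_self z.mb1, comb_dY_comm] at h4
    linarith [z.lb1]
  have y1 := C.nearY hL hl hbe' hsn hr' z.mb1 z.lb1
    ((C.dC_mono_l z.mb1 z.mb2 zT zT hi.le z.mb2.2.2 le_rfl).trans z.lb2)
  have x1 := (C.near' hL hl hbe hbe' hsn hr hr' z.ma1 z.la1
    ((C.dC_mono_l z0 z0 z.ma2 z.ma1 le_rfl z.ma2.2.1 hii.le).trans z.la2)).2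
  have x2 := (C.dX_mono z.mb2 z.mb2 z.ma2 z.ma1 le_rfl s2.le hii.le).trans
    (z.mid hb1 hb2 hb hmL hml n (s2.trans hii).le).1
  have y2 := (C.dY_mono z.mb1 z.mb2 z.ma2 z.ma2 hi.le s2.le le_rfl).trans
    (z.midY hb1 hb2 hb hmL hml n (hi.trans s2).le).2
  have h3 := C.quadl z.ma2 z.mb2 s2.le
  have h4 := C.cross_proj z.ma2 z.mb2
  have h5 := dot_le (C.γ a2 - C.γ (b2 + π)) (U a2)
  rw [norm_U, mul_one] at h5
  change _ ≤ C.dC a2 b2 at h5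
  rw [comb_dX_comm, comb_dY_comm] at h4
  have nx := C.dX_nonneg b2 a2
  have ny := C.dY_nonneg b2 a2
  have fin : ∀ x, C.dX b2 a2 ≤ x → C.dY b2 a2 ≤ x → 1 ≤ 2 * b - C.l + 2 * x ^ 2 := by
    intro x k1 k2
    have : C.dY b2 a2 * (C.dX b2 a2 + C.dY b2 a2) ≤ x * (x + x) :=
      mul_le_mul k2 (add_le_add k1 k2) (add_nonneg nx ny) (ny.trans k2)
    linarith [z.la2, z.lb2]
  rcases le_total (C.dX a1 C.T) (C.dY 0 b1) with h | h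
  · exact .inr ⟨_, C.dY_nonneg _ _, y1, fin _ (x2.trans h) y2⟩
  · exact .inr ⟨_, C.dX_nonneg _ _, x1, fin _ x2 (y2.trans h)⟩

end Cfg

end Pool.Agent.P.MP_4c4e6e_co
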