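import Pool.Agent.P.MP_4c4e6e_co.KillA
import Pool.Agent.P.MP_4c4e6e_co.KillB
import Pool.Agent.P.MP_4c4e6e_co.Num

/-! Very long gaps are impossible. -/

namespace Pool.Agent.P.MP_4c4e6e_co

open Real Finset

theorem Cfg.T_pos (C : Cfg) : 0 < C.T := by
  refine lt_of_le_of_ne C.T_nonneg fun h => ?_
  have h1 := C.lemA.1
  have h2 := C.dC_self C.zero_mem_I
  simp only [Cfg.L, Cfg.d1, ← h, Dia.dX, sub_self, norm_zero] at h1
  linarith

theorem Cfg.kill (C : Cfg) (hl : C.l ≤ C.L) (hT : 747 / 500 ≤ π - C.T) : False := by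
  have hπ : π ∈ C.Θ := by simpa using C.add_pi 0 C.zero_mem
  have T0 := C.T_pos
  have T1 := C.T_lt
  obtain ⟨lam, t, hlens⟩ := C.exists_lens C.T_mem hπ T1 (by linarith)
  obtain ⟨al, -, eL, el, e1, e2⟩ := C.frame hlens hl
  have be0 : 0 ≤ lam * |sin t| := mul_nonneg hlens.1 (abs_nonneg _)
  generalize lam * |sin t| = be at *
  have es : sin ((π - C.T) / 2) = cos (C.T / 2) := by
    rw [← sin_pi_div_two_sub]; congr 1; ring
  have ec : cos ((π - C.T) / 2) = sin (C.T / 2) := by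
    rw [← cos_pi_div_two_sub]; congr 1; ring
  rw [es] at eL el
  rw [ec] at e1 e2
  have c0 : 0 ≤ sin (C.T / 2) := sin_nonneg_of_nonneg_of_le_pi (by linarith) (by linarith)
  have L0 : 0 ≤ C.L := norm_nonneg _
  have l0 : 0 ≤ C.l := norm_nonneg _
  have d10 : 0 ≤ C.d1 := norm_nonneg _
  have d20 : 0 ≤ C.d2 := norm_nonneg _
  obtain ⟨A1, A2⟩ := C.lemA
  have B1 := pow_le_pow_left₀ L0 A1 2
  have B2 := pow_le_pow_left₀ L0 A2 2
  have a1 := mul_le_mul_of_nonneg_left (le_abs_self al) c0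
  have a2 := mul_le_mul_of_nonneg_left (neg_abs_le al) c0
  have a3 := sq_abs al
  have m1 : √(be ^ 2 + (sin (C.T / 2) - |al|) ^ 2) ≤ C.d1 := sqrt_le_iff.2 ⟨d10, by linarith⟩
  have m2 : √(be ^ 2 + (sin (C.T / 2) - |al|) ^ 2) ≤ C.d2 := sqrt_le_iff.2 ⟨d20, by linarith⟩
  have M1 : C.d1 ≤ √(be ^ 2 + (sin (C.T / 2) + |al|) ^ 2) := le_sqrt_of_sq_le (by linarith)
  have M2 : C.d2 ≤ √(be ^ 2 + (sin (C.T / 2) + |al|) ^ 2) := le_sqrt_of_sq_le (by linarith)
  have hA : 2 * cos (C.T / 2) * be + 2 * sin (C.T / 2) * |al| ≤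
      sin (C.T / 2) ^ 2 - cos (C.T / 2) ^ 2 := by
    rcases abs_choice al with e | e <;> rw [e] <;> linarith
  rcases num_kill ((π - C.T) / 2) |al| be (cos (C.T / 2)) (sin (C.T / 2)) C.T C.L C.l _ _
    (by linarith) (by linarith) (abs_nonneg _) be0 es.symm ec.symm (by ring) hA
    (by rw [a3, ← eL, sqrt_sq L0]) (by rw [a3, ← el, sqrt_sq l0]) rfl rfl with
    ⟨a, k0, k1, k2, k3, k4, k5, k6⟩ |
    ⟨b, sn, rL, rl, k0, k1, k2, k3, k4, k5, rfl, rfl, k6, k7, k8, k9⟩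
  · have := C.lemK k0 (k1.trans_le hl) k1 k2 (by linarith) (by linarith) k4.le k5.le
    rw [max_eq_left hl] at this
    linarith
  have bL : C.L ≤ b := by linarith
  have b0 : 0 ≤ b := L0.trans bL
  have sn0 : 0 < sn := (mul_pos_iff_of_pos_left (sub_pos.2 k7)).1
    (by linarith [abs_nonneg al])
  have r0 : 0 ≤ (cos (C.T / 2) + be) * sn - |al| := by linarith [mul_nonneg be0 sn0.le]
  have q1 : (cos (C.T / 2) + be) * sn - |al| ≤
      √(((cos (C.T / 2) + be) * sn - |al|) ^ 2 + b ^ 2 - C.L ^ 2) :=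
    le_sqrt_of_sq_le (by linarith [pow_le_pow_left₀ L0 bL 2])
  have hsn : ∀ z, 0 ≤ z → z ≤ C.T → cos ((C.T - z) / 2) ≤ b → sn ≤ sin (C.T / 2 - z) := by
    intro z z0 z1 hz
    have w1 : arccos b ≤ (C.T - z) / 2 := by
      rw [← arccos_cos (x := (C.T - z) / 2) (by linarith) (by linarith)]
      exact arccos_le_arccos hz
    have w2 : sn = sin (2 * arccos b - C.T / 2) := by
      rw [k5, sin_sub, sin_two_mul, cos_two_mul, sin_arccos, cos_arccos (by linarith) k1.le]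
      ring
    rw [w2]
    exact sin_le_sin_of_le_of_le_pi_div_two (by linarith [arccos_nonneg b]) (by linarith)
      (by linarith)
  rcases C.lemKB (b := b) (m := C.l) (al := al) (be := be) (sn := sn) (by linarith) (by linarith)
    k1.le (hl.trans bL) hl le_rfl (by linarith) (by linarith) k2.le k3.le k4 (by linarith)
    (by linarith [sq_nonneg (√(((cos (C.T / 2) - be) * sn - |al|) ^ 2 + b ^ 2 - C.l ^ 2) -
      ((cos (C.T / 2) - be) * sn - |al|))]) eL el (by linarith) (by linarith) hsn r0 k6.le with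
    ⟨x, x0, x1, x2⟩ | ⟨x, x0, x1, x2⟩
  · have : x + ((cos (C.T / 2) + be) * sn - |al|) ≤
        √(((cos (C.T / 2) + be) * sn - |al|) ^ 2 + b ^ 2 - C.L ^ 2) :=
      le_sqrt_of_sq_le (by linarith)
    linarith
  · have : x + ((cos (C.T / 2) - be) * sn - |al|) ≤
        √(((cos (C.T / 2) - be) * sn - |al|) ^ 2 + b ^ 2 - C.l ^ 2) :=
      le_sqrt_of_sq_le (by linarith)
    linarith [pow_le_pow_left₀ x0 (le_sub_iff_add_le.2 this) 2]

end Pool.Agent.P.MP_4c4e6e_co
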