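import Pool.Agent.P.MP_4c4e6e_co.Cap
import Pool.Agent.P.MP_4c4e6e_co.Cubes
import Pool.Agent.P.MP_4c4e6e_co.Area1
import Pool.Agent.P.MP_4c4e6e_co.Kill

/-! The lower bound when all gaps are at most `1.13`. -/

namespace Pool.Agent.P.MP_4c4e6e_co

open Real Finset

/-- lower bounds for the two chords of a cell in lens coordinates -/
theorem lens_ge (D : Dia) {p q lam t : ℝ} (hp : p ∈ D.Θ) (hq : q ∈ D.Θ)
    (h2 : q ≤ p + π) (h : D.IsLens p q lam t) :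
    ∃ be : ℝ, |be| = lam * |sin t| ∧ |be| ≤ sin ((q - p) / 2) ∧
      sin ((q - p) / 2) + be ≤ D.dX p q ∧ sin ((q - p) / 2) - be ≤ D.dY p q := by
  obtain ⟨al, be, -, hbe, hx, hy, -, -⟩ := D.lens_sq hp hq h2 h
  obtain ⟨hl0, hl1, ht, -⟩ := h
  have h3 : |sin t| ≤ sin ((q - p) / 2) := by
    rw [abs_sin_eq_sin_abs_of_abs_le_pi (by linarith [pi_pos])]
    exact sin_le_sin_of_le_of_le_pi_div_two (by linarith [pi_pos, abs_nonneg t]) (by linarith) ht
  refine ⟨be, hbe, ?_, ?_, ?_⟩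
  · rw [hbe]; nlinarith [abs_nonneg (sin t)]
  · exact (abs_le_of_sq_le_sq' (b := D.dX p q) (by rw [hx]; nlinarith [sq_nonneg al])
      (norm_nonneg _)).2
  · exact (abs_le_of_sq_le_sq' (b := D.dY p q) (by rw [hy]; nlinarith [sq_nonneg al])
      (norm_nonneg _)).2

theorem cube_ge (D : Dia) {p q lam t : ℝ} (hp : p ∈ D.Θ) (hq : q ∈ D.Θ) (h1 : p ≤ q)
    (h2 : q ≤ p + π) (h : D.IsLens p q lam t) :
    2 * sin ((q - p) / 2) ^ 3 + 6 * sin ((q - p) / 2) * (lam * sin t) ^ 2 ≤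
      D.dX p q ^ 3 + D.dY p q ^ 3 := by
  have _ := h1
  obtain ⟨be, hbe, hb, hx, hy⟩ := lens_ge D hp hq h2 h
  obtain ⟨hb1, hb2⟩ := abs_le.1 hb
  have h3 : (lam * sin t) ^ 2 = be ^ 2 := by
    rw [← sq_abs be, hbe, mul_pow, mul_pow, sq_abs]
  have h4 := pow_le_pow_left₀ (by linarith) hx 3
  have h5 := pow_le_pow_left₀ (by linarith) hy 3
  rw [h3]
  linarith

/-- lens coordinates for all cells of a partition -/
theorem Dia.IsPart.lens {D : Dia} {N : ℕ} {θ : ℕ → ℝ} (h : D.IsPart N θ)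
    (hs : ∀ k ≤ N, θ (k + 1) - θ k < π) :
    ∃ lam t : ℕ → ℝ, ∀ k ≤ N, D.IsLens (θ k) (θ (k + 1)) (lam k) (t k) := by
  have h1 : ∀ k, ∃ lam t : ℝ, k ≤ N → D.IsLens (θ k) (θ (k + 1)) lam t := fun k => by
    by_cases hk : k ≤ N
    · obtain ⟨lam, t, h2⟩ := D.exists_lens (h.2.2.2 k (by omega)) (h.2.2.2 (k + 1) (by omega))
        (h.2.2.1 k hk) (by linarith [hs k hk])
      exact ⟨lam, t, fun _ => h2⟩
    · exact ⟨0, 0, fun h2 => absurd h2 hk⟩
  choose lam t h2 using h1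
  exact ⟨lam, t, h2⟩

theorem lower_zero (D : Dia) (N : ℕ) (θ : ℕ → ℝ) (h : D.IsPart N θ)
    (hs : ∀ k ≤ N, θ (k + 1) - θ k ≤ 1 / 2) : π / 3 - √3 / 4 ≤ D.Sh N θ := by
  have hpi := pi_gt_d2
  obtain ⟨lam, t, hl⟩ := h.lens fun k hk => by linarith [hs k hk]
  refine le_trans ?_ (area_one D N θ h lam t hl)
  have h1 : ∑ k ∈ range (N + 1), loss (θ (k + 1) - θ k) (lam k) (t k) (mh (θ (k + 1) - θ k))
      ≤ ∑ k ∈ range (N + 1), 1 / 48 * (θ (k + 1) - θ k) := by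
    refine sum_le_sum fun k hk => ?_
    have hk' : k ≤ N := by simpa [Nat.lt_succ_iff] using hk
    have h2 := sub_pos.2 (h.2.2.1 k hk')
    have h3 := hs k hk'
    obtain ⟨a1, a2, a3, -⟩ := hl k hk'
    refine (cell_triv h2.le (by linarith) a1 a2 a3 (mh_nonneg h2.le)).trans ?_
    have h4 : (θ (k + 1) - θ k) ^ 2 ≤ 1 / 4 := by nlinarith
    nlinarith
  rw [← mul_sum, sum_range_sub, h.1, h.2.1] at h1
  have h5 : √3 ≤ 1.7321 := by
    rw [sqrt_le_iff]; norm_num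
  linarith

namespace Cfg

variable (C : Cfg)

theorem pi_mem : π ∈ C.Θ := by simpa using C.add_pi 0 C.zero_mem

theorem L_nonneg : 0 ≤ C.L := norm_nonneg _

theorem L_le_one : C.L ≤ 1 := C.dist_le _ C.zero_mem _ (C.add_pi _ C.T_mem)

theorem L_add_l_le : C.L + C.l ≤ π - C.T := by
  have h := C.len_le C.T_mem C.pi_mem C.T_lt.le (by linarith [C.T_nonneg])
  have h1 : C.dX C.T π = C.l := by simp [Dia.dX, l, Dia.dC]
  have h2 : C.dY C.T π = C.L := by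
    have h3 := C.per C.zero_mem
    rw [zero_add] at h3
    rw [Dia.dY, h3, norm_sub_rev]; rfl
  linarith

/-- the data of the distinguished cell in the form needed by the numerical lemmas -/
theorem gap_data (hl : C.l ≤ C.L) : ∃ lam t : ℝ, C.IsLens C.T π lam t ∧
    2 * sin ((π - C.T) / 2) * (lam * sin |t|)
      + 2 * cos ((π - C.T) / 2) * (lam * (cos |t| - cos ((π - C.T) / 2)))
      ≤ cos ((π - C.T) / 2) ^ 2 - sin ((π - C.T) / 2) ^ 2 ∧
    C.L = √((lam * (cos |t| - cos ((π - C.T) / 2))) ^ 2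
      + (sin ((π - C.T) / 2) + lam * sin |t|) ^ 2) ∧
    min C.d1 C.d2 = √((lam * sin |t|) ^ 2
      + (cos ((π - C.T) / 2) - lam * (cos |t| - cos ((π - C.T) / 2))) ^ 2) := by
  obtain ⟨lam, t, h⟩ := C.exists_lens C.T_mem C.pi_mem C.T_lt (by linarith [C.T_pos])
  obtain ⟨al, hal, hL, -, h1, h2⟩ := C.frame h hl
  have ht : |t| ≤ π := by linarith [h.2.2.1, C.T_nonneg, pi_pos]
  have hc : 0 ≤ cos ((π - C.T) / 2) :=
    cos_nonneg_of_neg_pi_div_two_le_of_le (by linarith [C.T_lt, pi_pos]) (by linarith [C.T_nonneg])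
  rw [abs_sin_eq_sin_abs_of_abs_le_pi ht] at hL h1 h2
  rw [← cos_abs t] at hal
  have g1 : C.L ^ 2 ≤ C.d1 ^ 2 := pow_le_pow_left₀ C.L_nonneg C.lemA.1 2
  have g2 : C.L ^ 2 ≤ C.d2 ^ 2 := pow_le_pow_left₀ C.L_nonneg C.lemA.2 2
  have n1 : 0 ≤ C.d1 := norm_nonneg _
  have n2 : 0 ≤ C.d2 := norm_nonneg _
  refine ⟨lam, t, h, ?_, ?_, ?_⟩ <;> rw [← hal]
  · rcases abs_cases al with ⟨h3, -⟩ | ⟨h3, -⟩ <;> rw [h3] <;> linarith
  · rw [sq_abs, ← hL, sqrt_sq C.L_nonneg]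
  · rcases abs_cases al with ⟨h3, h4⟩ | ⟨h3, h4⟩ <;> rw [h3]
    · rw [← h1, sqrt_sq n1, min_eq_left]
      exact (abs_le_of_sq_le_sq' (by nlinarith [mul_nonneg hc h4]) n2).2
    · rw [sub_neg_eq_add, ← h2, sqrt_sq n2, min_eq_right]
      exact (abs_le_of_sq_le_sq' (by nlinarith [mul_nonneg hc (neg_nonneg.2 h4.le)]) n1).2

variable {C}

/-- lens coordinates on a fine partition, with prescribed values on the last cell -/
theorem Fine.lens {e : ℝ} {N : ℕ} {θ : ℕ → ℝ} (h : C.Fine e N θ) {lam₀ t₀ : ℝ}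
    (h0 : C.IsLens C.T π lam₀ t₀) :
    ∃ lam t : ℕ → ℝ, lam N = lam₀ ∧ t N = t₀ ∧
      ∀ k ≤ N, C.IsLens (θ k) (θ (k + 1)) (lam k) (t k) := by
  obtain ⟨lam, t, h1⟩ := h.1.lens fun k hk => by
    rcases hk.eq_or_lt with rfl | hk
    · rw [h.1.2.1, h.2.1]; linarith [C.T_pos]
    · linarith [(h.comb_mem hk.le).2.1, (h.comb_mem (Nat.succ_le_of_lt hk)).2.2, C.T_lt]
  refine ⟨Function.update lam N lam₀, Function.update t N t₀, by simp, by simp, fun k hk => ?_⟩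
  rcases hk.eq_or_lt with rfl | hk
  · simpa [h.1.2.1, h.2.1] using h0
  · simpa [Function.update_of_ne hk.ne] using h1 k hk.le

/-- a cell with a long chord is a gap -/
theorem Fine.gap_of_lt {e : ℝ} {N : ℕ} {θ : ℕ → ℝ} (h : C.Fine e N θ) {k : ℕ} (hk : k < N)
    (hx : e < C.dX (θ k) (θ (k + 1)) ∨ e < C.dY (θ k) (θ (k + 1))) :
    C.IsGap (θ k) (θ (k + 1)) := by
  refine (h.2.2 k hk).resolve_left fun h1 => ?_
  have h2 := C.comb_len (h.comb_mem hk.le) (h.comb_mem (Nat.succ_le_of_lt hk))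
    (h.comb_mono (Nat.le_succ k) hk)
  have h3 : 0 ≤ C.dX (θ k) (θ (k + 1)) := norm_nonneg _
  have h4 : 0 ≤ C.dY (θ k) (θ (k + 1)) := norm_nonneg _
  rcases hx with hx | hx <;> linarith

theorem Fine.sum_len {e : ℝ} {N : ℕ} {θ : ℕ → ℝ} (h : C.Fine e N θ) :
    ∑ k ∈ range N, (θ (k + 1) - θ k) = C.T := by
  rw [sum_range_sub, h.1.1, h.2.1, sub_zero]

end Cfg

/-- the short terms contribute little to a sum of cubes -/
theorem cubes_split (s : Finset ℕ) (x : ℕ → ℝ) (hx : ∀ k ∈ s, 0 ≤ x k) (e : ℝ) :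
    ∑ k ∈ s, x k ^ 3 ≤ ∑ k ∈ s.filter (fun k => e < x k), x k ^ 3 + e ^ 2 * ∑ k ∈ s, x k := by
  rw [sum_filter, mul_sum, ← sum_add_distrib]
  refine sum_le_sum fun k hk => ?_
  have h0 := hx k hk
  split_ifs with h
  · have : 0 ≤ e ^ 2 * x k := by positivity
    linarith
  · have h1 : x k ^ 2 ≤ e ^ 2 := pow_le_pow_left₀ h0 (not_lt.1 h) 2
    nlinarith

/-- choice of the mesh -/
theorem exists_mesh {a c ε : ℝ} (ha : 0 < a) (hc : 0 ≤ c) (hε : 0 < ε) :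
    ∃ e, 0 < e ∧ e < a ∧ c * e ^ 2 ≤ ε := by
  refine ⟨min (a / 2) (min 1 (ε / (c + 1))), by positivity,
    (min_le_left _ _).trans_lt (by linarith), ?_⟩
  set e := min (a / 2) (min 1 (ε / (c + 1))) with he
  have h0 : 0 < e := by positivity
  have h1 : e ≤ 1 := (min_le_right _ _).trans (min_le_left _ _)
  have h2 : e ≤ ε / (c + 1) := (min_le_right _ _).trans (min_le_right _ _)
  rw [le_div_iff₀ (by positivity)] at h2
  nlinarith [mul_nonneg hc (mul_nonneg h0.le (sub_nonneg.2 h1))]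

theorem sin_half_le {d : ℝ} (h0 : 0 ≤ d) (h1 : d ≤ 113 / 100) : sin (d / 2) ≤ 5359 / 10000 := by
  have h2 : sin (d / 2) ≤ sin (113 / 200) :=
    sin_le_sin_of_le_of_le_pi_div_two (by linarith [pi_pos]) (by linarith [pi_gt_three])
      (by linarith)
  have h3 := sin_bound (x := 113 / 200) (by rw [abs_of_pos] <;> norm_num)
  rw [abs_of_pos (by norm_num : (0 : ℝ) < 113 / 200)] at h3
  have h4 := (abs_le.1 h3).2
  norm_num at h4
  linarith

theorem lower_one (C : Cfg) (hl : C.l ≤ C.L) (hL : 6 / 25 ≤ C.L) (hT : π - C.T ≤ 113 / 100)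
    (hg : ∀ p ∈ C.I, ∀ q ∈ C.I, C.IsGap p q →
      q - p ≤ 113 / 100 ∧ C.dX p q ≤ C.L ∧ C.dY p q ≤ C.L) {ε : ℝ} (hε : 0 < ε) :
    ∃ N θ, C.IsPart N θ ∧ π / 3 - √3 / 4 - ε ≤ C.Sh N θ := by
  obtain ⟨lam₀, t₀, h0, hA, hLe, -⟩ := C.gap_data hl
  have hl0 : 0 ≤ C.l := norm_nonneg _
  obtain ⟨S, cf, hS0, hSL, hS, hcf, hnum⟩ := num_one ((π - C.T) / 2) lam₀ |t₀| _ _ C.L
    (by linarith [C.L_add_l_le]) (by linarith) h0.1 h0.2.1 (abs_nonneg _) h0.2.2.1 rfl rfl hA hLe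
    C.L_le_one
  have hcf0 : 0 ≤ cf := by
    rcases hcf with h | h
    · linarith
    · nlinarith [sq_nonneg S]
  obtain ⟨e, he0, heL, he⟩ := exists_mesh (a := C.L) (c := (cf + 1) * π / 12) (by linarith)
    (by positivity) hε
  obtain ⟨N, θ, hF⟩ := C.exists_fine he0
  obtain ⟨lam, t, hlN, htN, hlens⟩ := hF.lens h0
  refine ⟨N, θ, hF.1, le_trans ?_ (area_one C.toDia N θ hF.1 lam t hlens)⟩
  obtain ⟨x, hx⟩ : ∃ x : ℕ → ℝ, ∀ k, x k = C.dX (θ k) (θ (k + 1)) := ⟨_, fun _ => rfl⟩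
  obtain ⟨y, hy⟩ : ∃ y : ℕ → ℝ, ∀ k, y k = C.dY (θ k) (θ (k + 1)) := ⟨_, fun _ => rfl⟩
  have hx0 : ∀ k, 0 ≤ x k := fun k => by rw [hx]; exact norm_nonneg _
  have hy0 : ∀ k, 0 ≤ y k := fun k => by rw [hy]; exact norm_nonneg _
  -- chords of gaps are at most `S`
  have hcap : ∀ k < N, C.IsGap (θ k) (θ (k + 1)) → x k ≤ S ∧ y k ≤ S := fun k hk hgap => by
    have hp := hF.comb_mem hk.le
    have hq := hF.comb_mem (Nat.succ_le_of_lt hk)
    rw [hx, hy]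
    rcases hS with h | ⟨h1, h2⟩
    · rw [h]; exact (hg _ hp _ hq hgap).2
    · exact ⟨(abs_le_of_sq_le_sq' ((C.capX h1 hp hq hgap).trans h2) hS0).2,
        (abs_le_of_sq_le_sq' ((C.capY h1 hp hq hgap).trans h2) hS0).2⟩
  -- the loss of one cell
  have hcell : ∀ k ∈ range N, 12 * loss (θ (k + 1) - θ k) (lam k) (t k) (mh (θ (k + 1) - θ k))
      ≤ e ^ 2 * (θ (k + 1) - θ k) + cf * (x k ^ 3 + y k ^ 3) := fun k hk => by
    have hk' : k < N := mem_range.1 hk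
    have hp := hF.comb_mem hk'.le
    have hq := hF.comb_mem (Nat.succ_le_of_lt hk')
    have hd : 0 ≤ θ (k + 1) - θ k := sub_nonneg.2 (hF.comb_mono (Nat.le_succ k) hk')
    have hdπ : θ (k + 1) - θ k ≤ π := by linarith [hp.2.1, hq.2.2, C.T_lt]
    have hle := hlens k hk'.le
    have hxk := hx0 k
    have hyk := hy0 k
    rcases hF.2.2 k hk' with h | h
    · have h1 := cell_triv hd hdπ hle.1 hle.2.1 hle.2.2.1 (mh_nonneg hd)
      have h2 : (θ (k + 1) - θ k) ^ 2 ≤ e ^ 2 := pow_le_pow_left₀ hd h 2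
      have h3 : 0 ≤ cf * (x k ^ 3 + y k ^ 3) := by positivity
      nlinarith
    · have hd1 := (hg _ hp _ hq h).1
      have h1 := cell_one hd hd1 hle.1 hle.2.1 hle.2.2.1
      have h2 := cube_ge C.toDia hp.1 hq.1 (by linarith) (by linarith) hle
      obtain ⟨be, -, -, h3, h4⟩ := lens_ge C.toDia hp.1 hq.1 (by linarith) hle
      rw [← hx, ← hy] at h2
      rw [← hx] at h3
      rw [← hy] at h4
      have hs0 : 0 ≤ sin ((θ (k + 1) - θ k) / 2) :=
        sin_nonneg_of_nonneg_of_le_pi (by linarith) (by linarith [pi_pos])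
      have h5 : 101 / 100 + 11 / 20 * sin ((θ (k + 1) - θ k) / 2) ^ 2 ≤ cf := by
        rcases hcf with h6 | h6
        · have := pow_le_pow_left₀ hs0 (sin_half_le hd hd1) 2
          linarith
        · have h7 : sin ((θ (k + 1) - θ k) / 2) ≤ S := by linarith [hcap k hk' h]
          have := pow_le_pow_left₀ hs0 h7 2
          linarith
      have h6 := mul_le_mul h5 h2 (by positivity) hcf0
      have h7 : 0 ≤ e ^ 2 * (θ (k + 1) - θ k) := by positivity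
      linarith
  have hsum := sum_le_sum hcell
  rw [← mul_sum, sum_add_distrib, ← mul_sum, ← mul_sum, sum_add_distrib, hF.sum_len] at hsum
  obtain ⟨b1, b2, b3⟩ := C.len_bounds hF
  simp only [← hx, ← hy] at b1 b2 b3
  have cX : ∑ k ∈ (range N).filter (fun k => e < x k), x k ^ 3
      ≤ S ^ 2 * (∑ k ∈ range N, x k - 6 * S / 7) := by
    have hb : ∀ k ∈ (range N).filter (fun k => e < x k), x k ≤ S := fun k hk => by
      obtain ⟨h1, h2⟩ := mem_filter.1 hk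
      exact (hcap k (mem_range.1 h1) (hF.gap_of_lt (mem_range.1 h1) (Or.inl (hx k ▸ h2)))).1
    refine cubes_cap _ x (fun k _ => hx0 k) _ S hS0 (by linarith [C.lemA.1]) hb fun k hk => ?_
    have h1 := C.stretchX hF he0 heL x hx k hk
    rwa [min_eq_left ((hb k hk).trans hSL)] at h1
  have cY : ∑ k ∈ (range N).filter (fun k => e < y k), y k ^ 3
      ≤ S ^ 2 * (∑ k ∈ range N, y k - 6 * S / 7) := by
    have hb : ∀ k ∈ (range N).filter (fun k => e < y k), y k ≤ S := fun k hk => by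
      obtain ⟨h1, h2⟩ := mem_filter.1 hk
      exact (hcap k (mem_range.1 h1) (hF.gap_of_lt (mem_range.1 h1) (Or.inr (hy k ▸ h2)))).2
    refine cubes_cap _ y (fun k _ => hy0 k) _ S hS0 (by linarith [C.lemA.2]) hb fun k hk => ?_
    have h1 := C.stretchY hF he0 heL y hy k hk
    rwa [min_eq_left ((hb k hk).trans hSL)] at h1
  have sX := cubes_split (range N) x (fun k _ => hx0 k) e
  have sY := cubes_split (range N) y (fun k _ => hy0 k) e
  have hTπ := C.T_lt.le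
  have k1 : ∑ k ∈ range N, x k ^ 3 + ∑ k ∈ range N, y k ^ 3
      ≤ S ^ 2 * (C.T - 12 * S / 7) + e ^ 2 * π := by
    have h1 := mul_le_mul_of_nonneg_left b3 (sq_nonneg S)
    have h2 := mul_le_mul_of_nonneg_left (b3.trans hTπ) (sq_nonneg e)
    linarith
  have k2 := mul_le_mul_of_nonneg_left k1 hcf0
  have k3 := mul_le_mul_of_nonneg_left hTπ (sq_nonneg e)
  have e1 : 2 * ((π - C.T) / 2) = π - C.T := by ring
  have e2 : loss (π - C.T) lam₀ |t₀| (mh (π - C.T)) = loss (π - C.T) lam₀ t₀ (mh (π - C.T)) := by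
    simp only [loss, cos_abs]
  rw [e1, e2, sub_sub_cancel] at hnum
  rw [sum_range_succ, hlN, htN, hF.1.2.1, hF.2.1]
  linarith

end Pool.Agent.P.MP_4c4e6e_co
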