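import Pool.Agent.P.MP_4c4e6e_co.Fin1
import Pool.Agent.P.MP_4c4e6e_co.Area2
import Pool.Agent.P.MP_4c4e6e_co.Kill

/-! The lower bound when there is a long gap. -/

namespace Pool.Agent.P.MP_4c4e6e_co

open Real Finset

/-- The stretching property of a sequence of chords. -/
def FinStr (N : ℕ) (x : ℕ → ℝ) (e L : ℝ) : Prop :=
  ∀ k ∈ (range N).filter (fun k => e < x k),
    ∑ i ∈ (range N).filter (fun k => e < x k) with x k ≤ x i, x i + min (x k) L ≤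
      ∑ i ∈ range N, x i

theorem fin_single {N : ℕ} {x : ℕ → ℝ} {e L : ℝ} (hx : ∀ k, 0 ≤ x k) (hs : FinStr N x e L)
    {k : ℕ} (hk : k < N) (he : e < x k) : x k + min (x k) L ≤ ∑ i ∈ range N, x i := by
  have hm : k ∈ (range N).filter (fun k => e < x k) := mem_filter.2 ⟨mem_range.2 hk, he⟩
  have h1 := hs k hm
  have h2 : x k ≤ ∑ i ∈ (range N).filter (fun k => e < x k) with x k ≤ x i, x i :=
    Finset.single_le_sum (f := x) (fun i _ => hx i) (mem_filter.2 ⟨hm, le_rfl⟩)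
  linarith

theorem fin_half {N : ℕ} {x : ℕ → ℝ} {e L : ℝ} (hx : ∀ k, 0 ≤ x k) (hs : FinStr N x e L)
    (he : 2 * e ≤ ∑ i ∈ range N, x i) {k : ℕ} (hk : k < N) (hL : x k ≤ L) :
    2 * x k ≤ ∑ i ∈ range N, x i := by
  by_cases h : e < x k
  · have := fin_single hx hs hk h
    rw [min_eq_left hL] at this
    linarith
  · linarith [not_lt.1 h]

theorem fin_small {N : ℕ} {x : ℕ → ℝ} (e : ℝ) (hx : ∀ k, 0 ≤ x k) :
    ∑ k ∈ range N, x k ^ 3 ≤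
      ∑ k ∈ (range N).filter (fun k => e < x k), x k ^ 3 + e ^ 2 * ∑ k ∈ range N, x k := by
  rw [sum_filter, mul_sum, ← sum_add_distrib]
  refine sum_le_sum fun k _ => ?_
  have h0 := hx k
  split_ifs with h
  · have : 0 ≤ e ^ 2 * x k := by positivity
    linarith
  · have h1 : x k ^ 2 ≤ e ^ 2 := pow_le_pow_left₀ h0 (not_lt.1 h) 2
    have h2 := mul_le_mul_of_nonneg_right h1 h0
    nlinarith

theorem fin_str_le {N : ℕ} {x : ℕ → ℝ} {e L : ℝ} (hs : FinStr N x e L)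
    (hL : ∀ k < N, x k ≤ L) : ∀ k ∈ (range N).filter (fun k => e < x k),
    ∑ i ∈ (range N).filter (fun k => e < x k) with x k ≤ x i, x i + x k ≤ ∑ i ∈ range N, x i := by
  intro k hk
  have := hs k hk
  rwa [min_eq_left (hL k (mem_range.1 (mem_filter.1 hk).1))] at this

theorem fin_cubes_half {N : ℕ} {x : ℕ → ℝ} {e L : ℝ} (hx : ∀ k, 0 ≤ x k) (hs : FinStr N x e L)
    (hL : ∀ k < N, x k ≤ L) :
    ∑ k ∈ range N, x k ^ 3 ≤ (∑ k ∈ range N, x k) ^ 3 / 7 + e ^ 2 * ∑ k ∈ range N, x k := by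
  have h1 := cubes_half _ x (fun k _ => hx k) _ (sum_nonneg fun k _ => hx k) (fin_str_le hs hL)
  linarith [fin_small (N := N) e hx]

theorem fin_cubes_cap {N : ℕ} {x : ℕ → ℝ} {e L S : ℝ} (hx : ∀ k, 0 ≤ x k) (hs : FinStr N x e L)
    (hL : ∀ k < N, x k ≤ L) (hS : 0 ≤ S) (hr : S ≤ ∑ k ∈ range N, x k)
    (hxS : ∀ k < N, e < x k → x k ≤ S) :
    ∑ k ∈ range N, x k ^ 3 ≤
      S ^ 2 * (∑ k ∈ range N, x k - 6 * S / 7) + e ^ 2 * ∑ k ∈ range N, x k := by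
  have h1 := cubes_cap _ x (fun k _ => hx k) _ S hS hr
    (fun k hk => hxS k (mem_range.1 (mem_filter.1 hk).1) (mem_filter.1 hk).2) (fin_str_le hs hL)
  linarith [fin_small (N := N) e hx]

theorem fin_two_cubes {X Y d T : ℝ} (hd : 0 ≤ d) (hX : d ≤ X) (hY : d ≤ Y) (hT : X + Y ≤ T) :
    X ^ 3 + Y ^ 3 ≤ (T - d) ^ 3 + d ^ 3 := by
  have h1 : (X + Y - d) ^ 3 ≤ (T - d) ^ 3 := pow_le_pow_left₀ (by linarith) (by linarith) 3
  have h2 : 0 ≤ (X + Y) * ((X - d) * (Y - d)) :=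
    mul_nonneg (by linarith) (mul_nonneg (by linarith) (by linarith))
  nlinarith

theorem fin_big_cubes {X Y d T L : ℝ} (hL : 0 ≤ L) (hd : 0 ≤ d) (hX : 2 * L ≤ X) (hY : d ≤ Y)
    (hT : X + Y ≤ T) (h4 : T ≤ 4 * L) :
    (X - L) ^ 3 + Y ^ 3 / 7 ≤ (T - d - L) ^ 3 + d ^ 3 / 7 := by
  have h1 : (X - L + (Y - d)) ^ 3 ≤ (T - d - L) ^ 3 :=
    pow_le_pow_left₀ (by linarith) (by linarith) 3
  have hA : L ^ 2 ≤ (X - L) ^ 2 := pow_le_pow_left₀ hL (by linarith) 2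
  have hY2 : Y ^ 2 ≤ (2 * L) ^ 2 := pow_le_pow_left₀ (by linarith) (by linarith) 2
  have hd2 : d ^ 2 ≤ Y ^ 2 := pow_le_pow_left₀ hd hY 2
  have hdY : d * Y ≤ Y ^ 2 := by nlinarith
  have hδ : 0 ≤ Y - d := by linarith
  have h2 : 0 ≤ (Y - d) * (3 * (X - L) ^ 2 - (Y ^ 2 + d * Y + d ^ 2) / 7) :=
    mul_nonneg hδ (by nlinarith)
  have h3 : 0 ≤ (X - L) * (Y - d) ^ 2 := mul_nonneg (by linarith) (sq_nonneg _)
  have h4 : 0 ≤ (Y - d) ^ 3 := pow_nonneg hδ 3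
  nlinarith

theorem fin_caseA {N : ℕ} {x y ls sg b : ℕ → ℝ} {e L d T c : ℝ} (hx : ∀ k, 0 ≤ x k)
    (hy : ∀ k, 0 ≤ y k) (sx : FinStr N x e L) (sy : FinStr N y e L) (he0 : 0 ≤ e)
    (he : 2 * e ≤ L) (hLd : L ≤ d) (hY : d ≤ ∑ k ∈ range N, y k)
    (hT : ∑ k ∈ range N, x k + ∑ k ∈ range N, y k ≤ T) (h4 : T ≤ 4 * L) (hc : c ≤ L)
    (h1 : ∀ k < N, 2 * sg k ≤ x k + y k) (h2 : ∀ k < N, 3 * sg k - b k ≤ x k + 2 * y k)
    (c1 : ∀ k < N, 2 * sg k ≤ T / 2 → ls k ≤ 61 / 50 * (x k ^ 3 + y k ^ 3))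
    (c2 : ∀ k < N, T / 2 ≤ 2 * sg k → 3 * sg k + c - T ≤ b k →
      ls k ≤ 133 / 100 * (x k ^ 3 + y k ^ 3))
    (hb : ∃ k < N, L < x k) :
    2 * L + d ≤ T ∧ ∑ k ∈ range N, ls k ≤
      133 / 100 * ((T - d - L) ^ 3 + L ^ 3 / 7 + d ^ 3 / 7) + 133 / 100 * (e ^ 2 * T) := by
  have hL : 0 ≤ L := by linarith
  obtain ⟨k₀, hk₀, hb⟩ := hb
  obtain ⟨g1, g2⟩ := cubes_big _ x (fun k _ => hx k) _ L hL (by linarith)
    ⟨k₀, mem_filter.2 ⟨mem_range.2 hk₀, by linarith [hx k₀]⟩, hb⟩ sx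
  have hbig : ∀ {z : ℕ → ℝ}, (∀ k, 0 ≤ z k) → FinStr N z e L → ∀ k < N, L < z k →
      z k + L ≤ ∑ i ∈ range N, z i := by
    intro z hz sz k hk h
    have := fin_single hz sz hk (by linarith)
    rwa [min_eq_right h.le] at this
  have hyL : ∀ k < N, y k ≤ L := by
    intro k hk
    by_contra h
    have := hbig hy sy k hk (not_le.1 h)
    linarith [not_le.1 h]
  have g3 := fin_cubes_half hy sy hyL
  have g4 := fin_small (N := N) e hx
  have g5 := fin_big_cubes hL (by linarith) g1.le hY hT h4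
  have g6 : e ^ 2 * (∑ k ∈ range N, x k + ∑ k ∈ range N, y k) ≤ e ^ 2 * T :=
    mul_le_mul_of_nonneg_left hT (sq_nonneg e)
  have g7 : ∑ k ∈ range N, ls k ≤ ∑ k ∈ range N, 133 / 100 * (x k ^ 3 + y k ^ 3) := by
    refine sum_le_sum fun k hk => ?_
    have hk := mem_range.1 hk
    rcases le_or_gt (2 * sg k) (T / 2) with h | h
    · have a1 := c1 k hk h
      have a2 : 0 ≤ x k ^ 3 + y k ^ 3 := add_nonneg (pow_nonneg (hx k) 3) (pow_nonneg (hy k) 3)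
      linarith
    · have a1 := fin_half hy sy (by linarith) hk (hyL k hk)
      have a2 : L < x k := by
        by_contra h'
        have := fin_half hx sx (by linarith) hk (not_lt.1 h')
        linarith [h1 k hk]
      have a3 := hbig hx sx k hk a2
      exact c2 k hk h.le (by linarith [h2 k hk])
  rw [← mul_sum, sum_add_distrib] at g7
  exact ⟨by linarith, by linarith⟩

theorem fin_caseB {N : ℕ} {x y ls sg : ℕ → ℝ} {e L T : ℝ} (hx : ∀ k, 0 ≤ x k)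
    (hy : ∀ k, 0 ≤ y k) (sx : FinStr N x e L) (sy : FinStr N y e L)
    (hX : 2 * e ≤ ∑ k ∈ range N, x k) (hY : 2 * e ≤ ∑ k ∈ range N, y k)
    (hT : ∑ k ∈ range N, x k + ∑ k ∈ range N, y k ≤ T)
    (h1 : ∀ k < N, 2 * sg k ≤ x k + y k)
    (c1 : ∀ k < N, 2 * sg k ≤ T / 2 → ls k ≤ 61 / 50 * (x k ^ 3 + y k ^ 3))
    (hxL : ∀ k < N, x k ≤ L) (hyL : ∀ k < N, y k ≤ L) :
    ∑ k ∈ range N, ls k ≤ 61 / 50 * (∑ k ∈ range N, x k ^ 3 + ∑ k ∈ range N, y k ^ 3) := by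
  rw [← sum_add_distrib, mul_sum]
  refine sum_le_sum fun k hk => ?_
  have hk := mem_range.1 hk
  have a1 := fin_half hx sx hX hk (hxL k hk)
  have a2 := fin_half hy sy hY hk (hyL k hk)
  exact c1 k hk (by linarith [h1 k hk])

theorem fin_le_of_sq {x a u : ℝ} (hx : 0 ≤ x) (h : x ^ 2 = a ^ 2 + u ^ 2) : u ≤ x :=
  (abs_le_of_sq_le_sq' (by nlinarith [sq_nonneg a]) hx).2

theorem fin_sin {h : ℝ} (h0 : 113 / 200 ≤ h) (h1 : h ≤ 747 / 1000) : 51 / 100 ≤ sin h := by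
  have := Real.sin_gt_sub_cube (x := h) (by linarith)
  have h2 : h ^ 2 ≤ (747 / 1000) ^ 2 := pow_le_pow_left₀ (by linarith) h1 2
  have h3 : 0 ≤ (h - 113 / 200) * (6 - (h ^ 2 + 113 / 200 * h + (113 / 200) ^ 2)) :=
    mul_nonneg (by linarith) (by nlinarith)
  nlinarith

theorem fin_frame {s c al be L d1 d2 : ℝ} (hc : 0 ≤ c) (hL0 : 0 ≤ L) (h1 : L ≤ d1) (h2 : L ≤ d2)
    (fL : L ^ 2 = al ^ 2 + (s + be) ^ 2) (f1 : d1 ^ 2 = be ^ 2 + (c - al) ^ 2)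
    (f2 : d2 ^ 2 = be ^ 2 + (c + al) ^ 2) :
    2 * s * be + 2 * c * |al| ≤ c ^ 2 - s ^ 2 ∧ L = √(|al| ^ 2 + (s + be) ^ 2) ∧
      L ≤ √(be ^ 2 + (c - |al|) ^ 2) ∧ √(be ^ 2 + (c - |al|) ^ 2) ≤ d1 ∧
      √(be ^ 2 + (c - |al|) ^ 2) ≤ d2 := by
  have hA1 : L ^ 2 ≤ d1 ^ 2 := pow_le_pow_left₀ hL0 h1 2
  have hA2 : L ^ 2 ≤ d2 ^ 2 := pow_le_pow_left₀ hL0 h2 2
  have hsq : |al| ^ 2 = al ^ 2 := sq_abs al
  have hLd : L ^ 2 ≤ be ^ 2 + (c - |al|) ^ 2 := by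
    rcases abs_cases al with ⟨h', -⟩ | ⟨h', -⟩
    · rw [h']; linarith
    · rw [h', sub_neg_eq_add]; linarith
  have hm1 : c * al ≤ c * |al| := mul_le_mul_of_nonneg_left (le_abs_self al) hc
  have hm2 : c * -al ≤ c * |al| := mul_le_mul_of_nonneg_left (neg_le_abs al) hc
  refine ⟨by nlinarith, by rw [hsq, ← fL, Real.sqrt_sq hL0], Real.le_sqrt_of_sq_le hLd,
    Real.sqrt_le_iff.2 ⟨by linarith, by nlinarith⟩, Real.sqrt_le_iff.2 ⟨by linarith, by nlinarith⟩⟩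

theorem lower_two (C : Cfg) (hl : C.l ≤ C.L) (hT : 113 / 100 ≤ π - C.T)
    (hg : ∀ p ∈ C.I, ∀ q ∈ C.I, C.IsGap p q → q - p ≤ π - C.T) {ε : ℝ} (hε : 0 < ε) :
    ∃ N θ, C.IsPart N θ ∧ π / 3 - √3 / 4 - ε ≤ C.Sh N θ := by
  have hT' : π - C.T < 747 / 500 := lt_of_not_ge fun h => C.kill hl h
  have hπ0 := Real.pi_gt_d2
  have hπ1 := Real.pi_lt_d2
  obtain ⟨e, he0, he1, he2⟩ : ∃ e : ℝ, 0 < e ∧ e ≤ 1 / 4 ∧ e ≤ ε :=
    ⟨min (1 / 4) ε, lt_min (by norm_num) hε, min_le_left _ _, min_le_right _ _⟩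
  obtain ⟨N, θ, hF⟩ := C.exists_fine he0
  have hP := hF.1
  have hN := hF.2.1
  have hI : ∀ k ≤ N, θ k ∈ C.I := fun k hk => hF.comb_mem hk
  have hlt : ∀ k < N, θ k < θ (k + 1) := fun k hk => hP.2.2.1 k hk.le
  have hlen : ∀ k < N, θ (k + 1) - θ k ≤ π - C.T := by
    intro k hk
    rcases hF.2.2 k hk with h | h
    · linarith
    · exact hg _ (hI k hk.le) _ (hI (k + 1) hk) h
  have hex : ∀ k, ∃ lam t, k ≤ N → C.IsLens (θ k) (θ (k + 1)) lam t := by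
    intro k
    by_cases hk : k ≤ N
    · obtain ⟨lam, t, h⟩ := C.exists_lens (hP.2.2.2 k (by omega)) (hP.2.2.2 (k + 1) (by omega))
        (hP.2.2.1 k hk) (by
          rcases hk.eq_or_lt with rfl | hk'
          · rw [hP.2.1, hN]; linarith
          · linarith [hlen k hk'])
      exact ⟨lam, t, fun _ => h⟩
    · exact ⟨0, 0, fun h => absurd h hk⟩
  choose lam t hlens using hex
  obtain ⟨sp, hsp, nu, hnu, harea⟩ :=
    area_two C.toDia N θ hP lam t hlens C.T hN (by linarith) (by linarith)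
  refine ⟨N, θ, hP, ?_⟩
  have hlN : C.IsLens C.T π (lam N) (t N) := by
    have := hlens N le_rfl
    rwa [hN, hP.2.1] at this
  obtain ⟨al, fa, fL, -, f1, f2⟩ := C.frame hlN hl
  obtain ⟨hl0, hl1, htN, -⟩ := hlN
  set h : ℝ := (π - C.T) / 2 with hh
  have hh0 : 113 / 200 ≤ h := by linarith
  have hh1 : h ≤ 747 / 1000 := by linarith
  have hsin : sin |t N| = |sin (t N)| := by
    rw [Real.abs_sin_eq_sin_abs_of_abs_le_pi (by linarith)]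
  rw [← hsin] at fL f1 f2
  rw [← Real.cos_abs (t N)] at fa harea
  have hsn : 0 ≤ sin |t N| := by rw [hsin]; exact abs_nonneg _
  set be : ℝ := lam N * sin |t N| with hbe
  have hbe0 : 0 ≤ be := mul_nonneg hl0 hsn
  have hL0 : 0 ≤ C.L := norm_nonneg _
  have hcos : 0 ≤ cos h := cos_nonneg_of_mem_Icc ⟨by linarith, by linarith⟩
  have hsh : 51 / 100 ≤ sin h := fin_sin hh0 hh1
  have hLs : sin h ≤ C.L := by linarith [fin_le_of_sq hL0 fL]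
  obtain ⟨hA1, hA2⟩ := C.lemA
  obtain ⟨hA, hLe, hLd, hdd1, hdd2⟩ := fin_frame hcos hL0 hA1 hA2 fL f1 f2
  obtain ⟨d, hd⟩ : ∃ d : ℝ, d = √(be ^ 2 + (cos h - |al|) ^ 2) := ⟨_, rfl⟩
  rw [← hd] at hLd hdd1 hdd2
  have hL1 : C.L ≤ 1 := C.dist_le _ C.zero_mem _ (C.add_pi _ C.T_mem)
  obtain ⟨G, hG⟩ : ∃ G : ℝ, G = 12 * (C.T / 2 + lam N * sin C.T / 2 +
      lam N ^ 2 * (cos (C.T / 2) * (cos |t N| - sin (C.T / 2))) - AH C.T (lam N) sp -
      (π / 3 - √3 / 4)) := ⟨_, rfl⟩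
  obtain ⟨n1, n2⟩ := num_two h (lam N) |t N| sp |al| be C.L d C.T G hh0 hh1 hl0 hl1
    (abs_nonneg _) htN hsp.1 hsp.2 fa rfl hA hLe hL1 hd (by linarith) hG
  obtain ⟨x, hx⟩ : ∃ x : ℕ → ℝ, ∀ k, x k = C.dX (θ k) (θ (k + 1)) := ⟨_, fun _ => rfl⟩
  obtain ⟨y, hy⟩ : ∃ y : ℕ → ℝ, ∀ k, y k = C.dY (θ k) (θ (k + 1)) := ⟨_, fun _ => rfl⟩
  obtain ⟨ls, hls⟩ : ∃ ls : ℕ → ℝ, ∀ k,
      ls k = 12 * loss (θ (k + 1) - θ k) (lam k) (t k) (nu k) := ⟨_, fun _ => rfl⟩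
  obtain ⟨sg, hsg⟩ : ∃ sg : ℕ → ℝ, ∀ k, sg k = sin ((θ (k + 1) - θ k) / 2) := ⟨_, fun _ => rfl⟩
  obtain ⟨b, hb⟩ : ∃ b : ℕ → ℝ, ∀ k, b k = lam k * |sin (t k)| := ⟨_, fun _ => rfl⟩
  have hx0 : ∀ k, 0 ≤ x k := fun k => by rw [hx]; exact norm_nonneg _
  have hy0 : ∀ k, 0 ≤ y k := fun k => by rw [hy]; exact norm_nonneg _
  have sx : FinStr N x e C.L := C.stretchX hF he0 (by linarith) x hx
  have sy : FinStr N y e C.L := C.stretchY hF he0 (by linarith) y hy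
  obtain ⟨b1, b2, b3⟩ := C.len_bounds hF
  simp only [← hx, ← hy] at b1 b2 b3
  have hΘ : ∀ k ≤ N, θ k ∈ C.Θ := fun k hk => (hI k hk).1
  have hxy : ∀ k < N, 2 * sg k ≤ x k + y k ∧ 3 * sg k - b k ≤ x k + 2 * y k ∧
      3 * sg k - b k ≤ y k + 2 * x k := by
    intro k hk
    obtain ⟨a', b', -, q2, q3, q4, -⟩ := C.lens_sq (hΘ k hk.le) (hΘ (k + 1) hk)
      (by linarith [hlen k hk]) (hlens k hk.le)
    rw [← hx, ← hsg] at q3
    rw [← hy, ← hsg] at q4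
    rw [← hb] at q2
    have r1 := fin_le_of_sq (hx0 k) q3
    have r2 := fin_le_of_sq (hy0 k) q4
    have r3 := le_abs_self b'
    have r4 := neg_le_abs b'
    exact ⟨by linarith, by linarith, by linarith⟩
  have hcube : ∀ k < N, 2 * sin ((θ (k + 1) - θ k) / 2) ^ 3 +
      6 * sin ((θ (k + 1) - θ k) / 2) * (lam k * sin (t k)) ^ 2 ≤ x k ^ 3 + y k ^ 3 := by
    intro k hk
    rw [hx, hy]
    exact cube_ge C.toDia (hΘ k hk.le) (hΘ (k + 1) hk) (hlt k hk).le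
      (by linarith [hlen k hk]) (hlens k hk.le)
  have c1 : ∀ k < N, 2 * sg k ≤ C.T / 2 → ls k ≤ 61 / 50 * (x k ^ 3 + y k ^ 3) := by
    intro k hk hs
    obtain ⟨p1, p2, p3, -⟩ := hlens k hk.le
    rw [hsg] at hs
    have := cell_two (w := C.T / 2) (by linarith) (by linarith) (by linarith [hlt k hk])
      (by linarith [hlen k hk]) p1 p2 p3 (hnu k hk) hs
    rw [hls]
    linarith [hcube k hk]
  have c2 : ∀ k < N, C.T / 2 ≤ 2 * sg k → 3 * sg k + cos (C.T / 2) - C.T ≤ b k →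
      ls k ≤ 133 / 100 * (x k ^ 3 + y k ^ 3) := by
    intro k hk hs hv
    obtain ⟨p1, p2, p3, -⟩ := hlens k hk.le
    rw [hsg] at hs hv
    rw [hb] at hv
    have := cell_big (w := C.T / 2) (by linarith) (by linarith) (by linarith [hlt k hk])
      (by linarith [hlen k hk]) p1 p2 p3 (hnu k hk) hs (by linarith)
    rw [hls]
    linarith [hcube k hk]
  have hc : cos (C.T / 2) ≤ C.L := by
    have : C.T / 2 = π / 2 - h := by rw [hh]; ring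
    rw [this, cos_pi_div_two_sub]
    exact hLs
  have herr : e ^ 2 * C.T ≤ ε := by
    have a1 : e * e ≤ 1 / 4 * ε := mul_le_mul he1 he2 he0.le (by norm_num)
    have a2 : e ^ 2 * C.T ≤ e ^ 2 * 4 := mul_le_mul_of_nonneg_left (by linarith) (sq_nonneg e)
    nlinarith
  have hsum : ∑ k ∈ range N, ls k =
      12 * ∑ k ∈ range N, loss (θ (k + 1) - θ k) (lam k) (t k) (nu k) := by
    rw [mul_sum]
    exact sum_congr rfl fun k _ => hls k
  suffices key : ∑ k ∈ range N, ls k ≤ G + 133 / 100 * (e ^ 2 * C.T) by linarith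
  by_cases hbx : ∃ k < N, C.L < x k
  · obtain ⟨r1, r2⟩ := fin_caseA hx0 hy0 sx sy he0.le (by linarith) hLd
      (hdd2.trans b2) b3 (by linarith) hc (fun k hk => (hxy k hk).1)
      (fun k hk => (hxy k hk).2.1) c1 c2 hbx
    linarith [n1 r1]
  by_cases hby : ∃ k < N, C.L < y k
  · obtain ⟨r1, r2⟩ := fin_caseA (ls := ls) (sg := sg) (b := b) (T := C.T) hy0 hx0 sy sx he0.le
      (by linarith) hLd (hdd1.trans b1) (by linarith) (by linarith) hc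
      (fun k hk => by linarith [(hxy k hk).1]) (fun k hk => (hxy k hk).2.2)
      (fun k hk hs => by linarith [c1 k hk hs]) (fun k hk hs hv => by linarith [c2 k hk hs hv])
      hby
    linarith [n1 r1]
  push Not at hbx hby
  have r1 := fin_caseB hx0 hy0 sx sy (by linarith) (by linarith) b3 (fun k hk => (hxy k hk).1)
    c1 hbx hby
  have r2 : e ^ 2 * (∑ k ∈ range N, x k + ∑ k ∈ range N, y k) ≤ e ^ 2 * C.T :=
    mul_le_mul_of_nonneg_left b3 (sq_nonneg e)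
  have r3 : 0 ≤ e ^ 2 * C.T := mul_nonneg (sq_nonneg e) C.T_nonneg
  rcases n2 with n2 | ⟨S, hS0, hSL, h69, hcap, n2⟩
  · have s1 := fin_cubes_half hx0 sx hbx
    have s2 := fin_cubes_half hy0 sy hby
    have s3 := fin_two_cubes (by linarith) (hdd1.trans b1) (hdd2.trans b2) b3
    linarith
  · have hgap : ∀ k < N, e < x k ∨ e < y k → C.IsGap (θ k) (θ (k + 1)) := by
      intro k hk hor
      refine (hF.2.2 k hk).resolve_left fun hs => ?_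
      have := C.comb_len (hI k hk.le) (hI (k + 1) hk) (hlt k hk).le
      rw [← hx, ← hy] at this
      rcases hor with h' | h' <;> linarith [hx0 k, hy0 k]
    have s1 := fin_cubes_cap hx0 sx hbx hS0 (by linarith) (fun k hk h' => by
      have := C.capX h69 (hI k hk.le) (hI (k + 1) hk) (hgap k hk (Or.inl h'))
      rw [← hx] at this
      exact (abs_le_of_sq_le_sq' (this.trans hcap) hS0).2)
    have s2 := fin_cubes_cap hy0 sy hby hS0 (by linarith) (fun k hk h' => by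
      have := C.capY h69 (hI k hk.le) (hI (k + 1) hk) (hgap k hk (Or.inr h'))
      rw [← hy] at this
      exact (abs_le_of_sq_le_sq' (this.trans hcap) hS0).2)
    have s3 : S ^ 2 * (∑ k ∈ range N, x k + ∑ k ∈ range N, y k) ≤ S ^ 2 * C.T :=
      mul_le_mul_of_nonneg_left b3 (sq_nonneg S)
    linarith

end Pool.Agent.P.MP_4c4e6e_co
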