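import Pool.Agent.P.MP_4c4e6e_co.Dia

/-! Geometry of the diameter end points. -/

namespace Pool.Agent.P.MP_4c4e6e_co

open Real Finset

namespace GeoAux

theorem dot_U_add (a : ℂ) (s t : ℝ) :
    dot a (U (s + t)) = dot a (U s) * cos t + cross (U s) a * sin t := by
  simp [dot, cross, cos_add, sin_add]; ring

theorem sq_frame (a : ℂ) (s : ℝ) : ‖a‖ ^ 2 = dot a (U s) ^ 2 + cross (U s) a ^ 2 := by
  simp only [normSq_eq, dot, cross, U_re, U_im]
  linear_combination (a.re ^ 2 + a.im ^ 2) * (cos_sq_add_sin_sq s).symm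

theorem sq_add (a b : ℂ) : ‖a + b‖ ^ 2 = ‖a‖ ^ 2 + 2 * dot a b + ‖b‖ ^ 2 := by
  simp only [normSq_eq, dot, Complex.add_re, Complex.add_im]; ring

theorem dot_cone (p q s t : ℝ) (w : ℂ) : dot (p • U (s + π / 2) + q • U (t + π / 2)) w =
    p * cross (U s) w + q * cross (U t) w := by
  simp [dot, cross, cos_add_pi_div_two, sin_add_pi_div_two]; ring

theorem cross_U_add_pi (s : ℝ) (w : ℂ) : cross (U (s + π)) w = -cross (U s) w := by
  simp [cross]; ring

theorem U_add (s t : ℝ) : U (s + t) = cos t • U s + sin t • U (s + π / 2) := by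
  apply Complex.ext <;> simp only [Complex.add_re, Complex.add_im, Complex.smul_re,
    Complex.smul_im, U_re, U_im, smul_eq_mul, cos_add_pi_div_two, sin_add_pi_div_two,
    cos_add s t, sin_add s t] <;> ring

theorem U_sub (s t : ℝ) : U (s - t) = cos t • U s - sin t • U (s + π / 2) := by
  rw [sub_eq_add_neg, U_add, cos_neg, sin_neg, neg_smul, sub_eq_add_neg]

theorem norm_frame (a b s : ℝ) : ‖a • U s + b • U (s + π / 2)‖ ^ 2 = a ^ 2 + b ^ 2 := by
  simp only [normSq_eq, Complex.add_re, Complex.add_im, Complex.smul_re, Complex.smul_im, U_re,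
    U_im, smul_eq_mul, cos_add_pi_div_two, sin_add_pi_div_two]
  linear_combination (a ^ 2 + b ^ 2) * cos_sq_add_sin_sq s

theorem norm_U_sub {a b : ℝ} (h : a ≤ b) : ‖U b - U a‖ ≤ b - a := by
  refine abs_le_of_sq_le_sq' ?_ (by linarith) |>.2
  have h1 := one_sub_sq_div_two_le_cos (x := b - a)
  rw [cos_sub] at h1
  simp only [normSq_eq, Complex.sub_re, Complex.sub_im, U_re, U_im]
  nlinarith [cos_sq_add_sin_sq a, cos_sq_add_sin_sq b]

theorem eq_smul_of_cross {v u : ℂ} (hu : u ≠ 0) (h : cross v u = 0) : ∃ x : ℝ, v = x • u := by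
  have h0 : u.re ^ 2 + u.im ^ 2 ≠ 0 := by
    rw [← normSq_eq]; exact pow_ne_zero _ (norm_ne_zero_iff.2 hu)
  refine ⟨dot v u / (u.re ^ 2 + u.im ^ 2), ?_⟩
  simp only [cross] at h
  apply Complex.ext <;> simp only [dot, Complex.smul_re, Complex.smul_im, smul_eq_mul] <;>
    field_simp
  · linear_combination u.im * h
  · linear_combination (-u.re) * h

theorem abs_le_of_cos_le {t h : ℝ} (ht : |t| ≤ π) (h0 : 0 ≤ h) (hc : cos h ≤ cos t) :
    |t| ≤ h := by
  by_contra hn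
  have := cos_lt_cos_of_nonneg_of_le_pi h0 ht (not_le.1 hn)
  rw [cos_abs] at this
  linarith

theorem exists_angle {z : ℂ} (hz : ‖z‖ = 1) (s : ℝ) :
    ∃ t, |t| ≤ π ∧ cos t = dot z (U s) ∧ U (s + t) = z := by
  set w : ℂ := ⟨dot z (U s), cross (U s) z⟩ with hw
  have h1 : ‖w‖ = 1 := by
    have : ‖w‖ ^ 2 = 1 ^ 2 := by rw [normSq_eq, ← hz, sq_frame z s]
    exact (pow_left_inj₀ (norm_nonneg _) zero_le_one two_ne_zero).1 this
  have hc : cos w.arg = dot z (U s) := by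
    rw [Complex.cos_arg (by rintro e; simp [e] at h1), h1, div_one]
  have hs : sin w.arg = cross (U s) z := by rw [Complex.sin_arg, h1, div_one]
  refine ⟨w.arg, Complex.abs_arg_le_pi w, hc, ?_⟩
  apply Complex.ext <;> simp only [U_re, U_im, cos_add, sin_add, hc, hs, dot, cross]
  · linear_combination z.re * cos_sq_add_sin_sq s
  · linear_combination z.im * cos_sq_add_sin_sq s

end GeoAux

open GeoAux

namespace Dia

variable (D : Dia)

theorem per {t : ℝ} (ht : t ∈ D.Θ) : D.γ (t + π + π) = D.γ t := by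
  rw [D.anti _ (D.add_pi t ht), D.anti t ht, U_add_pi]; ring

theorem norm_diam {t : ℝ} (ht : t ∈ D.Θ) : ‖D.γ t - D.γ (t + π)‖ = 1 := by
  rw [D.anti t ht, sub_sub_cancel, norm_U]

theorem ext_le {s t : ℝ} (hs : s ∈ D.Θ) (ht : t ∈ D.Θ) :
    dot (D.γ t - D.γ s) (U s) ≤ -(‖D.γ t - D.γ s‖ ^ 2 / 2) := by
  have h := D.dist_le t ht _ (D.add_pi s hs)
  rw [D.anti s hs, show D.γ t - (D.γ s - U s) = D.γ t - D.γ s + U s by ring] at h
  have h2 := sq_add (D.γ t - D.γ s) (U s)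
  rw [norm_U] at h2
  nlinarith [norm_nonneg (D.γ t - D.γ s + U s)]

theorem proj_le {s t : ℝ} (hs : s ∈ D.Θ) (ht : t ∈ D.Θ) (ψ : ℝ) (hc : 0 ≤ cos (ψ - s)) :
    dot (D.γ t - D.γ s) (U ψ) ≤
      ‖D.γ t - D.γ s‖ * |sin (ψ - s)| - ‖D.γ t - D.γ s‖ ^ 2 * cos (ψ - s) / 2 := by
  have h1 := D.ext_le hs ht
  have h2 := dot_U_add (D.γ t - D.γ s) s (ψ - s)
  rw [add_sub_cancel] at h2
  have h3 : |cross (U s) (D.γ t - D.γ s)| ≤ ‖D.γ t - D.γ s‖ :=
    abs_le_of_sq_le_sq (by rw [sq_frame _ s]; nlinarith [sq_nonneg (dot (D.γ t - D.γ s) (U s))])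
      (norm_nonneg _)
  have h4 : cross (U s) (D.γ t - D.γ s) * sin (ψ - s) ≤ ‖D.γ t - D.γ s‖ * |sin (ψ - s)| :=
    (le_abs_self _).trans (by rw [abs_mul]; gcongr)
  nlinarith [mul_le_mul_of_nonneg_right h1 hc]

theorem cone {s t : ℝ} (hs : s ∈ D.Θ) (ht : t ∈ D.Θ) (h1 : s < t) (h2 : t < s + π) :
    ∃ p q : ℝ, 0 ≤ p ∧ 0 ≤ q ∧ D.γ t - D.γ s = p • U (s + π / 2) + q • U (t + π / 2) := by
  have hp : 0 < sin (t - s) := sin_pos_of_pos_of_lt_pi (by linarith) (by linarith)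
  have a1 : dot (D.γ t - D.γ s) (U s) ≤ 0 := (D.ext_le hs ht).trans (neg_nonpos.2 (by positivity))
  have a2 : dot (D.γ s - D.γ t) (U t) ≤ 0 := (D.ext_le ht hs).trans (neg_nonpos.2 (by positivity))
  refine ⟨-dot (D.γ s - D.γ t) (U t) / sin (t - s), -dot (D.γ t - D.γ s) (U s) / sin (t - s),
    div_nonneg (by linarith) hp.le, div_nonneg (by linarith) hp.le, ?_⟩
  have hp' := hp.ne'
  apply Complex.ext <;> simp only [dot, Complex.add_re, Complex.add_im, Complex.sub_re,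
    Complex.sub_im, Complex.smul_re, Complex.smul_im, U_re, U_im, smul_eq_mul, cos_add_pi_div_two,
    sin_add_pi_div_two] <;> field_simp <;> rw [sin_sub] <;> ring

theorem triple {s t r : ℝ} (hs : s ∈ D.Θ) (ht : t ∈ D.Θ) (hr : r ∈ D.Θ) (h1 : s ≤ t) (h2 : t ≤ r)
    (h3 : r ≤ s + π) : 0 ≤ cross (D.γ t - D.γ s) (D.γ r - D.γ t) := by
  rcases h1.eq_or_lt with rfl | h1
  · simp [cross]
  rcases h2.eq_or_lt with rfl | h2
  · simp [cross]
  obtain ⟨p, q, hp, hq, e⟩ := D.cone hs ht h1 (by linarith)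
  obtain ⟨p', q', hp', hq', e'⟩ := D.cone ht hr h2 (by linarith)
  have s1 := sin_nonneg_of_nonneg_of_le_pi (x := t - s) (by linarith) (by linarith)
  have s2 := sin_nonneg_of_nonneg_of_le_pi (x := r - s) (by linarith) (by linarith)
  have s3 := sin_nonneg_of_nonneg_of_le_pi (x := r - t) (by linarith) (by linarith)
  have : cross (p • U (s + π / 2) + q • U (t + π / 2)) (p' • U (t + π / 2) + q' • U (r + π / 2)) =
      p * p' * sin (t - s) + p * q' * sin (r - s) + q * q' * sin (r - t) := by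
    simp [cross, cos_add_pi_div_two, sin_add_pi_div_two, sin_sub]; ring
  rw [e, e', this]
  positivity

theorem side₁ {s t : ℝ} (hs : s ∈ D.Θ) (ht : t ∈ D.Θ) (h1 : s ≤ t) (h2 : t ≤ s + π) :
    0 ≤ cross (U s) (D.γ t - D.γ s) := by
  have h := D.triple hs ht (D.add_pi s hs) h1 h2 le_rfl
  rw [D.anti s hs] at h
  refine h.trans_eq ?_
  simp [cross]; ring

theorem sub_pi_eq {t : ℝ} (ht : t ∈ D.Θ) : D.γ (t - π) = D.γ t - U t := by
  have h := D.per (D.sub_pi t ht)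
  rw [sub_add_cancel, D.anti t ht] at h
  exact h.symm

theorem side₂ {s t : ℝ} (hs : s ∈ D.Θ) (ht : t ∈ D.Θ) (h1 : s ≤ t) (h2 : t ≤ s + π) :
    0 ≤ cross (U t) (D.γ t - D.γ s) := by
  have h := D.triple (D.sub_pi t ht) hs ht (by linarith) h1 (by linarith)
  rw [D.sub_pi_eq ht] at h
  refine h.trans_eq ?_
  simp [cross]; ring

theorem nest₁ {s t r : ℝ} (hs : s ∈ D.Θ) (ht : t ∈ D.Θ) (hr : r ∈ D.Θ) (h1 : s ≤ t) (h2 : t ≤ r)
    (h3 : r ≤ s + π) : ‖D.γ s - D.γ t‖ ≤ ‖D.γ s - D.γ r‖ := by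
  rcases h1.eq_or_lt with rfl | h1
  · simp
  rcases h2.eq_or_lt with rfl | h2
  · exact le_rfl
  rcases h3.eq_or_lt with rfl | h3
  · rw [D.norm_diam hs]; exact D.dist_le _ hs _ ht
  refine (abs_le_of_sq_le_sq' ?_ (norm_nonneg _)).2
  have c1 := D.side₁ ht hr h2.le (by linarith)
  have c2 := D.side₂ ht hr h2.le (by linarith)
  rcases le_total 0 (cross (U s) (D.γ r - D.γ t)) with c | c
  · obtain ⟨p, q, hp, hq, e⟩ := D.cone hs ht h1 (by linarith)
    have k := dot_cone p q s t (D.γ r - D.γ t)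
    rw [← e] at k
    rw [norm_sub_rev _ (D.γ t), norm_sub_rev _ (D.γ r),
      show D.γ r - D.γ s = D.γ t - D.γ s + (D.γ r - D.γ t) by ring, sq_add, k]
    nlinarith [mul_nonneg hp c, mul_nonneg hq c1, sq_nonneg ‖D.γ r - D.γ t‖]
  · obtain ⟨p, q, hp, hq, e⟩ := D.cone (D.sub_pi r hr) hs (by linarith) (by linarith)
    have k := dot_cone p q (r - π) s (D.γ r - D.γ t)
    have k2 := cross_U_add_pi (r - π) (D.γ r - D.γ t)
    rw [sub_add_cancel] at k2
    rw [← e] at k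
    have n1 := D.dist_le _ (D.sub_pi r hr) _ ht
    have n2 := D.norm_diam (D.sub_pi r hr)
    rw [sub_add_cancel] at n2
    have n3 : ‖D.γ (r - π) - D.γ t‖ ^ 2 ≤ ‖D.γ (r - π) - D.γ r‖ ^ 2 := by
      rw [n2]; exact pow_le_pow_left₀ (norm_nonneg _) n1 2
    have k3 : dot (D.γ s - D.γ (r - π)) (D.γ r - D.γ t) ≤ 0 := by
      rw [k]; nlinarith [mul_nonneg hp c2, mul_nonneg hq (neg_nonneg.2 c)]
    simp only [normSq_eq, dot, Complex.sub_re, Complex.sub_im] at n3 k3 ⊢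
    linarith

theorem nest₂ {s t r : ℝ} (hs : s ∈ D.Θ) (ht : t ∈ D.Θ) (hr : r ∈ D.Θ) (h1 : s ≤ t) (h2 : t ≤ r)
    (h3 : r ≤ s + π) : ‖D.γ t - D.γ r‖ ≤ ‖D.γ s - D.γ r‖ := by
  rcases h1.eq_or_lt with rfl | h1
  · exact le_rfl
  rcases h2.eq_or_lt with rfl | h2
  · simp
  rcases h3.eq_or_lt with rfl | h3
  · rw [D.norm_diam hs]; exact D.dist_le _ ht _ hr
  refine (abs_le_of_sq_le_sq' ?_ (norm_nonneg _)).2
  have c1 := D.side₁ hs ht h1.le (by linarith)
  have c2 := D.side₂ hs ht h1.le (by linarith)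
  rcases le_total 0 (cross (U r) (D.γ t - D.γ s)) with c | c
  · obtain ⟨p, q, hp, hq, e⟩ := D.cone ht hr h2 (by linarith)
    have k := dot_cone p q t r (D.γ t - D.γ s)
    rw [← e] at k
    rw [norm_sub_rev _ (D.γ r), norm_sub_rev (D.γ s) (D.γ r),
      show D.γ r - D.γ s = D.γ r - D.γ t + (D.γ t - D.γ s) by ring, sq_add, k]
    nlinarith [mul_nonneg hp c2, mul_nonneg hq c, sq_nonneg ‖D.γ t - D.γ s‖]
  · obtain ⟨p, q, hp, hq, e⟩ := D.cone hr (D.add_pi s hs) h3 (by linarith)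
    have k := dot_cone p q r (s + π) (D.γ t - D.γ s)
    rw [← e, cross_U_add_pi] at k
    have n1 := D.dist_le _ ht _ (D.add_pi s hs)
    have n3 : ‖D.γ t - D.γ (s + π)‖ ^ 2 ≤ ‖D.γ s - D.γ (s + π)‖ ^ 2 := by
      rw [D.norm_diam hs]; exact pow_le_pow_left₀ (norm_nonneg _) n1 2
    have k3 : dot (D.γ (s + π) - D.γ r) (D.γ t - D.γ s) ≤ 0 := by
      rw [k]; nlinarith [mul_nonneg hq c1, mul_nonneg hp (neg_nonneg.2 c)]
    simp only [normSq_eq, dot, Complex.sub_re, Complex.sub_im] at n3 k3 ⊢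
    linarith

theorem nest {a b c d : ℝ} (ha : a ∈ D.Θ) (hb : b ∈ D.Θ) (hc : c ∈ D.Θ) (hd : d ∈ D.Θ)
    (h1 : a ≤ b) (h2 : b ≤ c) (h3 : c ≤ d) (h4 : d ≤ a + π) :
    ‖D.γ b - D.γ c‖ ≤ ‖D.γ a - D.γ d‖ :=
  (D.nest₁ hb hc hd h2 h3 (by linarith)).trans (D.nest₂ ha hb hd h1 (by linarith) h4)

theorem quad {a b c d : ℝ} (ha : a ∈ D.Θ) (hb : b ∈ D.Θ) (hc : c ∈ D.Θ) (hd : d ∈ D.Θ)
    (h1 : a ≤ b) (h2 : b ≤ c) (h3 : c ≤ d) (h4 : d ≤ a + π) :
    ‖D.γ a - D.γ d‖ + ‖D.γ b - D.γ c‖ ≤ ‖D.γ a - D.γ c‖ + ‖D.γ b - D.γ d‖ := by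
  have hA := D.triple ha hb hc h1 h2 (by linarith)
  have hB := D.triple ha hc hd (by linarith) h3 h4
  have hC := D.triple hb hc hd h2 h3 (by linarith)
  have hE := D.triple ha hb hd h1 (by linarith) h4
  have n1 := D.nest₁ ha hb hc h1 h2 (by linarith)
  have n2 := D.nest₁ ha hc hd (by linarith) h3 h4
  have n3 := D.nest₂ ha hb hd h1 (by linarith) h4
  have n4 := D.nest₂ ha hc hd (by linarith) h3 h4
  have n5 := D.nest ha hb hc hd h1 h2 h3 h4
  generalize D.γ a = P₁ at *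
  generalize D.γ b = P₂ at *
  generalize D.γ c = P₃ at *
  generalize D.γ d = P₄ at *
  set A := cross (P₂ - P₁) (P₃ - P₂) with eA
  set B := cross (P₃ - P₁) (P₄ - P₃) with eB
  set C := cross (P₃ - P₂) (P₄ - P₃) with eC
  set E := cross (P₂ - P₁) (P₄ - P₂) with eE
  have S : A + B = C + E := by simp only [eA, eB, eC, eE, cross, Complex.sub_re, Complex.sub_im]; ring
  rcases (add_nonneg hA hB).eq_or_lt with h0 | h0
  · by_cases hu : P₄ - P₁ = 0
    · rw [norm_sub_rev P₁ P₄, hu, norm_zero] at n5 ⊢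
      linarith [norm_nonneg (P₁ - P₃), norm_nonneg (P₂ - P₄)]
    obtain ⟨x, hx⟩ := eq_smul_of_cross (v := P₂ - P₁) hu (by
      have : E = 0 := by linarith
      rw [← this]; simp only [eE, cross, Complex.sub_re, Complex.sub_im]; ring)
    obtain ⟨y, hy⟩ := eq_smul_of_cross (v := P₃ - P₁) hu (by
      have : B = 0 := by linarith
      rw [← this]; simp only [eB, cross, Complex.sub_re, Complex.sub_im]; ring)
    have u0 : 0 < ‖P₄ - P₁‖ := norm_pos_iff.2 hu
    have e12 : ‖P₁ - P₂‖ = |x| * ‖P₄ - P₁‖ := by rw [norm_sub_rev, hx, norm_smul, norm_eq_abs]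
    have e13 : ‖P₁ - P₃‖ = |y| * ‖P₄ - P₁‖ := by rw [norm_sub_rev, hy, norm_smul, norm_eq_abs]
    have e24 : ‖P₂ - P₄‖ = |x - 1| * ‖P₄ - P₁‖ := by
      rw [← norm_eq_abs, ← norm_smul, sub_smul, ← hx, one_smul]; congr 1; ring
    have e34 : ‖P₃ - P₄‖ = |y - 1| * ‖P₄ - P₁‖ := by
      rw [← norm_eq_abs, ← norm_smul, sub_smul, ← hy, one_smul]; congr 1; ring
    have e23 : ‖P₂ - P₃‖ = |x - y| * ‖P₄ - P₁‖ := by
      rw [← norm_eq_abs, ← norm_smul, sub_smul, ← hx, ← hy]; congr 1; ring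
    rw [norm_sub_rev P₁ P₄] at *
    rw [e12, e13] at n1
    rw [e13] at n2
    rw [e24] at n3
    rw [e34] at n4
    rw [e13, e23, e24]
    have m1 := le_of_mul_le_mul_right n1 u0
    have m2 := abs_le.1 ((mul_le_iff_le_one_left u0).1 n2)
    have m3 := abs_le.1 ((mul_le_iff_le_one_left u0).1 n3)
    have m4 := abs_le.1 ((mul_le_iff_le_one_left u0).1 n4)
    rw [abs_of_nonneg (by linarith : 0 ≤ x), abs_of_nonneg (by linarith : 0 ≤ y)] at m1
    rw [abs_of_nonneg (by linarith : 0 ≤ y), abs_of_nonpos (by linarith : x - y ≤ 0),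
      abs_of_nonpos (by linarith : x - 1 ≤ 0)]
    linarith
  · have e1 : (A + B) • (P₁ - P₄) = E • (P₁ - P₃) + B • (P₂ - P₄) := by
      apply Complex.ext <;> simp only [eA, eB, eE, cross, Complex.sub_re, Complex.sub_im,
        Complex.add_re, Complex.add_im, Complex.smul_re, Complex.smul_im, smul_eq_mul] <;> ring
    have e2 : (A + B) • (P₂ - P₃) = C • (P₁ - P₃) + A • (P₂ - P₄) := by
      apply Complex.ext <;> simp only [eA, eB, eC, cross, Complex.sub_re, Complex.sub_im,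
        Complex.add_re, Complex.add_im, Complex.smul_re, Complex.smul_im, smul_eq_mul] <;> ring
    have f1 := norm_add_le (E • (P₁ - P₃)) (B • (P₂ - P₄))
    have f2 := norm_add_le (C • (P₁ - P₃)) (A • (P₂ - P₄))
    rw [← e1, norm_smul, norm_smul, norm_smul, norm_of_nonneg h0.le, norm_of_nonneg hE,
      norm_of_nonneg hB] at f1
    rw [← e2, norm_smul, norm_smul, norm_smul, norm_of_nonneg h0.le, norm_of_nonneg hC,
      norm_of_nonneg hA] at f2
    refine le_of_mul_le_mul_left ?_ h0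
    have : (A + B) * ‖P₁ - P₃‖ = (C + E) * ‖P₁ - P₃‖ := by rw [S]
    linarith

theorem exists_lens {p q : ℝ} (hp : p ∈ D.Θ) (hq : q ∈ D.Θ) (h1 : p < q) (h2 : q < p + π) :
    ∃ lam t, D.IsLens p q lam t := by
  set m : ℂ := (1 / 2 : ℝ) • (U p + U q) with hm
  by_cases hd : D.M q - D.M p = 0
  · exact ⟨0, 0, le_rfl, zero_le_one, by rw [abs_zero]; linarith, 1, Or.inl rfl, by simp [hd]⟩
  have k1 : ‖m + (D.M q - D.M p)‖ ≤ 1 := by
    refine le_of_eq_of_le (congrArg _ ?_) (D.dist_le q hq _ (D.add_pi p hp))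
    rw [D.anti p hp, hm, M, M]; module
  have k2 : ‖m + (-1 : ℝ) • (D.M q - D.M p)‖ ≤ 1 := by
    refine le_of_eq_of_le (congrArg _ ?_) (D.dist_le p hp _ (D.add_pi q hq))
    rw [D.anti q hq, hm, M, M]; module
  obtain ⟨e, he, k3, k4⟩ : ∃ e : ℝ, (e = 1 ∨ e = -1) ∧ ‖m + e • (D.M q - D.M p)‖ ≤ 1 ∧
      0 ≤ e * dot (D.M q - D.M p) (U ((p + q) / 2)) := by
    rcases le_total 0 (dot (D.M q - D.M p) (U ((p + q) / 2))) with h | h
    · exact ⟨1, Or.inl rfl, by rwa [one_smul], by linarith⟩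
    · exact ⟨-1, Or.inr rfl, k2, by linarith⟩
  have ee : e * e = 1 := by rcases he with rfl | rfl <;> norm_num
  have ea : |e| = 1 := by rcases he with rfl | rfl <;> norm_num
  set d := D.M q - D.M p with hdd
  have d0 : 0 < ‖d‖ := norm_pos_iff.2 hd
  have m1 : ‖m‖ ≤ 1 := by
    rw [hm, norm_smul, norm_of_nonneg (by norm_num)]
    linarith [norm_add_le (U p) (U q), norm_U p, norm_U q]
  obtain ⟨x, hx, ex⟩ : (1 : ℝ) ∈ (fun x : ℝ => ‖m + (x * e) • d‖) '' Set.Icc 1 (1 + 2 / ‖d‖) := by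
    refine intermediate_value_Icc (by simp; positivity) (by fun_prop) ⟨by simpa using k3, ?_⟩
    have t1 := norm_sub_norm_le (((1 + 2 / ‖d‖) * e) • d) (-m)
    rw [norm_neg, sub_neg_eq_add, add_comm _ m, norm_smul, norm_eq_abs, abs_mul, ea, mul_one,
      abs_of_pos (by positivity), add_mul, div_mul_cancel₀ _ d0.ne'] at t1
    linarith
  obtain ⟨t, t1, t2, t3⟩ := exists_angle ex ((p + q) / 2)
  have x0 : 0 < x := by linarith [hx.1]
  refine ⟨x⁻¹, t, by positivity, inv_le_one_of_one_le₀ hx.1,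
    abs_le_of_cos_le t1 (by linarith) ?_, e, he, ?_⟩
  · have u1 := dot_U_U p ((p + q) / 2)
    have u2 := dot_U_U q ((p + q) / 2)
    rw [show p - (p + q) / 2 = -((q - p) / 2) by ring, cos_neg] at u1
    rw [show q - (p + q) / 2 = (q - p) / 2 by ring] at u2
    have : dot (m + (x * e) • d) (U ((p + q) / 2)) = (dot (U p) (U ((p + q) / 2)) +
        dot (U q) (U ((p + q) / 2))) / 2 + x * (e * dot d (U ((p + q) / 2))) := by
      simp only [hm, dot, Complex.add_re, Complex.add_im, Complex.smul_re, Complex.smul_im,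
        smul_eq_mul]
      ring
    rw [t2, this, u1, u2]
    nlinarith [mul_nonneg x0.le k4]
  · rw [t3, ← hm, add_sub_cancel_left, smul_smul,
      show e * x⁻¹ * (x * e) = 1 by rw [← ee]; field_simp, one_smul]

theorem lens_sq {p q lam t : ℝ} (hp : p ∈ D.Θ) (hq : q ∈ D.Θ) (h2 : q ≤ p + π)
    (h : D.IsLens p q lam t) :
    ∃ al be : ℝ, |al| = lam * (cos t - cos ((q - p) / 2)) ∧ |be| = lam * |sin t| ∧
      D.dX p q ^ 2 = al ^ 2 + (sin ((q - p) / 2) + be) ^ 2 ∧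
      D.dY p q ^ 2 = al ^ 2 + (sin ((q - p) / 2) - be) ^ 2 ∧
      D.dC q p ^ 2 = be ^ 2 + (cos ((q - p) / 2) + al) ^ 2 ∧
      D.dC p q ^ 2 = be ^ 2 + (cos ((q - p) / 2) - al) ^ 2 := by
  obtain ⟨l0, -, ht, e, he, E⟩ := h
  have ea : |e| = 1 := by rcases he with rfl | rfl <;> norm_num
  have hc : cos ((q - p) / 2) ≤ cos t := by
    rw [← cos_abs t]
    exact cos_le_cos_of_nonneg_of_le_pi (abs_nonneg _) (by linarith [pi_pos]) ht
  have up : U p = cos ((q - p) / 2) • U ((p + q) / 2) -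
      sin ((q - p) / 2) • U ((p + q) / 2 + π / 2) := by rw [← U_sub]; congr 1; ring
  have uq : U q = cos ((q - p) / 2) • U ((p + q) / 2) +
      sin ((q - p) / 2) • U ((p + q) / 2 + π / 2) := by rw [← U_add]; congr 1; ring
  rw [U_add _ t, M, M] at E
  unfold dX dY dC
  rw [D.anti p hp, D.anti q hq]
  have nf := fun a b => norm_frame a b ((p + q) / 2)
  generalize U ((p + q) / 2) = A at *
  generalize U ((p + q) / 2 + π / 2) = B at *
  generalize cos ((q - p) / 2) = c at *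
  generalize sin ((q - p) / 2) = s at *
  rw [up, uq] at E ⊢
  refine ⟨e * lam * (cos t - c), e * lam * sin t, ?_, ?_, ?_, ?_, ?_, ?_⟩
  · rw [abs_mul, abs_mul, ea, one_mul, abs_of_nonneg l0, abs_of_nonneg (sub_nonneg.2 hc)]
  · rw [abs_mul, abs_mul, ea, one_mul, abs_of_nonneg l0]
  · rw [← nf, norm_sub_rev]; congr 2; linear_combination (norm := module) E
  · rw [← neg_sq (e * lam * (cos t - c)), ← nf]; congr 2
    linear_combination (norm := module) (-1 : ℝ) • E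
  · rw [add_comm (_ ^ 2), ← nf]; congr 2; linear_combination (norm := module) E
  · rw [add_comm (_ ^ 2), ← neg_sq (e * lam * sin t), ← nf]; congr 2
    linear_combination (norm := module) (-1 : ℝ) • E

theorem len_le {p q : ℝ} (hp : p ∈ D.Θ) (hq : q ∈ D.Θ) (h1 : p ≤ q) (h2 : q ≤ p + π) :
    D.dX p q + D.dY p q ≤ q - p := by
  unfold dX dY
  rcases h1.eq_or_lt with rfl | h1
  · simp
  rcases h2.eq_or_lt with rfl | h2
  · rw [D.norm_diam hp, D.norm_diam (D.add_pi p hp)]; linarith [pi_gt_three]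
  obtain ⟨lam, t, l0, l1, ht, e, he, E⟩ := D.exists_lens hp hq h1 h2
  rw [abs_le] at ht
  have a1 := norm_U_sub (a := p) (b := (p + q) / 2 + t) (by linarith [ht.1])
  have a2 := norm_U_sub (a := (p + q) / 2 + t) (b := q) (by linarith [ht.2])
  have a3 := norm_U_sub h1.le
  have key : ∀ a : ℂ, ‖lam • a + ((1 - lam) / 2) • (U q - U p)‖ ≤
      lam * ‖a‖ + (1 - lam) / 2 * (q - p) := fun a => by
    refine (norm_add_le _ _).trans ?_
    rw [norm_smul, norm_smul, norm_of_nonneg l0, norm_of_nonneg (by linarith)]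
    gcongr
  have b1 := key (U ((p + q) / 2 + t) - U p)
  have b2 := key (U q - U ((p + q) / 2 + t))
  have b3 := mul_le_mul_of_nonneg_left (add_le_add a1 a2) l0
  rw [M, M] at E
  rw [D.anti p hp, D.anti q hq, norm_sub_rev (D.γ p)]
  rcases he with rfl | rfl
  · rw [show D.γ q - D.γ p = lam • (U ((p + q) / 2 + t) - U p) + ((1 - lam) / 2) • (U q - U p) by
        linear_combination (norm := module) E,
      show D.γ p - U p - (D.γ q - U q) =
          lam • (U q - U ((p + q) / 2 + t)) + ((1 - lam) / 2) • (U q - U p) by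
        linear_combination (norm := module) (-1 : ℝ) • E]
    linarith
  · rw [show D.γ q - D.γ p = lam • (U q - U ((p + q) / 2 + t)) + ((1 - lam) / 2) • (U q - U p) by
        linear_combination (norm := module) E,
      show D.γ p - U p - (D.γ q - U q) =
          lam • (U ((p + q) / 2 + t) - U p) + ((1 - lam) / 2) • (U q - U p) by
        linear_combination (norm := module) (-1 : ℝ) • E]
    linarith

theorem continuousOn_γ : ContinuousOn D.γ D.Θ := by
  rw [Metric.continuousOn_iff]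
  intro b hb ε hε
  refine ⟨min ε π, lt_min hε pi_pos, fun a ha hab => ?_⟩
  rw [Real.dist_eq, lt_min_iff, abs_lt, abs_lt] at hab
  rw [dist_eq_norm]
  rcases le_total a b with h | h
  · have := D.len_le ha hb h (by linarith [hab.2.1])
    unfold dX dY at this
    linarith [norm_nonneg (D.γ (a + π) - D.γ (b + π)), hab.1.1]
  · have := D.len_le hb ha h (by linarith [hab.2.2])
    unfold dX dY at this
    rw [norm_sub_rev]
    linarith [norm_nonneg (D.γ (b + π) - D.γ (a + π)), hab.1.2]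

end Dia

end Pool.Agent.P.MP_4c4e6e_co
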