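import Pool.Agent.P.MP_4c4e6e_co.Comb

/-! Long gaps, first part: walks with prescribed colours and the lemma on short words. -/

namespace Pool.Agent.P.MP_4c4e6e_co

open Real Finset

namespace KillAux

theorem dot_le (z w : ℂ) : dot z w ≤ ‖z‖ * ‖w‖ := by
  refine (le_abs_self _).trans (abs_le_of_sq_le_sq ?_ (by positivity))
  rw [mul_pow, normSq_eq, normSq_eq, dot]
  nlinarith [sq_nonneg (z.re * w.im - z.im * w.re)]

theorem sin_le_tangent {x A : ℝ} (h0 : 0 ≤ x) (h1 : x ≤ A) (h2 : A ≤ π) :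
    sin x ≤ sin A + (x - A) * cos A := by
  rcases h1.eq_or_lt with rfl | h1
  · simp
  have h := strictConcaveOn_sin_Icc.concaveOn.le_slope_of_hasDerivAt ⟨h0, by linarith⟩
    ⟨by linarith, h2⟩ h1 (hasDerivAt_sin A)
  rw [slope_def_field, le_div_iff₀ (by linarith)] at h
  linarith

theorem est_alg {p q x y E L sA cA : ℝ} (hx0 : 0 ≤ x) (hy0 : 0 ≤ y) (hxp : x ≤ p) (hyp : y ≤ p)
    (hyq : y ≤ q) (hE : p + q ≤ E) (hs : 0 ≤ sA) (hc0 : 0 ≤ cA) (hc : cA ≤ 2 / 3)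
    (h : 1 - y * (x + y) ≤ L + (p * (sA - (q + y) * cA) - p ^ 2 * cA / 2) +
      (q * (sA - (p - y) * cA) - q ^ 2 * cA / 2)) :
    1 ≤ L + E * sA + E ^ 2 * (1 / 2 - 3 / 4 * cA) := by
  have hS : 0 ≤ p + q := by linarith
  have h1 : y * (x + y) ≤ y * (p + q) := by gcongr
  have h2 : 0 ≤ (p + q) * (p + q - 2 * y) / 2 := by
    have : 0 ≤ p + q - 2 * y := by linarith
    positivity
  have h3 : 0 ≤ (p + q) * (p + q - 2 * y) / 2 + (y * (p - q) - (p - q) ^ 2 / 4) := by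
    nlinarith [mul_nonneg (hy0.trans hyq) (sub_nonneg.2 hyp), sq_nonneg (p - q)]
  have h4 : (p + q) * sA ≤ E * sA := by gcongr
  have h5 : (p + q) ^ 2 * (1 / 2 - 3 / 4 * cA) ≤ E ^ 2 * (1 / 2 - 3 / 4 * cA) := by
    have : 0 ≤ 1 / 2 - 3 / 4 * cA := by linarith
    gcongr
  nlinarith [mul_nonneg hc0 h3, mul_nonneg (show 0 ≤ 1 - cA by linarith) h2]

end KillAux

open KillAux

namespace Cfg

variable (C : Cfg)

theorem dX_tri (a b c : ℝ) : C.dX a c ≤ C.dX a b + C.dX b c :=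
  norm_sub_le_norm_sub_add_norm_sub _ _ _

theorem dY_tri (a b c : ℝ) : C.dY a c ≤ C.dY a b + C.dY b c :=
  norm_sub_le_norm_sub_add_norm_sub _ _ _

theorem dX_nonneg (a b : ℝ) : 0 ≤ C.dX a b := norm_nonneg _

theorem dY_nonneg (a b : ℝ) : 0 ≤ C.dY a b := norm_nonneg _

theorem contX : ContinuousOn C.γ C.I := C.continuousOn_γ.mono Set.inter_subset_left

theorem contY : ContinuousOn (fun t => C.γ (t + π)) C.I :=
  C.continuousOn_γ.comp (by fun_prop) fun _ ht => C.add_pi _ ht.1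

theorem exists_greatest {f : ℝ → ℝ} (hf : ContinuousOn f C.I) {S : Set ℝ} (hS : IsClosed S)
    {x : ℝ} (hx : x ∈ C.I) (h : f x ∈ S) :
    ∃ m ∈ C.I, f m ∈ S ∧ ∀ t ∈ C.I, f t ∈ S → t ≤ m := by
  obtain ⟨m, hm, hm'⟩ := (C.isCompact_I.of_isClosed_subset
    (hf.preimage_isClosed_of_isClosed C.isCompact_I.isClosed hS)
    Set.inter_subset_left).exists_isGreatest ⟨x, hx, h⟩
  exact ⟨m, hm.1, hm.2, fun t ht h' => hm' ⟨ht, h'⟩⟩

theorem exists_least {f : ℝ → ℝ} (hf : ContinuousOn f C.I) {S : Set ℝ} (hS : IsClosed S)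
    {x : ℝ} (hx : x ∈ C.I) (h : f x ∈ S) :
    ∃ m ∈ C.I, f m ∈ S ∧ ∀ t ∈ C.I, f t ∈ S → m ≤ t := by
  obtain ⟨m, hm, hm'⟩ := (C.isCompact_I.of_isClosed_subset
    (hf.preimage_isClosed_of_isClosed C.isCompact_I.isClosed hS)
    Set.inter_subset_left).exists_isLeast ⟨x, hx, h⟩
  exact ⟨m, hm.1, hm.2, fun t ht h' => hm' ⟨ht, h'⟩⟩

theorem cross_ge {x y : ℝ} (hx : x ∈ C.I) (hy : y ∈ C.I) : C.L ≤ C.dC x y ∨ C.l ≤ C.dC x y := by
  rcases le_total x y with h | h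
  · exact .inl (C.dC_mono_L C.zero_mem_I hx hy C.T_mem_I hx.2.1 h hy.2.2)
  · exact .inr (C.dC_mono_l C.zero_mem_I hy hx C.T_mem_I hy.2.1 h hx.2.2)

theorem dX_le_of {x y u v : ℝ} (hx : x ∈ C.I) (hy : y ∈ C.I) (hu : u ∈ C.I) (hv : v ∈ C.I)
    (h1 : u ≤ x) (h2 : u ≤ y) (h3 : x ≤ v) (h4 : y ≤ v) : C.dX x y ≤ C.dX u v := by
  rcases le_total x y with h | h
  · exact C.dX_mono hu hx hy hv h1 h h4
  · rw [comb_dX_comm]; exact C.dX_mono hu hy hx hv h2 h h3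

theorem dY_le_of {x y u v : ℝ} (hx : x ∈ C.I) (hy : y ∈ C.I) (hu : u ∈ C.I) (hv : v ∈ C.I)
    (h1 : u ≤ x) (h2 : u ≤ y) (h3 : x ≤ v) (h4 : y ≤ v) : C.dY x y ≤ C.dY u v := by
  rcases le_total x y with h | h
  · exact C.dY_mono hu hx hy hv h1 h h4
  · rw [comb_dY_comm]; exact C.dY_mono hu hy hx hv h2 h h3

/-- a short link joins points of the same colour -/
theorem short_step {w u v : ℝ} (h1 : w < C.L) (h2 : w < C.l) (hu : u ∈ C.I) (hv : v ∈ C.I)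
    {c c' : Bool} (h : ‖C.pt c u - C.pt (!c') v‖ = w) : c' = !c := by
  cases c <;> cases c'
  · have h3 : C.dC v u = w := (norm_sub_rev _ _).trans h
    rcases C.cross_ge hv hu with h4 | h4 <;> linarith
  · rfl
  · rfl
  · have h3 : C.dC u v = w := h
    rcases C.cross_ge hu hv with h4 | h4 <;> linarith

/-- a long link joins points of different colours -/
theorem long_step {w u v : ℝ} (h1 : C.d1 < w) (h2 : C.d2 < w) (hu : u ∈ C.I) (hv : v ∈ C.I)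
    {c c' : Bool} (h : ‖C.pt c u - C.pt (!c') v‖ = w) : c' = c := by
  cases c <;> cases c'
  · rfl
  · have h3 : C.dY u v = w := h
    have : C.dY u v ≤ C.d2 :=
      C.dY_le_of hu hv C.zero_mem_I C.T_mem_I hu.2.1 hv.2.1 hu.2.2 hv.2.2
    linarith
  · have h3 : C.dX u v = w := h
    have : C.dX u v ≤ C.d1 :=
      C.dX_le_of hu hv C.zero_mem_I C.T_mem_I hu.2.1 hv.2.1 hu.2.2 hv.2.2
    linarith
  · rfl

/-- A word that reverses the colour can be walked from the first colour. -/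
theorem walk_dbl (n : ℕ) (w : ℕ → ℝ) (hw : ∀ i < n, 0 < w i ∧ w i ≤ 1) (col : ℕ → Bool)
    (h0 : col 0 = true) (hn : col n = false)
    (hs : ∀ i < n, (w i < C.L ∧ w i < C.l ∧ col (i + 1) = !col i) ∨
      (C.d1 < w i ∧ C.d2 < w i ∧ col (i + 1) = col i)) :
    ∃ θ : ℕ → ℝ, (∀ i ≤ n, θ i ∈ C.I) ∧
      ∀ i < n, ‖C.pt (col i) (θ i) - C.pt (!(col (i + 1))) (θ (i + 1))‖ = w i := by
  obtain ⟨θ, c, hθ, hc⟩ := C.cwalk (n + n) (fun i => if i < n then w i else w (i - n))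
    fun i hi => by
      split_ifs with h
      · exact hw i h
      · exact hw _ (by omega)
  have key : ∀ k, k ≤ n → (∀ i < n, ‖C.pt (c (k + i)) (θ (k + i)) -
      C.pt (!(c (k + i + 1))) (θ (k + i + 1))‖ = w i) → ∀ i ≤ n, c (k + i) = (c k == col i) := by
    intro k hk h i
    induction i with
    | zero => intro _; rw [h0]; simp
    | succ i ih =>
      intro hi
      have h1 := ih (by omega)
      rcases hs i hi with ⟨a1, a2, a3⟩ | ⟨a1, a2, a3⟩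
      · rw [← add_assoc, C.short_step a1 a2 (hθ _ (by omega)) (hθ _ (by omega)) (h i hi), h1, a3]
        cases c k <;> cases col i <;> rfl
      · rw [← add_assoc, C.long_step a1 a2 (hθ _ (by omega)) (hθ _ (by omega)) (h i hi), h1, a3]
  have e0 : ∀ i < n, ‖C.pt (c (0 + i)) (θ (0 + i)) -
      C.pt (!(c (0 + i + 1))) (θ (0 + i + 1))‖ = w i := fun i hi => by
    have := hc i (by omega)
    simp only [if_pos hi] at this
    simpa only [zero_add] using this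
  have en : ∀ i < n, ‖C.pt (c (n + i)) (θ (n + i)) -
      C.pt (!(c (n + i + 1))) (θ (n + i + 1))‖ = w i := fun i hi => by
    have := hc (n + i) (by omega)
    simpa only [if_neg (show ¬ n + i < n by omega), add_tsub_cancel_left] using this
  have fin : ∀ k, k ≤ n → c k = true → (∀ i < n, ‖C.pt (c (k + i)) (θ (k + i)) -
      C.pt (!(c (k + i + 1))) (θ (k + i + 1))‖ = w i) → ∃ θ : ℕ → ℝ, (∀ i ≤ n, θ i ∈ C.I) ∧
      ∀ i < n, ‖C.pt (col i) (θ i) - C.pt (!(col (i + 1))) (θ (i + 1))‖ = w i := by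
    intro k hk hck h
    have h1 : ∀ i ≤ n, c (k + i) = col i := fun i hi => by rw [key k hk h i hi, hck]; simp
    refine ⟨fun i => θ (k + i), fun i hi => hθ _ (by omega), fun i hi => ?_⟩
    rw [← h1 i hi.le, ← h1 (i + 1) hi]
    exact h i hi
  cases hc0 : c 0
  · refine fin n le_rfl ?_ en
    have := key 0 (Nat.zero_le _) e0 n le_rfl
    rwa [zero_add, hc0, hn] at this
  · exact fin 0 (Nat.zero_le _) hc0 e0

/-- the word `a c a c a` -/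
theorem word_short {a c lx rx : ℝ} (ha0 : 0 < a) (haL : a < C.L) (hal : a < C.l) (hc0 : 0 < c)
    (hcL : c < C.L) (hcl : c < C.l) (hl : lx ∈ C.I) (hr : rx ∈ C.I) (hlr : lx < rx)
    (hlx : ∀ t ∈ C.I, a ≤ C.dX t C.T → t ≤ lx) (hrx : ∀ t ∈ C.I, a ≤ C.dX 0 t → rx ≤ t)
    (hc : c < C.dY lx rx) : c ≤ C.dY 0 lx ∧ c ≤ C.dY rx C.T := by
  have hL1 : C.L ≤ 1 := C.dist_le _ C.zero_mem _ (C.add_pi _ C.T_mem)
  obtain ⟨θ, hθ, hw⟩ := C.walk_dbl 5 (fun i => if i % 2 = 0 then a else c)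
    (fun i _ => by split_ifs <;> constructor <;> linarith) (fun i => decide (i % 2 = 0)) rfl rfl
    fun i hi => .inl ⟨by split_ifs <;> assumption, by split_ifs <;> assumption, by
      interval_cases i <;> rfl⟩
  have w0 : C.dX (θ 0) (θ 1) = a := hw 0 (by norm_num)
  have w1 : C.dY (θ 1) (θ 2) = c := hw 1 (by norm_num)
  have w2 : C.dX (θ 2) (θ 3) = a := hw 2 (by norm_num)
  have w3 : C.dY (θ 3) (θ 4) = c := hw 3 (by norm_num)
  have w4 : C.dX (θ 4) (θ 5) = a := hw 4 (by norm_num)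
  have z0 := C.zero_mem_I
  have zT := C.T_mem_I
  have hA : ∀ u ∈ C.I, ∀ v ∈ C.I, C.dX u v = a → (u ≤ lx ∧ rx ≤ v) ∨ (v ≤ lx ∧ rx ≤ u) := by
    intro u hu v hv h
    rcases le_total u v with h1 | h1
    · exact .inl ⟨hlx u hu (h ▸ C.dX_mono hu hu hv zT le_rfl h1 hv.2.2),
        hrx v hv (h ▸ C.dX_mono z0 hu hv hv hu.2.1 h1 le_rfl)⟩
    · rw [comb_dX_comm] at h
      exact .inr ⟨hlx v hv (h ▸ C.dX_mono hv hv hu zT le_rfl h1 hu.2.2),
        hrx u hu (h ▸ C.dX_mono z0 hv hu hu hv.2.1 h1 le_rfl)⟩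
  have hB : ∀ u ∈ C.I, ∀ v ∈ C.I, C.dY u v = c → (u ≤ lx ∨ rx ≤ u) → (v ≤ lx ∨ rx ≤ v) →
      (u ≤ lx ∧ v ≤ lx ∧ c ≤ C.dY 0 lx) ∨ (rx ≤ u ∧ rx ≤ v ∧ c ≤ C.dY rx C.T) := by
    rintro u hu v hv h (h1 | h1) (h2 | h2)
    · exact .inl ⟨h1, h2, h ▸ C.dY_le_of hu hv z0 hl hu.2.1 hv.2.1 h1 h2⟩
    · have := C.dY_mono hu hl hr hv h1 hlr.le h2
      linarith
    · have := C.dY_mono hv hl hr hu h2 hlr.le h1
      rw [comb_dY_comm] at h
      linarith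
    · exact .inr ⟨h1, h2, h ▸ C.dY_le_of hu hv hr zT h1 h2 hu.2.2 hv.2.2⟩
  have a0 := hA _ (hθ 0 (by norm_num)) _ (hθ 1 (by norm_num)) w0
  have a2 := hA _ (hθ 2 (by norm_num)) _ (hθ 3 (by norm_num)) w2
  have a4 := hA _ (hθ 4 (by norm_num)) _ (hθ 5 (by norm_num)) w4
  have b1 := hB _ (hθ 1 (by norm_num)) _ (hθ 2 (by norm_num)) w1 (by tauto) (by tauto)
  have b3 := hB _ (hθ 3 (by norm_num)) _ (hθ 4 (by norm_num)) w3 (by tauto) (by tauto)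
  rcases a2 with a2 | a2 <;> rcases b1 with b1 | b1 <;> rcases b3 with b3 | b3 <;>
    first
    | exact ⟨b1.2.2, b3.2.2⟩
    | exact ⟨b3.2.2, b1.2.2⟩
    | (exfalso; linarith [a2.1, a2.2, b1.1, b1.2.1, b3.1, b3.2.1])

theorem len3 {u v : ℝ} (hu : u ∈ C.I) (hv : v ∈ C.I) (h : u ≤ v) :
    C.dX 0 u + C.dY 0 u ≤ u ∧ C.dX u v + C.dY u v ≤ v - u ∧
      C.dX v C.T + C.dY v C.T ≤ C.T - v :=
  ⟨by simpa using C.comb_len C.zero_mem_I hu hu.2.1, C.comb_len hu hv h,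
    C.comb_len hv C.T_mem_I hv.2.2⟩

/-- the two zones of the first colour -/
theorem exists_zoneX {a : ℝ} (ha0 : 0 < a) (haL : a < C.L) (hal : a < C.l) (h3 : C.T < 3 * a) :
    ∃ lx ∈ C.I, ∃ rx ∈ C.I, lx < rx ∧ a ≤ C.dX lx C.T ∧ a ≤ C.dX 0 rx ∧
      C.dY lx rx ≤ C.dY 0 lx ∧ C.dY lx rx ≤ C.dY rx C.T := by
  obtain ⟨hd1, hd2⟩ := C.lemA
  simp only [d1, d2] at hd1 hd2
  obtain ⟨lx, hl, h1, hlx⟩ := C.exists_greatest (f := fun t => C.dX t C.T)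
    (C.contX.sub continuousOn_const).norm (isClosed_Ici (a := a)) C.zero_mem_I
    (haL.le.trans hd1)
  obtain ⟨rx, hr, h2, hrx⟩ := C.exists_least (f := fun t => C.dX 0 t)
    (continuousOn_const.sub C.contX).norm (isClosed_Ici (a := a)) C.T_mem_I (haL.le.trans hd1)
  replace h1 : a ≤ C.dX lx C.T := h1
  replace h2 : a ≤ C.dX 0 rx := h2
  have hlr : lx < rx := by
    by_contra h
    obtain ⟨e1, e2, e3⟩ := C.len3 hr hl (not_lt.1 h)
    linarith [C.dY_tri 0 rx C.T, C.dY_tri rx lx C.T, C.dX_nonneg rx lx]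
  refine ⟨lx, hl, rx, hr, hlr, h1, h2, ?_⟩
  by_contra h
  obtain ⟨e1, e2, e3⟩ := C.len3 hl hr hlr.le
  have t1 := C.dX_tri 0 lx C.T
  have t2 := C.dX_tri lx rx C.T
  have n1 := C.dY_nonneg 0 lx
  have n2 := C.dY_nonneg lx rx
  have n3 := C.dY_nonneg rx C.T
  have hm : min (C.dY 0 lx) (C.dY rx C.T) < min (C.dY lx rx) (min C.L C.l) := by
    refine lt_min ?_ ?_
    · rw [min_lt_iff]
      by_contra h'
      push Not at h'
      exact h h'
    · have : a < min C.L C.l := lt_min haL hal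
      rw [min_lt_iff]
      by_contra h'
      push Not at h'
      linarith [h'.1, h'.2]
  obtain ⟨c, c1, c2⟩ := exists_between hm
  rw [lt_min_iff, lt_min_iff] at c2
  have := C.word_short ha0 haL hal ((le_min n1 n3).trans_lt c1) c2.2.1 c2.2.2 hl hr hlr hlx hrx c2.1
  exact absurd (le_min this.1 this.2) (not_le.2 c1)

theorem exists_zoneY {a : ℝ} (ha0 : 0 < a) (haL : a < C.L) (hal : a < C.l) (h3 : C.T < 3 * a) :
    ∃ ly ∈ C.I, ∃ ry ∈ C.I, ly < ry ∧ a ≤ C.dY ly C.T ∧ a ≤ C.dY 0 ry ∧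
      C.dX ly ry ≤ C.dX 0 ly ∧ C.dX ly ry ≤ C.dX ry C.T := by
  obtain ⟨C', hT, -, hI, hd, hL, hl, -⟩ := C.swap_dist
  obtain ⟨u, hu, v, hv, h1, h2, h4, h5, h6⟩ := C'.exists_zoneX ha0 (hL ▸ hal) (hl ▸ haL) (hT ▸ h3)
  rw [hI] at hu hv
  rw [hT] at h2 h6
  rw [(hd _ hu.1 _ C.T_mem).1] at h2
  rw [(hd _ C.zero_mem _ hv.1).1] at h4
  rw [(hd _ hu.1 _ hv.1).2.1] at h5 h6
  rw [(hd _ C.zero_mem _ hu.1).2.1] at h5
  rw [(hd _ hv.1 _ C.T_mem).2.1] at h6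
  exact ⟨u, hu, v, hv, h1, h2, h4, h5, h6⟩

/-- projection of a cross chord on a nearby diameter -/
theorem cross_proj {u v : ℝ} (hu : u ∈ C.I) (hv : v ∈ C.I) :
    1 - C.dY u v * (C.dX u v + C.dY u v) ≤ dot (C.γ u - C.γ (v + π)) (U u) := by
  have h1 := C.ext_le (C.add_pi _ hv.1) (C.add_pi _ hu.1)
  have h2 := dot_le (C.γ (v + π) - C.γ (u + π)) (U u - U v)
  have h3 : ‖U u - U v‖ ≤ C.dX u v + C.dY u v := by
    rw [show U u - U v = (C.γ u - C.γ v) - (C.γ (u + π) - C.γ (v + π)) by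
      rw [C.anti _ hu.1, C.anti _ hv.1]; ring]
    exact norm_sub_le _ _
  rw [norm_sub_rev (C.γ (v + π))] at h2
  have h4 : ‖C.γ (u + π) - C.γ (v + π)‖ * ‖U u - U v‖ ≤ C.dY u v * (C.dX u v + C.dY u v) :=
    mul_le_mul_of_nonneg_left h3 (norm_nonneg _)
  have h5 : dot (C.γ u - C.γ (v + π)) (U u) = 1 - dot (C.γ (v + π) - C.γ (u + π)) (U u - U v) -
      dot (C.γ (u + π) - C.γ (v + π)) (U (v + π)) := by
    rw [U_add_pi, C.anti _ hu.1]
    simp only [dot, Complex.sub_re, Complex.sub_im, Complex.neg_re, Complex.neg_im, U_re, U_im]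
    linear_combination sin_sq_add_cos_sq u
  nlinarith [sq_nonneg ‖C.γ (u + π) - C.γ (v + π)‖]

theorem est₁ {a u v : ℝ} (hu : u ∈ C.I) (hv : v ∈ C.I) (huv : u ≤ v) (h1 : a ≤ C.dX u C.T)
    (h2 : a ≤ C.dY 0 v) (hxp : C.dX u v ≤ C.dX 0 u) (hyp : C.dY u v ≤ C.dX 0 u)
    (hyq : C.dY u v ≤ C.dY v C.T) (hA : C.T - a ≤ π / 2) (hc : cos (C.T - a) ≤ 2 / 3) :
    1 ≤ C.L + (C.T - 2 * a) * sin (C.T - a) +
      (C.T - 2 * a) ^ 2 * (1 / 2 - 3 / 4 * cos (C.T - a)) := by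
  obtain ⟨e1, e2, e3⟩ := C.len3 hu hv huv
  have t1 := C.dX_tri u v C.T
  have t2 := C.dY_tri 0 u v
  have np := C.dX_nonneg 0 u
  have nq := C.dY_nonneg v C.T
  have ny := C.dY_nonneg u v
  have u0 := hu.2.1
  have uT := hu.2.2
  have b1 : u ≤ C.T - a - C.dY v C.T - C.dY u v := by linarith
  have b2 : C.T - u ≤ C.T - a - C.dX 0 u + C.dY u v := by linarith
  have hA0 : 0 ≤ C.T - a := by linarith
  have hc0 : 0 ≤ cos (C.T - a) := cos_nonneg_of_mem_Icc ⟨by linarith [pi_pos], hA⟩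
  have k : ∀ x, 0 ≤ x → x ≤ C.T - a → 0 ≤ sin x ∧ cos (C.T - a) ≤ cos x ∧
      sin x ≤ sin (C.T - a) + (x - (C.T - a)) * cos (C.T - a) := fun x x0 x1 =>
    ⟨sin_nonneg_of_nonneg_of_le_pi x0 (by linarith [pi_pos]),
      cos_le_cos_of_nonneg_of_le_pi x0 (by linarith [pi_pos]) x1,
      sin_le_tangent x0 x1 (by linarith [pi_pos])⟩
  obtain ⟨k1, k2, k3⟩ := k u u0 (by linarith)
  obtain ⟨k4, k5, k6⟩ := k (C.T - u) (by linarith) (by linarith)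
  have p1 := C.proj_le C.zero_mem hu.1 u (by rw [sub_zero]; linarith)
  rw [sub_zero, abs_of_nonneg k1, norm_sub_rev] at p1
  have eu : u + π - (C.T + π) = -(C.T - u) := by ring
  have p2 := C.proj_le (C.add_pi _ C.T_mem) (C.add_pi _ hv.1) (u + π)
    (by rw [eu, cos_neg]; linarith)
  rw [eu, cos_neg, sin_neg, abs_neg, abs_of_nonneg k4] at p2
  have p3 := dot_le (C.γ 0 - C.γ (C.T + π)) (U u)
  rw [norm_U, mul_one] at p3
  have p4 := C.cross_proj hu hv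
  have p5 : dot (C.γ u - C.γ (v + π)) (U u) = dot (C.γ 0 - C.γ (C.T + π)) (U u) +
      dot (C.γ u - C.γ 0) (U u) + dot (C.γ (v + π) - C.γ (C.T + π)) (U (u + π)) := by
    rw [U_add_pi]
    simp only [dot, Complex.sub_re, Complex.sub_im, Complex.neg_re, Complex.neg_im]
    ring
  change _ ≤ C.dX 0 u * _ - C.dX 0 u ^ 2 * _ / 2 at p1
  change _ ≤ C.dY v C.T * _ - C.dY v C.T ^ 2 * _ / 2 at p2
  change _ ≤ C.L at p3
  refine est_alg (C.dX_nonneg u v) ny hxp hyp hyq (by linarith)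
    (sin_nonneg_of_nonneg_of_le_pi hA0 (by linarith [pi_pos])) hc0 hc ?_
  have q1 : sin u ≤ sin (C.T - a) - (C.dY v C.T + C.dY u v) * cos (C.T - a) := by
    nlinarith [mul_le_mul_of_nonneg_right b1 hc0]
  have q2 : sin (C.T - u) ≤ sin (C.T - a) - (C.dX 0 u - C.dY u v) * cos (C.T - a) := by
    nlinarith [mul_le_mul_of_nonneg_right b2 hc0]
  have q3 := mul_le_mul_of_nonneg_left q1 np
  have q4 := mul_le_mul_of_nonneg_left q2 nq
  have q5 := mul_le_mul_of_nonneg_left k2 (sq_nonneg (C.dX 0 u))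
  have q6 := mul_le_mul_of_nonneg_left k5 (sq_nonneg (C.dY v C.T))
  linarith

theorem est₂ {a u v : ℝ} (hu : u ∈ C.I) (hv : v ∈ C.I) (h1 : a ≤ C.dX u C.T)
    (h2 : a ≤ C.dY 0 v) (h : u < v → C.dX u v ≤ C.dX 0 u ∧ C.dY u v ≤ C.dY v C.T)
    (hA : C.T - a ≤ π / 2) (hc : cos (C.T - a) ≤ 2 / 3) :
    1 ≤ C.L + (C.T - 2 * a) * sin (C.T - a) +
      (C.T - 2 * a) ^ 2 * (1 / 2 - 3 / 4 * cos (C.T - a)) := by
  rcases le_or_gt v u with huv | huv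
  · have x0 : C.dX u u = 0 := by simp [Dia.dX]
    have y0 : C.dY u u = 0 := by simp [Dia.dY]
    exact C.est₁ hu hu le_rfl h1 (h2.trans (C.dY_mono C.zero_mem_I C.zero_mem_I hv hu le_rfl
      hv.2.1 huv)) (x0 ▸ C.dX_nonneg _ _) (y0 ▸ C.dX_nonneg _ _) (y0 ▸ C.dY_nonneg _ _) hA hc
  obtain ⟨hx, hy⟩ := h huv
  rcases le_or_gt (C.dY u v) (C.dX 0 u) with hp | hp
  · exact C.est₁ hu hv huv.le h1 h2 hx hp hy hA hc
  obtain ⟨C', hT, -, hI, hd, hL, -⟩ := C.mirror_dist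
  have mu : C.T - u ∈ C'.I := (hI _).2 (by rwa [sub_sub_cancel])
  have mv : C.T - v ∈ C'.I := (hI _).2 (by rwa [sub_sub_cancel])
  have g1 := (hd _ hv.1 _ C.zero_mem).1
  have g2 := (hd _ C.T_mem _ hu.1).2.1
  have g3 := hd _ hv.1 _ hu.1
  have g4 := (hd _ C.T_mem _ hv.1).1
  have g5 := (hd _ hu.1 _ C.zero_mem).2.1
  rw [sub_zero] at g1 g5
  rw [sub_self] at g2 g4
  rw [C.comb_dY_comm] at g1 g4
  rw [C.comb_dX_comm] at g2 g5
  rw [C.comb_dY_comm v, C.comb_dX_comm v] at g3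
  have := C'.est₁ (a := a) mv mu (by linarith) (by rw [hT, g1]; exact h2) (by rw [g2]; exact h1)
    (by rw [g3.1, g4]; exact hy) (by rw [g3.2.1, g4]; linarith) (by rw [g3.2.1, hT, g5]; exact hx)
    (by rwa [hT]) (by rwa [hT])
  rwa [hT, hL] at this

/-- Lemma K of the paper. -/
theorem lemK {a : ℝ} (ha0 : 0 < a) (haL : a < C.L) (hal : a < C.l) (h3 : C.T < 3 * a)
    (h1 : C.T < C.d1 + 3 / 2 * a) (h2 : C.T < C.d2 + 3 / 2 * a) (hA : C.T - a ≤ π / 2)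
    (hc : cos (C.T - a) ≤ 2 / 3) :
    1 ≤ max C.L C.l + (C.T - 2 * a) * sin (C.T - a) +
      (C.T - 2 * a) ^ 2 * (1 / 2 - 3 / 4 * cos (C.T - a)) := by
  obtain ⟨lx, hlx, rx, hrx, x1, x2, x3, x4, x5⟩ := C.exists_zoneX ha0 haL hal h3
  obtain ⟨ly, hly, ry, hry, y1, y2, y3, y4, y5⟩ := C.exists_zoneY ha0 haL hal h3
  have z0 := C.zero_mem_I
  have zT := C.T_mem_I
  simp only [d1, d2] at h1 h2
  rcases le_total lx ly with hl | hl <;> rcases le_total ry rx with hr | hr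
  · exfalso
    obtain ⟨e1, e2, e3⟩ := C.len3 hlx hrx x1.le
    have := C.dY_mono z0 z0 hry hrx le_rfl hry.2.1 hr
    have := C.dY_mono hlx hly zT zT hl hly.2.2 le_rfl
    linarith [C.dX_tri 0 lx C.T, C.dX_tri lx rx C.T, C.dY_tri 0 lx rx, C.dY_tri lx rx C.T]
  · obtain ⟨C', hT, -, hI, hd, hL, -⟩ := C.swap_dist
    have := C'.est₂ (a := a) (hI ▸ hly) (hI ▸ hrx)
      (by rw [hT, (hd _ hly.1 _ C.T_mem).1]; exact y2)
      (by rw [(hd _ C.zero_mem _ hrx.1).2.1]; exact x3)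
      (fun h => by
        rw [hT, (hd _ hly.1 _ hrx.1).1, (hd _ hly.1 _ hrx.1).2.1, (hd _ C.zero_mem _ hly.1).1,
          (hd _ hrx.1 _ C.T_mem).2.1]
        exact ⟨((C.dY_mono hlx hly hrx hrx hl h.le le_rfl).trans x4).trans
            (C.dY_mono z0 z0 hlx hly le_rfl hlx.2.1 hl),
          ((C.dX_mono hly hly hrx hry le_rfl h.le hr).trans y5).trans
            (C.dX_mono hrx hry zT zT hr hry.2.2 le_rfl)⟩)
      (by rwa [hT]) (by rwa [hT])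
    rw [hT, hL] at this
    linarith [le_max_right C.L C.l]
  · have := C.est₂ hlx hry x2 y3 (fun h =>
      ⟨((C.dX_mono hly hlx hry hry hl h.le le_rfl).trans y4).trans
          (C.dX_mono z0 z0 hly hlx le_rfl hly.2.1 hl),
        ((C.dY_mono hlx hlx hry hrx le_rfl h.le hr).trans x5).trans
          (C.dY_mono hry hrx zT zT hr hrx.2.2 le_rfl)⟩) hA hc
    linarith [le_max_left C.L C.l]
  · exfalso
    obtain ⟨e1, e2, e3⟩ := C.len3 hly hry y1.le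
    have := C.dX_mono z0 z0 hrx hry le_rfl hrx.2.1 hr
    have := C.dX_mono hly hlx zT zT hl hlx.2.2 le_rfl
    linarith [C.dY_tri 0 ly C.T, C.dY_tri ly ry C.T, C.dX_tri 0 ly ry, C.dX_tri ly ry C.T]

end Cfg

end Pool.Agent.P.MP_4c4e6e_co
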