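import Pool.Agent.P.MP_4c4e6e_co.Basic

/-! The shoelace area of the polygon spanned by finitely many diameters is at most the area. -/

namespace Pool.Agent.P.MP_4c4e6e_co

open Real MeasureTheory Finset

namespace PolyAux

/-- the standard open triangle -/
def tri0 : Set ℂ := {w | 0 < w.re ∧ 0 < w.im ∧ w.re + w.im < 1}

theorem convex_tri0 : Convex ℝ tri0 := by
  rintro x ⟨x1, x2, x3⟩ y ⟨y1, y2, y3⟩ a b ha hb hab
  simp only [tri0, Set.mem_ofPred_eq, Complex.add_re, Complex.add_im, Complex.smul_re,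
    Complex.smul_im, smul_eq_mul]
  obtain rfl : b = 1 - a := by linarith
  rcases ha.eq_or_lt with rfl | ha'
  · simpa using ⟨y1, y2, y3⟩
  · refine ⟨?_, ?_, ?_⟩ <;> nlinarith [mul_pos ha' x1, mul_pos ha' x2, mul_nonneg hb y1.le,
      mul_nonneg hb y2.le, mul_pos ha' (sub_pos.2 x3), mul_nonneg hb (sub_pos.2 y3).le]

theorem volume_tri0 : volume tri0 = ENNReal.ofReal (1 / 2) := by
  have e : tri0 = Complex.measurableEquivRealProd ⁻¹'
      regionBetween (fun _ => 0) (fun x => 1 - x) (Set.Ioo 0 1) := by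
    ext w
    simp only [tri0, regionBetween, Set.mem_ofPred_eq, Set.mem_preimage,
      Complex.measurableEquivRealProd_apply, Set.mem_Ioo]
    constructor
    · rintro ⟨h1, h2, h3⟩; exact ⟨⟨h1, by linarith⟩, h2, by linarith⟩
    · rintro ⟨⟨h1, -⟩, h2, h3⟩; exact ⟨h1, h2, by linarith⟩
  rw [e, Complex.volume_preserving_equiv_real_prod.measure_preimage_equiv, Measure.volume_eq_prod,
    volume_regionBetween_eq_integral (g := fun x => 1 - x) (by simp)
      (((continuous_const.sub continuous_id).integrableOn_Icc).mono_set Set.Ioo_subset_Icc_self)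
      measurableSet_Ioo (fun x hx => by linarith [hx.2]),
    ← integral_Ioc_eq_integral_Ioo, ← intervalIntegral.integral_of_le zero_le_one]
  congr 1
  simp only [Pi.sub_apply, sub_zero]
  rw [intervalIntegral.integral_sub (by simp) (by simp)]
  norm_num [integral_id]

/-- the linear map with columns `a`, `b` -/
noncomputable def lin (a b : ℂ) : ℂ →ₗ[ℝ] ℂ := Complex.reLm.smulRight a + Complex.imLm.smulRight b

theorem det_lin (a b : ℂ) : LinearMap.det (lin a b) = cross a b := by
  rw [← LinearMap.det_toMatrix Complex.basisOneI, Matrix.det_fin_two]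
  simp [LinearMap.toMatrix_apply, lin, cross, mul_comm]

/-- the open triangle with vertices `O`, `O + a`, `O + b` -/
def tri (O a b : ℂ) : Set ℂ := (fun z => O + z) '' (lin a b '' tri0)

theorem mem_tri {O a b z : ℂ} (h : z ∈ tri O a b) :
    ∃ s t : ℝ, 0 < s ∧ 0 < t ∧ s + t < 1 ∧ z - O = s • a + t • b := by
  obtain ⟨_, ⟨w, hw, rfl⟩, rfl⟩ := h
  exact ⟨w.re, w.im, hw.1, hw.2.1, hw.2.2, by simp [lin]⟩

theorem volume_tri (O a b : ℂ) (h : 0 ≤ cross a b) :
    volume (tri O a b) = ENNReal.ofReal (cross a b / 2) := by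
  rw [tri, Set.image_add_left, measure_preimage_add, Measure.addHaar_image_linearMap, det_lin,
    volume_tri0, abs_of_nonneg h, ← ENNReal.ofReal_mul h, mul_one_div]

theorem null_tri (O a b : ℂ) : NullMeasurableSet (tri O a b) volume :=
  ((convex_tri0.linear_image _).translate O).nullMeasurableSet _

theorem cross_comb (s t : ℝ) (a b c : ℂ) :
    cross (s • a + t • b) c = s * cross a c + t * cross b c := by
  simp [cross]; ring

theorem cross_anti (a b : ℂ) : cross a b = -cross b a := by simp [cross]; ring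

theorem fan {K : Set ℂ} (hK : Convex ℝ K) (M : ℕ) (P : ℕ → ℂ) (hP : ∀ k ≤ M, P k ∈ K)
    (hM : P M ≠ P 0) (hc : ∀ i j, i ≤ j → j ≤ M → 0 ≤ cross (P i - P 0) (P j - P 0)) :
    ∃ F ⊆ K, NullMeasurableSet F volume ∧ (∀ z ∈ F, 0 < cross (z - P 0) (P M - P 0)) ∧
      volume F = ENNReal.ofReal (∑ k ∈ range M, cross (P k - P 0) (P (k + 1) - P 0) / 2) := by
  set s := (range M).filter fun k => 0 < cross (P k - P 0) (P (k + 1) - P 0) with hs
  have ms : ∀ k ∈ s, k < M ∧ 0 < cross (P k - P 0) (P (k + 1) - P 0) := fun k hk => by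
    simpa [hs] using hk
  refine ⟨⋃ k ∈ s, tri (P 0) (P k - P 0) (P (k + 1) - P 0), ?_, ?_, ?_, ?_⟩
  · refine Set.iUnion₂_subset fun k hk z hz => ?_
    obtain ⟨a, b, ha, hb, hab, e⟩ := mem_tri hz
    have hk := (ms k hk).1
    have := hK.sum_mem (t := (univ : Finset (Fin 3))) (w := ![1 - a - b, a, b])
      (z := ![P 0, P k, P (k + 1)])
      (fun i _ => by fin_cases i <;> simp <;> linarith) (by simp [Fin.sum_univ_three]; ring)
      (fun i _ => by fin_cases i <;> exact hP _ (by omega))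
    convert this using 1
    rw [sub_eq_iff_eq_add] at e
    simp only [Fin.sum_univ_three, e, Matrix.cons_val]
    module
  · exact Finset.nullMeasurableSet_biUnion _ fun k _ => null_tri _ _ _
  · intro z hz
    simp only [Set.mem_iUnion] at hz
    obtain ⟨k, hk, hz⟩ := hz
    obtain ⟨a, b, ha, hb, -, e⟩ := mem_tri hz
    obtain ⟨hk, hp⟩ := ms k hk
    have h1 := hc k M hk.le le_rfl
    have h2 := hc (k + 1) M hk le_rfl
    rw [e, cross_comb]
    by_contra hn
    have h3 : cross (P k - P 0) (P M - P 0) = 0 := by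
      nlinarith [mul_nonneg ha.le h1, mul_nonneg hb.le h2]
    have h4 : cross (P (k + 1) - P 0) (P M - P 0) = 0 := by
      nlinarith [mul_nonneg ha.le h1, mul_nonneg hb.le h2]
    generalize P k - P 0 = u at *
    generalize P (k + 1) - P 0 = v at *
    refine hM (sub_eq_zero.1 ?_)
    generalize P M - P 0 = w at *
    simp only [cross] at hp h3 h4
    apply Complex.ext
    · refine mul_left_cancel₀ hp.ne' ?_
      simp only [Complex.zero_re]; linear_combination u.re * h4 * (-1) + v.re * h3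
    · refine mul_left_cancel₀ hp.ne' ?_
      simp only [Complex.zero_im]; linear_combination u.im * h4 * (-1) + v.im * h3
  · have dis : ∀ i ∈ s, ∀ j ∈ s, i < j → Disjoint (tri (P 0) (P i - P 0) (P (i + 1) - P 0))
        (tri (P 0) (P j - P 0) (P (j + 1) - P 0)) := by
      intro i hi j hj hij
      refine Set.disjoint_left.2 fun z h1 h2 => ?_
      obtain ⟨a, b, ha, hb, -, e⟩ := mem_tri h1
      obtain ⟨a', b', ha', hb', -, e'⟩ := mem_tri h2
      have c1 := congrArg (fun x => cross x (P (i + 1) - P 0)) (e.symm.trans e')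
      have c2 := hc (i + 1) j hij (ms j hj).1.le
      have c3 := hc (i + 1) (j + 1) (by omega) (ms j hj).1
      have c4 := cross_anti (P (i + 1) - P 0) (P (i + 1) - P 0)
      simp only [cross_comb] at c1
      rw [cross_anti (P j - P 0), cross_anti (P (j + 1) - P 0),
        show cross (P (i + 1) - P 0) (P (i + 1) - P 0) = 0 by linarith] at c1
      nlinarith [mul_pos ha (ms i hi).2, mul_nonneg ha'.le c2, mul_nonneg hb'.le c3]
    rw [measure_biUnion_finset₀ (fun i hi j hj hij => ?_) fun k _ => null_tri _ _ _,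
      sum_congr rfl fun k hk => volume_tri _ _ _ (ms k hk).2.le,
      ← ENNReal.ofReal_sum_of_nonneg fun k hk => by linarith [(ms k hk).2], hs, sum_filter_of_ne]
    · intro k hk hne
      refine lt_of_le_of_ne (hc k (k + 1) (by omega) (mem_range.1 hk)) fun e => hne ?_
      rw [← e, zero_div]
    · rcases lt_or_gt_of_ne hij with h | h
      · exact (dis i hi j hj h).aedisjoint
      · exact (dis j hj i hi h).symm.aedisjoint

theorem dot_U_add (a : ℂ) (s t : ℝ) :
    dot a (U (s + t)) = dot a (U s) * cos t + cross (U s) a * sin t := by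
  simp [dot, cross, cos_add, sin_add]; ring

theorem cross_frame (a b : ℂ) (s : ℝ) :
    cross a b = dot a (U s) * cross (U s) b - cross (U s) a * dot b (U s) := by
  simp only [dot, cross, U_re, U_im]
  linear_combination (a.re * b.im - a.im * b.re) * (cos_sq_add_sin_sq s).symm

theorem cross_nonneg {M : ℕ} {θ : ℕ → ℝ} {P : ℕ → ℂ} (h0 : θ 0 = 0) (hN : θ M = π)
    (hm : ∀ i j, i < j → j ≤ M → θ i < θ j)
    (hP : ∀ j ≤ M, ∀ k ≤ M, dot (P j - P k) (U (θ k)) ≤ 0) (i j : ℕ) (hij : i ≤ j) (hj : j ≤ M) :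
    0 ≤ cross (P i - P 0) (P j - P 0) := by
  rcases hij.eq_or_lt with rfl | hij
  · simp [cross, mul_comm]
  rcases Nat.eq_zero_or_pos i with rfl | hi
  · simp [cross]
  have t1 : 0 < θ i := h0 ▸ hm 0 i hi (by omega)
  have t2 := hm i j hij hj
  have t3 : θ j ≤ π := by
    rcases hj.eq_or_lt with rfl | h
    · exact hN.le
    · exact hN ▸ (hm j M h le_rfl).le
  have neg : ∀ a b u : ℂ, dot (a - b) u = -dot (b - a) u := fun a b u => by simp [dot]; ring
  have a1 := hP i (by omega) 0 (by omega)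
  have a2 := hP 0 (by omega) i (by omega)
  have a3 := hP j hj i (by omega)
  have a4 := hP i (by omega) j hj
  rw [h0, show (0 : ℝ) = θ i + -θ i by ring, dot_U_add, cos_neg, sin_neg, add_neg_cancel] at a1
  rw [neg] at a2 a4
  rw [show θ j = θ i + (θ j - θ i) by ring, dot_U_add] at a4
  have e : cross (P i - P 0) (P j - P 0) = cross (P i - P 0) (P j - P i) := by
    simp [cross]; ring
  have s1 := sin_pos_of_pos_of_lt_pi t1 (by linarith)
  have s2 := sin_pos_of_pos_of_lt_pi (sub_pos.2 t2) (by linarith)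
  have s3 := sin_nonneg_of_nonneg_of_le_pi (x := θ i + (θ j - θ i)) (by linarith) (by linarith)
  rw [sin_add] at s3
  rw [e, cross_frame _ _ (θ i)]
  generalize dot (P i - P 0) (U (θ i)) = p at *
  generalize dot (P j - P i) (U (θ i)) = p' at *
  generalize cross (U (θ i)) (P i - P 0) = r at *
  generalize cross (U (θ i)) (P j - P i) = r' at *
  refine le_of_mul_le_mul_left ?_ (mul_pos s1 s2)
  have hp : 0 ≤ p := by linarith
  have hp' : 0 ≤ -p' := by linarith
  nlinarith [mul_nonneg (mul_nonneg hp hp') s3,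
    mul_nonneg (mul_nonneg hp s1.le) (neg_nonneg.2 a4),
    mul_nonneg (mul_nonneg hp' s2.le) (neg_nonneg.2 a1)]

theorem dot_le_one {a : ℂ} (h : ‖a‖ ≤ 1) (t : ℝ) : dot a (U t) ≤ 1 := by
  have h1 : a.re ^ 2 + a.im ^ 2 ≤ 1 := by rw [← normSq_eq]; nlinarith [norm_nonneg a]
  simp only [dot, U_re, U_im]
  nlinarith [sq_nonneg (a.re - cos t), sq_nonneg (a.im - sin t), cos_sq_add_sin_sq t]

theorem tele (P : ℕ → ℂ) (M : ℕ) : ∑ k ∈ range M, cross (P k - P 0) (P (k + 1) - P 0) / 2 =
    ∑ k ∈ range M, cross (P k) (P (k + 1)) / 2 - cross (P 0) (P M) / 2 := by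
  induction M with
  | zero => simp [cross, mul_comm]
  | succ M ih => rw [sum_range_succ, sum_range_succ, ih]; simp [cross]; ring

end PolyAux

open PolyAux in
theorem poly_le_volume (K : Set ℂ) (hK : Convex ℝ K) (hd : ∀ z ∈ K, ∀ w ∈ K, ‖z - w‖ ≤ 1)
    (N : ℕ) (θ : ℕ → ℝ) (X Y : ℕ → ℂ) (h0 : θ 0 = 0) (hN : θ (N + 1) = π)
    (hm : ∀ k ≤ N, θ k < θ (k + 1)) (hX : ∀ k ≤ N + 1, X k ∈ K) (hY : ∀ k ≤ N + 1, Y k ∈ K)
    (hXY : ∀ k ≤ N + 1, X k - Y k = U (θ k)) (hX0 : X (N + 1) = Y 0) (hY0 : Y (N + 1) = X 0) :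
    ENNReal.ofReal (∑ k ∈ range (N + 1),
      (cross (X k) (X (k + 1)) + cross (Y k) (Y (k + 1))) / 2) ≤ volume K := by
  have mono : ∀ i j, i < j → j ≤ N + 1 → θ i < θ j := by
    intro i j hij
    induction j, hij using Nat.le_induction with
    | base => exact fun h => hm i (by omega)
    | succ j hj ih => exact fun h => (ih (by omega)).trans (hm j (by omega))
  have uu : ∀ t, dot (U t) (U t) = 1 := fun t => by simp [dot_U_U]
  have ds : ∀ a b u : ℂ, dot (a - b) u = dot a u - dot b u := fun a b u => by simp [dot]; ring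
  have cX := cross_nonneg (P := X) h0 hN mono fun j hj k hk => by
    have := dot_le_one (hd _ (hX j hj) _ (hY k hk)) (θ k)
    rw [show X j - X k = (X j - Y k) - (X k - Y k) by ring, ds, hXY k hk, uu]; linarith
  have cY := cross_nonneg (P := fun k => -Y k) h0 hN mono fun j hj k hk => by
    have := dot_le_one (hd _ (hX k hk) _ (hY j hj)) (θ k)
    rw [show -Y j - -Y k = (X k - Y j) - (X k - Y k) by ring, ds, hXY k hk, uu]; linarith
  have cY' : ∀ i j, i ≤ j → j ≤ N + 1 → 0 ≤ cross (Y i - Y 0) (Y j - Y 0) := fun i j h1 h2 => by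
    refine (cY i j h1 h2).trans_eq ?_
    simp [cross]; ring
  have ne : Y 0 ≠ X 0 := fun e => by
    have := congrArg norm (hXY 0 (by omega))
    rw [e, norm_U] at this
    simp at this
  obtain ⟨F, F1, -, F3, F4⟩ := fan hK (N + 1) X hX (hX0 ▸ ne) cX
  obtain ⟨G, G1, G2, G3, G4⟩ := fan hK (N + 1) Y hY (hY0 ▸ ne.symm) cY'
  refine le_trans (le_of_eq ?_) (measure_mono (Set.union_subset F1 G1))
  rw [measure_union₀ G2 (Set.disjoint_left.2 fun z h1 h2 => ?_).aedisjoint, F4, G4,
    ← ENNReal.ofReal_add, tele, tele, hX0, hY0, cross_anti (Y 0)]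
  · simp only [add_div, sum_add_distrib]; congr 1; ring
  · exact sum_nonneg fun k hk => by linarith [cX k (k + 1) (by omega) (mem_range.1 hk)]
  · exact sum_nonneg fun k hk => by linarith [cY' k (k + 1) (by omega) (mem_range.1 hk)]
  · have h3 := F3 z h1
    have h4 := G3 z h2
    rw [hX0] at h3
    rw [hY0] at h4
    simp only [cross, Complex.sub_re, Complex.sub_im] at h3 h4
    nlinarith

end Pool.Agent.P.MP_4c4e6e_co
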