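import Pool.Agent.P.MP_4c4e6e_co.Sym
import Pool.Agent.P.MP_4c4e6e_co.Poly
import Pool.Agent.P.MP_4c4e6e_co.Part

/-! From a universal case to a system of diameters, and the choice of the distinguished gap. -/

namespace Pool.Agent.P.MP_4c4e6e_co

open Real Finset MeasureTheory

namespace Red

theorem U_mul (s t : ℝ) : U s * U t = U (s + t) := by
  apply Complex.ext <;> simp [cos_add, sin_add]
  ring

theorem U_zero : U 0 = 1 := by
  apply Complex.ext <;> simp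

theorem U_sub_pi (t : ℝ) : U (t - π) = -U t := by
  apply Complex.ext <;> simp

theorem continuous_U : Continuous U := by
  have : U = fun t => ((cos t : ℝ) : ℂ) + ((sin t : ℝ) : ℂ) * Complex.I := by
    funext t
    apply Complex.ext <;> simp [-Complex.ofReal_cos, -Complex.ofReal_sin]
  rw [this]
  fun_prop

theorem exists_U {z : ℂ} (hz : ‖z‖ = 1) : ∃ t, U t = z := by
  refine ⟨Complex.arg z, ?_⟩
  have hz0 : z ≠ 0 := fun h => by simp [h] at hz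
  apply Complex.ext
  · rw [U_re, Complex.cos_arg hz0, hz, div_one]
  · rw [U_im, Complex.sin_arg, hz, div_one]

theorem cross_rot (s : ℝ) (z w : ℂ) : cross (U s * z) (U s * w) = cross z w := by
  simp only [cross, Complex.mul_re, Complex.mul_im, U_re, U_im]
  linear_combination (z.re * w.im - z.im * w.re) * (cos_sq_add_sin_sq s)

theorem norm_rot (s : ℝ) (z w : ℂ) : ‖U s * z - U s * w‖ = ‖z - w‖ := by
  rw [← mul_sub, norm_mul, norm_U, one_mul]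

theorem uniq {K : Set ℂ} (hd : ∀ z ∈ K, ∀ w ∈ K, ‖z - w‖ ≤ 1) {t : ℝ} {X X' : ℂ} (h1 : X ∈ K)
    (h2 : X - U t ∈ K) (h3 : X' ∈ K) (h4 : X' - U t ∈ K) : X = X' := by
  have a1 := pow_le_pow_left₀ (norm_nonneg _) (hd _ h1 _ h4) 2
  have a2 := pow_le_pow_left₀ (norm_nonneg _) (hd _ h3 _ h2) 2
  rw [normSq_eq] at a1 a2
  simp only [Complex.sub_re, Complex.sub_im, U_re, U_im] at a1 a2
  have a3 := cos_sq_add_sin_sq t
  have a4 : (X.re - X'.re) ^ 2 + (X.im - X'.im) ^ 2 ≤ 0 := by nlinarith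
  apply Complex.ext
  · nlinarith [sq_nonneg (X.re - X'.re), sq_nonneg (X.im - X'.im)]
  · nlinarith [sq_nonneg (X.re - X'.re), sq_nonneg (X.im - X'.im)]

theorem fold {S : Set ℂ} (hu : Universal S) (n : ℕ) (a : ℕ → ℝ)
    (ha : ∀ i < n, 0 < a i ∧ a i ≤ 1) :
    ∃ P : ℕ → ℂ, (∀ i ≤ n, P (2 * i) ∈ S ∧ P (2 * i + 1) ∈ S ∧ ‖P (2 * i) - P (2 * i + 1)‖ = 1) ∧
      ∀ i < n, ‖P (2 * i + 1) - P (2 * (i + 1))‖ = a i := by
  let L : ℕ → ℝ := fun k => if k % 2 = 0 then 1 else a (k / 2)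
  have hL : ∀ k < 2 * n + 1, 0 < L k ∧ L k ≤ 1 := fun k hk => by
    by_cases h : k % 2 = 0
    · simp only [L, if_pos h]; norm_num
    · simp only [L, if_neg h]; exact ha _ (by omega)
  obtain ⟨p, hp⟩ := hu (2 * n + 1) (fun i => L i)
    ⟨fun i => (hL i i.2).1, fun i => (hL i i.2).2, ⟨0, by simp [L]⟩⟩
  let P : ℕ → ℂ := fun k => if h : k < 2 * n + 1 + 1 then p ⟨k, h⟩ else 0
  have hP : ∀ k < 2 * n + 1, ‖P k - P (k + 1)‖ = L k ∧ P k ∈ S ∧ P (k + 1) ∈ S := fun k hk => by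
    obtain ⟨h1, h2⟩ := hp ⟨k, hk⟩
    have e1 : P k = p (Fin.castSucc ⟨k, hk⟩) := dif_pos (by omega)
    have e2 : P (k + 1) = p (Fin.succ ⟨k, hk⟩) := dif_pos (by omega)
    rw [e1, e2, ← dist_eq_norm]
    exact ⟨h1, h2 (left_mem_segment _ _ _), h2 (right_mem_segment _ _ _)⟩
  refine ⟨P, fun i hi => ?_, fun i hi => ?_⟩
  · obtain ⟨h1, h2, h3⟩ := hP (2 * i) (by omega)
    refine ⟨h2, h3, h1.trans ?_⟩
    simp only [L]
    rw [if_pos (by omega)]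
  · obtain ⟨h1, -, -⟩ := hP (2 * i + 1) (by omega)
    refine h1.trans ?_
    simp only [L]
    rw [if_neg (by omega)]
    congr 1
    omega

theorem dia_of {S K : Set ℂ} (hu : Universal S) (hSK : S ⊆ K) (hK : IsCompact K)
    (hd : ∀ z ∈ K, ∀ w ∈ K, ‖z - w‖ ≤ 1) : ∃ D : Dia, ∀ t ∈ D.Θ, D.γ t ∈ K := by
  classical
  let Θ : Set ℝ := {t | ∃ X, X ∈ K ∧ X - U t ∈ K}
  let γ : ℝ → ℂ := fun t => if h : t ∈ Θ then h.choose else 0
  have hγ : ∀ t ∈ Θ, γ t ∈ K ∧ γ t - U t ∈ K := fun t ht => by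
    have e : γ t = ht.choose := dif_pos ht
    rw [e]
    exact ht.choose_spec
  have hγ' : ∀ (t : ℝ) (X : ℂ), X ∈ K → X - U t ∈ K → t ∈ Θ ∧ γ t = X := fun t X h1 h2 =>
    ⟨⟨X, h1, h2⟩, uniq hd (hγ t ⟨X, h1, h2⟩).1 (hγ t ⟨X, h1, h2⟩).2 h1 h2⟩
  have hpi : ∀ t ∈ Θ, t + π ∈ Θ ∧ γ (t + π) = γ t - U t := fun t ht =>
    hγ' _ _ (hγ t ht).2 (by rw [U_add_pi]; simpa using (hγ t ht).1)
  refine ⟨⟨Θ, γ, ?_, fun t ht => (hpi t ht).1, fun t ht => ?_, fun t ht => (hpi t ht).2,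
    fun s hs t ht => hd _ (hγ s hs).1 _ (hγ t ht).1, fun n a ha => ?_⟩, fun t ht => (hγ t ht).1⟩
  · have hc : IsCompact ((fun x : ℂ × ℂ => x.1 - x.2) '' (K ×ˢ K)) :=
      (hK.prod hK).image (by fun_prop)
    have e : Θ = U ⁻¹' ((fun x : ℂ × ℂ => x.1 - x.2) '' (K ×ˢ K)) := by
      ext t
      constructor
      · rintro ⟨X, h1, h2⟩
        exact ⟨(X, X - U t), ⟨h1, h2⟩, by simp⟩
      · rintro ⟨⟨X, Y⟩, ⟨h1, h2⟩, h3⟩
        refine ⟨X, h1, ?_⟩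
        rw [← h3]
        simpa using h2
    rw [e]
    exact hc.isClosed.preimage continuous_U
  · exact (hγ' _ _ (hγ t ht).2 (by rw [U_sub_pi]; simpa using (hγ t ht).1)).1
  · obtain ⟨P, h1, h2⟩ := fold hu n a ha
    have h3 : ∀ i, ∃ t, i ≤ n → U t = P (2 * i) - P (2 * i + 1) := fun i => by
      by_cases hi : i ≤ n
      · obtain ⟨t, ht⟩ := exists_U (h1 i hi).2.2
        exact ⟨t, fun _ => ht⟩
      · exact ⟨0, fun h => absurd h hi⟩
    choose t ht using h3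
    have h4 : ∀ i ≤ n, t i ∈ Θ ∧ γ (t i) = P (2 * i) := fun i hi =>
      hγ' _ _ (hSK (h1 i hi).1) (by rw [ht i hi]; simpa using hSK (h1 i hi).2.1)
    refine ⟨t, fun i hi => (h4 i hi).1, fun i hi => ?_⟩
    rw [(hpi _ (h4 i hi.le).1).2, (h4 i hi.le).2, (h4 (i + 1) hi).2, ht i hi.le, ← h2 i hi]
    congr 1
    ring

theorem volume_rot (q : ℝ) {K : Set ℂ} (hK : MeasurableSet K) :
    volume ((fun z => U q * z) ⁻¹' K) = volume K := by
  let a : Circle := ⟨U q, by simpa [Submonoid.unitSphere] using norm_U q⟩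
  exact (rotation a).measurePreserving.measure_preimage hK.nullMeasurableSet

variable (D : Dia)

theorem gap_add {p q : ℝ} (h : D.IsGap p q) : D.IsGap (p + π) (q + π) :=
  ⟨D.add_pi _ h.1, D.add_pi _ h.2.1, by linarith [h.2.2.1], fun t ht h' =>
    h.2.2.2 (t - π) (D.sub_pi t ht) ⟨by linarith [h'.1], by linarith [h'.2]⟩⟩

theorem gap_le {p q : ℝ} (h : D.IsGap p q) : q ≤ p + π := by
  by_contra hc
  exact h.2.2.2 (p + π) (D.add_pi _ h.1) ⟨by linarith [pi_pos], not_le.1 hc⟩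

theorem per_int (k : ℤ) : ∀ t ∈ D.Θ, t + k * (2 * π) ∈ D.Θ ∧ D.γ (t + k * (2 * π)) = D.γ t := by
  induction k using Int.induction_on with
  | zero => intro t ht; simpa using ht
  | succ k ih =>
    intro t ht
    obtain ⟨h1, h2⟩ := ih t ht
    have e : t + (((k : ℤ) + 1 : ℤ) : ℝ) * (2 * π) = t + ((k : ℤ) : ℝ) * (2 * π) + π + π := by
      push_cast; ring
    rw [e, D.per h1]
    exact ⟨D.add_pi _ (D.add_pi _ h1), h2⟩
  | pred k ih =>
    intro t ht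
    obtain ⟨h1, h2⟩ := ih t ht
    have e : t + ((-(k : ℤ) - 1 : ℤ) : ℝ) * (2 * π) = t + ((-(k : ℤ) : ℤ) : ℝ) * (2 * π) - π - π := by
      push_cast; ring
    have h3 := D.sub_pi _ (D.sub_pi _ h1)
    have h4 := D.per h3
    rw [show t + ((-(k : ℤ) : ℤ) : ℝ) * (2 * π) - π - π + π + π
      = t + ((-(k : ℤ) : ℤ) : ℝ) * (2 * π) by ring] at h4
    rw [e]
    exact ⟨h3, h4.symm.trans h2⟩

theorem gap_normal {p q : ℝ} (h : D.IsGap p q) : ∃ p' q', D.IsGap p' q' ∧ 0 ≤ p' ∧ p' < 2 * π ∧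
    q' - p' = q - p ∧ D.γ p' = D.γ p ∧ D.γ q' = D.γ q := by
  have hπ : 0 < 2 * π := by linarith [pi_pos]
  set k : ℤ := -⌊p / (2 * π)⌋ with hk
  have f1 := Int.floor_le (p / (2 * π))
  have f2 := Int.lt_floor_add_one (p / (2 * π))
  rw [le_div_iff₀ hπ] at f1
  rw [div_lt_iff₀ hπ] at f2
  have hk' : (k : ℝ) = -(⌊p / (2 * π)⌋ : ℝ) := by rw [hk]; push_cast; ring
  refine ⟨p + k * (2 * π), q + k * (2 * π), ⟨(per_int D k p h.1).1, (per_int D k q h.2.1).1,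
    by linarith [h.2.2.1], fun t ht h' => ?_⟩, by rw [hk']; linarith, by rw [hk']; linarith,
    by ring, (per_int D k p h.1).2, (per_int D k q h.2.1).2⟩
  refine h.2.2.2 _ (per_int D (-k) t ht).1 ⟨?_, ?_⟩
  · push_cast; linarith [h'.1]
  · push_cast; linarith [h'.2]

theorem finite_gaps {η : ℝ} (hη : 0 < η) :
    {x : ℝ × ℝ | D.IsGap x.1 x.2 ∧ η ≤ x.2 - x.1 ∧ 0 ≤ x.1 ∧ x.1 < 2 * π}.Finite := by
  refine Set.Finite.of_injOn (f := fun x : ℝ × ℝ => ⌊x.1 / η⌋) (t := Set.Icc 0 ⌊2 * π / η⌋)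
    (fun x hx => ⟨Int.floor_nonneg.2 (div_nonneg hx.2.2.1 hη.le),
      Int.floor_le_floor (div_le_div_of_nonneg_right hx.2.2.2.le hη.le)⟩) ?_ (Set.finite_Icc _ _)
  have key : ∀ p q p' : ℝ, D.IsGap p q → η ≤ q - p → p' ∈ D.Θ → ⌊p / η⌋ = ⌊p' / η⌋ → p' ≤ p := by
    intro p q p' hg hl hp' he
    by_contra hc
    have f1 := Int.floor_le (p / η)
    have f2 := Int.lt_floor_add_one (p' / η)
    rw [le_div_iff₀ hη] at f1
    rw [div_lt_iff₀ hη, ← he] at f2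
    exact hg.2.2.2 p' hp' ⟨not_le.1 hc, by linarith⟩
  rintro ⟨p, q⟩ ⟨hg, hl, -, -⟩ ⟨p', q'⟩ ⟨hg', hl', -, -⟩ he
  have e : p = p' := le_antisymm (key p' q' p hg' hl' hg.1 he.symm) (key p q p' hg hl hg'.1 he)
  subst e
  have e2 : q = q' := by
    rcases lt_trichotomy q q' with h | h | h
    · exact absurd ⟨hg.2.2.1, h⟩ (hg'.2.2.2 q hg.2.1)
    · exact h
    · exact absurd ⟨hg'.2.2.1, h⟩ (hg.2.2.2 q' hg'.2.1)
  rw [e2]

theorem exists_max_gap {η : ℝ} (hη : 0 < η) (f : ℂ → ℂ → ℝ → ℝ) {p₀ q₀ : ℝ} (h₀ : D.IsGap p₀ q₀)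
    (hl : η ≤ q₀ - p₀) : ∃ p q, D.IsGap p q ∧ η ≤ q - p ∧ ∀ a b, D.IsGap a b → η ≤ b - a →
      f (D.γ a) (D.γ b) (b - a) ≤ f (D.γ p) (D.γ q) (q - p) := by
  obtain ⟨p₁, q₁, g1, g2, g3, g4, -, -⟩ := gap_normal D h₀
  obtain ⟨⟨p, q⟩, hx, hm⟩ := Set.exists_max_image _
    (fun x : ℝ × ℝ => f (D.γ x.1) (D.γ x.2) (x.2 - x.1)) (finite_gaps D hη)
    ⟨(p₁, q₁), g1, by simp only; linarith, g2, g3⟩
  refine ⟨p, q, hx.1, hx.2.1, fun a b hab hl' => ?_⟩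
  obtain ⟨a', b', k1, k2, k3, k4, k5, k6⟩ := gap_normal D hab
  have := hm (a', b') ⟨k1, by simp only; linarith, k2, k3⟩
  simp only [k4, k5, k6] at this
  exact this

theorem shift_gap {D D' : Dia} {q : ℝ} (h1 : ∀ t, t ∈ D'.Θ ↔ q + t ∈ D.Θ) {a b : ℝ}
    (h : D'.IsGap a b) : D.IsGap (q + a) (q + b) :=
  ⟨(h1 a).1 h.1, (h1 b).1 h.2.1, by linarith [h.2.2.1], fun t ht h' =>
    h.2.2.2 (t - q) ((h1 _).2 (by simpa using ht)) ⟨by linarith [h'.1], by linarith [h'.2]⟩⟩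

theorem shift_Sh {D D' : Dia} {q : ℝ} (h2 : ∀ t, D'.γ t = U (-q) * D.γ (q + t)) (N : ℕ)
    (θ : ℕ → ℝ) : D'.Sh N θ = ∑ k ∈ range (N + 1), (cross (D.γ (q + θ k)) (D.γ (q + θ (k + 1))) +
        cross (D.γ (q + θ k + π)) (D.γ (q + θ (k + 1) + π))) / 2 := by
  simp only [Dia.Sh, h2, cross_rot, add_assoc]

theorem exists_cfg {p q : ℝ} (h : D.IsGap p q) : ∃ C : Cfg, C.T = π - (q - p) ∧
    (∀ t, t ∈ C.Θ ↔ q + t ∈ D.Θ) ∧ (∀ t, C.γ t = U (-q) * D.γ (q + t)) ∧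
    C.L = D.dX p q ∧ C.l = D.dY p q := by
  obtain ⟨D', h1, h2⟩ := D.exists_shift q
  have hg := gap_add D h
  refine ⟨⟨D', π - (q - p), by linarith [gap_le D h], by linarith [h.2.2.1],
    (h1 0).2 (by simpa using h.2.1), (h1 _).2 ?_, fun t ht h' => ?_⟩, rfl, h1, h2, ?_, ?_⟩
  · rw [show q + (π - (q - p)) = p + π by ring]
    exact hg.1
  · exact hg.2.2.2 (q + t) ((h1 t).1 ht) ⟨by linarith [h'.1], by linarith [h'.2]⟩
  · simp only [Cfg.L, Dia.dC, Dia.dX, h2, norm_rot]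
    rw [show q + (π - (q - p) + π) = p + π + π by ring, D.per h.1, add_zero, norm_sub_rev]
  · simp only [Cfg.l, Dia.dC, Dia.dY, h2, norm_rot]
    rw [show q + (π - (q - p)) = p + π by ring, zero_add]

theorem chords_ge {p q : ℝ} (h : D.IsGap p q) (hl : 1 / 2 ≤ q - p) :
    12 / 25 ≤ D.dX p q + D.dY p q := by
  have e : U p - U q = (D.γ p - D.γ q) - (D.γ (p + π) - D.γ (q + π)) := by
    rw [D.anti p h.1, D.anti q h.2.1]; ring
  have h1 : ‖U p - U q‖ ≤ D.dX p q + D.dY p q := by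
    rw [e]; exact norm_sub_le _ _
  have h2 : ‖U p - U q‖ ^ 2 = 2 - 2 * cos (q - p) := by
    rw [normSq_eq, cos_sub]
    simp only [Complex.sub_re, Complex.sub_im, U_re, U_im]
    linear_combination cos_sq_add_sin_sq p + cos_sq_add_sin_sq q
  have h3 : cos (q - p) ≤ cos (1 / 2) :=
    cos_le_cos_of_nonneg_of_le_pi (by norm_num) (by linarith [gap_le D h]) hl
  have h4 := (abs_le.1 (Real.cos_bound (x := 1 / 2) (by rw [abs_of_pos] <;> norm_num))).2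
  rw [abs_of_pos (by norm_num : (0 : ℝ) < 1 / 2)] at h4
  refine le_trans ?_ h1
  refine (pow_le_pow_iff_left₀ (by norm_num) (norm_nonneg _) two_ne_zero).1 ?_
  rw [h2]
  norm_num at h4 h3 ⊢
  linarith

end Red

/-- The area of a universal convex set of diameter one dominates all polygons of a system of
diameters. -/
theorem exists_dia (S : Set ℂ) (hc : Convex ℝ S) (hd : Metric.diam S = 1) (hu : Universal S) :
    ∃ D : Dia, ∀ (N : ℕ) (θ : ℕ → ℝ) (q : ℝ), (∀ k ≤ N + 1, q + θ k ∈ D.Θ) → θ 0 = 0 → θ (N + 1) = π →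
      (∀ k ≤ N, θ k < θ (k + 1)) →
      ENNReal.ofReal (∑ k ∈ range (N + 1), (cross (D.γ (q + θ k)) (D.γ (q + θ (k + 1))) +
        cross (D.γ (q + θ k + π)) (D.γ (q + θ (k + 1) + π))) / 2) ≤ volume S := by
  have hb : Bornology.IsBounded S := by
    by_contra h
    rw [Metric.diam_eq_zero_of_unbounded h] at hd
    exact zero_ne_one hd
  have hK : IsCompact (closure S) := hb.isCompact_closure
  have hdK : ∀ z ∈ closure S, ∀ w ∈ closure S, ‖z - w‖ ≤ 1 := fun z hz w hw => by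
    rw [← dist_eq_norm, ← hd, ← Metric.diam_closure]
    exact Metric.dist_le_diam_of_mem hb.closure hz hw
  obtain ⟨D, hD⟩ := Red.dia_of hu subset_closure hK hdK
  refine ⟨D, fun N θ q hθ h0 hN hm => ?_⟩
  rw [← measure_closure_of_null_frontier (hc.addHaar_frontier volume),
    ← Red.volume_rot q isClosed_closure.measurableSet]
  have hU : ∀ z : ℂ, U q * (U (-q) * z) = z := fun z => by
    rw [← mul_assoc, Red.U_mul, add_neg_cancel, Red.U_zero, one_mul]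
  have hq : q ∈ D.Θ := by simpa [h0] using hθ 0 (by omega)
  have := poly_le_volume ((fun z => U q * z) ⁻¹' closure S)
    (hc.closure.is_linear_preimage (f := fun z : ℂ => U q * z)
      ⟨fun x y => mul_add _ _ _, fun c x => mul_smul_comm _ _ _⟩)
    (fun z hz w hw => by rw [← Red.norm_rot q]; exact hdK _ hz _ hw) N θ
    (fun k => U (-q) * D.γ (q + θ k)) (fun k => U (-q) * D.γ (q + θ k + π)) h0 hN hm
    (fun k hk => by
      show U q * _ ∈ closure S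
      rw [hU]; exact hD _ (hθ k hk))
    (fun k hk => by
      show U q * _ ∈ closure S
      rw [hU]; exact hD _ (D.add_pi _ (hθ k hk)))
    (fun k hk => by
      rw [D.anti _ (hθ k hk), ← mul_sub, sub_sub_cancel, Red.U_mul, neg_add_cancel_left])
    (by rw [hN, h0, add_zero]) (by rw [hN, h0, add_zero, D.per hq])
  simpa only [Red.cross_rot] using this

/-- The three possibilities for the gaps. `Q` is any property of all polygon areas. -/
theorem choose_gap (D : Dia) (Q : ℝ → Prop)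
    (hQ : ∀ (N : ℕ) (θ : ℕ → ℝ) (q : ℝ), (∀ k ≤ N + 1, q + θ k ∈ D.Θ) → θ 0 = 0 → θ (N + 1) = π →
      (∀ k ≤ N, θ k < θ (k + 1)) →
      Q (∑ k ∈ range (N + 1), (cross (D.γ (q + θ k)) (D.γ (q + θ (k + 1))) +
        cross (D.γ (q + θ k + π)) (D.γ (q + θ (k + 1) + π))) / 2)) :
    (∃ (D' : Dia) (N : ℕ) (θ : ℕ → ℝ), D'.IsPart N θ ∧ (∀ k ≤ N, θ (k + 1) - θ k ≤ 1 / 2) ∧
      Q (D'.Sh N θ)) ∨
    (∃ C : Cfg, (∀ N θ, C.IsPart N θ → Q (C.Sh N θ)) ∧ C.l ≤ C.L ∧ 6 / 25 ≤ C.L ∧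
      π - C.T ≤ 113 / 100 ∧ ∀ p ∈ C.I, ∀ q ∈ C.I, C.IsGap p q →
        q - p ≤ 113 / 100 ∧ C.dX p q ≤ C.L ∧ C.dY p q ≤ C.L) ∨
    (∃ C : Cfg, (∀ N θ, C.IsPart N θ → Q (C.Sh N θ)) ∧ C.l ≤ C.L ∧
      113 / 100 ≤ π - C.T ∧ ∀ p ∈ C.I, ∀ q ∈ C.I, C.IsGap p q → q - p ≤ π - C.T) := by
  have hQ' : ∀ (D' : Dia) (q : ℝ), (∀ t, t ∈ D'.Θ ↔ q + t ∈ D.Θ) →
      (∀ t, D'.γ t = U (-q) * D.γ (q + t)) → ∀ N θ, D'.IsPart N θ → Q (D'.Sh N θ) := by
    intro D' q h1 h2 N θ hp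
    rw [Red.shift_Sh h2]
    exact hQ N θ q (fun k hk => (h1 _).1 (hp.2.2.2 k hk)) hp.1 hp.2.1 hp.2.2.1
  by_cases c2 : ∃ p q, D.IsGap p q ∧ 113 / 100 ≤ q - p
  · right; right
    obtain ⟨p₀, q₀, g₀, l₀⟩ := c2
    obtain ⟨p₁, q₁, g₁, l₁, hm⟩ := Red.exists_max_gap D (η := 113 / 100) (by norm_num)
      (fun _ _ d => d) g₀ l₀
    obtain ⟨p, q, g, hl, hd⟩ : ∃ p q, D.IsGap p q ∧ q - p = q₁ - p₁ ∧ D.dY p q ≤ D.dX p q := by
      rcases le_total (D.dY p₁ q₁) (D.dX p₁ q₁) with h | h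
      · exact ⟨p₁, q₁, g₁, rfl, h⟩
      · refine ⟨p₁ + π, q₁ + π, Red.gap_add D g₁, by ring, ?_⟩
        simp only [Dia.dX, Dia.dY, D.per g₁.1, D.per g₁.2.1] at h ⊢
        exact h
    obtain ⟨C, hT, h1, h2, hL, hl'⟩ := Red.exists_cfg D g
    refine ⟨C, hQ' C.toDia q h1 h2, by rw [hL, hl']; exact hd, by rw [hT]; linarith,
      fun a _ b _ hab => ?_⟩
    rw [hT]
    have hg := Red.shift_gap h1 hab
    rcases le_total (113 / 100) (b - a) with h | h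
    · have := hm _ _ hg (by linarith)
      linarith
    · linarith
  have c2' : ∀ p q, D.IsGap p q → q - p ≤ 113 / 100 := fun p q h => by
    by_contra hc
    exact c2 ⟨p, q, h, (not_le.1 hc).le⟩
  by_cases c1 : ∃ p q, D.IsGap p q ∧ 1 / 2 ≤ q - p
  · right; left
    obtain ⟨p₀, q₀, g₀, l₀⟩ := c1
    obtain ⟨p, q, g, -, hm⟩ := Red.exists_max_gap D (η := 6 / 25) (by norm_num)
      (fun z w _ => ‖z - w‖) g₀ (by linarith)
    have hm' : ∀ a b, D.IsGap a b → 6 / 25 ≤ b - a → D.dX a b ≤ D.dX p q := hm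
    have hL0 : 6 / 25 ≤ D.dX p q := by
      have a1 := hm' _ _ g₀ (by linarith)
      have a2 : D.dY p₀ q₀ ≤ D.dX p q := hm' _ _ (Red.gap_add D g₀) (by linarith)
      linarith [Red.chords_ge D g₀ l₀]
    have hX : ∀ a b, D.IsGap a b → D.dX a b ≤ D.dX p q := fun a b hab => by
      rcases le_total (6 / 25) (b - a) with h | h
      · exact hm' a b hab h
      · have a1 := D.len_le hab.1 hab.2.1 hab.2.2.1.le (Red.gap_le D hab)
        have a2 : 0 ≤ D.dY a b := norm_nonneg _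
        linarith
    have hY : ∀ a b, D.IsGap a b → D.dY a b ≤ D.dX p q := fun a b hab =>
      hX _ _ (Red.gap_add D hab)
    obtain ⟨C, hT, h1, h2, hL, hl'⟩ := Red.exists_cfg D g
    refine ⟨C, hQ' C.toDia q h1 h2, by rw [hL, hl']; exact hY p q g, by rw [hL]; exact hL0,
      by rw [hT]; linarith [c2' p q g], fun a _ b _ hab => ?_⟩
    have hg := Red.shift_gap h1 hab
    have a1 := hX _ _ hg
    have a2 := hY _ _ hg
    rw [hL]
    refine ⟨by linarith [c2' _ _ hg], ?_, ?_⟩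
    · simpa only [Dia.dX, h2, Red.norm_rot] using a1
    · simpa only [Dia.dX, Dia.dY, h2, Red.norm_rot, add_assoc] using a2
  · left
    obtain ⟨t, ht, -⟩ := D.walk 0 (fun _ => 1) (fun i hi => absurd hi (Nat.not_lt_zero i))
    obtain ⟨D', h1, h2⟩ := D.exists_shift (t 0)
    have h0 : (0 : ℝ) ∈ D'.Θ := (h1 0).2 (by simpa using ht 0 le_rfl)
    have hπ : π ∈ D'.Θ := by simpa using D'.add_pi 0 h0
    obtain ⟨N, θ, a0, aN, am, aΘ, ag⟩ := exists_chain D'.Θ D'.closed h0 hπ pi_pos.le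
      (ε := 1 / 2) (by norm_num)
    obtain ⟨N, rfl⟩ : ∃ M, N = M + 1 := by
      rcases N with _ | N
      · rw [a0] at aN; exact absurd aN pi_pos.ne
      · exact ⟨N, rfl⟩
    have hp : D'.IsPart N θ := ⟨a0, aN, fun k hk => am k (by omega), aΘ⟩
    refine ⟨D', N, θ, hp, fun k hk => ?_, hQ' D' _ h1 h2 N θ hp⟩
    rcases ag k (by omega) with h | h
    · exact h
    · by_contra hc
      exact c1 ⟨_, _, Red.shift_gap h1 ⟨aΘ k (by omega), aΘ (k + 1) (by omega), am k (by omega), h⟩,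
        by linarith [not_le.1 hc]⟩

end Pool.Agent.P.MP_4c4e6e_co
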