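import Pool.Agent.P.MP_4c4e6e_co.Basic

/-! The upper bound: the case R2. -/

namespace Pool.Agent.P.MP_4c4e6e_co

open Real MeasureTheory Set

/-- the case R2 -/
def R2 : Set ℂ := {z | ‖z‖ ≤ 1 ∧ ‖z - 1‖ ≤ 1 ∧ 0 ≤ z.im}

/-- the height of R2 above the abscissa `p` -/
noncomputable def ht (p : ℝ) : ℝ := √(1 - (max p (1 - p)) ^ 2)

theorem continuous_ht : Continuous ht := by
  unfold ht; fun_prop

theorem norm_le_one_iff (z : ℂ) : ‖z‖ ≤ 1 ↔ z.re ^ 2 + z.im ^ 2 ≤ 1 := by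
  rw [← normSq_eq]
  constructor
  · intro h; nlinarith [norm_nonneg z]
  · intro h; nlinarith [norm_nonneg z]

theorem mem_R2 (z : ℂ) :
    z ∈ R2 ↔ z.re ^ 2 + z.im ^ 2 ≤ 1 ∧ (1 - z.re) ^ 2 + z.im ^ 2 ≤ 1 ∧ 0 ≤ z.im := by
  have : (z.re - 1) ^ 2 = (1 - z.re) ^ 2 := by ring
  simp [R2, norm_le_one_iff, this]

theorem mem_R2' (z : ℂ) : z ∈ R2 ↔ z.re ∈ Icc (0 : ℝ) 1 ∧ z.im ∈ Icc 0 (ht z.re) := by
  rw [mem_R2]
  constructor
  · rintro ⟨h1, h2, h3⟩
    refine ⟨⟨by nlinarith [sq_nonneg z.im], by nlinarith [sq_nonneg z.im]⟩, h3, ?_⟩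
    apply le_sqrt_of_sq_le
    rcases le_total z.re (1 - z.re) with h | h
    · rw [max_eq_right h]; linarith
    · rw [max_eq_left h]; linarith
  · rintro ⟨⟨h1, h2⟩, h3, h4⟩
    have hm : max z.re (1 - z.re) ≤ 1 := max_le h2 (by linarith)
    have ha : z.re ≤ max z.re (1 - z.re) := le_max_left _ _
    have hb : 1 - z.re ≤ max z.re (1 - z.re) := le_max_right _ _
    have h5 : z.im ^ 2 ≤ 1 - (max z.re (1 - z.re)) ^ 2 := by
      have h6 : 0 ≤ 1 - (max z.re (1 - z.re)) ^ 2 := by nlinarith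
      have h7 := sq_sqrt h6
      unfold ht at h4
      nlinarith [sqrt_nonneg (1 - (max z.re (1 - z.re)) ^ 2)]
    refine ⟨by nlinarith, by nlinarith, h3⟩

theorem convex_R2 : Convex ℝ R2 := by
  have h : R2 = Metric.closedBall 0 1 ∩ (Metric.closedBall 1 1 ∩ {z : ℂ | 0 ≤ z.im}) := by
    ext z; simp [R2, dist_eq_norm]
  rw [h]
  exact (convex_closedBall _ _).inter ((convex_closedBall _ _).inter (convex_halfSpace_im_ge 0))

theorem bounded_R2 : Bornology.IsBounded R2 :=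
  (Metric.isBounded_closedBall (x := (0 : ℂ)) (r := 1)).subset fun z hz => by
    simpa using hz.1

theorem dist_R2 {z w : ℂ} (hz : z ∈ R2) (hw : w ∈ R2) : dist z w ≤ 1 := by
  rw [dist_eq_norm, norm_le_one_iff]
  rw [mem_R2] at hz hw
  obtain ⟨a1, a2, a3⟩ := hz
  obtain ⟨b1, b2, b3⟩ := hw
  have z0 : 0 ≤ z.re := by nlinarith [sq_nonneg z.im]
  have z1 : z.re ≤ 1 := by nlinarith [sq_nonneg z.im]
  have w0 : 0 ≤ w.re := by nlinarith [sq_nonneg w.im]
  have w1 : w.re ≤ 1 := by nlinarith [sq_nonneg w.im]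
  simp only [Complex.sub_re, Complex.sub_im]
  rcases le_total z.im w.im with h | h
  · have e : (z.im - w.im) ^ 2 ≤ w.im ^ 2 := by nlinarith
    rcases le_total z.re w.re with k | k
    · nlinarith
    · nlinarith
  · have e : (z.im - w.im) ^ 2 ≤ z.im ^ 2 := by nlinarith
    rcases le_total z.re w.re with k | k
    · nlinarith
    · nlinarith

theorem diam_R2 : Metric.diam R2 = 1 := by
  apply le_antisymm
  · exact Metric.diam_le_of_forall_dist_le zero_le_one fun _ hz _ hw => dist_R2 hz hw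
  · have h0 : (0 : ℂ) ∈ R2 := by simp [R2]
    have h1 : (1 : ℂ) ∈ R2 := by simp [R2]
    simpa using Metric.dist_le_diam_of_mem bounded_R2 h0 h1

theorem interior_R2 : (interior R2).Nonempty := by
  refine ⟨⟨1 / 2, 1 / 2⟩, ?_⟩
  have ho : IsOpen {z : ℂ | z.re ^ 2 + z.im ^ 2 < 1 ∧ (1 - z.re) ^ 2 + z.im ^ 2 < 1 ∧ 0 < z.im} := by
    have o1 : IsOpen {z : ℂ | z.re ^ 2 + z.im ^ 2 < 1} := isOpen_lt (by fun_prop) (by fun_prop)
    have o2 : IsOpen {z : ℂ | (1 - z.re) ^ 2 + z.im ^ 2 < 1} :=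
      isOpen_lt (by fun_prop) (by fun_prop)
    have o3 : IsOpen {z : ℂ | 0 < z.im} := isOpen_lt (by fun_prop) (by fun_prop)
    exact o1.inter (o2.inter o3)
  refine interior_maximal (fun z hz => (mem_R2 z).2 ⟨hz.1.le, hz.2.1.le, hz.2.2.le⟩) ho ?_
  refine ⟨by norm_num, by norm_num, by norm_num⟩

theorem isCase_R2 : IsCase R2 := by
  obtain ⟨h, -, -, hf⟩ :=
    exists_homeomorph_image_interior_closure_frontier_eq_unitBall convex_R2 interior_R2 bounded_R2
  refine ⟨fun u => h.symm (u : ℂ), by fun_prop,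
    fun u v huv => Subtype.ext (h.symm.injective huv), ?_⟩
  ext z
  constructor
  · rintro ⟨u, rfl⟩
    have hu : (u : ℂ) ∈ h '' frontier R2 := by rw [hf]; simp
    obtain ⟨w, hw, e⟩ := hu
    simpa [← e] using hw
  · intro hz
    have : h z ∈ Metric.sphere (0 : ℂ) 1 := hf ▸ mem_image_of_mem _ hz
    exact ⟨⟨h z, this⟩, by simp⟩

/-- the upper boundary of R2 -/
noncomputable def top (p : ℝ) : ℂ := ⟨p, ht p⟩

theorem continuous_top : Continuous top := by
  have : top = fun p : ℝ => (p : ℂ) + (ht p : ℂ) * Complex.I := by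
    funext p; apply Complex.ext <;> simp [top]
  rw [this]
  have := continuous_ht
  fun_prop

theorem top_mem {p : ℝ} (hp : p ∈ Icc (0 : ℝ) 1) : top p ∈ R2 :=
  (mem_R2' _).2 ⟨hp, sqrt_nonneg _, le_rfl⟩

theorem top_far {p : ℝ} (hp : p ∈ Icc (0 : ℝ) 1) :
    ∃ e ∈ Icc (0 : ℝ) 1, dist (top p) (top e) = 1 := by
  obtain ⟨h0, h1⟩ := hp
  rcases le_total p (1 - p) with h | h
  · refine ⟨1, ⟨zero_le_one, le_rfl⟩, ?_⟩
    have e : ‖top p - top 1‖ ^ 2 = 1 := by
      rw [normSq_eq]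
      have : 0 ≤ 1 - (1 - p) ^ 2 := by nlinarith
      simp [top, ht, max_eq_right h, sq_sqrt this]
      ring
    rw [dist_eq_norm]; nlinarith [norm_nonneg (top p - top 1)]
  · refine ⟨0, ⟨le_rfl, zero_le_one⟩, ?_⟩
    have e : ‖top p - top 0‖ ^ 2 = 1 := by
      rw [normSq_eq]
      have : 0 ≤ 1 - p ^ 2 := by nlinarith
      simp [top, ht, max_eq_left h, sq_sqrt this]
    rw [dist_eq_norm]; nlinarith [norm_nonneg (top p - top 0)]

theorem top_step {p a : ℝ} (hp : p ∈ Icc (0 : ℝ) 1) (h0 : 0 ≤ a) (h1 : a ≤ 1) :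
    ∃ q ∈ Icc (0 : ℝ) 1, dist (top p) (top q) = a := by
  obtain ⟨e, he, hd⟩ := top_far hp
  have hc : ContinuousOn (fun t => dist (top p) (top t)) (Icc (0 : ℝ) 1) :=
    (continuous_const.dist continuous_top).continuousOn
  have := isPreconnected_Icc.intermediate_value hp he hc
  simp only [dist_self, hd] at this
  exact this ⟨h0, h1⟩

theorem universal_R2 : Universal R2 := by
  have key : ∀ (n : ℕ) (ℓ : Fin n → ℝ), (∀ i, 0 ≤ ℓ i) → (∀ i, ℓ i ≤ 1) →
      ∃ t : Fin (n + 1) → ℝ, (∀ i, t i ∈ Icc (0 : ℝ) 1) ∧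
        ∀ i : Fin n, dist (top (t i.castSucc)) (top (t i.succ)) = ℓ i := by
    intro n
    induction n with
    | zero => exact fun ℓ _ _ => ⟨fun _ => 0, fun _ => ⟨le_rfl, zero_le_one⟩, fun i => i.elim0⟩
    | succ n ih =>
      intro ℓ h0 h1
      obtain ⟨t, ht, hd⟩ := ih (fun i => ℓ i.succ) (fun i => h0 _) (fun i => h1 _)
      obtain ⟨q, hq, hqd⟩ := top_step (ht 0) (h0 0) (h1 0)
      refine ⟨Fin.cons q t, fun i => Fin.cases hq (fun j => ht j) i, fun i => ?_⟩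
      refine Fin.cases ?_ (fun j => ?_) i
      · simpa [dist_comm] using hqd
      · simpa [← Fin.succ_castSucc] using hd j
  intro n ℓ ⟨h0, h1, _⟩
  obtain ⟨t, ht, hd⟩ := key n ℓ (fun i => (h0 i).le) h1
  exact ⟨fun i => top (t i), fun i =>
    ⟨hd i, convex_R2.segment_subset (top_mem (ht _)) (top_mem (ht _))⟩⟩

theorem integral_half : ∫ x in (1 / 2 : ℝ)..1, √(1 - x ^ 2) = π / 6 - √3 / 8 := by
  have hd : ∀ x ∈ Ioo (1 / 2 : ℝ) 1,
      HasDerivAt (fun x : ℝ => (x * √(1 - x ^ 2) + arcsin x) / 2) (√(1 - x ^ 2)) x := by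
    intro x ⟨h0, h1⟩
    have hp : 0 < 1 - x ^ 2 := by nlinarith
    have hs : 0 < √(1 - x ^ 2) := sqrt_pos.2 hp
    have h2 : HasDerivAt (fun x : ℝ => 1 - x ^ 2) (-(2 * x)) x := by
      simpa using (hasDerivAt_pow 2 x).const_sub 1
    have h3 := ((hasDerivAt_id x).mul (h2.sqrt hp.ne')).add
      (hasDerivAt_arcsin (x := x) (by linarith) h1.ne)
    have e := mul_self_sqrt hp.le
    have h4 : √(1 - x ^ 2) =
        (1 * √(1 - x ^ 2) + x * (-(2 * x) / (2 * √(1 - x ^ 2))) + 1 / √(1 - x ^ 2)) / 2 := by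
      field_simp
      nlinarith
    rw [h4]
    exact h3.div_const 2
  rw [intervalIntegral.integral_eq_sub_of_hasDerivAt_of_le (by norm_num) (by fun_prop) hd
    (Continuous.intervalIntegrable (by fun_prop) _ _)]
  have a1 : arcsin (1 / 2) = π / 6 := by
    rw [← sin_pi_div_six]
    exact arcsin_sin (by linarith [pi_pos]) (by linarith [pi_pos])
  have a2 : √(1 - (1 / 2 : ℝ) ^ 2) = √3 / 2 := by
    rw [show (1 - (1 / 2 : ℝ) ^ 2) = 3 / 2 ^ 2 by norm_num, sqrt_div (by norm_num),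
      sqrt_sq (by norm_num)]
  rw [a1, a2]
  simp
  ring

theorem integral_ht : ∫ x in (0 : ℝ)..1, ht x = π / 3 - √3 / 4 := by
  have hi : ∀ a b : ℝ, IntervalIntegrable ht volume a b := continuous_ht.intervalIntegrable
  rw [← intervalIntegral.integral_add_adjacent_intervals (hi 0 (1 / 2)) (hi (1 / 2) 1)]
  have e2 : ∫ x in (1 / 2 : ℝ)..1, ht x = π / 6 - √3 / 8 := by
    rw [← integral_half]
    apply intervalIntegral.integral_congr
    intro x hx
    rw [uIcc_of_le (by norm_num)] at hx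
    simp only [ht]
    rw [max_eq_left (by linarith [hx.1])]
  have e1 : ∫ x in (0 : ℝ)..(1 / 2), ht x = ∫ x in (1 / 2 : ℝ)..1, ht x := by
    have := intervalIntegral.integral_comp_sub_left (a := 0) (b := 1 / 2) ht 1
    rw [show (1 : ℝ) - 1 / 2 = 1 / 2 by norm_num, sub_zero] at this
    rw [← this]
    apply intervalIntegral.integral_congr
    intro x _
    simp only [ht, sub_sub_cancel, max_comm]
  rw [e1, e2]; ring

theorem volume_R2 : volume R2 = ENNReal.ofReal (π / 3 - √3 / 4) := by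
  have hm : MeasurableSet
      {p : ℝ × ℝ | p.1 ∈ Icc (0 : ℝ) 1 ∧ p.2 ∈ Icc ((fun _ => (0 : ℝ)) p.1) (ht p.1)} :=
    measurableSet_region_between_cc measurable_const continuous_ht.measurable measurableSet_Icc
  have h : R2 = Complex.measurableEquivRealProd ⁻¹'
      {p : ℝ × ℝ | p.1 ∈ Icc (0 : ℝ) 1 ∧ p.2 ∈ Icc ((fun _ => (0 : ℝ)) p.1) (ht p.1)} := by
    ext z; rw [mem_R2']; simp
  rw [h, Complex.volume_preserving_equiv_real_prod.measure_preimage hm.nullMeasurableSet,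
    Measure.volume_eq_prod, Measure.prod_apply hm]
  have e : (fun x : ℝ => volume (Prod.mk x ⁻¹'
      {p : ℝ × ℝ | p.1 ∈ Icc (0 : ℝ) 1 ∧ p.2 ∈ Icc ((fun _ => (0 : ℝ)) p.1) (ht p.1)})) =
      (Icc (0 : ℝ) 1).indicator fun x => ENNReal.ofReal (ht x) := by
    funext x
    by_cases hx : x ∈ Icc (0 : ℝ) 1
    · have : Prod.mk x ⁻¹'
        {p : ℝ × ℝ | p.1 ∈ Icc (0 : ℝ) 1 ∧ p.2 ∈ Icc ((fun _ => (0 : ℝ)) p.1) (ht p.1)} =
          Icc 0 (ht x) := by
        ext y; simp [hx.1, hx.2]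
      rw [this, indicator_of_mem hx, Real.volume_Icc, sub_zero]
    · have : Prod.mk x ⁻¹'
        {p : ℝ × ℝ | p.1 ∈ Icc (0 : ℝ) 1 ∧ p.2 ∈ Icc ((fun _ => (0 : ℝ)) p.1) (ht p.1)} = ∅ := by
        ext y
        simp only [mem_preimage, mem_ofPred_eq, mem_empty_iff_false, iff_false]
        exact fun h => hx h.1
      rw [this, indicator_of_notMem hx, measure_empty]
  rw [e, lintegral_indicator measurableSet_Icc, ← integral_ht,
    intervalIntegral.integral_of_le zero_le_one, ← integral_Icc_eq_integral_Ioc,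
    ofReal_integral_eq_lintegral_ofReal (continuous_ht.integrableOn_Icc)
      (Filter.Eventually.of_forall fun x => sqrt_nonneg _)]

theorem upper : ∃ S : Set ℂ, IsCase S ∧ Convex ℝ S ∧ Metric.diam S = 1 ∧ Universal S ∧
    volume S = ENNReal.ofReal (π / 3 - √3 / 4) :=
  ⟨R2, isCase_R2, convex_R2, diam_R2, universal_R2, volume_R2⟩

end Pool.Agent.P.MP_4c4e6e_co
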