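import Pool.Agent.P.MP_4c4e6e_co.Fin2
import Pool.Agent.P.MP_4c4e6e_co.Reduce
import Pool.Agent.P.MP_4c4e6e_co.Upper

/-! The lower bound. -/

namespace Pool.Agent.P.MP_4c4e6e_co

open Real Finset MeasureTheory

theorem lower (S : Set ℂ) (hc : Convex ℝ S) (hd : Metric.diam S = 1) (hu : Universal S) :
    ENNReal.ofReal (π / 3 - √3 / 4) ≤ volume S := by
  obtain ⟨D, hD⟩ := exists_dia S hc hd hu
  have key : ∀ ε : ℝ, 0 < ε → ENNReal.ofReal (π / 3 - √3 / 4 - ε) ≤ volume S := by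
    intro ε hε
    rcases choose_gap D (fun x => ENNReal.ofReal x ≤ volume S) hD with
      ⟨D', N, θ, h1, h2, h3⟩ | ⟨C, h1, h2, h3, h4, h5⟩ | ⟨C, h1, h2, h3, h4⟩
    · exact (ENNReal.ofReal_le_ofReal (by linarith [lower_zero D' N θ h1 h2])).trans h3
    · obtain ⟨N, θ, g1, g2⟩ := lower_one C h2 h3 h4 h5 hε
      exact (ENNReal.ofReal_le_ofReal g2).trans (h1 N θ g1)
    · obtain ⟨N, θ, g1, g2⟩ := lower_two C h2 h3 h4 hε
      exact (ENNReal.ofReal_le_ofReal g2).trans (h1 N θ g1)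
  apply ENNReal.le_of_forall_pos_le_add
  intro ε hε _
  have h := key ε (by exact_mod_cast hε)
  calc ENNReal.ofReal (π / 3 - √3 / 4) = ENNReal.ofReal ((π / 3 - √3 / 4 - ε) + ε) := by
        congr 1; ring
    _ ≤ ENNReal.ofReal (π / 3 - √3 / 4 - ε) + ENNReal.ofReal ε := ENNReal.ofReal_add_le
    _ ≤ volume S + ε := by
        rw [ENNReal.ofReal_coe_nnreal]; gcongr

end Pool.Agent.P.MP_4c4e6e_co
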