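import Pool.Agent.P.MP_4c4e6e_co.Tay

/-! The numerical inequalities for caps and for the excluded range. -/

namespace Pool.Agent.P.MP_4c4e6e_co

open Real

theorem num_cap (k R s L W z : ℝ) (hk0 : 0 ≤ k) (hk1 : k ≤ 31 / 100) (hs0 : 0 < s) (hs1 : s ≤ 1)
    (hL : L = 1 - k) (hR0 : min s L ≤ R) (hR1 : R ≤ 1) (hW : W = (1 - L ^ 2 + R ^ 2) / 2)
    (hz : z = k * (231 / 200 - 17 / 100 * k))
    (h : k * min (31 / 20) (5 / 4 + 3 / 2 * k) < s ^ 2) :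
    min 1 ((R + z / R) ^ 2) <
      R ^ 2 + s ^ 2 * (1 - W / L) + 2 * s * √(R ^ 2 - W ^ 2) * √(1 - s ^ 2 / (4 * L ^ 2)) := by
  have hLp : 69 / 100 ≤ L := by linarith
  have hL0 : 0 < L := by linarith
  have hmin : s ≤ R ∨ L ≤ R := min_le_iff.1 hR0
  have hR : 0 < R := by rcases hmin with h | h <;> linarith
  have hs2 : 0 < s ^ 2 := by positivity
  obtain ⟨sg, hsg⟩ : ∃ sg, sg = s / R := ⟨_, rfl⟩
  obtain ⟨xi, hxi⟩ : ∃ xi, xi = k / s ^ 2 := ⟨_, rfl⟩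
  have es : s = sg * R := by rw [hsg]; field_simp
  have ek : k = xi * s ^ 2 := by rw [hxi]; field_simp
  have hsg0 : 0 ≤ sg := by rw [hsg]; positivity
  have hsg1 : sg ≤ 29 / 20 := by
    rw [hsg, div_le_iff₀ hR]
    rcases hmin with h | h <;> linarith
  have hxi0 : 0 ≤ xi := by rw [hxi]; positivity
  have hm : 5 / 4 ≤ min (31 / 20 : ℝ) (5 / 4 + 3 / 2 * k) := le_min (by norm_num) (by linarith)
  have hxi1 : xi ≤ 4 / 5 := by
    rw [hxi, div_le_iff₀ hs2]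
    nlinarith [mul_le_mul_of_nonneg_left hm hk0]
  rcases Eng.cap_real R sg xi hR.le hR1 hsg0 hsg1 hxi0 hxi1 s es with H | H
  · linarith
  rcases H k ek with H | H | H
  · linarith
  · exfalso
    obtain ⟨H1, H2⟩ := H
    have h1 : s ^ 2 < k * (31 / 20) := by
      rw [ek]; nlinarith [mul_pos H1 hs2]
    have h2 : s ^ 2 < k * (5 / 4 + 3 / 2 * k) := by
      have := mul_pos H2 hs2
      have e : (xi * (5 / 4 + 3 / 2 * k) - 1) * s ^ 2 =
          (xi * s ^ 2) * (5 / 4 + 3 / 2 * k) - s ^ 2 := by ring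
      rw [e, ← ek] at this
      linarith
    rcases min_cases (31 / 20 : ℝ) (5 / 4 + 3 / 2 * k) with ⟨e, _⟩ | ⟨e, _⟩ <;>
      rw [e] at h <;> linarith
  rcases H L hL with H | H
  · exfalso
    obtain ⟨H1, H2⟩ := H
    rcases hmin with h | h
    · nlinarith [mul_pos H1 hR]
    · linarith
  obtain ⟨u, hu⟩ : ∃ u, u = xi * sg ^ 2 * R * (1 - 1 / 2 * k) + 1 / 2 * R := ⟨_, rfl⟩
  obtain ⟨ze, hze⟩ : ∃ ze, ze = (231 / 200 - 17 / 100 * k) * xi * sg := ⟨_, rfl⟩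
  have ek' : k = xi * sg ^ 2 * R ^ 2 := by rw [ek, es]; ring
  have eW : W = u * R := by
    have : u * R = (xi * sg ^ 2 * R ^ 2) * (1 - 1 / 2 * k) + 1 / 2 * R ^ 2 := by rw [hu]; ring
    rw [this, ← ek', hW, hL]; ring
  have ez : z = ze * (s * R) := by
    have : ze * (s * R) = (231 / 200 - 17 / 100 * k) * (xi * sg ^ 2 * R ^ 2) := by
      rw [hze, es]; ring
    rw [this, ← ek', hz]; ring
  have e1 : √(R ^ 2 - W ^ 2) = R * √(1 - u ^ 2) := by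
    have : R ^ 2 - W ^ 2 = R ^ 2 * (1 - u ^ 2) := by rw [eW]; ring
    rw [this, Real.sqrt_mul (sq_nonneg R), Real.sqrt_sq hR.le]
  have e2 : 1 - s ^ 2 / (4 * L ^ 2) = 1 - 1 / 4 * (s * L⁻¹) ^ 2 := by field_simp
  obtain ⟨G, hG⟩ : ∃ G, G = sg * (1 - u * R * L⁻¹) +
    2 * (√(1 - u ^ 2) * √(1 - 1 / 4 * (s * L⁻¹) ^ 2)) := ⟨_, rfl⟩
  have e3 : R ^ 2 + s ^ 2 * (1 - W / L) + 2 * s * √(R ^ 2 - W ^ 2) * √(1 - s ^ 2 / (4 * L ^ 2)) =
      R ^ 2 + s * R * G := by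
    rw [e1, e2, hG, eW, div_eq_mul_inv]
    have : s ^ 2 = s * (sg * R) := by rw [← es]; ring
    rw [this]; ring
  rw [e3]
  rcases H u hu ze hze G hG with H | H
  · refine lt_of_le_of_lt (min_le_right _ _) ?_
    have e4 : (R + z / R) ^ 2 = R ^ 2 + s * R * (2 * ze + ze ^ 2 * sg) := by
      have : z / R = ze * s := by rw [ez]; field_simp
      rw [this]
      have : s * R * (ze ^ 2 * sg) = ze ^ 2 * s * (sg * R) := by ring
      rw [mul_add, this, ← es]; ring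
    rw [e4]
    nlinarith [mul_pos H (mul_pos hs0 hR)]
  · exact lt_of_le_of_lt (min_le_left _ _) (by linarith)

theorem num_kill (h al be s c T L l dm D : ℝ) (h0 : 747 / 1000 ≤ h) (h1 : h ≤ π / 2)
    (hal : 0 ≤ al) (hbe : 0 ≤ be) (hs : s = sin h) (hc : c = cos h) (hT : T = π - 2 * h)
    (hA : 2 * s * be + 2 * c * al ≤ c ^ 2 - s ^ 2) (hL : L = √(al ^ 2 + (s + be) ^ 2))
    (hl : l = √(al ^ 2 + (s - be) ^ 2)) (hdm : dm = √(be ^ 2 + (c - al) ^ 2))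
    (hD : D = √(be ^ 2 + (c + al) ^ 2)) :
    (∃ a, 0 < a ∧ a < l ∧ T < 3 * a ∧ T < dm + 3 / 2 * a ∧ T - a < π / 2 ∧ cos (T - a) < 2 / 3 ∧
      L + (T - 2 * a) * sin (T - a) + (T - 2 * a) ^ 2 * (1 / 2 - 3 / 4 * cos (T - a)) < 1) ∨
    (∃ b sn rL rl, D < b ∧ b < 1 ∧ T - l < π / 2 ∧ (T - dm - l) * cos (T - l) < sin (T - l) ∧
      b + (T - dm - l) * sin (T - l) - (T - dm - l) ^ 2 * cos (T - l) / 2 < 1 ∧
      sn = 2 * b * √(1 - b ^ 2) * s - (2 * b ^ 2 - 1) * c ∧ rL = (s + be) * sn - al ∧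
      rl = (s - be) * sn - al ∧ 0 < rl ∧ be < s ∧
      2 * b - L + (√(rL ^ 2 + b ^ 2 - L ^ 2) - rL) < 1 ∧
      2 * b - l + 2 * (√(rl ^ 2 + b ^ 2 - l ^ 2) - rl) ^ 2 < 1) := by
  have hp := pi_hi
  have hs0 : 0 ≤ s := hs ▸ sin_nonneg_of_nonneg_of_le_pi (by linarith) (by linarith [pi_pos])
  have hc0 : 0 ≤ c := hc ▸ cos_nonneg_of_neg_pi_div_two_le_of_le (by linarith [pi_pos]) h1
  have p1 := mul_nonneg hs0 hbe
  have p2 := mul_nonneg hc0 hal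
  rcases Eng.kill0_real h h0 (by linarith) s hs c hc _ rfl with H | ⟨H1, H2, H3, H4, H5⟩
  · linarith
  have hb1 : be ≤ 3 / 50 := by
    by_contra hh
    push Not at hh
    nlinarith [mul_pos H4 (sub_pos.2 hh)]
  have ha1 : al ≤ 3 / 50 := by
    by_contra hh
    push Not at hh
    nlinarith [mul_pos H5 (sub_pos.2 hh)]
  rcases Eng.kill_real h al be h0 (by linarith) hal ha1 hbe hb1 π pi_lo pi_hi s hs c hc T hT
    with H | H
  · linarith
  rcases H L hL l hl dm hdm with H | H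
  · left
    obtain ⟨a1, a2, a3, a4, a5, a6⟩ := H _ rfl _ rfl _ rfl _ rfl
    exact ⟨l - 1 / 1000, a1, by linarith, by linarith, by linarith, by linarith, by linarith,
      by linarith⟩
  · right
    obtain ⟨a1, a2, a3, a4, a5, a6, a7, a8⟩ :=
      H D hD _ rfl _ rfl _ rfl _ rfl _ rfl _ rfl _ rfl _ rfl
    exact ⟨D + 1 / 1000, _, _, _, by linarith, by linarith, by linarith, by linarith, by linarith,
      rfl, rfl, rfl, a5, by linarith, by linarith, by linarith⟩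

end Pool.Agent.P.MP_4c4e6e_co
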