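import Pool.Agent.P.MP_4c4e6e_co.NumOne

/-! The numerical inequalities for single cells. -/

namespace Pool.Agent.P.MP_4c4e6e_co

open Real

theorem mh_nonneg {d : ℝ} (h0 : 0 ≤ d) : 0 ≤ mh d := by
  have hp := pi_lo
  have hp' := pi_hi
  have hr := r3_lo
  obtain ⟨h, rfl⟩ : ∃ h, d = 2 * h := ⟨d / 2, by ring⟩
  rcases le_total h (π / 6) with hh | hh
  · rw [mh_lo hh]
    have h1 : 0 ≤ h := by linarith
    have a := cos_le4 h1
    have b := sin_ge_sub_cube h1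
    have c : h ^ 2 ≤ 1 := by nlinarith
    have e : 11 / 24 * h ^ 2 ≤ 1 - cos h := by nlinarith [sq_nonneg h]
    have f : 1 / 3 * (17 / 10) * (11 / 24 * h ^ 2) ≤ 1 / 3 * √3 * (1 - cos h) :=
      mul_le_mul (by linarith) e (by positivity) (by positivity)
    nlinarith [mul_le_mul_of_nonneg_left (show h ≤ 1 by linarith) (sq_nonneg h)]
  · rw [mh_hi hh]; linarith

theorem cell_triv {d lam t nu : ℝ} (h0 : 0 ≤ d) (h1 : d ≤ π) (hl0 : 0 ≤ lam) (hl1 : lam ≤ 1)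
    (ht : |t| ≤ d / 2) (hn : 0 ≤ nu) : loss d lam t nu ≤ d ^ 3 / 12 := by
  have a : cos (d / 2) ≤ cos t := by
    rw [← cos_abs t]
    exact cos_le_cos_of_nonneg_of_le_pi (abs_nonneg _) (by linarith [pi_pos]) ht
  have b : 0 ≤ sin (d / 2) := sin_nonneg_of_nonneg_of_le_pi (by linarith) (by linarith)
  have c := sin_ge_sub_cube h0
  have e := sin_le h0
  have f : lam ^ 2 ≤ 1 := by nlinarith
  have g : 0 ≤ lam ^ 2 * (sin (d / 2) * (cos t - cos (d / 2))) :=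
    mul_nonneg (sq_nonneg _) (mul_nonneg b (by linarith))
  have i : 0 ≤ (1 - lam ^ 2) * nu := mul_nonneg (by linarith) hn
  have j : (1 + lam ^ 2) * (d - sin d) ≤ 2 * (d ^ 3 / 6) :=
    mul_le_mul (by linarith) (by linarith) (by linarith) (by norm_num)
  rw [loss]
  linarith

/-- the loss of a cell as a convex combination -/
theorem loss_le {h lam t nu c : ℝ} (h0 : 0 ≤ h) (h1 : h ≤ π / 2) (ht : |t| ≤ h)
    (hc : 2 ≤ c * (1 + cos h)) (hc0 : 0 ≤ c) :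
    12 * loss (2 * h) lam t nu ≤ (1 - lam ^ 2) * (3 * (2 * h - sin (2 * h)) - 6 * nu) +
      lam ^ 2 * (12 * (h - sin h)) + 6 * c * sin h * (lam * sin t) ^ 2 := by
  have a : cos h ≤ cos t := by
    rw [← cos_abs t]
    exact cos_le_cos_of_nonneg_of_le_pi (abs_nonneg _) (by linarith [pi_pos]) ht
  have b : 0 ≤ sin h := sin_nonneg_of_nonneg_of_le_pi h0 (by linarith [pi_pos])
  have e : 2 ≤ c * (1 + cos t) := hc.trans (mul_le_mul_of_nonneg_left (by linarith) hc0)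
  have f : 0 ≤ 1 - cos t := by linarith [cos_le_one t]
  have g : 2 * (1 - cos t) ≤ c * sin t ^ 2 := by
    rw [sin_sq]
    nlinarith [mul_le_mul_of_nonneg_right e f]
  have i := mul_le_mul_of_nonneg_left g (mul_nonneg b (sq_nonneg lam))
  rw [loss, sin_two_mul, show 2 * h / 2 = h by ring]
  nlinarith [i]

theorem cell_gen {h lam t nu c : ℝ} (h0 : 0 ≤ h) (h1 : h ≤ π / 2) (hl0 : 0 ≤ lam) (hl1 : lam ≤ 1)
    (ht : |t| ≤ h) (hc : 2 ≤ c * (1 + cos h)) (hc0 : 0 ≤ c)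
    (hP : 3 * (2 * h - sin (2 * h)) - 6 * nu ≤ 2 * c * sin h ^ 3)
    (hF : 6 * (h - sin h) ≤ c * sin h ^ 3) :
    12 * loss (2 * h) lam t nu ≤ c * (2 * sin h ^ 3 + 6 * sin h * (lam * sin t) ^ 2) := by
  have a := loss_le (lam := lam) (nu := nu) h0 h1 ht hc hc0
  have f : 0 ≤ 1 - lam ^ 2 := by nlinarith
  have b := mul_le_mul_of_nonneg_left hP f
  have e := mul_le_mul_of_nonneg_left hF (sq_nonneg lam)
  linarith

theorem cell1_facts {h : ℝ} (h0 : 0 ≤ h) (h1 : h ≤ 113 / 200) :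
    6 * (h - sin h) ≤ (101 / 100 + 11 / 20 * sin h ^ 2) * sin h ^ 3 ∧
    2 ≤ (101 / 100 + 11 / 20 * sin h ^ 2) * (1 + cos h) ∧
    3 * (2 * h - sin (2 * h)) - 6 * mh (2 * h) ≤
      2 * (101 / 100 + 11 / 20 * sin h ^ 2) * sin h ^ 3 := by
  obtain ⟨ta, a1, a2, a3⟩ := sin_theta h0
  obtain ⟨tc, c1, c2, c3⟩ := cos_theta h0
  obtain ⟨tb, b1, b2, b3⟩ := sin_theta (x := 2 * h) (by linarith)
  obtain ⟨Sa, hSa⟩ : ∃ Sa, Sa = 1 / 6 - h ^ 2 * (1 / 120 - h ^ 2 * ta) := ⟨_, rfl⟩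
  obtain ⟨Ca, hCa⟩ : ∃ Ca, Ca = 1 / 2 - h ^ 2 * (1 / 24 - h ^ 2 * tc) := ⟨_, rfl⟩
  obtain ⟨Sb, hSb⟩ : ∃ Sb, Sb = 1 / 6 - (2 * h) ^ 2 * (1 / 120 - (2 * h) ^ 2 * tb) := ⟨_, rfl⟩
  obtain ⟨sc, hsc⟩ : ∃ sc, sc = 1 - h ^ 2 * Sa := ⟨_, rfl⟩
  rw [← hSa, ← hsc] at a3
  rw [← hCa] at c3
  rw [← hSb] at b3
  obtain ⟨cf, hcf⟩ : ∃ cf, cf = 101 / 100 + 11 / 20 * (h * sc) ^ 2 := ⟨_, rfl⟩
  obtain ⟨H1, H2, H3, H4⟩ := Eng.cell1_real h h0 h1 π pi_lo pi_hi _ r3_lo r3_hi ta a1 a2 _ rfl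
    Sa hSa tc c1 c2 _ rfl Ca hCa tb b1 b2 _ rfl Sb hSb sc hsc cf hcf
  have e1 : h - h * sc = h ^ 3 * Sa := by rw [hsc]; ring
  have h2 : 0 ≤ h ^ 2 := sq_nonneg h
  have h3 : 0 ≤ h ^ 3 := by positivity
  refine ⟨?_, ?_, ?_⟩
  · rw [a3, ← hcf, e1]
    linarith [mul_nonneg h3 H1.le]
  · rw [a3, ← hcf, c3]
    linarith
  · rcases le_total h (π / 6) with hh | hh
    · rw [mh_lo hh, b3, c3, a3, ← hcf]
      have := mul_nonneg h2 H3.le
      linarith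
    · rw [mh_hi hh, b3, a3, ← hcf]
      linarith

theorem cell_one {d lam t : ℝ} (h0 : 0 ≤ d) (h1 : d ≤ 113 / 100) (hl0 : 0 ≤ lam) (hl1 : lam ≤ 1)
    (ht : |t| ≤ d / 2) :
    12 * loss d lam t (mh d) ≤ (101 / 100 + 11 / 20 * sin (d / 2) ^ 2) *
      (2 * sin (d / 2) ^ 3 + 6 * sin (d / 2) * (lam * sin t) ^ 2) := by
  have hp := pi_lo
  obtain ⟨h, rfl⟩ : ∃ h, d = 2 * h := ⟨d / 2, by ring⟩
  rw [show 2 * h / 2 = h by ring] at ht ⊢
  obtain ⟨a, b, c⟩ := cell1_facts (h := h) (by linarith) (by linarith)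
  exact cell_gen (by linarith) (by linarith) hl0 hl1 ht b (by positivity) c a

theorem cellD_fact {h : ℝ} (h0 : 0 ≤ h) (h1 : h ≤ 63 / 125) :
    3 * (2 * h - sin (2 * h)) - 6 * pD (2 * h) ≤ 2 * (61 / 50) * sin h ^ 3 := by
  obtain ⟨ta, a1, a2, a3⟩ := sin_theta h0
  obtain ⟨tc, c1, c2, c3⟩ := cos_theta h0
  obtain ⟨tb, b1, b2, b3⟩ := sin_theta (x := 2 * h) (by linarith)
  obtain ⟨Sa, hSa⟩ : ∃ Sa, Sa = 1 / 6 - h ^ 2 * (1 / 120 - h ^ 2 * ta) := ⟨_, rfl⟩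
  obtain ⟨Ca, hCa⟩ : ∃ Ca, Ca = 1 / 2 - h ^ 2 * (1 / 24 - h ^ 2 * tc) := ⟨_, rfl⟩
  obtain ⟨Sb, hSb⟩ : ∃ Sb, Sb = 1 / 6 - (2 * h) ^ 2 * (1 / 120 - (2 * h) ^ 2 * tb) := ⟨_, rfl⟩
  obtain ⟨sc, hsc⟩ : ∃ sc, sc = 1 - h ^ 2 * Sa := ⟨_, rfl⟩
  obtain ⟨co, hco⟩ : ∃ co, co = 1 - h ^ 2 * Ca := ⟨_, rfl⟩
  rw [← hSa, ← hsc] at a3
  rw [← hCa, ← hco] at c3
  rw [← hSb] at b3
  obtain ⟨H1, H2⟩ := Eng.cellD_real h h0 h1 ta a1 a2 _ rfl
    Sa hSa tc c1 c2 _ rfl Ca hCa tb b1 b2 _ rfl Sb hSb sc hsc co hco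
  have h3 : 0 ≤ h ^ 3 := by positivity
  have e : pD (2 * h) = h ^ 3 * (Ca - Sa) / co := by
    rw [pD, show 2 * h / 2 = h by ring, a3, c3, eq_div_iff H1.ne', sub_mul,
      div_mul_cancel₀ _ H1.ne', hsc, hco]
    ring
  have f : -(61 / 25 * (sc ^ 2 * sc) - 24 * Sb) * h ^ 3 ≤ 6 * (h ^ 3 * (Ca - Sa) / co) := by
    rw [← mul_div_assoc, le_div_iff₀ H1]
    linarith [mul_nonneg h3 H2.le]
  rw [e, b3, a3]
  linarith

theorem cellS_fact {x y : ℝ} (hx : 0 ≤ x) (hy : 0 ≤ y) (h1 : x + y ≤ 43 / 100) :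
    3 * (x + y - sin (x + y)) -
      3 * (sin x - x + (1 - cos x) * (sin x - 93 / 100 * (1 - cos x)) +
        (sin y - y + (1 - cos y) * (sin y - 93 / 100 * (1 - cos y)))) ≤
      2 * (61 / 50) * sin ((x + y) / 2) ^ 3 := by
  obtain ⟨d, hd⟩ : ∃ d, d = x + y := ⟨_, rfl⟩
  rw [← hd] at h1 ⊢
  have hd0 : 0 ≤ d := by linarith
  rcases hd0.eq_or_lt with q | q
  · have e1 : x = 0 := by linarith
    have e2 : y = 0 := by linarith
    rw [e1, e2, ← q]; simp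
  obtain ⟨th, hth⟩ : ∃ th, th = x / d := ⟨_, rfl⟩
  have ex : x = th * d := by rw [hth]; field_simp
  have th0 : 0 ≤ th := by rw [hth]; positivity
  have th1 : th ≤ 1 := by rw [hth, div_le_one q]; linarith
  obtain ⟨t1, a1, a2, a3⟩ := sin_theta hx
  obtain ⟨t2, b1, b2, b3⟩ := cos_theta hx
  obtain ⟨t3, c1, c2, c3⟩ := sin_theta hy
  obtain ⟨t4, d1, d2, d3⟩ := cos_theta hy
  obtain ⟨t5, e1, e2, e3⟩ := sin_theta hd0
  obtain ⟨t6, f1, f2, f3⟩ := sin_theta (x := 1 / 2 * d) (by linarith)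
  obtain ⟨Sx, hSx⟩ : ∃ S, S = 1 / 6 - x ^ 2 * (1 / 120 - x ^ 2 * t1) := ⟨_, rfl⟩
  obtain ⟨Cx, hCx⟩ : ∃ S, S = 1 / 2 - x ^ 2 * (1 / 24 - x ^ 2 * t2) := ⟨_, rfl⟩
  obtain ⟨Sy, hSy⟩ : ∃ S, S = 1 / 6 - y ^ 2 * (1 / 120 - y ^ 2 * t3) := ⟨_, rfl⟩
  obtain ⟨Cy, hCy⟩ : ∃ S, S = 1 / 2 - y ^ 2 * (1 / 24 - y ^ 2 * t4) := ⟨_, rfl⟩
  obtain ⟨Sd, hSd⟩ : ∃ S, S = 1 / 6 - d ^ 2 * (1 / 120 - d ^ 2 * t5) := ⟨_, rfl⟩
  obtain ⟨Sh, hSh⟩ : ∃ S, S = 1 / 6 - (1 / 2 * d) ^ 2 * (1 / 120 - (1 / 2 * d) ^ 2 * t6) :=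
    ⟨_, rfl⟩
  rw [← hSx] at a3
  rw [← hCx] at b3
  rw [← hSy] at c3
  rw [← hCy] at d3
  rw [← hSd] at e3
  rw [← hSh] at f3
  obtain ⟨px, hpx⟩ : ∃ px, px = th ^ 2 * th *
    (Cx * (1 - x ^ 2 * Sx - 93 / 100 * (x * Cx)) - Sx) := ⟨_, rfl⟩
  obtain ⟨py, hpy⟩ : ∃ py, py = (1 - th) ^ 2 * (1 - th) *
    (Cy * (1 - y ^ 2 * Sy - 93 / 100 * (y * Cy)) - Sy) := ⟨_, rfl⟩
  obtain ⟨sc, hsc⟩ : ∃ sc, sc = 1 - 1 / 4 * d ^ 2 * Sh := ⟨_, rfl⟩
  have H := Eng.cellS_real d th hd0 h1 th0 th1 x ex y (by linarith) t1 a1 a2 _ rfl Sx hSx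
    t2 b1 b2 _ rfl Cx hCx t3 c1 c2 _ rfl Sy hSy t4 d1 d2 _ rfl Cy hCy t5 e1 e2 _ rfl Sd hSd
    t6 f1 f2 _ rfl Sh hSh px hpx _ rfl py hpy sc hsc
  have ey : y = (1 - th) * d := by linarith
  have g1 : sin x - x + (1 - cos x) * (sin x - 93 / 100 * (1 - cos x)) = d ^ 3 * px := by
    have : d ^ 3 * px = (th * d) ^ 3 * (Cx * (1 - x ^ 2 * Sx - 93 / 100 * (x * Cx)) - Sx) := by
      rw [hpx]; ring
    rw [this, ← ex, a3, b3]; ring
  have g2 : sin y - y + (1 - cos y) * (sin y - 93 / 100 * (1 - cos y)) = d ^ 3 * py := by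
    have : d ^ 3 * py =
        ((1 - th) * d) ^ 3 * (Cy * (1 - y ^ 2 * Sy - 93 / 100 * (y * Cy)) - Sy) := by
      rw [hpy]; ring
    rw [this, ← ey, c3, d3]; ring
  have g3 : sin (d / 2) = d / 2 * sc := by
    rw [show d / 2 = 1 / 2 * d by ring, f3, hsc]; ring
  rw [g1, g2, g3, e3]
  have h3 : 0 ≤ d ^ 3 := by positivity
  linarith [mul_nonneg h3 H.le]

theorem cot_anti {a b : ℝ} (h0 : 0 < a) (h1 : a ≤ b) (h2 : b ≤ π / 2) :
    cos b / sin b ≤ cos a * (sin a)⁻¹ := by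
  have sa : 0 < sin a := sin_pos_of_pos_of_lt_pi h0 (by linarith [pi_pos])
  have sb : 0 < sin b := sin_pos_of_pos_of_lt_pi (by linarith) (by linarith [pi_pos])
  have e : 0 ≤ sin (b - a) := sin_nonneg_of_nonneg_of_le_pi (by linarith) (by linarith [pi_pos])
  rw [sin_sub] at e
  rw [← div_eq_mul_inv, div_le_div_iff₀ sb sa]
  linarith

theorem tan_mono {a b : ℝ} (h0 : 0 < a) (h1 : a ≤ b) (h2 : b ≤ π / 2) :
    sin (1 / 2 * a) * (cos (1 / 2 * a))⁻¹ ≤ sin (b / 2) / cos (b / 2) := by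
  have ca : 0 < cos (1 / 2 * a) :=
    cos_pos_of_mem_Ioo ⟨by linarith [pi_pos], by linarith [pi_pos]⟩
  have cb : 0 < cos (b / 2) := cos_pos_of_mem_Ioo ⟨by linarith [pi_pos], by linarith [pi_pos]⟩
  have e : 0 ≤ sin (b / 2 - 1 / 2 * a) :=
    sin_nonneg_of_nonneg_of_le_pi (by linarith) (by linarith [pi_pos])
  rw [sin_sub] at e
  rw [← div_eq_mul_inv, div_le_div_iff₀ ca cb]
  linarith

theorem cell_two_P {w h nu : ℝ} (hw0 : 8237 / 10000 ≤ w) (hw1 : w ≤ 10059 / 10000)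
    (h0 : 0 ≤ h) (h1 : h ≤ 3 / 4) (hn : NB w (2 * h) nu) (hs : 2 * sin h ≤ w) :
    3 * (2 * h - sin (2 * h)) - 6 * nu ≤ 2 * (61 / 50) * sin h ^ 3 := by
  have hp := pi_lo
  have eh : 1 / 2 * (2 * h) = h := by ring
  rcases hn with ⟨a, b⟩ | ⟨x, y, x0, x1, y0, y1, e, b⟩ | ⟨a, b⟩
  · linarith [cellD_fact h0 (by linarith)]
  · obtain ⟨s0, c0, w1, w2, w3⟩ := Eng.wf_real w hw0 hw1 _ rfl _ rfl _ rfl _ rfl
    have cx0 : 0 ≤ 1 - cos x := by linarith [cos_le_one x]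
    have cy0 : 0 ≤ 1 - cos y := by linarith [cos_le_one y]
    rw [pA, pB] at b
    rcases le_total (2 * h) (43 / 100) with q | q
    · have H := cellS_fact x0 y0 (by linarith)
      rw [e, show 2 * h / 2 = h by ring] at H
      have k1 : cos w / sin w ≤ 93 / 100 := by rw [div_le_iff₀ s0]; linarith
      have k2 : 43 / 100 ≤ sin (w / 2) / cos (w / 2) := by
        rw [show w / 2 = 1 / 2 * w by ring, le_div_iff₀ c0]; linarith
      have k3 : sin y ≤ 43 / 100 := (sin_le y0).trans (by linarith)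
      have k4 := mul_le_mul_of_nonneg_left k1 (mul_nonneg cx0 cx0)
      have k5 := mul_le_mul_of_nonneg_left (k3.trans k2) cy0
      have k6 := mul_nonneg cy0 cy0
      linarith
    · rcases Eng.cellAB_real (2 * h) x q (by linarith) x0 (by linarith) with H | H
      · linarith
      rcases H y (by linarith) (sin h) (by rw [eh]) _ rfl with H | H
      · linarith
      rcases H _ rfl _ rfl _ rfl _ rfl _ rfl with H | ⟨H0, H⟩
      · have k1 := cot_anti (a := 8237 / 10000) (by norm_num) hw0 (by linarith)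
        have k2 := tan_mono (a := 8237 / 10000) (by norm_num) hw0 (by linarith)
        have k4 := mul_le_mul_of_nonneg_left k1 (mul_nonneg cx0 cx0)
        have k5 := mul_le_mul_of_nonneg_left k2 cy0
        linarith
      · have k1 := cot_anti (a := 2 * sin h) (by linarith) hs (by linarith)
        have k2 := tan_mono (a := 2 * sin h) (by linarith) hs (by linarith)
        have k4 := mul_le_mul_of_nonneg_left k1 (mul_nonneg cx0 cx0)
        have k5 := mul_le_mul_of_nonneg_left k2 cy0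
        linarith
  · rcases Eng.cellW_real w (2 * h) hw0 hw1 (by linarith) (by linarith) with H | H
    · linarith
    rcases H (sin h) (by rw [eh]) with H | H
    · linarith
    have H := H _ rfl
    rw [pD, show w / 2 = 1 / 2 * w by ring, div_eq_mul_inv] at b
    linarith

theorem cell_two {w d lam t nu : ℝ} (hw0 : π / 2 - 747 / 1000 ≤ w) (hw1 : w ≤ π / 2 - 113 / 200)
    (h0 : 0 ≤ d) (h1 : d ≤ π - 2 * w) (hl0 : 0 ≤ lam) (hl1 : lam ≤ 1) (ht : |t| ≤ d / 2)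
    (hn : NB w d nu) (hs : 2 * sin (d / 2) ≤ w) :
    12 * loss d lam t nu ≤ 61 / 50 *
      (2 * sin (d / 2) ^ 3 + 6 * sin (d / 2) * (lam * sin t) ^ 2) := by
  have hp := pi_lo
  have hp' := pi_hi
  obtain ⟨h, rfl⟩ : ∃ h, d = 2 * h := ⟨d / 2, by ring⟩
  rw [show 2 * h / 2 = h by ring] at ht hs ⊢
  have hh0 : 0 ≤ h := by linarith
  have hh : h ≤ 113 / 200 := by
    by_contra q
    push Not at q
    have a := sin_le_sin_of_le_of_le_pi_div_two (x := 113 / 200) (y := h) (by linarith)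
      (by linarith) q.le
    have b := sin_ge_sub_cube (x := 113 / 200) (by norm_num)
    norm_num at b
    linarith
  have s0 : 0 ≤ sin h := sin_nonneg_of_nonneg_of_le_pi hh0 (by linarith)
  have c0 : 0 ≤ 1 + cos h := by linarith [neg_one_le_cos h]
  obtain ⟨a, b, -⟩ := cell1_facts hh0 hh
  have cf : 101 / 100 + 11 / 20 * sin h ^ 2 ≤ 61 / 50 := by nlinarith
  exact cell_gen hh0 (by linarith) hl0 hl1 ht (b.trans (mul_le_mul_of_nonneg_right cf c0))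
    (by norm_num) (cell_two_P (by linarith) (by linarith) hh0 (by linarith) hn hs)
    (a.trans (mul_le_mul_of_nonneg_right cf (by positivity)))

theorem big_lin {s P P0 F kap mu v2 u2 : ℝ} (hs : 0 < s) (hP : P ≤ P0) (hm1 : mu ≤ 1)
    (hk : 0 ≤ kap) (huv : u2 ≤ v2) (hu0 : 0 ≤ u2) (hv : v2 ≤ mu * s ^ 2)
    (hF : F ≤ 133 / 50 * s ^ 3)
    (H : 0 < s ^ 2 * s * (133 / 50 * s ^ 2 + kap * u2) - P0 * s ^ 2 + u2 * (P0 - F)) :
    (1 - mu) * P + mu * F ≤ 133 / 50 * s ^ 3 + kap * s * v2 := by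
  have s2 : 0 < s ^ 2 := by positivity
  have a : (1 - mu) * P ≤ (1 - mu) * P0 := mul_le_mul_of_nonneg_left hP (by linarith)
  have b : kap * s * u2 ≤ kap * s * v2 := mul_le_mul_of_nonneg_left huv (by positivity)
  have c : 0 ≤ kap * s * u2 := by positivity
  rcases le_total P0 F with q | q
  · have := mul_le_mul_of_nonneg_left q (sub_nonneg.2 hm1)
    linarith
  · have e : u2 * (P0 - F) ≤ mu * s ^ 2 * (P0 - F) :=
      mul_le_mul_of_nonneg_right (huv.trans hv) (by linarith)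
    have f : s ^ 2 * ((1 - mu) * P0 + mu * F) ≤ s ^ 2 * (133 / 50 * s ^ 3 + kap * s * u2) := by
      linarith
    have g := le_of_mul_le_mul_left f s2
    linarith

theorem cell_big {w d lam t nu : ℝ} (hw0 : π / 2 - 747 / 1000 ≤ w) (hw1 : w ≤ π / 2 - 113 / 200)
    (h0 : 0 ≤ d) (h1 : d ≤ π - 2 * w) (hl0 : 0 ≤ lam) (hl1 : lam ≤ 1) (ht : |t| ≤ d / 2)
    (hn : NB w d nu) (hs : w ≤ 2 * sin (d / 2))
    (hv : 3 * sin (d / 2) + cos w - 2 * w ≤ lam * |sin t|) :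
    12 * loss d lam t nu ≤ 133 / 100 *
      (2 * sin (d / 2) ^ 3 + 6 * sin (d / 2) * (lam * sin t) ^ 2) := by
  have hp := pi_lo
  have hp' := pi_hi
  obtain ⟨h, rfl⟩ : ∃ h, d = 2 * h := ⟨d / 2, by ring⟩
  rw [show 2 * h / 2 = h by ring] at ht hs hv ⊢
  have eh : 1 / 2 * (2 * h) = h := by ring
  have hh0 : 0 ≤ h := by linarith
  have w0 : 8237 / 10000 ≤ w := by linarith
  have w1 : w ≤ 10059 / 10000 := by linarith
  have s0 : 0 < sin h := by linarith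
  have sh : sin h ≤ h := sin_le hh0
  have c0 : 0 < 1 + cos h := by
    have := cos_nonneg_of_neg_pi_div_two_le_of_le (x := h) (by linarith) (by linarith)
    linarith
  obtain ⟨f1, f2⟩ := Eng.cellF_real h (by linarith) (by linarith) _ rfl
  obtain ⟨-, -, -, -, w3⟩ := Eng.wf_real w w0 w1 _ rfl _ rfl _ rfl _ rfl
  obtain ⟨v0, hv0⟩ : ∃ v0, v0 = 3 * sin h + cos w - 2 * w := ⟨_, rfl⟩
  rw [← hv0] at hv
  have v00 : 0 ≤ v0 := by linarith
  have st : |sin t| ≤ sin h := by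
    have : |sin t| = sin |t| := by
      rcases le_total 0 t with q | q
      · rw [abs_of_nonneg q] at ht ⊢
        exact abs_of_nonneg (sin_nonneg_of_nonneg_of_le_pi q (by linarith))
      · rw [abs_of_nonpos q] at ht ⊢
        rw [← abs_neg, ← sin_neg]
        exact abs_of_nonneg (sin_nonneg_of_nonneg_of_le_pi (by linarith) (by linarith))
    rw [this]
    exact sin_le_sin_of_le_of_le_pi_div_two (by linarith [abs_nonneg t]) (by linarith) ht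
  have v1 : v0 ≤ sin h := by nlinarith [abs_nonneg (sin t)]
  have ev : (lam * sin t) ^ 2 = (lam * |sin t|) ^ 2 := by rw [mul_pow, mul_pow, sq_abs]
  have v2 : v0 ^ 2 ≤ (lam * sin t) ^ 2 := by rw [ev]; exact pow_le_pow_left₀ v00 hv 2
  have v3 : (lam * sin t) ^ 2 ≤ lam ^ 2 * sin h ^ 2 := by
    rw [ev, mul_pow]
    exact mul_le_mul_of_nonneg_left (pow_le_pow_left₀ (abs_nonneg _) st 2) (sq_nonneg _)
  have ec : 2 * (1 + cos h)⁻¹ * (1 + cos h) = 2 := by field_simp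
  have L1 := loss_le (lam := lam) (nu := nu) (c := 2 * (1 + cos h)⁻¹) hh0 (by linarith) ht
    ec.ge (by positivity)
  have hk : 0 ≤ 399 / 50 - 12 * (1 + cos h)⁻¹ := by
    have : (1 + cos h)⁻¹ ≤ 133 / 200 := by
      rw [inv_le_iff_one_le_mul₀ c0]; linarith
    linarith
  have main : ∃ P0, 3 * (2 * h - sin (2 * h)) - 6 * nu ≤ P0 ∧
      0 < sin h ^ 2 * sin h * (133 / 50 * sin h ^ 2 + (399 / 50 - 12 * (1 + cos h)⁻¹) * v0 ^ 2) -
        P0 * sin h ^ 2 + v0 ^ 2 * (P0 - 6 * (2 * h) + 12 * sin h) := by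
    rcases hn with ⟨a, b⟩ | ⟨x, y, x0, x1, y0, y1, e, b⟩ | ⟨a, b⟩
    · exfalso
      have := sin_lt (x := h) (by linarith)
      linarith
    · rcases Eng.bigAB_real w x y w0 w1 x0 (by linarith) y0 (by linarith) π pi_lo pi_hi
        with H | H | H
      · linarith
      · linarith
      rcases H (2 * h) e.symm with H | H
      · linarith
      rcases H (sin h) (by rw [eh]) with H | H
      · linarith
      rcases H v0 hv0 with H | H
      · linarith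
      have H := H _ rfl _ rfl _ rfl _ rfl _ rfl
      rw [eh] at H
      refine ⟨_, ?_, H⟩
      rw [pA, pB, show w / 2 = 1 / 2 * w by ring, div_eq_mul_inv (cos w),
        div_eq_mul_inv (sin (1 / 2 * w))] at b
      linarith
    · rcases Eng.bigW_real w (2 * h) w0 w1 (by linarith) (by linarith) with H | H
      · linarith
      rcases H (sin h) (by rw [eh]) π pi_lo pi_hi with H | H | H
      · linarith
      · linarith
      rcases H v0 hv0 with H | H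
      · linarith
      have H := H _ rfl _ rfl _ rfl
      rw [eh] at H
      refine ⟨_, ?_, H⟩
      rw [pD, show w / 2 = 1 / 2 * w by ring, div_eq_mul_inv] at b
      linarith
  obtain ⟨P0, m1, m2⟩ := main
  have L2 := big_lin (F := 12 * (h - sin h)) (mu := lam ^ 2) s0 m1 (by nlinarith) hk v2
    (sq_nonneg _) v3 (by linarith) (by linarith)
  linarith

end Pool.Agent.P.MP_4c4e6e_co
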