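import Pool.Agent.P.MP_4c4e6e_co.Tay

/-! The numerical inequalities of the second case. -/

namespace Pool.Agent.P.MP_4c4e6e_co

open Real

/-- cubic upper bound for the area of the symmetric hexagon -/
noncomputable def Abar (h lam : ℝ) : ℝ :=
  2697 / 10000 + (h - 13 / 20) * ((h - 13 / 20) * (2867 / 5000 - 32087 / 5000 * (h - 13 / 20)) -
    4007 / 5000) + lam * (2223 / 5000 + (h - 13 / 20) * (377 / 625 - 8149 / 5000 * (h - 13 / 20)) +
    lam * (1973 / 10000 + 2757 / 10000 * (h - 13 / 20) - 323 / 10000 * lam))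

theorem AH_le {h lam sp : ℝ} (h0 : 113 / 200 ≤ h) (h1 : h ≤ 747 / 1000)
    (hl0 : 0 ≤ lam) (hl1 : lam ≤ 1) (hs0 : 0 ≤ sp) (hs1 : sp ≤ 1)
    (hA : 2 * (lam * (cos h - cos h ^ 2)) ≤ 2 * cos h ^ 2 - 1) :
    AH (π - 2 * h) lam sp ≤ Abar h lam := by
  rcases Eng.ah_real h lam sp h0 h1 hl0 hl1 hs0 hs1 π pi_lo pi_hi _ rfl with H | H
  · linarith
  obtain ⟨w, hw⟩ : ∃ w, w = 1 / 2 * π - h := ⟨_, rfl⟩
  obtain ⟨t0, ht0⟩ : ∃ t0, t0 = sp * w := ⟨_, rfl⟩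
  obtain ⟨y, hy⟩ : ∃ y, y = 2 * (sp * h) := ⟨_, rfl⟩
  obtain ⟨sa, hsa⟩ : ∃ sa, sa = sin (w - t0 + y) := ⟨_, rfl⟩
  obtain ⟨sb, hsb⟩ : ∃ sb, sb = sin (2 * h - y + t0) := ⟨_, rfl⟩
  obtain ⟨q0, hq0⟩ : ∃ q0, q0 = sa * (1 - (1 - lam) * sin h * cos (w - t0)) := ⟨_, rfl⟩
  obtain ⟨q1, hq1⟩ : ∃ q1, q1 = sb * (1 - (1 - lam) * sin h * cos t0) := ⟨_, rfl⟩
  obtain ⟨q2, hq2⟩ : ∃ q2, q2 = cos h * (lam + (1 - lam) * cos h * cos (h - y)) := ⟨_, rfl⟩
  obtain ⟨hP, H⟩ := H w hw t0 ht0 y hy sa hsa sb hsb _ rfl _ rfl q0 hq0 q1 hq1 q2 hq2 _ rfl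
    (Abar h lam) rfl _ rfl
  have cw : cos w = sin h := by
    rw [hw, show 1 / 2 * π - h = π / 2 - h by ring, cos_pi_div_two_sub]
  have sw : sin w = cos h := by
    rw [hw, show 1 / 2 * π - h = π / 2 - h by ring, sin_pi_div_two_sub]
  have a0 : sp * (π - 2 * h) / 2 = t0 := by rw [ht0, hw]; ring
  have a1 : (π - 2 * h) / 2 = w := by rw [hw]; ring
  have a2 : π - 2 * h + sp * (π - (π - 2 * h)) = 2 * w + y := by rw [hw, hy]; ring
  have a3 : π - 2 * h = 2 * w := by rw [hw]; ring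
  have b1 : sin (2 * w + y - (w + t0)) = sa := by rw [hsa]; congr 1; ring
  have b2 : sin (2 * w + y - t0) = sb := by
    rw [hsb, ← sin_pi_sub]; congr 1; rw [hw]; ring
  have b3 : sin (w + t0 - t0) = cos h := by rw [← sw]; congr 1; ring
  have c0 : cos t0 + cos (2 * w - t0) = 2 * (sin h * cos (w - t0)) := by
    have e1 : cos t0 = cos (w - (w - t0)) := by congr 1; ring
    have e2 : cos (2 * w - t0) = cos (w + (w - t0)) := by congr 1; ring
    rw [e1, e2, cos_sub w, cos_add w, cw]; ring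
  have c1 : cos (w + t0) + cos (2 * w - (w + t0)) = 2 * (sin h * cos t0) := by
    have e2 : cos (2 * w - (w + t0)) = cos (w - t0) := by congr 1; ring
    rw [e2, cos_sub w, cos_add w, cw]; ring
  have c2 : cos (2 * w + y - 2 * w) - cos (2 * w + y) = 2 * (cos h * cos (h - y)) := by
    have e1 : cos (2 * w + y - 2 * w) = cos (h - (h - y)) := by congr 1; ring
    have e2 : cos (2 * w + y) = -cos (h + (h - y)) := by
      rw [← cos_pi_sub]; congr 1; rw [hw]; ring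
    rw [e1, e2, cos_sub h, cos_add h]; ring
  have key : AH (π - 2 * h) lam sp = (4 * (q0 * q1) - (q0 + q1 - q2) ^ 2) /
      (4 * (sa * sb * cos h)) := by
    simp only [AH]
    rw [a0, a1, a2, a3, b1, b2, b3, c0, c1, c2, hq0, hq1, hq2]
    congr 1 <;> ring
  rw [key, div_le_iff₀ (by linarith)]
  linarith

theorem cap_pick {L : ℝ} (h0 : 0 < L - 7 / 10) (h1 : L ≤ 1) :
    0 ≤ 31 / 20 * (1 - L) ∧ √(31 / 20 * (1 - L)) ≤ L ∧
      (1 - L) * min (31 / 20) (5 / 4 + 3 / 2 * (1 - L)) ≤ √(31 / 20 * (1 - L)) ^ 2 := by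
  have hS : 0 ≤ 31 / 20 * (1 - L) := by linarith
  refine ⟨hS, Real.sqrt_le_iff.2 ⟨by linarith, by nlinarith⟩, ?_⟩
  rw [Real.sq_sqrt hS]
  nlinarith [mul_le_mul_of_nonneg_left
    (min_le_left (31 / 20 : ℝ) (5 / 4 + 3 / 2 * (1 - L))) (sub_nonneg.2 h1)]

theorem num_two (h lam t sp al be L d T G : ℝ) (h0 : 113 / 200 ≤ h) (h1 : h ≤ 747 / 1000)
    (hl0 : 0 ≤ lam) (hl1 : lam ≤ 1) (ht0 : 0 ≤ t) (ht1 : t ≤ h) (hs0 : 0 ≤ sp) (hs1 : sp ≤ 1)
    (hal : al = lam * (cos t - cos h)) (hbe : be = lam * sin t)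
    (hA : 2 * sin h * be + 2 * cos h * al ≤ cos h ^ 2 - sin h ^ 2)
    (hL : L = √(al ^ 2 + (sin h + be) ^ 2)) (hL1 : L ≤ 1)
    (hd : d = √(be ^ 2 + (cos h - al) ^ 2)) (hT : T = π - 2 * h)
    (hG : G = 12 * (T / 2 + lam * sin T / 2 + lam ^ 2 * (cos (T / 2) * (cos t - sin (T / 2))) -
      AH T lam sp - (π / 3 - √3 / 4))) :
    (2 * L + d ≤ T → 133 / 100 * ((T - d - L) ^ 3 + L ^ 3 / 7 + d ^ 3 / 7) ≤ G) ∧
    (61 / 50 * (((T - d) ^ 3 + d ^ 3) / 7) ≤ G ∨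
      ∃ S, 0 ≤ S ∧ S ≤ L ∧ 69 / 100 ≤ L ∧
        (1 - L) * min (31 / 20) (5 / 4 + 3 / 2 * (1 - L)) ≤ S ^ 2 ∧
        61 / 50 * (S ^ 2 * (T - 12 * S / 7)) ≤ G) := by
  have hp := pi_lo
  have hc : cos h ≤ cos (h - t) :=
    cos_le_cos_of_nonneg_of_le_pi (by linarith) (by linarith) (by linarith)
  have hA' : 2 * (lam * (cos h - cos h ^ 2)) ≤ 2 * cos h ^ 2 - 1 := by
    have e : 2 * sin h * be + 2 * cos h * al = 2 * (lam * (cos (h - t) - cos h ^ 2)) := by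
      rw [hal, hbe, cos_sub]; ring
    have := mul_le_mul_of_nonneg_left hc hl0
    nlinarith [sin_sq_add_cos_sq h]
  have hAH := AH_le h0 h1 hl0 hl1 hs0 hs1 hA'
  obtain ⟨G', hG'⟩ : ∃ G', G' = 12 * (1 / 2 * T + lam * sin h * (cos h + al) - Abar h lam -
    1 / 3 * π + 1 / 4 * √3) := ⟨_, rfl⟩
  have hGG : G' ≤ G := by
    have e1 : sin T = 2 * sin h * cos h := by rw [hT, sin_pi_sub, sin_two_mul]
    have e2 : cos (T / 2) = sin h := by
      rw [hT, show (π - 2 * h) / 2 = π / 2 - h by ring, cos_pi_div_two_sub]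
    have e3 : sin (T / 2) = cos h := by
      rw [hT, show (π - 2 * h) / 2 = π / 2 - h by ring, sin_pi_div_two_sub]
    rw [← hT] at hAH
    rw [hG, hG', e1, e2, e3, hal]
    linarith [hAH]
  constructor
  · intro h2
    rcases Eng.twoA_real h lam t h0 h1 hl0 hl1 ht0 (by linarith) π pi_lo pi_hi _ r3_lo r3_hi
      with H | H
    · linarith
    rcases H _ rfl _ rfl T hT al hal be hbe with H | H
    · linarith
    rcases H L hL d hd with H | H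
    · linarith
    have := H _ rfl (Abar h lam) rfl G' hG' _ rfl
    linarith [this]
  · rcases Eng.twoB_real h lam t h0 h1 hl0 hl1 ht0 (by linarith) π pi_lo pi_hi _ r3_lo r3_hi
      with H | H
    · linarith
    rcases H _ rfl _ rfl T hT al hal be hbe with H | H
    · linarith
    rcases H L hL d hd _ rfl (Abar h lam) rfl G' hG' _ rfl with H | H
    · left
      linarith [H]
    · right
      obtain ⟨H1, H2⟩ := H _ rfl
      obtain ⟨hS, k1, k2⟩ := cap_pick H1 hL1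
      refine ⟨√(31 / 20 * (1 - L)), sqrt_nonneg _, k1, by linarith, k2, ?_⟩
      rw [Real.sq_sqrt hS]
      linarith

end Pool.Agent.P.MP_4c4e6e_co
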