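import Pool.Agent.P.MP_4c4e6e_co.EngRun

/-! The programs to be checked. -/

namespace Pool.Agent.P.MP_4c4e6e_co.Eng

def apTail : Pg :=
  (.rng 314159265358 314159265359 100000000000
  (.rng 173205080756 173205080757 100000000000
  (.lt (.sq (.v 7))
  (.lt (.sub (.c 1 1) (.mul (.v 8) (.v 5)))
  (.lt (.sm 2 1 (.v 4))
  (.rng 16600 16667 100000
  (.lt (.mul (.v 1) (.sub (.c 1 1) (.mul (.mul (.v 3) (.sq (.v 1))) (.v 0))))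
  (.rng 499 500 1000
  (.lt (.mul (.mul (.v 13) (.sq (.v 3))) (.v 0))
  (.rng 499 500 1000
  (.lt (.mul (.mul (.v 15) (.sq (.v 11))) (.v 0))
  (.ite (.neg (.add (.add (.sm 1 2 (.v 13)) (.mul (.add (.c 1 1) (.v 7)) (.sub (.mul (.sm 1 2 (.v 9)) (.v 4)) (.sm 1 2 (.v 2))))) (.sm 2 1 (.mul (.v 7) (.v 0)))))
  .tru
  (.lt (.add (.v 11) (.v 12))
  (.lt (.add (.v 7) (.v 13))
  (.lt (.sub (.sm 1 6 (.v 12)) (.mul (.v 18) (.v 13)))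
  (.rng 499 500 1000
  (.lt (.mul (.mul (.v 20) (.sq (.v 2))) (.v 0))
  (.rng 16600 16667 100000
  (.lt (.mul (.v 4) (.sub (.c 1 1) (.mul (.mul (.v 14) (.sq (.v 4))) (.v 0))))
  (.rng 16600 16667 100000
  (.lt (.mul (.v 20) (.sub (.c 1 1) (.mul (.mul (.v 16) (.sq (.v 20))) (.v 0))))
  (.lt (.sub (.sub (.add (.mul (.sm 1 4 (.v 18)) (.v 4)) (.sm 1 4 (.v 2))) (.sm 1 2 (.v 0))) (.v 20))
  (.rng 499 500 1000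
  (.lt (.mul (.mul (.v 27) (.sq (.v 22))) (.v 0))
  (.rng 16600 16667 100000
  (.lt (.mul (.v 24) (.sub (.c 1 1) (.mul (.mul (.v 21) (.sq (.v 24))) (.v 0))))
  (.rng 499 500 1000
  (.lt (.mul (.mul (.v 31) (.sq (.v 14))) (.v 0))
  (.rng 16600 16667 100000
  (.lt (.mul (.v 16) (.sub (.c 1 1) (.mul (.mul (.v 25) (.sq (.v 16))) (.v 0))))
  (.lt (.add (.add (.sm 1 2 (.add (.v 6) (.v 2))) (.mul (.sm 1 2 (.v 27)) (.add (.v 4) (.v 0)))) (.mul (.v 31) (.sin (.sub (.v 15) (.mul (.v 34) (.v 30))))))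
  (.lt (.mul (.v 35) (.v 0))
  (.ite (.sub (.c 7 25) (.v 0))
  (.ite (.sub (.sub (.mul (.mul (.v 33) (.add (.c 1 1) (.v 27))) (.add (.sub (.sub (.sm 1 6 (.v 30)) (.sm 1 4 (.v 29))) (.sm 1 4 (.sub (.sm 2 1 (.v 17)) (.sin (.sm 2 1 (.v 17)))))) (.c 49 2000))) (.mul (.sq (.v 27)) (.v 10))) (.sm 101 1200 (.mul (.mul (.v 1) (.add (.c 5 4) (.sm 3 2 (.v 0)))) (.sub (.v 30) (.sm 2 1 (.v 17))))))
  .tru
  .fls)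
  .fls)))))))))))))))))))))))))))))))))

def pcap : Pg :=
  (.lt (.mul (.v 1) (.v 2))
  (.ite (.sub (.v 0) (.c 1 1))
  .tru
  (.lt (.mul (.v 1) (.sq (.v 0)))
  (.ite (.sub (.v 0) (.c 31 100))
  .tru
  (.ite (.sub (.sm 31 20 (.v 2)) (.c 1 1))
  (.ite (.sub (.mul (.v 2) (.add (.c 5 4) (.sm 3 2 (.v 0)))) (.c 1 1))
  .tru
  .fls)
  (.lt (.sub (.c 1 1) (.v 0))
  (.ite (.sub (.v 4) (.c 1 1))
  (.ite (.sub (.v 0) (.v 5))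
  .tru
  .fls)
  (.lt (.add (.mul (.mul (.mul (.v 3) (.sq (.v 4))) (.v 5)) (.sub (.c 1 1) (.sm 1 2 (.v 1)))) (.sm 1 2 (.v 5)))
  (.lt (.mul (.mul (.sub (.c 231 200) (.sm 17 100 (.v 2))) (.v 4)) (.v 5))
  (.lt (.add (.mul (.v 6) (.sub (.c 1 1) (.mul (.mul (.v 1) (.v 7)) (.inv (.v 2))))) (.sm 2 1 (.mul (.sqrt (.sub (.c 1 1) (.sq (.v 1)))) (.sqrt (.sub (.c 1 1) (.sm 1 4 (.sq (.mul (.v 4) (.inv (.v 2))))))))))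
  (.ite (.sub (.sub (.v 0) (.sm 2 1 (.v 1))) (.mul (.sq (.v 1)) (.v 7)))
  .tru
  (.ite (.sub (.add (.sq (.v 8)) (.mul (.mul (.v 5) (.v 8)) (.v 0))) (.c 1 1))
  .tru
  .fls))))))))))))

def pkill0 : Pg :=
  (.lt (.sin (.v 2))
  (.lt (.cos (.v 3))
  (.lt (.sub (.sq (.v 0)) (.sq (.v 1)))
  (.ite (.neg (.v 0))
  .tru
  (.ite (.sub (.c 1571 2000) (.v 5))
  (.ite (.sub (.sm 3 25 (.v 2)) (.v 0))
  (.ite (.sub (.sm 3 25 (.v 1)) (.v 0))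
  (.ite (.v 2)
  (.ite (.v 1)
  .tru
  .fls)
  .fls)
  .fls)
  .fls)
  .fls)))))

def pkill : Pg :=
  (.rng 314159265358 314159265359 100000000000
  (.lt (.sin (.v 3))
  (.lt (.cos (.v 4))
  (.lt (.sub (.v 2) (.sm 2 1 (.v 5)))
  (.ite (.sub (.add (.sm 2 1 (.mul (.v 2) (.v 4))) (.sm 2 1 (.mul (.v 1) (.v 5)))) (.sub (.sq (.v 1)) (.sq (.v 2))))
  .tru
  (.lt (.sqrt (.add (.sq (.v 5)) (.sq (.add (.v 2) (.v 4)))))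
  (.lt (.sqrt (.add (.sq (.v 6)) (.sq (.sub (.v 3) (.v 5)))))
  (.lt (.sqrt (.add (.sq (.v 6)) (.sq (.sub (.v 3) (.v 7)))))
  (.or (.lt (.sub (.v 1) (.c 1 1000))
  (.lt (.sub (.v 4) (.sm 2 1 (.v 0)))
  (.lt (.sub (.v 5) (.v 1))
  (.lt (.cos (.v 0))
  (.ite (.v 3)
  (.ite (.sub (.sm 3 1 (.v 3)) (.v 7))
  (.ite (.sub (.add (.v 4) (.sm 3 2 (.v 3))) (.v 7))
  (.ite (.sub (.sm 1 2 (.v 10)) (.v 1))
  (.ite (.sub (.c 2 3) (.v 0))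
  (.ite (.sub (.sub (.sub (.c 1 1) (.v 6)) (.mul (.v 2) (.sin (.v 1)))) (.mul (.sq (.v 2)) (.sub (.c 1 2) (.sm 3 4 (.v 0)))))
  .tru
  .fls)
  .fls)
  .fls)
  .fls)
  .fls)
  .fls)))))
  (.lt (.sqrt (.add (.sq (.v 7)) (.sq (.add (.v 4) (.v 8)))))
  (.lt (.add (.v 0) (.c 1 1000))
  (.lt (.sub (.sub (.v 5) (.v 2)) (.v 3))
  (.lt (.sub (.v 6) (.v 4))
  (.lt (.sub (.mul (.mul (.sm 2 1 (.v 2)) (.sqrt (.sub (.c 1 1) (.sq (.v 2))))) (.v 9)) (.mul (.sub (.sm 2 1 (.sq (.v 2))) (.c 1 1)) (.v 8)))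
  (.lt (.sub (.mul (.add (.v 10) (.v 12)) (.v 0)) (.v 13))
  (.lt (.sub (.mul (.sub (.v 11) (.v 13)) (.v 1)) (.v 14))
  (.lt (.sub (.sqrt (.sub (.add (.sq (.v 1)) (.sq (.v 5))) (.sq (.v 9)))) (.v 1))
  (.lt (.sub (.sqrt (.sub (.add (.sq (.v 1)) (.sq (.v 6))) (.sq (.v 9)))) (.v 1))
  (.ite (.sub (.c 1 1) (.v 7))
  (.ite (.sub (.sm 1 2 (.v 15)) (.v 5))
  (.ite (.sub (.sin (.v 5)) (.mul (.v 6) (.cos (.v 5))))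
  (.ite (.add (.sub (.sub (.c 1 1) (.v 7)) (.mul (.v 6) (.sin (.v 5)))) (.sm 1 2 (.mul (.sq (.v 6)) (.cos (.v 5)))))
  (.ite (.v 2)
  (.ite (.sub (.v 14) (.v 16))
  (.ite (.sub (.add (.sub (.c 1 1) (.sm 2 1 (.v 7))) (.v 11)) (.v 1))
  (.ite (.sub (.add (.sub (.c 1 1) (.sm 2 1 (.v 7))) (.v 10)) (.sm 2 1 (.sq (.v 0))))
  .tru
  .fls)
  .fls)
  .fls)
  .fls)
  .fls)
  .fls)
  .fls)
  .fls)))))))))))))))))))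

def pah : Pg :=
  (.rng 314159265358 314159265359 100000000000
  (.lt (.cos (.v 3))
  (.ite (.sub (.sm 2 1 (.mul (.v 3) (.sub (.v 0) (.sq (.v 0))))) (.sub (.sm 2 1 (.sq (.v 0))) (.c 1 1)))
  .tru
  (.lt (.sub (.sm 1 2 (.v 1)) (.v 4))
  (.lt (.mul (.v 3) (.v 0))
  (.lt (.sm 2 1 (.mul (.v 4) (.v 6)))
  (.lt (.sin (.add (.sub (.v 2) (.v 1)) (.v 0)))
  (.lt (.sin (.add (.sub (.sm 2 1 (.v 8)) (.v 1)) (.v 2)))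
  (.lt (.sub (.c 1 1) (.v 8))
  (.lt (.mul (.v 0) (.sin (.v 10)))
  (.lt (.mul (.v 3) (.sub (.c 1 1) (.mul (.v 0) (.cos (.sub (.v 6) (.v 5))))))
  (.lt (.mul (.v 3) (.sub (.c 1 1) (.mul (.v 1) (.cos (.v 6)))))
  (.lt (.mul (.v 9) (.add (.v 12) (.mul (.mul (.v 3) (.v 9)) (.cos (.sub (.v 13) (.v 6))))))
  (.lt (.sub (.v 14) (.c 13 20))
  (.lt (.add (.add (.c 2697 10000) (.mul (.v 0) (.sub (.mul (.v 0) (.sub (.c 2867 5000) (.sm 32087 5000 (.v 0)))) (.c 4007 5000)))) (.mul (.v 14) (.add (.add (.c 2223 5000) (.mul (.v 0) (.sub (.c 377 625) (.sm 8149 5000 (.v 0))))) (.mul (.v 14) (.sub (.add (.c 1973 10000) (.sm 2757 10000 (.v 0))) (.sm 323 10000 (.v 14)))))))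
  (.lt (.mul (.mul (.v 8) (.v 7)) (.v 12))
  (.ite (.v 0)
  (.ite (.add (.sub (.mul (.v 1) (.v 0)) (.mul (.v 5) (.v 4))) (.sm 1 4 (.sq (.sub (.add (.v 5) (.v 4)) (.v 3)))))
  .tru
  .fls)
  .fls)))))))))))))))))

def ptwoA : Pg :=
  (.rng 314159265358 314159265359 100000000000
  (.rng 173205080756 173205080757 100000000000
  (.ite (.sub (.v 2) (.v 4))
  .tru
  (.lt (.sin (.v 4))
  (.lt (.cos (.v 5))
  (.lt (.sub (.v 3) (.sm 2 1 (.v 6)))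
  (.lt (.mul (.v 6) (.sub (.cos (.v 5)) (.v 1)))
  (.lt (.mul (.v 7) (.sin (.v 6)))
  (.ite (.sub (.add (.sm 2 1 (.mul (.v 4) (.v 0))) (.sm 2 1 (.mul (.v 3) (.v 1)))) (.sub (.sq (.v 3)) (.sq (.v 4))))
  .tru
  (.lt (.sqrt (.add (.sq (.v 1)) (.sq (.add (.v 4) (.v 0)))))
  (.lt (.sqrt (.add (.sq (.v 1)) (.sq (.sub (.v 4) (.v 2)))))
  (.ite (.sub (.add (.sm 2 1 (.v 1)) (.v 0)) (.v 4))
  .tru
  (.lt (.sub (.v 11) (.c 13 20))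
  (.lt (.add (.add (.c 2697 10000) (.mul (.v 0) (.sub (.mul (.v 0) (.sub (.c 2867 5000) (.sm 32087 5000 (.v 0)))) (.c 4007 5000)))) (.mul (.v 11) (.add (.add (.c 2223 5000) (.mul (.v 0) (.sub (.c 377 625) (.sm 8149 5000 (.v 0))))) (.mul (.v 11) (.sub (.add (.c 1973 10000) (.sm 2757 10000 (.v 0))) (.sm 323 10000 (.v 11)))))))
  (.lt (.sm 12 1 (.add (.sub (.sub (.add (.sm 1 2 (.v 6)) (.mul (.mul (.v 12) (.v 8)) (.add (.v 7) (.v 5)))) (.v 0)) (.sm 1 3 (.v 10))) (.sm 1 4 (.v 9))))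
  (.lt (.sub (.sub (.v 7) (.v 3)) (.v 4))
  (.ite (.sub (.v 1) (.sm 133 100 (.add (.mul (.sq (.v 0)) (.v 0)) (.sm 1 7 (.add (.mul (.sq (.v 5)) (.v 5)) (.mul (.sq (.v 4)) (.v 4)))))))
  .tru
  .fls)))))))))))))))))

def ptwoB : Pg :=
  (.rng 314159265358 314159265359 100000000000
  (.rng 173205080756 173205080757 100000000000
  (.ite (.sub (.v 2) (.v 4))
  .tru
  (.lt (.sin (.v 4))
  (.lt (.cos (.v 5))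
  (.lt (.sub (.v 3) (.sm 2 1 (.v 6)))
  (.lt (.mul (.v 6) (.sub (.cos (.v 5)) (.v 1)))
  (.lt (.mul (.v 7) (.sin (.v 6)))
  (.ite (.sub (.add (.sm 2 1 (.mul (.v 4) (.v 0))) (.sm 2 1 (.mul (.v 3) (.v 1)))) (.sub (.sq (.v 3)) (.sq (.v 4))))
  .tru
  (.lt (.sqrt (.add (.sq (.v 1)) (.sq (.add (.v 4) (.v 0)))))
  (.lt (.sqrt (.add (.sq (.v 1)) (.sq (.sub (.v 4) (.v 2)))))
  (.lt (.sub (.v 11) (.c 13 20))
  (.lt (.add (.add (.c 2697 10000) (.mul (.v 0) (.sub (.mul (.v 0) (.sub (.c 2867 5000) (.sm 32087 5000 (.v 0)))) (.c 4007 5000)))) (.mul (.v 11) (.add (.add (.c 2223 5000) (.mul (.v 0) (.sub (.c 377 625) (.sm 8149 5000 (.v 0))))) (.mul (.v 11) (.sub (.add (.c 1973 10000) (.sm 2757 10000 (.v 0))) (.sm 323 10000 (.v 11)))))))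
  (.lt (.sm 12 1 (.add (.sub (.sub (.add (.sm 1 2 (.v 6)) (.mul (.mul (.v 12) (.v 8)) (.add (.v 7) (.v 5)))) (.v 0)) (.sm 1 3 (.v 10))) (.sm 1 4 (.v 9))))
  (.lt (.sub (.v 7) (.v 3))
  (.ite (.sub (.v 1) (.sm 61 350 (.add (.mul (.sq (.v 0)) (.v 0)) (.mul (.sq (.v 4)) (.v 4)))))
  .tru
  (.lt (.sm 31 20 (.sub (.c 1 1) (.v 5)))
  (.ite (.sub (.v 6) (.c 7 10))
  (.ite (.sub (.v 2) (.sm 61 50 (.mul (.v 0) (.sub (.v 9) (.sm 12 7 (.sqrt (.v 0)))))))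
  .tru
  .fls)
  .fls))))))))))))))))))

def poneP : Pg :=
  (.rng 314159265358 314159265359 100000000000
  (.rng 173205080756 173205080757 100000000000
  (.lt (.sub (.sm 1 6 (.v 1)) (.v 4))
  (.ite (.sub (.c 3 100) (.v 0))
  (.ite (.add (.c 3 100) (.v 0))
  (.ite (.sub (.c 3 100) (.v 3))
  (.ite (.sub (.v 4) (.c 97 100))
  .tru
  .fls)
  .fls)
  .fls)
  (.ite (.sub (.v 3) (.v 5))
  .tru
  (.lt (.sin (.v 5))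
  (.lt (.cos (.v 6))
  (.lt (.sub (.v 4) (.sm 2 1 (.v 7)))
  (.lt (.sub (.v 8) (.v 6))
  (.lt (.mul (.v 8) (.sub (.cos (.v 0)) (.v 2)))
  (.lt (.mul (.v 9) (.sin (.v 1)))
  (.ite (.sub (.add (.sm 2 1 (.mul (.v 5) (.v 0))) (.sm 2 1 (.mul (.v 4) (.v 1)))) (.sub (.sq (.v 4)) (.sq (.v 5))))
  .tru
  (.lt (.sub (.add (.mul (.sm 1 3 (.v 7)) (.sub (.c 1 1) (.v 4))) (.v 5)) (.v 11))
  (.lt (.sq (.v 11))
  (.lt (.sm 12 1 (.add (.add (.sub (.sub (.sm 1 6 (.v 10)) (.sm 1 4 (.v 9))) (.sm 1 2 (.mul (.add (.c 1 1) (.v 0)) (.sub (.v 13) (.mul (.v 7) (.v 6)))))) (.mul (.mul (.v 12) (.v 7)) (.v 3))) (.sm 1 2 (.mul (.sub (.c 1 1) (.v 0)) (.v 1)))))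
  (.lt (.add (.sq (.v 4)) (.sq (.add (.v 8) (.v 3))))
  (.lt (.sqrt (.v 0))
  (.ite (.sub (.v 2) (.sm 146 125 (.mul (.v 1) (.sub (.v 8) (.sm 12 7 (.v 0))))))
  .tru
  (.ite (.sub (.v 0) (.c 7 10))
  (.lt (.sm 31 20 (.sub (.c 1 1) (.v 0)))
  (.ite (.sub (.v 3) (.sm 146 125 (.mul (.v 0) (.sub (.v 9) (.sm 12 7 (.sqrt (.v 0)))))))
  .tru
  (.lt (.mul (.sub (.c 1 1) (.v 1)) (.sub (.c 11 4) (.sm 3 2 (.v 1))))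
  (.ite (.sub (.v 2) (.c 18 25))
  (.ite (.sub (.v 4) (.mul (.mul (.add (.c 101 100) (.sm 11 20 (.v 0))) (.v 0)) (.sub (.v 10) (.sm 12 7 (.sqrt (.v 0))))))
  .tru
  .fls)
  .fls))))
  .fls)))))))))))))))))))

def poneM : Pg :=
  (.rng 314159265358 314159265359 100000000000
  (.rng 173205080756 173205080757 100000000000
  (.lt (.sub (.sm 1 6 (.v 1)) (.v 4))
  (.ite (.sub (.c 3 100) (.v 0))
  (.ite (.add (.c 3 100) (.v 0))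
  (.ite (.sub (.c 3 100) (.v 3))
  (.ite (.sub (.v 4) (.c 97 100))
  .tru
  .fls)
  .fls)
  .fls)
  (.ite (.sub (.v 3) (.v 5))
  .tru
  (.lt (.sin (.v 5))
  (.lt (.cos (.v 6))
  (.lt (.sub (.v 4) (.sm 2 1 (.v 7)))
  (.lt (.sub (.v 8) (.v 6))
  (.lt (.mul (.v 8) (.sub (.cos (.v 0)) (.v 2)))
  (.lt (.mul (.v 9) (.sin (.v 1)))
  (.ite (.sub (.add (.sm 2 1 (.mul (.v 5) (.v 0))) (.sm 2 1 (.mul (.v 4) (.v 1)))) (.sub (.sq (.v 4)) (.sq (.v 5))))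
  .tru
  (.lt (.sub (.sm 1 3 (.v 7)) (.sm 1 6 (.v 8)))
  (.lt (.sq (.v 11))
  (.lt (.sm 12 1 (.add (.add (.sub (.sub (.sm 1 6 (.v 10)) (.sm 1 4 (.v 9))) (.sm 1 2 (.mul (.add (.c 1 1) (.v 0)) (.sub (.v 13) (.mul (.v 7) (.v 6)))))) (.mul (.mul (.v 12) (.v 7)) (.v 3))) (.sm 1 2 (.mul (.sub (.c 1 1) (.v 0)) (.v 1)))))
  (.lt (.add (.sq (.v 4)) (.sq (.add (.v 8) (.v 3))))
  (.lt (.sqrt (.v 0))
  (.ite (.sub (.v 2) (.sm 146 125 (.mul (.v 1) (.sub (.v 8) (.sm 12 7 (.v 0))))))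
  .tru
  (.ite (.sub (.v 0) (.c 7 10))
  (.lt (.sm 31 20 (.sub (.c 1 1) (.v 0)))
  (.ite (.sub (.v 3) (.sm 146 125 (.mul (.v 0) (.sub (.v 9) (.sm 12 7 (.sqrt (.v 0)))))))
  .tru
  (.lt (.mul (.sub (.c 1 1) (.v 1)) (.sub (.c 11 4) (.sm 3 2 (.v 1))))
  (.ite (.sub (.v 2) (.c 18 25))
  (.ite (.sub (.v 4) (.mul (.mul (.add (.c 101 100) (.sm 11 20 (.v 0))) (.v 0)) (.sub (.v 10) (.sm 12 7 (.sqrt (.v 0))))))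
  .tru
  .fls)
  .fls))))
  .fls)))))))))))))))))))

def pmlow : Pg :=
  (.rng 173205080756 173205080757 100000000000
  (.ite (.sub (.sub (.add (.mul (.sm 1 3 (.v 0)) (.sub (.c 1 1) (.cos (.v 3)))) (.sin (.v 3))) (.v 3)) (.c 49 1000))
  .tru
  .fls))

def papU : Pg :=
  (.lt (.c 1 1) (.lt (.v 2) (.lt (.sub (.v 2) (.c 1 1)) apTail)))

def papV : Pg :=
  (.lt (.v 1) (.lt (.c 1 1) (.lt (.sub (.v 2) (.c 1 1)) apTail)))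

def papP : Pg :=
  (.lt (.v 1) (.lt (.v 1) (.lt (.c 1 1) apTail)))

def papM : Pg :=
  (.lt (.v 1) (.lt (.v 1) (.lt (.neg (.c 1 1)) apTail)))

def pcell1 : Pg :=
  (.rng 314159265358 314159265359 100000000000
  (.rng 173205080756 173205080757 100000000000
  (.rng 0 1 5040
  (.lt (.sq (.v 5))
  (.lt (.sub (.c 1 6) (.mul (.v 0) (.sub (.c 1 120) (.mul (.v 0) (.v 1)))))
  (.rng 0 1 720
  (.lt (.sq (.v 8))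
  (.lt (.sub (.c 1 2) (.mul (.v 0) (.sub (.c 1 24) (.mul (.v 0) (.v 1)))))
  (.rng 0 1 5040
  (.lt (.sq (.sm 2 1 (.v 11)))
  (.lt (.sub (.c 1 6) (.mul (.v 0) (.sub (.c 1 120) (.mul (.v 0) (.v 1)))))
  (.lt (.sub (.c 1 1) (.mul (.sq (.v 13)) (.v 6)))
  (.lt (.add (.c 101 100) (.sm 11 20 (.sq (.mul (.v 14) (.v 0)))))
  (.ite (.sub (.mul (.v 0) (.mul (.sq (.v 1)) (.v 1))) (.sm 6 1 (.v 8)))
  (.ite (.sub (.mul (.v 0) (.sub (.c 2 1) (.mul (.sq (.v 15)) (.v 5)))) (.c 2 1))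
  (.ite (.add (.sub (.sm 2 1 (.mul (.mul (.v 0) (.v 15)) (.mul (.sq (.v 1)) (.v 1)))) (.sm 24 1 (.mul (.v 15) (.v 2)))) (.sm 6 1 (.sub (.mul (.sm 1 3 (.v 11)) (.v 5)) (.mul (.v 15) (.v 8)))))
  (.ite (.add (.sub (.sm 2 1 (.mul (.v 0) (.mul (.sq (.mul (.v 15) (.v 1))) (.mul (.v 15) (.v 1))))) (.sm 24 1 (.mul (.mul (.sq (.v 15)) (.v 15)) (.v 2)))) (.sm 6 1 (.sub (.sm 1 3 (.v 11)) (.sm 1 6 (.v 12)))))
  .tru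
  .fls)
  .fls)
  .fls)
  .fls))))))))))))))

def pcellD : Pg :=
  (.rng 0 1 5040
  (.lt (.sq (.v 3))
  (.lt (.sub (.c 1 6) (.mul (.v 0) (.sub (.c 1 120) (.mul (.v 0) (.v 1)))))
  (.rng 0 1 720
  (.lt (.sq (.v 6))
  (.lt (.sub (.c 1 2) (.mul (.v 0) (.sub (.c 1 24) (.mul (.v 0) (.v 1)))))
  (.rng 0 1 5040
  (.lt (.sq (.sm 2 1 (.v 9)))
  (.lt (.sub (.c 1 6) (.mul (.v 0) (.sub (.c 1 120) (.mul (.v 0) (.v 1)))))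
  (.lt (.sub (.c 1 1) (.mul (.sq (.v 11)) (.v 6)))
  (.lt (.sub (.c 1 1) (.mul (.sq (.v 12)) (.v 4)))
  (.ite (.v 0)
  (.ite (.add (.mul (.sub (.sm 61 25 (.mul (.sq (.v 1)) (.v 1))) (.sm 24 1 (.v 2))) (.v 0)) (.sm 6 1 (.sub (.v 5) (.v 8))))
  .tru
  .fls)
  .fls))))))))))))

def pcellS : Pg :=
  (.lt (.mul (.v 1) (.v 2))
  (.lt (.sub (.v 3) (.v 0))
  (.rng 0 1 5040
  (.lt (.sq (.v 2))
  (.lt (.sub (.c 1 6) (.mul (.v 0) (.sub (.c 1 120) (.mul (.v 0) (.v 1)))))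
  (.rng 0 1 720
  (.lt (.sq (.v 5))
  (.lt (.sub (.c 1 2) (.mul (.v 0) (.sub (.c 1 24) (.mul (.v 0) (.v 1)))))
  (.rng 0 1 5040
  (.lt (.sq (.v 7))
  (.lt (.sub (.c 1 6) (.mul (.v 0) (.sub (.c 1 120) (.mul (.v 0) (.v 1)))))
  (.rng 0 1 720
  (.lt (.sq (.v 10))
  (.lt (.sub (.c 1 2) (.mul (.v 0) (.sub (.c 1 24) (.mul (.v 0) (.v 1)))))
  (.rng 0 1 5040
  (.lt (.sq (.v 17))
  (.lt (.sub (.c 1 6) (.mul (.v 0) (.sub (.c 1 120) (.mul (.v 0) (.v 1)))))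
  (.rng 0 1 5040
  (.lt (.sq (.sm 1 2 (.v 20)))
  (.lt (.sub (.c 1 6) (.mul (.v 0) (.sub (.c 1 120) (.mul (.v 0) (.v 1)))))
  (.lt (.mul (.mul (.sq (.v 21)) (.v 21)) (.sub (.mul (.v 12) (.sub (.sub (.c 1 1) (.mul (.sq (.v 19)) (.v 15))) (.sm 93 100 (.mul (.v 19) (.v 12))))) (.v 15)))
  (.lt (.sub (.c 1 1) (.v 22))
  (.lt (.mul (.mul (.sq (.v 0)) (.v 0)) (.sub (.mul (.v 8) (.sub (.sub (.c 1 1) (.mul (.sq (.v 20)) (.v 11))) (.sm 93 100 (.mul (.v 20) (.v 8))))) (.v 11)))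
  (.lt (.sub (.c 1 1) (.mul (.sm 1 4 (.sq (.v 25))) (.v 3)))
  (.ite (.add (.sub (.sm 61 200 (.mul (.sq (.v 0)) (.v 0))) (.sm 3 1 (.v 7))) (.sm 3 1 (.add (.v 3) (.v 1))))
  .tru
  .fls)))))))))))))))))))))))))

def pwf : Pg :=
  (.lt (.sin (.v 2))
  (.lt (.cos (.v 3))
  (.lt (.sin (.sm 1 2 (.v 4)))
  (.lt (.cos (.sm 1 2 (.v 5)))
  (.ite (.v 3)
  (.ite (.v 0)
  (.ite (.sub (.sm 93 100 (.v 3)) (.v 2))
  (.ite (.sub (.v 1) (.sm 43 100 (.v 0)))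
  (.ite (.sub (.v 2) (.sm 1 2 (.v 6)))
  .tru
  .fls)
  .fls)
  .fls)
  .fls)
  .fls)))))

def pcellAB : Pg :=
  (.ite (.sub (.v 1) (.v 2))
  .tru
  (.lt (.sub (.v 2) (.v 1))
  (.lt (.sin (.sm 1 2 (.v 3)))
  (.lt (.sm 2 1 (.v 0))
  (.ite (.sub (.v 0) (.c 10059 10000))
  .tru
  (.lt (.sub (.c 1 1) (.cos (.v 4)))
  (.lt (.sin (.v 5))
  (.lt (.sub (.c 1 1) (.cos (.v 4)))
  (.lt (.add (.sub (.sm 61 25 (.mul (.sq (.v 4)) (.v 4))) (.sm 3 1 (.sub (.v 8) (.sin (.v 8))))) (.sm 3 1 (.sub (.add (.add (.sub (.v 1) (.v 7)) (.mul (.v 2) (.v 1))) (.sin (.v 5))) (.v 5))))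
  (.lt (.c 8237 10000)
  (.ite (.add (.v 1) (.sm 3 1 (.sub (.mul (.v 2) (.mul (.sin (.sm 1 2 (.v 0))) (.inv (.cos (.sm 1 2 (.v 0)))))) (.mul (.sq (.v 4)) (.mul (.cos (.v 0)) (.inv (.sin (.v 0))))))))
  .tru
  (.ite (.sub (.v 5) (.c 4 5))
  (.ite (.add (.v 1) (.sm 3 1 (.sub (.mul (.v 2) (.mul (.sin (.sm 1 2 (.v 5))) (.inv (.cos (.sm 1 2 (.v 5)))))) (.mul (.sq (.v 4)) (.mul (.cos (.v 5)) (.inv (.sin (.v 5))))))))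
  .tru
  .fls)
  .fls))))))))))))

def pbigAB : Pg :=
  (.rng 314159265358 314159265359 100000000000
  (.ite (.sub (.v 2) (.v 3))
  .tru
  (.ite (.sub (.v 1) (.v 3))
  .tru
  (.lt (.add (.v 2) (.v 1))
  (.ite (.sub (.add (.v 0) (.sm 2 1 (.v 4))) (.v 1))
  .tru
  (.lt (.sin (.sm 1 2 (.v 0)))
  (.ite (.sub (.v 5) (.sm 2 1 (.v 0)))
  .tru
  (.lt (.sub (.add (.sm 3 1 (.v 0)) (.cos (.v 5))) (.sm 2 1 (.v 5)))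
  (.ite (.sub (.v 0) (.v 1))
  .tru
  (.lt (.sub (.c 1 1) (.cos (.v 5)))
  (.lt (.sin (.v 6))
  (.lt (.sub (.sm 3 1 (.sub (.v 4) (.sin (.v 4)))) (.sm 3 1 (.add (.sub (.add (.add (.sub (.v 0) (.v 7)) (.mul (.v 1) (.sub (.v 0) (.mul (.v 1) (.mul (.cos (.v 8)) (.inv (.sin (.v 8)))))))) (.sin (.v 6))) (.v 6)) (.mul (.sub (.c 1 1) (.cos (.v 6))) (.mul (.sin (.sm 1 2 (.v 8))) (.inv (.cos (.sm 1 2 (.v 8)))))))))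
  (.lt (.sq (.v 3))
  (.lt (.sq (.v 5))
  (.ite (.add (.sub (.mul (.mul (.v 0) (.v 6)) (.add (.sm 133 50 (.v 0)) (.mul (.sub (.c 399 50) (.sm 12 1 (.inv (.add (.c 1 1) (.cos (.sm 1 2 (.v 7))))))) (.v 1)))) (.mul (.v 2) (.v 0))) (.mul (.v 1) (.add (.sub (.v 2) (.sm 6 1 (.v 7))) (.sm 12 1 (.v 6)))))
  .tru
  .fls)))))))))))))))

def pcellW : Pg :=
  (.ite (.sub (.v 2) (.v 1))
  .tru
  (.lt (.sin (.sm 1 2 (.v 1)))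
  (.ite (.sub (.sm 2 1 (.v 0)) (.v 3))
  .tru
  (.lt (.add (.sub (.sm 3 1 (.sub (.v 2) (.sin (.v 2)))) (.sm 6 1 (.mul (.sin (.sm 1 2 (.v 3))) (.inv (.cos (.sm 1 2 (.v 3))))))) (.sm 3 1 (.v 3)))
  (.ite (.sub (.sm 61 25 (.mul (.sq (.v 1)) (.v 1))) (.v 0))
  .tru
  .fls)))))

def pbigW : Pg :=
  (.ite (.sub (.v 2) (.v 1))
  .tru
  (.lt (.sin (.sm 1 2 (.v 1)))
  (.rng 314159265358 314159265359 100000000000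
  (.ite (.sub (.v 4) (.sm 2 1 (.v 1)))
  .tru
  (.ite (.sub (.add (.v 3) (.sm 2 1 (.v 4))) (.v 0))
  .tru
  (.lt (.sub (.add (.sm 3 1 (.v 1)) (.cos (.v 4))) (.sm 2 1 (.v 4)))
  (.ite (.sub (.v 0) (.v 2))
  .tru
  (.lt (.add (.sub (.sm 3 1 (.sub (.v 4) (.sin (.v 4)))) (.sm 6 1 (.mul (.sin (.sm 1 2 (.v 5))) (.inv (.cos (.sm 1 2 (.v 5))))))) (.sm 3 1 (.v 5)))
  (.lt (.sq (.v 1))
  (.lt (.sq (.v 4))
  (.ite (.add (.sub (.mul (.mul (.v 0) (.v 5)) (.add (.sm 133 50 (.v 0)) (.mul (.sub (.c 399 50) (.sm 12 1 (.inv (.add (.c 1 1) (.cos (.sm 1 2 (.v 7))))))) (.v 1)))) (.mul (.v 2) (.v 0))) (.mul (.v 1) (.add (.sub (.v 2) (.sm 6 1 (.v 7))) (.sm 12 1 (.v 5)))))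
  .tru
  .fls)))))))))))

def pcellF : Pg :=
  (.lt (.sin (.v 2))
  (.ite (.sub (.sm 133 100 (.mul (.sq (.v 0)) (.v 0))) (.sm 6 1 (.sub (.v 3) (.v 0))))
  (.ite (.sub (.sm 133 100 (.add (.c 1 1) (.cos (.v 3)))) (.c 2 1))
  .tru
  .fls)
  .fls))

end Pool.Agent.P.MP_4c4e6e_co.Eng
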