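import Pool.Agent.P.MP_4c4e6e_co.Cov

/-! The checked statements in terms of real numbers. -/

namespace Pool.Agent.P.MP_4c4e6e_co.Eng

theorem cap_real (R sg xi : ℝ) (hR0 : 0 ≤ R) (hR1 : R ≤ 1) (hsg0 : 0 ≤ sg) (hsg1 : sg ≤ 29 / 20) (hxi0 : 0 ≤ xi) (hxi1 : xi ≤ 4 / 5) :
    ∀ s : ℝ, s = sg * R →
    (0 < s - 1) ∨
    ∀ k : ℝ, k = xi * s ^ 2 →
    (0 < k - 31 / 100) ∨
    (0 < 31 / 20 * xi - 1 ∧
      0 < xi * (5 / 4 + 3 / 2 * k) - 1) ∨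
    ∀ L : ℝ, L = 1 - k →
    (0 < sg - 1 ∧
      0 < L - R) ∨
    ∀ u : ℝ, u = xi * sg ^ 2 * R * (1 - 1 / 2 * k) + 1 / 2 * R →
    ∀ ze : ℝ, ze = (231 / 200 - 17 / 100 * k) * xi * sg →
    ∀ G : ℝ, G = sg * (1 - u * R * L⁻¹) + 2 * (√(1 - u ^ 2) * √(1 - 1 / 4 * (s * L⁻¹) ^ 2)) →
    (0 < G - 2 * ze - ze ^ 2 * sg) ∨
    0 < R ^ 2 + s * R * G - 1 := by
  have hc := cap_cov R sg xi (by push_cast; linarith) (by push_cast; linarith) (by push_cast; linarith) (by push_cast; linarith) (by push_cast; linarith) (by push_cast; linarith)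
  simp only [pcap, Pg.holds, E.val, List.getD_cons_succ, List.getD_cons_zero, Nat.cast_ofNat, Nat.cast_one,
    Nat.cast_zero, div_one, zero_div, and_true, or_false] at hc
  exact hc

theorem kill0_real (h : ℝ) (hh0 : 747 / 1000 ≤ h) (hh1 : h ≤ 3927 / 2500) :
    ∀ s : ℝ, s = Real.sin h →
    ∀ c : ℝ, c = Real.cos h →
    ∀ q : ℝ, q = c ^ 2 - s ^ 2 →
    (0 < -q) ∨
    0 < 1571 / 2000 - h ∧
      0 < 3 / 25 * s - q ∧
        0 < 3 / 25 * c - q ∧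
          0 < s ∧
            0 < c := by
  have hc := kill0_cov h 0 0 (by push_cast; linarith) (by push_cast; linarith) (by norm_num) (by norm_num) (by norm_num) (by norm_num)
  simp only [pkill0, Pg.holds, E.val, List.getD_cons_succ, List.getD_cons_zero, Nat.cast_ofNat, Nat.cast_one,
    Nat.cast_zero, div_one, zero_div, and_true, or_false] at hc
  exact hc

theorem kill_real (h al be : ℝ) (hh0 : 747 / 1000 ≤ h) (hh1 : h ≤ 1571 / 2000) (hal0 : 0 ≤ al) (hal1 : al ≤ 3 / 50) (hbe0 : 0 ≤ be) (hbe1 : be ≤ 3 / 50) :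
    ∀ pi : ℝ, 314159265358 / 100000000000 ≤ pi → pi ≤ 314159265359 / 100000000000 →
    ∀ s : ℝ, s = Real.sin h →
    ∀ c : ℝ, c = Real.cos h →
    ∀ T : ℝ, T = pi - 2 * h →
    (0 < 2 * (s * be) + 2 * (c * al) - (c ^ 2 - s ^ 2)) ∨
    ∀ L : ℝ, L = √(al ^ 2 + (s + be) ^ 2) →
    ∀ l : ℝ, l = √(al ^ 2 + (s - be) ^ 2) →
    ∀ dm : ℝ, dm = √(be ^ 2 + (c - al) ^ 2) →
    (∀ a : ℝ, a = l - 1 / 1000 →
      ∀ Ee : ℝ, Ee = T - 2 * a →
      ∀ A : ℝ, A = T - a →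
      ∀ cA : ℝ, cA = Real.cos A →
      0 < a ∧
        0 < 3 * a - T ∧
          0 < dm + 3 / 2 * a - T ∧
            0 < 1 / 2 * pi - A ∧
              0 < 2 / 3 - cA ∧
                0 < 1 - L - Ee * Real.sin A - Ee ^ 2 * (1 / 2 - 3 / 4 * cA)) ∨
    ∀ D : ℝ, D = √(be ^ 2 + (c + al) ^ 2) →
    ∀ b : ℝ, b = D + 1 / 1000 →
    ∀ Q : ℝ, Q = T - dm - l →
    ∀ A : ℝ, A = T - l →
    ∀ sn : ℝ, sn = 2 * b * √(1 - b ^ 2) * s - (2 * b ^ 2 - 1) * c →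
    ∀ rL : ℝ, rL = (s + be) * sn - al →
    ∀ rl : ℝ, rl = (s - be) * sn - al →
    ∀ EL : ℝ, EL = √(rL ^ 2 + b ^ 2 - L ^ 2) - rL →
    ∀ El : ℝ, El = √(rl ^ 2 + b ^ 2 - l ^ 2) - rl →
    0 < 1 - b ∧
      0 < 1 / 2 * pi - A ∧
        0 < Real.sin A - Q * Real.cos A ∧
          0 < 1 - b - Q * Real.sin A + 1 / 2 * (Q ^ 2 * Real.cos A) ∧
            0 < rl ∧
              0 < s - be ∧
                0 < 1 - 2 * b + L - EL ∧
                  0 < 1 - 2 * b + l - 2 * El ^ 2 := by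
  have hc := kill_cov h al be (by push_cast; linarith) (by push_cast; linarith) (by push_cast; linarith) (by push_cast; linarith) (by push_cast; linarith) (by push_cast; linarith)
  simp only [pkill, Pg.holds, E.val, List.getD_cons_succ, List.getD_cons_zero, Nat.cast_ofNat, Nat.cast_one,
    Nat.cast_zero, div_one, zero_div, and_true, or_false] at hc
  exact hc

theorem ah_real (h lam sp : ℝ) (hh0 : 113 / 200 ≤ h) (hh1 : h ≤ 747 / 1000) (hlam0 : 0 ≤ lam) (hlam1 : lam ≤ 1) (hsp0 : 0 ≤ sp) (hsp1 : sp ≤ 1) :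
    ∀ pi : ℝ, 314159265358 / 100000000000 ≤ pi → pi ≤ 314159265359 / 100000000000 →
    ∀ c : ℝ, c = Real.cos h →
    (0 < 2 * (lam * (c - c ^ 2)) - (2 * c ^ 2 - 1)) ∨
    ∀ w : ℝ, w = 1 / 2 * pi - h →
    ∀ t0 : ℝ, t0 = sp * w →
    ∀ y : ℝ, y = 2 * (sp * h) →
    ∀ sa : ℝ, sa = Real.sin (w - t0 + y) →
    ∀ sb : ℝ, sb = Real.sin (2 * h - y + t0) →
    ∀ mu : ℝ, mu = 1 - lam →
    ∀ ms : ℝ, ms = mu * Real.sin h →
    ∀ q0 : ℝ, q0 = sa * (1 - ms * Real.cos (w - t0)) →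
    ∀ q1 : ℝ, q1 = sb * (1 - ms * Real.cos t0) →
    ∀ q2 : ℝ, q2 = c * (lam + mu * c * Real.cos (h - y)) →
    ∀ x : ℝ, x = h - 13 / 20 →
    ∀ Ab : ℝ, Ab = 2697 / 10000 + x * (x * (2867 / 5000 - 32087 / 5000 * x) - 4007 / 5000) + lam * (2223 / 5000 + x * (377 / 625 - 8149 / 5000 * x) + lam * (1973 / 10000 + 2757 / 10000 * x - 323 / 10000 * lam)) →
    ∀ P : ℝ, P = sa * sb * c →
    0 < P ∧
      0 < Ab * P - q0 * q1 + 1 / 4 * (q0 + q1 - q2) ^ 2 := by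
  have hc := ah_cov h lam sp (by push_cast; linarith) (by push_cast; linarith) (by push_cast; linarith) (by push_cast; linarith) (by push_cast; linarith) (by push_cast; linarith)
  simp only [pah, Pg.holds, E.val, List.getD_cons_succ, List.getD_cons_zero, Nat.cast_ofNat, Nat.cast_one,
    Nat.cast_zero, div_one, zero_div, and_true, or_false] at hc
  exact hc

theorem twoA_real (h lam t : ℝ) (hh0 : 113 / 200 ≤ h) (hh1 : h ≤ 747 / 1000) (hlam0 : 0 ≤ lam) (hlam1 : lam ≤ 1) (ht0 : 0 ≤ t) (ht1 : t ≤ 747 / 1000) :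
    ∀ pi : ℝ, 314159265358 / 100000000000 ≤ pi → pi ≤ 314159265359 / 100000000000 →
    ∀ r3 : ℝ, 173205080756 / 100000000000 ≤ r3 → r3 ≤ 173205080757 / 100000000000 →
    (0 < t - h) ∨
    ∀ s : ℝ, s = Real.sin h →
    ∀ c : ℝ, c = Real.cos h →
    ∀ T : ℝ, T = pi - 2 * h →
    ∀ al : ℝ, al = lam * (Real.cos t - c) →
    ∀ be : ℝ, be = lam * Real.sin t →
    (0 < 2 * (s * be) + 2 * (c * al) - (c ^ 2 - s ^ 2)) ∨
    ∀ L : ℝ, L = √(al ^ 2 + (s + be) ^ 2) →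
    ∀ d : ℝ, d = √(be ^ 2 + (c - al) ^ 2) →
    (0 < 2 * L + d - T) ∨
    ∀ x : ℝ, x = h - 13 / 20 →
    ∀ Ab : ℝ, Ab = 2697 / 10000 + x * (x * (2867 / 5000 - 32087 / 5000 * x) - 4007 / 5000) + lam * (2223 / 5000 + x * (377 / 625 - 8149 / 5000 * x) + lam * (1973 / 10000 + 2757 / 10000 * x - 323 / 10000 * lam)) →
    ∀ G : ℝ, G = 12 * (1 / 2 * T + lam * s * (c + al) - Ab - 1 / 3 * pi + 1 / 4 * r3) →
    ∀ p : ℝ, p = T - d - L →
    0 < G - 133 / 100 * (p ^ 2 * p + 1 / 7 * (L ^ 2 * L + d ^ 2 * d)) := by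
  have hc := twoA_cov h lam t (by push_cast; linarith) (by push_cast; linarith) (by push_cast; linarith) (by push_cast; linarith) (by push_cast; linarith) (by push_cast; linarith)
  simp only [ptwoA, Pg.holds, E.val, List.getD_cons_succ, List.getD_cons_zero, Nat.cast_ofNat, Nat.cast_one,
    Nat.cast_zero, div_one, zero_div, and_true, or_false] at hc
  exact hc

theorem twoB_real (h lam t : ℝ) (hh0 : 113 / 200 ≤ h) (hh1 : h ≤ 747 / 1000) (hlam0 : 0 ≤ lam) (hlam1 : lam ≤ 1) (ht0 : 0 ≤ t) (ht1 : t ≤ 747 / 1000) :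
    ∀ pi : ℝ, 314159265358 / 100000000000 ≤ pi → pi ≤ 314159265359 / 100000000000 →
    ∀ r3 : ℝ, 173205080756 / 100000000000 ≤ r3 → r3 ≤ 173205080757 / 100000000000 →
    (0 < t - h) ∨
    ∀ s : ℝ, s = Real.sin h →
    ∀ c : ℝ, c = Real.cos h →
    ∀ T : ℝ, T = pi - 2 * h →
    ∀ al : ℝ, al = lam * (Real.cos t - c) →
    ∀ be : ℝ, be = lam * Real.sin t →
    (0 < 2 * (s * be) + 2 * (c * al) - (c ^ 2 - s ^ 2)) ∨
    ∀ L : ℝ, L = √(al ^ 2 + (s + be) ^ 2) →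
    ∀ d : ℝ, d = √(be ^ 2 + (c - al) ^ 2) →
    ∀ x : ℝ, x = h - 13 / 20 →
    ∀ Ab : ℝ, Ab = 2697 / 10000 + x * (x * (2867 / 5000 - 32087 / 5000 * x) - 4007 / 5000) + lam * (2223 / 5000 + x * (377 / 625 - 8149 / 5000 * x) + lam * (1973 / 10000 + 2757 / 10000 * x - 323 / 10000 * lam)) →
    ∀ G : ℝ, G = 12 * (1 / 2 * T + lam * s * (c + al) - Ab - 1 / 3 * pi + 1 / 4 * r3) →
    ∀ p : ℝ, p = T - d →
    (0 < G - 61 / 350 * (p ^ 2 * p + d ^ 2 * d)) ∨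
    ∀ S2 : ℝ, S2 = 31 / 20 * (1 - L) →
    0 < L - 7 / 10 ∧
      0 < G - 61 / 50 * (S2 * (T - 12 / 7 * √S2)) := by
  have hc := twoB_cov h lam t (by push_cast; linarith) (by push_cast; linarith) (by push_cast; linarith) (by push_cast; linarith) (by push_cast; linarith) (by push_cast; linarith)
  simp only [ptwoB, Pg.holds, E.val, List.getD_cons_succ, List.getD_cons_zero, Nat.cast_ofNat, Nat.cast_one,
    Nat.cast_zero, div_one, zero_div, and_true, or_false] at hc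
  exact hc

theorem oneP_real (h lam tp : ℝ) (hh0 : 3 / 25 ≤ h) (hh1 : h ≤ 1309 / 2500) (hlam0 : 0 ≤ lam) (hlam1 : lam ≤ 1) (htp0 : 0 ≤ tp) (htp1 : tp ≤ 113 / 200) :
    ∀ pi : ℝ, 314159265358 / 100000000000 ≤ pi → pi ≤ 314159265359 / 100000000000 →
    ∀ r3 : ℝ, 173205080756 / 100000000000 ≤ r3 → r3 ≤ 173205080757 / 100000000000 →
    ∀ et : ℝ, et = 1 / 6 * pi - h →
    (0 < 3 / 100 - et ∧
      0 < 3 / 100 + et ∧
        0 < 3 / 100 - tp ∧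
          0 < lam - 97 / 100) ∨
    (0 < tp - h) ∨
    ∀ s : ℝ, s = Real.sin h →
    ∀ c : ℝ, c = Real.cos h →
    ∀ T : ℝ, T = pi - 2 * h →
    ∀ t : ℝ, t = h - tp →
    ∀ al : ℝ, al = lam * (Real.cos t - c) →
    ∀ be : ℝ, be = lam * Real.sin t →
    (0 < 2 * (s * be) + 2 * (c * al) - (c ^ 2 - s ^ 2)) ∨
    ∀ m : ℝ, m = 1 / 3 * r3 * (1 - c) + s - h →
    ∀ l2 : ℝ, l2 = lam ^ 2 →
    ∀ G : ℝ, G = 12 * (1 / 6 * pi - 1 / 4 * r3 - 1 / 2 * ((1 + l2) * (h - s * c)) + lam * s * al + 1 / 2 * ((1 - l2) * m)) →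
    ∀ L2 : ℝ, L2 = al ^ 2 + (s + be) ^ 2 →
    ∀ L : ℝ, L = √L2 →
    (0 < G - 146 / 125 * (L2 * (T - 12 / 7 * L))) ∨
    0 < L - 7 / 10 ∧
      (∀ S2 : ℝ, S2 = 31 / 20 * (1 - L) →
      (0 < G - 146 / 125 * (S2 * (T - 12 / 7 * √S2))) ∨
      ∀ S3 : ℝ, S3 = (1 - L) * (11 / 4 - 3 / 2 * L) →
      0 < L - 18 / 25 ∧
        0 < G - (101 / 100 + 11 / 20 * S3) * S3 * (T - 12 / 7 * √S3)) := by
  have hc := oneP_cov h lam tp (by push_cast; linarith) (by push_cast; linarith) (by push_cast; linarith) (by push_cast; linarith) (by push_cast; linarith) (by push_cast; linarith)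
  simp only [poneP, Pg.holds, E.val, List.getD_cons_succ, List.getD_cons_zero, Nat.cast_ofNat, Nat.cast_one,
    Nat.cast_zero, div_one, zero_div, and_true, or_false] at hc
  exact hc

theorem oneM_real (h lam tp : ℝ) (hh0 : 1047 / 2000 ≤ h) (hh1 : h ≤ 113 / 200) (hlam0 : 0 ≤ lam) (hlam1 : lam ≤ 1) (htp0 : 0 ≤ tp) (htp1 : tp ≤ 113 / 200) :
    ∀ pi : ℝ, 314159265358 / 100000000000 ≤ pi → pi ≤ 314159265359 / 100000000000 →
    ∀ r3 : ℝ, 173205080756 / 100000000000 ≤ r3 → r3 ≤ 173205080757 / 100000000000 →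
    ∀ et : ℝ, et = 1 / 6 * pi - h →
    (0 < 3 / 100 - et ∧
      0 < 3 / 100 + et ∧
        0 < 3 / 100 - tp ∧
          0 < lam - 97 / 100) ∨
    (0 < tp - h) ∨
    ∀ s : ℝ, s = Real.sin h →
    ∀ c : ℝ, c = Real.cos h →
    ∀ T : ℝ, T = pi - 2 * h →
    ∀ t : ℝ, t = h - tp →
    ∀ al : ℝ, al = lam * (Real.cos t - c) →
    ∀ be : ℝ, be = lam * Real.sin t →
    (0 < 2 * (s * be) + 2 * (c * al) - (c ^ 2 - s ^ 2)) ∨
    ∀ m : ℝ, m = 1 / 3 * r3 - 1 / 6 * pi →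
    ∀ l2 : ℝ, l2 = lam ^ 2 →
    ∀ G : ℝ, G = 12 * (1 / 6 * pi - 1 / 4 * r3 - 1 / 2 * ((1 + l2) * (h - s * c)) + lam * s * al + 1 / 2 * ((1 - l2) * m)) →
    ∀ L2 : ℝ, L2 = al ^ 2 + (s + be) ^ 2 →
    ∀ L : ℝ, L = √L2 →
    (0 < G - 146 / 125 * (L2 * (T - 12 / 7 * L))) ∨
    0 < L - 7 / 10 ∧
      (∀ S2 : ℝ, S2 = 31 / 20 * (1 - L) →
      (0 < G - 146 / 125 * (S2 * (T - 12 / 7 * √S2))) ∨
      ∀ S3 : ℝ, S3 = (1 - L) * (11 / 4 - 3 / 2 * L) →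
      0 < L - 18 / 25 ∧
        0 < G - (101 / 100 + 11 / 20 * S3) * S3 * (T - 12 / 7 * √S3)) := by
  have hc := oneM_cov h lam tp (by push_cast; linarith) (by push_cast; linarith) (by push_cast; linarith) (by push_cast; linarith) (by push_cast; linarith) (by push_cast; linarith)
  simp only [poneM, Pg.holds, E.val, List.getD_cons_succ, List.getD_cons_zero, Nat.cast_ofNat, Nat.cast_one,
    Nat.cast_zero, div_one, zero_div, and_true, or_false] at hc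
  exact hc

theorem mlow_real (h : ℝ) (hh0 : 987 / 2000 ≤ h) (hh1 : h ≤ 1309 / 2500) :
    ∀ r3 : ℝ, 173205080756 / 100000000000 ≤ r3 → r3 ≤ 173205080757 / 100000000000 →
    0 < 1 / 3 * r3 * (1 - Real.cos h) + Real.sin h - h - 49 / 1000 := by
  have hc := mlow_cov h 0 0 (by push_cast; linarith) (by push_cast; linarith) (by norm_num) (by norm_num) (by norm_num) (by norm_num)
  simp only [pmlow, Pg.holds, E.val, List.getD_cons_succ, List.getD_cons_zero, Nat.cast_ofNat, Nat.cast_one,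
    Nat.cast_zero, div_one, zero_div, and_true, or_false] at hc
  exact hc

theorem cell1_real (h : ℝ) (hh0 : 0 ≤ h) (hh1 : h ≤ 113 / 200) :
    ∀ pi : ℝ, 314159265358 / 100000000000 ≤ pi → pi ≤ 314159265359 / 100000000000 →
    ∀ r3 : ℝ, 173205080756 / 100000000000 ≤ r3 → r3 ≤ 173205080757 / 100000000000 →
    ∀ tsa : ℝ, 0 ≤ tsa → tsa ≤ 1 / 5040 →
    ∀ xsa : ℝ, xsa = h ^ 2 →
    ∀ Sa : ℝ, Sa = 1 / 6 - xsa * (1 / 120 - xsa * tsa) →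
    ∀ tca : ℝ, 0 ≤ tca → tca ≤ 1 / 720 →
    ∀ xca : ℝ, xca = h ^ 2 →
    ∀ Ca : ℝ, Ca = 1 / 2 - xca * (1 / 24 - xca * tca) →
    ∀ tsb : ℝ, 0 ≤ tsb → tsb ≤ 1 / 5040 →
    ∀ xsb : ℝ, xsb = (2 * h) ^ 2 →
    ∀ Sb : ℝ, Sb = 1 / 6 - xsb * (1 / 120 - xsb * tsb) →
    ∀ sc : ℝ, sc = 1 - h ^ 2 * Sa →
    ∀ cf : ℝ, cf = 101 / 100 + 11 / 20 * (h * sc) ^ 2 →
    0 < cf * (sc ^ 2 * sc) - 6 * Sa ∧
      0 < cf * (2 - h ^ 2 * Ca) - 2 ∧
        0 < 2 * (cf * h * (sc ^ 2 * sc)) - 24 * (h * Sb) + 6 * (1 / 3 * r3 * Ca - h * Sa) ∧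
          0 < 2 * (cf * ((h * sc) ^ 2 * (h * sc))) - 24 * (h ^ 2 * h * Sb) + 6 * (1 / 3 * r3 - 1 / 6 * pi) := by
  have hc := cell1_cov h 0 0 (by push_cast; linarith) (by push_cast; linarith) (by norm_num) (by norm_num) (by norm_num) (by norm_num)
  simp only [pcell1, Pg.holds, E.val, List.getD_cons_succ, List.getD_cons_zero, Nat.cast_ofNat, Nat.cast_one,
    Nat.cast_zero, div_one, zero_div, and_true, or_false] at hc
  exact hc

theorem cellD_real (h : ℝ) (hh0 : 0 ≤ h) (hh1 : h ≤ 63 / 125) :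
    ∀ tsa : ℝ, 0 ≤ tsa → tsa ≤ 1 / 5040 →
    ∀ xsa : ℝ, xsa = h ^ 2 →
    ∀ Sa : ℝ, Sa = 1 / 6 - xsa * (1 / 120 - xsa * tsa) →
    ∀ tca : ℝ, 0 ≤ tca → tca ≤ 1 / 720 →
    ∀ xca : ℝ, xca = h ^ 2 →
    ∀ Ca : ℝ, Ca = 1 / 2 - xca * (1 / 24 - xca * tca) →
    ∀ tsb : ℝ, 0 ≤ tsb → tsb ≤ 1 / 5040 →
    ∀ xsb : ℝ, xsb = (2 * h) ^ 2 →
    ∀ Sb : ℝ, Sb = 1 / 6 - xsb * (1 / 120 - xsb * tsb) →
    ∀ sc : ℝ, sc = 1 - h ^ 2 * Sa →
    ∀ co : ℝ, co = 1 - h ^ 2 * Ca →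
    0 < co ∧
      0 < (61 / 25 * (sc ^ 2 * sc) - 24 * Sb) * co + 6 * (Ca - Sa) := by
  have hc := cellD_cov h 0 0 (by push_cast; linarith) (by push_cast; linarith) (by norm_num) (by norm_num) (by norm_num) (by norm_num)
  simp only [pcellD, Pg.holds, E.val, List.getD_cons_succ, List.getD_cons_zero, Nat.cast_ofNat, Nat.cast_one,
    Nat.cast_zero, div_one, zero_div, and_true, or_false] at hc
  exact hc

theorem cellS_real (d th : ℝ) (hd0 : 0 ≤ d) (hd1 : d ≤ 43 / 100) (hth0 : 0 ≤ th) (hth1 : th ≤ 1) :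
    ∀ x : ℝ, x = th * d →
    ∀ y : ℝ, y = d - x →
    ∀ tsx : ℝ, 0 ≤ tsx → tsx ≤ 1 / 5040 →
    ∀ xsx : ℝ, xsx = x ^ 2 →
    ∀ Sx : ℝ, Sx = 1 / 6 - xsx * (1 / 120 - xsx * tsx) →
    ∀ tcx : ℝ, 0 ≤ tcx → tcx ≤ 1 / 720 →
    ∀ xcx : ℝ, xcx = x ^ 2 →
    ∀ Cx : ℝ, Cx = 1 / 2 - xcx * (1 / 24 - xcx * tcx) →
    ∀ tsy : ℝ, 0 ≤ tsy → tsy ≤ 1 / 5040 →
    ∀ xsy : ℝ, xsy = y ^ 2 →
    ∀ Sy : ℝ, Sy = 1 / 6 - xsy * (1 / 120 - xsy * tsy) →
    ∀ tcy : ℝ, 0 ≤ tcy → tcy ≤ 1 / 720 →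
    ∀ xcy : ℝ, xcy = y ^ 2 →
    ∀ Cy : ℝ, Cy = 1 / 2 - xcy * (1 / 24 - xcy * tcy) →
    ∀ tsd : ℝ, 0 ≤ tsd → tsd ≤ 1 / 5040 →
    ∀ xsd : ℝ, xsd = d ^ 2 →
    ∀ Sd : ℝ, Sd = 1 / 6 - xsd * (1 / 120 - xsd * tsd) →
    ∀ tsh : ℝ, 0 ≤ tsh → tsh ≤ 1 / 5040 →
    ∀ xsh : ℝ, xsh = (1 / 2 * d) ^ 2 →
    ∀ Sh : ℝ, Sh = 1 / 6 - xsh * (1 / 120 - xsh * tsh) →
    ∀ px : ℝ, px = th ^ 2 * th * (Cx * (1 - x ^ 2 * Sx - 93 / 100 * (x * Cx)) - Sx) →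
    ∀ tt : ℝ, tt = 1 - th →
    ∀ py : ℝ, py = tt ^ 2 * tt * (Cy * (1 - y ^ 2 * Sy - 93 / 100 * (y * Cy)) - Sy) →
    ∀ sc : ℝ, sc = 1 - 1 / 4 * d ^ 2 * Sh →
    0 < 61 / 200 * (sc ^ 2 * sc) - 3 * Sd + 3 * (px + py) := by
  have hc := cellS_cov d th 0 (by push_cast; linarith) (by push_cast; linarith) (by push_cast; linarith) (by push_cast; linarith) (by norm_num) (by norm_num)
  simp only [pcellS, Pg.holds, E.val, List.getD_cons_succ, List.getD_cons_zero, Nat.cast_ofNat, Nat.cast_one,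
    Nat.cast_zero, div_one, zero_div, and_true, or_false] at hc
  exact hc

theorem wf_real (w : ℝ) (hw0 : 8237 / 10000 ≤ w) (hw1 : w ≤ 10059 / 10000) :
    ∀ s : ℝ, s = Real.sin w →
    ∀ c : ℝ, c = Real.cos w →
    ∀ s2 : ℝ, s2 = Real.sin (1 / 2 * w) →
    ∀ c2 : ℝ, c2 = Real.cos (1 / 2 * w) →
    0 < s ∧
      0 < c2 ∧
        0 < 93 / 100 * s - c ∧
          0 < s2 - 43 / 100 * c2 ∧
            0 < c - 1 / 2 * w := by
  have hc := wf_cov w 0 0 (by push_cast; linarith) (by push_cast; linarith) (by norm_num) (by norm_num) (by norm_num) (by norm_num)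
  simp only [pwf, Pg.holds, E.val, List.getD_cons_succ, List.getD_cons_zero, Nat.cast_ofNat, Nat.cast_one,
    Nat.cast_zero, div_one, zero_div, and_true, or_false] at hc
  exact hc

theorem cellAB_real (d x : ℝ) (hd0 : 43 / 100 ≤ d) (hd1 : d ≤ 3 / 2) (hx0 : 0 ≤ x) (hx1 : x ≤ 10059 / 10000) :
    (0 < x - d) ∨
    ∀ y : ℝ, y = d - x →
    ∀ sg : ℝ, sg = Real.sin (1 / 2 * d) →
    ∀ w1 : ℝ, w1 = 2 * sg →
    (0 < w1 - 10059 / 10000) ∨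
    ∀ cx : ℝ, cx = 1 - Real.cos x →
    ∀ sx : ℝ, sx = Real.sin x →
    ∀ cy : ℝ, cy = 1 - Real.cos y →
    ∀ Q : ℝ, Q = 61 / 25 * (sg ^ 2 * sg) - 3 * (d - Real.sin d) + 3 * (sx - x + cx * sx + Real.sin y - y) →
    ∀ w0 : ℝ, w0 = 8237 / 10000 →
    (0 < Q + 3 * (cy * (Real.sin (1 / 2 * w0) * (Real.cos (1 / 2 * w0))⁻¹) - cx ^ 2 * (Real.cos w0 * (Real.sin w0)⁻¹))) ∨
    0 < w1 - 4 / 5 ∧
      0 < Q + 3 * (cy * (Real.sin (1 / 2 * w1) * (Real.cos (1 / 2 * w1))⁻¹) - cx ^ 2 * (Real.cos w1 * (Real.sin w1)⁻¹)) := by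
  have hc := cellAB_cov d x 0 (by push_cast; linarith) (by push_cast; linarith) (by push_cast; linarith) (by push_cast; linarith) (by norm_num) (by norm_num)
  simp only [pcellAB, Pg.holds, E.val, List.getD_cons_succ, List.getD_cons_zero, Nat.cast_ofNat, Nat.cast_one,
    Nat.cast_zero, div_one, zero_div, and_true, or_false] at hc
  exact hc

theorem bigAB_real (w x y : ℝ) (hw0 : 8237 / 10000 ≤ w) (hw1 : w ≤ 10059 / 10000) (hx0 : 0 ≤ x) (hx1 : x ≤ 10059 / 10000) (hy0 : 0 ≤ y) (hy1 : y ≤ 10059 / 10000) :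
    ∀ pi : ℝ, 314159265358 / 100000000000 ≤ pi → pi ≤ 314159265359 / 100000000000 →
    (0 < x - w) ∨
    (0 < y - w) ∨
    ∀ d : ℝ, d = x + y →
    (0 < d + 2 * w - pi) ∨
    ∀ sg : ℝ, sg = Real.sin (1 / 2 * d) →
    (0 < w - 2 * sg) ∨
    ∀ v0 : ℝ, v0 = 3 * sg + Real.cos w - 2 * w →
    (0 < v0 - sg) ∨
    ∀ cx : ℝ, cx = 1 - Real.cos x →
    ∀ sx : ℝ, sx = Real.sin x →
    ∀ P0 : ℝ, P0 = 3 * (d - Real.sin d) - 3 * (sx - x + cx * (sx - cx * (Real.cos w * (Real.sin w)⁻¹)) + Real.sin y - y + (1 - Real.cos y) * (Real.sin (1 / 2 * w) * (Real.cos (1 / 2 * w))⁻¹)) →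
    ∀ v2 : ℝ, v2 = v0 ^ 2 →
    ∀ s2 : ℝ, s2 = sg ^ 2 →
    0 < s2 * sg * (133 / 50 * s2 + (399 / 50 - 12 * (1 + Real.cos (1 / 2 * d))⁻¹) * v2) - P0 * s2 + v2 * (P0 - 6 * d + 12 * sg) := by
  have hc := bigAB_cov w x y (by push_cast; linarith) (by push_cast; linarith) (by push_cast; linarith) (by push_cast; linarith) (by push_cast; linarith) (by push_cast; linarith)
  simp only [pbigAB, Pg.holds, E.val, List.getD_cons_succ, List.getD_cons_zero, Nat.cast_ofNat, Nat.cast_one,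
    Nat.cast_zero, div_one, zero_div, and_true, or_false] at hc
  exact hc

theorem cellW_real (w d : ℝ) (hw0 : 8237 / 10000 ≤ w) (hw1 : w ≤ 10059 / 10000) (hd0 : 4 / 5 ≤ d) (hd1 : d ≤ 3 / 2) :
    (0 < w - d) ∨
    ∀ sg : ℝ, sg = Real.sin (1 / 2 * d) →
    (0 < 2 * sg - w) ∨
    ∀ P0 : ℝ, P0 = 3 * (d - Real.sin d) - 6 * (Real.sin (1 / 2 * w) * (Real.cos (1 / 2 * w))⁻¹) + 3 * w →
    0 < 61 / 25 * (sg ^ 2 * sg) - P0 := by
  have hc := cellW_cov w d 0 (by push_cast; linarith) (by push_cast; linarith) (by push_cast; linarith) (by push_cast; linarith) (by norm_num) (by norm_num)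
  simp only [pcellW, Pg.holds, E.val, List.getD_cons_succ, List.getD_cons_zero, Nat.cast_ofNat, Nat.cast_one,
    Nat.cast_zero, div_one, zero_div, and_true, or_false] at hc
  exact hc

theorem bigW_real (w d : ℝ) (hw0 : 8237 / 10000 ≤ w) (hw1 : w ≤ 10059 / 10000) (hd0 : 4 / 5 ≤ d) (hd1 : d ≤ 3 / 2) :
    (0 < w - d) ∨
    ∀ sg : ℝ, sg = Real.sin (1 / 2 * d) →
    ∀ pi : ℝ, 314159265358 / 100000000000 ≤ pi → pi ≤ 314159265359 / 100000000000 →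
    (0 < w - 2 * sg) ∨
    (0 < d + 2 * w - pi) ∨
    ∀ v0 : ℝ, v0 = 3 * sg + Real.cos w - 2 * w →
    (0 < v0 - sg) ∨
    ∀ P0 : ℝ, P0 = 3 * (d - Real.sin d) - 6 * (Real.sin (1 / 2 * w) * (Real.cos (1 / 2 * w))⁻¹) + 3 * w →
    ∀ v2 : ℝ, v2 = v0 ^ 2 →
    ∀ s2 : ℝ, s2 = sg ^ 2 →
    0 < s2 * sg * (133 / 50 * s2 + (399 / 50 - 12 * (1 + Real.cos (1 / 2 * d))⁻¹) * v2) - P0 * s2 + v2 * (P0 - 6 * d + 12 * sg) := by
  have hc := bigW_cov w d 0 (by push_cast; linarith) (by push_cast; linarith) (by push_cast; linarith) (by push_cast; linarith) (by norm_num) (by norm_num)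
  simp only [pbigW, Pg.holds, E.val, List.getD_cons_succ, List.getD_cons_zero, Nat.cast_ofNat, Nat.cast_one,
    Nat.cast_zero, div_one, zero_div, and_true, or_false] at hc
  exact hc

theorem cellF_real (h : ℝ) (hh0 : 2 / 5 ≤ h) (hh1 : h ≤ 747 / 1000) :
    ∀ s : ℝ, s = Real.sin h →
    0 < 133 / 100 * (s ^ 2 * s) - 6 * (h - s) ∧
      0 < 133 / 100 * (1 + Real.cos h) - 2 := by
  have hc := cellF_cov h 0 0 (by push_cast; linarith) (by push_cast; linarith) (by norm_num) (by norm_num) (by norm_num) (by norm_num)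
  simp only [pcellF, Pg.holds, E.val, List.getD_cons_succ, List.getD_cons_zero, Nat.cast_ofNat, Nat.cast_one,
    Nat.cast_zero, div_one, zero_div, and_true, or_false] at hc
  exact hc

theorem apex_tail (rho u v w : ℝ) (h0 : 0 ≤ rho) (h1 : rho ≤ 3 / 100) (hu0 : 0 ≤ u) (hu1 : u ≤ 1)
    (hv0 : 0 ≤ v) (hv1 : v ≤ 1) (hw0 : -1 ≤ w) (hw1 : w ≤ 1)
    (hf : u = 1 ∨ v = 1 ∨ w = 1 ∨ w = -1) : ∃ a c : ℝ, apTail.holds [w, v, u, c, a, rho] := by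
  rcases hf with hf | hf | hf | hf
  · have hc := apU_cov rho v (w + 1) (by push_cast; linarith) (by push_cast; linarith) (by push_cast; linarith) (by push_cast; linarith) (by push_cast; linarith) (by push_cast; linarith)
    simp only [papU, Pg.holds, E.val, List.getD_cons_succ, List.getD_cons_zero, Nat.cast_ofNat, Nat.cast_one,
    Nat.cast_zero, div_one, zero_div, and_true, or_false] at hc
    exact ⟨_, _, hc u hf v rfl w (by ring)⟩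
  · have hc := apV_cov rho u (w + 1) (by push_cast; linarith) (by push_cast; linarith) (by push_cast; linarith) (by push_cast; linarith) (by push_cast; linarith) (by push_cast; linarith)
    simp only [papV, Pg.holds, E.val, List.getD_cons_succ, List.getD_cons_zero, Nat.cast_ofNat, Nat.cast_one,
    Nat.cast_zero, div_one, zero_div, and_true, or_false] at hc
    exact ⟨_, _, hc u rfl v hf w (by ring)⟩
  · have hc := apP_cov rho u v (by push_cast; linarith) (by push_cast; linarith) (by push_cast; linarith) (by push_cast; linarith) (by push_cast; linarith) (by push_cast; linarith)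
    simp only [papP, Pg.holds, E.val, List.getD_cons_succ, List.getD_cons_zero, Nat.cast_ofNat, Nat.cast_one,
    Nat.cast_zero, div_one, zero_div, and_true, or_false] at hc
    exact ⟨_, _, hc u rfl v rfl w hf⟩
  · have hc := apM_cov rho u v (by push_cast; linarith) (by push_cast; linarith) (by push_cast; linarith) (by push_cast; linarith) (by push_cast; linarith) (by push_cast; linarith)
    simp only [papM, Pg.holds, E.val, List.getD_cons_succ, List.getD_cons_zero, Nat.cast_ofNat, Nat.cast_one,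
    Nat.cast_zero, div_one, zero_div, and_true, or_false] at hc
    exact ⟨_, _, hc u rfl v rfl w hf⟩

theorem tail_real (rho a c u v w : ℝ) (hc : apTail.holds [w, v, u, c, a, rho]) :
    ∀ pi : ℝ, 314159265358 / 100000000000 ≤ pi → pi ≤ 314159265359 / 100000000000 →
    ∀ r3 : ℝ, 173205080756 / 100000000000 ≤ r3 → r3 ≤ 173205080757 / 100000000000 →
    ∀ r2 : ℝ, r2 = rho ^ 2 →
    ∀ lam : ℝ, lam = 1 - rho * u →
    ∀ w2 : ℝ, w2 = 2 * w →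
    ∀ s2 : ℝ, 16600 / 100000 ≤ s2 → s2 ≤ 16667 / 100000 →
    ∀ sn2 : ℝ, sn2 = w2 * (1 - r2 * w2 ^ 2 * s2) →
    ∀ c2 : ℝ, 499 / 1000 ≤ c2 → c2 ≤ 500 / 1000 →
    ∀ cs2 : ℝ, cs2 = rho * w2 ^ 2 * c2 →
    ∀ ct : ℝ, 499 / 1000 ≤ ct → ct ≤ 500 / 1000 →
    ∀ cst : ℝ, cst = rho * v ^ 2 * ct →
    (0 < -(1 / 2 * u + (1 + lam) * (1 / 2 * r3 * sn2 - 1 / 2 * cs2) + 2 * (lam * cst))) ∨
    ∀ x : ℝ, x = w + v →
    ∀ y : ℝ, y = w2 + v →
    ∀ h : ℝ, h = 1 / 6 * pi - rho * w →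
    ∀ cy : ℝ, 499 / 1000 ≤ cy → cy ≤ 500 / 1000 →
    ∀ csy : ℝ, csy = rho * y ^ 2 * cy →
    ∀ sy : ℝ, 16600 / 100000 ≤ sy → sy ≤ 16667 / 100000 →
    ∀ sny : ℝ, sny = y * (1 - r2 * y ^ 2 * sy) →
    ∀ st : ℝ, 16600 / 100000 ≤ st → st ≤ 16667 / 100000 →
    ∀ snt : ℝ, snt = v * (1 - r2 * v ^ 2 * st) →
    ∀ D1 : ℝ, D1 = 1 / 4 * r3 * csy + 1 / 4 * sny - 1 / 2 * snt - w →
    ∀ ce : ℝ, 499 / 1000 ≤ ce → ce ≤ 500 / 1000 →
    ∀ cse : ℝ, cse = rho * w ^ 2 * ce →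
    ∀ se : ℝ, 16600 / 100000 ≤ se → se ≤ 16667 / 100000 →
    ∀ sne : ℝ, sne = w * (1 - r2 * w ^ 2 * se) →
    ∀ cx : ℝ, 499 / 1000 ≤ cx → cx ≤ 500 / 1000 →
    ∀ csx : ℝ, csx = rho * x ^ 2 * cx →
    ∀ sx : ℝ, 16600 / 100000 ≤ sx → sx ≤ 16667 / 100000 →
    ∀ snx : ℝ, snx = x * (1 - r2 * x ^ 2 * sx) →
    ∀ K : ℝ, K = 1 / 2 * (cse + csx) + 1 / 2 * r3 * (sne + snx) + u * Real.sin (h - rho * v) →
    ∀ kk : ℝ, kk = rho * K →
    0 < 7 / 25 - kk ∧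
      0 < u * (1 + lam) * (1 / 6 * pi - 1 / 4 * r3 - 1 / 4 * (2 * h - Real.sin (2 * h)) + 49 / 2000) - lam ^ 2 * D1 - 101 / 1200 * (K * (5 / 4 + 3 / 2 * kk) * (pi - 2 * h)) := by
  simp only [apTail, Pg.holds, E.val, List.getD_cons_succ, List.getD_cons_zero, Nat.cast_ofNat, Nat.cast_one,
    Nat.cast_zero, div_one, zero_div, and_true, or_false] at hc
  exact hc

end Pool.Agent.P.MP_4c4e6e_co.Eng
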