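import Pool.Agent.P.MP_4c4e6e_co.Main

/-! A convex set with almost all diameters of `R2` and almost its area is close to `R2`. -/

namespace Pool.Agent.P.MP_4c4e6e_co

open Real MeasureTheory Set

namespace Stab

theorem dot_le_norm (z : ℂ) {u : ℂ} (hu : u.re ^ 2 + u.im ^ 2 = 1) : dot z u ≤ ‖z‖ := by
  refine (abs_le_of_sq_le_sq' ?_ (norm_nonneg z)).2
  rw [normSq_eq, dot]
  nlinarith [sq_nonneg (z.re * u.im - z.im * u.re)]

theorem U_arccos {a b : ℝ} (h : a ^ 2 + b ^ 2 = 1) (hb : 0 ≤ b) (ha : 1 / 2 ≤ a) :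
    0 ≤ arccos a ∧ arccos a ≤ π / 3 ∧ cos (arccos a) = a ∧ sin (arccos a) = b := by
  have h1 : a ≤ 1 := by nlinarith
  refine ⟨arccos_nonneg a, ?_, cos_arccos (by linarith) h1, ?_⟩
  · have := arccos_le_arccos ha
    rwa [← cos_pi_div_three, arccos_cos (by linarith [pi_pos]) (by linarith [pi_pos]),
      ] at this
  · rw [sin_arccos, show 1 - a ^ 2 = b ^ 2 by linarith, sqrt_sq hb]

/-- comparison of the support functions -/
theorem supp {K : Set ℂ} (hd : ∀ z ∈ K, ∀ w ∈ K, ‖z - w‖ ≤ 1) {η : ℝ} (h1 : (1 : ℂ) ∈ K)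
    (hω : U (π / 3) ∈ K) {q : ℂ} (hq : q ∈ K) (hqη : ‖q‖ ≤ η)
    (hdir : ∀ s, -(π / 3) ≤ s → s ≤ π / 3 →
      ∃ s' X, X ∈ K ∧ X - U s' ∈ K ∧ 1 - η ≤ cos (s' - s))
    (u : ℂ) (hu : u.re ^ 2 + u.im ^ 2 = 1) :
    ∃ x ∈ K, ∀ z ∈ R2, dot z u ≤ dot x u + 2 * η := by
  have hη : 0 ≤ η := (norm_nonneg q).trans hqη
  obtain ⟨c, hc⟩ : ∃ c : ℝ, c = √3 := ⟨_, rfl⟩
  have hc0 : 0 < c := by rw [hc]; positivity
  have hc3 : c ^ 2 = 3 := by rw [hc]; exact sq_sqrt (by norm_num)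
  have ωr : (U (π / 3)).re = 1 / 2 := by rw [U_re, cos_pi_div_three]
  have ωi : (U (π / 3)).im = c / 2 := by rw [U_im, sin_pi_div_three, hc]
  have hz : ∀ z ∈ R2, 0 ≤ z.re ∧ z.re ≤ 1 ∧ 0 ≤ z.im := fun z hz => by
    obtain ⟨a1, a2, a3⟩ := (mem_R2 z).1 hz
    exact ⟨by nlinarith [sq_nonneg z.im], by nlinarith [sq_nonneg z.im], a3⟩
  rcases le_total u.im 0 with hb | hb
  · rcases le_total u.re 0 with ha | ha
    · refine ⟨q, hq, fun z hz' => ?_⟩
      obtain ⟨a1, -, a3⟩ := hz z hz'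
      have h2 := dot_le_norm q (u := -u) (by simpa using hu)
      simp only [dot, Complex.neg_re, Complex.neg_im] at h2 ⊢
      nlinarith [mul_nonneg a1 (neg_nonneg.2 ha), mul_nonneg a3 (neg_nonneg.2 hb)]
    · refine ⟨1, h1, fun z hz' => ?_⟩
      obtain ⟨-, a2, a3⟩ := hz z hz'
      simp only [dot, Complex.one_re, Complex.one_im]
      nlinarith [mul_nonneg (sub_nonneg.2 a2) ha, mul_nonneg a3 (neg_nonneg.2 hb)]
  rcases le_total (1 / 2) u.re with ha | ha
  · obtain ⟨p0, p1, p2, p3⟩ := U_arccos hu hb ha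
    obtain ⟨s', X, hX, hY, hcos⟩ := hdir (arccos u.re) (by linarith [pi_pos]) p1
    refine ⟨X, hX, fun z hz' => ?_⟩
    have h2 : dot z u ≤ 1 := (dot_le_norm z hu).trans hz'.1
    have h3 := (dot_le_norm (X - U s' - 1) (u := -1) (by simp)).trans (hd _ hY _ h1)
    have h4 := (dot_le_norm (X - U s' - U (π / 3)) (u := -U (π / 3)) (by
      simp only [Complex.neg_re, Complex.neg_im, ωr, ωi]; linarith)).trans (hd _ hY _ hω)
    rw [cos_sub, p2, p3] at hcos
    simp only [dot, Complex.neg_re, Complex.neg_im, Complex.sub_re, Complex.sub_im, ωr, ωi,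
      Complex.one_re, Complex.one_im] at h3 h4
    simp only [U_re, U_im] at h3 h4
    have h5 : u.im ≤ c / 2 := (abs_le_of_sq_le_sq' (by nlinarith) (by linarith)).2
    have h6 : 0 ≤ c * u.re - u.im := by nlinarith
    have h7 : 0 ≤ X.re - cos s' := by linarith
    have h8 : 0 ≤ (X.re - cos s') / 2 + c * (X.im - sin s') / 2 := by nlinarith
    have h9 : 0 ≤ c * ((X.re - cos s') * u.re + (X.im - sin s') * u.im) := by
      nlinarith [mul_nonneg h6 h7, mul_nonneg hb h8]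
    have h10 : 0 ≤ (X.re - cos s') * u.re + (X.im - sin s') * u.im :=
      nonneg_of_mul_nonneg_right h9 hc0
    simp only [dot] at h2 ⊢
    linarith
  rcases le_total u.re (-(1 / 2)) with ha' | ha'
  · obtain ⟨p0, p1, p2, p3⟩ := U_arccos (a := -u.re) (b := u.im) (by linarith) hb (by linarith)
    obtain ⟨s', X, hX, hY, hcos⟩ := hdir (-arccos (-u.re)) (by linarith) (by linarith [pi_pos])
    refine ⟨X - U s', hY, fun z hz' => ?_⟩
    have h2 : dot (z - 1) u ≤ 1 := (dot_le_norm (z - 1) hu).trans hz'.2.1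
    have h3 := (dot_le_norm (X - q) (u := 1) (by simp)).trans (hd _ hX _ hq)
    have h3' := (dot_le_norm q (u := 1) (by simp)).trans hqη
    have h4 := (dot_le_norm (X - U (π / 3)) (u := ⟨1 / 2, -(c / 2)⟩) (by
      simp only; linarith)).trans (hd _ hX _ hω)
    rw [cos_sub, cos_neg, sin_neg, p2, p3] at hcos
    simp only [dot, Complex.sub_re, Complex.sub_im, ωr, ωi,
      Complex.one_re, Complex.one_im] at h2 h3 h3' h4
    have h5 : u.im ≤ c / 2 := (abs_le_of_sq_le_sq' (by nlinarith) (by linarith)).2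
    have h6 : 0 ≤ c * -u.re - u.im := by nlinarith
    have h7 : 0 ≤ η - (X.re - 1) := by linarith
    have h8 : 0 ≤ -((X.re - 1) / 2 - c * X.im / 2) := by nlinarith
    have h11 : -u.re ≤ 1 := by nlinarith
    have h12 : (c * -u.re - u.im) * η ≤ c * η :=
      mul_le_mul_of_nonneg_right (by nlinarith) hη
    have h9 : 0 ≤ c * (η + ((X.re - 1) * u.re + X.im * u.im)) := by
      nlinarith [mul_nonneg h6 h7, mul_nonneg hb h8]
    have h10 : 0 ≤ η + ((X.re - 1) * u.re + X.im * u.im) := nonneg_of_mul_nonneg_right h9 hc0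
    simp only [dot, Complex.sub_re, Complex.sub_im, U_re, U_im]
    linarith
  · refine ⟨_, hω, fun z hz' => ?_⟩
    have h2 := (dot_le_norm z (u := ⟨1 / 2, c / 2⟩) (by simp only; linarith)).trans hz'.1
    have h3 := (dot_le_norm (z - 1) (u := ⟨-(1 / 2), c / 2⟩) (by simp only; linarith)).trans hz'.2.1
    simp only [dot, Complex.sub_re, Complex.sub_im, ωr, ωi, Complex.one_re, Complex.one_im]
      at h2 h3 ⊢
    have h5 : c / 2 ≤ u.im := (abs_le_of_sq_le_sq' (by nlinarith) hb).2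
    have h6 : 0 ≤ u.im + c * u.re := by nlinarith
    have h7 : 0 ≤ u.im - c * u.re := by nlinarith
    have h9 : 0 ≤ c * -((z.re - 1 / 2) * u.re + (z.im - c / 2) * u.im) := by
      have e : c * -((z.re - 1 / 2) * u.re + (z.im - c / 2) * u.im) =
          (u.im + c * u.re) * (1 - (z.re * (1 / 2) + z.im * (c / 2))) +
          (u.im - c * u.re) * (1 - ((z.re - 1) * -(1 / 2) + (z.im - 0) * (c / 2))) := by
        linear_combination (u.im / 2) * hc3
      rw [e]
      exact add_nonneg (mul_nonneg h6 (by linarith)) (mul_nonneg h7 (by linarith))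
    have h10 := nonneg_of_mul_nonneg_right h9 hc0
    linarith

/-- an interior point of `R2` -/
noncomputable def c0 : ℂ := ⟨1 / 2, 1 / 4⟩

theorem hom_re (θ : ℝ) (z : ℂ) :
    (AffineMap.homothety c0 (1 - θ) z).re = (1 - θ) * z.re + θ / 2 := by
  simp [AffineMap.homothety_apply, c0]; ring

theorem hom_im (θ : ℝ) (z : ℂ) :
    (AffineMap.homothety c0 (1 - θ) z).im = (1 - θ) * z.im + θ / 4 := by
  simp [AffineMap.homothety_apply, c0]; ring

theorem hom_eq (θ : ℝ) (z : ℂ) :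
    AffineMap.homothety c0 (1 - θ) z = (1 - θ) • z + θ • c0 := by
  apply Complex.ext
  · rw [hom_re]; simp [c0]; ring
  · rw [hom_im]; simp [c0]; ring

/-- a slightly smaller copy of `R2` lies in `K` -/
theorem inner_copy {K : Set ℂ} (hc : Convex ℝ K) (hcl : IsClosed K) {θ : ℝ} (h0 : 0 ≤ θ)
    (h1 : θ ≤ 1)
    (hs : ∀ u : ℂ, u.re ^ 2 + u.im ^ 2 = 1 → ∃ x ∈ K, ∀ z ∈ R2, dot z u ≤ dot x u + θ / 4)
    {z : ℂ} (hz : z ∈ R2) : AffineMap.homothety c0 (1 - θ) z ∈ K := by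
  by_contra hn
  obtain ⟨f, a, hf1, hf2⟩ := geometric_hahn_banach_point_closed hc hcl hn
  have hf : ∀ x : ℂ, f x = x.re * f 1 + x.im * f Complex.I := fun x => by
    have e : x = x.re • (1 : ℂ) + x.im • Complex.I := by
      apply Complex.ext <;> simp
    conv_lhs => rw [e]
    rw [map_add, map_smul, map_smul, smul_eq_mul, smul_eq_mul]
  obtain ⟨n, hn'⟩ : ∃ n, n = √(f 1 ^ 2 + f Complex.I ^ 2) := ⟨_, rfl⟩
  have hn2 : n ^ 2 = f 1 ^ 2 + f Complex.I ^ 2 := by rw [hn']; exact sq_sqrt (by positivity)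
  have hn0 : 0 < n := by
    rcases (hn' ▸ sqrt_nonneg _ : 0 ≤ n).eq_or_lt with h | h
    · exfalso
      obtain ⟨x, hx, -⟩ := hs 1 (by simp)
      have h2 := hf2 x hx
      have h3 : f 1 = 0 := by nlinarith [sq_nonneg (f 1), sq_nonneg (f Complex.I)]
      have h4 : f Complex.I = 0 := by nlinarith [sq_nonneg (f 1), sq_nonneg (f Complex.I)]
      rw [hf, h3, h4] at hf1 h2
      linarith
    · exact h
  obtain ⟨u, hur, hui⟩ : ∃ u : ℂ, u.re * n = -f 1 ∧ u.im * n = -f Complex.I :=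
    ⟨⟨-f 1 / n, -f Complex.I / n⟩, div_mul_cancel₀ _ hn0.ne', div_mul_cancel₀ _ hn0.ne'⟩
  have hu : u.re ^ 2 + u.im ^ 2 = 1 := by
    have : (u.re ^ 2 + u.im ^ 2 - 1) * n ^ 2 = 0 := by
      linear_combination (u.re * n - f 1) * hur + (u.im * n - f Complex.I) * hui - hn2
    rcases mul_eq_zero.1 this with h | h
    · linarith
    · exact absurd h (by positivity)
  obtain ⟨x, hx, h⟩ := hs u hu
  have b1 : u.re ≤ 1 := by nlinarith
  have b2 : u.im ≤ 1 := by nlinarith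
  have b3 : -1 ≤ u.re := by nlinarith
  have b4 : -1 ≤ u.im := by nlinarith
  have hw : (⟨1 / 2 + u.re / 4, 1 / 4 + u.im / 4⟩ : ℂ) ∈ R2 := by
    rw [mem_R2]
    refine ⟨?_, ?_, ?_⟩ <;> simp only <;> nlinarith
  have k1 := h z hz
  have k2 := h _ hw
  have k3 := hf2 x hx
  rw [hf, hom_re, hom_im] at hf1
  rw [hf] at k3
  simp only [dot] at k1 k2
  have k4 : ((1 - θ) * z.re + θ / 2) * u.re + ((1 - θ) * z.im + θ / 4) * u.im ≤
      x.re * u.re + x.im * u.im := by
    have m1 := mul_le_mul_of_nonneg_left k1 (sub_nonneg.2 h1)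
    have m2 := mul_le_mul_of_nonneg_left k2 h0
    have m3 : θ * (u.re ^ 2 + u.im ^ 2) = θ := by rw [hu, mul_one]
    nlinarith
  have k5 := mul_le_mul_of_nonneg_right k4 hn0.le
  have e1 : (((1 - θ) * z.re + θ / 2) * u.re + ((1 - θ) * z.im + θ / 4) * u.im) * n =
      -(((1 - θ) * z.re + θ / 2) * f 1 + ((1 - θ) * z.im + θ / 4) * f Complex.I) := by
    linear_combination ((1 - θ) * z.re + θ / 2) * hur + ((1 - θ) * z.im + θ / 4) * hui
  have e2 : (x.re * u.re + x.im * u.im) * n = -(x.re * f 1 + x.im * f Complex.I) := by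
    linear_combination x.re * hur + x.im * hui
  linarith

theorem isClosed_R2 : IsClosed R2 := by
  have h : R2 = Metric.closedBall 0 1 ∩ (Metric.closedBall 1 1 ∩ {z : ℂ | 0 ≤ z.im}) := by
    ext z; simp [R2, dist_eq_norm]
  rw [h]
  exact Metric.isClosed_closedBall.inter (Metric.isClosed_closedBall.inter
    (isClosed_le continuous_const Complex.continuous_im))

theorem area_bounds : 0 ≤ π / 3 - √3 / 4 ∧ π / 3 - √3 / 4 ≤ 1 := by
  constructor <;> linarith [pi_lo, pi_hi, r3_lo, r3_hi]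

/-- points of `K` are not far below the chord -/
theorem depth {K : Set ℂ} (hc : Convex ℝ K) {θ δ : ℝ} (h0 : 0 ≤ θ) (h1 : θ ≤ 1 / 2) (hδ : 0 ≤ δ)
    (hin : ∀ z ∈ R2, AffineMap.homothety c0 (1 - θ) z ∈ K)
    (hv : volume K ≤ ENNReal.ofReal (π / 3 - √3 / 4 + δ)) {x : ℂ} (hx : x ∈ K) :
    -x.im ≤ 4 * δ + 8 * θ := by
  by_contra hn
  have hx0 : x.im < 0 := by linarith [not_le.1 hn]
  obtain ⟨a0, a1⟩ := area_bounds
  have hθ : 0 < 1 - θ := by linarith
  have hpt : ∀ a : ℝ, 1 / 4 ≤ a → a ≤ 3 / 4 → (⟨a, θ / 4⟩ : ℂ) ∈ K := fun a b1 b2 => by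
    have hz : (⟨(a - θ / 2) / (1 - θ), 0⟩ : ℂ) ∈ R2 := by
      rw [mem_R2']
      refine ⟨⟨div_nonneg (by linarith) hθ.le, (div_le_one hθ).2 (by linarith)⟩, le_rfl,
        sqrt_nonneg _⟩
    have e : AffineMap.homothety c0 (1 - θ) (⟨(a - θ / 2) / (1 - θ), 0⟩ : ℂ) = ⟨a, θ / 4⟩ := by
      apply Complex.ext
      · rw [hom_re]; simp only; field_simp; ring
      · rw [hom_im]; simp
    exact e ▸ hin _ hz
  have hA := hpt (1 / 4) le_rfl (by norm_num)
  have hB := hpt (3 / 4) (by norm_num) le_rfl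
  set A : ℂ := ⟨1 / 4, θ / 4⟩ with hAe
  set B : ℂ := ⟨3 / 4, θ / 4⟩ with hBe
  have hcr : cross (x - A) (B - A) = (θ / 4 - x.im) / 2 := by
    simp only [cross, Complex.sub_re, Complex.sub_im, hAe, hBe]; ring
  have hT : PolyAux.tri A (x - A) (B - A) ⊆ K := fun z hz => by
    obtain ⟨s, t, s0, t0, st, e⟩ := PolyAux.mem_tri hz
    have e1 : z = (1 - s - t) • A + (s + t) • ((s / (s + t)) • x + (t / (s + t)) • B) := by
      have hst : s + t ≠ 0 := by positivity
      rw [smul_add, smul_smul, smul_smul, mul_div_cancel₀ _ hst, mul_div_cancel₀ _ hst,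
        sub_eq_iff_eq_add.1 e]
      module
    rw [e1]
    exact hc hA (hc hx hB (by positivity) (by positivity) (by field_simp)) (by linarith)
      (by positivity) (by ring)
  have hdis : Disjoint (AffineMap.homothety c0 (1 - θ) '' R2) (PolyAux.tri A (x - A) (B - A)) := by
    rw [Set.disjoint_left]
    rintro _ ⟨z, hz, rfl⟩ h
    obtain ⟨s, t, s0, -, -, e⟩ := PolyAux.mem_tri h
    have e1 := congrArg Complex.im e
    simp only [Complex.sub_im, Complex.add_im, Complex.smul_im, hom_im, hAe, hBe,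
      smul_eq_mul] at e1
    have b1 := mul_nonneg hθ.le hz.2.2
    have b2 : 0 < s * (θ / 4 - x.im) := mul_pos s0 (by linarith)
    linarith
  have hm := measure_mono (μ := volume) (Set.union_subset
    (Set.image_subset_iff.2 fun z hz => hin z hz) hT)
  rw [measure_union₀ (PolyAux.null_tri _ _ _) hdis.aedisjoint, Measure.addHaar_image_homothety,
    volume_R2, PolyAux.volume_tri _ _ _ (by rw [hcr]; linarith), hcr, Complex.finrank_real_complex,
    abs_of_nonneg (by positivity), ← ENNReal.ofReal_mul (by positivity),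
    ← ENNReal.ofReal_add (by positivity) (by linarith)] at hm
  have h2 := (ENNReal.ofReal_le_ofReal_iff (by linarith)).1 (hm.trans hv)
  have h3 : θ * (π / 3 - √3 / 4) ≤ θ := mul_le_of_le_one_right h0 a1
  have h4 : 0 ≤ θ ^ 2 * (π / 3 - √3 / 4) := by positivity
  nlinarith [not_le.1 hn]

theorem norm_c0 : ‖c0‖ ≤ 3 / 5 ∧ ‖c0 - 1‖ ≤ 3 / 5 := by
  constructor <;> refine (abs_le_of_sq_le_sq' ?_ (by norm_num)).2 <;> rw [normSq_eq] <;>
    norm_num [c0]

theorem dist_hom (θ : ℝ) (h0 : 0 ≤ θ) (z : ℂ) (hz : ‖z - 1‖ ≤ 1) :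
    dist z (AffineMap.homothety c0 (1 - θ) z) ≤ 2 * θ := by
  have e : z - AffineMap.homothety c0 (1 - θ) z = θ • ((z - 1) - (c0 - 1)) := by
    rw [hom_eq]; module
  rw [dist_eq_norm, e, norm_smul, Real.norm_of_nonneg h0, mul_comm]
  refine mul_le_mul_of_nonneg_right ((norm_sub_le _ _).trans ?_) h0
  linarith [norm_c0.2]

/-- the geometric stability estimate -/
theorem geo {K : Set ℂ} (hc : Convex ℝ K) (hcl : IsClosed K)
    (hd : ∀ z ∈ K, ∀ w ∈ K, ‖z - w‖ ≤ 1) {η δ : ℝ} (hη1 : η ≤ 1 / 16) (hδ : 0 ≤ δ)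
    (h1 : (1 : ℂ) ∈ K) (hω : U (π / 3) ∈ K) {q : ℂ} (hq : q ∈ K) (hqη : ‖q‖ ≤ η)
    (hdir : ∀ s, -(π / 3) ≤ s → s ≤ π / 3 →
      ∃ s' X, X ∈ K ∧ X - U s' ∈ K ∧ 1 - η ≤ cos (s' - s))
    (hv : volume K ≤ ENNReal.ofReal (π / 3 - √3 / 4 + δ)) :
    Metric.hausdorffDist K R2 ≤ 32 * δ + 518 * η := by
  have hη : 0 ≤ η := (norm_nonneg q).trans hqη
  have hin : ∀ z ∈ R2, AffineMap.homothety c0 (1 - 8 * η) z ∈ K := fun z hz =>
    inner_copy hc hcl (by linarith) (by linarith) (fun u hu => by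
      obtain ⟨x, hx, h⟩ := supp hd h1 hω hq hqη hdir u hu
      exact ⟨x, hx, fun z hz => by linarith [h z hz]⟩) hz
  refine Metric.hausdorffDist_le_of_mem_dist (by linarith) (fun x hx => ?_) (fun z hz => ?_)
  · have h2 := depth hc (by linarith) (by linarith) hδ hin hv hx
    obtain ⟨θ, hθ⟩ : ∃ θ, θ = 16 * δ + 259 * η := ⟨_, rfl⟩
    have hθ0 : 0 ≤ θ := by linarith
    have hx1 := hd _ hx _ h1
    rcases le_total θ 1 with h3 | h3
    · refine ⟨_, ⟨?_, ?_, ?_⟩, (dist_hom θ hθ0 x hx1).trans (by linarith)⟩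
      · have h4 : ‖x‖ ≤ 1 + η := by
          have := norm_add_le (x - q) q
          rw [sub_add_cancel] at this
          linarith [hd _ hx _ hq]
        rw [hom_eq]
        refine (norm_add_le _ _).trans ?_
        rw [norm_smul, norm_smul, Real.norm_of_nonneg hθ0, Real.norm_of_nonneg (sub_nonneg.2 h3)]
        have m1 := mul_le_mul_of_nonneg_left h4 (sub_nonneg.2 h3)
        have m2 := mul_le_mul_of_nonneg_left norm_c0.1 hθ0
        nlinarith [mul_nonneg hθ0 hη]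
      · have e : AffineMap.homothety c0 (1 - θ) x - 1 = (1 - θ) • (x - 1) + θ • (c0 - 1) := by
          rw [hom_eq]; module
        rw [e]
        refine (norm_add_le _ _).trans ?_
        rw [norm_smul, norm_smul, Real.norm_of_nonneg hθ0, Real.norm_of_nonneg (sub_nonneg.2 h3)]
        have m1 := mul_le_mul_of_nonneg_left hx1 (sub_nonneg.2 h3)
        have m2 := mul_le_mul_of_nonneg_left norm_c0.2 hθ0
        linarith
      · rw [hom_im]
        have m1 := mul_le_mul_of_nonneg_left h2 (sub_nonneg.2 h3)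
        have m2 : 0 ≤ θ * (4 * δ + 8 * (8 * η)) := by positivity
        nlinarith
    · exact ⟨1, by simp [R2], by rw [dist_eq_norm]; linarith⟩
  · exact ⟨_, hin z hz, (dist_hom _ (by linarith) z hz.2.1).trans (by linarith)⟩

end Stab

end Pool.Agent.P.MP_4c4e6e_co
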