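import Pool.Agent.P.MP_4c4e6e_co.StNum

/-! The lower bounds of the three cases with a margin. -/

namespace Pool.Agent.P.MP_4c4e6e_co

open Real Finset MeasureTheory

theorem lower_zero' (D : Dia) (N : ℕ) (θ : ℕ → ℝ) (h : D.IsPart N θ)
    (hs : ∀ k ≤ N, θ (k + 1) - θ k ≤ 1 / 2) :
    π / 3 - √3 / 4 + 1 / 100 ≤ D.Sh N θ := by
  have hpi := pi_gt_d2
  obtain ⟨lam, t, hl⟩ := h.lens fun k hk => by linarith [hs k hk]
  refine le_trans ?_ (area_one D N θ h lam t hl)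
  have h1 : ∑ k ∈ range (N + 1), loss (θ (k + 1) - θ k) (lam k) (t k) (mh (θ (k + 1) - θ k))
      ≤ ∑ k ∈ range (N + 1), 1 / 48 * (θ (k + 1) - θ k) := by
    refine sum_le_sum fun k hk => ?_
    have hk' : k ≤ N := by simpa [Nat.lt_succ_iff] using hk
    have h2 := sub_pos.2 (h.2.2.1 k hk')
    have h3 := hs k hk'
    obtain ⟨a1, a2, a3, -⟩ := hl k hk'
    refine (cell_triv h2.le (by linarith) a1 a2 a3 (mh_nonneg h2.le)).trans ?_
    have h4 : (θ (k + 1) - θ k) ^ 2 ≤ 1 / 4 := by nlinarith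
    nlinarith
  rw [← mul_sum, sum_range_sub, h.1, h.2.1] at h1
  have h5 : √3 ≤ 1.7321 := by
    rw [sqrt_le_iff]; norm_num
  linarith

theorem lower_one' (C : Cfg) (hL : 6 / 25 ≤ C.L)
    (hg : ∀ p ∈ C.I, ∀ q ∈ C.I, C.IsGap p q →
      q - p ≤ 113 / 100 ∧ C.dX p q ≤ C.L ∧ C.dY p q ≤ C.L) {lam₀ t₀ μ S cf : ℝ}
    (h0 : C.IsLens C.T π lam₀ t₀) (hS0 : 0 ≤ S) (hSL : S ≤ C.L)
    (hS : S = C.L ∨ (69 / 100 ≤ C.L ∧
      (1 - C.L) * min (31 / 20) (5 / 4 + 3 / 2 * (1 - C.L)) ≤ S ^ 2))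
    (hcf : 146 / 125 ≤ cf ∨ 101 / 100 + 11 / 20 * S ^ 2 ≤ cf)
    (hnum : loss (2 * ((π - C.T) / 2)) lam₀ |t₀| (mh (2 * ((π - C.T) / 2))) +
      cf * (S ^ 2 * (π - 2 * ((π - C.T) / 2) - 12 * S / 7)) / 12 + μ ≤ π / 6 - √3 / 4)
    {ε : ℝ} (hε : 0 < ε) :
    ∃ N θ, C.IsPart N θ ∧ π / 3 - √3 / 4 + μ - ε ≤ C.Sh N θ := by
  have hcf0 : 0 ≤ cf := by
    rcases hcf with h | h
    · linarith
    · nlinarith [sq_nonneg S]
  obtain ⟨e, he0, heL, he⟩ := exists_mesh (a := C.L) (c := (cf + 1) * π / 12) (by linarith)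
    (by positivity) hε
  obtain ⟨N, θ, hF⟩ := C.exists_fine he0
  obtain ⟨lam, t, hlN, htN, hlens⟩ := hF.lens h0
  refine ⟨N, θ, hF.1, le_trans ?_ (area_one C.toDia N θ hF.1 lam t hlens)⟩
  obtain ⟨x, hx⟩ : ∃ x : ℕ → ℝ, ∀ k, x k = C.dX (θ k) (θ (k + 1)) := ⟨_, fun _ => rfl⟩
  obtain ⟨y, hy⟩ : ∃ y : ℕ → ℝ, ∀ k, y k = C.dY (θ k) (θ (k + 1)) := ⟨_, fun _ => rfl⟩
  have hx0 : ∀ k, 0 ≤ x k := fun k => by rw [hx]; exact norm_nonneg _
  have hy0 : ∀ k, 0 ≤ y k := fun k => by rw [hy]; exact norm_nonneg _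
  -- chords of gaps are at most `S`
  have hcap : ∀ k < N, C.IsGap (θ k) (θ (k + 1)) → x k ≤ S ∧ y k ≤ S := fun k hk hgap => by
    have hp := hF.comb_mem hk.le
    have hq := hF.comb_mem (Nat.succ_le_of_lt hk)
    rw [hx, hy]
    rcases hS with h | ⟨h1, h2⟩
    · rw [h]; exact (hg _ hp _ hq hgap).2
    · exact ⟨(abs_le_of_sq_le_sq' ((C.capX h1 hp hq hgap).trans h2) hS0).2,
        (abs_le_of_sq_le_sq' ((C.capY h1 hp hq hgap).trans h2) hS0).2⟩
  -- the loss of one cell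
  have hcell : ∀ k ∈ range N, 12 * loss (θ (k + 1) - θ k) (lam k) (t k) (mh (θ (k + 1) - θ k))
      ≤ e ^ 2 * (θ (k + 1) - θ k) + cf * (x k ^ 3 + y k ^ 3) := fun k hk => by
    have hk' : k < N := mem_range.1 hk
    have hp := hF.comb_mem hk'.le
    have hq := hF.comb_mem (Nat.succ_le_of_lt hk')
    have hd : 0 ≤ θ (k + 1) - θ k := sub_nonneg.2 (hF.comb_mono (Nat.le_succ k) hk')
    have hdπ : θ (k + 1) - θ k ≤ π := by linarith [hp.2.1, hq.2.2, C.T_lt]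
    have hle := hlens k hk'.le
    have hxk := hx0 k
    have hyk := hy0 k
    rcases hF.2.2 k hk' with h | h
    · have h1 := cell_triv hd hdπ hle.1 hle.2.1 hle.2.2.1 (mh_nonneg hd)
      have h2 : (θ (k + 1) - θ k) ^ 2 ≤ e ^ 2 := pow_le_pow_left₀ hd h 2
      have h3 : 0 ≤ cf * (x k ^ 3 + y k ^ 3) := by positivity
      nlinarith
    · have hd1 := (hg _ hp _ hq h).1
      have h1 := cell_one hd hd1 hle.1 hle.2.1 hle.2.2.1
      have h2 := cube_ge C.toDia hp.1 hq.1 (by linarith) (by linarith) hle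
      obtain ⟨be, -, -, h3, h4⟩ := lens_ge C.toDia hp.1 hq.1 (by linarith) hle
      rw [← hx, ← hy] at h2
      rw [← hx] at h3
      rw [← hy] at h4
      have hs0 : 0 ≤ sin ((θ (k + 1) - θ k) / 2) :=
        sin_nonneg_of_nonneg_of_le_pi (by linarith) (by linarith [pi_pos])
      have h5 : 101 / 100 + 11 / 20 * sin ((θ (k + 1) - θ k) / 2) ^ 2 ≤ cf := by
        rcases hcf with h6 | h6
        · have := pow_le_pow_left₀ hs0 (sin_half_le hd hd1) 2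
          linarith
        · have h7 : sin ((θ (k + 1) - θ k) / 2) ≤ S := by linarith [hcap k hk' h]
          have := pow_le_pow_left₀ hs0 h7 2
          linarith
      have h6 := mul_le_mul h5 h2 (by positivity) hcf0
      have h7 : 0 ≤ e ^ 2 * (θ (k + 1) - θ k) := by positivity
      linarith
  have hsum := sum_le_sum hcell
  rw [← mul_sum, sum_add_distrib, ← mul_sum, ← mul_sum, sum_add_distrib, hF.sum_len] at hsum
  obtain ⟨b1, b2, b3⟩ := C.len_bounds hF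
  simp only [← hx, ← hy] at b1 b2 b3
  have cX : ∑ k ∈ (range N).filter (fun k => e < x k), x k ^ 3
      ≤ S ^ 2 * (∑ k ∈ range N, x k - 6 * S / 7) := by
    have hb : ∀ k ∈ (range N).filter (fun k => e < x k), x k ≤ S := fun k hk => by
      obtain ⟨h1, h2⟩ := mem_filter.1 hk
      exact (hcap k (mem_range.1 h1) (hF.gap_of_lt (mem_range.1 h1) (Or.inl (hx k ▸ h2)))).1
    refine cubes_cap _ x (fun k _ => hx0 k) _ S hS0 (by linarith [C.lemA.1]) hb fun k hk => ?_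
    have h1 := C.stretchX hF he0 heL x hx k hk
    rwa [min_eq_left ((hb k hk).trans hSL)] at h1
  have cY : ∑ k ∈ (range N).filter (fun k => e < y k), y k ^ 3
      ≤ S ^ 2 * (∑ k ∈ range N, y k - 6 * S / 7) := by
    have hb : ∀ k ∈ (range N).filter (fun k => e < y k), y k ≤ S := fun k hk => by
      obtain ⟨h1, h2⟩ := mem_filter.1 hk
      exact (hcap k (mem_range.1 h1) (hF.gap_of_lt (mem_range.1 h1) (Or.inr (hy k ▸ h2)))).2
    refine cubes_cap _ y (fun k _ => hy0 k) _ S hS0 (by linarith [C.lemA.2]) hb fun k hk => ?_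
    have h1 := C.stretchY hF he0 heL y hy k hk
    rwa [min_eq_left ((hb k hk).trans hSL)] at h1
  have sX := cubes_split (range N) x (fun k _ => hx0 k) e
  have sY := cubes_split (range N) y (fun k _ => hy0 k) e
  have hTπ := C.T_lt.le
  have k1 : ∑ k ∈ range N, x k ^ 3 + ∑ k ∈ range N, y k ^ 3
      ≤ S ^ 2 * (C.T - 12 * S / 7) + e ^ 2 * π := by
    have h1 := mul_le_mul_of_nonneg_left b3 (sq_nonneg S)
    have h2 := mul_le_mul_of_nonneg_left (b3.trans hTπ) (sq_nonneg e)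
    linarith
  have k2 := mul_le_mul_of_nonneg_left k1 hcf0
  have k3 := mul_le_mul_of_nonneg_left hTπ (sq_nonneg e)
  have e1 : 2 * ((π - C.T) / 2) = π - C.T := by ring
  have e2 : loss (π - C.T) lam₀ |t₀| (mh (π - C.T)) = loss (π - C.T) lam₀ t₀ (mh (π - C.T)) := by
    simp only [loss, cos_abs]
  rw [e1, e2, sub_sub_cancel] at hnum
  rw [sum_range_succ, hlN, htN, hF.1.2.1, hF.2.1]
  linarith

theorem lower_two' (C : Cfg) (hl : C.l ≤ C.L) (hT : 113 / 100 ≤ π - C.T)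
    (hg : ∀ p ∈ C.I, ∀ q ∈ C.I, C.IsGap p q → q - p ≤ π - C.T) {ε : ℝ} (hε : 0 < ε) :
    ∃ N θ, C.IsPart N θ ∧
      π / 3 - √3 / 4 + (√3 - 173205080756 / 100000000000) / 4 - ε ≤ C.Sh N θ := by
  have hT' : π - C.T < 747 / 500 := lt_of_not_ge fun h => C.kill hl h
  have hπ0 := Real.pi_gt_d2
  have hπ1 := Real.pi_lt_d2
  obtain ⟨e, he0, he1, he2⟩ : ∃ e : ℝ, 0 < e ∧ e ≤ 1 / 4 ∧ e ≤ ε :=
    ⟨min (1 / 4) ε, lt_min (by norm_num) hε, min_le_left _ _, min_le_right _ _⟩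
  obtain ⟨N, θ, hF⟩ := C.exists_fine he0
  have hP := hF.1
  have hN := hF.2.1
  have hI : ∀ k ≤ N, θ k ∈ C.I := fun k hk => hF.comb_mem hk
  have hlt : ∀ k < N, θ k < θ (k + 1) := fun k hk => hP.2.2.1 k hk.le
  have hlen : ∀ k < N, θ (k + 1) - θ k ≤ π - C.T := by
    intro k hk
    rcases hF.2.2 k hk with h | h
    · linarith
    · exact hg _ (hI k hk.le) _ (hI (k + 1) hk) h
  have hex : ∀ k, ∃ lam t, k ≤ N → C.IsLens (θ k) (θ (k + 1)) lam t := by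
    intro k
    by_cases hk : k ≤ N
    · obtain ⟨lam, t, h⟩ := C.exists_lens (hP.2.2.2 k (by omega)) (hP.2.2.2 (k + 1) (by omega))
        (hP.2.2.1 k hk) (by
          rcases hk.eq_or_lt with rfl | hk'
          · rw [hP.2.1, hN]; linarith
          · linarith [hlen k hk'])
      exact ⟨lam, t, fun _ => h⟩
    · exact ⟨0, 0, fun h => absurd h hk⟩
  choose lam t hlens using hex
  obtain ⟨sp, hsp, nu, hnu, harea⟩ :=
    area_two C.toDia N θ hP lam t hlens C.T hN (by linarith) (by linarith)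
  refine ⟨N, θ, hP, ?_⟩
  have hlN : C.IsLens C.T π (lam N) (t N) := by
    have := hlens N le_rfl
    rwa [hN, hP.2.1] at this
  obtain ⟨al, fa, fL, -, f1, f2⟩ := C.frame hlN hl
  obtain ⟨hl0, hl1, htN, -⟩ := hlN
  set h : ℝ := (π - C.T) / 2 with hh
  have hh0 : 113 / 200 ≤ h := by linarith
  have hh1 : h ≤ 747 / 1000 := by linarith
  have hsin : sin |t N| = |sin (t N)| := by
    rw [Real.abs_sin_eq_sin_abs_of_abs_le_pi (by linarith)]
  rw [← hsin] at fL f1 f2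
  rw [← Real.cos_abs (t N)] at fa harea
  have hsn : 0 ≤ sin |t N| := by rw [hsin]; exact abs_nonneg _
  set be : ℝ := lam N * sin |t N| with hbe
  have hbe0 : 0 ≤ be := mul_nonneg hl0 hsn
  have hL0 : 0 ≤ C.L := norm_nonneg _
  have hcos : 0 ≤ cos h := cos_nonneg_of_mem_Icc ⟨by linarith, by linarith⟩
  have hsh : 51 / 100 ≤ sin h := fin_sin hh0 hh1
  have hLs : sin h ≤ C.L := by linarith [fin_le_of_sq hL0 fL]
  obtain ⟨hA1, hA2⟩ := C.lemA
  obtain ⟨hA, hLe, hLd, hdd1, hdd2⟩ := fin_frame hcos hL0 hA1 hA2 fL f1 f2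
  obtain ⟨d, hd⟩ : ∃ d : ℝ, d = √(be ^ 2 + (cos h - |al|) ^ 2) := ⟨_, rfl⟩
  rw [← hd] at hLd hdd1 hdd2
  have hL1 : C.L ≤ 1 := C.dist_le _ C.zero_mem _ (C.add_pi _ C.T_mem)
  obtain ⟨G, hG⟩ : ∃ G : ℝ, G = 12 * (C.T / 2 + lam N * sin C.T / 2 +
      lam N ^ 2 * (cos (C.T / 2) * (cos |t N| - sin (C.T / 2))) - AH C.T (lam N) sp -
      (π / 3 - √3 / 4 + (√3 - 173205080756 / 100000000000) / 4)) := ⟨_, rfl⟩
  obtain ⟨n1, n2⟩ := num_two' h (lam N) |t N| sp |al| be C.L d C.T G hh0 hh1 hl0 hl1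
    (abs_nonneg _) htN hsp.1 hsp.2 fa rfl hA hLe hL1 hd (by linarith) hG
  obtain ⟨x, hx⟩ : ∃ x : ℕ → ℝ, ∀ k, x k = C.dX (θ k) (θ (k + 1)) := ⟨_, fun _ => rfl⟩
  obtain ⟨y, hy⟩ : ∃ y : ℕ → ℝ, ∀ k, y k = C.dY (θ k) (θ (k + 1)) := ⟨_, fun _ => rfl⟩
  obtain ⟨ls, hls⟩ : ∃ ls : ℕ → ℝ, ∀ k,
      ls k = 12 * loss (θ (k + 1) - θ k) (lam k) (t k) (nu k) := ⟨_, fun _ => rfl⟩
  obtain ⟨sg, hsg⟩ : ∃ sg : ℕ → ℝ, ∀ k, sg k = sin ((θ (k + 1) - θ k) / 2) := ⟨_, fun _ => rfl⟩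
  obtain ⟨b, hb⟩ : ∃ b : ℕ → ℝ, ∀ k, b k = lam k * |sin (t k)| := ⟨_, fun _ => rfl⟩
  have hx0 : ∀ k, 0 ≤ x k := fun k => by rw [hx]; exact norm_nonneg _
  have hy0 : ∀ k, 0 ≤ y k := fun k => by rw [hy]; exact norm_nonneg _
  have sx : FinStr N x e C.L := C.stretchX hF he0 (by linarith) x hx
  have sy : FinStr N y e C.L := C.stretchY hF he0 (by linarith) y hy
  obtain ⟨b1, b2, b3⟩ := C.len_bounds hF
  simp only [← hx, ← hy] at b1 b2 b3
  have hΘ : ∀ k ≤ N, θ k ∈ C.Θ := fun k hk => (hI k hk).1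
  have hxy : ∀ k < N, 2 * sg k ≤ x k + y k ∧ 3 * sg k - b k ≤ x k + 2 * y k ∧
      3 * sg k - b k ≤ y k + 2 * x k := by
    intro k hk
    obtain ⟨a', b', -, q2, q3, q4, -⟩ := C.lens_sq (hΘ k hk.le) (hΘ (k + 1) hk)
      (by linarith [hlen k hk]) (hlens k hk.le)
    rw [← hx, ← hsg] at q3
    rw [← hy, ← hsg] at q4
    rw [← hb] at q2
    have r1 := fin_le_of_sq (hx0 k) q3
    have r2 := fin_le_of_sq (hy0 k) q4
    have r3 := le_abs_self b'
    have r4 := neg_le_abs b'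
    exact ⟨by linarith, by linarith, by linarith⟩
  have hcube : ∀ k < N, 2 * sin ((θ (k + 1) - θ k) / 2) ^ 3 +
      6 * sin ((θ (k + 1) - θ k) / 2) * (lam k * sin (t k)) ^ 2 ≤ x k ^ 3 + y k ^ 3 := by
    intro k hk
    rw [hx, hy]
    exact cube_ge C.toDia (hΘ k hk.le) (hΘ (k + 1) hk) (hlt k hk).le
      (by linarith [hlen k hk]) (hlens k hk.le)
  have c1 : ∀ k < N, 2 * sg k ≤ C.T / 2 → ls k ≤ 61 / 50 * (x k ^ 3 + y k ^ 3) := by
    intro k hk hs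
    obtain ⟨p1, p2, p3, -⟩ := hlens k hk.le
    rw [hsg] at hs
    have := cell_two (w := C.T / 2) (by linarith) (by linarith) (by linarith [hlt k hk])
      (by linarith [hlen k hk]) p1 p2 p3 (hnu k hk) hs
    rw [hls]
    linarith [hcube k hk]
  have c2 : ∀ k < N, C.T / 2 ≤ 2 * sg k → 3 * sg k + cos (C.T / 2) - C.T ≤ b k →
      ls k ≤ 133 / 100 * (x k ^ 3 + y k ^ 3) := by
    intro k hk hs hv
    obtain ⟨p1, p2, p3, -⟩ := hlens k hk.le
    rw [hsg] at hs hv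
    rw [hb] at hv
    have := cell_big (w := C.T / 2) (by linarith) (by linarith) (by linarith [hlt k hk])
      (by linarith [hlen k hk]) p1 p2 p3 (hnu k hk) hs (by linarith)
    rw [hls]
    linarith [hcube k hk]
  have hc : cos (C.T / 2) ≤ C.L := by
    have : C.T / 2 = π / 2 - h := by rw [hh]; ring
    rw [this, cos_pi_div_two_sub]
    exact hLs
  have herr : e ^ 2 * C.T ≤ ε := by
    have a1 : e * e ≤ 1 / 4 * ε := mul_le_mul he1 he2 he0.le (by norm_num)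
    have a2 : e ^ 2 * C.T ≤ e ^ 2 * 4 := mul_le_mul_of_nonneg_left (by linarith) (sq_nonneg e)
    nlinarith
  have hsum : ∑ k ∈ range N, ls k =
      12 * ∑ k ∈ range N, loss (θ (k + 1) - θ k) (lam k) (t k) (nu k) := by
    rw [mul_sum]
    exact sum_congr rfl fun k _ => hls k
  suffices key : ∑ k ∈ range N, ls k ≤ G + 133 / 100 * (e ^ 2 * C.T) by linarith
  by_cases hbx : ∃ k < N, C.L < x k
  · obtain ⟨r1, r2⟩ := fin_caseA hx0 hy0 sx sy he0.le (by linarith) hLd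
      (hdd2.trans b2) b3 (by linarith) hc (fun k hk => (hxy k hk).1)
      (fun k hk => (hxy k hk).2.1) c1 c2 hbx
    linarith [n1 r1]
  by_cases hby : ∃ k < N, C.L < y k
  · obtain ⟨r1, r2⟩ := fin_caseA (ls := ls) (sg := sg) (b := b) (T := C.T) hy0 hx0 sy sx he0.le
      (by linarith) hLd (hdd1.trans b1) (by linarith) (by linarith) hc
      (fun k hk => by linarith [(hxy k hk).1]) (fun k hk => (hxy k hk).2.2)
      (fun k hk hs => by linarith [c1 k hk hs]) (fun k hk hs hv => by linarith [c2 k hk hs hv])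
      hby
    linarith [n1 r1]
  push Not at hbx hby
  have r1 := fin_caseB hx0 hy0 sx sy (by linarith) (by linarith) b3 (fun k hk => (hxy k hk).1)
    c1 hbx hby
  have r2 : e ^ 2 * (∑ k ∈ range N, x k + ∑ k ∈ range N, y k) ≤ e ^ 2 * C.T :=
    mul_le_mul_of_nonneg_left b3 (sq_nonneg e)
  have r3 : 0 ≤ e ^ 2 * C.T := mul_nonneg (sq_nonneg e) C.T_nonneg
  rcases n2 with n2 | ⟨S, hS0, hSL, h69, hcap, n2⟩
  · have s1 := fin_cubes_half hx0 sx hbx
    have s2 := fin_cubes_half hy0 sy hby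
    have s3 := fin_two_cubes (by linarith) (hdd1.trans b1) (hdd2.trans b2) b3
    linarith
  · have hgap : ∀ k < N, e < x k ∨ e < y k → C.IsGap (θ k) (θ (k + 1)) := by
      intro k hk hor
      refine (hF.2.2 k hk).resolve_left fun hs => ?_
      have := C.comb_len (hI k hk.le) (hI (k + 1) hk) (hlt k hk).le
      rw [← hx, ← hy] at this
      rcases hor with h' | h' <;> linarith [hx0 k, hy0 k]
    have s1 := fin_cubes_cap hx0 sx hbx hS0 (by linarith) (fun k hk h' => by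
      have := C.capX h69 (hI k hk.le) (hI (k + 1) hk) (hgap k hk (Or.inl h'))
      rw [← hx] at this
      exact (abs_le_of_sq_le_sq' (this.trans hcap) hS0).2)
    have s2 := fin_cubes_cap hy0 sy hby hS0 (by linarith) (fun k hk h' => by
      have := C.capY h69 (hI k hk.le) (hI (k + 1) hk) (hgap k hk (Or.inr h'))
      rw [← hy] at this
      exact (abs_le_of_sq_le_sq' (this.trans hcap) hS0).2)
    have s3 : S ^ 2 * (∑ k ∈ range N, x k + ∑ k ∈ range N, y k) ≤ S ^ 2 * C.T :=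
      mul_le_mul_of_nonneg_left b3 (sq_nonneg S)
    linarith

/-- The area of a universal convex set of diameter one dominates all polygons of a system of
diameters. -/
theorem exists_dia' (S : Set ℂ) (hc : Convex ℝ S) (hd : Metric.diam S = 1) (hu : Universal S) :
    ∃ D : Dia, (∀ t ∈ D.Θ, D.γ t ∈ closure S) ∧
      ∀ (N : ℕ) (θ : ℕ → ℝ) (q : ℝ), (∀ k ≤ N + 1, q + θ k ∈ D.Θ) → θ 0 = 0 → θ (N + 1) = π →
      (∀ k ≤ N, θ k < θ (k + 1)) →
      ENNReal.ofReal (∑ k ∈ range (N + 1), (cross (D.γ (q + θ k)) (D.γ (q + θ (k + 1))) +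
        cross (D.γ (q + θ k + π)) (D.γ (q + θ (k + 1) + π))) / 2) ≤ volume S := by
  have hb : Bornology.IsBounded S := by
    by_contra h
    rw [Metric.diam_eq_zero_of_unbounded h] at hd
    exact zero_ne_one hd
  have hK : IsCompact (closure S) := hb.isCompact_closure
  have hdK : ∀ z ∈ closure S, ∀ w ∈ closure S, ‖z - w‖ ≤ 1 := fun z hz w hw => by
    rw [← dist_eq_norm, ← hd, ← Metric.diam_closure]
    exact Metric.dist_le_diam_of_mem hb.closure hz hw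
  obtain ⟨D, hD⟩ := Red.dia_of hu subset_closure hK hdK
  refine ⟨D, hD, fun N θ q hθ h0 hN hm => ?_⟩
  rw [← measure_closure_of_null_frontier (hc.addHaar_frontier volume),
    ← Red.volume_rot q isClosed_closure.measurableSet]
  have hU : ∀ z : ℂ, U q * (U (-q) * z) = z := fun z => by
    rw [← mul_assoc, Red.U_mul, add_neg_cancel, Red.U_zero, one_mul]
  have hq : q ∈ D.Θ := by simpa [h0] using hθ 0 (by omega)
  have := poly_le_volume ((fun z => U q * z) ⁻¹' closure S)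
    (hc.closure.is_linear_preimage (f := fun z : ℂ => U q * z)
      ⟨fun x y => mul_add _ _ _, fun c x => mul_smul_comm _ _ _⟩)
    (fun z hz w hw => by rw [← Red.norm_rot q]; exact hdK _ hz _ hw) N θ
    (fun k => U (-q) * D.γ (q + θ k)) (fun k => U (-q) * D.γ (q + θ k + π)) h0 hN hm
    (fun k hk => by
      show U q * _ ∈ closure S
      rw [hU]; exact hD _ (hθ k hk))
    (fun k hk => by
      show U q * _ ∈ closure S
      rw [hU]; exact hD _ (D.add_pi _ (hθ k hk)))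
    (fun k hk => by
      rw [D.anti _ (hθ k hk), ← mul_sub, sub_sub_cancel, Red.U_mul, neg_add_cancel_left])
    (by rw [hN, h0, add_zero]) (by rw [hN, h0, add_zero, D.per hq])
  simpa only [Red.cross_rot] using this

/-- The three possibilities for the gaps. `Q` is any property of all polygon areas. -/
theorem choose_gap' (D : Dia) (Q : ℝ → Prop)
    (hQ : ∀ (N : ℕ) (θ : ℕ → ℝ) (q : ℝ), (∀ k ≤ N + 1, q + θ k ∈ D.Θ) → θ 0 = 0 → θ (N + 1) = π →
      (∀ k ≤ N, θ k < θ (k + 1)) →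
      Q (∑ k ∈ range (N + 1), (cross (D.γ (q + θ k)) (D.γ (q + θ (k + 1))) +
        cross (D.γ (q + θ k + π)) (D.γ (q + θ (k + 1) + π))) / 2)) :
    (∃ (D' : Dia) (N : ℕ) (θ : ℕ → ℝ), D'.IsPart N θ ∧ (∀ k ≤ N, θ (k + 1) - θ k ≤ 1 / 2) ∧
      Q (D'.Sh N θ)) ∨
    (∃ C : Cfg, (∀ N θ, C.IsPart N θ → Q (C.Sh N θ)) ∧ C.l ≤ C.L ∧ 6 / 25 ≤ C.L ∧
      π - C.T ≤ 113 / 100 ∧
      (∃ q, ∀ t ∈ C.Θ, q + t ∈ D.Θ ∧ C.γ t = U (-q) * D.γ (q + t)) ∧ ∀ p ∈ C.I, ∀ q ∈ C.I, C.IsGap p q →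
        q - p ≤ 113 / 100 ∧ C.dX p q ≤ C.L ∧ C.dY p q ≤ C.L) ∨
    (∃ C : Cfg, (∀ N θ, C.IsPart N θ → Q (C.Sh N θ)) ∧ C.l ≤ C.L ∧
      113 / 100 ≤ π - C.T ∧ ∀ p ∈ C.I, ∀ q ∈ C.I, C.IsGap p q → q - p ≤ π - C.T) := by
  have hQ' : ∀ (D' : Dia) (q : ℝ), (∀ t, t ∈ D'.Θ ↔ q + t ∈ D.Θ) →
      (∀ t, D'.γ t = U (-q) * D.γ (q + t)) → ∀ N θ, D'.IsPart N θ → Q (D'.Sh N θ) := by
    intro D' q h1 h2 N θ hp
    rw [Red.shift_Sh h2]
    exact hQ N θ q (fun k hk => (h1 _).1 (hp.2.2.2 k hk)) hp.1 hp.2.1 hp.2.2.1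
  by_cases c2 : ∃ p q, D.IsGap p q ∧ 113 / 100 ≤ q - p
  · right; right
    obtain ⟨p₀, q₀, g₀, l₀⟩ := c2
    obtain ⟨p₁, q₁, g₁, l₁, hm⟩ := Red.exists_max_gap D (η := 113 / 100) (by norm_num)
      (fun _ _ d => d) g₀ l₀
    obtain ⟨p, q, g, hl, hd⟩ : ∃ p q, D.IsGap p q ∧ q - p = q₁ - p₁ ∧ D.dY p q ≤ D.dX p q := by
      rcases le_total (D.dY p₁ q₁) (D.dX p₁ q₁) with h | h
      · exact ⟨p₁, q₁, g₁, rfl, h⟩
      · refine ⟨p₁ + π, q₁ + π, Red.gap_add D g₁, by ring, ?_⟩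
        simp only [Dia.dX, Dia.dY, D.per g₁.1, D.per g₁.2.1] at h ⊢
        exact h
    obtain ⟨C, hT, h1, h2, hL, hl'⟩ := Red.exists_cfg D g
    refine ⟨C, hQ' C.toDia q h1 h2, by rw [hL, hl']; exact hd, by rw [hT]; linarith,
      fun a _ b _ hab => ?_⟩
    rw [hT]
    have hg := Red.shift_gap h1 hab
    rcases le_total (113 / 100) (b - a) with h | h
    · have := hm _ _ hg (by linarith)
      linarith
    · linarith
  have c2' : ∀ p q, D.IsGap p q → q - p ≤ 113 / 100 := fun p q h => by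
    by_contra hc
    exact c2 ⟨p, q, h, (not_le.1 hc).le⟩
  by_cases c1 : ∃ p q, D.IsGap p q ∧ 1 / 2 ≤ q - p
  · right; left
    obtain ⟨p₀, q₀, g₀, l₀⟩ := c1
    obtain ⟨p, q, g, -, hm⟩ := Red.exists_max_gap D (η := 6 / 25) (by norm_num)
      (fun z w _ => ‖z - w‖) g₀ (by linarith)
    have hm' : ∀ a b, D.IsGap a b → 6 / 25 ≤ b - a → D.dX a b ≤ D.dX p q := hm
    have hL0 : 6 / 25 ≤ D.dX p q := by
      have a1 := hm' _ _ g₀ (by linarith)
      have a2 : D.dY p₀ q₀ ≤ D.dX p q := hm' _ _ (Red.gap_add D g₀) (by linarith)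
      linarith [Red.chords_ge D g₀ l₀]
    have hX : ∀ a b, D.IsGap a b → D.dX a b ≤ D.dX p q := fun a b hab => by
      rcases le_total (6 / 25) (b - a) with h | h
      · exact hm' a b hab h
      · have a1 := D.len_le hab.1 hab.2.1 hab.2.2.1.le (Red.gap_le D hab)
        have a2 : 0 ≤ D.dY a b := norm_nonneg _
        linarith
    have hY : ∀ a b, D.IsGap a b → D.dY a b ≤ D.dX p q := fun a b hab =>
      hX _ _ (Red.gap_add D hab)
    obtain ⟨C, hT, h1, h2, hL, hl'⟩ := Red.exists_cfg D g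
    refine ⟨C, hQ' C.toDia q h1 h2, by rw [hL, hl']; exact hY p q g, by rw [hL]; exact hL0,
      by rw [hT]; linarith [c2' p q g], ⟨q, fun t ht => ⟨(h1 t).1 ht, h2 t⟩⟩,
      fun a _ b _ hab => ?_⟩
    have hg := Red.shift_gap h1 hab
    have a1 := hX _ _ hg
    have a2 := hY _ _ hg
    rw [hL]
    refine ⟨by linarith [c2' _ _ hg], ?_, ?_⟩
    · simpa only [Dia.dX, h2, Red.norm_rot] using a1
    · simpa only [Dia.dX, Dia.dY, h2, Red.norm_rot, add_assoc] using a2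
  · left
    obtain ⟨t, ht, -⟩ := D.walk 0 (fun _ => 1) (fun i hi => absurd hi (Nat.not_lt_zero i))
    obtain ⟨D', h1, h2⟩ := D.exists_shift (t 0)
    have h0 : (0 : ℝ) ∈ D'.Θ := (h1 0).2 (by simpa using ht 0 le_rfl)
    have hπ : π ∈ D'.Θ := by simpa using D'.add_pi 0 h0
    obtain ⟨N, θ, a0, aN, am, aΘ, ag⟩ := exists_chain D'.Θ D'.closed h0 hπ pi_pos.le
      (ε := 1 / 2) (by norm_num)
    obtain ⟨N, rfl⟩ : ∃ M, N = M + 1 := by
      rcases N with _ | N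
      · rw [a0] at aN; exact absurd aN pi_pos.ne
      · exact ⟨N, rfl⟩
    have hp : D'.IsPart N θ := ⟨a0, aN, fun k hk => am k (by omega), aΘ⟩
    refine ⟨D', N, θ, hp, fun k hk => ?_, hQ' D' _ h1 h2 N θ hp⟩
    rcases ag k (by omega) with h | h
    · exact h
    · by_contra hc
      exact c1 ⟨_, _, Red.shift_gap h1 ⟨aΘ k (by omega), aΘ (k + 1) (by omega), am k (by omega), h⟩,
        by linarith [not_le.1 hc]⟩

end Pool.Agent.P.MP_4c4e6e_co
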