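import Pool.Agent.P.MP_4c4e6e_co.StLow
import Pool.Agent.P.MP_4c4e6e_co.StGeo

/-! Linear stability of the extremal case `R2`. -/

namespace Pool.Agent.P.MP_4c4e6e_co

open Real MeasureTheory Set

namespace Stab

theorem normSq_U_sub (p q : ℝ) : ‖U p - U q‖ ^ 2 = 2 - 2 * cos (q - p) := by
  rw [normSq_eq, cos_sub]
  simp only [Complex.sub_re, Complex.sub_im, U_re, U_im]
  linear_combination cos_sq_add_sin_sq p + cos_sq_add_sin_sq q

theorem norm_U_sub_le (p q : ℝ) : ‖U p - U q‖ ≤ |q - p| := by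
  refine (abs_le_of_sq_le_sq' ?_ (abs_nonneg _)).2
  rw [normSq_U_sub, sq_abs]
  linarith [one_sub_sq_div_two_le_cos (x := q - p)]

/-- if the long chord is almost a diameter, the directions of diameters are dense in `[0, T]` -/
theorem dirs (C : Cfg) (hL : 69 / 100 ≤ C.L) {η : ℝ} (hη : 31 / 10 * (1 - C.L) ≤ η) {t : ℝ}
    (h0 : 0 ≤ t) (h1 : t ≤ C.T) : ∃ t' ∈ C.Θ, 1 - η ≤ cos (t' - t) := by
  have hL1 := C.L_le_one
  by_cases ht : t ∈ C.Θ
  · exact ⟨t, ht, by rw [sub_self, cos_zero]; linarith⟩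
  have c1 : IsCompact (C.Θ ∩ Set.Icc 0 t) := isCompact_Icc.inter_left C.closed
  have c2 : IsCompact (C.Θ ∩ Set.Icc t C.T) := isCompact_Icc.inter_left C.closed
  obtain ⟨p, hp, hp'⟩ := c1.exists_isGreatest ⟨0, C.zero_mem, le_rfl, h0⟩
  obtain ⟨q, hq, hq'⟩ := c2.exists_isLeast ⟨C.T, C.T_mem, h1, le_rfl⟩
  have hpt : p < t := lt_of_le_of_ne hp.2.2 fun h => ht (h ▸ hp.1)
  have hg : C.IsGap p q := ⟨hp.1, hq.1, hpt.trans_le hq.2.1, by
    rintro s hs ⟨h3, h4⟩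
    rcases le_total s t with h5 | h5
    · exact absurd (hp' ⟨hs, hp.2.1.trans h3.le, h5⟩) (not_le.mpr h3)
    · exact absurd (hq' ⟨hs, h5, h4.le.trans hq.2.2⟩) (not_le.mpr h4)⟩
  have hpI : p ∈ C.I := ⟨hp.1, hp.2.1, hp.2.2.trans h1⟩
  have hqI : q ∈ C.I := ⟨hq.1, h0.trans hq.2.1, hq.2.2⟩
  have k0 := mul_le_mul_of_nonneg_left
    (min_le_left (31 / 20 : ℝ) (5 / 4 + 3 / 2 * (1 - C.L))) (sub_nonneg.2 hL1)
  have k1 := (C.capX hL hpI hqI hg).trans k0
  have k2 := (C.capY hL hpI hqI hg).trans k0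
  have e : U p - U q = (C.γ p - C.γ q) - (C.γ (p + π) - C.γ (q + π)) := by
    rw [C.anti p hp.1, C.anti q hq.1]; ring
  have k3 : ‖U p - U q‖ ≤ C.dX p q + C.dY p q := by
    rw [e]; exact norm_sub_le _ _
  have k4 := pow_le_pow_left₀ (norm_nonneg _) k3 2
  rw [normSq_U_sub] at k4
  have k5 : cos (q - p) ≤ cos (t - p) :=
    cos_le_cos_of_nonneg_of_le_pi (by linarith) (by linarith [hq.2.2, hp.2.1, C.T_lt])
      (by linarith [hq.2.1])
  refine ⟨p, hp.1, ?_⟩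
  rw [← cos_neg, neg_sub]
  nlinarith [sq_nonneg (C.dX p q - C.dY p q)]

/-- the two chords of the distinguished gap near the extremal configuration -/
theorem chords (C : Cfg) (hl : C.l ≤ C.L) {lam t r : ℝ} (h0 : C.IsLens C.T π lam t)
    (hr : r ≤ 1 / 176) (r1 : 1 - lam ≤ r) (r2 : (π - C.T) / 2 - |t| ≤ r)
    (r3 : |(π - C.T) / 2 - π / 6| ≤ r) : 1 - 7 / 2 * r ≤ C.L ∧ C.l ≤ 3 * r := by
  obtain ⟨al, hal, hL, hl', -, -⟩ := C.frame h0 hl
  obtain ⟨l0, l1, ht, -⟩ := h0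
  have hr0 : 0 ≤ r := (abs_nonneg _).trans r3
  have htπ : |t| ≤ π := by linarith [C.T_nonneg, pi_pos]
  rw [abs_sin_eq_sin_abs_of_abs_le_pi htπ] at hL hl'
  rw [← cos_abs t] at hal
  obtain ⟨h, hh⟩ : ∃ h, h = (π - C.T) / 2 := ⟨_, rfl⟩
  rw [← hh] at hal hL hl' ht r2 r3
  have a0 : abs (h - |t|) ≤ r := by rw [abs_of_nonneg (by linarith)]; exact r2
  have a1 := abs_le.1 ((abs_sin_sub_sin_le h (π / 6)).trans r3)
  have a2 := abs_le.1 ((abs_sin_sub_sin_le h |t|).trans a0)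
  have a3 := abs_le.1 ((abs_cos_sub_cos_le h |t|).trans a0)
  rw [sin_pi_div_six] at a1
  have s1 := sin_le_one |t|
  have s0 : 0 ≤ sin |t| := by linarith [a1.1, a2.2]
  have b1 : (1 - lam) * sin |t| ≤ r := (mul_le_of_le_one_right (by linarith) s1).trans r1
  have b1' : (1 - lam) * sin |t| ≤ r * sin |t| := mul_le_mul_of_nonneg_right r1 s0
  have b2 : 0 ≤ (1 - lam) * sin |t| := mul_nonneg (by linarith) s0
  constructor
  · have c1 := fin_le_of_sq C.L_nonneg hL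
    have c2 : 1 / 2 - 2 * r ≤ sin |t| := by linarith [a1.1, a2.2]
    have c3 := mul_le_mul_of_nonneg_left c2 (by linarith : (0 : ℝ) ≤ 1 - r)
    nlinarith [sq_nonneg r, a1.1]
  · have c1 : |al| ≤ r := by
      rw [hal]
      rcases le_total 0 (cos |t| - cos h) with c | c
      · exact (mul_le_of_le_one_left c l1).trans (by linarith [a3.1])
      · exact (mul_nonpos_of_nonneg_of_nonpos l0 c).trans hr0
    have c2 : al ^ 2 ≤ r ^ 2 := by
      rw [← sq_abs]; exact pow_le_pow_left₀ (abs_nonneg _) c1 2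
    have c3 : (sin h - lam * sin |t|) ^ 2 ≤ (2 * r) ^ 2 :=
      sq_le_sq' (by linarith [a2.1]) (by linarith [a2.2])
    exact (abs_le_of_sq_le_sq' (by nlinarith [sq_nonneg r]) (by linarith)).2

/-- the rigid motion `z ↦ c + U a * z` -/
noncomputable def motion (c : ℂ) (a : ℝ) : ℂ ≃ᵢ ℂ :=
  (rotation (⟨U a, by simpa [Submonoid.unitSphere] using norm_U a⟩ : Circle)).toIsometryEquiv.trans
    (IsometryEquiv.addLeft c)

theorem motion_apply (c : ℂ) (a : ℝ) (z : ℂ) : motion c a z = c + U a * z := rfl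

theorem close {K : Set ℂ} (hc : Convex ℝ K) (hcl : IsClosed K)
    (hd : ∀ z ∈ K, ∀ w ∈ K, ‖z - w‖ ≤ 1) (C : Cfg) {q : ℝ} (hK : ∀ t ∈ C.Θ, U q * C.γ t ∈ K)
    {r δ : ℝ} (hr : r ≤ 1 / 176) (hδ : 0 ≤ δ) (hL : 1 - 7 / 2 * r ≤ C.L) (hl : C.l ≤ 3 * r)
    (hT : |C.T - 2 * π / 3| ≤ 2 * r) (hv : volume K ≤ ENNReal.ofReal (π / 3 - √3 / 4 + δ)) :
    ∃ g : ℂ ≃ᵢ ℂ, Metric.hausdorffDist K (g '' R2) ≤ 32 * δ + 5698 * r := by
  have hr0 : 0 ≤ r := by linarith [abs_nonneg (C.T - 2 * π / 3)]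
  obtain ⟨Q, hQ⟩ : ∃ Q, Q = C.γ 0 - U (π / 3) := ⟨_, rfl⟩
  obtain ⟨g, hg⟩ : ∃ g, g = motion (U q * Q) (q + π / 3) := ⟨_, rfl⟩
  have hga : ∀ z, g z = U q * Q + U (q + π / 3) * z := fun z => by rw [hg]; rfl
  have hU : U (π / 3) * U (-(π / 3)) = 1 := by rw [Red.U_mul, add_neg_cancel, Red.U_zero]
  have hz : ∀ t ∈ C.Θ, U (-(π / 3)) * (C.γ t - Q) ∈ g ⁻¹' K := fun t ht => by
    have e : g (U (-(π / 3)) * (C.γ t - Q)) = U q * C.γ t := by
      rw [hga, ← Red.U_mul]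
      linear_combination (U q * (C.γ t - Q)) * hU
    rw [Set.mem_preimage, e]
    exact hK t ht
  have hπ : C.γ π = C.γ 0 - 1 := by
    have := C.anti 0 C.zero_mem
    rwa [zero_add, Red.U_zero] at this
  have h23 : U (2 * π / 3) = U (π / 3) - 1 := by
    rw [show 2 * π / 3 = π - π / 3 by ring]
    apply Complex.ext
    · simp only [U_re, Complex.sub_re, Complex.one_re, cos_pi_sub, cos_pi_div_three]; norm_num
    · simp only [U_im, Complex.sub_im, Complex.one_im, sin_pi_sub, sub_zero]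
  have hc' : Convex ℝ (g ⁻¹' K) := by
    intro x hx y hy a b ha hb hab
    have e : g (a • x + b • y) = a • g x + b • g y := by
      have hab' : (a : ℂ) + b = 1 := by exact_mod_cast hab
      simp only [hga, Complex.real_smul]
      linear_combination (-(U q * Q)) * hab'
    rw [Set.mem_preimage, e]
    exact hc hx hy ha hb hab
  have hv' : volume (g ⁻¹' K) = volume K := by
    have e : g ⁻¹' K = (fun z => U (q + π / 3) * z) ⁻¹' ((fun z => U q * Q + z) ⁻¹' K) := by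
      ext z; simp only [Set.mem_preimage, hga]
    rw [e, Red.volume_rot _ ((hcl.preimage (by fun_prop)).measurableSet), measure_preimage_add]
  have key := geo (K := g ⁻¹' K) (η := 11 * r) (δ := δ) hc' (hcl.preimage g.continuous)
    (fun z hz w hw => by
      rw [← dist_eq_norm, ← g.dist_eq, dist_eq_norm]; exact hd _ hz _ hw)
    (by linarith) hδ
    (by
      have := hz 0 C.zero_mem
      rwa [hQ, sub_sub_cancel, mul_comm, hU] at this)
    (by
      have := hz π C.pi_mem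
      rwa [hπ, show C.γ 0 - 1 - Q = U (2 * π / 3) by rw [hQ, h23]; ring, Red.U_mul,
        show -(π / 3) + 2 * π / 3 = π / 3 by ring] at this)
    (hz _ (C.add_pi _ C.T_mem))
    (by
      have e : C.γ (C.T + π) - Q = (C.γ C.T - C.γ (0 + π)) + (U (2 * π / 3) - U C.T) := by
        rw [C.anti _ C.T_mem, zero_add, hπ, hQ, h23]; ring
      rw [norm_mul, norm_U, one_mul, e]
      have h1 : ‖C.γ C.T - C.γ (0 + π)‖ ≤ 3 * r := hl
      linarith [norm_add_le (C.γ C.T - C.γ (0 + π)) (U (2 * π / 3) - U C.T),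
        norm_U_sub_le (2 * π / 3) C.T])
    (fun s s0 s1 => by
      obtain ⟨t', ht', h⟩ : ∃ t' ∈ C.Θ, 1 - 11 * r ≤ cos (t' - (s + π / 3)) := by
        rcases le_total (s + π / 3) C.T with h | h
        · exact dirs C (by linarith) (by linarith) (by linarith) h
        · refine ⟨C.T, C.T_mem, ?_⟩
          have h1 : (C.T - (s + π / 3)) ^ 2 ≤ (2 * r) ^ 2 :=
            sq_le_sq' (by linarith [(abs_le.1 hT).1]) (by linarith)
          nlinarith [one_sub_sq_div_two_le_cos (x := C.T - (s + π / 3))]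
      refine ⟨t' - π / 3, _, hz t' ht', ?_, by
        rwa [show t' - π / 3 - s = t' - (s + π / 3) by ring]⟩
      have := hz _ (C.add_pi _ ht')
      rwa [C.anti _ ht', show U (-(π / 3)) * (C.γ t' - U t' - Q) =
        U (-(π / 3)) * (C.γ t' - Q) - U (t' - π / 3) by
          rw [show t' - π / 3 = -(π / 3) + t' by ring, ← Red.U_mul]; ring] at this)
    (hv' ▸ hv)
  refine ⟨g, ?_⟩
  rw [← Metric.hausdorffDist_image g.isometry, Set.image_preimage_eq _ g.surjective] at key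
  linarith

theorem crude {S : Set ℂ} (hb : Bornology.IsBounded S) (hd : Metric.diam S = 1) :
    ∃ g : ℂ ≃ᵢ ℂ, Metric.hausdorffDist S (g '' R2) ≤ 1 := by
  obtain ⟨p, hp⟩ : S.Nonempty := by
    rcases S.eq_empty_or_nonempty with rfl | h
    · simp at hd
    · exact h
  refine ⟨IsometryEquiv.addLeft p, Metric.hausdorffDist_le_of_mem_dist zero_le_one
    (fun x hx => ⟨p, ⟨0, by simp [R2], by simp⟩, hd ▸ Metric.dist_le_diam_of_mem hb hx hp⟩) ?_⟩
  rintro _ ⟨z, hz, rfl⟩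
  exact ⟨p, hp, by simpa using hz.1⟩

end Stab

theorem stable : ∃ c : ℝ, 0 < c ∧ ∀ S : Set ℂ, Convex ℝ S → Metric.diam S = 1 → Universal S →
    ∃ g : ℂ ≃ᵢ ℂ, Metric.hausdorffDist S (g '' R2) ≤
      c * ((volume S).toReal - (π / 3 - √3 / 4)) := by
  obtain ⟨mu, hmu0, hmu⟩ := apex_margin
  obtain ⟨m, hm⟩ : ∃ m, m = min mu ((173205080757 / 100000000000 - √3) / 12) := ⟨_, rfl⟩
  have hm0 : 0 < m := hm ▸ lt_min hmu0 (by linarith [r3_hi'])
  obtain ⟨ν, hν⟩ : ∃ ν, ν = (√3 - 173205080756 / 100000000000) / 4 := ⟨_, rfl⟩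
  have hν0 : 0 < ν := by rw [hν]; linarith [r3_lo']
  refine ⟨100 + 1 / ν + 5698 / m, by positivity, fun S hc hd hu => ?_⟩
  have hb : Bornology.IsBounded S := by
    by_contra h
    rw [Metric.diam_eq_zero_of_unbounded h] at hd
    exact zero_ne_one hd
  have hfin : volume S ≠ ⊤ := hb.measure_lt_top.ne
  obtain ⟨δ, hδ⟩ : ∃ δ, δ = (volume S).toReal - (π / 3 - √3 / 4) := ⟨_, rfl⟩
  rw [← hδ]
  have hlim : ∀ μ : ℝ, (∀ ε : ℝ, 0 < ε → ∃ x, ENNReal.ofReal x ≤ volume S ∧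
      π / 3 - √3 / 4 + μ - ε ≤ x) → μ ≤ δ := fun μ h => by
    refine le_of_forall_pos_le_add fun ε hε => ?_
    obtain ⟨x, h1, h2⟩ := h ε hε
    have := (ENNReal.ofReal_le_iff_le_toReal hfin).1 h1
    linarith
  have hδ0 : 0 ≤ δ := by
    have := (ENNReal.ofReal_le_iff_le_toReal hfin).1 (lower S hc hd hu)
    linarith
  have p1 : 0 ≤ 1 / ν * δ := by positivity
  have p2 : 0 ≤ 5698 / m * δ := by positivity
  obtain ⟨g₀, hg₀⟩ := Stab.crude hb hd
  obtain ⟨D, hDK, hD⟩ := exists_dia' S hc hd hu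
  rcases choose_gap' D (fun x => ENNReal.ofReal x ≤ volume S) hD with
    ⟨D', N, θ, h1, h2, h3⟩ | ⟨C, h1, h2, h3, h4, ⟨q, hq⟩, h5⟩ | ⟨C, h1, h2, h3, h4⟩
  · have := hlim (1 / 100) fun ε hε => ⟨_, h3, by linarith [lower_zero' D' N θ h1 h2]⟩
    exact ⟨g₀, by linarith⟩
  · obtain ⟨lam, t, h0, hA, hLe, -⟩ := C.gap_data h2
    have hl0 : 0 ≤ C.l := norm_nonneg _
    obtain ⟨r, hr⟩ : ∃ r, r = max (max (1 - lam) ((π - C.T) / 2 - |t|))
      (max (1 / 6 * π - (π - C.T) / 2) (-(1 / 6 * π - (π - C.T) / 2))) := ⟨_, rfl⟩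
    obtain ⟨S', cf, hS0, hSL, hS, hcf, hnum⟩ := num_one' mu hmu0 hmu ((π - C.T) / 2) lam |t| _ _
      C.L r (by linarith [C.L_add_l_le]) (by linarith) h0.1 h0.2.1 (abs_nonneg _) h0.2.2.1 rfl rfl
      hA hLe C.L_le_one hr
    rw [← hm] at hnum
    have hmr := hlim (m * r) fun ε hε => by
      obtain ⟨N, θ, g1, g2⟩ := lower_one' C h3 h5 h0 hS0 hSL hS hcf hnum hε
      exact ⟨_, h1 N θ g1, g2⟩
    have hrδ : 5698 * r ≤ 5698 / m * δ := by
      rw [div_mul_eq_mul_div, le_div_iff₀ hm0]; linarith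
    rcases le_total r (1 / 176) with hr1 | hr1
    · have m1 : 1 - lam ≤ r := hr ▸ le_max_of_le_left (le_max_left _ _)
      have m2 : (π - C.T) / 2 - |t| ≤ r := hr ▸ le_max_of_le_left (le_max_right _ _)
      have m3 : 1 / 6 * π - (π - C.T) / 2 ≤ r := hr ▸ le_max_of_le_right (le_max_left _ _)
      have m4 : -(1 / 6 * π - (π - C.T) / 2) ≤ r := hr ▸ le_max_of_le_right (le_max_right _ _)
      obtain ⟨k1, k2⟩ := Stab.chords C h2 h0 hr1 m1 m2 (abs_le.2 ⟨by linarith, by linarith⟩)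
      have hdK : ∀ z ∈ closure S, ∀ w ∈ closure S, ‖z - w‖ ≤ 1 := fun z hz w hw => by
        rw [← dist_eq_norm, ← hd, ← Metric.diam_closure]
        exact Metric.dist_le_diam_of_mem hb.closure hz hw
      obtain ⟨g, hg⟩ := Stab.close hc.closure isClosed_closure hdK C (q := q) (fun s hs => by
          rw [(hq s hs).2, ← mul_assoc, Red.U_mul, add_neg_cancel, Red.U_zero, one_mul]
          exact hDK _ (hq s hs).1) hr1 hδ0 k1 k2 (abs_le.2 ⟨by linarith, by linarith⟩) (by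
          rw [measure_closure_of_null_frontier (hc.addHaar_frontier volume), hδ, add_sub_cancel,
            ENNReal.ofReal_toReal hfin])
      rw [Metric.hausdorffDist_closure₁] at hg
      exact ⟨g, by linarith⟩
    · exact ⟨g₀, by linarith⟩
  · have h6 := hlim ν fun ε hε => by
      obtain ⟨N, θ, g1, g2⟩ := lower_two' C h2 h3 h4 hε
      exact ⟨_, h1 N θ g1, hν ▸ g2⟩
    have h7 : 1 ≤ 1 / ν * δ := by
      rw [div_mul_eq_mul_div, le_div_iff₀ hν0]; linarith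
    exact ⟨g₀, by linarith⟩

end Pool.Agent.P.MP_4c4e6e_co
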