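import Pool.Agent.P.MP_4c4e6e_co.Main

/-! The numerical inequalities with a margin. -/

namespace Pool.Agent.P.MP_4c4e6e_co

open Real

/-- first alternative of the blown-up inequality -/
noncomputable def apA (r u v w s2 c2 ct : ℝ) : ℝ :=
  -(1 / 2 * u + (1 + (1 - r * u)) * (1 / 2 * √3 * (2 * w * (1 - r ^ 2 * (2 * w) ^ 2 * s2)) -
    1 / 2 * (r * (2 * w) ^ 2 * c2)) + 2 * ((1 - r * u) * (r * v ^ 2 * ct)))

/-- the quantity `K` of the blown-up inequality -/
noncomputable def apK (r u v w ce se cx sx : ℝ) : ℝ :=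
  1 / 2 * (r * w ^ 2 * ce + r * (w + v) ^ 2 * cx) +
    1 / 2 * √3 * (w * (1 - r ^ 2 * w ^ 2 * se) + (w + v) * (1 - r ^ 2 * (w + v) ^ 2 * sx)) +
    u * sin (1 / 6 * π - r * w - r * v)

/-- the quantity `D` of the blown-up inequality -/
noncomputable def apD (r v w cy sy st : ℝ) : ℝ :=
  1 / 4 * √3 * (r * (2 * w + v) ^ 2 * cy) +
    1 / 4 * ((2 * w + v) * (1 - r ^ 2 * (2 * w + v) ^ 2 * sy)) -
    1 / 2 * (v * (1 - r ^ 2 * v ^ 2 * st)) - w

/-- second alternative of the blown-up inequality -/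
noncomputable def apB (r u v w cy sy st ce se cx sx : ℝ) : ℝ :=
  u * (1 + (1 - r * u)) * (1 / 6 * π - 1 / 4 * √3 -
      1 / 4 * (2 * (1 / 6 * π - r * w) - sin (2 * (1 / 6 * π - r * w))) + 49 / 2000) -
    (1 - r * u) ^ 2 * apD r v w cy sy st -
    101 / 1200 * (apK r u v w ce se cx sx * (5 / 4 + 3 / 2 * (r * apK r u v w ce se cx sx)) *
      (π - 2 * (1 / 6 * π - r * w)))

/-- lower corner of the parameter box -/
noncomputable def apLo : Fin 14 → ℝ :=
  ![0, 0, 0, -1, 16600 / 100000, 499 / 1000, 499 / 1000, 499 / 1000, 16600 / 100000,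
    16600 / 100000, 499 / 1000, 16600 / 100000, 499 / 1000, 16600 / 100000]

/-- upper corner of the parameter box -/
noncomputable def apHi : Fin 14 → ℝ :=
  ![3 / 100, 1, 1, 1, 16667 / 100000, 500 / 1000, 500 / 1000, 500 / 1000, 16667 / 100000,
    16667 / 100000, 500 / 1000, 16667 / 100000, 500 / 1000, 16667 / 100000]

/-- the function that is positive on the parameter box -/
noncomputable def apF (p : Fin 14 → ℝ) : ℝ :=
  max (max (apA (p 0) (p 1) (p 2) (p 3) (p 4) (p 5) (p 6))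
    (apB (p 0) (p 1) (p 2) (p 3) (p 7) (p 8) (p 9) (p 10) (p 11) (p 12) (p 13)))
    (min (min (1 - p 1) (1 - p 2)) (min (1 - p 3) (p 3 + 1)))

theorem continuous_apF : Continuous apF := by
  unfold apF apA apB apK apD
  fun_prop

theorem apF_pos (p : Fin 14 → ℝ) (hp : p ∈ Set.Icc apLo apHi) : 0 < apF p := by
  obtain ⟨h1, h2⟩ := hp
  have a0 : 0 ≤ p 0 := h1 0
  have a1 : 0 ≤ p 1 := h1 1
  have a2 : 0 ≤ p 2 := h1 2
  have a3 : -1 ≤ p 3 := h1 3
  have a4 : 16600 / 100000 ≤ p 4 := h1 4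
  have a5 : 499 / 1000 ≤ p 5 := h1 5
  have a6 : 499 / 1000 ≤ p 6 := h1 6
  have a7 : 499 / 1000 ≤ p 7 := h1 7
  have a8 : 16600 / 100000 ≤ p 8 := h1 8
  have a9 : 16600 / 100000 ≤ p 9 := h1 9
  have a10 : 499 / 1000 ≤ p 10 := h1 10
  have a11 : 16600 / 100000 ≤ p 11 := h1 11
  have a12 : 499 / 1000 ≤ p 12 := h1 12
  have a13 : 16600 / 100000 ≤ p 13 := h1 13
  have b0 : p 0 ≤ 3 / 100 := h2 0
  have b1 : p 1 ≤ 1 := h2 1
  have b2 : p 2 ≤ 1 := h2 2
  have b3 : p 3 ≤ 1 := h2 3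
  have b4 : p 4 ≤ 16667 / 100000 := h2 4
  have b5 : p 5 ≤ 500 / 1000 := h2 5
  have b6 : p 6 ≤ 500 / 1000 := h2 6
  have b7 : p 7 ≤ 500 / 1000 := h2 7
  have b8 : p 8 ≤ 16667 / 100000 := h2 8
  have b9 : p 9 ≤ 16667 / 100000 := h2 9
  have b10 : p 10 ≤ 500 / 1000 := h2 10
  have b11 : p 11 ≤ 16667 / 100000 := h2 11
  have b12 : p 12 ≤ 500 / 1000 := h2 12
  have b13 : p 13 ≤ 16667 / 100000 := h2 13
  by_cases hf : p 1 = 1 ∨ p 2 = 1 ∨ p 3 = 1 ∨ p 3 = -1
  · obtain ⟨a, c, H⟩ := Eng.apex_tail (p 0) (p 1) (p 2) (p 3) a0 b0 a1 b1 a2 b2 a3 b3 hf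
    have H := Eng.tail_real _ a c _ _ _ H π pi_lo pi_hi _ r3_lo r3_hi _ rfl _ rfl _ rfl
    rcases H (p 4) a4 b4 _ rfl (p 5) a5 b5 _ rfl (p 6) a6 b6 _ rfl with H | H
    · exact lt_max_of_lt_left (lt_max_of_lt_left H)
    · exact lt_max_of_lt_left (lt_max_of_lt_right (H _ rfl _ rfl _ rfl (p 7) a7 b7 _ rfl (p 8) a8 b8
        _ rfl (p 9) a9 b9 _ rfl _ rfl (p 10) a10 b10 _ rfl (p 11) a11 b11 _ rfl (p 12) a12 b12 _ rfl
        (p 13) a13 b13 _ rfl _ rfl _ rfl).2)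
  · push Not at hf
    obtain ⟨f1, f2, f3, f4⟩ := hf
    refine lt_max_of_lt_right (lt_min (lt_min ?_ ?_) (lt_min ?_ ?_))
    · exact sub_pos.2 (lt_of_le_of_ne b1 f1)
    · exact sub_pos.2 (lt_of_le_of_ne b2 f2)
    · exact sub_pos.2 (lt_of_le_of_ne b3 f3)
    · have := lt_of_le_of_ne a3 (Ne.symm f4)
      linarith

theorem apex_margin : ∃ m : ℝ, 0 < m ∧ ∀ p ∈ Set.Icc apLo apHi, m ≤ apF p := by
  obtain ⟨m, hm, h⟩ := (isCompact_Icc (a := apLo) (b := apHi)).exists_forall_le'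
    continuous_apF.continuousOn apF_pos
  exact ⟨m, hm, h⟩

theorem apex_pos' (m : ℝ) (hm0 : 0 < m) (hm : ∀ p ∈ Set.Icc apLo apHi, m ≤ apF p)
    (r u v w h t lam : ℝ) (h0 : 0 < r) (h1 : r ≤ 3 / 100) (hu0 : 0 ≤ u) (hu1 : u ≤ 1)
    (hv0 : 0 ≤ v) (hv1 : v ≤ 1) (hw0 : -1 ≤ w) (hw1 : w ≤ 1)
    (hf : u = 1 ∨ v = 1 ∨ w = 1 ∨ w = -1) (hh : h = 1 / 6 * π - r * w) (ht : t = h - r * v)
    (hl : lam = 1 - r * u)
    (hA : 2 * lam * cos (h - t) - lam ≤ (1 + lam) * cos (2 * h)) :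
    1 - sin h - lam * sin t < 7 / 25 ∧
    101 / 1200 * ((1 - sin h - lam * sin t) * (5 / 4 + 3 / 2 * (1 - sin h - lam * sin t)) *
      (π - 2 * h)) + m * r ≤ (1 - lam ^ 2) * (π / 6 - √3 / 4 - (2 * h - sin (2 * h)) / 4 + 49 / 2000) +
      lam ^ 2 * (π / 6 - √3 / 4 - h + sin h * cos t) := by
  obtain ⟨a, c, H⟩ := Eng.apex_tail r u v w h0.le h1 hu0 hu1 hv0 hv1 hw0 hw1 hf
  have H := Eng.tail_real r a c u v w H π pi_lo pi_hi _ r3_lo r3_hi _ rfl lam hl _ rfl
  have bw0 : -(3 / 100) ≤ r * w := by nlinarith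
  have bw1 : r * w ≤ 3 / 100 := by nlinarith
  have bv0 : 0 ≤ r * v := mul_nonneg h0.le hv0
  have bv1 : r * v ≤ 3 / 100 := by nlinarith
  obtain ⟨s2, sn2, a1, a2, a3, es2⟩ := small_sin r (2 * w) (by linarith) (by linarith)
  obtain ⟨c2, cs2, b1, b2, b3, ec2⟩ := small_cos r (2 * w) (by linarith) (by linarith)
  obtain ⟨ct, cst, c1', c2', c3, ect⟩ := small_cos r v (by linarith) (by linarith)
  have e2h : cos (2 * h) = 1 / 2 * (1 - r * cs2) + √3 / 2 * (r * sn2) := by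
    rw [show 2 * h = π / 3 - r * (2 * w) by rw [hh]; ring, cos_sub, cos_pi_div_three,
      sin_pi_div_three, ec2, es2]
  have eht : h - t = r * v := by rw [ht]; ring
  have hA0 : apA r u v w s2 c2 ct ≤ 0 := by
    by_contra H
    have H : 0 < -(1 / 2 * u + (1 + lam) * (1 / 2 * √3 * sn2 - 1 / 2 * cs2) + 2 * (lam * cst)) := by
      rw [hl, a3, b3, c3]
      exact not_le.1 H
    rw [e2h, eht, ect] at hA
    have := mul_pos h0 H
    have e : r * -(1 / 2 * u + (1 + lam) * (1 / 2 * √3 * sn2 - 1 / 2 * cs2) + 2 * (lam * cst)) =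
        2 * lam * (1 - r * cst) - lam -
          (1 + lam) * (1 / 2 * (1 - r * cs2) + √3 / 2 * (r * sn2)) := by
      have : r * u = 1 - lam := by rw [hl]; ring
      linear_combination (-1 / 2) * this
    linarith
  replace H := (H s2 a1 a2 sn2 a3 c2 b1 b2 cs2 b3 ct c1' c2' cst c3).resolve_left (by
    rw [hl, a3, b3, c3]
    exact not_lt.2 hA0)
  obtain ⟨cy, csy, d1, d2, d3, ecy⟩ := small_cos r (2 * w + v) (by linarith) (by linarith)
  obtain ⟨sy, sny, f1, f2, f3, esy⟩ := small_sin r (2 * w + v) (by linarith) (by linarith)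
  obtain ⟨st, snt, g1, g2, g3, est⟩ := small_sin r v (by linarith) (by linarith)
  obtain ⟨ce, cse, i1, i2, i3, ece⟩ := small_cos r w (by linarith) (by linarith)
  obtain ⟨se, sne, j1, j2, j3, ese⟩ := small_sin r w (by linarith) (by linarith)
  obtain ⟨cx, csx, k1, k2, k3, ecx⟩ := small_cos r (w + v) (by linarith) (by linarith)
  obtain ⟨sx, snx, l1, l2, l3, esx⟩ := small_sin r (w + v) (by linarith) (by linarith)
  obtain ⟨D1, hD⟩ : ∃ D1, D1 = 1 / 4 * √3 * csy + 1 / 4 * sny - 1 / 2 * snt - w := ⟨_, rfl⟩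
  obtain ⟨K, hK⟩ : ∃ K, K = 1 / 2 * (cse + csx) + 1 / 2 * √3 * (sne + snx) +
    u * sin (h - r * v) := ⟨_, rfl⟩
  obtain ⟨H1, H2⟩ := H _ rfl _ rfl h hh cy d1 d2 csy d3 sy f1 f2 sny f3 st g1 g2 snt g3 D1 hD
    ce i1 i2 cse i3 se j1 j2 sne j3 cx k1 k2 csx k3 sx l1 l2 snx l3 K hK _ rfl
  have hB : m ≤ apB r u v w cy sy st ce se cx sx := by
    have hp : ![r, u, v, w, s2, c2, ct, cy, sy, st, ce, se, cx, sx] ∈ Set.Icc apLo apHi := by
      constructor <;> intro i <;> fin_cases i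
      exacts [h0.le, hu0, hv0, hw0, a1, b1, c1', d1, f1, g1, i1, j1, k1, l1,
        h1, hu1, hv1, hw1, a2, b2, c2', d2, f2, g2, i2, j2, k2, l2]
    have h5 : m ≤ max (max (apA r u v w s2 c2 ct) (apB r u v w cy sy st ce se cx sx))
        (min (min (1 - u) (1 - v)) (min (1 - w) (w + 1))) := hm _ hp
    have h6 : min (min (1 - u) (1 - v)) (min (1 - w) (w + 1)) ≤ 0 := by
      rcases hf with z | z | z | z
      · exact min_le_of_left_le (min_le_of_left_le (by linarith))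
      · exact min_le_of_left_le (min_le_of_right_le (by linarith))
      · exact min_le_of_right_le (min_le_of_left_le (by linarith))
      · exact min_le_of_right_le (min_le_of_right_le (by linarith))
    rcases le_max_iff.1 h5 with z | z
    · rcases le_max_iff.1 z with z | z
      · linarith
      · exact z
    · linarith
  have eK0 : apK r u v w ce se cx sx = K := by
    rw [hK, i3, j3, k3, l3, hh]; rfl
  have eD0 : apD r v w cy sy st = D1 := by
    rw [hD, d3, f3, g3]; rfl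
  rw [apB, eK0, eD0, ← hl, ← hh] at hB
  have esh : sin h = 1 / 2 * (1 - r * cse) - √3 / 2 * (r * sne) := by
    rw [show h = π / 6 - r * w by rw [hh]; ring, sin_sub, cos_pi_div_six, sin_pi_div_six, ece, ese]
  have est' : sin t = 1 / 2 * (1 - r * csx) - √3 / 2 * (r * snx) := by
    rw [show t = π / 6 - r * (w + v) by rw [ht, hh]; ring, sin_sub, cos_pi_div_six,
      sin_pi_div_six, ecx, esx]
  have eK : 1 - sin h - lam * sin t = r * K := by
    rw [hK, ← ht, hl]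
    linear_combination (-1) * esh - est'
  have esc : sin h * cos t = (√3 / 2 * (1 - r * csy) - 1 / 2 * (r * sny) + r * snt) / 2 := by
    have e1 : sin (h + t) = √3 / 2 * (1 - r * csy) - 1 / 2 * (r * sny) := by
      rw [show h + t = π / 3 - r * (2 * w + v) by rw [ht, hh]; ring, sin_sub, cos_pi_div_three,
        sin_pi_div_three, ecy, esy]
    have e2 : sin (h - t) = r * snt := by rw [eht, est]
    rw [sin_add] at e1
    rw [sin_sub] at e2
    linarith
  have eD : π / 6 - √3 / 4 - h + sin h * cos t = -(r * D1) := by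
    rw [esc, hD, hh]; ring
  have eu : 1 - lam ^ 2 = r * (u * (1 + lam)) := by
    have : r * u = 1 - lam := by rw [hl]; ring
    linear_combination (-(1 + lam)) * this
  rw [eK, eD, eu]
  refine ⟨by linarith, ?_⟩
  have := mul_le_mul_of_nonneg_left hB h0.le
  linarith

theorem apex_all' (m : ℝ) (hm0 : 0 < m) (hm : ∀ p ∈ Set.Icc apLo apHi, m ≤ apF p)
    (h t lam r : ℝ) (he0 : 0 < 3 / 100 - (1 / 6 * π - h))
    (he1 : 0 < 3 / 100 + (1 / 6 * π - h)) (ht0 : t ≤ h) (ht1 : 0 < 3 / 100 - (h - t))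
    (hl0 : 0 < lam - 97 / 100) (hl1 : lam ≤ 1)
    (hA : 2 * lam * cos (h - t) - lam ≤ (1 + lam) * cos (2 * h))
    (hr : r = max (max (1 - lam) (h - t)) (max (1 / 6 * π - h) (-(1 / 6 * π - h)))) :
    1 - sin h - lam * sin t < 7 / 25 ∧
    101 / 1200 * ((1 - sin h - lam * sin t) * (5 / 4 + 3 / 2 * (1 - sin h - lam * sin t)) *
      (π - 2 * h)) + m * r ≤
      (1 - lam ^ 2) * (π / 6 - √3 / 4 - (2 * h - sin (2 * h)) / 4 + 49 / 2000) +
      lam ^ 2 * (π / 6 - √3 / 4 - h + sin h * cos t) := by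
  obtain ⟨e, he⟩ : ∃ e, e = 1 / 6 * π - h := ⟨_, rfl⟩
  rw [← he] at he0 he1 hr
  have m1 : 1 - lam ≤ r := hr ▸ le_max_of_le_left (le_max_left _ _)
  have m2 : h - t ≤ r := hr ▸ le_max_of_le_left (le_max_right _ _)
  have m3 : e ≤ r := hr ▸ le_max_of_le_right (le_max_left _ _)
  have m4 : -e ≤ r := hr ▸ le_max_of_le_right (le_max_right _ _)
  have m5 : r = 1 - lam ∨ r = h - t ∨ r = e ∨ r = -e := by
    rw [hr]
    rcases max_choice (max (1 - lam) (h - t)) (max e (-e)) with q | q <;> rw [q]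
    · rcases max_choice (1 - lam) (h - t) with q | q <;> simp [q]
    · rcases max_choice e (-e) with q | q <;> simp [q]
  have r0 : 0 ≤ r := by linarith
  have r1 : r ≤ 3 / 100 := by rcases m5 with q | q | q | q <;> linarith
  rcases r0.eq_or_lt with q | q
  · have e1 : lam = 1 := by linarith
    have e2 : t = h := by linarith
    have e3 : h = π / 6 := by linarith
    rw [e1, e2, e3, ← q, sin_pi_div_six, cos_pi_div_six]
    constructor
    · norm_num
    · apply le_of_eq; ring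
  · have hq := q.ne'
    refine apex_pos' m hm0 hm r ((1 - lam) / r) ((h - t) / r) (e / r) h t lam q r1
      (div_nonneg (by linarith) r0) ((div_le_one q).2 m1) (div_nonneg (by linarith) r0)
      ((div_le_one q).2 m2) ?_ ((div_le_one q).2 m3) ?_ ?_ ?_ ?_ hA
    · rw [le_div_iff₀ q]; linarith
    · rcases m5 with z | z | z | z
      · left; rw [← z]; exact div_self hq
      · right; left; rw [← z]; exact div_self hq
      · right; right; left; rw [← z]; exact div_self hq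
      · right; right; right
        rw [div_eq_iff hq]; linarith
    · rw [mul_div_cancel₀ _ hq, he]; ring
    · rw [mul_div_cancel₀ _ hq]; ring
    · rw [mul_div_cancel₀ _ hq]; ring

theorem r3_hi' : √3 < (173205080757 / 100000000000 : ℝ) :=
  (Real.sqrt_lt' (by norm_num)).2 (by norm_num)

theorem r3_lo' : (173205080756 / 100000000000 : ℝ) < √3 :=
  Real.lt_sqrt_of_sq_lt (by norm_num)

theorem num_one' (mu : ℝ) (hm0 : 0 < mu) (hmu : ∀ p ∈ Set.Icc apLo apHi, mu ≤ apF p)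
    (h lam t al be L r : ℝ) (h0 : 3 / 25 ≤ h) (h1 : h ≤ 113 / 200) (hl0 : 0 ≤ lam)
    (hl1 : lam ≤ 1) (ht0 : 0 ≤ t) (ht1 : t ≤ h) (hal : al = lam * (cos t - cos h))
    (hbe : be = lam * sin t)
    (hA : 2 * sin h * be + 2 * cos h * al ≤ cos h ^ 2 - sin h ^ 2)
    (hL : L = √(al ^ 2 + (sin h + be) ^ 2)) (hL1 : L ≤ 1)
    (hr0 : r = max (max (1 - lam) (h - t)) (max (1 / 6 * π - h) (-(1 / 6 * π - h)))) :
    ∃ S cf, 0 ≤ S ∧ S ≤ L ∧
      (S = L ∨ (69 / 100 ≤ L ∧ (1 - L) * min (31 / 20) (5 / 4 + 3 / 2 * (1 - L)) ≤ S ^ 2)) ∧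
      (146 / 125 ≤ cf ∨ 101 / 100 + 11 / 20 * S ^ 2 ≤ cf) ∧
      loss (2 * h) lam t (mh (2 * h)) + cf * (S ^ 2 * (π - 2 * h - 12 * S / 7)) / 12 +
        min mu ((173205080757 / 100000000000 - √3) / 12) * r ≤ π / 6 - √3 / 4 := by
  have hp := pi_lo
  have hp' := pi_hi
  have hr := r3_lo
  obtain ⟨m, hm⟩ : ∃ m, m = mh (2 * h) := ⟨_, rfl⟩
  rw [← hm]
  obtain ⟨G, hG⟩ : ∃ G, G = 12 * (1 / 6 * π - 1 / 4 * √3 -
    1 / 2 * ((1 + lam ^ 2) * (h - sin h * cos h)) + lam * sin h * al +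
    1 / 2 * ((1 - lam ^ 2) * m)) := ⟨_, rfl⟩
  have eG : loss (2 * h) lam t m = π / 6 - √3 / 4 - G / 12 := by
    rw [loss, hG, hal, sin_two_mul, show 2 * h / 2 = h by ring]; ring
  rw [eG]
  have hL0 : 0 ≤ L := hL ▸ sqrt_nonneg _
  have hL2 : L ^ 2 = al ^ 2 + (sin h + be) ^ 2 := by rw [hL, Real.sq_sqrt (by positivity)]
  obtain ⟨ν, hν⟩ : ∃ ν : ℝ, ν = 173205080757 / 100000000000 - √3 := ⟨_, rfl⟩
  have hν0 : 0 < ν := by rw [hν]; linarith [r3_hi']
  rw [← hν]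
  have hr1 : 0 ≤ r := by rw [hr0]; exact le_max_of_le_left (le_max_of_le_left (by linarith))
  have hr2 : r ≤ 1 := by
    rw [hr0]
    exact max_le (max_le (by linarith) (by linarith)) (max_le (by linarith) (by linarith))
  have hn1 : min mu (ν / 12) * r ≤ ν / 12 :=
    (mul_le_mul_of_nonneg_right (min_le_right _ _) hr1).trans
      (mul_le_of_le_one_right (by linarith) hr2)
  have hn2 : min mu (ν / 12) * r ≤ mu * r := mul_le_mul_of_nonneg_right (min_le_left _ _) hr1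
  have hll : 0 ≤ 1 - lam ^ 2 := by nlinarith
  have hll' : 1 - lam ^ 2 ≤ 1 := by nlinarith
  have main : (0 < 3 / 100 - (1 / 6 * π - h) ∧ 0 < 3 / 100 + (1 / 6 * π - h) ∧
      0 < 3 / 100 - (h - t) ∧ 0 < lam - 97 / 100) ∨ ∃ G', G' + ν ≤ G ∧
      ((0 < G' - 146 / 125 * ((al ^ 2 + (sin h + be) ^ 2) * (π - 2 * h - 12 / 7 * L))) ∨
      (0 < L - 7 / 10 ∧ ∀ S2 : ℝ, S2 = 31 / 20 * (1 - L) →
        (0 < G' - 146 / 125 * (S2 * (π - 2 * h - 12 / 7 * √S2))) ∨
        ∀ S3 : ℝ, S3 = (1 - L) * (11 / 4 - 3 / 2 * L) → 0 < L - 18 / 25 ∧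
          0 < G' - (101 / 100 + 11 / 20 * S3) * S3 * (π - 2 * h - 12 / 7 * √S3))) := by
    rcases le_total h (π / 6) with hh | hh
    · rcases Eng.oneP_real h lam (h - t) h0 (by linarith) hl0 hl1 (by linarith) (by linarith)
        π pi_lo pi_hi (173205080757 / 100000000000) (by norm_num) le_rfl _ rfl with H | H | H
      · exact Or.inl H
      · linarith
      rcases H _ rfl _ rfl _ rfl t (by ring) al hal be hbe with H | H
      · linarith
      refine Or.inr ⟨_, ?_, H _ rfl _ rfl _ rfl _ rfl L hL⟩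
      have c0 : 0 ≤ cos h := cos_nonneg_of_mem_Icc ⟨by linarith, by linarith⟩
      have c1 : (1 - lam ^ 2) * (1 - cos h) ≤ 1 :=
        mul_le_one₀ hll' (by linarith [cos_le_one h]) (by linarith)
      have c2 := mul_le_mul_of_nonneg_left c1 hν0.le
      have e3 : (173205080757 / 100000000000 : ℝ) = √3 + ν := by rw [hν]; ring
      rw [hG, hm, mh_lo hh, e3]
      linarith
    · rcases Eng.oneM_real h lam (h - t) (by linarith) h1 hl0 hl1 (by linarith) (by linarith)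
        π pi_lo pi_hi (173205080757 / 100000000000) (by norm_num) le_rfl _ rfl with H | H | H
      · exact Or.inl H
      · linarith
      rcases H _ rfl _ rfl _ rfl t (by ring) al hal be hbe with H | H
      · linarith
      refine Or.inr ⟨_, ?_, H _ rfl _ rfl _ rfl _ rfl L hL⟩
      have c2 := mul_le_mul_of_nonneg_left hll' hν0.le
      have e3 : (173205080757 / 100000000000 : ℝ) = √3 + ν := by rw [hν]; ring
      rw [hG, hm, mh_hi hh, e3]
      linarith
  rcases main with ⟨a1, a2, a3, a4⟩ | ⟨G', hG', H | ⟨H0, H⟩⟩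
  · have hA' : 2 * lam * cos (h - t) - lam ≤ (1 + lam) * cos (2 * h) := by
      have e : 2 * sin h * be + 2 * cos h * al = 2 * (lam * (cos (h - t) - cos h ^ 2)) := by
        rw [hal, hbe, cos_sub]; ring
      have e2 := sin_sq_add_cos_sq h
      rw [cos_two_mul]
      linarith
    obtain ⟨b1, b2⟩ := apex_all' mu hm0 hmu h t lam r a1 a2 ht1 a3 a4 hl1 hA' hr0
    have hm1 : 49 / 1000 ≤ m := by
      rcases le_total h (π / 6) with hh | hh
      · have := Eng.mlow_real h (by linarith) (by linarith) _ r3_lo r3_hi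
        rw [hm, mh_lo hh]; linarith
      · rw [hm, mh_hi hh]; linarith
    have hLk : sin h + be ≤ L := by
      rw [hL]
      exact Real.le_sqrt_of_sq_le (by linarith [sq_nonneg al])
    rw [← hbe] at b1 b2
    obtain ⟨hS, k1, k2⟩ := cap_pick3 (L := L) (by linarith) hL1
    have k3 := apex_cube (T := π - 2 * h) (k := 1 - L) (k' := 1 - sin h - be) (sqrt_nonneg _)
      (k1.trans hL1) (by linarith) (by linarith) (by linarith) (by linarith)
      (by rw [Real.sq_sqrt hS]; ring)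
    refine ⟨_, _, sqrt_nonneg _, k1, Or.inr ⟨by linarith, k2⟩, Or.inr le_rfl, ?_⟩
    have k4 : 0 ≤ (1 - lam ^ 2) * (m - 49 / 1000) :=
      mul_nonneg (by nlinarith) (by linarith)
    have k5 : G / 12 = (1 - lam ^ 2) * (π / 6 - √3 / 4 - (2 * h - sin (2 * h)) / 4 + 49 / 2000) +
        lam ^ 2 * (π / 6 - √3 / 4 - h + sin h * cos t) + (1 - lam ^ 2) * (m - 49 / 1000) / 2 := by
      rw [hG, hal, sin_two_mul]; ring
    linarith
  · refine ⟨L, 146 / 125, hL0, le_rfl, Or.inl rfl, Or.inl le_rfl, ?_⟩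
    rw [hL2]
    linarith
  · rcases H _ rfl with H | H
    · obtain ⟨hS, k1, k2⟩ := cap_pick H0 hL1
      refine ⟨_, 146 / 125, sqrt_nonneg _, k1, Or.inr ⟨by linarith, k2⟩, Or.inl le_rfl, ?_⟩
      rw [Real.sq_sqrt hS]
      linarith
    · obtain ⟨H1, H2⟩ := H _ rfl
      obtain ⟨hS, k1, k2⟩ := cap_pick3 H1 hL1
      refine ⟨_, _, sqrt_nonneg _, k1, Or.inr ⟨by linarith, k2⟩, Or.inr le_rfl, ?_⟩
      rw [Real.sq_sqrt hS]
      linarith

theorem num_two' (h lam t sp al be L d T G : ℝ) (h0 : 113 / 200 ≤ h) (h1 : h ≤ 747 / 1000)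
    (hl0 : 0 ≤ lam) (hl1 : lam ≤ 1) (ht0 : 0 ≤ t) (ht1 : t ≤ h) (hs0 : 0 ≤ sp) (hs1 : sp ≤ 1)
    (hal : al = lam * (cos t - cos h)) (hbe : be = lam * sin t)
    (hA : 2 * sin h * be + 2 * cos h * al ≤ cos h ^ 2 - sin h ^ 2)
    (hL : L = √(al ^ 2 + (sin h + be) ^ 2)) (hL1 : L ≤ 1)
    (hd : d = √(be ^ 2 + (cos h - al) ^ 2)) (hT : T = π - 2 * h)
    (hG : G = 12 * (T / 2 + lam * sin T / 2 + lam ^ 2 * (cos (T / 2) * (cos t - sin (T / 2))) -
      AH T lam sp - (π / 3 - √3 / 4 + (√3 - 173205080756 / 100000000000) / 4))) :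
    (2 * L + d ≤ T → 133 / 100 * ((T - d - L) ^ 3 + L ^ 3 / 7 + d ^ 3 / 7) ≤ G) ∧
    (61 / 50 * (((T - d) ^ 3 + d ^ 3) / 7) ≤ G ∨
      ∃ S, 0 ≤ S ∧ S ≤ L ∧ 69 / 100 ≤ L ∧
        (1 - L) * min (31 / 20) (5 / 4 + 3 / 2 * (1 - L)) ≤ S ^ 2 ∧
        61 / 50 * (S ^ 2 * (T - 12 * S / 7)) ≤ G) := by
  have hp := pi_lo
  have hc : cos h ≤ cos (h - t) :=
    cos_le_cos_of_nonneg_of_le_pi (by linarith) (by linarith) (by linarith)
  have hA' : 2 * (lam * (cos h - cos h ^ 2)) ≤ 2 * cos h ^ 2 - 1 := by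
    have e : 2 * sin h * be + 2 * cos h * al = 2 * (lam * (cos (h - t) - cos h ^ 2)) := by
      rw [hal, hbe, cos_sub]; ring
    have := mul_le_mul_of_nonneg_left hc hl0
    nlinarith [sin_sq_add_cos_sq h]
  have hAH := AH_le h0 h1 hl0 hl1 hs0 hs1 hA'
  obtain ⟨G', hG'⟩ : ∃ G', G' = 12 * (1 / 2 * T + lam * sin h * (cos h + al) - Abar h lam -
    1 / 3 * π + 1 / 4 * (173205080756 / 100000000000)) := ⟨_, rfl⟩
  have hGG : G' ≤ G := by
    have e1 : sin T = 2 * sin h * cos h := by rw [hT, sin_pi_sub, sin_two_mul]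
    have e2 : cos (T / 2) = sin h := by
      rw [hT, show (π - 2 * h) / 2 = π / 2 - h by ring, cos_pi_div_two_sub]
    have e3 : sin (T / 2) = cos h := by
      rw [hT, show (π - 2 * h) / 2 = π / 2 - h by ring, sin_pi_div_two_sub]
    rw [← hT] at hAH
    rw [hG, hG', e1, e2, e3, hal]
    linarith [hAH]
  constructor
  · intro h2
    rcases Eng.twoA_real h lam t h0 h1 hl0 hl1 ht0 (by linarith) π pi_lo pi_hi
      (173205080756 / 100000000000) le_rfl (by norm_num)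
      with H | H
    · linarith
    rcases H _ rfl _ rfl T hT al hal be hbe with H | H
    · linarith
    rcases H L hL d hd with H | H
    · linarith
    have := H _ rfl (Abar h lam) rfl G' hG' _ rfl
    linarith [this]
  · rcases Eng.twoB_real h lam t h0 h1 hl0 hl1 ht0 (by linarith) π pi_lo pi_hi
      (173205080756 / 100000000000) le_rfl (by norm_num)
      with H | H
    · linarith
    rcases H _ rfl _ rfl T hT al hal be hbe with H | H
    · linarith
    rcases H L hL d hd _ rfl (Abar h lam) rfl G' hG' _ rfl with H | H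
    · left
      linarith [H]
    · right
      obtain ⟨H1, H2⟩ := H _ rfl
      obtain ⟨hS, k1, k2⟩ := cap_pick H1 hL1
      refine ⟨√(31 / 20 * (1 - L)), sqrt_nonneg _, k1, by linarith, k2, ?_⟩
      rw [Real.sq_sqrt hS]
      linarith

end Pool.Agent.P.MP_4c4e6e_co
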