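import Pool.Agent.P.MP_4c4e6e_co.Geo

/-! Symmetries, coloured walks and monotonicity of the distances. -/

namespace Pool.Agent.P.MP_4c4e6e_co

open Real Finset

theorem U_mul_U (s t : ℝ) : U s * U t = U (s + t) := by
  apply Complex.ext
  · simp [cos_add]
  · simp [sin_add]; ring

theorem conj_U (t : ℝ) : (starRingEnd ℂ) (U t) = U (-t) := by
  apply Complex.ext <;> simp

theorem norm_U_mul_sub (s : ℝ) (z w : ℂ) : ‖U s * z - U s * w‖ = ‖z - w‖ := by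
  rw [← mul_sub, norm_mul, norm_U, one_mul]

theorem norm_U_mul_conj_sub (s : ℝ) (z w : ℂ) :
    ‖U s * (starRingEnd ℂ) z - U s * (starRingEnd ℂ) w‖ = ‖z - w‖ := by
  rw [norm_U_mul_sub, ← map_sub, Complex.norm_conj]

/-- rotation taking direction `q` to direction `0` -/
theorem Dia.exists_shift (D : Dia) (q : ℝ) : ∃ D' : Dia, (∀ t, t ∈ D'.Θ ↔ q + t ∈ D.Θ) ∧
    ∀ t, D'.γ t = U (-q) * D.γ (q + t) := by
  refine ⟨⟨{t | q + t ∈ D.Θ}, fun t => U (-q) * D.γ (q + t), ?_, ?_, ?_, ?_, ?_, ?_⟩,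
    fun _ => Iff.rfl, fun _ => rfl⟩
  · exact D.closed.preimage (continuous_const.add continuous_id)
  · intro t ht
    have := D.add_pi _ ht
    simpa [add_assoc] using this
  · intro t ht
    have := D.sub_pi _ ht
    simpa [add_sub_assoc] using this
  · intro t ht
    have h := D.anti _ ht
    show U (-q) * D.γ (q + (t + π)) = U (-q) * D.γ (q + t) - U t
    rw [← add_assoc, h, mul_sub, U_mul_U, neg_add_cancel_left]
  · intro s hs t ht
    show ‖U (-q) * D.γ (q + s) - U (-q) * D.γ (q + t)‖ ≤ 1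
    rw [norm_U_mul_sub]
    exact D.dist_le _ hs _ ht
  · intro n a ha
    obtain ⟨t, h1, h2⟩ := D.walk n a ha
    refine ⟨fun i => t i - q, fun i hi => ?_, fun i hi => ?_⟩
    · show q + (t i - q) ∈ D.Θ
      rw [add_sub_cancel]
      exact h1 i hi
    · show ‖U (-q) * D.γ (q + (t i - q + π)) - U (-q) * D.γ (q + (t (i + 1) - q))‖ = a i
      rw [norm_U_mul_sub, ← add_assoc, add_sub_cancel, add_sub_cancel]
      exact h2 i hi

theorem Dia.per' (D : Dia) {t : ℝ} (ht : t ∈ D.Θ) : D.γ (t - π) = D.γ (t + π) := by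
  have h := D.per (D.sub_pi t ht)
  rw [sub_add_cancel] at h
  exact h.symm

namespace Cfg

variable (C : Cfg)

/-- exchange of the two colours -/
theorem exists_swap : ∃ C' : Cfg, C'.T = C.T ∧ C'.Θ = C.Θ ∧ ∀ t, C'.γ t = -C.γ (t + π) := by
  refine ⟨⟨⟨C.Θ, fun t => -C.γ (t + π), C.closed, C.add_pi, C.sub_pi, ?_, ?_, ?_⟩, C.T,
    C.T_nonneg, C.T_lt, C.zero_mem, C.T_mem, C.gap⟩, rfl, rfl, fun _ => rfl⟩
  · intro t ht
    show -C.γ (t + π + π) = -C.γ (t + π) - U t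
    rw [C.per ht, C.anti t ht]
    ring
  · intro s hs t ht
    show ‖-C.γ (s + π) - -C.γ (t + π)‖ ≤ 1
    rw [neg_sub_neg]
    exact C.dist_le _ (C.add_pi t ht) _ (C.add_pi s hs)
  · intro n a ha
    obtain ⟨t, h1, h2⟩ := C.walk n a ha
    refine ⟨fun i => t i - π, fun i hi => C.sub_pi _ (h1 i hi), fun i hi => ?_⟩
    show ‖-C.γ (t i - π + π + π) - -C.γ (t (i + 1) - π + π)‖ = a i
    rw [neg_sub_neg, sub_add_cancel, sub_add_cancel, norm_sub_rev]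
    exact h2 i hi

/-- reflection `t ↦ T - t` together with the exchange of the colours -/
theorem exists_mirror : ∃ C' : Cfg, C'.T = C.T ∧ (∀ t, t ∈ C'.Θ ↔ C.T - t ∈ C.Θ) ∧
    ∀ t, C'.γ t = U (C.T + π) * (starRingEnd ℂ) (C.γ (C.T + π - t)) := by
  have key : ∀ t, C.T - t ∈ C.Θ → C.T + π - t ∈ C.Θ := by
    intro t ht
    have := C.add_pi _ ht
    rwa [show C.T - t + π = C.T + π - t by ring] at this
  refine ⟨⟨⟨{t | C.T - t ∈ C.Θ}, fun t => U (C.T + π) * (starRingEnd ℂ) (C.γ (C.T + π - t)),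
    ?_, ?_, ?_, ?_, ?_, ?_⟩, C.T, C.T_nonneg, C.T_lt, ?_, ?_, ?_⟩, rfl, fun _ => Iff.rfl,
    fun _ => rfl⟩
  · exact C.closed.preimage (continuous_const.sub continuous_id)
  · intro t ht
    have := C.sub_pi _ ht
    show C.T - (t + π) ∈ C.Θ
    rwa [show C.T - (t + π) = C.T - t - π by ring]
  · intro t ht
    have := C.add_pi _ ht
    show C.T - (t - π) ∈ C.Θ
    rwa [show C.T - (t - π) = C.T - t + π by ring]
  · intro t ht
    have h := C.anti _ ht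
    show U (C.T + π) * (starRingEnd ℂ) (C.γ (C.T + π - (t + π))) =
      U (C.T + π) * (starRingEnd ℂ) (C.γ (C.T + π - t)) - U t
    rw [show C.T + π - (t + π) = C.T - t by ring, show C.T + π - t = C.T - t + π by ring, h,
      map_sub, mul_sub, conj_U, U_mul_U, show C.T + π + -(C.T - t) = t + π by ring, U_add_pi t]
    ring
  · intro s hs t ht
    show ‖U (C.T + π) * (starRingEnd ℂ) (C.γ (C.T + π - s)) -
      U (C.T + π) * (starRingEnd ℂ) (C.γ (C.T + π - t))‖ ≤ 1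
    rw [norm_U_mul_conj_sub]
    exact C.dist_le _ (key s hs) _ (key t ht)
  · intro n a ha
    obtain ⟨t, h1, h2⟩ := C.walk n a ha
    refine ⟨fun i => C.T - π - t i, fun i hi => ?_, fun i hi => ?_⟩
    · show C.T - (C.T - π - t i) ∈ C.Θ
      rw [show C.T - (C.T - π - t i) = t i + π by ring]
      exact C.add_pi _ (h1 i hi)
    · show ‖U (C.T + π) * (starRingEnd ℂ) (C.γ (C.T + π - (C.T - π - t i + π))) -
        U (C.T + π) * (starRingEnd ℂ) (C.γ (C.T + π - (C.T - π - t (i + 1))))‖ = a i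
      rw [norm_U_mul_conj_sub, show C.T + π - (C.T - π - t i + π) = t i + π by ring,
        show C.T + π - (C.T - π - t (i + 1)) = t (i + 1) + π + π by ring,
        C.per (h1 (i + 1) hi)]
      exact h2 i hi
  · show C.T - 0 ∈ C.Θ
    rw [sub_zero]
    exact C.T_mem
  · show C.T - C.T ∈ C.Θ
    rw [sub_self]
    exact C.zero_mem
  · rintro t ht ⟨h1, h2⟩
    exact C.gap _ (key t ht) ⟨by linarith, by linarith⟩

theorem swap_dist : ∃ C' : Cfg, C'.T = C.T ∧ C'.Θ = C.Θ ∧ C'.I = C.I ∧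
    (∀ a ∈ C.Θ, ∀ b ∈ C.Θ, C'.dX a b = C.dY a b ∧ C'.dY a b = C.dX a b ∧ C'.dC a b = C.dC b a) ∧
    C'.L = C.l ∧ C'.l = C.L ∧ C'.d1 = C.d2 ∧ C'.d2 = C.d1 := by
  obtain ⟨C', hT, hΘ, hγ⟩ := C.exists_swap
  have H : ∀ a ∈ C.Θ, ∀ b ∈ C.Θ,
      C'.dX a b = C.dY a b ∧ C'.dY a b = C.dX a b ∧ C'.dC a b = C.dC b a := by
    intro a ha b hb
    refine ⟨?_, ?_, ?_⟩
    · simp only [Dia.dX, Dia.dY, hγ]
      rw [neg_sub_neg, norm_sub_rev]
    · simp only [Dia.dX, Dia.dY, hγ]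
      rw [neg_sub_neg, norm_sub_rev, C.per ha, C.per hb]
    · simp only [Dia.dC, hγ]
      rw [neg_sub_neg, C.per hb]
  refine ⟨C', hT, hΘ, by simp only [I, hT, hΘ], H, ?_, ?_, ?_, ?_⟩
  · simp only [L, l, hT]
    exact (H 0 C.zero_mem C.T C.T_mem).2.2
  · simp only [L, l, hT]
    exact (H C.T C.T_mem 0 C.zero_mem).2.2
  · simp only [d1, d2, hT]
    exact (H 0 C.zero_mem C.T C.T_mem).1
  · simp only [d1, d2, hT]
    exact (H 0 C.zero_mem C.T C.T_mem).2.1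

theorem mirror_dist : ∃ C' : Cfg, C'.T = C.T ∧ (∀ t, t ∈ C'.Θ ↔ C.T - t ∈ C.Θ) ∧
    (∀ t, t ∈ C'.I ↔ C.T - t ∈ C.I) ∧
    (∀ a ∈ C.Θ, ∀ b ∈ C.Θ, C'.dX (C.T - a) (C.T - b) = C.dY a b ∧
      C'.dY (C.T - a) (C.T - b) = C.dX a b ∧ C'.dC (C.T - a) (C.T - b) = C.dC b a) ∧
    C'.L = C.L ∧ C'.l = C.l ∧ C'.d1 = C.d2 ∧ C'.d2 = C.d1 := by
  obtain ⟨C', hT, hΘ, hγ⟩ := C.exists_mirror
  have e1 : ∀ a : ℝ, C.T + π - (C.T - a) = a + π := fun a => by ring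
  have e2 : ∀ a : ℝ, C.T + π - (C.T - a + π) = a := fun a => by ring
  have H : ∀ a b : ℝ, C'.dX (C.T - a) (C.T - b) = C.dY a b ∧
      C'.dY (C.T - a) (C.T - b) = C.dX a b ∧ C'.dC (C.T - a) (C.T - b) = C.dC b a := by
    intro a b
    refine ⟨?_, ?_, ?_⟩
    · simp only [Dia.dX, Dia.dY, hγ]
      rw [norm_U_mul_conj_sub, e1, e1]
    · simp only [Dia.dX, Dia.dY, hγ]
      rw [norm_U_mul_conj_sub, e2, e2]
    · simp only [Dia.dC, hγ]
      rw [norm_U_mul_conj_sub, e1, e2, norm_sub_rev]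
  refine ⟨C', hT, hΘ, fun t => ?_, fun a _ b _ => H a b, ?_, ?_, ?_, ?_⟩
  · simp only [I, Set.mem_inter_iff, Set.mem_Icc, hΘ, hT]
    constructor
    · rintro ⟨h1, h2, h3⟩
      exact ⟨h1, by linarith, by linarith⟩
    · rintro ⟨h1, h2, h3⟩
      exact ⟨h1, by linarith, by linarith⟩
  · have h := (H C.T 0).2.2
    rw [sub_self, sub_zero] at h
    simp only [L, hT]
    exact h
  · have h := (H 0 C.T).2.2
    rw [sub_self, sub_zero] at h
    simp only [l, hT]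
    exact h
  · have h := (H C.T 0).1
    rw [sub_self, sub_zero] at h
    simp only [d1, d2, hT]
    rw [h, Dia.dY, Dia.dY, norm_sub_rev]
  · have h := (H C.T 0).2.1
    rw [sub_self, sub_zero] at h
    simp only [d1, d2, hT]
    rw [h, Dia.dX, Dia.dX, norm_sub_rev]

theorem exists_colour {t : ℝ} (ht : t ∈ C.Θ) :
    ∃ θ ∈ C.I, ∃ c : Bool, C.γ t = C.pt (!c) θ ∧ C.γ (t + π) = C.pt c θ := by
  have key : ∀ (k : ℤ) (t : ℝ), t ∈ C.Θ → (k : ℝ) * π ≤ t → t < (k + 1) * π →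
      ∃ θ ∈ C.I, ∃ c : Bool, C.γ t = C.pt (!c) θ ∧ C.γ (t + π) = C.pt c θ := by
    intro k
    induction k using Int.induction_on with
    | zero =>
      intro t ht h1 h2
      have h1' : 0 ≤ t := by simpa using h1
      have h2' : t < π := by simpa using h2
      refine ⟨t, ⟨ht, h1', ?_⟩, false, by simp [Dia.pt], by simp [Dia.pt]⟩
      by_contra hc
      exact C.gap t ht ⟨lt_of_not_ge hc, h2'⟩
    | succ k ih =>
      intro t ht h1 h2
      push_cast at h1 h2 ih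
      obtain ⟨θ, hθ, c, e1, e2⟩ := ih (t - π) (C.sub_pi t ht) (by linarith) (by linarith)
      rw [sub_add_cancel] at e2
      rw [C.per' ht] at e1
      exact ⟨θ, hθ, !c, by rw [Bool.not_not]; exact e2, e1⟩
    | pred k ih =>
      intro t ht h1 h2
      push_cast at h1 h2 ih
      obtain ⟨θ, hθ, c, e1, e2⟩ := ih (t + π) (C.add_pi t ht) (by linarith) (by linarith)
      rw [C.per ht] at e2
      exact ⟨θ, hθ, !c, by rw [Bool.not_not]; exact e2, e1⟩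
  refine key ⌊t / π⌋ t ht ?_ ?_
  · exact (le_div_iff₀ pi_pos).mp (Int.floor_le _)
  · exact (div_lt_iff₀ pi_pos).mp (Int.lt_floor_add_one _)

/-- Walks: `c i` is the colour of the point from which the link `a i` starts; it ends in a point
of colour `!(c (i+1))`, and then a unit link follows. -/
theorem cwalk (n : ℕ) (a : ℕ → ℝ) (ha : ∀ i < n, 0 < a i ∧ a i ≤ 1) :
    ∃ (θ : ℕ → ℝ) (c : ℕ → Bool), (∀ i ≤ n, θ i ∈ C.I) ∧
      ∀ i < n, ‖C.pt (c i) (θ i) - C.pt (!(c (i + 1))) (θ (i + 1))‖ = a i := by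
  obtain ⟨t, h1, h2⟩ := C.walk n a ha
  have H : ∀ i, ∃ (θ : ℝ) (c : Bool), i ≤ n →
      θ ∈ C.I ∧ C.γ (t i) = C.pt (!c) θ ∧ C.γ (t i + π) = C.pt c θ := by
    intro i
    by_cases hi : i ≤ n
    · obtain ⟨θ, hθ, c, e1, e2⟩ := C.exists_colour (h1 i hi)
      exact ⟨θ, c, fun _ => ⟨hθ, e1, e2⟩⟩
    · exact ⟨0, true, fun h => absurd h hi⟩
  choose θ c hc using H
  refine ⟨θ, c, fun i hi => (hc i hi).1, fun i hi => ?_⟩
  rw [← (hc i hi.le).2.2, ← (hc (i + 1) hi).2.1]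
  exact h2 i hi

theorem zero_mem_I : (0 : ℝ) ∈ C.I := ⟨C.zero_mem, le_rfl, C.T_nonneg⟩
theorem T_mem_I : C.T ∈ C.I := ⟨C.T_mem, C.T_nonneg, le_rfl⟩

theorem isCompact_I : IsCompact C.I := isCompact_Icc.inter_left C.closed

theorem dX_mono {a b c d : ℝ} (ha : a ∈ C.I) (hb : b ∈ C.I) (hc : c ∈ C.I) (hd : d ∈ C.I)
    (h1 : a ≤ b) (h2 : b ≤ c) (h3 : c ≤ d) : C.dX b c ≤ C.dX a d := by
  have := C.T_lt
  exact C.nest ha.1 hb.1 hc.1 hd.1 h1 h2 h3 (by linarith [ha.2.1, hd.2.2])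

theorem dY_mono {a b c d : ℝ} (ha : a ∈ C.I) (hb : b ∈ C.I) (hc : c ∈ C.I) (hd : d ∈ C.I)
    (h1 : a ≤ b) (h2 : b ≤ c) (h3 : c ≤ d) : C.dY b c ≤ C.dY a d := by
  have := C.T_lt
  exact C.nest (C.add_pi _ ha.1) (C.add_pi _ hb.1) (C.add_pi _ hc.1) (C.add_pi _ hd.1)
    (by linarith) (by linarith) (by linarith) (by linarith [ha.2.1, hd.2.2])

/-- pairs seen across the chord `L` -/
theorem dC_mono_L {a b c d : ℝ} (ha : a ∈ C.I) (hb : b ∈ C.I) (hc : c ∈ C.I) (hd : d ∈ C.I)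
    (h1 : a ≤ b) (h2 : b ≤ c) (h3 : c ≤ d) : C.dC a d ≤ C.dC b c := by
  have := C.T_lt
  have h := C.nest (C.sub_pi _ hc.1) (C.sub_pi _ hd.1) ha.1 hb.1 (by linarith)
    (by linarith [ha.2.1, hd.2.2]) h1 (by linarith)
  rw [C.per' hc.1, C.per' hd.1, norm_sub_rev, norm_sub_rev (C.γ (c + π))] at h
  exact h

/-- pairs seen across the chord `l` -/
theorem dC_mono_l {a b c d : ℝ} (ha : a ∈ C.I) (hb : b ∈ C.I) (hc : c ∈ C.I) (hd : d ∈ C.I)
    (h1 : a ≤ b) (h2 : b ≤ c) (h3 : c ≤ d) : C.dC d a ≤ C.dC c b := by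
  have := C.T_lt
  exact C.nest hc.1 hd.1 (C.add_pi _ ha.1) (C.add_pi _ hb.1) h3
    (by linarith [ha.2.1, hd.2.2]) (by linarith) (by linarith)

theorem dC_self {a : ℝ} (ha : a ∈ C.I) : C.dC a a = 1 := C.norm_diam ha.1

/-- the frame of the distinguished gap -/
theorem frame {lam t : ℝ} (h : C.IsLens C.T π lam t) (hl : C.l ≤ C.L) :
    ∃ al : ℝ, |al| = lam * (cos t - cos ((π - C.T) / 2)) ∧
      C.L ^ 2 = al ^ 2 + (sin ((π - C.T) / 2) + lam * |sin t|) ^ 2 ∧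
      C.l ^ 2 = al ^ 2 + (sin ((π - C.T) / 2) - lam * |sin t|) ^ 2 ∧
      C.d1 ^ 2 = (lam * |sin t|) ^ 2 + (cos ((π - C.T) / 2) - al) ^ 2 ∧
      C.d2 ^ 2 = (lam * |sin t|) ^ 2 + (cos ((π - C.T) / 2) + al) ^ 2 := by
  have hπ : π ∈ C.Θ := by simpa using C.add_pi 0 C.zero_mem
  have hT0 := C.T_nonneg
  have hT := C.T_lt
  obtain ⟨al, be, h1, h2, h3, h4, h5, h6⟩ := C.lens_sq C.T_mem hπ (by linarith) h
  have hp : C.γ (π + π) = C.γ 0 := by simpa using C.per C.zero_mem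
  have e1 : C.dX C.T π = C.l := by simp [l, Dia.dX, Dia.dC]
  have e2 : C.dY C.T π = C.L := by
    simp only [L, Dia.dY, Dia.dC, hp]
    rw [norm_sub_rev]
  have e3 : C.dC π C.T = C.d2 := by simp [d2, Dia.dY, Dia.dC]
  have e4 : C.dC C.T π = C.d1 := by
    simp only [d1, Dia.dX, Dia.dC, hp]
    rw [norm_sub_rev]
  rw [e1] at h3
  rw [e2] at h4
  rw [e3] at h5
  rw [e4] at h6
  have hs : 0 < sin ((π - C.T) / 2) :=
    sin_pos_of_pos_of_lt_pi (by linarith) (by linarith [pi_pos])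
  have hl0 : 0 ≤ C.l := norm_nonneg _
  have hsq : C.l ^ 2 ≤ C.L ^ 2 := pow_le_pow_left₀ hl0 hl 2
  have hbe : be ≤ 0 := by
    by_contra hc
    have := mul_pos hs (lt_of_not_ge hc)
    nlinarith
  have hb : be = -(lam * |sin t|) := by
    rw [← h2, abs_of_nonpos hbe, neg_neg]
  subst hb
  refine ⟨al, h1, ?_, ?_, ?_, ?_⟩
  · rw [h4]; ring
  · rw [h3]; ring
  · rw [h6]; ring
  · rw [h5]; ring

end Cfg

end Pool.Agent.P.MP_4c4e6e_co
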