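import Pool.Agent.P.MP_4c4e6e_co.Fun
import Pool.Agent.P.MP_4c4e6e_co.Real

/-! Taylor remainders and constants. -/

namespace Pool.Agent.P.MP_4c4e6e_co

open Real

theorem pi_lo : (314159265358 / 100000000000 : ℝ) ≤ π := by
  have := Real.pi_gt_d20
  linarith

theorem pi_hi : π ≤ (314159265359 / 100000000000 : ℝ) := by
  have := Real.pi_lt_d20
  linarith

theorem r3_lo : (173205080756 / 100000000000 : ℝ) ≤ √3 :=
  Real.le_sqrt_of_sq_le (by norm_num)

theorem r3_hi : √3 ≤ (173205080757 / 100000000000 : ℝ) :=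
  Real.sqrt_le_iff.2 ⟨by norm_num, by norm_num⟩

theorem nonneg_of_deriv {f g : ℝ → ℝ} (hd : ∀ x, HasDerivAt f (g x) x) (h0 : f 0 = 0)
    (hg : ∀ x, 0 ≤ x → 0 ≤ g x) {x : ℝ} (hx : 0 ≤ x) : 0 ≤ f x := by
  have hm : MonotoneOn f (Set.Ici 0) := by
    refine monotoneOn_of_deriv_nonneg (convex_Ici 0)
      (fun y _ => (hd y).continuousAt.continuousWithinAt)
      (fun y _ => (hd y).differentiableAt.differentiableWithinAt) ?_
    intro y hy
    rw [interior_Ici] at hy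
    rw [(hd y).deriv]
    exact hg y (le_of_lt hy)
  have := hm (Set.mem_Ici.2 le_rfl) (Set.mem_Ici.2 hx) hx
  rwa [h0] at this

theorem cos_le4 {x : ℝ} (hx : 0 ≤ x) : cos x ≤ 1 - x ^ 2 / 2 + x ^ 4 / 24 := by
  have := nonneg_of_deriv (f := fun x => 1 - x ^ 2 / 2 + x ^ 4 / 24 - cos x)
    (g := fun x => sin x - (x - x ^ 3 / 6)) (fun y => by
      have h := ((((hasDerivAt_const y (1 : ℝ)).sub ((hasDerivAt_pow 2 y).div_const 2)).add
        ((hasDerivAt_pow 4 y).div_const 24)).sub (hasDerivAt_cos y))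
      refine h.congr_deriv ?_
      norm_num
      ring) (by simp) (fun y hy => by linarith [sin_ge_sub_cube hy]) hx
  linarith

theorem sin_le5 {x : ℝ} (hx : 0 ≤ x) : sin x ≤ x - x ^ 3 / 6 + x ^ 5 / 120 := by
  have := nonneg_of_deriv (f := fun x => x - x ^ 3 / 6 + x ^ 5 / 120 - sin x)
    (g := fun x => 1 - x ^ 2 / 2 + x ^ 4 / 24 - cos x) (fun y => by
      have h := ((((hasDerivAt_id y).sub ((hasDerivAt_pow 3 y).div_const 6)).add
        ((hasDerivAt_pow 5 y).div_const 120)).sub (hasDerivAt_sin y))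
      refine h.congr_deriv ?_
      norm_num
      ring) (by simp) (fun y hy => by linarith [cos_le4 hy]) hx
  linarith

theorem cos_ge6 {x : ℝ} (hx : 0 ≤ x) : 1 - x ^ 2 / 2 + x ^ 4 / 24 - x ^ 6 / 720 ≤ cos x := by
  have := nonneg_of_deriv (f := fun x => cos x - (1 - x ^ 2 / 2 + x ^ 4 / 24 - x ^ 6 / 720))
    (g := fun x => x - x ^ 3 / 6 + x ^ 5 / 120 - sin x) (fun y => by
      have h := (hasDerivAt_cos y).sub
        ((((hasDerivAt_const y (1 : ℝ)).sub ((hasDerivAt_pow 2 y).div_const 2)).add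
        ((hasDerivAt_pow 4 y).div_const 24)).sub ((hasDerivAt_pow 6 y).div_const 720))
      refine h.congr_deriv ?_
      norm_num
      ring) (by simp) (fun y hy => by linarith [sin_le5 hy]) hx
  linarith

theorem sin_ge7 {x : ℝ} (hx : 0 ≤ x) :
    x - x ^ 3 / 6 + x ^ 5 / 120 - x ^ 7 / 5040 ≤ sin x := by
  have := nonneg_of_deriv (f := fun x => sin x - (x - x ^ 3 / 6 + x ^ 5 / 120 - x ^ 7 / 5040))
    (g := fun x => cos x - (1 - x ^ 2 / 2 + x ^ 4 / 24 - x ^ 6 / 720)) (fun y => by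
      have h := (hasDerivAt_sin y).sub
        ((((hasDerivAt_id y).sub ((hasDerivAt_pow 3 y).div_const 6)).add
        ((hasDerivAt_pow 5 y).div_const 120)).sub ((hasDerivAt_pow 7 y).div_const 5040))
      refine h.congr_deriv ?_
      norm_num
      ring) (by simp) (fun y hy => by linarith [cos_ge6 hy]) hx
  linarith

theorem sin_theta {x : ℝ} (hx : 0 ≤ x) : ∃ θ : ℝ, 0 ≤ θ ∧ θ ≤ 1 / 5040 ∧
    sin x = x * (1 - x ^ 2 * (1 / 6 - x ^ 2 * (1 / 120 - x ^ 2 * θ))) := by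
  rcases hx.eq_or_lt with h | h
  · exact ⟨0, le_rfl, by norm_num, by simp [← h]⟩
  · have h7 : 0 < x ^ 7 := by positivity
    refine ⟨(x - x ^ 3 / 6 + x ^ 5 / 120 - sin x) / x ^ 7, ?_, ?_, ?_⟩
    · exact div_nonneg (by linarith [sin_le5 hx]) h7.le
    · rw [div_le_iff₀ h7]
      linarith [sin_ge7 hx]
    · field_simp
      ring

theorem cos_theta {x : ℝ} (hx : 0 ≤ x) : ∃ θ : ℝ, 0 ≤ θ ∧ θ ≤ 1 / 720 ∧
    cos x = 1 - x ^ 2 * (1 / 2 - x ^ 2 * (1 / 24 - x ^ 2 * θ)) := by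
  rcases hx.eq_or_lt with h | h
  · exact ⟨0, le_rfl, by norm_num, by simp [← h]⟩
  · have h6 : 0 < x ^ 6 := by positivity
    refine ⟨(1 - x ^ 2 / 2 + x ^ 4 / 24 - cos x) / x ^ 6, ?_, ?_, ?_⟩
    · exact div_nonneg (by linarith [cos_le4 hx]) h6.le
    · rw [div_le_iff₀ h6]
      linarith [cos_ge6 hx]
    · field_simp
      ring

end Pool.Agent.P.MP_4c4e6e_co
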